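import Pool.Agent.Lib_MP_c175fd.GlueGraph

/-!
# Piece ACYC: acyclic gluings of two paths with a common root

Two paths with `n + 1` vertices, glued along `s` with `s (inl 0) (inr 0)`. If the glued graph is acyclic then
in this graph there is only one path between two vertices (`SimpleGraph.IsAcyclic.path_unique`), so if
`s (inl i) (inr j)` the two paths `inl 0, ..., inl i` and `inr 0, ..., inr j` coincide: `i = j` and
`s (inl l) (inr l)` for all `l ≤ i`. Hence `s` is determined by the largest `k` with `s (inl k) (inr k)`, and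
its quotient has `2 n + 1 - k` elements.
-/

open MeasureTheory ProbabilityTheory Filter Topology
open scoped ENNReal NNReal

namespace WSP

/-- The path with `n + 1` vertices. -/
abbrev PG (n : ℕ) : SimpleGraph (Fin (n + 1)) := SimpleGraph.pathGraph (n + 1)

private theorem acyc_walk {W : Type*} (G : SimpleGraph W) (n : ℕ) : ∀ f : ℕ → W,
    (∀ l < n, G.Adj (f l) (f (l + 1))) → (∀ a ≤ n, ∀ b ≤ n, f a = f b → a = b) →
    ∃ p : G.Walk (f 0) (f n), p.IsPath ∧ p.length = n ∧ ∀ l ≤ n, p.getVert l = f l := by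
  induction n with
  | zero =>
    intro f _ _
    refine ⟨SimpleGraph.Walk.nil, SimpleGraph.Walk.IsPath.nil, rfl, ?_⟩
    intro l hl
    have : l = 0 := by omega
    subst this
    rfl
  | succ n ih =>
    intro f hadj hinj
    obtain ⟨p, hp, hlen, hget⟩ := ih (fun l => f (l + 1)) (fun l hl => hadj (l + 1) (by omega))
      (fun a ha b hb hab => by
        have := hinj (a + 1) (by omega) (b + 1) (by omega) hab
        omega)
    refine ⟨SimpleGraph.Walk.cons (hadj 0 (by omega)) p, ?_, ?_, ?_⟩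
    · rw [SimpleGraph.Walk.cons_isPath_iff]
      refine ⟨hp, ?_⟩
      intro hmem
      obtain ⟨l, hl, hl'⟩ := SimpleGraph.Walk.mem_support_iff_exists_getVert.1 hmem
      rw [hlen] at hl'
      rw [hget l hl'] at hl
      have := hinj (l + 1) (by omega) 0 (by omega) hl
      omega
    · rw [SimpleGraph.Walk.length_cons, hlen]
    · intro l hl
      cases l with
      | zero => rfl
      | succ l =>
        rw [SimpleGraph.Walk.getVert_cons_succ]
        exact hget l (by omega)

private theorem acyc_unique {W : Type*} {G : SimpleGraph W} (hG : G.IsAcyclic) {a b : ℕ}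
    {f g : ℕ → W} (hf : ∀ l < a, G.Adj (f l) (f (l + 1)))
    (hfi : ∀ x ≤ a, ∀ y ≤ a, f x = f y → x = y)
    (hg : ∀ l < b, G.Adj (g l) (g (l + 1)))
    (hgi : ∀ x ≤ b, ∀ y ≤ b, g x = g y → x = y) (h0 : f 0 = g 0) (h1 : f a = g b) :
    a = b ∧ ∀ l ≤ a, f l = g l := by
  obtain ⟨p, hp, hlen, hget⟩ := acyc_walk G a f hf hfi
  obtain ⟨q, hq, hlen', hget'⟩ := acyc_walk G b g hg hgi
  have key : ∀ (u v : W) (q' : G.Walk u v), q'.IsPath → q'.length = b →
      (∀ l ≤ b, q'.getVert l = g l) → ∀ p' : G.Walk u v, p'.IsPath → p'.length = a →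
      (∀ l ≤ a, p'.getVert l = f l) → a = b ∧ ∀ l ≤ a, f l = g l := by
    intro u v q' hq' hl' hg' p' hp' hl hg
    have h2 : (⟨p', hp'⟩ : G.Path u v) = ⟨q', hq'⟩ := (hG.subsingleton_path u v).elim _ _
    have h3 : p' = q' := congrArg Subtype.val h2
    subst h3
    have h4 : a = b := by rw [← hl, hl']
    refine ⟨h4, fun l hl2 => ?_⟩
    rw [← hg l hl2, hg' l (h4 ▸ hl2)]
  refine key (f 0) (f a) (q.copy h0.symm h1.symm) ?_ ?_ ?_ p hp hlen hget
  · rw [SimpleGraph.Walk.isPath_copy]
    exact hq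
  · rw [SimpleGraph.Walk.length_copy]
    exact hlen'
  · intro l hl
    rw [SimpleGraph.Walk.getVert_copy]
    exact hget' l hl

theorem acyc_prefix {n : ℕ} {s : Gluing (Fin (n + 1)) (Fin (n + 1))}
    (h0 : s.1 (Sum.inl 0) (Sum.inr 0)) (hac : (glueGraph (PG n) (PG n) s).IsAcyclic)
    {i j : Fin (n + 1)} (h : s.1 (Sum.inl i) (Sum.inr j)) :
    i = j ∧ ∀ l ≤ i, s.1 (Sum.inl l) (Sum.inr l) := by
  have hv : ∀ l ≤ n, (Fin.ofNat (n + 1) l).val = l := by
    intro l hl
    simp only [Fin.ofNat]
    exact Nat.mod_eq_of_lt (by omega)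
  have hv' : ∀ x : Fin (n + 1), Fin.ofNat (n + 1) x.val = x := by
    intro x
    apply Fin.ext
    rw [hv x.val (by omega)]
  have hi := i.2
  have hj := j.2
  obtain ⟨h1, h2⟩ := acyc_unique hac (a := i.val) (b := j.val)
    (f := fun l => glL s (Fin.ofNat (n + 1) l)) (g := fun l => glR s (Fin.ofNat (n + 1) l))
    (by
      intro l hl
      refine Or.inl ((SimpleGraph.map_adj _ _ _ _).2 ⟨_, _, ?_, rfl, rfl⟩)
      rw [SimpleGraph.pathGraph_adj, hv l (by omega), hv (l + 1) (by omega)]
      exact Or.inl rfl)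
    (by
      intro x hx y hy hxy
      have h3 := (glL s).injective hxy
      rw [← hv x (by omega), ← hv y (by omega), h3])
    (by
      intro l hl
      refine Or.inr ((SimpleGraph.map_adj _ _ _ _).2 ⟨_, _, ?_, rfl, rfl⟩)
      rw [SimpleGraph.pathGraph_adj, hv l (by omega), hv (l + 1) (by omega)]
      exact Or.inl rfl)
    (by
      intro x hx y hy hxy
      have h3 := (glR s).injective hxy
      rw [← hv x (by omega), ← hv y (by omega), h3])
    (glL_eq_glR s |>.2 (by
      have e0 : Fin.ofNat (n + 1) 0 = 0 := Fin.ext (by simp)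
      rw [e0]
      exact h0))
    (glL_eq_glR s |>.2 (by
      rw [hv', hv']
      exact h))
  refine ⟨Fin.ext h1, fun l hl => ?_⟩
  have h3 := h2 l.val hl
  have h4 := (glL_eq_glR s).1 h3
  rw [hv'] at h4
  exact h4

open Classical in
theorem acyc_sum (n : ℕ) (M : ℝ≥0∞) :
    ∑' s : Gluing (Fin (n + 1)) (Fin (n + 1)),
      (if s.1 (Sum.inl 0) (Sum.inr 0) ∧ (glueGraph (PG n) (PG n) s).IsAcyclic then
        M ^ (Fintype.card (Quotient s.1) - 1) else 0) ≤
      ∑ k ∈ Finset.range (n + 1), M ^ (2 * n - k) := by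
  set P : Gluing (Fin (n + 1)) (Fin (n + 1)) → Prop := fun s =>
    s.1 (Sum.inl 0) (Sum.inr 0) ∧ (glueGraph (PG n) (PG n) s).IsAcyclic with hP
  set S : Gluing (Fin (n + 1)) (Fin (n + 1)) → Finset (Fin (n + 1)) := fun s =>
    Finset.univ.filter fun i => s.1 (Sum.inl i) (Sum.inr i) with hS
  have hne : ∀ s : {s // P s}, (S s.1).Nonempty := fun s =>
    ⟨0, Finset.mem_filter.2 ⟨Finset.mem_univ _, s.2.1⟩⟩
  set K : {s // P s} → Fin (n + 1) := fun s => (S s.1).max' (hne s) with hK
  have hchar : ∀ (s : {s // P s}) (i j : Fin (n + 1)), s.1.1 (Sum.inl i) (Sum.inr j) ↔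
      i = j ∧ i ≤ K s := by
    intro s i j
    constructor
    · intro h
      obtain ⟨h1, h2⟩ := acyc_prefix s.2.1 s.2.2 h
      subst h1
      have h6 : i ∈ S s.1 := Finset.mem_filter.2 ⟨Finset.mem_univ _, h⟩
      exact ⟨rfl, Finset.le_max' _ _ h6⟩
    · rintro ⟨rfl, h⟩
      have h3 : K s ∈ S s.1 := Finset.max'_mem _ _
      have h4 : s.1.1 (Sum.inl (K s)) (Sum.inr (K s)) := (Finset.mem_filter.1 h3).2
      exact (acyc_prefix s.2.1 s.2.2 h4).2 i h
  have hinj : Function.Injective K := by
    intro s t hst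
    apply Subtype.ext
    apply Subtype.ext
    apply Setoid.ext
    have haux : ∀ (s t : {s // P s}), K s = K t → ∀ x y, s.1.1 x y → t.1.1 x y := by
      intro s t hst x y hxy
      rcases x with x | x <;> rcases y with y | y
      · rw [s.1.2.1 x y hxy]
      · rw [hchar] at hxy ⊢
        rw [← hst]
        exact hxy
      · have h5 : s.1.1 (Sum.inl y) (Sum.inr x) := s.1.1.symm hxy
        rw [hchar] at h5
        have h6 : t.1.1 (Sum.inl y) (Sum.inr x) := by
          rw [hchar, ← hst]
          exact h5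
        exact t.1.1.symm h6
      · rw [s.1.2.2 x y hxy]
    intro x y
    exact ⟨haux s t hst x y, haux t s hst.symm x y⟩
  have hcard : ∀ s : {s // P s}, Fintype.card (Quotient s.1.1) - 1 = 2 * n - (K s).val := by
    intro s
    have e : (Fin (n + 1) ⊕ {j : Fin (n + 1) // j ∈ Finset.Ioi (K s)}) ≃ Quotient s.1.1 := by
      refine Equiv.ofBijective (Sum.elim (fun i => glL s.1 i) (fun j => glR s.1 j.1)) ⟨?_, ?_⟩
      · rintro (a | ⟨a, ha⟩) (b | ⟨b, hb⟩) hab
        · exact congrArg Sum.inl ((glL s.1).injective hab)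
        · exfalso
          have h5 := (glL_eq_glR s.1).1 hab
          rw [hchar] at h5
          obtain ⟨h6, h7⟩ := h5
          simp only at h6
          subst h6
          exact absurd (Finset.mem_Ioi.1 hb) (not_lt.2 h7)
        · exfalso
          have h5 := (glL_eq_glR s.1).1 hab.symm
          rw [hchar] at h5
          obtain ⟨h6, h7⟩ := h5
          simp only at h6
          subst h6
          exact absurd (Finset.mem_Ioi.1 ha) (not_lt.2 h7)
        · have h5 := (glR s.1).injective hab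
          subst h5
          rfl
      · intro x
        rcases gl_cases s.1 x with ⟨a, rfl⟩ | ⟨a, rfl⟩
        · exact ⟨Sum.inl a, rfl⟩
        · by_cases ha : a ≤ K s
          · exact ⟨Sum.inl a, (glL_eq_glR s.1).2 ((hchar s a a).2 ⟨rfl, ha⟩)⟩
          · exact ⟨Sum.inr ⟨a, Finset.mem_Ioi.2 (not_le.1 ha)⟩, rfl⟩
    have h6 := Fintype.card_congr e
    rw [Fintype.card_sum, Fintype.card_fin, Fintype.card_coe, Fin.card_Ioi] at h6
    have h7 := (K s).2
    omega
  calc ∑' s : Gluing (Fin (n + 1)) (Fin (n + 1)),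
      (if s.1 (Sum.inl 0) (Sum.inr 0) ∧ (glueGraph (PG n) (PG n) s).IsAcyclic then
        M ^ (Fintype.card (Quotient s.1) - 1) else 0)
      = ∑' s : {s // P s}, M ^ (Fintype.card (Quotient s.1.1) - 1) := by
        have h8 := tsum_subtype (setOf P)
          (fun s : Gluing (Fin (n + 1)) (Fin (n + 1)) => M ^ (Fintype.card (Quotient s.1) - 1))
        refine Eq.trans (tsum_congr fun s => ?_) h8.symm
        by_cases h9 : P s
        · rw [Set.indicator_of_mem (show s ∈ setOf P from h9)]
          exact if_pos h9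
        · rw [Set.indicator_of_notMem (show s ∉ setOf P from h9)]
          exact if_neg h9
    _ = ∑' s : {s // P s}, M ^ (2 * n - (K s).val) := by
        refine tsum_congr fun s => ?_
        rw [hcard s]
    _ ≤ ∑' k : Fin (n + 1), M ^ (2 * n - k.val) :=
        ENNReal.tsum_comp_le_tsum_of_injective hinj (fun k => M ^ (2 * n - k.val))
    _ = ∑ k ∈ Finset.range (n + 1), M ^ (2 * n - k) := by
        rw [tsum_fintype, Finset.sum_range]

end WSP
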