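import Pool.Agent.Lib_MP_c175fd.EVBlock

/-!
# Piece ANFA (here) and ANFB: from the asymptotics in `T` to the asymptotics in `r`

`RegVar μ v L`: hypotheses on the function `v T = EV 1 T T` in a form valid for all `d ≥ 4`.

* `ratio`: if `EV 1 T T ~ κ T ^ 2 / L T` with `L` slowly varying (`L = 1` for `d ≥ 5`, `L = log` for
  `d = 4`) and `EV2 1 T T ≤ C (EV 1 T T) ^ 2` for large `T`, then `EV2 1 T T / (EV 1 T T) ^ 2 → 1`:
  apply `EV2_block` with `k` blocks, `T = k τ`: `EV2 T T ≤ (k ^ 2 EV τ τ) ^ 2 + 2 k ^ 3 C (EV τ τ) ^ 2`, and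
  `k ^ 2 EV τ τ / EV T T → 1`, so `limsup ≤ 1 + 2 C / k` for every `k`; the lower bound is `EV_sq_le_EV2`.
* `anFacts`: with `ρ = 2 r`, `t = c f(r)`, `EV_scale` gives `EV (2 r) t t = (2 r) ^ d EV 1 T T` with
  `T = t / (2 r) ^ 2 → ∞`. For `d ≥ 5`: `(2 r) ^ d κ T ^ 2 = κ 2 ^ (d-4) c ^ 2`. For `d = 4`:
  `(2 r) ^ 4 κ T ^ 2 / log T = κ c ^ 2 log (1/r) / log T` and `log T / log (1/r) → 2`, so the limit is
  `κ c ^ 2 / 2`.
-/

open MeasureTheory ProbabilityTheory Filter Topology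
open scoped ENNReal NNReal

namespace WSP

variable {d : ℕ}

/-- The analytic facts used by the percolation argument. -/
structure AnFacts (d : ℕ) (μ : Measure (Path d)) (κ : ℝ) : Prop where
  pos : 0 < κ
  ev : ∀ c : ℝ, 0 < c → Tendsto (fun r : ℝ => EV μ (2 * r) (tt d c r) (tt d c r)) (𝓝[>] 0)
    (𝓝 (ENNReal.ofReal (κ * c ^ 2)))
  ev2 : ∀ c : ℝ, 0 < c → Tendsto (fun r : ℝ => EV2 μ (2 * r) (tt d c r) (tt d c r)) (𝓝[>] 0)
    (𝓝 (ENNReal.ofReal ((κ * c ^ 2) ^ 2)))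

theorem EV2_ratio {μ : Measure (Path d)} (h : IsWiener μ) {κ C : ℝ} (hκ : 0 < κ) {L : ℝ → ℝ}
    (hL : ∀ᶠ T in atTop, 0 < L T)
    (hLs : ∀ k : ℕ, 0 < k → Tendsto (fun T : ℝ => L (k * T) / L T) atTop (𝓝 1))
    (hEV : Tendsto (fun T : ℝ≥0 => (EV μ 1 T T).toReal * L T / (T : ℝ) ^ 2) atTop (𝓝 κ))
    (hC : ∀ᶠ T : ℝ≥0 in atTop, EV2 μ 1 T T ≤ ENNReal.ofReal C * (EV μ 1 T T) ^ 2) :
    Tendsto (fun T : ℝ≥0 => (EV2 μ 1 T T).toReal / (EV μ 1 T T).toReal ^ 2) atTop (𝓝 1) := by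
  have hVpos : ∀ T : ℝ≥0, 0 < (EV μ 1 T T).toReal := fun T =>
    ENNReal.toReal_pos (EV_pos h one_pos T T).ne' (EV_lt_top h 1 T T).ne
  have hkT : ∀ k : ℕ, 0 < k → Tendsto (fun τ : ℝ≥0 => (k : ℝ≥0) * τ) atTop atTop := fun k hk =>
    Tendsto.const_mul_atTop (by exact_mod_cast hk) tendsto_id
  have hLn : ∀ᶠ T : ℝ≥0 in atTop, 0 < L T := NNReal.tendsto_coe_atTop.2 tendsto_id |>.eventually hL
  -- comparison of the first moments
  have hrat : ∀ k : ℕ, 0 < k → Tendsto (fun τ : ℝ≥0 =>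
      (k : ℝ) ^ 2 * (EV μ 1 τ τ).toReal / (EV μ 1 (k * τ) (k * τ)).toReal) atTop (𝓝 1) := by
    intro k hk
    have h1 : Tendsto (fun τ : ℝ≥0 => (EV μ 1 (k * τ) (k * τ)).toReal * L ((k * τ : ℝ≥0) : ℝ) /
        (((k * τ : ℝ≥0) : ℝ)) ^ 2) atTop (𝓝 κ) := hEV.comp (hkT k hk)
    have h2 : Tendsto (fun τ : ℝ≥0 => L (k * (τ : ℝ)) / L τ) atTop (𝓝 1) :=
      (hLs k hk).comp (NNReal.tendsto_coe_atTop.2 tendsto_id)
    have h3 := (hEV.div h1 hκ.ne').mul h2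
    rw [div_self hκ.ne', one_mul] at h3
    refine h3.congr' ?_
    filter_upwards [hLn, (hkT k hk).eventually hLn, eventually_gt_atTop (0 : ℝ≥0)] with τ e1 e2 e3
    have e4 : (0 : ℝ) < τ := by exact_mod_cast e3
    have e5 : (0 : ℝ) < k := by exact_mod_cast hk
    have e6 := hVpos (k * τ)
    simp only [NNReal.coe_mul, NNReal.coe_natCast] at e2 ⊢
    simp only [Pi.div_apply]
    generalize L ((k : ℝ) * (τ : ℝ)) = x at e2 ⊢
    field_simp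
  -- the upper bound
  have hup : ∀ k : ℕ, 0 < k → ∀ᶠ τ : ℝ≥0 in atTop,
      (EV2 μ 1 (k * τ) (k * τ)).toReal / (EV μ 1 (k * τ) (k * τ)).toReal ^ 2 ≤
        (1 + 2 * max C 0 / k) *
          ((k : ℝ) ^ 2 * (EV μ 1 τ τ).toReal / (EV μ 1 (k * τ) (k * τ)).toReal) ^ 2 := by
    intro k hk
    filter_upwards [hC] with τ hτ
    have e5 : (0 : ℝ) < k := by exact_mod_cast hk
    have e6 := hVpos (k * τ)
    have e1 : EV2 μ 1 (k * τ) (k * τ) ≤ ((k : ℝ≥0∞) ^ 2 * EV μ 1 τ τ) ^ 2 +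
        2 * (k : ℝ≥0∞) ^ 3 * (ENNReal.ofReal C * (EV μ 1 τ τ) ^ 2) :=
      (EV2_block h 1 hk τ).trans (by gcongr)
    have hfin : EV μ 1 τ τ ≠ ∞ := (EV_lt_top h 1 τ τ).ne
    have e2 : (EV2 μ 1 (k * τ) (k * τ)).toReal ≤ ((k : ℝ) ^ 2 * (EV μ 1 τ τ).toReal) ^ 2 +
        2 * (k : ℝ) ^ 3 * (max C 0 * (EV μ 1 τ τ).toReal ^ 2) := by
      have e3 : ((k : ℝ≥0∞) ^ 2 * EV μ 1 τ τ) ^ 2 ≠ ∞ :=
        ENNReal.pow_ne_top (ENNReal.mul_ne_top (by finiteness) hfin)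
      have e4 : 2 * (k : ℝ≥0∞) ^ 3 * (ENNReal.ofReal C * (EV μ 1 τ τ) ^ 2) ≠ ∞ :=
        ENNReal.mul_ne_top (by finiteness) (ENNReal.mul_ne_top (by finiteness)
          (ENNReal.pow_ne_top hfin))
      have e7 := ENNReal.toReal_mono (ENNReal.add_ne_top.2 ⟨e3, e4⟩) e1
      rw [ENNReal.toReal_add e3 e4] at e7
      simp only [ENNReal.toReal_mul, ENNReal.toReal_pow, ENNReal.toReal_natCast,
        ENNReal.toReal_ofNat, ENNReal.toReal_ofReal'] at e7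
      exact e7
    rw [div_pow, ← mul_div_assoc]
    gcongr
    refine e2.trans (le_of_eq ?_)
    field_simp
  have hdiv : ∀ k : ℕ, 0 < k → Tendsto (fun T : ℝ≥0 => T / (k : ℝ≥0)) atTop atTop := fun k hk =>
    Tendsto.atTop_div_const (by exact_mod_cast hk) tendsto_id
  rw [tendsto_order]
  constructor
  · intro a ha
    refine Eventually.of_forall fun T => lt_of_lt_of_le ha ?_
    rw [one_le_div (by have := hVpos T; positivity), ← ENNReal.toReal_pow]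
    exact ENNReal.toReal_mono (EV2_lt_top h 1 T T).ne (EV_sq_le_EV2 h 1 T T)
  · intro b hb
    obtain ⟨k, hk⟩ := exists_nat_gt (2 * max C 0 / (b - 1))
    have hb1 : 0 < b - 1 := by linarith
    have hk0 : (0 : ℝ) < k := lt_of_le_of_lt (by positivity) hk
    have hkn : 0 < k := by exact_mod_cast hk0
    have hlim : Tendsto (fun τ : ℝ≥0 => (1 + 2 * max C 0 / k) *
        ((k : ℝ) ^ 2 * (EV μ 1 τ τ).toReal / (EV μ 1 (k * τ) (k * τ)).toReal) ^ 2) atTop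
        (𝓝 ((1 + 2 * max C 0 / k) * 1 ^ 2)) := ((hrat k hkn).pow 2).const_mul _
    have hlt : (1 + 2 * max C 0 / k) * 1 ^ 2 < b := by
      rw [one_pow, mul_one]
      have e1 : 2 * max C 0 / k < b - 1 := by
        rw [div_lt_iff₀ hk0]
        rw [div_lt_iff₀ hb1] at hk
        linarith
      linarith
    have hev := (hup k hkn).and (hlim.eventually (gt_mem_nhds hlt))
    have hev2 := (hdiv k hkn).eventually hev
    filter_upwards [hev2] with T hT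
    have e1 : (k : ℝ≥0) * (T / (k : ℝ≥0)) = T := by
      have : (k : ℝ≥0) ≠ 0 := by exact_mod_cast hkn.ne'
      field_simp
    rw [e1] at hT
    exact lt_of_le_of_lt hT.1 hT.2

end WSP
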