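import Pool.Agent.Lib_MP_c175fd.AnFacts

/-!
# Piece ANFB (here) and ANFA: from the asymptotics in `T` to the asymptotics in `r`

`RegVar μ v L`: hypotheses on the function `v T = EV 1 T T` in a form valid for all `d ≥ 4`.

* `ratio`: if `EV 1 T T ~ κ T ^ 2 / L T` with `L` slowly varying (`L = 1` for `d ≥ 5`, `L = log` for
  `d = 4`) and `EV2 1 T T ≤ C (EV 1 T T) ^ 2` for large `T`, then `EV2 1 T T / (EV 1 T T) ^ 2 → 1`:
  apply `EV2_block` with `k` blocks, `T = k τ`: `EV2 T T ≤ (k ^ 2 EV τ τ) ^ 2 + 2 k ^ 3 C (EV τ τ) ^ 2`, and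
  `k ^ 2 EV τ τ / EV T T → 1`, so `limsup ≤ 1 + 2 C / k` for every `k`; the lower bound is `EV_sq_le_EV2`.
* `anFacts`: with `ρ = 2 r`, `t = c f(r)`, `EV_scale` gives `EV (2 r) t t = (2 r) ^ d EV 1 T T` with
  `T = t / (2 r) ^ 2 → ∞`. For `d ≥ 5`: `(2 r) ^ d κ T ^ 2 = κ 2 ^ (d-4) c ^ 2`. For `d = 4`:
  `(2 r) ^ 4 κ T ^ 2 / log T = κ c ^ 2 log (1/r) / log T` and `log T / log (1/r) → 2`, so the limit is
  `κ c ^ 2 / 2`.
-/

open MeasureTheory ProbabilityTheory Filter Topology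
open scoped ENNReal NNReal

namespace WSP

variable {d : ℕ}

/-- the rescaled time -/
noncomputable def ANFB_T (d : ℕ) (c r : ℝ) : ℝ≥0 := tt d c r / (2 * r).toNNReal ^ 2

theorem ANFB_ev {μ : Measure (Path d)} (h : IsWiener μ) {c r : ℝ} (hr : 0 < r) :
    EV μ (2 * r) (tt d c r) (tt d c r) =
      ENNReal.ofReal ((2 * r) ^ d * (EV μ 1 (ANFB_T d c r) (ANFB_T d c r)).toReal) := by
  have h2r : 0 < 2 * r := by positivity
  have hρ : 0 < (2 * r).toNNReal := Real.toNNReal_pos.mpr h2r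
  have hcoe : (((2 * r).toNNReal : ℝ≥0) : ℝ) = 2 * r := Real.coe_toNNReal _ h2r.le
  have hs := EV_scale h hρ (tt d c r) (tt d c r)
  rw [hcoe] at hs
  have hfin := (EV_lt_top h (2 * r) (tt d c r) (tt d c r)).ne
  rw [← ENNReal.ofReal_toReal hfin, hs]
  congr 1
  rw [ENNReal.toReal_mul, ENNReal.toReal_pow, ENNReal.coe_toReal, hcoe]
  rfl

theorem ANFB_ev2 {μ : Measure (Path d)} (h : IsWiener μ) {c r : ℝ} (hr : 0 < r) :
    EV2 μ (2 * r) (tt d c r) (tt d c r) =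
      ENNReal.ofReal (((2 * r) ^ d * (EV μ 1 (ANFB_T d c r) (ANFB_T d c r)).toReal) ^ 2 *
        ((EV2 μ 1 (ANFB_T d c r) (ANFB_T d c r)).toReal /
          (EV μ 1 (ANFB_T d c r) (ANFB_T d c r)).toReal ^ 2)) := by
  have h2r : 0 < 2 * r := by positivity
  have hρ : 0 < (2 * r).toNNReal := Real.toNNReal_pos.mpr h2r
  have hcoe : (((2 * r).toNNReal : ℝ≥0) : ℝ) = 2 * r := Real.coe_toNNReal _ h2r.le
  have hs := EV2_scale h hρ (tt d c r) (tt d c r)
  rw [hcoe] at hs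
  have hfin := (EV2_lt_top h (2 * r) (tt d c r) (tt d c r)).ne
  have hne : (EV μ 1 (ANFB_T d c r) (ANFB_T d c r)).toReal ≠ 0 :=
    (ENNReal.toReal_pos (EV_pos h one_pos _ _).ne' (EV_lt_top h _ _ _).ne).ne'
  rw [← ENNReal.ofReal_toReal hfin, hs]
  congr 1
  rw [ENNReal.toReal_mul, ENNReal.toReal_pow, ENNReal.coe_toReal, hcoe]
  change (2 * r) ^ (2 * d) * (EV2 μ 1 (ANFB_T d c r) (ANFB_T d c r)).toReal = _
  rw [mul_pow _ (EV μ 1 (ANFB_T d c r) (ANFB_T d c r)).toReal 2, mul_assoc,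
    mul_div_cancel₀ _ (pow_ne_zero 2 hne), ← pow_mul, mul_comm d 2]

theorem ANFB_main {μ : Measure (Path d)} (h : IsWiener μ) {κ' : ℝ} (hκ' : 0 < κ')
    (hr : Tendsto (fun T : ℝ≥0 => (EV2 μ 1 T T).toReal / (EV μ 1 T T).toReal ^ 2) atTop (𝓝 1))
    (hT : ∀ c : ℝ, 0 < c → Tendsto (fun r : ℝ => ANFB_T d c r) (𝓝[>] 0) atTop)
    (hE : ∀ c : ℝ, 0 < c → Tendsto (fun r : ℝ =>
      (2 * r) ^ d * (EV μ 1 (ANFB_T d c r) (ANFB_T d c r)).toReal) (𝓝[>] 0) (𝓝 (κ' * c ^ 2))) :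
    AnFacts d μ κ' := by
  have hpos : ∀ᶠ r : ℝ in 𝓝[>] 0, 0 < r := self_mem_nhdsWithin
  refine ⟨hκ', fun c hc => ?_, fun c hc => ?_⟩
  · refine (ENNReal.tendsto_ofReal (hE c hc)).congr' ?_
    filter_upwards [hpos] with r hr0
    exact (ANFB_ev h hr0).symm
  · have h1 : Tendsto (fun r : ℝ =>
        ((2 * r) ^ d * (EV μ 1 (ANFB_T d c r) (ANFB_T d c r)).toReal) ^ 2 *
        ((EV2 μ 1 (ANFB_T d c r) (ANFB_T d c r)).toReal /
          (EV μ 1 (ANFB_T d c r) (ANFB_T d c r)).toReal ^ 2)) (𝓝[>] 0)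
        (𝓝 ((κ' * c ^ 2) ^ 2 * 1)) := ((hE c hc).pow 2).mul (hr.comp (hT c hc))
    rw [mul_one] at h1
    refine (ENNReal.tendsto_ofReal h1).congr' ?_
    filter_upwards [hpos] with r hr0
    exact (ANFB_ev2 h hr0).symm

theorem ANFB_T_coe {c r : ℝ} (hc : 0 < c) (hr : 0 < r) (hf : 0 ≤ ff d r) :
    (ANFB_T d c r : ℝ) = c * ff d r / (2 * r) ^ 2 := by
  rw [ANFB_T, tt, NNReal.coe_div, NNReal.coe_pow, Real.coe_toNNReal _ (by positivity),
    Real.coe_toNNReal _ (by positivity)]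

theorem anFacts_five {μ : Measure (Path d)} (h : IsWiener μ) (hd : 5 ≤ d) {κ C : ℝ} (hκ : 0 < κ)
    (hEV : Tendsto (fun T : ℝ≥0 => (EV μ 1 T T).toReal / (T : ℝ) ^ 2) atTop (𝓝 κ))
    (hC : ∀ᶠ T : ℝ≥0 in atTop, EV2 μ 1 T T ≤ ENNReal.ofReal C * (EV μ 1 T T) ^ 2) :
    AnFacts d μ (κ * 2 ^ (d - 4)) := by
  have hpos : ∀ᶠ r : ℝ in 𝓝[>] 0, 0 < r := self_mem_nhdsWithin
  have hratio := EV2_ratio h hκ (L := fun _ => 1) (Eventually.of_forall fun _ => one_pos)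
    (fun k _ => by simp) (by simpa using hEV) hC
  -- the value of `T`
  have hTv : ∀ c : ℝ, 0 < c → ∀ r : ℝ, 0 < r →
      (ANFB_T d c r : ℝ) = c / 4 * (r⁻¹) ^ ((d : ℝ) / 2) := by
    intro c hc r hr
    have hff : ff d r = r ^ (((4 : ℝ) - d) / 2) := by
      rw [ff, if_neg (by omega)]
    rw [ANFB_T_coe hc hr (by rw [hff]; positivity), hff, Real.inv_rpow hr.le, ← Real.rpow_neg hr.le]
    have h1 : r ^ (((4 : ℝ) - d) / 2) = r ^ (-((d : ℝ) / 2)) * r ^ 2 := by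
      rw [← Real.rpow_natCast r 2, ← Real.rpow_add hr]
      congr 1
      push_cast
      ring
    rw [h1]
    field_simp
    ring
  have hT : ∀ c : ℝ, 0 < c → Tendsto (fun r : ℝ => ANFB_T d c r) (𝓝[>] 0) atTop := by
    intro c hc
    rw [← NNReal.tendsto_coe_atTop]
    have hd2 : (0 : ℝ) < (d : ℝ) / 2 := by
      have : (5 : ℝ) ≤ d := by exact_mod_cast hd
      linarith
    have h1 : Tendsto (fun r : ℝ => c / 4 * (r⁻¹) ^ ((d : ℝ) / 2)) (𝓝[>] 0) atTop :=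
      ((tendsto_rpow_atTop hd2).comp tendsto_inv_nhdsGT_zero).const_mul_atTop (by positivity)
    refine h1.congr' ?_
    filter_upwards [hpos] with r hr
    exact (hTv c hc r hr).symm
  refine ANFB_main h (by positivity) hratio hT (fun c hc => ?_)
  have h1 : Tendsto (fun r : ℝ => (EV μ 1 (ANFB_T d c r) (ANFB_T d c r)).toReal /
      (ANFB_T d c r : ℝ) ^ 2 * (2 ^ (d - 4) * c ^ 2)) (𝓝[>] 0) (𝓝 (κ * (2 ^ (d - 4) * c ^ 2))) :=
    (hEV.comp (hT c hc)).mul_const _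
  rw [← mul_assoc] at h1
  refine h1.congr' ?_
  filter_upwards [hpos] with r hr
  have hTne : (ANFB_T d c r : ℝ) ≠ 0 := by
    rw [hTv c hc r hr]
    positivity
  have h2 : (2 ^ (d - 4) * c ^ 2 : ℝ) = (2 * r) ^ d * (ANFB_T d c r : ℝ) ^ 2 := by
    rw [hTv c hc r hr, mul_pow (c / 4), ← Real.rpow_natCast ((r⁻¹) ^ ((d : ℝ) / 2)) 2,
      ← Real.rpow_mul (by positivity)]
    have h3 : (d : ℝ) / 2 * ((2 : ℕ) : ℝ) = (d : ℕ) := by
      push_cast
      ring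
    rw [h3, Real.rpow_natCast, mul_pow 2 r d, inv_pow]
    have h4 : (2 : ℝ) ^ d = 2 ^ (d - 4) * 16 := by
      have : (16 : ℝ) = 2 ^ 4 := by norm_num
      rw [this, ← pow_add, Nat.sub_add_cancel (by omega)]
    rw [h4]
    field_simp
    ring
  rw [h2]
  field_simp

theorem anFacts_four {μ : Measure (Path 4)} (h : IsWiener μ) {κ C : ℝ} (hκ : 0 < κ)
    (hEV : Tendsto (fun T : ℝ≥0 => (EV μ 1 T T).toReal * Real.log T / (T : ℝ) ^ 2) atTop (𝓝 κ))
    (hC : ∀ᶠ T : ℝ≥0 in atTop, EV2 μ 1 T T ≤ ENNReal.ofReal C * (EV μ 1 T T) ^ 2) :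
    AnFacts 4 μ (κ / 2) := by
  have hpos : ∀ᶠ r : ℝ in 𝓝[>] 0, 0 < r := self_mem_nhdsWithin
  have hone : ∀ᶠ r : ℝ in 𝓝[>] 0, r < 1 :=
    mem_nhdsWithin_of_mem_nhds (Iio_mem_nhds one_pos)
  have hlog0 : ∀ᶠ T : ℝ in atTop, 0 < Real.log T := by
    filter_upwards [eventually_gt_atTop 1] with T hT using Real.log_pos hT
  have hratio := EV2_ratio h hκ (L := Real.log) hlog0
    (by
      intro k hk
      have hk' : (0 : ℝ) < k := by exact_mod_cast hk
      have h1 : Tendsto (fun T : ℝ => Real.log k / Real.log T + 1) atTop (𝓝 (0 + 1)) :=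
        (tendsto_const_nhds.div_atTop Real.tendsto_log_atTop).add_const 1
      rw [zero_add] at h1
      refine h1.congr' ?_
      filter_upwards [eventually_gt_atTop 1] with T hT
      have hT0 : 0 < Real.log T := Real.log_pos hT
      rw [Real.log_mul hk'.ne' (by linarith), add_div, div_self hT0.ne'])
    hEV hC
  have hs : Tendsto (fun r : ℝ => Real.log (1 / r)) (𝓝[>] 0) atTop := by
    have h1 := Real.tendsto_log_atTop.comp (tendsto_inv_nhdsGT_zero (𝕜 := ℝ))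
    refine h1.congr (fun r => ?_)
    rw [one_div]
    rfl
  -- the value of `T`
  have hTv : ∀ c : ℝ, 0 < c → ∀ r : ℝ, 0 < r →
      (ANFB_T 4 c r : ℝ) = c / 4 * Real.sqrt (Real.log (1 / r)) * (r⁻¹) ^ 2 := by
    intro c hc r hr
    have hff : ff 4 r = Real.sqrt (Real.log (1 / r)) := by
      rw [ff, if_pos rfl]
    rw [ANFB_T_coe hc hr (by rw [hff]; positivity), hff]
    field_simp
    ring
  have hT : ∀ c : ℝ, 0 < c → Tendsto (fun r : ℝ => ANFB_T 4 c r) (𝓝[>] 0) atTop := by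
    intro c hc
    rw [← NNReal.tendsto_coe_atTop]
    have h1 : Tendsto (fun r : ℝ => c / 4 * Real.sqrt (Real.log (1 / r)) * (r⁻¹) ^ 2)
        (𝓝[>] 0) atTop :=
      ((Real.tendsto_sqrt_atTop.comp hs).const_mul_atTop (by positivity)).atTop_mul_atTop₀
        ((tendsto_pow_atTop two_ne_zero).comp tendsto_inv_nhdsGT_zero)
    refine h1.congr' ?_
    filter_upwards [hpos] with r hr
    exact (hTv c hc r hr).symm
  -- the logarithm of `T`
  have hlT : ∀ c : ℝ, 0 < c → Tendsto (fun r : ℝ => Real.log (ANFB_T 4 c r) / Real.log (1 / r))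
      (𝓝[>] 0) (𝓝 2) := by
    intro c hc
    have h1 : Tendsto (fun s : ℝ => Real.log (c / 4) / s + 1 / 2 * (Real.log s / s) + 2) atTop
        (𝓝 (0 + 1 / 2 * 0 + 2)) := by
      refine ((tendsto_const_nhds.div_atTop tendsto_id).add ?_).add_const 2
      exact (Real.isLittleO_log_id_atTop.tendsto_div_nhds_zero).const_mul _
    have h2 := h1.comp hs
    simp only [mul_zero, add_zero, zero_add] at h2
    refine h2.congr' ?_
    filter_upwards [hpos, hone] with r hr hr1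
    have hs0 : 0 < Real.log (1 / r) := Real.log_pos (by rw [lt_div_iff₀ hr]; linarith)
    have hsq : 0 < Real.sqrt (Real.log (1 / r)) := Real.sqrt_pos.mpr hs0
    rw [hTv c hc r hr, Real.log_mul (by positivity) (by positivity),
      Real.log_mul (by positivity) hsq.ne', Real.log_sqrt hs0.le, Real.log_pow]
    change Real.log (c / 4) / Real.log (1 / r) +
      1 / 2 * (Real.log (Real.log (1 / r)) / Real.log (1 / r)) + 2 = _
    have e : Real.log r⁻¹ = Real.log (1 / r) := by rw [one_div]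
    have hne := hs0.ne'
    rw [e]
    clear e h2 hs hlog0 hTv hT h1
    generalize Real.log (1 / r) = s at *
    push_cast
    field_simp
  refine ANFB_main h (by positivity) hratio hT (fun c hc => ?_)
  have h1 : Tendsto (fun r : ℝ => (EV μ 1 (ANFB_T 4 c r) (ANFB_T 4 c r)).toReal *
      Real.log (ANFB_T 4 c r) / (ANFB_T 4 c r : ℝ) ^ 2 *
      (c ^ 2 * (Real.log (ANFB_T 4 c r) / Real.log (1 / r))⁻¹)) (𝓝[>] 0)
      (𝓝 (κ * (c ^ 2 * 2⁻¹))) :=
    (hEV.comp (hT c hc)).mul (((hlT c hc).inv₀ two_ne_zero).const_mul _)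
  have h2 : κ * (c ^ 2 * 2⁻¹) = κ / 2 * c ^ 2 := by ring
  rw [h2] at h1
  refine h1.congr' ?_
  have hlpos : ∀ᶠ r : ℝ in 𝓝[>] 0, 1 < (ANFB_T 4 c r : ℝ) := by
    have := NNReal.tendsto_coe_atTop.mpr (hT c hc)
    exact this.eventually_gt_atTop 1
  filter_upwards [hpos, hone, hlpos] with r hr hr1 hT1
  have hs0 : 0 < Real.log (1 / r) := Real.log_pos (by rw [lt_div_iff₀ hr]; linarith)
  have hl0 : 0 < Real.log (ANFB_T 4 c r) := Real.log_pos hT1
  have hT0 : (0 : ℝ) < ANFB_T 4 c r := by linarith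
  have h3 : (2 * r) ^ 4 * (ANFB_T 4 c r : ℝ) ^ 2 = c ^ 2 * Real.log (1 / r) := by
    rw [hTv c hc r hr]
    have h4 : (c / 4 * Real.sqrt (Real.log (1 / r)) * (r⁻¹) ^ 2) ^ 2 =
        c ^ 2 / 16 * Real.sqrt (Real.log (1 / r)) ^ 2 * (r⁻¹) ^ 4 := by ring
    rw [h4, Real.sq_sqrt hs0.le]
    field_simp
    ring
  have h5 : c ^ 2 = (2 * r) ^ 4 * (ANFB_T 4 c r : ℝ) ^ 2 / Real.log (1 / r) := by
    rw [h3]
    field_simp
  rw [h5]
  have e1 := hs0.ne'
  have e2 := hl0.ne'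
  have e3 := hT0.ne'
  generalize Real.log (1 / r) = s at *
  generalize Real.log (ANFB_T 4 c r) = l at *
  field_simp

end WSP
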