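import Pool.Agent.Lib_MP_c175fd.EVBlock

/-!
# Piece APR: a priori bound of the second moment

Unit blocks of the first path: `Kb n k w w' = {z | z - w k ∈ Kset 1 1 n (shift k w) w'}`, `k < n`, so that
`Kset 1 n n w w' = ⋃_{k < n} Kb n k w w'` (`Kset_blocks` with one block for `w'`), and
`Fb n k = Kb n k \ ⋃_{k' < k} Kb n k'` are disjoint with the same union. Hence (volumes)
`V ^ 2 ≤ 2 ∑_k |Fb k| ∑_{l ≥ k} |Fb l| ≤ 2 ∑_k |Fb k| (|Kb k| + Vol 1 (n-k-1) n (shift (k+1) w) w')`.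
`Fb n k` only depends on `stop (k+1) w` and `w'`, so by the Markov property at time `k + 1`
(`lintegral_stop_shift`) the mean of the second product is at most
`∫ w', (∫ w, |Fb k|) * u w'` with `u w' = ∫ w, Vol 1 n n w w'`; summing over `k` gives `∫ u ^ 2`. The
first product: `|Fb k| |Kb k| ≤ |Kb k| ^ 2`, mean `EV2 1 1 n ≤ n ^ 2 EV2 1 1 1` (`EV2_block_crude`). So
`EV2 n n ≤ 2 n * n ^ 2 EV2 1 1 1 + 2 ∫ u ^ 2`.
Now `∫ u ^ 2 = ∫ w₁, ∫ w₂, ∫ w', Vol(w₁,w') Vol(w₂,w')`; decompose both factors along the unit blocks of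
`w'` (by symmetry): `Vol(w₁,w') Vol(w₂,w') ≤ ∑_k |F'_k(w₁)| (|K'_k(w₂)| + Vol(w₂, shift (k+1) w'))` plus the
same with `w₁, w₂` exchanged; the Markov property of `w'` at time `k + 1` gives for the second product
`E |F'_k(w₁)| * EV n (n-k-1)`, and the sum over `k` is at most `(EV n n) ^ 2`; the first product is at
most `(|K'_k(w₁)| ^ 2 + |K'_k(w₂)| ^ 2) / 2`. So `∫ u ^ 2 ≤ 2 (n * n ^ 2 EV2 1 1 1 + (EV n n) ^ 2)`.
-/

open MeasureTheory ProbabilityTheory Filter Topology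
open scoped ENNReal NNReal

namespace WSP

variable {d : ℕ}

/-- Displacements hit by the `k`-th unit block of the first path. -/
def Kb (n k : ℕ) (w w' : Path d) : Set (E d) := {z | z - w k ∈ Kset 1 1 n (shift k w) w'}

/-- Displacements for which the `k`-th block is the first one which hits. -/
def Fb (n k : ℕ) (w w' : Path d) : Set (E d) := Kb n k w w' \ ⋃ (l : ℕ) (_ : l < k), Kb n l w w'

theorem volume_Kb (n k : ℕ) (w w' : Path d) :
    volume (Kb n k w w') = Vol 1 1 n (shift k w) w' := by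
  unfold Kb Vol
  have h := measure_preimage_add_right (volume : Measure (E d)) (-(w k))
    (Kset 1 1 n (shift k w) w')
  rw [← h]
  congr 1

theorem measurableSet_Kb_prod (n k : ℕ) :
    MeasurableSet {p : E d × Path d × Path d | p.1 ∈ Kb n k p.2.1 p.2.2} := by
  have h := measurableSet_Kset_prod (d := d) 1 1 (n : ℝ≥0)
  have hm : Measurable (fun p : E d × Path d × Path d =>
      (p.1 - p.2.1 (k : ℝ≥0), shift (k : ℝ≥0) p.2.1, p.2.2)) := by
    refine (measurable_fst.sub ((measurable_eval _).comp (measurable_fst.comp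
      measurable_snd))).prodMk (((measurable_shift _).comp (measurable_fst.comp
      measurable_snd)).prodMk (measurable_snd.comp measurable_snd))
  exact hm h

theorem measurableSet_Fb_prod (n k : ℕ) :
    MeasurableSet {p : E d × Path d × Path d | p.1 ∈ Fb n k p.2.1 p.2.2} := by
  have : {p : E d × Path d × Path d | p.1 ∈ Fb n k p.2.1 p.2.2} =
      {p : E d × Path d × Path d | p.1 ∈ Kb n k p.2.1 p.2.2} \
        ⋃ (l : ℕ) (_ : l < k), {p : E d × Path d × Path d | p.1 ∈ Kb n l p.2.1 p.2.2} := by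
    ext p
    simp [Fb]
  rw [this]
  exact (measurableSet_Kb_prod n k).diff
    (MeasurableSet.iUnion fun l => MeasurableSet.iUnion fun _ => measurableSet_Kb_prod n l)

theorem measurable_vol_of_prod {S : Path d → Path d → Set (E d)}
    (hS : MeasurableSet {p : E d × Path d × Path d | p.1 ∈ S p.2.1 p.2.2}) :
    Measurable (fun p : Path d × Path d => (volume : Measure (E d)) (S p.1 p.2)) :=
  measurable_measure_prodMk_right hS

theorem measurableSet_Kb (n k : ℕ) (w w' : Path d) : MeasurableSet (Kb n k w w') := by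
  have h := measurableSet_Kb_prod (d := d) n k
  have hm : Measurable (fun z : E d => (z, w, w')) := by fun_prop
  exact hm h

theorem apr_measurableSet_Fb (n k : ℕ) (w w' : Path d) : MeasurableSet (Fb n k w w') := by
  have h := measurableSet_Fb_prod (d := d) n k
  have hm : Measurable (fun z : E d => (z, w, w')) := by fun_prop
  exact hm h

theorem Fb_subset_Kb (n k : ℕ) (w w' : Path d) : Fb n k w w' ⊆ Kb n k w w' := Set.sdiff_subset

theorem apr_Fb_disjoint (n : ℕ) (w w' : Path d) {k l : ℕ} (hkl : k ≠ l) :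
    Disjoint (Fb n k w w') (Fb n l w w') := by
  rw [Set.disjoint_left]
  intro z hk hl
  rcases lt_or_gt_of_ne hkl with h | h
  · exact hl.2 (Set.mem_iUnion₂.2 ⟨k, h, hk.1⟩)
  · exact hk.2 (Set.mem_iUnion₂.2 ⟨l, h, hl.1⟩)

theorem Kset_eq_iUnion_Kb {n : ℕ} (hn : 0 < n) (w w' : Path d) :
    Kset 1 n n w w' = ⋃ (k : ℕ) (_ : k < n), Kb n k w w' := by
  have h := Kset_blocks (d := d) 1 n 1 1 (n : ℝ≥0) hn one_pos w w'
  have e1 : ((n : ℝ≥0) * 1) = n := mul_one _
  have e2 : (((1 : ℕ) : ℝ≥0) * n) = n := by simp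
  rw [e1, e2] at h
  rw [h]
  have hs : shift 0 w' = w' := by
    ext s; simp
  ext z
  simp only [Set.mem_iUnion, Kb, Set.mem_ofPred_eq, exists_prop]
  constructor
  · rintro ⟨i, hi, j, hj, hz⟩
    have : j = 0 := by omega
    subst this
    refine ⟨i, hi, ?_⟩
    simpa [hs] using hz
  · rintro ⟨i, hi, hz⟩
    refine ⟨i, hi, 0, one_pos, ?_⟩
    simpa [hs] using hz

theorem iUnion_Fb (n m : ℕ) (w w' : Path d) :
    (⋃ (k : ℕ) (_ : k < m), Fb n k w w') = ⋃ (k : ℕ) (_ : k < m), Kb n k w w' := by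
  classical
  apply Set.Subset.antisymm
  · exact Set.iUnion₂_mono fun k _ => Fb_subset_Kb n k w w'
  · intro z hz
    rw [Set.mem_iUnion₂] at hz
    obtain ⟨k, hk, hz⟩ := hz
    have hex : ∃ k, z ∈ Kb n k w w' := ⟨k, hz⟩
    have h1 := Nat.find_spec hex
    have h2 : Nat.find hex ≤ k := Nat.find_min' hex hz
    refine Set.mem_iUnion₂.2 ⟨Nat.find hex, by omega, h1, ?_⟩
    intro h
    rw [Set.mem_iUnion₂] at h
    obtain ⟨l, hl, hz'⟩ := h
    exact Nat.find_min hex hl hz'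

theorem Vol_eq_sum_Fb {n : ℕ} (hn : 0 < n) (w w' : Path d) :
    Vol 1 n n w w' = ∑ k ∈ Finset.range n, volume (Fb n k w w') := by
  unfold Vol
  rw [Kset_eq_iUnion_Kb hn, ← iUnion_Fb]
  have : (⋃ (k : ℕ) (_ : k < n), Fb n k w w') = ⋃ k ∈ Finset.range n, Fb n k w w' := by
    simp
  rw [this, measure_biUnion_finset]
  · intro k _ l _ hkl
    exact apr_Fb_disjoint n w w' hkl
  · intro k _
    exact apr_measurableSet_Fb n k w w'

theorem Kb_subset_later {n k l : ℕ} (hkl : k < l) (hl : l < n) (w w' : Path d) :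
    Kb n l w w' ⊆ {z | z - w ((k + 1 : ℕ) : ℝ≥0) ∈
      Kset 1 n n (shift ((k + 1 : ℕ) : ℝ≥0) w) w'} := by
  rintro z ⟨u, hu, v, hv, h⟩
  have h1 : ((k + 1 : ℕ) : ℝ≥0) ≤ (l : ℝ≥0) := by exact_mod_cast hkl
  have h2 : ((l : ℝ≥0)) + 1 ≤ n := by exact_mod_cast hl
  refine ⟨(l : ℝ≥0) + u - ((k + 1 : ℕ) : ℝ≥0), ?_, v, hv, ?_⟩
  · calc (l : ℝ≥0) + u - ((k + 1 : ℕ) : ℝ≥0) ≤ (l : ℝ≥0) + u := tsub_le_self
      _ ≤ (l : ℝ≥0) + 1 := by gcongr
      _ ≤ n := h2
  · have h3 : ((k + 1 : ℕ) : ℝ≥0) + ((l : ℝ≥0) + u - ((k + 1 : ℕ) : ℝ≥0)) = (l : ℝ≥0) + u :=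
      add_tsub_cancel_of_le (h1.trans le_self_add)
    rw [shift_apply, h3]
    rw [shift_apply] at h
    rw [dist_eq_norm] at h ⊢
    have : w ((l : ℝ≥0) + u) - w ((k + 1 : ℕ) : ℝ≥0) - (z - w ((k + 1 : ℕ) : ℝ≥0) + w' v) =
        w ((l : ℝ≥0) + u) - w (l : ℝ≥0) - (z - w (l : ℝ≥0) + w' v) := by abel
    rw [this]
    exact h

theorem tail_sum_le {n k : ℕ} (w w' : Path d) :
    ∑ l ∈ (Finset.range n).filter (fun l => k ≤ l), volume (Fb n l w w') ≤
      volume (Kb n k w w') + Vol 1 n n (shift ((k + 1 : ℕ) : ℝ≥0) w) w' := by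
  classical
  rw [← measure_biUnion_finset]
  · have h1 : (⋃ l ∈ (Finset.range n).filter (fun l => k ≤ l), Fb n l w w') ⊆
        Kb n k w w' ∪ {z | z - w ((k + 1 : ℕ) : ℝ≥0) ∈
          Kset 1 n n (shift ((k + 1 : ℕ) : ℝ≥0) w) w'} := by
      intro z hz
      simp only [Set.mem_iUnion, Finset.mem_filter, Finset.mem_range, exists_prop] at hz
      obtain ⟨l, ⟨hl, hkl⟩, hz⟩ := hz
      rcases hkl.eq_or_lt with h | h
      · subst h; exact Or.inl hz.1
      · exact Or.inr (Kb_subset_later h hl w w' hz.1)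
    refine (measure_mono h1).trans ((measure_union_le _ _).trans ?_)
    gcongr
    unfold Vol
    have h := measure_preimage_add_right (volume : Measure (E d)) (-(w ((k + 1 : ℕ) : ℝ≥0)))
      (Kset 1 n n (shift ((k + 1 : ℕ) : ℝ≥0) w) w')
    rw [← h]
    exact le_of_eq (by congr 1)
  · intro k _ l _ hkl
    exact apr_Fb_disjoint n w w' hkl
  · intro l _
    exact apr_measurableSet_Fb n l w w'

theorem Kb_stop {n k l : ℕ} (hl : l ≤ k) (w w' : Path d) :
    Kb n l (stop ((k + 1 : ℕ) : ℝ≥0) w) w' = Kb n l w w' := by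
  have h1 : (l : ℝ≥0) ≤ ((k + 1 : ℕ) : ℝ≥0) := by exact_mod_cast (by omega : l ≤ k + 1)
  have h2 : (l : ℝ≥0) + 1 ≤ ((k + 1 : ℕ) : ℝ≥0) := by exact_mod_cast (by omega : l + 1 ≤ k + 1)
  have e1 : stop ((k + 1 : ℕ) : ℝ≥0) w (l : ℝ≥0) = w (l : ℝ≥0) := by
    rw [stop_apply, min_eq_left h1]
  have e2 : ∀ u : ℝ≥0, u ≤ 1 → shift (l : ℝ≥0) (stop ((k + 1 : ℕ) : ℝ≥0) w) u =
      shift (l : ℝ≥0) w u := by
    intro u hu
    rw [shift_apply, shift_apply, e1, stop_apply, min_eq_left]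
    exact (add_le_add_right hu _).trans h2
  ext z
  simp only [Kb, Set.mem_ofPred_eq, mem_Kset]
  constructor
  · rintro ⟨u, hu, v, hv, h⟩
    refine ⟨u, hu, v, hv, ?_⟩
    rwa [e2 u hu, e1] at h
  · rintro ⟨u, hu, v, hv, h⟩
    refine ⟨u, hu, v, hv, ?_⟩
    rwa [e2 u hu, e1]

theorem apr_Fb_stop (n k : ℕ) (w w' : Path d) :
    Fb n k (stop ((k + 1 : ℕ) : ℝ≥0) w) w' = Fb n k w w' := by
  unfold Fb
  rw [Kb_stop le_rfl]
  congr 1
  exact Set.iUnion₂_congr fun l hl => Kb_stop hl.le w w'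

theorem sum_mul_sum_le (n : ℕ) (f g : ℕ → ℝ≥0∞) :
    (∑ k ∈ Finset.range n, f k) * (∑ l ∈ Finset.range n, g l) ≤
      ∑ k ∈ Finset.range n, f k * ∑ l ∈ (Finset.range n).filter (fun l => k ≤ l), g l +
      ∑ l ∈ Finset.range n, g l * ∑ k ∈ (Finset.range n).filter (fun k => l ≤ k), f k := by
  classical
  have h1 : ∑ k ∈ Finset.range n, f k * ∑ l ∈ (Finset.range n).filter (fun l => k ≤ l), g l =
      ∑ k ∈ Finset.range n, ∑ l ∈ Finset.range n, if k ≤ l then f k * g l else 0 := by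
    refine Finset.sum_congr rfl fun k _ => ?_
    rw [Finset.sum_filter, Finset.mul_sum]
    refine Finset.sum_congr rfl fun l _ => ?_
    split_ifs <;> simp
  have h2 : ∑ l ∈ Finset.range n, g l * ∑ k ∈ (Finset.range n).filter (fun k => l ≤ k), f k =
      ∑ k ∈ Finset.range n, ∑ l ∈ Finset.range n, if l ≤ k then f k * g l else 0 := by
    rw [Finset.sum_comm]
    refine Finset.sum_congr rfl fun l _ => ?_
    rw [Finset.sum_filter, Finset.mul_sum]
    refine Finset.sum_congr rfl fun k _ => ?_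
    split_ifs
    · rw [mul_comm]
    · simp
  rw [h1, h2, Finset.sum_mul_sum, ← Finset.sum_add_distrib]
  refine Finset.sum_le_sum fun k _ => ?_
  rw [← Finset.sum_add_distrib]
  refine Finset.sum_le_sum fun l _ => ?_
  rcases le_total k l with h | h
  · rw [if_pos h]; exact le_self_add
  · rw [if_pos h]; exact le_add_self

theorem measurable_vF (n k : ℕ) :
    Measurable (fun p : Path d × Path d => volume (Fb n k p.1 p.2)) :=
  measurable_vol_of_prod (measurableSet_Fb_prod n k)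

theorem measurable_vK (n k : ℕ) :
    Measurable (fun p : Path d × Path d => volume (Kb n k p.1 p.2)) :=
  measurable_vol_of_prod (measurableSet_Kb_prod n k)

theorem lintegral_vK_sq {μ : Measure (Path d)} (h : IsWiener μ) {n : ℕ} (hn : 0 < n) (k : ℕ) :
    ∫⁻ w, ∫⁻ w', (volume (Kb n k w w')) ^ 2 ∂μ ∂μ ≤ (n : ℝ≥0∞) ^ 2 * EV2 μ 1 1 1 := by
  have := h.isProb
  have h1 : ∫⁻ w, ∫⁻ w', (volume (Kb n k w w')) ^ 2 ∂μ ∂μ = EV2 μ 1 1 n := by
    unfold EV2
    simp only [volume_Kb]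
    have hm : Measurable (fun w : Path d => ∫⁻ w', (Vol 1 1 (n : ℝ≥0) w w') ^ 2 ∂μ) :=
      ((measurable_Vol (d := d) 1 1 (n : ℝ≥0)).pow_const 2).lintegral_prod_right
    have := lintegral_map hm (measurable_shift (d := d) (k : ℝ≥0)) (μ := μ)
    rw [h.map_shift] at this
    exact this.symm
  rw [h1]
  have h2 := EV2_block_crude h 1 (k := 1) (l := n) one_pos hn 1 1
  simp only [Nat.cast_one, mul_one, one_mul] at h2
  exact h2

theorem measurable_vV (n : ℕ) :
    Measurable (fun p : Path d × Path d => Vol 1 (n : ℝ≥0) (n : ℝ≥0) p.1 p.2) :=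
  measurable_Vol 1 _ _

theorem measurable_comp_shift {g : Path d → Path d → ℝ≥0∞} (hg : Measurable (Function.uncurry g))
    (a : ℝ≥0) : Measurable (fun p : Path d × Path d => g (shift a p.1) p.2) := by
  have h1 : Measurable (fun p : Path d × Path d => (shift a p.1, p.2)) :=
    ((measurable_shift a).comp measurable_fst).prodMk measurable_snd
  exact hg.comp h1

theorem measurable_left {g : Path d → Path d → ℝ≥0∞} (hg : Measurable (Function.uncurry g))
    (w' : Path d) : Measurable (fun w => g w w') := hg.comp measurable_prodMk_right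

theorem first_pt {n : ℕ} (hn : 0 < n) (w w' : Path d) : (Vol 1 n n w w') ^ 2 ≤
    2 * ∑ k ∈ Finset.range n, (volume (Fb n k w w') * volume (Kb n k w w') +
      volume (Fb n k w w') * Vol 1 n n (shift ((k + 1 : ℕ) : ℝ≥0) w) w') := by
  have h1 := sum_mul_sum_le n (fun k => volume (Fb n k w w')) (fun k => volume (Fb n k w w'))
  rw [← Vol_eq_sum_Fb hn w w', ← pow_two, ← two_mul] at h1
  refine h1.trans ?_
  refine mul_le_mul' le_rfl (Finset.sum_le_sum fun k _ => ?_)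
  rw [← mul_add]
  exact mul_le_mul' le_rfl (tail_sum_le w w')

theorem first_A {μ : Measure (Path d)} (h : IsWiener μ) {n : ℕ} (hn : 0 < n) (k : ℕ) :
    ∫⁻ w, ∫⁻ w', volume (Fb n k w w') * volume (Kb n k w w') ∂μ ∂μ ≤
      (n : ℝ≥0∞) ^ 2 * EV2 μ 1 1 1 := by
  refine le_trans ?_ (lintegral_vK_sq h hn k)
  refine lintegral_mono fun w => lintegral_mono fun w' => ?_
  rw [pow_two]
  exact mul_le_mul' (measure_mono (Fb_subset_Kb n k w w')) le_rfl

/-- Markov property for a product: the first factor depends on the path up to time `a` only. -/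
theorem markov_mul {μ : Measure (Path d)} (h : IsWiener μ) (a : ℝ≥0)
    {f g : Path d → Path d → ℝ≥0∞} (hf : Measurable (Function.uncurry f))
    (hg : Measurable (Function.uncurry g)) (hfs : ∀ w w', f (stop a w) w' = f w w') :
    ∫⁻ w, ∫⁻ w', f w w' * g (shift a w) w' ∂μ ∂μ =
      ∫⁻ w', (∫⁻ w, f w w' ∂μ) * (∫⁻ w, g w w' ∂μ) ∂μ := by
  have := h.isProb
  have hgs := measurable_comp_shift hg a
  rw [lintegral_lintegral_swap (hf.mul hgs).aemeasurable]
  refine lintegral_congr fun w' => ?_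
  have hm1 : Measurable (fun w : Path d => f w w') := hf.comp measurable_prodMk_right
  have hm2 : Measurable (fun w : Path d => g w w') := hg.comp measurable_prodMk_right
  have h1 := h.lintegral_stop_shift a (F := fun w w₁ => f w w' * g w₁ w')
    ((hm1.comp measurable_fst).mul (hm2.comp measurable_snd))
  simp only [hfs] at h1
  rw [h1, ← lintegral_mul_const _ hm1]
  refine lintegral_congr fun w => ?_
  rw [lintegral_const_mul _ hm2]

theorem first_B {μ : Measure (Path d)} (h : IsWiener μ) (n k : ℕ) :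
    ∫⁻ w, ∫⁻ w', volume (Fb n k w w') *
      Vol 1 n n (shift ((k + 1 : ℕ) : ℝ≥0) w) w' ∂μ ∂μ =
      ∫⁻ w', (∫⁻ w, volume (Fb n k w w') ∂μ) * (∫⁻ w, Vol 1 n n w w' ∂μ) ∂μ :=
  markov_mul h _ (f := fun w w' => volume (Fb n k w w')) (g := fun w w' => Vol 1 n n w w')
    (measurable_vF n k) (measurable_vV n) (fun w w' => by rw [apr_Fb_stop])

/-- Exchange of a double integral and a finite sum. -/
theorem lintegral_two_sum {μ : Measure (Path d)} [SFinite μ] (n : ℕ)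
    {f g : ℕ → Path d → Path d → ℝ≥0∞} (hf : ∀ k, Measurable (Function.uncurry (f k)))
    (hg : ∀ k, Measurable (Function.uncurry (g k))) :
    ∫⁻ w, ∫⁻ w', 2 * ∑ k ∈ Finset.range n, (f k w w' + g k w w') ∂μ ∂μ =
      2 * ∑ k ∈ Finset.range n, (∫⁻ w, ∫⁻ w', f k w w' ∂μ ∂μ + ∫⁻ w, ∫⁻ w', g k w w' ∂μ ∂μ) := by
  have m1' : ∀ k (w : Path d), Measurable (fun w' : Path d => f k w w') := fun k w =>
    (hf k).comp measurable_prodMk_left
  have m2' : ∀ k (w : Path d), Measurable (fun w' : Path d => g k w w') := fun k w =>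
    (hg k).comp measurable_prodMk_left
  have m3' : ∀ k (w : Path d), Measurable (fun w' : Path d => f k w w' + g k w w') := fun k w =>
    (m1' k w).add (m2' k w)
  have e1 : ∀ w : Path d, ∫⁻ w', 2 * ∑ k ∈ Finset.range n, (f k w w' + g k w w') ∂μ =
      2 * ∑ k ∈ Finset.range n, (∫⁻ w', f k w w' ∂μ + ∫⁻ w', g k w w' ∂μ) := by
    intro w
    rw [lintegral_const_mul _ (Finset.measurable_fun_sum _ fun k _ => m3' k w),
      lintegral_finsetSum _ fun k _ => m3' k w]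
    congr 1
    refine Finset.sum_congr rfl fun k _ => ?_
    rw [lintegral_add_left (m1' k w)]
  simp only [e1]
  have n1 : ∀ k, Measurable (fun w : Path d => ∫⁻ w', f k w w' ∂μ) := fun k =>
    (hf k).lintegral_prod_right
  have n2 : ∀ k, Measurable (fun w : Path d => ∫⁻ w', g k w w' ∂μ) := fun k =>
    (hg k).lintegral_prod_right
  have n3 : ∀ k, Measurable (fun w : Path d => ∫⁻ w', f k w w' ∂μ + ∫⁻ w', g k w w' ∂μ) :=
    fun k => (n1 k).add (n2 k)
  rw [lintegral_const_mul _ (Finset.measurable_fun_sum _ fun k _ => n3 k),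
      lintegral_finsetSum _ fun k _ => n3 k]
  congr 1
  refine Finset.sum_congr rfl fun k _ => ?_
  rw [lintegral_add_left (n1 k)]

theorem sum_lintegral_Fb {μ : Measure (Path d)} {n : ℕ} (hn : 0 < n) (w' : Path d) :
    ∑ k ∈ Finset.range n, ∫⁻ w, volume (Fb n k w w') ∂μ = ∫⁻ w, Vol 1 n n w w' ∂μ := by
  have hm : ∀ k, Measurable (fun w : Path d => volume (Fb n k w w')) := fun k =>
    measurable_left (g := fun w w' => volume (Fb n k w w')) (measurable_vF n k) w'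
  rw [← lintegral_finsetSum _ fun k _ => hm k]
  exact lintegral_congr fun w => (Vol_eq_sum_Fb hn w w').symm

theorem first_C {μ : Measure (Path d)} (h : IsWiener μ) {n : ℕ} (hn : 0 < n) :
    ∑ k ∈ Finset.range n,
      ∫⁻ w', (∫⁻ w, volume (Fb n k w w') ∂μ) * (∫⁻ w, Vol 1 n n w w' ∂μ) ∂μ =
      ∫⁻ w', (∫⁻ w, Vol 1 n n w w' ∂μ) ^ 2 ∂μ := by
  have := h.isProb
  have hF' : ∀ k, Measurable (fun w' : Path d => ∫⁻ w, volume (Fb n k w w') ∂μ) :=
    fun k => (measurable_vF n k).lintegral_prod_left'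
  have hu : Measurable (fun w' : Path d => ∫⁻ w, Vol 1 n n w w' ∂μ) :=
    (measurable_vV n).lintegral_prod_left'
  have h3 : ∀ k, Measurable (fun w' : Path d => (∫⁻ w, volume (Fb n k w w') ∂μ) *
      (∫⁻ w, Vol 1 n n w w' ∂μ)) := fun k => (hF' k).mul hu
  rw [← lintegral_finsetSum _ fun k _ => h3 k]
  refine lintegral_congr fun w' => ?_
  rw [← Finset.sum_mul, pow_two, sum_lintegral_Fb hn w']

theorem EV2_le_first {μ : Measure (Path d)} (h : IsWiener μ) {n : ℕ} (hn : 0 < n) :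
    EV2 μ 1 n n ≤ 2 * (n : ℝ≥0∞) ^ 3 * EV2 μ 1 1 1 +
      2 * ∫⁻ w', (∫⁻ w, Vol 1 n n w w' ∂μ) ^ 2 ∂μ := by
  have := h.isProb
  have h0 : EV2 μ 1 n n ≤ ∫⁻ w, ∫⁻ w', 2 * ∑ k ∈ Finset.range n,
      (volume (Fb n k w w') * volume (Kb n k w w') +
        volume (Fb n k w w') * Vol 1 n n (shift ((k + 1 : ℕ) : ℝ≥0) w) w') ∂μ ∂μ := by
    unfold EV2
    exact lintegral_mono fun w => lintegral_mono fun w' => first_pt hn w w'
  have h1 := lintegral_two_sum (μ := μ) n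
    (f := fun k w w' => volume (Fb n k w w') * volume (Kb n k w w'))
    (g := fun k w w' => volume (Fb n k w w') *
      Vol 1 n n (shift ((k + 1 : ℕ) : ℝ≥0) w) w')
    (fun k => (measurable_vF n k).mul (measurable_vK n k))
    (fun k => (measurable_vF n k).mul
      (measurable_comp_shift (g := fun w w' => Vol 1 n n w w') (measurable_vV n) _))
  rw [h1] at h0
  refine h0.trans ?_
  have h2 : ∑ k ∈ Finset.range n,
      (∫⁻ w, ∫⁻ w', volume (Fb n k w w') * volume (Kb n k w w') ∂μ ∂μ +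
        ∫⁻ w, ∫⁻ w', volume (Fb n k w w') *
          Vol 1 n n (shift ((k + 1 : ℕ) : ℝ≥0) w) w' ∂μ ∂μ) ≤
      ∑ k ∈ Finset.range n, ((n : ℝ≥0∞) ^ 2 * EV2 μ 1 1 1 +
        ∫⁻ w', (∫⁻ w, volume (Fb n k w w') ∂μ) * (∫⁻ w, Vol 1 n n w w' ∂μ) ∂μ) :=
    Finset.sum_le_sum fun k _ => add_le_add (first_A h hn k) (first_B h n k).le
  refine (mul_le_mul' le_rfl h2).trans (le_of_eq ?_)
  rw [Finset.sum_add_distrib, Finset.sum_const, Finset.card_range, nsmul_eq_mul, mul_add,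
    first_C h hn]
  congr 1
  ring

theorem two_mul_le_sq (a b : ℝ≥0∞) : 2 * (a * b) ≤ a ^ 2 + b ^ 2 := by
  rcases le_total a b with h | h
  · obtain ⟨c, rfl⟩ := exists_add_of_le h
    have : a ^ 2 + (a + c) ^ 2 = 2 * (a * (a + c)) + c ^ 2 := by ring
    rw [this]
    exact le_self_add
  · obtain ⟨c, rfl⟩ := exists_add_of_le h
    have : (b + c) ^ 2 + b ^ 2 = 2 * ((b + c) * b) + c ^ 2 := by ring
    rw [this]
    exact le_self_add

theorem sq_lintegral_le {α : Type*} [MeasurableSpace α] {μ : Measure α} [IsProbabilityMeasure μ]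
    {f : α → ℝ≥0∞} (hf : Measurable f) : (∫⁻ x, f x ∂μ) ^ 2 ≤ ∫⁻ x, f x ^ 2 ∂μ := by
  have hf2 : Measurable (fun x => f x ^ 2) := hf.pow_const 2
  have h1 : 2 * (∫⁻ x, f x ∂μ) ^ 2 ≤ 2 * ∫⁻ x, f x ^ 2 ∂μ := by
    calc 2 * (∫⁻ x, f x ∂μ) ^ 2 = ∫⁻ x, ∫⁻ y, 2 * (f x * f y) ∂μ ∂μ := by
          have e1 : ∀ x, ∫⁻ y, 2 * (f x * f y) ∂μ = 2 * (f x * ∫⁻ y, f y ∂μ) := by
            intro x
            rw [lintegral_const_mul _ (hf.const_mul _), lintegral_const_mul _ hf]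
          simp only [e1]
          rw [lintegral_const_mul _ (hf.mul_const _), lintegral_mul_const _ hf, pow_two]
      _ ≤ ∫⁻ x, ∫⁻ y, (f x ^ 2 + f y ^ 2) ∂μ ∂μ :=
          lintegral_mono fun x => lintegral_mono fun y => two_mul_le_sq _ _
      _ = 2 * ∫⁻ x, f x ^ 2 ∂μ := by
          have e1 : ∀ x, ∫⁻ y, (f x ^ 2 + f y ^ 2) ∂μ = f x ^ 2 + ∫⁻ y, f y ^ 2 ∂μ := by
            intro x
            rw [lintegral_add_left measurable_const, lintegral_const, measure_univ, mul_one]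
          simp only [e1]
          rw [lintegral_add_right _ measurable_const, lintegral_const, measure_univ, mul_one,
            two_mul]
  exact (ENNReal.mul_le_mul_iff_right (by norm_num) (by norm_num)).1 h1

theorem markov_single {μ : Measure (Path d)} (h : IsWiener μ) (a : ℝ≥0)
    {f g : Path d → ℝ≥0∞} (hf : Measurable f) (hg : Measurable g)
    (hfs : ∀ w, f (stop a w) = f w) :
    ∫⁻ w, f w * g (shift a w) ∂μ = (∫⁻ w, f w ∂μ) * ∫⁻ w, g w ∂μ := by
  have h1 := h.lintegral_stop_shift a (F := fun w w₁ => f w * g w₁)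
    ((hf.comp measurable_fst).mul (hg.comp measurable_snd))
  simp only [hfs] at h1
  rw [h1, ← lintegral_mul_const _ hf]
  refine lintegral_congr fun w => ?_
  rw [lintegral_const_mul _ hg]

theorem measurable_right {g : Path d → Path d → ℝ≥0∞} (hg : Measurable (Function.uncurry g))
    (w : Path d) : Measurable (fun w' => g w w') := hg.comp measurable_prodMk_left

theorem mean_sq_le {μ : Measure (Path d)} (h : IsWiener μ) {n : ℕ} (hn : 0 < n) :
    ∫⁻ w', (∫⁻ w, Vol 1 n n w w' ∂μ) ^ 2 ∂μ ≤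
      2 * ((n : ℝ≥0∞) ^ 3 * EV2 μ 1 1 1 + (EV μ 1 n n) ^ 2) := by
  have := h.isProb
  -- notation
  obtain ⟨u, hu⟩ : ∃ u : Path d → ℝ≥0∞, ∀ x, u x = ∫⁻ y, Vol 1 n n x y ∂μ := ⟨_, fun _ => rfl⟩
  obtain ⟨φ, hφ⟩ : ∃ φ : ℕ → Path d → ℝ≥0∞, ∀ k x, φ k x = ∫⁻ y, volume (Fb n k x y) ∂μ :=
    ⟨_, fun _ _ => rfl⟩
  obtain ⟨κ, hκ⟩ : ∃ κ : ℕ → Path d → ℝ≥0∞, ∀ k x, κ k x = ∫⁻ y, volume (Kb n k x y) ∂μ :=
    ⟨_, fun _ _ => rfl⟩
  have mu : Measurable u := by
    have : u = fun x => ∫⁻ y, Vol 1 n n x y ∂μ := funext hu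
    rw [this]
    exact (measurable_vV n).lintegral_prod_right
  have mφ : ∀ k, Measurable (φ k) := by
    intro k
    have : φ k = fun x => ∫⁻ y, volume (Fb n k x y) ∂μ := funext (hφ k)
    rw [this]
    exact (measurable_vF n k).lintegral_prod_right
  have mκ : ∀ k, Measurable (κ k) := by
    intro k
    have : κ k = fun x => ∫⁻ y, volume (Kb n k x y) ∂μ := funext (hκ k)
    rw [this]
    exact (measurable_vK n k).lintegral_prod_right
  have hm : ∀ k x, Measurable (fun y : Path d => volume (Fb n k x y)) := fun k x =>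
    measurable_right (g := fun x y => volume (Fb n k x y)) (measurable_vF n k) x
  have hmK : ∀ k x, Measurable (fun y : Path d => volume (Kb n k x y)) := fun k x =>
    measurable_right (g := fun x y => volume (Kb n k x y)) (measurable_vK n k) x
  have hsum : ∀ x, u x = ∑ k ∈ Finset.range n, φ k x := by
    intro x
    simp only [hu, hφ]
    rw [← lintegral_finsetSum _ fun k _ => hm k x]
    exact lintegral_congr fun y => Vol_eq_sum_Fb hn x y
  have htail : ∀ k x, ∑ l ∈ (Finset.range n).filter (fun l => k ≤ l), φ l x ≤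
      κ k x + u (shift ((k + 1 : ℕ) : ℝ≥0) x) := by
    intro k x
    simp only [hu, hφ, hκ]
    rw [← lintegral_finsetSum _ fun l _ => hm l x, ← lintegral_add_left (hmK k x)]
    exact lintegral_mono fun y => tail_sum_le x y
  have hφκ : ∀ k x, φ k x ≤ κ k x := by
    intro k x
    rw [hφ, hκ]
    exact lintegral_mono fun y => measure_mono (Fb_subset_Kb n k x y)
  have hφs : ∀ k x, φ k (stop ((k + 1 : ℕ) : ℝ≥0) x) = φ k x := by
    intro k x
    rw [hφ, hφ]
    exact lintegral_congr fun y => by rw [apr_Fb_stop]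
  have hpt : ∀ x, u x ^ 2 ≤ 2 * ∑ k ∈ Finset.range n,
      (κ k x ^ 2 + φ k x * u (shift ((k + 1 : ℕ) : ℝ≥0) x)) := by
    intro x
    have h1 := sum_mul_sum_le n (fun k => φ k x) (fun k => φ k x)
    rw [← hsum x, ← pow_two, ← two_mul] at h1
    refine h1.trans (mul_le_mul' le_rfl (Finset.sum_le_sum fun k _ => ?_))
    refine (mul_le_mul' le_rfl (htail k x)).trans ?_
    rw [mul_add, pow_two]
    exact add_le_add (mul_le_mul' (hφκ k x) le_rfl) le_rfl
  have hA : ∀ k, ∫⁻ x, κ k x ^ 2 ∂μ ≤ (n : ℝ≥0∞) ^ 2 * EV2 μ 1 1 1 := by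
    intro k
    refine le_trans (lintegral_mono fun x => ?_) (lintegral_vK_sq h hn k)
    rw [hκ]
    exact sq_lintegral_le (hmK k x)
  have hB : ∀ k, ∫⁻ x, φ k x * u (shift ((k + 1 : ℕ) : ℝ≥0) x) ∂μ =
      (∫⁻ x, φ k x ∂μ) * ∫⁻ x, u x ∂μ := fun k =>
    markov_single h _ (mφ k) mu (hφs k)
  have hEV : ∫⁻ x, u x ∂μ = EV μ 1 n n := by
    unfold EV
    exact lintegral_congr hu
  have hC : ∑ k ∈ Finset.range n, ∫⁻ x, φ k x ∂μ = EV μ 1 n n := by
    rw [← hEV, ← lintegral_finsetSum _ fun k _ => mφ k]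
    exact lintegral_congr fun x => (hsum x).symm
  have h0 : ∫⁻ w', (∫⁻ w, Vol 1 n n w w' ∂μ) ^ 2 ∂μ = ∫⁻ x, u x ^ 2 ∂μ := by
    refine lintegral_congr fun x => ?_
    rw [hu]
    congr 1
    exact lintegral_congr fun y => Vol_symm _ _ _ _ _
  rw [h0]
  have mterm : ∀ k, Measurable (fun x => κ k x ^ 2 +
      φ k x * u (shift ((k + 1 : ℕ) : ℝ≥0) x)) := fun k =>
    ((mκ k).pow_const 2).add ((mφ k).mul (mu.comp (measurable_shift _)))
  calc ∫⁻ x, u x ^ 2 ∂μ ≤ ∫⁻ x, 2 * ∑ k ∈ Finset.range n,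
      (κ k x ^ 2 + φ k x * u (shift ((k + 1 : ℕ) : ℝ≥0) x)) ∂μ := lintegral_mono hpt
    _ = 2 * ∑ k ∈ Finset.range n, (∫⁻ x, κ k x ^ 2 ∂μ +
        (∫⁻ x, φ k x ∂μ) * ∫⁻ x, u x ∂μ) := by
        rw [lintegral_const_mul _ (Finset.measurable_fun_sum _ fun k _ => mterm k),
          lintegral_finsetSum _ fun k _ => mterm k]
        congr 1
        refine Finset.sum_congr rfl fun k _ => ?_
        rw [lintegral_add_left ((mκ k).pow_const 2), hB k]
    _ ≤ 2 * ∑ k ∈ Finset.range n, ((n : ℝ≥0∞) ^ 2 * EV2 μ 1 1 1 +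
        (∫⁻ x, φ k x ∂μ) * ∫⁻ x, u x ∂μ) :=
        mul_le_mul' le_rfl (Finset.sum_le_sum fun k _ => add_le_add (hA k) le_rfl)
    _ = 2 * ((n : ℝ≥0∞) ^ 3 * EV2 μ 1 1 1 + (EV μ 1 n n) ^ 2) := by
        rw [Finset.sum_add_distrib, Finset.sum_const, Finset.card_range, nsmul_eq_mul,
          ← Finset.sum_mul, hC, hEV, pow_two (EV μ 1 n n)]
        congr 2
        ring

theorem EV2_le_apriori {μ : Measure (Path d)} (h : IsWiener μ) {n : ℕ} (hn : 0 < n) :
    EV2 μ 1 n n ≤ 6 * (n : ℝ≥0∞) ^ 3 * EV2 μ 1 1 1 + 4 * (EV μ 1 n n) ^ 2 := by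
  calc EV2 μ 1 n n ≤ 2 * (n : ℝ≥0∞) ^ 3 * EV2 μ 1 1 1 +
      2 * ∫⁻ w', (∫⁻ w, Vol 1 n n w w' ∂μ) ^ 2 ∂μ := EV2_le_first h hn
    _ ≤ 2 * (n : ℝ≥0∞) ^ 3 * EV2 μ 1 1 1 +
      2 * (2 * ((n : ℝ≥0∞) ^ 3 * EV2 μ 1 1 1 + (EV μ 1 n n) ^ 2)) := by
        gcongr
        exact mean_sq_le h hn
    _ = 6 * (n : ℝ≥0∞) ^ 3 * EV2 μ 1 1 1 + 4 * (EV μ 1 n n) ^ 2 := by ring

end WSP
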