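import Mathlib

/-!
# Piece CYCEMB: a graph with a cycle contains a cyclic sequence of distinct vertices

A closed walk `p` with `p.IsCycle` has length `n + 3 ≥ 3` (`SimpleGraph.Walk.IsCycle.three_le_length`), the
vertices `p.getVert i`, `i < p.length`, are distinct, consecutive ones are adjacent, and the last one is
adjacent to the first one.
-/

namespace WSP

theorem exists_cycle_embedding {V : Type} {G : SimpleGraph V} (h : ¬ G.IsAcyclic) :
    ∃ (m : ℕ) (c : Fin (m + 3) ↪ V), ∀ i, G.Adj (c i) (c (i + 1)) := by
  unfold SimpleGraph.IsAcyclic at h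
  push Not at h
  obtain ⟨v, p, hp⟩ := h
  have h3 := hp.three_le_length
  obtain ⟨m, hm⟩ : ∃ m, p.length = m + 3 := ⟨p.length - 3, by omega⟩
  refine ⟨m, ⟨fun i => p.getVert i, ?_⟩, ?_⟩
  · intro i j hij
    refine Fin.ext (hp.getVert_injOn' ?_ ?_ hij)
    · show (i : ℕ) ≤ p.length - 1
      have := i.2
      omega
    · show (j : ℕ) ≤ p.length - 1
      have := j.2
      omega
  · intro i
    show G.Adj (p.getVert i) (p.getVert ((i + 1 : Fin (m + 3)) : ℕ))
    have hadj := p.adj_getVert_succ (i := i) (by have := i.2; omega)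
    rcases Nat.lt_or_ge ((i : ℕ) + 1) (m + 3) with hlt | hge
    · rw [Fin.val_add_one_of_lt' hlt]
      exact hadj
    · have hi : (i : ℕ) + 1 = m + 3 := by
        have := i.2
        omega
      have hz : ((i + 1 : Fin (m + 3)) : ℕ) = 0 := by
        rw [Fin.val_add]
        have h1 : (((1 : Fin (m + 3))) : ℕ) = 1 := rfl
        rw [h1, hi, Nat.mod_self]
      rw [hz, p.getVert_zero]
      have hv : p.getVert ((i : ℕ) + 1) = v := by
        have := p.getVert_length
        rwa [hm, ← hi] at this
      rwa [hv] at hadj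

end WSP
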