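import Pool.Agent.Lib_MP_c175fd.CycDefs

/-!
# Piece CYCEQ: the measure of closed chains in terms of the kernel `QQ`

For `m + 3` vertices: choose the root `z 0 = (x, w₀)` with `x ∈ Q`, the next vertex
`z 1 = (x + y, w₁)`, and integrate the remaining `m + 1` vertices successively:
`∫ 1{hit (z 1) (z 2)} ... 1{hit (z (m+2)) (z 0)} = QQ (m + 1) t t w₁ w₀ (-y)`
(by induction on the number of remaining vertices; the statement to prove by induction is that for
all marks `p, q`, the `Measure.pi` measure over `Fin (j + 1)` of the chains from `p` to `q` is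
`QQ j t t p.2 q.2 (q.1 - p.1)`, splitting `Fin (j + 1 + 1)` with `Fin.cons`,
`MeasureTheory.measurePreserving_piFinSuccAbove` at `0`).
-/

open MeasureTheory ProbabilityTheory Filter Topology
open scoped ENNReal NNReal

namespace WSP

variable {d : ℕ}

/-- Integrate the first coordinate of a finite power of a measure. -/
theorem pi_cons_apply {α : Type*} [MeasurableSpace α] (ν : Measure α) [SigmaFinite ν] (n : ℕ)
    {S : Set (Fin (n + 1) → α)} (hS : MeasurableSet S) :
    Measure.pi (fun _ : Fin (n + 1) => ν) S =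
      ∫⁻ y, Measure.pi (fun _ : Fin n => ν)
        {z | (Fin.cons y z : Fin (n + 1) → α) ∈ S} ∂ν := by
  have hmp := (measurePreserving_piFinSuccAbove (fun _ : Fin (n + 1) => ν) 0).symm
  have h1 := hmp.measure_preimage (s := S) hS.nullMeasurableSet
  rw [← h1, Measure.prod_apply (hmp.measurable hS)]
  refine lintegral_congr fun y => ?_
  congr 1
  ext z
  simp only [Set.mem_preimage, Set.mem_ofPred_eq, MeasurableEquiv.piFinSuccAbove_symm_apply,
    Fin.insertNthEquiv_zero]
  exact Iff.rfl

theorem measurableSet_hitR_comp {α : Type*} [MeasurableSpace α] (ρ : ℝ) (s t : ℝ≥0)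
    {f g : α → Mark d} (hf : Measurable f) (hg : Measurable g) :
    MeasurableSet {x | hitR ρ s t (f x) (g x)} :=
  (hf.prodMk hg) (measurableSet_hitR ρ s t)

/-- One step: integrate one vertex of a chain. -/
theorem lintegral_hitR_QQ (μ : Measure (Path d)) [IsProbabilityMeasure μ] (ρ : ℝ) (t : ℝ≥0)
    (j : ℕ) (p q : Mark d) :
    ∫⁻ y : Mark d, {y : Mark d | hitR ρ t t p y}.indicator
      (fun y => QQ μ ρ t j t t y.2 q.2 (q.1 - y.1)) y ∂(nuM μ) =
      QQ μ ρ t (j + 1) t t p.2 q.2 (q.1 - p.1) := by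
  have hm : Measurable (fun y : Mark d => {y : Mark d | hitR ρ t t p y}.indicator
      (fun y => QQ μ ρ t j t t y.2 q.2 (q.1 - y.1)) y) := by
    refine Measurable.indicator ?_
      (measurableSet_hitR_comp ρ t t measurable_const measurable_id)
    exact (measurable_QQ μ ρ t j t t).comp
      (measurable_snd.prodMk (measurable_const.prodMk (measurable_const.sub measurable_fst)))
  rw [nuM, lintegral_prod_symm' _ hm]
  simp only [QQ]
  refine lintegral_congr fun w'' => ?_
  rw [← lintegral_sub_right_eq_self (fun y => (Kset ρ t t p.2 w'').indicator (fun _ => 1) y *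
      QQ μ ρ t j t t w'' q.2 (q.1 - p.1 - y)) p.1]
  refine lintegral_congr fun x => ?_
  by_cases hx : x - p.1 ∈ Kset ρ t t p.2 w''
  · have hx' : ((x, w'') : Mark d) ∈ {y : Mark d | hitR ρ t t p y} := hx
    rw [Set.indicator_of_mem hx', Set.indicator_of_mem hx, one_mul]
    congr 1
    abel
  · have hx' : ((x, w'') : Mark d) ∉ {y : Mark d | hitR ρ t t p y} := hx
    rw [Set.indicator_of_notMem hx', Set.indicator_of_notMem hx, zero_mul]

theorem measurableSet_chain (ρ : ℝ) (t : ℝ≥0) (j : ℕ) (p q : Mark d) :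
    MeasurableSet {z : Fin (j + 1) → Mark d |
      hitR ρ t t p (z 0) ∧ (∀ i : Fin j, hitR ρ t t (z i.castSucc) (z i.succ)) ∧
        hitR ρ t t (z (Fin.last j)) q} := by
  refine MeasurableSet.inter (measurableSet_hitR_comp ρ t t measurable_const
    (measurable_pi_apply 0)) (MeasurableSet.inter ?_ (measurableSet_hitR_comp ρ t t
      (measurable_pi_apply _) measurable_const))
  have h : MeasurableSet (⋂ i : Fin j, {z : Fin (j + 1) → Mark d |
      hitR ρ t t (z i.castSucc) (z i.succ)}) :=
    MeasurableSet.iInter fun i => measurableSet_hitR_comp ρ t t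
      (measurable_pi_apply _) (measurable_pi_apply _)
  refine (congrArg MeasurableSet ?_).mp h
  ext z
  simp only [Set.mem_iInter, Set.mem_ofPred_eq]
  rfl

/-- Open chains with `j + 1` intermediate vertices from `p` to `q`. -/
theorem pi_chain_eq (μ : Measure (Path d)) [IsProbabilityMeasure μ] (ρ : ℝ) (t : ℝ≥0) (j : ℕ)
    (p q : Mark d) :
    Measure.pi (fun _ : Fin (j + 1) => nuM μ)
      {z | hitR ρ t t p (z 0) ∧ (∀ i : Fin j, hitR ρ t t (z i.castSucc) (z i.succ)) ∧
        hitR ρ t t (z (Fin.last j)) q} = QQ μ ρ t (j + 1) t t p.2 q.2 (q.1 - p.1) := by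
  induction j generalizing p with
  | zero =>
    rw [pi_cons_apply _ _ (measurableSet_chain ρ t 0 p q), ← lintegral_hitR_QQ μ ρ t 0 p q]
    refine lintegral_congr fun y => ?_
    by_cases h1 : hitR ρ t t p y
    · have h1' : y ∈ {y : Mark d | hitR ρ t t p y} := h1
      rw [Set.indicator_of_mem h1']
      simp only [QQ]
      by_cases h2 : hitR ρ t t y q
      · have h2' : q.1 - y.1 ∈ Kset ρ t t y.2 q.2 := h2
        rw [Set.indicator_of_mem h2']
        have hset : {z : Fin 0 → Mark d | (Fin.cons y z : Fin (0 + 1) → Mark d) ∈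
            {z : Fin (0 + 1) → Mark d | hitR ρ t t p (z 0) ∧
              (∀ i : Fin 0, hitR ρ t t (z i.castSucc) (z i.succ)) ∧
              hitR ρ t t (z (Fin.last 0)) q}} = Set.univ := by
          ext z
          simp only [Set.mem_ofPred_eq, Set.mem_univ, iff_true]
          exact ⟨h1, fun i => i.elim0, h2⟩
        rw [hset, Measure.pi_univ]
        simp
      · have h2' : q.1 - y.1 ∉ Kset ρ t t y.2 q.2 := h2
        rw [Set.indicator_of_notMem h2']
        refine measure_mono_null (t := ∅) ?_ (by simp)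
        rintro z ⟨-, -, h3⟩
        exact h2 h3
    · have h1' : y ∉ {y : Mark d | hitR ρ t t p y} := h1
      rw [Set.indicator_of_notMem h1']
      refine measure_mono_null (t := ∅) ?_ (by simp)
      rintro z ⟨h3, -, -⟩
      exact h1 h3
  | succ j ih =>
    rw [pi_cons_apply _ _ (measurableSet_chain ρ t (j + 1) p q), ← lintegral_hitR_QQ μ ρ t _ p q]
    refine lintegral_congr fun y => ?_
    by_cases h1 : hitR ρ t t p y
    · have h1' : y ∈ {y : Mark d | hitR ρ t t p y} := h1
      rw [Set.indicator_of_mem h1', ← ih y]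
      congr 1
      ext z
      simp only [Set.mem_ofPred_eq]
      constructor
      · rintro ⟨-, h3, h4⟩
        refine ⟨h3 0, fun i => ?_, h4⟩
        have := h3 i.succ
        rwa [Fin.castSucc_succ, Fin.cons_succ, Fin.cons_succ] at this
      · rintro ⟨h2, h3, h4⟩
        refine ⟨h1, fun i => ?_, h4⟩
        refine Fin.cases ?_ (fun i => ?_) i
        · exact h2
        · have := h3 i
          rw [← Fin.succ_castSucc, Fin.cons_succ, Fin.cons_succ]
          exact this
    · have h1' : y ∉ {y : Mark d | hitR ρ t t p y} := h1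
      rw [Set.indicator_of_notMem h1']
      refine measure_mono_null (t := ∅) ?_ (by simp)
      rintro z ⟨h3, -, -⟩
      exact h1 h3

theorem castSucc_succ_add_one {n : ℕ} (i : Fin (n + 1)) :
    (i.castSucc.succ + 1 : Fin (n + 2 + 1)) = i.succ.succ := by
  ext
  rw [Fin.val_add_one_of_lt]
  · simp
  · rw [Fin.lt_def]
    simp only [Fin.val_succ, Fin.val_castSucc, Fin.val_last]
    omega

theorem cycle_iff_chain {α : Type*} (R : α → α → Prop) (m : ℕ) (p : α) (z : Fin (m + 2) → α) :
    (∀ i : Fin (m + 2 + 1), R ((Fin.cons p z : Fin (m + 2 + 1) → α) i)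
      ((Fin.cons p z : Fin (m + 2 + 1) → α) (i + 1))) ↔
    (R p (z 0) ∧ (∀ i : Fin (m + 1), R (z i.castSucc) (z i.succ)) ∧ R (z (Fin.last (m + 1))) p) := by
  constructor
  · intro h3
    refine ⟨?_, fun i => ?_, ?_⟩
    · have := h3 0
      rw [zero_add, Fin.cons_zero, ← Fin.succ_zero_eq_one, Fin.cons_succ] at this
      exact this
    · have := h3 i.castSucc.succ
      rw [castSucc_succ_add_one, Fin.cons_succ, Fin.cons_succ] at this
      exact this
    · have := h3 (Fin.last (m + 2))
      rw [Fin.last_add_one, Fin.cons_zero, ← Fin.succ_last, Fin.cons_succ] at this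
      exact this
  · rintro ⟨h2, h3, h4⟩ i
    refine Fin.cases ?_ (fun i => ?_) i
    · rw [zero_add, Fin.cons_zero, ← Fin.succ_zero_eq_one, Fin.cons_succ]
      exact h2
    · refine Fin.lastCases ?_ (fun i => ?_) i
      · rw [Fin.cons_succ, Fin.succ_last, Fin.last_add_one, Fin.cons_zero]
        exact h4
      · rw [castSucc_succ_add_one, Fin.cons_succ, Fin.cons_succ]
        exact h3 i

theorem measurableSet_cycle (ρ : ℝ) (t : ℝ≥0) (m : ℕ) {Q : Set (E d)} (hQ : MeasurableSet Q) :
    MeasurableSet {z : Fin (m + 2 + 1) → Mark d |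
      (z 0).1 ∈ Q ∧ ∀ i, hitR ρ t t (z i) (z (i + 1))} := by
  refine MeasurableSet.inter ((measurable_fst.comp (measurable_pi_apply 0)) hQ) ?_
  have h : MeasurableSet (⋂ i : Fin (m + 2 + 1), {z : Fin (m + 2 + 1) → Mark d |
      hitR ρ t t (z i) (z (i + 1))}) :=
    MeasurableSet.iInter fun i => measurableSet_hitR_comp ρ t t
      (measurable_pi_apply _) (measurable_pi_apply _)
  refine (congrArg MeasurableSet ?_).mp h
  ext z
  simp only [Set.mem_iInter, Set.mem_ofPred_eq]
  rfl

theorem pi_cycle_eq_aux (μ : Measure (Path d)) [IsProbabilityMeasure μ] (ρ : ℝ) (t : ℝ≥0) (m : ℕ)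
    {Q : Set (E d)} (hQ : MeasurableSet Q) :
    Measure.pi (fun _ : Fin (m + 2 + 1) => nuM μ)
      {z | (z 0).1 ∈ Q ∧ ∀ i, hitR ρ t t (z i) (z (i + 1))} =
      ∫⁻ p : Mark d, Q.indicator (fun _ => 1) p.1 * QQ μ ρ t (m + 1 + 1) t t p.2 p.2 0
        ∂(nuM μ) := by
  rw [pi_cons_apply _ _ (measurableSet_cycle ρ t m hQ)]
  refine lintegral_congr fun p => ?_
  by_cases hp : p.1 ∈ Q
  · have h0 := pi_chain_eq μ ρ t (m + 1) p p
    rw [sub_self] at h0
    rw [Set.indicator_of_mem hp, one_mul, ← h0]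
    congr 1
    ext z
    simp only [Set.mem_ofPred_eq]
    exact ⟨fun h => (cycle_iff_chain (hitR ρ t t) m p z).1 h.2,
      fun h => ⟨hp, (cycle_iff_chain (hitR ρ t t) m p z).2 h⟩⟩
  · rw [Set.indicator_of_notMem hp, zero_mul]
    refine measure_mono_null (t := ∅) ?_ (by simp)
    rintro z ⟨h3, -⟩
    exact hp h3

theorem measurable_diag {F : Path d × Path d × E d → ℝ≥0∞} (hF : Measurable F) :
    Measurable fun w : Path d => F (w, w, 0) :=
  hF.comp (measurable_id.prodMk (measurable_id.prodMk measurable_const))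

theorem pi_cycle_eq (μ : Measure (Path d)) [IsProbabilityMeasure μ] (ρ : ℝ) (t : ℝ≥0) (m : ℕ)
    {Q : Set (E d)} (hQ : MeasurableSet Q) :
    Measure.pi (fun _ : Fin (m + 3) => nuM μ)
      {z | (z 0).1 ∈ Q ∧ ∀ i, hitR ρ t t (z i) (z (i + 1))} =
    volume Q * ∫⁻ w₀, ∫⁻ w₁, (∫⁻ y, (Kset ρ t t w₀ w₁).indicator (fun _ => 1) y *
      QQ μ ρ t (m + 1) t t w₁ w₀ (-y)) ∂μ ∂μ := by
  have hQQ : Measurable fun w : Path d => QQ μ ρ t (m + 1 + 1) t t w w 0 :=
    measurable_diag (measurable_QQ μ ρ t (m + 1 + 1) t t)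
  refine (pi_cycle_eq_aux μ ρ t m hQ).trans ?_
  rw [nuM, lintegral_prod_mul (f := fun x : E d => Q.indicator (fun _ => (1 : ℝ≥0∞)) x)
    (g := fun w : Path d => QQ μ ρ t (m + 1 + 1) t t w w 0)
    (measurable_const.indicator hQ).aemeasurable hQQ.aemeasurable]
  congr 1
  · rw [lintegral_indicator hQ]
    simp
  · refine lintegral_congr fun w₀ => ?_
    rw [QQ]
    simp only [zero_sub]

end WSP
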