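import Pool.Agent.Lib_MP_c175fd.CycJJ

/-!
# Pieces CYCA, CYCC: the two cases of the block decomposition of a closed chain

`JJ a₀ b₀ a₁ b₁`: the closed chain with root `w₀` and second vertex `w₁` where the edge `w₀ w₁` uses the
block `b₀` of `w₀` and the block `a₁` of `w₁`, the open chain from `w₁` back to `w₀` uses the block `b₁` of
`w₁` and the block `a₀` of `w₀`.

* `cycle_le_sum_JJ` (piece CYCC): `Kset_blocks`, `QQ_blocks_left`, `QQ_blocks_right` and the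
  substitution `y = z - w₀ (b₀ τ) + w₁ (a₁ τ)`.
* `JJ_far_zero` (piece CYCA): `a₀ + 2 ≤ b₀` or `b₀ + 2 ≤ a₀`. For fixed `w₁` the integrand is a function
  of the two blocks `a₀`, `b₀` of `w₀` (stopped paths, `Kset_stop`, `QQ_stop`) and of the increment between
  them: if `a₀ < b₀`, `w₀ (b₀ τ) - w₀ (a₀ τ) = (block a₀ at time τ) + M` with
  `M = w₀ (b₀ τ) - w₀ ((a₀ + 1) τ)`; if `b₀ < a₀` it is `- (block b₀ at time τ) - M'`. By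
  `IsWiener.map_blocks_gap` the triple is independent and the density of `M` is at most
  `(2 π τ) ^ (-d/2)` (`IsWiener.prob_eval_le` gives `∫ F (c ± M) ≤ (2 π τ) ^ (-d/2) ∫ F`), so the integral
  over `M` of `QQ (.. ± M)` is at most `(2 π τ) ^ (-d/2) qq`. Then integrate `y`: factor `Vol τ τ`. Finally
  `a b ≤ a ^ 2 + b ^ 2`, `map_shift` and independence of `w₀`, `w₁`.
* `JJ_far_one` (piece CYCA): the same for `w₁`.
* `JJ_near` (piece CYCC): drop the last edge (`QQ_succ_le`), integrate `y`, and use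
  `2 a b ≤ lam a ^ 2 + lam⁻¹ b ^ 2`; the second moment of `∫ w'', qq m τ t w w''` is at most
  `∫∫ qq ^ 2` by Jensen.
-/

open MeasureTheory ProbabilityTheory Filter Topology
open scoped ENNReal NNReal

namespace WSP

variable {d : ℕ}

/-- the integrand of `JJ` -/
noncomputable def CYCC_F (μ : Measure (Path d)) (ρ : ℝ) (t τ : ℝ≥0) (m a₀ b₀ a₁ b₁ : ℕ)
    (w₀ w₁ : Path d) (y : E d) : ℝ≥0∞ :=
  (Kset ρ τ τ (shift (b₀ * τ) w₀) (shift (a₁ * τ) w₁)).indicator (fun _ => 1) y *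
      QQ μ ρ t (m + 1) τ τ (shift (b₁ * τ) w₁) (shift (a₀ * τ) w₀)
        (-y - (w₀ (b₀ * τ) - w₀ (a₀ * τ)) + (w₁ (a₁ * τ) - w₁ (b₁ * τ)))

theorem CYCC_measurable_F (μ : Measure (Path d)) [IsProbabilityMeasure μ] (ρ : ℝ) (t τ : ℝ≥0)
    (m a₀ b₀ a₁ b₁ : ℕ) :
    Measurable (fun p : Path d × Path d × E d =>
      CYCC_F μ ρ t τ m a₀ b₀ a₁ b₁ p.1 p.2.1 p.2.2) := by
  unfold CYCC_F
  have h0 : ∀ s : ℝ≥0, Measurable (fun p : Path d × Path d × E d => p.1 s) := fun s =>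
    (measurable_eval s).comp measurable_fst
  have h1 : ∀ s : ℝ≥0, Measurable (fun p : Path d × Path d × E d => p.2.1 s) := fun s =>
    (measurable_eval s).comp (measurable_fst.comp measurable_snd)
  have h2 : Measurable (fun p : Path d × Path d × E d => p.2.2) :=
    measurable_snd.comp measurable_snd
  have hs0 : ∀ s : ℝ≥0, Measurable (fun p : Path d × Path d × E d => shift s p.1) := fun s =>
    (measurable_shift s).comp measurable_fst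
  have hs1 : ∀ s : ℝ≥0, Measurable (fun p : Path d × Path d × E d => shift s p.2.1) := fun s =>
    (measurable_shift s).comp (measurable_fst.comp measurable_snd)
  refine Measurable.mul ?_ ?_
  · have h3 : Measurable (fun p : Path d × Path d × E d =>
        ((p.2.2, shift (b₀ * τ) p.1, shift (a₁ * τ) p.2.1) : E d × Path d × Path d)) :=
      h2.prodMk ((hs0 _).prodMk (hs1 _))
    have h4 := h3 (measurableSet_Kset_prod (d := d) ρ τ τ)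
    have h5 : (fun p : Path d × Path d × E d =>
        (Kset ρ τ τ (shift (b₀ * τ) p.1) (shift (a₁ * τ) p.2.1)).indicator
          (fun _ => (1 : ℝ≥0∞)) p.2.2) =
        (((fun p : Path d × Path d × E d =>
          ((p.2.2, shift (b₀ * τ) p.1, shift (a₁ * τ) p.2.1) : E d × Path d × Path d)) ⁻¹'
          {p : E d × Path d × Path d | p.1 ∈ Kset ρ τ τ p.2.1 p.2.2}).indicator
            (fun _ => (1 : ℝ≥0∞))) := by
      funext p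
      rfl
    rw [h5]
    exact measurable_const.indicator h4
  · have g0 : Measurable (fun p : Path d × Path d × E d => p.1 (b₀ * τ) - p.1 (a₀ * τ)) :=
      (h0 (b₀ * τ)).sub (h0 (a₀ * τ))
    have g1 : Measurable (fun p : Path d × Path d × E d => p.2.1 (a₁ * τ) - p.2.1 (b₁ * τ)) :=
      (h1 (a₁ * τ)).sub (h1 (b₁ * τ))
    have g2 : Measurable (fun p : Path d × Path d × E d => -p.2.2) := h2.neg
    have g3 : Measurable (fun p : Path d × Path d × E d =>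
        -p.2.2 - (p.1 (b₀ * τ) - p.1 (a₀ * τ))) := g2.sub g0
    have g4 : Measurable (fun p : Path d × Path d × E d =>
        -p.2.2 - (p.1 (b₀ * τ) - p.1 (a₀ * τ)) + (p.2.1 (a₁ * τ) - p.2.1 (b₁ * τ))) :=
      g3.add g1
    have g5 : Measurable (fun p : Path d × Path d × E d =>
        ((shift (b₁ * τ) p.2.1, shift (a₀ * τ) p.1,
          (-p.2.2 - (p.1 (b₀ * τ) - p.1 (a₀ * τ)) + (p.2.1 (a₁ * τ) - p.2.1 (b₁ * τ)))) :
          Path d × Path d × E d)) :=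
      (hs1 (b₁ * τ)).prodMk ((hs0 (a₀ * τ)).prodMk g4)
    have g6 := measurable_QQ μ ρ t (m + 1) τ τ
    generalize QQ μ ρ t (m + 1) τ τ = q at g6 ⊢
    exact Measurable.comp (g := fun p : Path d × Path d × E d => q p.1 p.2.1 p.2.2) g6 g5

theorem CYCC_F_eq (μ : Measure (Path d)) (ρ : ℝ) (t τ : ℝ≥0) (m a₀ b₀ a₁ b₁ : ℕ)
    (w₀ w₁ : Path d) (y : E d) : CYCC_F μ ρ t τ m a₀ b₀ a₁ b₁ w₀ w₁ y =
    (Kset ρ τ τ (shift (b₀ * τ) w₀) (shift (a₁ * τ) w₁)).indicator (fun _ => 1) y *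
      QQ μ ρ t (m + 1) τ τ (shift (b₁ * τ) w₁) (shift (a₀ * τ) w₀)
        (-y - (w₀ (b₀ * τ) - w₀ (a₀ * τ)) + (w₁ (a₁ * τ) - w₁ (b₁ * τ))) := rfl

theorem CYCC_JJ_eq (μ : Measure (Path d)) (ρ : ℝ) (t τ : ℝ≥0) (m a₀ b₀ a₁ b₁ : ℕ) :
    JJ μ ρ t τ m a₀ b₀ a₁ b₁ =
      ∫⁻ w₀, ∫⁻ w₁, (∫⁻ y, CYCC_F μ ρ t τ m a₀ b₀ a₁ b₁ w₀ w₁ y) ∂μ ∂μ := rfl

attribute [irreducible] CYCC_F

/-- pointwise decomposition of the set -/
theorem CYCC_Kset (ρ : ℝ) {k : ℕ} (hk : 0 < k) (τ : ℝ≥0) (w₀ w₁ : Path d) (y : E d) :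
    (Kset ρ (k * τ) (k * τ) w₀ w₁).indicator (fun _ => (1 : ℝ≥0∞)) y ≤
      ∑ b₀ ∈ Finset.range k, ∑ a₁ ∈ Finset.range k,
        (Kset ρ τ τ (shift (b₀ * τ) w₀) (shift (a₁ * τ) w₁)).indicator (fun _ => (1 : ℝ≥0∞))
          (y - w₀ (b₀ * τ) + w₁ (a₁ * τ)) := by
  by_cases hy : y ∈ Kset ρ (k * τ) (k * τ) w₀ w₁
  · have hy' := hy
    rw [Kset_blocks ρ k k τ τ hk hk w₀ w₁] at hy'
    simp only [Set.mem_iUnion, Set.mem_ofPred_eq] at hy'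
    obtain ⟨i, hi, j, hj, hij⟩ := hy'
    rw [Set.indicator_of_mem hy]
    calc (1 : ℝ≥0∞) = (Kset ρ τ τ (shift (i * τ) w₀) (shift (j * τ) w₁)).indicator
          (fun _ => (1 : ℝ≥0∞)) (y - w₀ (i * τ) + w₁ (j * τ)) := by
          rw [Set.indicator_of_mem hij]
      _ ≤ ∑ a₁ ∈ Finset.range k,
          (Kset ρ τ τ (shift (i * τ) w₀) (shift (a₁ * τ) w₁)).indicator (fun _ => (1 : ℝ≥0∞))
          (y - w₀ (i * τ) + w₁ (a₁ * τ)) :=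
          Finset.single_le_sum (f := fun a₁ : ℕ =>
            (Kset ρ τ τ (shift (i * τ) w₀) (shift (a₁ * τ) w₁)).indicator (fun _ => (1 : ℝ≥0∞))
            (y - w₀ (i * τ) + w₁ (a₁ * τ))) (fun _ _ => zero_le) (Finset.mem_range.2 hj)
      _ ≤ _ :=
          Finset.single_le_sum (f := fun b₀ : ℕ => ∑ a₁ ∈ Finset.range k,
            (Kset ρ τ τ (shift (b₀ * τ) w₀) (shift (a₁ * τ) w₁)).indicator (fun _ => (1 : ℝ≥0∞))
            (y - w₀ (b₀ * τ) + w₁ (a₁ * τ))) (fun _ _ => zero_le) (Finset.mem_range.2 hi)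
  · rw [Set.indicator_of_notMem hy]
    exact zero_le

/-- pointwise decomposition of the kernel -/
theorem CYCC_QQ {μ : Measure (Path d)} [IsProbabilityMeasure μ] (ρ : ℝ) (t : ℝ≥0) {k : ℕ}
    (hk : 0 < k) (τ : ℝ≥0) (j : ℕ) (w₁ w₀ : Path d) (z : E d) :
    QQ μ ρ t j (k * τ) (k * τ) w₁ w₀ z ≤ ∑ b₁ ∈ Finset.range k, ∑ a₀ ∈ Finset.range k,
      QQ μ ρ t j τ τ (shift (b₁ * τ) w₁) (shift (a₀ * τ) w₀)
        (z - w₁ (b₁ * τ) + w₀ (a₀ * τ)) := by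
  refine (QQ_blocks_left μ ρ t j hk τ (k * τ) w₁ w₀ z).trans ?_
  refine Finset.sum_le_sum fun b₁ _ => ?_
  exact QQ_blocks_right μ ρ t j hk τ τ (shift (b₁ * τ) w₁) w₀ (z - w₁ (b₁ * τ))

/-- the bound for fixed paths -/
theorem CYCC_fixed {μ : Measure (Path d)} [IsProbabilityMeasure μ] (ρ : ℝ) (t : ℝ≥0) {k : ℕ}
    (hk : 0 < k) (τ : ℝ≥0) (m : ℕ) (w₀ w₁ : Path d) :
    ∫⁻ y, (Kset ρ (k * τ) (k * τ) w₀ w₁).indicator (fun _ => 1) y *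
      QQ μ ρ t (m + 1) (k * τ) (k * τ) w₁ w₀ (-y) ≤
    ∑ a₀ ∈ Finset.range k, ∑ b₀ ∈ Finset.range k, ∑ a₁ ∈ Finset.range k, ∑ b₁ ∈ Finset.range k,
      ∫⁻ y, CYCC_F μ ρ t τ m a₀ b₀ a₁ b₁ w₀ w₁ y := by
  have hFm : ∀ a₀ b₀ a₁ b₁ : ℕ,
      Measurable (fun y : E d => CYCC_F μ ρ t τ m a₀ b₀ a₁ b₁ w₀ w₁ y) := by
    intro a₀ b₀ a₁ b₁
    have h1 : Measurable (fun y : E d => ((w₀, w₁, y) : Path d × Path d × E d)) :=
      measurable_const.prodMk (measurable_const.prodMk measurable_id)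
    exact Measurable.comp (g := fun p : Path d × Path d × E d =>
      CYCC_F μ ρ t τ m a₀ b₀ a₁ b₁ p.1 p.2.1 p.2.2)
      (CYCC_measurable_F μ ρ t τ m a₀ b₀ a₁ b₁) h1
  have hpt : ∀ y : E d, (Kset ρ (k * τ) (k * τ) w₀ w₁).indicator (fun _ => 1) y *
      QQ μ ρ t (m + 1) (k * τ) (k * τ) w₁ w₀ (-y) ≤
      ∑ a₀ ∈ Finset.range k, ∑ b₀ ∈ Finset.range k, ∑ a₁ ∈ Finset.range k,
        ∑ b₁ ∈ Finset.range k,
        CYCC_F μ ρ t τ m a₀ b₀ a₁ b₁ w₀ w₁ (y + (w₁ (a₁ * τ) - w₀ (b₀ * τ))) := by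
    intro y
    refine (mul_le_mul' (CYCC_Kset ρ hk τ w₀ w₁ y)
      (CYCC_QQ (μ := μ) ρ t hk τ (m + 1) w₁ w₀ (-y))).trans ?_
    rw [Finset.sum_comm (s := Finset.range k) (t := Finset.range k) (f := fun b₁ a₀ =>
      QQ μ ρ t (m + 1) τ τ (shift (b₁ * τ) w₁) (shift (a₀ * τ) w₀)
        (-y - w₁ (b₁ * τ) + w₀ (a₀ * τ)))]
    rw [Finset.mul_sum]
    refine Finset.sum_le_sum fun a₀ _ => ?_
    rw [Finset.sum_mul]
    refine Finset.sum_le_sum fun b₀ _ => ?_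
    rw [Finset.sum_mul]
    refine Finset.sum_le_sum fun a₁ _ => ?_
    rw [Finset.mul_sum]
    refine Finset.sum_le_sum fun b₁ _ => ?_
    refine le_of_eq ?_
    rw [CYCC_F_eq]
    have e1 : y - w₀ (b₀ * τ) + w₁ (a₁ * τ) = y + (w₁ (a₁ * τ) - w₀ (b₀ * τ)) := by abel
    have e2 : -y - w₁ (b₁ * τ) + w₀ (a₀ * τ) =
        -(y + (w₁ (a₁ * τ) - w₀ (b₀ * τ))) - (w₀ (b₀ * τ) - w₀ (a₀ * τ)) +
          (w₁ (a₁ * τ) - w₁ (b₁ * τ)) := by abel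
    rw [e1, e2]
  refine (lintegral_mono hpt).trans ?_
  have hsh : ∀ a₀ b₀ a₁ b₁ : ℕ, Measurable
      (fun y => CYCC_F μ ρ t τ m a₀ b₀ a₁ b₁ w₀ w₁ (y + (w₁ (a₁ * τ) - w₀ (b₀ * τ)))) :=
    fun a₀ b₀ a₁ b₁ => Measurable.comp
      (g := fun y : E d => CYCC_F μ ρ t τ m a₀ b₀ a₁ b₁ w₀ w₁ y) (hFm a₀ b₀ a₁ b₁)
      (measurable_add_const (w₁ (a₁ * τ) - w₀ (b₀ * τ)))
  rw [lintegral_finsetSum _ fun a₀ _ => Finset.measurable_sum _ fun b₀ _ =>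
    Finset.measurable_sum _ fun a₁ _ => Finset.measurable_sum _ fun b₁ _ => hsh a₀ b₀ a₁ b₁]
  refine Finset.sum_le_sum fun a₀ _ => ?_
  rw [lintegral_finsetSum _ fun b₀ _ =>
    Finset.measurable_sum _ fun a₁ _ => Finset.measurable_sum _ fun b₁ _ => hsh a₀ b₀ a₁ b₁]
  refine Finset.sum_le_sum fun b₀ _ => ?_
  rw [lintegral_finsetSum _ fun a₁ _ => Finset.measurable_sum _ fun b₁ _ => hsh a₀ b₀ a₁ b₁]
  refine Finset.sum_le_sum fun a₁ _ => ?_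
  rw [lintegral_finsetSum _ fun b₁ _ => hsh a₀ b₀ a₁ b₁]
  refine Finset.sum_le_sum fun b₁ _ => ?_
  exact le_of_eq (lintegral_add_right_eq_self
    (fun y : E d => CYCC_F μ ρ t τ m a₀ b₀ a₁ b₁ w₀ w₁ y) (w₁ (a₁ * τ) - w₀ (b₀ * τ)))

/-- Piece CYCC. -/
theorem cycle_le_sum_JJ {μ : Measure (Path d)} [IsProbabilityMeasure μ] (ρ : ℝ) {k : ℕ}
    (hk : 0 < k) (τ : ℝ≥0) (m : ℕ) :
    ∫⁻ w₀, ∫⁻ w₁, (∫⁻ y, (Kset ρ (k * τ) (k * τ) w₀ w₁).indicator (fun _ => 1) y *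
      QQ μ ρ (k * τ) (m + 1) (k * τ) (k * τ) w₁ w₀ (-y)) ∂μ ∂μ ≤
    ∑ a₀ ∈ Finset.range k, ∑ b₀ ∈ Finset.range k, ∑ a₁ ∈ Finset.range k, ∑ b₁ ∈ Finset.range k,
      JJ μ ρ (k * τ) τ m a₀ b₀ a₁ b₁ := by
  refine (lintegral_mono fun w₀ => lintegral_mono fun w₁ =>
    CYCC_fixed (μ := μ) ρ (k * τ) hk τ m w₀ w₁).trans ?_
  have hm1 : ∀ a₀ b₀ a₁ b₁ : ℕ, Measurable (fun p : Path d × Path d =>
      ∫⁻ y, CYCC_F μ ρ (k * τ) τ m a₀ b₀ a₁ b₁ p.1 p.2 y) := by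
    intro a₀ b₀ a₁ b₁
    have h1 : Measurable (fun q : (Path d × Path d) × E d =>
        CYCC_F μ ρ (k * τ) τ m a₀ b₀ a₁ b₁ q.1.1 q.1.2 q.2) := by
      have h2 : Measurable (fun q : (Path d × Path d) × E d =>
          ((q.1.1, q.1.2, q.2) : Path d × Path d × E d)) :=
        (measurable_fst.comp measurable_fst).prodMk
          ((measurable_snd.comp measurable_fst).prodMk measurable_snd)
      exact Measurable.comp (g := fun p : Path d × Path d × E d =>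
        CYCC_F μ ρ (k * τ) τ m a₀ b₀ a₁ b₁ p.1 p.2.1 p.2.2)
        (CYCC_measurable_F μ ρ (k * τ) τ m a₀ b₀ a₁ b₁) h2
    exact h1.lintegral_prod_right'
  have hm2 : ∀ (a₀ b₀ a₁ b₁ : ℕ) (w₀ : Path d), Measurable (fun w₁ : Path d =>
      ∫⁻ y, CYCC_F μ ρ (k * τ) τ m a₀ b₀ a₁ b₁ w₀ w₁ y) := fun a₀ b₀ a₁ b₁ w₀ =>
    (hm1 a₀ b₀ a₁ b₁).comp measurable_prodMk_left
  have hm3 : ∀ a₀ b₀ a₁ b₁ : ℕ, Measurable (fun w₀ : Path d =>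
      ∫⁻ w₁, (∫⁻ y, CYCC_F μ ρ (k * τ) τ m a₀ b₀ a₁ b₁ w₀ w₁ y) ∂μ) := fun a₀ b₀ a₁ b₁ =>
    (hm1 a₀ b₀ a₁ b₁).lintegral_prod_right'
  have e1 : ∀ w₀ : Path d, ∫⁻ w₁, (∑ a₀ ∈ Finset.range k, ∑ b₀ ∈ Finset.range k,
      ∑ a₁ ∈ Finset.range k, ∑ b₁ ∈ Finset.range k,
      ∫⁻ y, CYCC_F μ ρ (k * τ) τ m a₀ b₀ a₁ b₁ w₀ w₁ y) ∂μ =
      ∑ a₀ ∈ Finset.range k, ∑ b₀ ∈ Finset.range k, ∑ a₁ ∈ Finset.range k,
      ∑ b₁ ∈ Finset.range k,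
      ∫⁻ w₁, (∫⁻ y, CYCC_F μ ρ (k * τ) τ m a₀ b₀ a₁ b₁ w₀ w₁ y) ∂μ := by
    intro w₀
    rw [lintegral_finsetSum _ fun a₀ _ => Finset.measurable_sum _ fun b₀ _ =>
      Finset.measurable_sum _ fun a₁ _ => Finset.measurable_sum _ fun b₁ _ =>
        hm2 a₀ b₀ a₁ b₁ w₀]
    refine Finset.sum_congr rfl fun a₀ _ => ?_
    rw [lintegral_finsetSum _ fun b₀ _ =>
      Finset.measurable_sum _ fun a₁ _ => Finset.measurable_sum _ fun b₁ _ =>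
        hm2 a₀ b₀ a₁ b₁ w₀]
    refine Finset.sum_congr rfl fun b₀ _ => ?_
    rw [lintegral_finsetSum _ fun a₁ _ => Finset.measurable_sum _ fun b₁ _ =>
        hm2 a₀ b₀ a₁ b₁ w₀]
    refine Finset.sum_congr rfl fun a₁ _ => ?_
    rw [lintegral_finsetSum _ fun b₁ _ => hm2 a₀ b₀ a₁ b₁ w₀]
  simp only [e1]
  rw [lintegral_finsetSum _ fun a₀ _ => Finset.measurable_sum _ fun b₀ _ =>
    Finset.measurable_sum _ fun a₁ _ => Finset.measurable_sum _ fun b₁ _ => hm3 a₀ b₀ a₁ b₁]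
  refine Finset.sum_le_sum fun a₀ _ => ?_
  rw [lintegral_finsetSum _ fun b₀ _ =>
    Finset.measurable_sum _ fun a₁ _ => Finset.measurable_sum _ fun b₁ _ => hm3 a₀ b₀ a₁ b₁]
  refine Finset.sum_le_sum fun b₀ _ => ?_
  rw [lintegral_finsetSum _ fun a₁ _ => Finset.measurable_sum _ fun b₁ _ => hm3 a₀ b₀ a₁ b₁]
  refine Finset.sum_le_sum fun a₁ _ => ?_
  rw [lintegral_finsetSum _ fun b₁ _ => hm3 a₀ b₀ a₁ b₁]
  refine Finset.sum_le_sum fun b₁ _ => ?_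
  rw [CYCC_JJ_eq]

/-- weighted inequality between geometric and arithmetic means, with a bad constant -/
theorem CYCC_amgm (a b : ℝ≥0∞) {lam : ℝ≥0} (hlam : 0 < lam) :
    a * b ≤ (lam : ℝ≥0∞) * a ^ 2 + (lam : ℝ≥0∞)⁻¹ * b ^ 2 := by
  have hl0 : (lam : ℝ≥0∞) ≠ 0 := by exact_mod_cast hlam.ne'
  have hl1 : (lam : ℝ≥0∞) ≠ ∞ := ENNReal.coe_ne_top
  rcases le_total ((lam : ℝ≥0∞) * a) b with h | h
  · have h1 : a ≤ (lam : ℝ≥0∞)⁻¹ * b := by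
      calc a = (lam : ℝ≥0∞)⁻¹ * ((lam : ℝ≥0∞) * a) := by
            rw [← mul_assoc, ENNReal.inv_mul_cancel hl0 hl1, one_mul]
        _ ≤ _ := mul_le_mul' le_rfl h
    calc a * b ≤ (lam : ℝ≥0∞)⁻¹ * b * b := mul_le_mul' h1 le_rfl
      _ = (lam : ℝ≥0∞)⁻¹ * b ^ 2 := by ring
      _ ≤ _ := le_add_self
  · calc a * b ≤ a * ((lam : ℝ≥0∞) * a) := mul_le_mul' le_rfl h
      _ = (lam : ℝ≥0∞) * a ^ 2 := by ring
      _ ≤ _ := le_self_add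

/-- Jensen's inequality for squares -/
theorem CYCC_jensen {μ : Measure (Path d)} [IsProbabilityMeasure μ] {f : Path d → ℝ≥0∞}
    (hf : Measurable f) : (∫⁻ w, f w ∂μ) ^ 2 ≤ ∫⁻ w, (f w) ^ 2 ∂μ := by
  have hpq : (2 : ℝ).HolderConjugate 2 := Real.HolderConjugate.two_two
  have h1 := ENNReal.lintegral_mul_le_Lp_mul_Lq μ hpq hf.aemeasurable
    (aemeasurable_const (b := (1 : ℝ≥0∞)))
  simp only [Pi.mul_apply, mul_one, ENNReal.one_rpow, lintegral_const, measure_univ,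
    one_div] at h1
  calc (∫⁻ w, f w ∂μ) ^ 2 ≤ ((∫⁻ w, f w ^ (2 : ℝ) ∂μ) ^ (2 : ℝ)⁻¹) ^ 2 := by
        gcongr
    _ = ∫⁻ w, (f w) ^ 2 ∂μ := by
        rw [← ENNReal.rpow_natCast, ← ENNReal.rpow_mul]
        norm_num

/-- Piece CYCC. -/
theorem JJ_near {μ : Measure (Path d)} (h : IsWiener μ) (ρ : ℝ) (t τ : ℝ≥0) (m : ℕ)
    (a₀ b₀ a₁ b₁ : ℕ) {lam : ℝ≥0} (hlam : 0 < lam) :
    JJ μ ρ t τ m a₀ b₀ a₁ b₁ ≤ (lam : ℝ≥0∞) * EV2 μ ρ τ τ +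
      (lam : ℝ≥0∞)⁻¹ * ∫⁻ w, ∫⁻ w', (qq μ ρ t m τ t w w') ^ 2 ∂μ ∂μ := by
  have := h.isProb
  obtain ⟨R, hR⟩ : ∃ R : Path d → ℝ≥0∞, R = fun w => ∫⁻ w'', qq μ ρ t m τ t w w'' ∂μ := ⟨_, rfl⟩
  have hRm : Measurable R := by
    rw [hR]
    exact (measurable_qq μ ρ t m τ t).lintegral_prod_right'
  have hV : Measurable (fun p : Path d × Path d => Vol ρ τ τ p.1 p.2) := measurable_Vol ρ τ τ
  have step1 : ∀ w₀ w₁ : Path d, (∫⁻ y,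
      (Kset ρ τ τ (shift (b₀ * τ) w₀) (shift (a₁ * τ) w₁)).indicator (fun _ => 1) y *
      QQ μ ρ t (m + 1) τ τ (shift (b₁ * τ) w₁) (shift (a₀ * τ) w₀)
        (-y - (w₀ (b₀ * τ) - w₀ (a₀ * τ)) + (w₁ (a₁ * τ) - w₁ (b₁ * τ)))) ≤
      (lam : ℝ≥0∞) * (Vol ρ τ τ (shift (b₀ * τ) w₀) (shift (a₁ * τ) w₁)) ^ 2 +
        (lam : ℝ≥0∞)⁻¹ * (R (shift (b₁ * τ) w₁)) ^ 2 := by
    intro w₀ w₁
    refine le_trans ?_ (CYCC_amgm _ _ hlam)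
    calc _ ≤ ∫⁻ y, (Kset ρ τ τ (shift (b₀ * τ) w₀) (shift (a₁ * τ) w₁)).indicator
          (fun _ => 1) y * R (shift (b₁ * τ) w₁) := by
          refine lintegral_mono fun y => mul_le_mul' le_rfl ?_
          rw [hR]
          exact QQ_succ_le μ ρ t m τ τ _ _ _
      _ = Vol ρ τ τ (shift (b₀ * τ) w₀) (shift (a₁ * τ) w₁) * R (shift (b₁ * τ) w₁) := by
          have hKo := (isOpen_Kset ρ τ τ (shift (b₀ * τ) w₀) (shift (a₁ * τ) w₁)).measurableSet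
          rw [lintegral_mul_const _ (measurable_const.indicator hKo),
            lintegral_indicator_const hKo, one_mul]
          rfl
  unfold JJ
  refine (lintegral_mono fun w₀ => lintegral_mono fun w₁ => step1 w₀ w₁).trans ?_
  have hsh : ∀ a : ℝ≥0, Measurable (shift a : Path d → Path d) := measurable_shift
  have e1 : ∀ w₀ : Path d, ∫⁻ w₁, ((lam : ℝ≥0∞) *
        (Vol ρ τ τ (shift (b₀ * τ) w₀) (shift (a₁ * τ) w₁)) ^ 2 +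
        (lam : ℝ≥0∞)⁻¹ * (R (shift (b₁ * τ) w₁)) ^ 2) ∂μ =
      (lam : ℝ≥0∞) * ∫⁻ w₁, (Vol ρ τ τ (shift (b₀ * τ) w₀) w₁) ^ 2 ∂μ +
        (lam : ℝ≥0∞)⁻¹ * ∫⁻ w₁, (R w₁) ^ 2 ∂μ := by
    intro w₀
    have hV1 : Measurable (fun w : Path d => (Vol ρ τ τ (shift (b₀ * τ) w₀) w) ^ 2) :=
      (hV.comp measurable_prodMk_left).pow_const 2
    have hV2 : Measurable (fun w₁ : Path d =>
        (Vol ρ τ τ (shift (b₀ * τ) w₀) (shift (a₁ * τ) w₁)) ^ 2) := hV1.comp (hsh _)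
    have hR2 : Measurable (fun w₁ : Path d => (R (shift (b₁ * τ) w₁)) ^ 2) :=
      (hRm.comp (hsh _)).pow_const 2
    rw [lintegral_add_left (hV2.const_mul _), lintegral_const_mul _ hV2,
      lintegral_const_mul _ hR2]
    have f1 : ∫⁻ w₁, (Vol ρ τ τ (shift (b₀ * τ) w₀) (shift (a₁ * τ) w₁)) ^ 2 ∂μ =
        ∫⁻ w₁, (Vol ρ τ τ (shift (b₀ * τ) w₀) w₁) ^ 2 ∂μ := by
      rw [← lintegral_map (μ := μ) (g := shift (a₁ * τ)) hV1 (hsh _), h.map_shift]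
    have f2 : ∫⁻ w₁, (R (shift (b₁ * τ) w₁)) ^ 2 ∂μ = ∫⁻ w₁, (R w₁) ^ 2 ∂μ := by
      rw [← lintegral_map (μ := μ) (g := shift (b₁ * τ)) (hRm.pow_const 2) (hsh _), h.map_shift]
    rw [f1, f2]
  simp only [e1]
  have hV3 : Measurable (fun w₀ : Path d => ∫⁻ w₁, (Vol ρ τ τ w₀ w₁) ^ 2 ∂μ) :=
    (hV.pow_const 2).lintegral_prod_right'
  have hV4 : Measurable (fun w₀ : Path d =>
      ∫⁻ w₁, (Vol ρ τ τ (shift (b₀ * τ) w₀) w₁) ^ 2 ∂μ) := hV3.comp (hsh _)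
  rw [lintegral_add_left (hV4.const_mul _), lintegral_const_mul _ hV4, lintegral_const,
    measure_univ, mul_one]
  have f3 : ∫⁻ w₀, ∫⁻ w₁, (Vol ρ τ τ (shift (b₀ * τ) w₀) w₁) ^ 2 ∂μ ∂μ = EV2 μ ρ τ τ := by
    unfold EV2
    rw [← lintegral_map (μ := μ) (g := shift (b₀ * τ)) hV3 (hsh _), h.map_shift]
  rw [f3]
  refine add_le_add le_rfl (mul_le_mul' le_rfl ?_)
  refine lintegral_mono fun w => ?_
  rw [hR]
  exact CYCC_jensen ((measurable_qq μ ρ t m τ t).comp measurable_prodMk_left)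

end WSP
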