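import Pool.Agent.Lib_MP_c175fd.Defs

/-!
# Piece SCALEFF: the norming function and the block size
-/

open MeasureTheory ProbabilityTheory Filter Topology
open scoped ENNReal NNReal

namespace WSP

variable {d : ℕ}

/-- `ff d r → ∞` as `r → 0+` for `d ≥ 4`... for `d = 4` like `√log (1/r)`, otherwise a negative
power. -/
theorem tendsto_ff (hd : 4 ≤ d) : Tendsto (ff d) (𝓝[>] 0) atTop := by
  have hpos : ∀ᶠ r : ℝ in 𝓝[>] 0, 0 < r := self_mem_nhdsWithin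
  by_cases h4 : d = 4
  · have h1 : Tendsto (fun r : ℝ => Real.sqrt (Real.log (r⁻¹))) (𝓝[>] 0) atTop :=
      Real.tendsto_sqrt_atTop.comp (Real.tendsto_log_atTop.comp tendsto_inv_nhdsGT_zero)
    refine h1.congr (fun r => ?_)
    rw [ff, if_pos h4, one_div]
  · have hd2 : (0 : ℝ) < ((d : ℝ) - 4) / 2 := by
      have : (5 : ℝ) ≤ d := by
        have : 5 ≤ d := by omega
        exact_mod_cast this
      linarith
    have h1 : Tendsto (fun r : ℝ => (r⁻¹) ^ (((d : ℝ) - 4) / 2)) (𝓝[>] 0) atTop :=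
      (tendsto_rpow_atTop hd2).comp tendsto_inv_nhdsGT_zero
    refine h1.congr' ?_
    filter_upwards [hpos] with r hr
    rw [ff, if_neg h4, Real.inv_rpow hr.le, ← Real.rpow_neg hr.le]
    congr 1
    ring

theorem tendsto_RR (hd : 4 ≤ d) : Tendsto (RR d) (𝓝[>] 0) atTop :=
  tendsto_nat_ceil_atTop.comp (Real.tendsto_sqrt_atTop.comp (tendsto_ff hd))

theorem RR_pos (hd : 4 ≤ d) : ∀ᶠ r in 𝓝[>] (0 : ℝ), 0 < RR d r :=
  (tendsto_RR hd).eventually_gt_atTop 0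

/-- Comparison of `RR` and `√ff`. -/
theorem RR_bounds (hd : 4 ≤ d) : ∀ᶠ r in 𝓝[>] (0 : ℝ),
    Real.sqrt (ff d r) ≤ RR d r ∧ (RR d r : ℝ) ≤ 2 * Real.sqrt (ff d r) := by
  have h1 : ∀ᶠ r in 𝓝[>] (0 : ℝ), 1 < Real.sqrt (ff d r) :=
    (Real.tendsto_sqrt_atTop.comp (tendsto_ff hd)).eventually_gt_atTop 1
  filter_upwards [h1] with r hr
  refine ⟨Nat.le_ceil _, ?_⟩
  have h2 : (RR d r : ℝ) < Real.sqrt (ff d r) + 1 := Nat.ceil_lt_add_one (by linarith)
  linarith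

end WSP
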