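import Pool.Agent.Lib_MP_c175fd.CycFar
import Pool.Agent.Lib_MP_c175fd.CycNear
import Pool.Agent.Lib_MP_c175fd.CycEq
import Pool.Agent.Lib_MP_c175fd.AnFacts
import Pool.Agent.Lib_MP_c175fd.ScaleFF

/-!
# Piece CYCFIN: closed chains are negligible

Let `t = tt d c r`, `τ = t / k`. By `AnFacts.ev2` for `c` and for `c / k` (`tt d (c / k) r = t / k`),
`EV2 t t ≤ C` and `EV2 τ τ ≤ C / k ^ 4` for small `r` (`C = 2 (κ c ^ 2) ^ 2 + 1`, independent of `k`;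
eventually in `r` for each `k`), and `EV2 τ t ≤ k ^ 2 EV2 τ τ ≤ C / k ^ 2` (`EV2_block_crude`), hence
`∫∫ (qq m τ t) ^ 2 ≤ (C / k ^ 2) C ^ m` (`lintegral_qq_sq_succ`, `lintegral_qq_sq_zero`; for `m = 0` it is
`EV2 τ t` itself) and `∫∫ (qq (m + 1) τ τ) ^ 2 ≤ C ^ (m + 2)` (some constant).
Sum over the `k ^ 4` choices: if `|a₀ - b₀| ≥ 2` or `|a₁ - b₁| ≥ 2` use `JJ_far_zero` or `JJ_far_one`:
total at most `k ^ 4 (2 π τ) ^ (-d/2) C'`, which tends to `0` as `r → 0` (`τ → ∞`). The other at most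
`9 k ^ 2` choices: `JJ_near` with `lam = k`: each at most `k C / k ^ 4 + C ^ (m + 1) / k ^ 3`, total at most
`C'' / k`. Choose `k` first, then `r`.
-/

open MeasureTheory ProbabilityTheory Filter Topology
open scoped ENNReal NNReal

namespace WSP

variable {d : ℕ}

theorem cycFin_tt_div (c r : ℝ) {k : ℕ} (hk : 0 < k) :
    tt d c r = (k : ℝ≥0) * tt d (c / k) r := by
  unfold tt
  have hk' : (k : ℝ) ≠ 0 := by positivity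
  have h1 : c * ff d r = (k : ℝ) * (c / k * ff d r) := by field_simp
  rw [h1, Real.toNNReal_mul (Nat.cast_nonneg k), Real.toNNReal_natCast]

theorem cycFin_qq_sq_le {μ : Measure (Path d)} [IsProbabilityMeasure μ] {ρ : ℝ} {t s' : ℝ≥0}
    {C : ℝ≥0∞} (htt : EV2 μ ρ t t ≤ C) (hts : EV2 μ ρ t s' ≤ C) (j : ℕ) :
    ∀ {s : ℝ≥0}, EV2 μ ρ s t ≤ C → EV2 μ ρ s s' ≤ C →
      ∫⁻ w, ∫⁻ w', (qq μ ρ t j s s' w w') ^ 2 ∂μ ∂μ ≤ C ^ (j + 1) := by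
  induction j with
  | zero =>
    intro s _ h2
    rw [lintegral_qq_sq_zero, zero_add, pow_one]
    exact h2
  | succ j ih =>
    intro s h1 _
    refine (lintegral_qq_sq_succ μ ρ t j s s').trans ?_
    calc EV2 μ ρ s t * ∫⁻ w, ∫⁻ w', (qq μ ρ t j t s' w w') ^ 2 ∂μ ∂μ
        ≤ C * C ^ (j + 1) := mul_le_mul' h1 (ih htt hts)
      _ = C ^ (j + 1 + 1) := by rw [pow_succ' C (j + 1)]

/-- `0` if the two blocks are at distance at least two, `1` otherwise. -/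
noncomputable def cycFinG (a b : ℕ) : ℝ≥0∞ := if a + 2 ≤ b ∨ b + 2 ≤ a then 0 else 1

theorem cycFin_sum_row (k a : ℕ) : ∑ b ∈ Finset.range k, cycFinG a b ≤ 3 := by
  have h1 : ∀ b ∈ Finset.range k, cycFinG a b ≤ if b ∈ Finset.Icc (a - 1) (a + 1) then 1 else 0 := by
    intro b _
    unfold cycFinG
    split_ifs with h2 h3 h3
    · exact zero_le
    · exact le_rfl
    · exact le_rfl
    · exfalso
      apply h3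
      rw [Finset.mem_Icc]
      omega
  refine (Finset.sum_le_sum h1).trans ?_
  rw [← Finset.sum_filter, Finset.sum_const, nsmul_eq_mul, mul_one]
  have h2 : ((Finset.range k).filter (fun b => b ∈ Finset.Icc (a - 1) (a + 1))).card ≤ 3 := by
    refine (Finset.card_le_card (t := Finset.Icc (a - 1) (a + 1)) ?_).trans ?_
    · intro b hb
      exact (Finset.mem_filter.1 hb).2
    · rw [Nat.card_Icc]
      omega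
  calc (((Finset.range k).filter (fun b => b ∈ Finset.Icc (a - 1) (a + 1))).card : ℝ≥0∞)
      ≤ ((3 : ℕ) : ℝ≥0∞) := Nat.cast_le.2 h2
    _ = 3 := by norm_num

theorem cycFin_sum_G (k : ℕ) :
    ∑ a ∈ Finset.range k, ∑ b ∈ Finset.range k, cycFinG a b ≤ 3 * (k : ℝ≥0∞) := by
  refine (Finset.sum_le_sum (fun a _ => cycFin_sum_row k a)).trans ?_
  rw [Finset.sum_const, Finset.card_range, nsmul_eq_mul, mul_comm]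

theorem cycFin_JJ_le {μ : Measure (Path d)} (h : IsWiener μ) {ρ : ℝ} {t τ : ℝ≥0} (hτ : τ ≠ 0)
    (m : ℕ) {k : ℕ} (hk : 0 < k) {A N : ℝ≥0∞}
    (hfar : ENNReal.ofReal ((2 * Real.pi * τ) ^ (-(d : ℝ) / 2)) *
      (EV2 μ ρ τ τ + ∫⁻ w, ∫⁻ w', (qq μ ρ t (m + 1) τ τ w w') ^ 2 ∂μ ∂μ) ≤ A)
    (hnear : (k : ℝ≥0∞) * EV2 μ ρ τ τ +
      (k : ℝ≥0∞)⁻¹ * ∫⁻ w, ∫⁻ w', (qq μ ρ t m τ t w w') ^ 2 ∂μ ∂μ ≤ N) (a₀ b₀ a₁ b₁ : ℕ) :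
    JJ μ ρ t τ m a₀ b₀ a₁ b₁ ≤ A + cycFinG a₀ b₀ * (cycFinG a₁ b₁ * N) := by
  by_cases h0 : a₀ + 2 ≤ b₀ ∨ b₀ + 2 ≤ a₀
  · exact ((JJ_far_zero h ρ t hτ m a₁ b₁ h0).trans hfar).trans le_self_add
  by_cases h1 : a₁ + 2 ≤ b₁ ∨ b₁ + 2 ≤ a₁
  · exact ((JJ_far_one h ρ t hτ m a₀ b₀ h1).trans hfar).trans le_self_add
  have e0 : cycFinG a₀ b₀ = 1 := if_neg h0
  have e1 : cycFinG a₁ b₁ = 1 := if_neg h1
  rw [e0, e1, one_mul, one_mul]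
  have hk0 : (0 : ℝ≥0) < (k : ℝ≥0) := by exact_mod_cast hk
  have h2 := JJ_near h ρ t τ m a₀ b₀ a₁ b₁ hk0
  rw [ENNReal.coe_natCast] at h2
  exact (h2.trans hnear).trans le_add_self

theorem cycFin_sum_JJ_le {μ : Measure (Path d)} (h : IsWiener μ) {ρ : ℝ} {t τ : ℝ≥0} (hτ : τ ≠ 0)
    (m : ℕ) {k : ℕ} (hk : 0 < k) {A N : ℝ≥0∞}
    (hfar : ENNReal.ofReal ((2 * Real.pi * τ) ^ (-(d : ℝ) / 2)) *
      (EV2 μ ρ τ τ + ∫⁻ w, ∫⁻ w', (qq μ ρ t (m + 1) τ τ w w') ^ 2 ∂μ ∂μ) ≤ A)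
    (hnear : (k : ℝ≥0∞) * EV2 μ ρ τ τ +
      (k : ℝ≥0∞)⁻¹ * ∫⁻ w, ∫⁻ w', (qq μ ρ t m τ t w w') ^ 2 ∂μ ∂μ ≤ N) :
    ∑ a₀ ∈ Finset.range k, ∑ b₀ ∈ Finset.range k, ∑ a₁ ∈ Finset.range k, ∑ b₁ ∈ Finset.range k,
      JJ μ ρ t τ m a₀ b₀ a₁ b₁ ≤ (k : ℝ≥0∞) ^ 4 * A + 9 * (k : ℝ≥0∞) ^ 2 * N := by
  calc ∑ a₀ ∈ Finset.range k, ∑ b₀ ∈ Finset.range k, ∑ a₁ ∈ Finset.range k, ∑ b₁ ∈ Finset.range k,
        JJ μ ρ t τ m a₀ b₀ a₁ b₁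
      ≤ ∑ a₀ ∈ Finset.range k, ∑ b₀ ∈ Finset.range k, ∑ a₁ ∈ Finset.range k,
          ∑ b₁ ∈ Finset.range k, (A + cycFinG a₀ b₀ * (cycFinG a₁ b₁ * N)) := by
        refine Finset.sum_le_sum fun a₀ _ => Finset.sum_le_sum fun b₀ _ =>
          Finset.sum_le_sum fun a₁ _ => Finset.sum_le_sum fun b₁ _ => ?_
        exact cycFin_JJ_le h hτ m hk hfar hnear a₀ b₀ a₁ b₁
    _ = (k : ℝ≥0∞) ^ 4 * A + (∑ a ∈ Finset.range k, ∑ b ∈ Finset.range k, cycFinG a b) *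
          ((∑ a ∈ Finset.range k, ∑ b ∈ Finset.range k, cycFinG a b) * N) := by
        simp only [Finset.sum_add_distrib, ← Finset.mul_sum, ← Finset.sum_mul, Finset.sum_const,
          Finset.card_range, nsmul_eq_mul]
        congr 1
        ring
    _ ≤ (k : ℝ≥0∞) ^ 4 * A + (3 * (k : ℝ≥0∞)) * ((3 * (k : ℝ≥0∞)) * N) :=
        add_le_add le_rfl (mul_le_mul' (cycFin_sum_G k) (mul_le_mul' (cycFin_sum_G k) le_rfl))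
    _ = (k : ℝ≥0∞) ^ 4 * A + 9 * (k : ℝ≥0∞) ^ 2 * N := by ring

/-- The final bound for given values of the parameters. -/
theorem cycFin_bound {μ : Measure (Path d)} (h : IsWiener μ) {ρ : ℝ} {τ : ℝ≥0} (hτ : τ ≠ 0)
    (m : ℕ) {k : ℕ} (hk : 0 < k) {C δ : ℝ≥0∞}
    (h1 : EV2 μ ρ (k * τ) (k * τ) ≤ C) (h2 : (k : ℝ≥0∞) ^ 4 * EV2 μ ρ τ τ ≤ C)
    (hδ1 : 9 * (C + C ^ (m + 1)) ≤ (k : ℝ≥0∞) * δ)
    (hδ2 : (k : ℝ≥0∞) ^ 4 * (C + C ^ (m + 2)) *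
      ENNReal.ofReal ((2 * Real.pi * τ) ^ (-(d : ℝ) / 2)) ≤ δ) :
    ∫⁻ w₀, ∫⁻ w₁, (∫⁻ y, (Kset ρ (k * τ) (k * τ) w₀ w₁).indicator (fun _ => 1) y *
      QQ μ ρ (k * τ) (m + 1) (k * τ) (k * τ) w₁ w₀ (-y)) ∂μ ∂μ ≤ δ + δ := by
  have := h.isProb
  have hk1 : (1 : ℝ≥0∞) ≤ (k : ℝ≥0∞) := by exact_mod_cast hk
  have hk0 : (k : ℝ≥0∞) ≠ 0 := by
    have := lt_of_lt_of_le one_pos hk1
    exact this.ne'
  have hkt : (k : ℝ≥0∞) ≠ ∞ := ENNReal.natCast_ne_top k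
  -- the second moments for the pairs of times
  have e1 : (k : ℝ≥0∞) ^ 2 * EV2 μ ρ τ (k * τ) ≤ C := by
    have h3 := EV2_block_crude h ρ one_pos hk τ τ
    rw [Nat.cast_one, one_mul, Nat.cast_one, one_mul] at h3
    calc (k : ℝ≥0∞) ^ 2 * EV2 μ ρ τ (k * τ) ≤ (k : ℝ≥0∞) ^ 2 * ((k : ℝ≥0∞) ^ 2 * EV2 μ ρ τ τ) :=
          mul_le_mul' le_rfl h3
      _ = (k : ℝ≥0∞) ^ 4 * EV2 μ ρ τ τ := by ring
      _ ≤ C := h2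
  have e2 : EV2 μ ρ τ (k * τ) ≤ C :=
    (le_mul_of_one_le_left zero_le (one_le_pow₀ hk1)).trans e1
  have e3 : EV2 μ ρ (k * τ) τ ≤ C := by
    have h3 := EV2_block_crude h ρ hk one_pos τ τ
    rw [Nat.cast_one, Nat.cast_one, one_mul, mul_one] at h3
    calc EV2 μ ρ (k * τ) τ ≤ (k : ℝ≥0∞) ^ 2 * EV2 μ ρ τ τ := h3
      _ ≤ (k : ℝ≥0∞) ^ 4 * EV2 μ ρ τ τ :=
          mul_le_mul' (pow_le_pow_right₀ hk1 (by norm_num)) le_rfl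
      _ ≤ C := h2
  have e4 : EV2 μ ρ τ τ ≤ C :=
    (le_mul_of_one_le_left zero_le (one_le_pow₀ hk1)).trans h2
  have e5 : ∫⁻ w, ∫⁻ w', (qq μ ρ (k * τ) (m + 1) τ τ w w') ^ 2 ∂μ ∂μ ≤ C ^ (m + 2) :=
    cycFin_qq_sq_le h1 e3 (m + 1) e2 e4
  have e6 : (k : ℝ≥0∞) ^ 2 * ∫⁻ w, ∫⁻ w', (qq μ ρ (k * τ) m τ (k * τ) w w') ^ 2 ∂μ ∂μ ≤
      C ^ (m + 1) := by
    cases m with
    | zero =>
      rw [lintegral_qq_sq_zero, zero_add, pow_one]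
      exact e1
    | succ m =>
      calc (k : ℝ≥0∞) ^ 2 * ∫⁻ w, ∫⁻ w', (qq μ ρ (k * τ) (m + 1) τ (k * τ) w w') ^ 2 ∂μ ∂μ
          ≤ (k : ℝ≥0∞) ^ 2 * (EV2 μ ρ τ (k * τ) *
            ∫⁻ w, ∫⁻ w', (qq μ ρ (k * τ) m (k * τ) (k * τ) w w') ^ 2 ∂μ ∂μ) :=
            mul_le_mul' le_rfl (lintegral_qq_sq_succ μ ρ (k * τ) m τ (k * τ))
        _ = ((k : ℝ≥0∞) ^ 2 * EV2 μ ρ τ (k * τ)) *
            ∫⁻ w, ∫⁻ w', (qq μ ρ (k * τ) m (k * τ) (k * τ) w w') ^ 2 ∂μ ∂μ := by ring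
        _ ≤ C * C ^ (m + 1) := mul_le_mul' e1 (cycFin_qq_sq_le h1 h1 m h1 h1)
        _ = C ^ (m + 1 + 1) := by rw [pow_succ' C (m + 1)]
  refine (cycle_le_sum_JJ ρ hk τ m).trans ?_
  refine (cycFin_sum_JJ_le h hτ m hk le_rfl le_rfl).trans ?_
  refine add_le_add ?_ ?_
  · calc (k : ℝ≥0∞) ^ 4 * (ENNReal.ofReal ((2 * Real.pi * τ) ^ (-(d : ℝ) / 2)) *
          (EV2 μ ρ τ τ + ∫⁻ w, ∫⁻ w', (qq μ ρ (k * τ) (m + 1) τ τ w w') ^ 2 ∂μ ∂μ))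
        ≤ (k : ℝ≥0∞) ^ 4 * (ENNReal.ofReal ((2 * Real.pi * τ) ^ (-(d : ℝ) / 2)) *
          (C + C ^ (m + 2))) :=
          mul_le_mul' le_rfl (mul_le_mul' le_rfl (add_le_add e4 e5))
      _ = (k : ℝ≥0∞) ^ 4 * (C + C ^ (m + 2)) *
          ENNReal.ofReal ((2 * Real.pi * τ) ^ (-(d : ℝ) / 2)) := by ring
      _ ≤ δ := hδ2
  · rw [← ENNReal.mul_le_mul_iff_right hk0 hkt]
    refine le_trans ?_ hδ1
    calc (k : ℝ≥0∞) * (9 * (k : ℝ≥0∞) ^ 2 * ((k : ℝ≥0∞) * EV2 μ ρ τ τ +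
          (k : ℝ≥0∞)⁻¹ * ∫⁻ w, ∫⁻ w', (qq μ ρ (k * τ) m τ (k * τ) w w') ^ 2 ∂μ ∂μ))
        = 9 * ((k : ℝ≥0∞) ^ 4 * EV2 μ ρ τ τ + ((k : ℝ≥0∞) * (k : ℝ≥0∞)⁻¹) * ((k : ℝ≥0∞) ^ 2 *
          ∫⁻ w, ∫⁻ w', (qq μ ρ (k * τ) m τ (k * τ) w w') ^ 2 ∂μ ∂μ)) := by ring
      _ = 9 * ((k : ℝ≥0∞) ^ 4 * EV2 μ ρ τ τ + ((k : ℝ≥0∞) ^ 2 *
          ∫⁻ w, ∫⁻ w', (qq μ ρ (k * τ) m τ (k * τ) w w') ^ 2 ∂μ ∂μ)) := by
          rw [ENNReal.mul_inv_cancel hk0 hkt, one_mul]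
      _ ≤ 9 * (C + C ^ (m + 1)) := mul_le_mul' le_rfl (add_le_add h2 e6)

theorem cycFin_tendsto_tt (hd : 4 ≤ d) {c : ℝ} (hc : 0 < c) :
    Tendsto (fun r => ((tt d c r : ℝ≥0) : ℝ)) (𝓝[>] 0) atTop := by
  refine tendsto_atTop_mono (fun r => ?_) ((tendsto_ff hd).const_mul_atTop hc)
  unfold tt
  exact Real.le_coe_toNNReal _

theorem cycFin_tendsto_dens (hd : 4 ≤ d) {c : ℝ} (hc : 0 < c) :
    Tendsto (fun r => ENNReal.ofReal ((2 * Real.pi * (tt d c r : ℝ≥0)) ^ (-(d : ℝ) / 2)))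
      (𝓝[>] 0) (𝓝 0) := by
  have h1 : Tendsto (fun r => 2 * Real.pi * ((tt d c r : ℝ≥0) : ℝ)) (𝓝[>] 0) atTop :=
    (cycFin_tendsto_tt hd hc).const_mul_atTop (by positivity)
  have h2 : (0 : ℝ) < (d : ℝ) / 2 := by
    have : (0 : ℝ) < d := by
      have : 0 < d := by omega
      exact_mod_cast this
    positivity
  have h3 := (tendsto_rpow_neg_atTop h2).comp h1
  have h4 := ENNReal.tendsto_ofReal h3
  rw [ENNReal.ofReal_zero] at h4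
  refine h4.congr (fun r => ?_)
  simp only [Function.comp]
  rw [neg_div]

theorem cycles_small (hd : 4 ≤ d) {μ : Measure (Path d)} (h : IsWiener μ) {κ : ℝ}
    (hA : AnFacts d μ κ) {c : ℝ} (hc : 0 < c) (m : ℕ) {ε : ℝ≥0∞} (hε : 0 < ε) :
    ∀ᶠ r in 𝓝[>] (0 : ℝ), ∀ Q : Set (E d), MeasurableSet Q →
      Measure.pi (fun _ : Fin (m + 3) => nuM μ)
        {z | (z 0).1 ∈ Q ∧ ∀ i, hitR (2 * r) (tt d c r) (tt d c r) (z i) (z (i + 1))} ≤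
      ε * volume Q := by
  have := h.isProb
  obtain ⟨C, hCdef⟩ : ∃ C : ℝ≥0∞, C = ENNReal.ofReal ((κ * c ^ 2) ^ 2) + 1 := ⟨_, rfl⟩
  have hCt : C ≠ ∞ := by
    rw [hCdef]
    exact ENNReal.add_ne_top.2 ⟨ENNReal.ofReal_ne_top, ENNReal.one_ne_top⟩
  have hClt : ENNReal.ofReal ((κ * c ^ 2) ^ 2) < C := by
    rw [hCdef]
    exact ENNReal.lt_add_right ENNReal.ofReal_ne_top one_ne_zero
  have hS : 9 * (C + C ^ (m + 1)) ≠ ∞ :=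
    ENNReal.mul_ne_top (by norm_num) (ENNReal.add_ne_top.2 ⟨hCt, ENNReal.pow_ne_top hCt⟩)
  have hε2 : ε / 2 ≠ 0 := (ENNReal.half_pos hε.ne').ne'
  -- the number of blocks
  obtain ⟨k, hk⟩ := ENNReal.exists_nat_gt (ENNReal.div_lt_top hS hε2).ne
  have hk0 : 0 < k := by
    rcases Nat.eq_zero_or_pos k with h0 | h0
    · rw [h0, Nat.cast_zero] at hk
      exact absurd hk not_lt_zero
    · exact h0
  have hkE : (k : ℝ≥0∞) ≠ 0 := by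
    exact_mod_cast hk0.ne'
  have hkT : (k : ℝ≥0∞) ≠ ∞ := ENNReal.natCast_ne_top k
  have hδ1 : 9 * (C + C ^ (m + 1)) ≤ (k : ℝ≥0∞) * (ε / 2) :=
    (ENNReal.div_le_iff_le_mul (Or.inl hε2) (Or.inr hkE)).1 hk.le
  have hkR : (0 : ℝ) < (k : ℝ) := by exact_mod_cast hk0
  have hck : 0 < c / k := by positivity
  -- the second moments
  have h1 : ∀ᶠ r in 𝓝[>] (0 : ℝ), EV2 μ (2 * r) (tt d c r) (tt d c r) ≤ C :=
    ((hA.ev2 c hc).eventually_lt_const hClt).mono (fun _ hr => hr.le)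
  have h2 : ∀ᶠ r in 𝓝[>] (0 : ℝ), (k : ℝ≥0∞) ^ 4 *
      EV2 μ (2 * r) (tt d (c / k) r) (tt d (c / k) r) ≤ C := by
    have h3 := ENNReal.Tendsto.const_mul (hA.ev2 (c / k) hck)
      (Or.inr (ENNReal.pow_ne_top hkT) : _ ∨ (k : ℝ≥0∞) ^ 4 ≠ ∞)
    have h4 : (k : ℝ≥0∞) ^ 4 * ENNReal.ofReal ((κ * (c / k) ^ 2) ^ 2) =
        ENNReal.ofReal ((κ * c ^ 2) ^ 2) := by
      rw [← ENNReal.ofReal_natCast, ← ENNReal.ofReal_pow hkR.le,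
        ← ENNReal.ofReal_mul (by positivity)]
      congr 1
      field_simp
    rw [h4] at h3
    exact (h3.eventually_lt_const hClt).mono (fun _ hr => hr.le)
  -- the density of the increments
  have h3 : ∀ᶠ r in 𝓝[>] (0 : ℝ), (k : ℝ≥0∞) ^ 4 * (C + C ^ (m + 2)) *
      ENNReal.ofReal ((2 * Real.pi * (tt d (c / k) r : ℝ≥0)) ^ (-(d : ℝ) / 2)) ≤ ε / 2 := by
    have h5 : (k : ℝ≥0∞) ^ 4 * (C + C ^ (m + 2)) ≠ ∞ :=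
      ENNReal.mul_ne_top (ENNReal.pow_ne_top hkT)
        (ENNReal.add_ne_top.2 ⟨hCt, ENNReal.pow_ne_top hCt⟩)
    have h6 := ENNReal.Tendsto.const_mul (cycFin_tendsto_dens hd hck)
      (Or.inr h5 : _ ∨ (k : ℝ≥0∞) ^ 4 * (C + C ^ (m + 2)) ≠ ∞)
    rw [mul_zero] at h6
    exact (h6.eventually_lt_const (pos_iff_ne_zero.2 hε2)).mono (fun _ hr => hr.le)
  have h4 : ∀ᶠ r in 𝓝[>] (0 : ℝ), tt d (c / k) r ≠ 0 := by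
    refine ((cycFin_tendsto_tt hd hck).eventually_gt_atTop 0).mono (fun r hr h0 => ?_)
    rw [h0, NNReal.coe_zero] at hr
    exact lt_irrefl _ hr
  filter_upwards [h1, h2, h3, h4] with r h1 h2 h3 h4 Q hQ
  rw [cycFin_tt_div c r hk0] at h1 ⊢
  rw [pi_cycle_eq μ (2 * r) _ m hQ, mul_comm]
  refine mul_le_mul' ?_ le_rfl
  refine (cycFin_bound h h4 m hk0 h1 h2 hδ1 h3).trans ?_
  rw [ENNReal.add_halves]

end WSP
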