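import Pool.Agent.Lib_MP_c175fd.PatLe

/-!
# Piece GBLC
-/

open MeasureTheory ProbabilityTheory Filter Topology
open scoped ENNReal NNReal

namespace WSP

variable {Ω I Y : Type*}

theorem gblc_core_meas [MeasurableSpace Y] {rel : Y → Y → Prop}
    (hrel : MeasurableSet {p : Y × Y | rel p.1 p.2}) {m : ℕ} {Q : Set Y} (hQ : MeasurableSet Q) :
    MeasurableSet {x : Fin (m + 3) → Y | x 0 ∈ Q ∧ ∀ i, rel (x i) (x (i + 1))} := by
  have h1 : MeasurableSet {x : Fin (m + 3) → Y | x 0 ∈ Q} := measurable_pi_apply 0 hQ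
  have h2 : MeasurableSet {x : Fin (m + 3) → Y | ∀ i, rel (x i) (x (i + 1))} := by
    rw [Set.ofPred_forall]
    refine MeasurableSet.iInter (fun i => ?_)
    have h4 : Measurable (fun x : Fin (m + 3) → Y => (x i, x (i + 1))) :=
      (measurable_pi_apply i).prodMk (measurable_pi_apply (i + 1))
    exact h4 hrel
  exact h1.inter h2

/-- Piece GBLC: a connected pattern containing a cycle `c` through the root. The vertices outside the
cycle are integrated in decreasing order of their distance to the cycle. -/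
theorem pi_pattern_cycle_le [MeasurableSpace Y] {ν : Measure Y} [SigmaFinite ν]
    {rel : Y → Y → Prop} (hrel : MeasurableSet {p : Y × Y | rel p.1 p.2})
    (hsymm : ∀ a b, rel a b → rel b a) {M : ℝ≥0∞} (hM : ∀ a, ν {b | rel a b} ≤ M) {V : Type}
    [Fintype V] {G : SimpleGraph V} (hG : G.Connected) {m : ℕ} (c : Fin (m + 3) ↪ V)
    (hc : ∀ i, G.Adj (c i) (c (i + 1))) {Q : Set Y} (hQ : MeasurableSet Q) :
    Measure.pi (fun _ : V => ν) {z | z (c 0) ∈ Q ∧ Sat G rel z} ≤
      M ^ (Fintype.card V - (m + 3)) *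
        Measure.pi (fun _ : Fin (m + 3) => ν) {x | x 0 ∈ Q ∧ ∀ i, rel (x i) (x (i + 1))} := by
  classical
  -- rank
  set r : V → ℕ := fun v => Finset.univ.inf' ⟨(0 : Fin (m + 3)), Finset.mem_univ _⟩
    (fun i => G.dist (c i) v) with hr
  have hpar : ∀ v : V, ∃ u : V, v ∉ Finset.univ.image c → G.Adj u v ∧ r u < r v := by
    intro v
    by_cases hv : v ∈ Finset.univ.image c
    · exact ⟨v, fun h => absurd hv h⟩
    · obtain ⟨i, -, hi⟩ := Finset.exists_mem_eq_inf' (s := (Finset.univ : Finset (Fin (m + 3))))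
        ⟨(0 : Fin (m + 3)), Finset.mem_univ _⟩ (fun i => G.dist (c i) v)
      obtain ⟨w, hw⟩ := (hG v (c i)).exists_walk_length_eq_dist
      generalize hci : c i = ci at w hw hi
      cases w with
      | nil =>
        exact absurd (Finset.mem_image.mpr ⟨i, Finset.mem_univ _, hci⟩) hv
      | cons h q =>
        rename_i u
        refine ⟨u, fun _ => ⟨h.symm, ?_⟩⟩
        have h1 : G.dist u ci ≤ q.length := SimpleGraph.dist_le q
        rw [SimpleGraph.Walk.length_cons] at hw
        have h2 : r u ≤ G.dist (c i) u := Finset.inf'_le _ (Finset.mem_univ i)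
        rw [hci, SimpleGraph.dist_comm] at h2
        have h3 : r v = G.dist v ci := by
          rw [SimpleGraph.dist_comm]
          exact hi
        omega
  choose p hp using hpar
  set C : Finset V := Finset.univ.image c with hC
  set T : Finset V := Finset.univ \ C with hT
  have hCcard : C.card = m + 3 := by
    rw [hC, Finset.card_image_of_injective _ c.injective, Finset.card_univ, Fintype.card_fin]
  have hTcard : T.card = Fintype.card V - (m + 3) := by
    rw [hT, Finset.card_sdiff_of_subset (Finset.subset_univ _), Finset.card_univ, hCcard]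
  have hTn : ∀ v ∈ T, v ∉ C := fun v hv => (Finset.mem_sdiff.mp hv).2
  have hTr : ∀ v ∈ T, r (p v) < r v := fun v hv => (hp v (hTn v hv)).2
  have hdisj : Disjoint C T := Finset.disjoint_sdiff
  have hun : C ∪ T = Finset.univ := Finset.union_sdiff_of_subset (Finset.subset_univ _)
  set S : Set (Fin (m + 3) → Y) := {x | x 0 ∈ Q ∧ ∀ i, rel (x i) (x (i + 1))} with hS
  have hSm : MeasurableSet S := gblc_core_meas hrel hQ
  have hmeas : Measurable (fun z : V → Y => ∏ v ∈ T, gblInd rel (z (p v)) (z v)) :=
    Finset.measurable_fun_prod T (fun v _ => gblInd_measurable hrel (p v) v)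
  have hcm : Measurable (fun z : V → Y => fun i : Fin (m + 3) => z (c i)) :=
    measurable_pi_lambda _ (fun i => measurable_pi_apply (c i))
  set core : (V → Y) → ℝ≥0∞ := fun z => S.indicator (fun _ => (1 : ℝ≥0∞)) (fun i => z (c i))
    with hcore
  have hmQ : Measurable core := (measurable_const.indicator hSm).comp hcm
  set F : (V → Y) → ℝ≥0∞ := fun z => core z * ∏ v ∈ T, gblInd rel (z (p v)) (z v) with hF
  have hFm : Measurable F := hmQ.mul hmeas
  have hsub : {z : V → Y | z (c 0) ∈ Q ∧ Sat G rel z} ⊆ {z | 1 ≤ F z} := by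
    rintro z ⟨hz1, hz2⟩
    have h0 : (fun i => z (c i)) ∈ S := ⟨hz1, fun i => hz2 _ _ (hc i)⟩
    have h1 : F z = 1 := by
      simp only [hF, hcore]
      rw [Set.indicator_of_mem h0, one_mul]
      refine Finset.prod_eq_one ?_
      intro v hv
      have h2 : ((z (p v), z v) : Y × Y) ∈ {p : Y × Y | rel p.1 p.2} :=
        hz2 _ _ (hp v (hTn v hv)).1
      unfold gblInd
      rw [Set.indicator_of_mem h2]
    exact h1.symm.le
  have hle : Measure.pi (fun _ : V => ν) {z | z (c 0) ∈ Q ∧ Sat G rel z} ≤
      ∫⁻ z, F z ∂(Measure.pi (fun _ : V => ν)) := by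
    refine (measure_mono hsub).trans ?_
    have := mul_meas_ge_le_lintegral (μ := Measure.pi (fun _ : V => ν)) hFm 1
    rwa [one_mul] at this
  refine hle.trans ?_
  rcases isEmpty_or_nonempty Y with hY | ⟨⟨y₀⟩⟩
  · have hemp : IsEmpty (V → Y) := ⟨fun z => hY.false (z (c 0))⟩
    rw [Measure.eq_zero_of_isEmpty (Measure.pi (fun _ : V => ν)), lintegral_zero_measure]
    exact zero_le
  · rw [lintegral_eq_lmarginal_univ (fun _ : V => y₀), ← hun,
      lmarginal_union (fun _ : V => ν) F hFm hdisj]
    have hstep : lmarginal (fun _ : V => ν) T F ≤ fun z => M ^ (Fintype.card V - (m + 3)) * core z := by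
      intro z
      rw [hF, gbl_pull T core _ hmeas, mul_comm]
      · exact mul_le_mul_left (gbl_marg hrel hM p r _ T hTcard hTr z) _
      · intro x x' hxx
        have h5 : (fun i => x (c i)) = fun i => x' (c i) := by
          funext i
          refine hxx (c i) (fun h => hTn _ h ?_)
          exact Finset.mem_image.mpr ⟨i, Finset.mem_univ _, rfl⟩
        simp only [hcore]
        rw [h5]
    refine (lmarginal_mono hstep _).trans ?_
    have hpull : lmarginal (fun _ : V => ν) C (fun z => M ^ (Fintype.card V - (m + 3)) * core z)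
        (fun _ => y₀) = M ^ (Fintype.card V - (m + 3)) *
        lmarginal (fun _ : V => ν) C core (fun _ => y₀) :=
      gbl_pull C (fun _ => M ^ (Fintype.card V - (m + 3))) core hmQ (fun _ _ _ => rfl) _
    rw [hpull]
    refine mul_le_mul_right ?_ _
    have himg := lmarginal_image (μ := fun _ : V => ν) (e := c) c.injective Finset.univ
      (f := S.indicator (fun _ => (1 : ℝ≥0∞))) (measurable_const.indicator hSm) (fun _ => y₀)
    have h6 : lmarginal (fun _ : V => ν) C core (fun _ => y₀) =
        ∫⁻ x, S.indicator (fun _ => (1 : ℝ≥0∞)) x ∂(Measure.pi (fun _ : Fin (m + 3) => ν)) := by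
      refine Eq.trans himg ?_
      rw [lmarginal_univ]
    rw [h6, lintegral_indicator_const hSm, one_mul]

end WSP
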