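import Pool.Agent.Lib_MP_c175fd.KBase

/-!
# Piece KSPLIT: decomposition of `Kset` into blocks of time, scaling, crude bound of the volume
-/

open MeasureTheory ProbabilityTheory Filter Topology
open scoped ENNReal NNReal Pointwise

namespace WSP

variable {d : ℕ}

/-- Splitting the time interval of the first path. -/
theorem Kset_split_left (ρ : ℝ) (a b t : ℝ≥0) (w w' : Path d) :
    Kset ρ (a + b) t w w' = Kset ρ a t w w' ∪ {z | z - w a ∈ Kset ρ b t (shift a w) w'} := by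
  ext z
  simp only [Set.mem_union, mem_Kset, Set.mem_setOf_eq, shift_apply]
  constructor
  · rintro ⟨u, hu, v, hv, h⟩
    rcases le_total u a with h1 | h1
    · exact Or.inl ⟨u, h1, v, hv, h⟩
    · refine Or.inr ⟨u - a, tsub_le_iff_left.mpr hu, v, hv, ?_⟩
      rw [add_tsub_cancel_of_le h1]
      have : dist (w u - w a) (z - w a + w' v) = dist (w u) (z + w' v) := by
        rw [dist_eq_norm, dist_eq_norm]; congr 1; abel
      rwa [this]
  · rintro (⟨u, hu, v, hv, h⟩ | ⟨u, hu, v, hv, h⟩)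
    · exact ⟨u, hu.trans (le_add_right le_rfl), v, hv, h⟩
    · refine ⟨a + u, by gcongr, v, hv, ?_⟩
      have : dist (w (a + u) - w a) (z - w a + w' v) = dist (w (a + u)) (z + w' v) := by
        rw [dist_eq_norm, dist_eq_norm]; congr 1; abel
      rwa [this] at h

/-- Splitting the time interval of the second path. -/
theorem Kset_split_right (ρ : ℝ) (s a b : ℝ≥0) (w w' : Path d) :
    Kset ρ s (a + b) w w' = Kset ρ s a w w' ∪ {z | z + w' a ∈ Kset ρ s b w (shift a w')} := by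
  ext z
  simp only [Set.mem_union, mem_Kset, Set.mem_setOf_eq, shift_apply]
  constructor
  · rintro ⟨u, hu, v, hv, h⟩
    rcases le_total v a with h1 | h1
    · exact Or.inl ⟨u, hu, v, h1, h⟩
    · refine Or.inr ⟨u, hu, v - a, tsub_le_iff_left.mpr hv, ?_⟩
      rw [add_tsub_cancel_of_le h1]
      have : dist (w u) (z + w' a + (w' v - w' a)) = dist (w u) (z + w' v) := by
        rw [dist_eq_norm, dist_eq_norm]; congr 1; abel
      rwa [this]
  · rintro (⟨u, hu, v, hv, h⟩ | ⟨u, hu, v, hv, h⟩)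
    · exact ⟨u, hu, v, hv.trans (le_add_right le_rfl), h⟩
    · refine ⟨u, hu, a + v, by gcongr, ?_⟩
      have : dist (w u) (z + w' a + (w' (a + v) - w' a)) = dist (w u) (z + w' (a + v)) := by
        rw [dist_eq_norm, dist_eq_norm]; congr 1; abel
      rwa [this] at h

theorem volume_sub_mem (c : E d) (K : Set (E d)) : volume {z : E d | z - c ∈ K} = volume K := by
  have : {z : E d | z - c ∈ K} = (fun z => z + -c) ⁻¹' K := by
    ext z; simp [sub_eq_add_neg]
  rw [this, measure_preimage_add_right]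

theorem volume_add_mem (c : E d) (K : Set (E d)) : volume {z : E d | z + c ∈ K} = volume K := by
  have : {z : E d | z + c ∈ K} = (fun z => z + c) ⁻¹' K := rfl
  rw [this, measure_preimage_add_right]

theorem Vol_split_left (ρ : ℝ) (a b t : ℝ≥0) (w w' : Path d) :
    Vol ρ (a + b) t w w' ≤ Vol ρ a t w w' + Vol ρ b t (shift a w) w' := by
  unfold Vol
  rw [Kset_split_left]
  refine (measure_union_le _ _).trans ?_
  rw [volume_sub_mem]

theorem exists_block (τ : ℝ≥0) : ∀ k : ℕ, 0 < k → ∀ u : ℝ≥0, u ≤ k * τ →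
    ∃ i < k, (i : ℝ≥0) * τ ≤ u ∧ u ≤ i * τ + τ
  | 0, h, _, _ => absurd h (lt_irrefl 0)
  | n + 1, _, u, hu => by
    rcases le_total u (n * τ) with h | h
    · rcases Nat.eq_zero_or_pos n with rfl | hn
      · refine ⟨0, by simp, by simp, ?_⟩
        have : u ≤ 0 := by simpa using h
        exact this.trans (by simp)
      · obtain ⟨i, hi, h1, h2⟩ := exists_block τ n hn u h
        exact ⟨i, by omega, h1, h2⟩
    · refine ⟨n, by omega, h, ?_⟩
      have : ((n + 1 : ℕ) : ℝ≥0) * τ = n * τ + τ := by push_cast; ring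
      rwa [this] at hu

theorem block_le (τ : ℝ≥0) {i k : ℕ} (h : i < k) {u : ℝ≥0} (hu : u ≤ τ) :
    (i : ℝ≥0) * τ + u ≤ k * τ := by
  calc (i : ℝ≥0) * τ + u ≤ i * τ + τ := by gcongr
    _ = ((i + 1 : ℕ) : ℝ≥0) * τ := by push_cast; ring
    _ ≤ k * τ := by
      gcongr
      exact_mod_cast h

/-- Decomposition into `k × l` blocks. -/
theorem Kset_blocks (ρ : ℝ) (k l : ℕ) (τ σ : ℝ≥0) (hk : 0 < k) (hl : 0 < l) (w w' : Path d) :
    Kset ρ (k * τ) (l * σ) w w' = ⋃ (i : ℕ) (_ : i < k) (j : ℕ) (_ : j < l),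
      {z | z - w (i * τ) + w' (j * σ) ∈ Kset ρ τ σ (shift (i * τ) w) (shift (j * σ) w')} := by
  ext z
  simp only [Set.mem_iUnion, mem_Kset, Set.mem_setOf_eq, shift_apply, exists_prop]
  constructor
  · rintro ⟨u, hu, v, hv, h⟩
    obtain ⟨i, hi, h1, h2⟩ := exists_block τ k hk u hu
    obtain ⟨j, hj, h3, h4⟩ := exists_block σ l hl v hv
    refine ⟨i, hi, j, hj, u - i * τ, tsub_le_iff_left.mpr h2, v - j * σ,
      tsub_le_iff_left.mpr h4, ?_⟩
    rw [add_tsub_cancel_of_le h1, add_tsub_cancel_of_le h3]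
    have : dist (w u - w (i * τ)) (z - w (i * τ) + w' (j * σ) + (w' v - w' (j * σ))) =
        dist (w u) (z + w' v) := by
      rw [dist_eq_norm, dist_eq_norm]; congr 1; abel
    rwa [this]
  · rintro ⟨i, hi, j, hj, u, hu, v, hv, h⟩
    refine ⟨i * τ + u, block_le τ hi hu, j * σ + v, block_le σ hj hv, ?_⟩
    have : dist (w (i * τ + u) - w (i * τ))
        (z - w (i * τ) + w' (j * σ) + (w' (j * σ + v) - w' (j * σ))) =
        dist (w (i * τ + u)) (z + w' (j * σ + v)) := by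
      rw [dist_eq_norm, dist_eq_norm]; congr 1; abel
    rwa [this] at h

theorem Vol_blocks (ρ : ℝ) (k l : ℕ) (τ σ : ℝ≥0) (hk : 0 < k) (hl : 0 < l) (w w' : Path d) :
    Vol ρ (k * τ) (l * σ) w w' ≤ ∑ i ∈ Finset.range k, ∑ j ∈ Finset.range l,
      Vol ρ τ σ (shift (i * τ) w) (shift (j * σ) w') := by
  unfold Vol
  rw [Kset_blocks ρ k l τ σ hk hl]
  have h1 : (⋃ (i : ℕ) (_ : i < k) (j : ℕ) (_ : j < l),
      {z | z - w (i * τ) + w' (j * σ) ∈ Kset ρ τ σ (shift (i * τ) w) (shift (j * σ) w')}) =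
      ⋃ i ∈ Finset.range k, ⋃ j ∈ Finset.range l,
      {z | z - w (i * τ) + w' (j * σ) ∈ Kset ρ τ σ (shift (i * τ) w) (shift (j * σ) w')} := by
    simp only [Finset.mem_range]
  rw [h1]
  refine (measure_biUnion_finset_le _ _).trans (Finset.sum_le_sum fun i _ => ?_)
  refine (measure_biUnion_finset_le _ _).trans (Finset.sum_le_sum fun j _ => ?_)
  have : {z : E d | z - w (i * τ) + w' (j * σ) ∈
      Kset ρ τ σ (shift (i * τ) w) (shift (j * σ) w')} =
      {z : E d | z + (w' (j * σ) - w (i * τ)) ∈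
      Kset ρ τ σ (shift (i * τ) w) (shift (j * σ) w')} := by
    ext z
    have : z - w (i * τ) + w' (j * σ) = z + (w' (j * σ) - w (i * τ)) := by abel
    simp only [Set.mem_setOf_eq, this]
  rw [this, volume_add_mem]

/-- Scaling of space by `ρ` and of time by `ρ ^ 2`. -/
theorem Kset_scale {ρ : ℝ≥0} (hρ : 0 < ρ) (s t : ℝ≥0) (w w' : Path d) :
    Kset (ρ : ℝ) s t w w' = (ρ : ℝ) •
      Kset 1 (s / ρ ^ 2) (t / ρ ^ 2) (scale (ρ ^ 2) w) (scale (ρ ^ 2) w') := by
  have hρ' : (0 : ℝ) < ρ := by exact_mod_cast hρ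
  have hne : (ρ : ℝ) ≠ 0 := hρ'.ne'
  have hne2 : ρ ≠ 0 := hρ.ne'
  ext z
  rw [Set.mem_smul_set_iff_inv_smul_mem₀ hne]
  simp only [mem_Kset, scale_apply]
  have hsq : (NNReal.sqrt (ρ ^ 2) : ℝ≥0) = ρ := by
    rw [NNReal.sqrt_sq]
  rw [hsq]
  have key : ∀ (a b : E d), dist ((ρ : ℝ)⁻¹ • a) ((ρ : ℝ)⁻¹ • z + (ρ : ℝ)⁻¹ • b) < 1 ↔
      dist a (z + b) < ρ := by
    intro a b
    rw [← smul_add, dist_smul₀, Real.norm_of_nonneg (by positivity), inv_mul_lt_iff₀ hρ', mul_one]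
  constructor
  · rintro ⟨u, hu, v, hv, h⟩
    refine ⟨u / ρ ^ 2, by gcongr, v / ρ ^ 2, by gcongr, ?_⟩
    rw [mul_div_cancel₀ u (pow_ne_zero 2 hne2), mul_div_cancel₀ v (pow_ne_zero 2 hne2), key]
    exact h
  · rintro ⟨u, hu, v, hv, h⟩
    rw [key] at h
    refine ⟨ρ ^ 2 * u, ?_, ρ ^ 2 * v, ?_, h⟩
    · rw [le_div_iff₀ (by positivity)] at hu
      rwa [mul_comm]
    · rw [le_div_iff₀ (by positivity)] at hv
      rwa [mul_comm]

/-- Scaling of space by `ρ` and of time by `ρ ^ 2`. -/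
theorem Vol_scale {ρ : ℝ≥0} (hρ : 0 < ρ) (s t : ℝ≥0) (w w' : Path d) :
    Vol (ρ : ℝ) s t w w' = (ρ : ℝ≥0∞) ^ d *
      Vol 1 (s / ρ ^ 2) (t / ρ ^ 2) (scale (ρ ^ 2) w) (scale (ρ ^ 2) w') := by
  unfold Vol
  rw [Kset_scale hρ, Measure.addHaar_smul]
  congr 1
  rw [finrank_euclideanSpace_fin, abs_of_nonneg (by positivity), ENNReal.ofReal_pow (by positivity),
    ENNReal.ofReal_coe_nnreal]

/-- Crude bound by the volume of a ball. -/
theorem Vol_le_rg (ρ : ℝ≥0) (s t : ℝ≥0) (w w' : Path d) :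
    Vol (ρ : ℝ) s t w w' ≤
      volume (Metric.ball (0 : E d) 1) * ((ρ : ℝ≥0∞) + rg s w + rg t w') ^ d := by
  have hfin : (ρ : ℝ≥0∞) + rg s w + rg t w' ≠ ∞ := by
    refine ENNReal.add_ne_top.2 ⟨ENNReal.add_ne_top.2 ⟨ENNReal.coe_ne_top, ?_⟩, ?_⟩
    · exact (rg_lt_top s w).ne
    · exact (rg_lt_top t w').ne
  set R := (ρ : ℝ≥0∞) + rg s w + rg t w' with hR
  have hsub : Kset (ρ : ℝ) s t w w' ⊆ Metric.closedBall (0 : E d) R.toReal := by
    intro z hz
    have h1 := enorm_le_of_mem_Kset hz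
    rw [mem_closedBall_zero_iff]
    have h2 : ‖z‖ₑ ≤ R := h1
    have h3 := ENNReal.toReal_mono hfin h2
    rwa [toReal_enorm] at h3
  unfold Vol
  refine (measure_mono hsub).trans ?_
  rw [Measure.addHaar_closedBall _ _ ENNReal.toReal_nonneg, finrank_euclideanSpace_fin,
    ENNReal.ofReal_pow ENNReal.toReal_nonneg, ENNReal.ofReal_toReal hfin, mul_comm]

end WSP
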