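import Pool.Agent.Lib_MP_c175fd.KBase
import Pool.Agent.Lib_MP_c175fd.KSplit

/-! Elementary properties of `Kset` and `Vol`. -/


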