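import Pool.Agent.Lib_MP_c175fd.CntDefs
import Pool.Agent.Lib_MP_c175fd.KBasic

/-!
# Piece REROOT: change of root by translation invariance

Let `S ⊆ (V → Mark d)` be invariant under simultaneous translations of the starting points and
`0 < volume Q < ∞`. Then the measure of `{z ∈ S | (z u).1 ∈ Q}` does not depend on `u`. Proof:
`volume Q * ν {z ∈ S, (z u).1 ∈ Q} = ∫_S 1{(z u).1 ∈ Q} (∫ 1{(z v).1 + h ∈ Q} dh) dν(z)` (the inner integral is
`volume Q`); exchange the integrals and translate `z` by `-h` (the measure `Measure.pi` is invariant):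
`= ∫∫_S 1{(z u).1 - h ∈ Q} 1{(z v).1 ∈ Q} dν(z) dh = volume Q * ν {z ∈ S, (z v).1 ∈ Q}`.
-/

open MeasureTheory ProbabilityTheory Filter Topology
open scoped ENNReal NNReal

namespace WSP

variable {d : ℕ}

/-- Translation of all starting points. -/
def shiftM {V : Type*} (h : E d) (z : V → Mark d) : V → Mark d := fun v => ((z v).1 + h, (z v).2)

theorem measurePreserving_shiftM {μ : Measure (Path d)} [IsProbabilityMeasure μ] {V : Type}
    [Fintype V] (h : E d) : MeasurePreserving (shiftM (V := V) h)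
      (Measure.pi fun _ : V => nuM μ) (Measure.pi fun _ : V => nuM μ) := by
  have h1 : ∀ _ : V, MeasurePreserving (fun y : Mark d => (y.1 + h, y.2)) (nuM μ) (nuM μ) := fun _ =>
    (measurePreserving_add_right volume h).prod (MeasurePreserving.id μ)
  exact measurePreserving_pi _ _ h1

theorem reroot {μ : Measure (Path d)} [IsProbabilityMeasure μ] {V : Type} [Fintype V]
    {S : Set (V → Mark d)} (hS : MeasurableSet S) (hinv : ∀ (h : E d) (z), z ∈ S → shiftM h z ∈ S)
    {Q : Set (E d)} (hQ : MeasurableSet Q) (hQ0 : volume Q ≠ 0) (hQ1 : volume Q ≠ ∞) (u v : V) :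
    Measure.pi (fun _ : V => nuM μ) {z | (z u).1 ∈ Q ∧ z ∈ S} =
      Measure.pi (fun _ : V => nuM μ) {z | (z v).1 ∈ Q ∧ z ∈ S} := by
  set P := Measure.pi (fun _ : V => nuM μ) with hP
  set T : Set ((V → Mark d) × E d) :=
    {p | p.1 ∈ S ∧ (p.1 u).1 ∈ Q ∧ (p.1 v).1 + p.2 ∈ Q} with hT
  set T' : Set ((V → Mark d) × E d) :=
    {p | p.1 ∈ S ∧ (p.1 v).1 ∈ Q ∧ (p.1 u).1 - p.2 ∈ Q} with hT'
  have hev : ∀ w : V, Measurable (fun p : (V → Mark d) × E d => (p.1 w).1) := fun w =>
    measurable_fst.comp ((measurable_pi_apply w).comp measurable_fst)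
  have hTm : MeasurableSet T := by
    refine MeasurableSet.inter (hS.preimage measurable_fst) (MeasurableSet.inter ?_ ?_)
    · exact hQ.preimage (hev u)
    · exact hQ.preimage ((hev v).add measurable_snd)
  have hTm' : MeasurableSet T' := by
    refine MeasurableSet.inter (hS.preimage measurable_fst) (MeasurableSet.inter ?_ ?_)
    · exact hQ.preimage (hev v)
    · exact hQ.preimage ((hev u).sub measurable_snd)
  have hA : ∀ w : V, MeasurableSet {z : V → Mark d | (z w).1 ∈ Q ∧ z ∈ S} := fun w =>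
    MeasurableSet.inter (hQ.preimage (measurable_fst.comp (measurable_pi_apply w))) hS
  -- first computation
  have e1 : (P.prod volume) T = volume Q * P {z | (z u).1 ∈ Q ∧ z ∈ S} := by
    rw [Measure.prod_apply hTm, ← lintegral_indicator_const (hA u)]
    refine lintegral_congr fun z => ?_
    by_cases hz : z ∈ {z : V → Mark d | (z u).1 ∈ Q ∧ z ∈ S}
    · rw [Set.indicator_of_mem hz]
      have h1 : Prod.mk z ⁻¹' T = (fun h => (z v).1 + h) ⁻¹' Q := by
        ext h
        exact ⟨fun h2 => h2.2.2, fun h2 => ⟨hz.2, hz.1, h2⟩⟩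
      rw [h1, measure_preimage_add]
    · rw [Set.indicator_of_notMem hz]
      have h1 : Prod.mk z ⁻¹' T = ∅ := by
        ext h
        simp only [Set.mem_empty_iff_false, iff_false]
        exact fun h2 => hz ⟨h2.2.1, h2.1⟩
      rw [h1, measure_empty]
  have e2 : (P.prod volume) T' = volume Q * P {z | (z v).1 ∈ Q ∧ z ∈ S} := by
    rw [Measure.prod_apply hTm', ← lintegral_indicator_const (hA v)]
    refine lintegral_congr fun z => ?_
    by_cases hz : z ∈ {z : V → Mark d | (z v).1 ∈ Q ∧ z ∈ S}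
    · rw [Set.indicator_of_mem hz]
      have h1 : Prod.mk z ⁻¹' T' = (fun h => (z u).1 - h) ⁻¹' Q := by
        ext h
        exact ⟨fun h2 => h2.2.2, fun h2 => ⟨hz.2, hz.1, h2⟩⟩
      rw [h1]
      exact (Measure.measurePreserving_sub_left volume (z u).1).measure_preimage hQ.nullMeasurableSet
    · rw [Set.indicator_of_notMem hz]
      have h1 : Prod.mk z ⁻¹' T' = ∅ := by
        ext h
        simp only [Set.mem_empty_iff_false, iff_false]
        exact fun h2 => hz ⟨h2.2.1, h2.1⟩
      rw [h1, measure_empty]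
  have e3 : (P.prod volume) T = (P.prod volume) T' := by
    rw [Measure.prod_apply_symm hTm, Measure.prod_apply_symm hTm']
    refine lintegral_congr fun h => ?_
    have hm : MeasurableSet ((fun z : V → Mark d => (z, h)) ⁻¹' T) :=
      hTm.preimage (measurable_id.prodMk measurable_const)
    rw [← (measurePreserving_shiftM (μ := μ) (V := V) (-h)).measure_preimage hm.nullMeasurableSet]
    congr 1
    ext z
    have hSiff : shiftM (-h) z ∈ S ↔ z ∈ S := by
      constructor
      · intro hz
        have h1 := hinv h _ hz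
        have h2 : shiftM h (shiftM (-h) z) = z := by
          funext w
          simp [shiftM]
        rwa [h2] at h1
      · exact hinv (-h) z
    change (shiftM (-h) z ∈ S ∧ (z u).1 + -h ∈ Q ∧ (z v).1 + -h + h ∈ Q) ↔
      (z ∈ S ∧ (z v).1 ∈ Q ∧ (z u).1 - h ∈ Q)
    rw [hSiff, neg_add_cancel_right, ← sub_eq_add_neg]
    exact and_congr_right fun _ => and_comm
  rw [e1, e2] at e3
  exact (ENNReal.mul_right_inj hQ0 hQ1).1 e3

theorem hitR_shift {ρ : ℝ} {s t : ℝ≥0} {y y' : Mark d} (h : E d) :
    hitR ρ s t (y.1 + h, y.2) (y'.1 + h, y'.2) ↔ hitR ρ s t y y' := by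
  simp [hitR]

end WSP
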