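import Pool.Agent.Lib_MP_c175fd.ChainG
import Pool.Agent.Lib_MP_c175fd.CycEmb
import Pool.Agent.Lib_MP_c175fd.Reroot
import Pool.Agent.Lib_MP_c175fd.PatCyc
import Pool.Agent.Lib_MP_c175fd.CycFin

/-!
# Piece CYCPAT: the gluings with a cycle are negligible

Let `s` be a gluing of two paths with common root whose glued graph is not acyclic. It is connected
(`glueGraph_connected`, `SimpleGraph.pathGraph_connected`) and contains a cyclic sequence `c` of `m + 3`
distinct vertices (`exists_cycle_embedding`), `m + 3 ≤ card (Quotient s.1) ≤ 2 n + 2`. By `glueSet_subset` the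
set is contained in `{z | (z v₀).1 ∈ Q ∧ Sat .. z}`, which by `reroot` has the same measure as
`{z | (z (c 0)).1 ∈ Q ∧ Sat .. z}`, and `pi_pattern_cycle_le` and `cycles_small` (for the finitely many
`m ≤ 2 n`, with `ε / (1 + M) ^ (2 n + 2)`; `relG` implies `hitR`) give the bound.
-/

open MeasureTheory ProbabilityTheory Filter Topology
open scoped ENNReal NNReal

namespace WSP

variable {d : ℕ}

/-- Gluings of two paths with a common root and a cycle. -/
def BadG (n : ℕ) : Set (Gluing (Fin (n + 1)) (Fin (n + 1))) :=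
  {s | s.1 (Sum.inl 0) (Sum.inr 0) ∧ ¬ (glueGraph (PG n) (PG n) s).IsAcyclic}

theorem cycpat_measSat {V : Type} [Fintype V] (H : SimpleGraph V) {rel : Mark d → Mark d → Prop}
    (hrel : MeasurableSet {p : Mark d × Mark d | rel p.1 p.2}) :
    MeasurableSet {z : V → Mark d | Sat H rel z} := by
  have h1 : {z : V → Mark d | Sat H rel z} =
      ⋂ u : V, ⋂ v : V, {z : V → Mark d | H.Adj u v → rel (z u) (z v)} := by
    ext z
    simp only [Sat, Set.mem_ofPred_eq, Set.mem_iInter]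
  rw [h1]
  refine MeasurableSet.iInter fun u => MeasurableSet.iInter fun v => ?_
  by_cases huv : H.Adj u v
  · have h2 : {z : V → Mark d | H.Adj u v → rel (z u) (z v)} =
        (fun z : V → Mark d => (z u, z v)) ⁻¹' {p : Mark d × Mark d | rel p.1 p.2} := by
      ext z
      simp only [Set.mem_ofPred_eq, Set.mem_preimage, huv, true_imp_iff]
    rw [h2]
    exact ((measurable_pi_apply u).prodMk (measurable_pi_apply v)) hrel
  · have h2 : {z : V → Mark d | H.Adj u v → rel (z u) (z v)} = Set.univ := by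
      ext z
      simp only [Set.mem_ofPred_eq, huv, false_imp_iff, Set.mem_univ]
    rw [h2]
    exact MeasurableSet.univ

theorem cycpat_card {n : ℕ} (s : Gluing (Fin (n + 1)) (Fin (n + 1))) :
    Fintype.card (Quotient s.1) ≤ 2 * n + 2 := by
  have h1 := Fintype.card_le_of_surjective (fun x : Fin (n + 1) ⊕ Fin (n + 1) => Quotient.mk s.1 x)
    Quotient.exists_rep
  rw [Fintype.card_sum, Fintype.card_fin] at h1
  omega

theorem cycpat (hd : 4 ≤ d) {μ : Measure (Path d)} (h : IsWiener μ) {κ : ℝ}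
    (hA : AnFacts d μ κ) {c : ℝ} (hc : 0 < c) (n : ℕ) {M ε : ℝ≥0∞} (hM' : M ≠ ∞) (hε : 0 < ε) :
    ∀ᶠ r in 𝓝[>] (0 : ℝ), ∀ G : Set (Path d), MeasurableSet G →
      (∀ w ∈ G, ∫⁻ w' in G, Vol (2 * r) (tt d c r) (tt d c r) w w' ∂μ ≤ M) →
      ∀ Q : Set (E d), MeasurableSet Q → volume Q ≠ 0 → volume Q ≠ ∞ → ∀ s ∈ BadG n,
        Measure.pi (fun _ : Quotient s.1 => nuM μ)
          (glueSet s (chainG (2 * r) (tt d c r) G Q n) (chainG (2 * r) (tt d c r) G Q n)) ≤
        ε * volume Q := by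
  have := h.isProb
  have hK1 : (1 + M) ^ (2 * n + 2) ≠ ∞ := ENNReal.pow_ne_top (ENNReal.add_ne_top.2
    ⟨ENNReal.one_ne_top, hM'⟩)
  have hε' : 0 < ε / (1 + M) ^ (2 * n + 2) := ENNReal.div_pos hε.ne' hK1
  have hev : ∀ᶠ r in 𝓝[>] (0 : ℝ), ∀ m ∈ Finset.range (2 * n + 1), ∀ Q : Set (E d),
      MeasurableSet Q → Measure.pi (fun _ : Fin (m + 3) => nuM μ)
        {z | (z 0).1 ∈ Q ∧ ∀ i, hitR (2 * r) (tt d c r) (tt d c r) (z i) (z (i + 1))} ≤
      ε / (1 + M) ^ (2 * n + 2) * volume Q :=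
    (Filter.eventually_all_finset _).2 fun m _ => cycles_small hd h hA hc m hε'
  filter_upwards [hev] with r hr G hG hM Q hQ hQ0 hQ1 s hs
  obtain ⟨hs0, hs1⟩ := hs
  have hcon : (glueGraph (PG n) (PG n) s).Connected :=
    glueGraph_connected (SimpleGraph.pathGraph_connected n) (SimpleGraph.pathGraph_connected n) s hs0
  obtain ⟨m, e, he⟩ := exists_cycle_embedding hs1
  have hcard := cycpat_card s
  have hm : m + 3 ≤ Fintype.card (Quotient s.1) := by
    have := Fintype.card_le_of_embedding e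
    rwa [Fintype.card_fin] at this
  have hmr : m ∈ Finset.range (2 * n + 1) := by
    rw [Finset.mem_range]
    omega
  have hrel := measurableSet_relG (2 * r) (tt d c r) hG
  have hQm : MeasurableSet {y : Mark d | y.1 ∈ Q} := measurable_fst hQ
  have hS := cycpat_measSat (glueGraph (PG n) (PG n) s) hrel
  have hsub : glueSet s (chainG (2 * r) (tt d c r) G Q n) (chainG (2 * r) (tt d c r) G Q n) ⊆
      {z | (z (glL s 0)).1 ∈ Q ∧
        z ∈ {z | Sat (glueGraph (PG n) (PG n) s) (relG (2 * r) (tt d c r) G) z}} := by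
    have h1 := glueSet_subset (Q := {y : Mark d | y.1 ∈ Q}) (v₀ := (0 : Fin (n + 1)))
      (chainG_subset (2 * r) (tt d c r) G Q n)
      (A' := chainG (2 * r) (tt d c r) G Q n) (G' := PG n)
      (fun z hz => (chainG_subset (2 * r) (tt d c r) G Q n hz).2) s
    exact h1
  have hinv : ∀ (v : E d) (z : Quotient s.1 → Mark d),
      z ∈ {z | Sat (glueGraph (PG n) (PG n) s) (relG (2 * r) (tt d c r) G) z} →
      shiftM v z ∈ {z | Sat (glueGraph (PG n) (PG n) s) (relG (2 * r) (tt d c r) G) z} := by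
    intro v z hz x y hxy
    obtain ⟨h1, h2, h3⟩ := hz x y hxy
    exact ⟨h1, h2, (hitR_shift v).2 h3⟩
  refine (measure_mono hsub).trans ?_
  rw [reroot hS hinv hQ hQ0 hQ1 (glL s 0) (e 0)]
  have h2 := pi_pattern_cycle_le hrel (fun a b hab => relG_symm hab) (nuM_relG_le hG hM) hcon e he hQm
  have h3 : Measure.pi (fun _ : Fin (m + 3) => nuM μ)
      {x | x 0 ∈ {y : Mark d | y.1 ∈ Q} ∧ ∀ i, relG (2 * r) (tt d c r) G (x i) (x (i + 1))} ≤
      ε / (1 + M) ^ (2 * n + 2) * volume Q := by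
    refine (measure_mono ?_).trans (hr m hmr Q hQ)
    rintro x ⟨hx1, hx2⟩
    exact ⟨hx1, fun i => (hx2 i).2.2⟩
  have h4 : M ^ (Fintype.card (Quotient s.1) - (m + 3)) ≤ (1 + M) ^ (2 * n + 2) := by
    calc M ^ (Fintype.card (Quotient s.1) - (m + 3))
        ≤ (1 + M) ^ (Fintype.card (Quotient s.1) - (m + 3)) := by
          gcongr
          exact le_add_self
      _ ≤ (1 + M) ^ (2 * n + 2) := pow_le_pow_right₀ le_self_add (by omega)
  calc Measure.pi (fun _ : Quotient s.1 => nuM μ) {z | (z (e 0)).1 ∈ Q ∧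
        z ∈ {z | Sat (glueGraph (PG n) (PG n) s) (relG (2 * r) (tt d c r) G) z}}
      ≤ M ^ (Fintype.card (Quotient s.1) - (m + 3)) *
        Measure.pi (fun _ : Fin (m + 3) => nuM μ)
          {x | x 0 ∈ {y : Mark d | y.1 ∈ Q} ∧ ∀ i, relG (2 * r) (tt d c r) G (x i) (x (i + 1))} :=
        h2
    _ ≤ (1 + M) ^ (2 * n + 2) * (ε / (1 + M) ^ (2 * n + 2) * volume Q) := mul_le_mul' h4 h3
    _ = ((1 + M) ^ (2 * n + 2) * (ε / (1 + M) ^ (2 * n + 2))) * volume Q := by rw [mul_assoc]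
    _ ≤ ε * volume Q := by
        gcongr
        exact ENNReal.mul_div_le

end WSP
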