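import Pool.Agent.Lib_MP_c175fd.GlueF

/-!
# Piece ROOTCS: many roots with many chains (deterministic, for fixed `ω`)

`Zr i` is the number of admissible tuples with root `i`. Let `A ⊆ {z | z v₀ ∈ Q}`. Then
`∑ i, Zr i = cnt A`, `∑ i, (Zr i) ^ 2 = ∑ s with s (inl v₀) (inr v₀), cnt (glueSet s A A)` (`tsum_pairs`), and the
number of the roots `i` for which some pair of admissible tuples with root `i` is glued along some
`s ∈ Bad` is at most `∑ s ∈ Bad, cnt (glueSet s A A)`. With `x` the threshold,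
`∑ i, Zr i ≤ x * #{i present, mark in Q} + ∑ i with x ≤ Zr i, Zr i` (if `0 < Zr i` then `i` is present and its
mark is in `Q`) and the last sum is at most `(#{i | x ≤ Zr i}) ^ (1/2) (∑ i, (Zr i) ^ 2) ^ (1/2)`
(Cauchy-Schwarz, `ENNReal.inner_le_Lp_mul_Lq_tsum` or `lintegral` with the counting measure), and
`#{i | x ≤ Zr i} ≤ #{i clean | x ≤ Zr i} + #{i not clean}`.
-/

open MeasureTheory ProbabilityTheory Filter Topology
open scoped ENNReal NNReal

namespace WSP

variable {Ω I Y : Type*}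

open Classical in
/-- Number of admissible tuples with root `i`. -/
noncomputable def Zr (pres : I → Set Ω) (y : I → Ω → Y) {V : Type} (v₀ : V) (A : Set (V → Y))
    (ω : Ω) (i : I) : ℝ≥0∞ :=
  ∑' a : V ↪ I, (if a v₀ = i then adm pres y A ω a else 0)

/-- The root `i` is clean: no pair of admissible tuples with root `i` is glued along an element of
`Bad`. -/
def Clean (pres : I → Set Ω) (y : I → Ω → Y) {V : Type} (v₀ : V) (A : Set (V → Y))
    (Bad : Set (Gluing V V)) (ω : Ω) (i : I) : Prop :=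
  ∀ a b : V ↪ I, a v₀ = i → b v₀ = i → adm pres y A ω a ≠ 0 → adm pres y A ω b ≠ 0 →
    glueOf a b ∉ Bad

theorem ROOTCS_adm_le (pres : I → Set Ω) (y : I → Ω → Y) {V : Type} (A : Set (V → Y)) (ω : Ω)
    (a : V ↪ I) : adm pres y A ω a ≤ 1 := by
  unfold adm
  split_ifs <;> simp

theorem ROOTCS_adm_one (pres : I → Set Ω) (y : I → Ω → Y) {V : Type} {A : Set (V → Y)} {ω : Ω}
    {a : V ↪ I} (h : adm pres y A ω a ≠ 0) :
    adm pres y A ω a = 1 ∧ (∀ v, ω ∈ pres (a v)) ∧ (fun v => y (a v) ω) ∈ A := by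
  unfold adm at h ⊢
  split_ifs at h ⊢ with h1
  · exact ⟨rfl, h1⟩
  · exact absurd rfl h

open Classical in
theorem ROOTCS_sum (pres : I → Set Ω) (y : I → Ω → Y) {V : Type} (v₀ : V) (A : Set (V → Y))
    (ω : Ω) : ∑' i : I, Zr pres y v₀ A ω i = cnt pres y A ω := by
  unfold Zr
  rw [ENNReal.tsum_comm, cnt_eq_tsum_adm]
  refine tsum_congr fun a => ?_
  rw [tsum_eq_single (a v₀)]
  · rw [if_pos rfl]
  · intro i hi
    rw [if_neg (fun h => hi h.symm)]

open Classical in
/-- sum over roots of the pairs -/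
theorem ROOTCS_pairs (pres : I → Set Ω) (y : I → Ω → Y) {V : Type} [Fintype V] (v₀ : V)
    (A : Set (V → Y)) (ω : Ω) (F : Gluing V V → ℝ≥0∞) :
    ∑' i : I, ∑' a : V ↪ I, ∑' b : V ↪ I, (if a v₀ = i then
      (adm pres y A ω a * adm pres y A ω b * F (glueOf a b)) else 0) =
      ∑' s : Gluing V V, F s * cnt pres y (glueSet s A A) ω := by
  rw [← tsum_pairs, ENNReal.tsum_comm]
  refine tsum_congr fun a => ?_
  rw [ENNReal.tsum_comm]
  refine tsum_congr fun b => ?_
  rw [tsum_eq_single (a v₀)]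
  · rw [if_pos rfl]
  · intro i hi
    rw [if_neg (fun h => hi h.symm)]

open Classical in
theorem ROOTCS_sq (pres : I → Set Ω) (y : I → Ω → Y) {V : Type} [Fintype V] (v₀ : V)
    (A : Set (V → Y)) (ω : Ω) :
    ∑' i : I, (Zr pres y v₀ A ω i) ^ 2 = ∑' s : Gluing V V,
      (if s.1 (Sum.inl v₀) (Sum.inr v₀) then cnt pres y (glueSet s A A) ω else 0) := by
  have h1 := ROOTCS_pairs pres y v₀ A ω
    (fun s : Gluing V V => if s.1 (Sum.inl v₀) (Sum.inr v₀) then 1 else 0)
  simp only [ite_mul, one_mul, zero_mul] at h1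
  rw [← h1]
  refine tsum_congr fun i => ?_
  rw [sq]
  unfold Zr
  rw [← ENNReal.tsum_mul_right]
  refine tsum_congr fun a => ?_
  rw [← ENNReal.tsum_mul_left]
  refine tsum_congr fun b => ?_
  simp only [glueOf_inl_inr]
  by_cases h2 : a v₀ = i
  · by_cases h3 : b v₀ = i
    · rw [if_pos h2, if_pos h3, if_pos h2, if_pos (h2.trans h3.symm), mul_one]
    · rw [if_pos h2, if_neg h3, if_pos h2, if_neg (fun h => h3 (h.symm.trans h2)), mul_zero,
        mul_zero]
  · rw [if_neg h2, zero_mul, if_neg h2]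

open Classical in
theorem ROOTCS_notClean (pres : I → Set Ω) (y : I → Ω → Y) {V : Type} [Fintype V] (v₀ : V)
    (A : Set (V → Y)) (Bad : Set (Gluing V V)) (ω : Ω) :
    ∑' i : I, (if Clean pres y v₀ A Bad ω i then (0 : ℝ≥0∞) else 1) ≤
      ∑' s : Gluing V V, (if s ∈ Bad then cnt pres y (glueSet s A A) ω else 0) := by
  have h1 := ROOTCS_pairs pres y v₀ A ω (fun s : Gluing V V => if s ∈ Bad then 1 else 0)
  simp only [ite_mul, one_mul, zero_mul] at h1
  rw [← h1]
  refine ENNReal.tsum_le_tsum fun i => ?_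
  by_cases hc : Clean pres y v₀ A Bad ω i
  · rw [if_pos hc]
    exact zero_le
  · rw [if_neg hc]
    unfold Clean at hc
    push Not at hc
    obtain ⟨a, b, ha, hb, ha', hb', hab⟩ := hc
    refine le_trans ?_ (ENNReal.le_tsum a)
    refine le_trans ?_ (ENNReal.le_tsum b)
    rw [if_pos ha, if_pos hab, (ROOTCS_adm_one pres y ha').1, (ROOTCS_adm_one pres y hb').1]
    simp

open Classical in
/-- presence of the root -/
theorem ROOTCS_root (pres : I → Set Ω) (y : I → Ω → Y) {V : Type} (v₀ : V) {Q : Set Y}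
    {A : Set (V → Y)} (hA : A ⊆ {z | z v₀ ∈ Q}) (ω : Ω) {i : I}
    (h : Zr pres y v₀ A ω i ≠ 0) : ω ∈ pres i ∧ y i ω ∈ Q := by
  unfold Zr at h
  rw [Ne, ENNReal.tsum_eq_zero] at h
  push Not at h
  obtain ⟨a, ha⟩ := h
  by_cases hai : a v₀ = i
  · rw [if_pos hai] at ha
    obtain ⟨_, h1, h2⟩ := ROOTCS_adm_one pres y ha
    have h3 := h1 v₀
    have h4 := hA h2
    rw [hai] at h3
    refine ⟨h3, ?_⟩
    have h5 : y (a v₀) ω ∈ Q := h4
    rwa [hai] at h5
  · rw [if_neg hai] at ha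
    exact absurd rfl ha

open Classical in
theorem ROOTCS_unit (pres : I → Set Ω) (y : I → Ω → Y) (Q : Set Y) (ω : Ω) :
    ∑' i : I, (if ω ∈ pres i ∧ y i ω ∈ Q then (1 : ℝ≥0∞) else 0) ≤
      cnt pres y {z : Unit → Y | z () ∈ Q} ω := by
  unfold cnt
  let e : I → (Unit ↪ I) := fun i => ⟨fun _ => i, fun _ _ _ => rfl⟩
  have he : Function.Injective e := by
    intro i j h
    exact DFunLike.congr_fun h ()
  refine le_trans (le_of_eq ?_) (ENNReal.tsum_comp_le_tsum_of_injective he _)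
  refine tsum_congr fun i => ?_
  by_cases h : ω ∈ pres i ∧ y i ω ∈ Q
  · rw [if_pos h, Set.indicator_of_mem]
    exact ⟨fun _ => h.1, h.2⟩
  · rw [if_neg h, Set.indicator_of_notMem]
    intro h'
    exact h ⟨h'.1 (), h'.2⟩

/-- Cauchy-Schwarz for sums -/
theorem ROOTCS_cs (f g : I → ℝ≥0∞) :
    ∑' i, f i * g i ≤ (∑' i, (f i) ^ 2) ^ (1 / 2 : ℝ) * (∑' i, (g i) ^ 2) ^ (1 / 2 : ℝ) := by
  let _ : MeasurableSpace I := ⊤
  have : MeasurableSingletonClass I := ⟨fun _ => trivial⟩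
  have h := ENNReal.lintegral_mul_le_Lp_mul_Lq (Measure.count : Measure I)
    Real.HolderConjugate.two_two (f := f) (g := g) measurable_from_top.aemeasurable
    measurable_from_top.aemeasurable
  simp only [lintegral_count, Pi.mul_apply, ENNReal.rpow_two] at h
  exact h

open Classical in
theorem root_cs (pres : I → Set Ω) (y : I → Ω → Y) {V : Type} [Fintype V] (v₀ : V) {Q : Set Y}
    {A : Set (V → Y)} (hA : A ⊆ {z | z v₀ ∈ Q}) (Bad : Set (Gluing V V)) (ω : Ω) (x : ℝ≥0∞)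
    (hx : x ≠ 0) :
    cnt pres y A ω ≤ x * cnt pres y {z : Unit → Y | z () ∈ Q} ω +
      ((∑' i : I, (if Clean pres y v₀ A Bad ω i ∧ x ≤ Zr pres y v₀ A ω i then 1 else 0) +
          ∑' s : Gluing V V, (if s ∈ Bad then cnt pres y (glueSet s A A) ω else 0)) *
        ∑' s : Gluing V V, (if s.1 (Sum.inl v₀) (Sum.inr v₀) then
          cnt pres y (glueSet s A A) ω else 0)) ^ (1 / 2 : ℝ) := by
  have _ := hx
  rw [← ROOTCS_sum pres y v₀ A ω]
  have h1 : ∀ i, Zr pres y v₀ A ω i ≤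
      x * (if ω ∈ pres i ∧ y i ω ∈ Q then (1 : ℝ≥0∞) else 0) +
      (if x ≤ Zr pres y v₀ A ω i then (1 : ℝ≥0∞) else 0) * Zr pres y v₀ A ω i := by
    intro i
    by_cases h2 : x ≤ Zr pres y v₀ A ω i
    · rw [if_pos h2, one_mul]
      exact le_add_self
    · rw [if_neg h2, zero_mul, add_zero]
      push Not at h2
      by_cases h3 : Zr pres y v₀ A ω i = 0
      · rw [h3]
        exact zero_le
      · rw [if_pos (ROOTCS_root pres y v₀ hA ω h3), mul_one]
        exact h2.le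
  refine (ENNReal.tsum_le_tsum h1).trans ?_
  rw [ENNReal.tsum_add, ENNReal.tsum_mul_left]
  refine add_le_add (mul_le_mul' le_rfl (ROOTCS_unit pres y Q ω)) ?_
  refine (ROOTCS_cs _ _).trans ?_
  rw [← ENNReal.mul_rpow_of_nonneg _ _ (by norm_num : (0 : ℝ) ≤ 1 / 2), ROOTCS_sq]
  refine ENNReal.rpow_le_rpow (mul_le_mul' ?_ le_rfl) (by norm_num)
  calc ∑' i, (if x ≤ Zr pres y v₀ A ω i then (1 : ℝ≥0∞) else 0) ^ 2
      ≤ ∑' i, ((if Clean pres y v₀ A Bad ω i ∧ x ≤ Zr pres y v₀ A ω i then 1 else 0) +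
          (if Clean pres y v₀ A Bad ω i then (0 : ℝ≥0∞) else 1)) := by
        refine ENNReal.tsum_le_tsum fun i => ?_
        by_cases h2 : x ≤ Zr pres y v₀ A ω i
        · by_cases h3 : Clean pres y v₀ A Bad ω i
          · rw [if_pos h2, if_pos ⟨h3, h2⟩, if_pos h3]
            simp
          · rw [if_pos h2, if_neg h3, one_pow]
            exact le_add_self
        · rw [if_neg h2]
          simp
    _ = ∑' i, (if Clean pres y v₀ A Bad ω i ∧ x ≤ Zr pres y v₀ A ω i then 1 else 0) +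
          ∑' i, (if Clean pres y v₀ A Bad ω i then (0 : ℝ≥0∞) else 1) := ENNReal.tsum_add
    _ ≤ _ := add_le_add le_rfl (ROOTCS_notClean pres y v₀ A Bad ω)

/-- If the root is clean, all pairs of tuples are glued outside `Bad`; if moreover gluings outside
`Bad` with common end are trivial, then distinct tuples have distinct ends, so there are at least
`Zr i` different ends. -/
theorem ends_of_clean (pres : I → Set Ω) (y : I → Ω → Y) {V : Type} [Fintype V] (v₀ v₁ : V)
    {A : Set (V → Y)} {Bad : Set (Gluing V V)}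
    (hBad : ∀ s : Gluing V V, s.1 (Sum.inl v₀) (Sum.inr v₀) → s.1 (Sum.inl v₁) (Sum.inr v₁) →
      s ∉ Bad → ∀ v, s.1 (Sum.inl v) (Sum.inr v)) {ω : Ω} {i : I}
    (hi : Clean pres y v₀ A Bad ω i) {C : Finset I}
    (hC : ∀ a : V ↪ I, a v₀ = i → adm pres y A ω a ≠ 0 → a v₁ ∈ C) :
    Zr pres y v₀ A ω i ≤ C.card := by
  classical
  unfold Zr
  let S : Set (V ↪ I) := {a | a v₀ = i ∧ adm pres y A ω a ≠ 0}
  have hsupp : Function.support (fun a : V ↪ I =>
      if a v₀ = i then adm pres y A ω a else (0 : ℝ≥0∞)) ⊆ S := by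
    intro a ha
    rw [Function.mem_support] at ha
    by_cases hai : a v₀ = i
    · rw [if_pos hai] at ha
      exact ⟨hai, ha⟩
    · rw [if_neg hai] at ha
      exact absurd rfl ha
  rw [← tsum_subtype_eq_of_support_subset hsupp]
  let φ : S → C := fun a => ⟨a.1 v₁, hC a.1 a.2.1 a.2.2⟩
  have hφ : Function.Injective φ := by
    rintro ⟨a, ha⟩ ⟨b, hb⟩ hab
    have h1 : a v₁ = b v₁ := congrArg Subtype.val hab
    have h2 := hi a b ha.1 hb.1 ha.2 hb.2
    have h3 := hBad (glueOf a b) (ha.1.trans hb.1.symm) h1 h2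
    refine Subtype.ext ?_
    exact DFunLike.ext _ _ fun v => h3 v
  calc ∑' a : S, (if (a : V ↪ I) v₀ = i then adm pres y A ω a else (0 : ℝ≥0∞))
      ≤ ∑' a : S, (fun _ : C => (1 : ℝ≥0∞)) (φ a) := by
        refine ENNReal.tsum_le_tsum fun a => ?_
        rw [if_pos a.2.1]
        exact ROOTCS_adm_le pres y A ω a
    _ ≤ ∑' _ : C, (1 : ℝ≥0∞) := ENNReal.tsum_comp_le_tsum_of_injective hφ _
    _ = C.card := by
        rw [tsum_fintype, Finset.sum_const, Finset.card_univ, Fintype.card_coe, nsmul_eq_mul,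
          mul_one]

end WSP
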