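import Pool.Agent.Lib_MP_c175fd.Perc
import Pool.Agent.Lib_MP_c175fd.ScaleFF

/-!
# Piece WINA: windows of unit cubes, present indices in a window, big points, splittings

`win k R L`: integer corners of the unit cubes in the box with corner `k` and side `R` enlarged by `L`
on all sides; `boxE k R L` is the corresponding subset of the space. `M.J W ω` is the finite set of the
present indices whose cube belongs to `W`. `bigs J y r t A Wq`: elements of `J` with cube in `Wq` whose
cluster in `J` at time `t` has at least `A` elements. `Split J B y r t m`: `B` can be cut in two parts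
with at least `m` elements each which are not connected in `J` at time `t`.
-/

open MeasureTheory ProbabilityTheory Filter Topology
open scoped ENNReal NNReal

namespace WSP

variable {d : ℕ}

/-- Integer corners of the unit cubes in the box with corner `k` and side `R`, enlarged by `L`. -/
noncomputable def win (k : Fin d → ℤ) (R L : ℕ) : Finset (Fin d → ℤ) :=
  Fintype.piFinset fun i => Finset.Ico (k i - L) (k i + R + L)

/-- The box with corner `k` and side `R`, enlarged by `L`. -/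
def boxE (k : Fin d → ℤ) (R L : ℕ) : Set (E d) :=
  {x | ∀ i, (k i : ℝ) - L ≤ x i ∧ x i < (k i : ℝ) + R + L}

theorem mem_win {k k' : Fin d → ℤ} {R L : ℕ} :
    k' ∈ win k R L ↔ ∀ i, k i - L ≤ k' i ∧ k' i < k i + R + L := by
  simp [win, Fintype.mem_piFinset]

theorem mem_boxE_iff {k k' : Fin d → ℤ} {R L : ℕ} {x : E d} (hx : x ∈ cube k') :
    x ∈ boxE k R L ↔ k' ∈ win k R L := by
  rw [mem_win]
  refine forall_congr' fun i => ?_
  obtain ⟨h1, h2⟩ := hx i
  constructor
  · rintro ⟨h3, h4⟩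
    constructor
    · have h5 : ((k i - L : ℤ) : ℝ) < ((k' i + 1 : ℤ) : ℝ) := by
        push_cast
        linarith
      have h6 : k i - L < k' i + 1 := by exact_mod_cast h5
      omega
    · have h5 : ((k' i : ℤ) : ℝ) < ((k i + R + L : ℤ) : ℝ) := by
        push_cast
        linarith
      exact_mod_cast h5
  · rintro ⟨h3, h4⟩
    have h3' : ((k i - L : ℤ) : ℝ) ≤ (k' i : ℝ) := by exact_mod_cast h3
    have h4' : ((k' i + 1 : ℤ) : ℝ) ≤ ((k i + R + L : ℤ) : ℝ) := by
      exact_mod_cast Int.add_one_le_iff.2 h4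
    push_cast at h3' h4'
    constructor <;> linarith

theorem wina_boxE_eq (k : Fin d → ℤ) (R L : ℕ) :
    boxE k R L = (WithLp.ofLp : E d → Fin d → ℝ) ⁻¹'
      (Set.univ.pi fun i => Set.Ico ((k i : ℝ) - L) ((k i : ℝ) + R + L)) := by
  ext x
  simp [boxE]

theorem measurableSet_boxE (k : Fin d → ℤ) (R L : ℕ) : MeasurableSet (boxE k R L) := by
  rw [wina_boxE_eq]
  exact (PiLp.volume_preserving_ofLp (Fin d)).measurable
    (MeasurableSet.univ_pi fun i => measurableSet_Ico)

theorem volume_boxE (k : Fin d → ℤ) (R L : ℕ) :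
    volume (boxE k R L) = ((R + 2 * L : ℕ) : ℝ≥0∞) ^ d := by
  rw [wina_boxE_eq, (PiLp.volume_preserving_ofLp (Fin d)).measure_preimage
    (MeasurableSet.univ_pi fun i => measurableSet_Ico).nullMeasurableSet, Real.volume_pi_Ico]
  have h : ∀ i, ENNReal.ofReal ((k i : ℝ) + R + L - ((k i : ℝ) - L)) =
      ((R + 2 * L : ℕ) : ℝ≥0∞) := by
    intro i
    rw [← ENNReal.ofReal_natCast]
    congr 1
    push_cast
    ring
  rw [Finset.prod_congr rfl fun i _ => h i]
  simp

/-- Neighbouring boxes: `k'` is at sup distance at most `R` from `k`. -/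
theorem boxE_subset {k k' : Fin d → ℤ} {R L : ℕ} (h : ∀ i, |k' i - k i| ≤ R) :
    boxE k' R L ⊆ boxE k R (R + L) := by
  intro x hx i
  obtain ⟨h1, h2⟩ := hx i
  have h3 := abs_le.1 (h i)
  have h4 : (-(R : ℤ) : ℝ) ≤ (k' i : ℝ) - k i := by exact_mod_cast h3.1
  have h5 : (k' i : ℝ) - k i ≤ (R : ℤ) := by exact_mod_cast h3.2
  simp only [Int.cast_natCast] at h4 h5
  push_cast
  constructor <;> linarith

theorem win_subset {k k' : Fin d → ℤ} {R L : ℕ} (h : ∀ i, |k' i - k i| ≤ R) :
    win k' R L ⊆ win k R (R + L) := by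
  intro x hx
  rw [mem_win] at hx ⊢
  intro i
  obtain ⟨h1, h2⟩ := hx i
  have h3 := abs_le.1 (h i)
  push_cast
  omega

theorem win_mono (k : Fin d → ℤ) (R : ℕ) {L L' : ℕ} (h : L ≤ L') : win k R L ⊆ win k R L' := by
  intro x hx
  rw [mem_win] at hx ⊢
  intro i
  obtain ⟨h1, h2⟩ := hx i
  omega

/-- Closed balls of radius `a` around points of the box. -/
theorem closedBall_subset_boxE {k : Fin d → ℤ} {R L : ℕ} {x : E d} (hx : x ∈ boxE k R L) (a : ℕ) :
    Metric.closedBall x (a : ℝ) ⊆ boxE k R (L + a) := by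
  intro x' hx' i
  rw [Metric.mem_closedBall, dist_eq_norm] at hx'
  obtain ⟨h1, h2⟩ := hx i
  have h3 : ‖(x' - x) i‖ ≤ a := (PiLp.norm_apply_le (x' - x) i).trans hx'
  have h4 : |x' i - x i| ≤ a := h3
  have h5 := abs_le.1 h4
  push_cast
  constructor <;> linarith [h5.1, h5.2]

theorem dist_le_of_mem_boxE {k : Fin d → ℤ} {R L : ℕ} {x x' : E d} (hx : x ∈ boxE k R L)
    (hx' : x' ∈ boxE k R L) : dist x x' ≤ d * (R + 2 * L : ℕ) := by
  have h0 : (0 : ℝ) ≤ ((R + 2 * L : ℕ) : ℝ) := Nat.cast_nonneg _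
  have h1 : ∀ i, dist (x i) (x' i) ≤ ((R + 2 * L : ℕ) : ℝ) := by
    intro i
    obtain ⟨h1, h2⟩ := hx i
    obtain ⟨h3, h4⟩ := hx' i
    rw [Real.dist_eq, abs_le]
    push_cast
    constructor <;> linarith
  rw [EuclideanSpace.dist_eq]
  refine Real.sqrt_le_iff.2 ⟨by positivity, ?_⟩
  calc ∑ i, dist (x i) (x' i) ^ 2 ≤ ∑ _i : Fin d, ((R + 2 * L : ℕ) : ℝ) ^ 2 :=
        Finset.sum_le_sum fun i _ => pow_le_pow_left₀ dist_nonneg (h1 i) 2
    _ = d * ((R + 2 * L : ℕ) : ℝ) ^ 2 := by simp
    _ ≤ (d : ℝ) ^ 2 * ((R + 2 * L : ℕ) : ℝ) ^ 2 := by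
        refine mul_le_mul_of_nonneg_right ?_ (by positivity)
        exact_mod_cast Nat.le_self_pow two_ne_zero d
    _ = (d * ((R + 2 * L : ℕ) : ℝ)) ^ 2 := by ring

namespace PM

variable {Ω : Type*} [MeasurableSpace Ω] {P : Measure Ω} {μ : Measure (Path d)}

/-- The present indices whose cube belongs to `W`. -/
noncomputable def J (M : PM d P μ) (W : Finset (Fin d → ℤ)) (ω : Ω) : Finset (Idx d) :=
  W.biUnion fun k => (Finset.range (M.N k ω)).image fun j => (k, j)

theorem mem_J {M : PM d P μ} {W : Finset (Fin d → ℤ)} {ω : Ω} {i : Idx d} :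
    i ∈ M.J W ω ↔ i.1 ∈ W ∧ i.2 < M.N i.1 ω := by
  obtain ⟨k, j⟩ := i
  simp only [J, Finset.mem_biUnion, Finset.mem_image, Finset.mem_range, Prod.mk.injEq]
  constructor
  · rintro ⟨k', hk', j', hj', rfl, rfl⟩
    exact ⟨hk', hj'⟩
  · rintro ⟨h1, h2⟩
    exact ⟨k, h1, j, h2, rfl, rfl⟩

/-- Almost surely every starting point lies in its cube. -/
theorem ae_mem_cube (M : PM d P μ) : ∀ᵐ ω ∂P, ∀ i, (M.y i ω).1 ∈ cube i.1 := by
  rw [ae_all_iff]
  intro i
  have hS : MeasurableSet {p : Mark d | p.1 ∈ cube i.1} :=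
    measurable_fst (measurableSet_cube i.1)
  have h1 : ∀ᵐ p ∂((volume : Measure (E d)).restrict (cube i.1)).prod μ, p.1 ∈ cube i.1 := by
    rw [ae_iff]
    change ((volume : Measure (E d)).restrict (cube i.1)).prod μ {p : Mark d | p.1 ∈ cube i.1}ᶜ = 0
    rw [Measure.prod]
    by_cases hm : AEMeasurable (fun x : E d => Measure.map (Prod.mk x) μ)
        ((volume : Measure (E d)).restrict (cube i.1))
    · rw [Measure.bind_apply hS.compl hm]
      refine (lintegral_eq_zero_iff' ?_).2 ?_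
      · exact (Measure.measurable_coe hS.compl).comp_aemeasurable hm
      · rw [EventuallyEq, ae_restrict_iff' (measurableSet_cube i.1)]
        refine Eventually.of_forall fun x hx => ?_
        rw [Measure.map_apply measurable_prodMk_left hS.compl]
        have : (Prod.mk x ⁻¹' {p : Mark d | p.1 ∈ cube i.1}ᶜ : Set (Path d)) = ∅ := by
          ext w
          simp [hx]
        rw [this]
        simp
    · rw [Measure.bind, Measure.map_of_not_aemeasurable hm]
      simp
  rw [← M.lawy i] at h1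
  exact (ae_map_iff (M.measy i).aemeasurable hS).1 h1

end PM

open Classical in
/-- Elements of `J` with cube in `Wq` whose cluster in `J` at time `t` has at least `A` elements. -/
noncomputable def bigs (J : Finset (Idx d)) (y : Idx d → Mark d) (r : ℝ) (t : ℝ≥0) (A : ℕ)
    (Wq : Finset (Fin d → ℤ)) : Finset (Idx d) :=
  J.filter fun i => i.1 ∈ Wq ∧
    A ≤ (J.filter fun j => Relation.ReflTransGen (adjI (J : Set (Idx d)) y r t) i j).card

/-- `B` can be cut in two parts with at least `m` elements, not connected in `J` at time `t`. -/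
def Split {ι : Type*} [DecidableEq ι] (J B : Finset ι) (y : ι → Mark d) (r : ℝ) (t : ℝ≥0)
    (m : ℝ) : Prop :=
  ∃ S ⊆ B, (∀ b ∈ S, ∀ b' ∈ B \ S, ¬ Relation.ReflTransGen (adjI (J : Set ι) y r t) b b') ∧
    m ≤ (S.card : ℝ) ∧ m ≤ ((B \ S).card : ℝ)

/-- The big points of the block with corner `k`, side `R`, seen in the window enlarged by `L`. -/
noncomputable def PM.bg {Ω : Type*} [MeasurableSpace Ω] {P : Measure Ω} {μ : Measure (Path d)}
    (M : PM d P μ) (r : ℝ) (t : ℝ≥0) (A R L : ℕ) (k : Fin d → ℤ) (ω : Ω) : Finset (Idx d) :=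
  bigs (M.J (win k R L) ω) (fun i => M.y i ω) r t A (win k R 0)

/-- The good event of a pair of neighbouring blocks: both blocks contain at least `ρ R ^ d` big points
(seen in the windows enlarged by `L`, at time `t₁`), and the set of the big points of the two blocks
cannot be split in two parts with at least `δ R ^ d` elements not connected in the window enlarged by
`L'` at time `t`. -/
def PM.goodPair {Ω : Type*} [MeasurableSpace Ω] {P : Measure Ω} {μ : Measure (Path d)}
    (M : PM d P μ) (r : ℝ) (t₁ t : ℝ≥0) (A R L L' : ℕ) (ρ δ : ℝ) (k k' : Fin d → ℤ) : Set Ω :=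
  {ω | ρ * (R : ℝ) ^ d ≤ ((M.bg r t₁ A R L k ω).card : ℝ) ∧
    ρ * (R : ℝ) ^ d ≤ ((M.bg r t₁ A R L k' ω).card : ℝ) ∧
    ¬ Split (M.J (win k R L') ω) (M.bg r t₁ A R L k ω ∪ M.bg r t₁ A R L k' ω)
      (fun i => M.y i ω) r t (δ * (R : ℝ) ^ d)}

end WSP
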