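import Pool.Agent.Lib_MP_c175fd.ChainG
import Pool.Agent.Lib_MP_c175fd.RootCS
import Pool.Agent.Lib_MP_c175fd.CycPat
import Pool.Agent.Lib_MP_c175fd.Win

/-!
# Piece BIGLOC: clean roots with many chains are big points

Fix `ω` such that every starting point lies in its cube. Let `a` be an admissible chain with root `i`: all
marks are present, consecutive ones satisfy `relG`, so consecutive starting points are at distance at
most `2 r + 2 b` (`enorm_le_of_mem_Kset`, `rg ≤ b` on `G`), all starting points of the chain are in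
`boxE k R L` (`closedBall_subset_boxE` with radius `L`), their cubes are in `win k R L` (`mem_boxE_iff`), and
consecutive indices are adjacent for `adjI (M.J (win k R L) ω)`. So the end of the chain belongs to the
cluster of `i` in the window. `BadG n` satisfies the hypothesis `hBad` of `ends_of_clean` with
`v₁ = Fin.last n` by `acyc_prefix`. Hence if `i` is clean and `x ≤ Zr i` then the cluster `C` has
`x ≤ C.card`, so `A ≤ C.card`; also `i` is in the block (`Zr i ≠ 0`). Therefore the set of these `i` is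
contained in `M.bg ..`.
-/

open MeasureTheory ProbabilityTheory Filter Topology
open scoped ENNReal NNReal

namespace WSP

variable {d : ℕ} {Ω : Type*} [MeasurableSpace Ω] {P : Measure Ω} {μ : Measure (Path d)}

theorem bigloc_norm {r : ℝ} (hr : 0 < r) {t : ℝ≥0} {G : Set (Path d)} {b : ℝ≥0}
    (hG : ∀ w ∈ G, rg t w ≤ b) {y y' : Mark d} (h : relG (2 * r) t G y y') :
    ‖y'.1 - y.1‖ ≤ 2 * r + 2 * b := by
  obtain ⟨h1, h2, h3⟩ := h
  have h2r : (0 : ℝ) ≤ 2 * r := by positivity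
  obtain ⟨ρ, hρ⟩ : ∃ ρ : ℝ≥0, (ρ : ℝ) = 2 * r := ⟨⟨2 * r, h2r⟩, rfl⟩
  have h4 : y'.1 - y.1 ∈ Kset (2 * r) t t y.2 y'.2 := h3
  rw [← hρ] at h4
  have h5 := enorm_le_of_mem_Kset h4
  have h6 : ‖y'.1 - y.1‖ₑ ≤ ((ρ + b + b : ℝ≥0) : ℝ≥0∞) := by
    rw [ENNReal.coe_add, ENNReal.coe_add]
    exact h5.trans (add_le_add (add_le_add le_rfl (hG _ h1)) (hG _ h2))
  rw [enorm_eq_nnnorm, ENNReal.coe_le_coe, ← NNReal.coe_le_coe, coe_nnnorm] at h6
  push_cast at h6
  linarith

omit [MeasurableSpace Ω] in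
theorem bigloc_adm {I Y : Type*} {pres : I → Set Ω} {y : I → Ω → Y} {V : Type*} {A : Set (V → Y)}
    {ω : Ω} {a : V ↪ I} (h : adm pres y A ω a ≠ 0) :
    (∀ v, ω ∈ pres (a v)) ∧ (fun v => y (a v) ω) ∈ A := by
  by_contra hc
  exact h (if_neg hc)

/-- properties of an admissible chain -/
theorem bigloc_chain (M : PM d P μ) {ω : Ω} (hω : ∀ i, (M.y i ω).1 ∈ cube i.1) {r : ℝ}
    (hr : 0 < r) {t : ℝ≥0} {G : Set (Path d)} {b : ℝ≥0} (hG : ∀ w ∈ G, rg t w ≤ b) {n R L : ℕ}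
    (hL : (n : ℝ) * (2 * r + 2 * b) ≤ L) (k : Fin d → ℤ) {a : Fin (n + 1) ↪ Idx d}
    (ha : adm M.pres M.y (chainG (2 * r) t G (boxE k R 0) n) ω a ≠ 0) :
    (a 0).1 ∈ win k R 0 ∧ ∀ v : Fin (n + 1), a v ∈ M.J (win k R L) ω ∧
      Relation.ReflTransGen (adjI (M.J (win k R L) ω : Set (Idx d)) (fun i => M.y i ω) r t)
        (a 0) (a v) := by
  obtain ⟨hp, h0, hG0, hrel⟩ := bigloc_adm ha
  simp only at h0 hG0 hrel
  have hb : (0 : ℝ) ≤ 2 * r + 2 * b := by positivity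
  have hdist : ∀ v : Fin (n + 1), dist (M.y (a v) ω).1 (M.y (a 0) ω).1 ≤
      (v : ℝ) * (2 * r + 2 * b) := by
    intro v
    induction v using Fin.induction with
    | zero => simp
    | succ i ih =>
      have h1 := bigloc_norm hr hG (hrel i)
      rw [← dist_eq_norm] at h1
      have h2 := dist_triangle (M.y (a i.succ) ω).1 (M.y (a i.castSucc) ω).1 (M.y (a 0) ω).1
      have h3 : (((i.succ : Fin (n + 1)) : ℕ) : ℝ) = (((i.castSucc : Fin (n + 1)) : ℕ) : ℝ) + 1 := by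
        simp
      rw [h3]
      linarith
  have hJ : ∀ v : Fin (n + 1), a v ∈ M.J (win k R L) ω := by
    intro v
    rw [PM.mem_J]
    refine ⟨?_, hp v⟩
    rw [← mem_boxE_iff (hω (a v))]
    have h1 : (M.y (a v) ω).1 ∈ Metric.closedBall (M.y (a 0) ω).1 (L : ℝ) := by
      rw [Metric.mem_closedBall]
      refine (hdist v).trans (le_trans ?_ hL)
      refine mul_le_mul_of_nonneg_right ?_ hb
      have := v.2
      have hvn : (v : ℕ) ≤ n := by omega
      exact_mod_cast hvn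
    have h2 := closedBall_subset_boxE h0 L h1
    rwa [zero_add] at h2
  refine ⟨(mem_boxE_iff (hω (a 0))).1 h0, fun v => ⟨hJ v, ?_⟩⟩
  induction v using Fin.induction with
  | zero => exact Relation.ReflTransGen.refl
  | succ i ih => exact ih.tail ⟨hJ i.castSucc, hJ i.succ, (hrel i).2.2⟩

theorem bigloc_bad {n : ℕ} (s : Gluing (Fin (n + 1)) (Fin (n + 1)))
    (h0 : s.1 (Sum.inl 0) (Sum.inr 0)) (h1 : s.1 (Sum.inl (Fin.last n)) (Sum.inr (Fin.last n)))
    (hs : s ∉ BadG n) (v : Fin (n + 1)) : s.1 (Sum.inl v) (Sum.inr v) := by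
  have hac : (glueGraph (PG n) (PG n) s).IsAcyclic := by
    by_contra hc
    exact hs ⟨h0, hc⟩
  exact (acyc_prefix h0 hac h1).2 v (Fin.le_last v)

open Classical in
theorem card_bg_ge (M : PM d P μ) {ω : Ω} (hω : ∀ i, (M.y i ω).1 ∈ cube i.1) {r : ℝ} (hr : 0 < r)
    {t : ℝ≥0} {G : Set (Path d)} {b : ℝ≥0} (hG : ∀ w ∈ G, rg t w ≤ b) {n R L A : ℕ}
    (hL : (n : ℝ) * (2 * r + 2 * b) ≤ L) (k : Fin d → ℤ) {x : ℝ≥0∞} (hx : x ≠ 0)
    (hxA : ∀ N' : ℕ, x ≤ N' → A ≤ N') :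
    ∑' i : Idx d, (if Clean M.pres M.y 0 (chainG (2 * r) t G (boxE k R 0) n) (BadG n) ω i ∧
        x ≤ Zr M.pres M.y 0 (chainG (2 * r) t G (boxE k R 0) n) ω i then (1 : ℝ≥0∞) else 0) ≤
      (M.bg r t A R L k ω).card := by
  have key : ∀ i : Idx d, (Clean M.pres M.y 0 (chainG (2 * r) t G (boxE k R 0) n) (BadG n) ω i ∧
      x ≤ Zr M.pres M.y 0 (chainG (2 * r) t G (boxE k R 0) n) ω i) →
      i ∈ M.bg r t A R L k ω := by
    rintro i ⟨hcl, hxi⟩
    have hne : Zr M.pres M.y 0 (chainG (2 * r) t G (boxE k R 0) n) ω i ≠ 0 :=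
      fun h => hx (le_antisymm (h ▸ hxi) bot_le)
    have hex : ∃ a : Fin (n + 1) ↪ Idx d, a 0 = i ∧
        adm M.pres M.y (chainG (2 * r) t G (boxE k R 0) n) ω a ≠ 0 := by
      by_contra hc
      push Not at hc
      refine hne (ENNReal.tsum_eq_zero.2 fun a => ?_)
      split_ifs with h
      · exact hc a h
      · rfl
    obtain ⟨a, rfl, ha⟩ := hex
    obtain ⟨h1, h2⟩ := bigloc_chain M hω hr hG hL k ha
    have h3 : Zr M.pres M.y 0 (chainG (2 * r) t G (boxE k R 0) n) ω (a 0) ≤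
        (((M.J (win k R L) ω).filter fun j => Relation.ReflTransGen
          (adjI (M.J (win k R L) ω : Set (Idx d)) (fun i => M.y i ω) r t) (a 0) j).card : ℕ) := by
      refine ends_of_clean M.pres M.y 0 (Fin.last n) (Bad := BadG n) bigloc_bad hcl ?_
      intro a' ha' hadm
      obtain ⟨-, h4⟩ := bigloc_chain M hω hr hG hL k hadm
      obtain ⟨h5, h6⟩ := h4 (Fin.last n)
      rw [ha'] at h6
      exact Finset.mem_filter.2 ⟨h5, h6⟩
    exact Finset.mem_filter.2 ⟨(h2 0).1, h1, hxA _ (hxi.trans h3)⟩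
  calc ∑' i : Idx d, (if Clean M.pres M.y 0 (chainG (2 * r) t G (boxE k R 0) n) (BadG n) ω i ∧
        x ≤ Zr M.pres M.y 0 (chainG (2 * r) t G (boxE k R 0) n) ω i then (1 : ℝ≥0∞) else 0)
      ≤ ∑' i : Idx d, (if i ∈ M.bg r t A R L k ω then (1 : ℝ≥0∞) else 0) := by
        refine ENNReal.tsum_le_tsum fun i => ?_
        split_ifs with h4 h5 h5
        · exact le_rfl
        · exact absurd (key i h4) h5
        · exact bot_le
        · exact le_rfl
    _ = ∑ i ∈ M.bg r t A R L k ω, (if i ∈ M.bg r t A R L k ω then (1 : ℝ≥0∞) else 0) :=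
        tsum_eq_sum fun i hi => if_neg hi
    _ = ∑ i ∈ M.bg r t A R L k ω, (1 : ℝ≥0∞) :=
        Finset.sum_congr rfl fun i hi => if_pos hi
    _ = (M.bg r t A R L k ω).card := by
        rw [Finset.sum_const, nsmul_eq_mul, mul_one]

end WSP
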