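import Pool.Agent.Lib_MP_c175fd.CountA

/-!
# Piece COUNTB (see `CountA.lean`)
-/

open MeasureTheory ProbabilityTheory Filter Topology
open scoped ENNReal NNReal

namespace WSP

variable {d : ℕ} {Ω : Type*} [MeasurableSpace Ω] {P : Measure Ω} {μ : Measure (Path d)}

/-- the real inequality -/
theorem ctb_geom {x : ℝ} (hx : 1 < x) (n : ℕ) :
    ∑ k ∈ Finset.range (n + 1), x ^ (2 * n - k) ≤ x ^ (2 * n) * (x / (x - 1)) := by
  have hx1 : 0 < x - 1 := by linarith
  have key : ∀ j : ℕ, j ≤ 2 * n → (x - 1) * ∑ k ∈ Finset.range (j + 1), x ^ (2 * n - k) =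
      x ^ (2 * n + 1) - x ^ (2 * n - j) := by
    intro j
    induction j with
    | zero =>
      intro _
      rw [zero_add, Finset.sum_range_one, Nat.sub_zero, pow_succ]
      ring
    | succ j ih =>
      intro hj
      rw [Finset.sum_range_succ, mul_add, ih (by omega)]
      have e : 2 * n - j = (2 * n - (j + 1)) + 1 := by omega
      rw [e, pow_succ x (2 * n - (j + 1))]
      ring
  have h := key n (by omega)
  have hpos : 0 ≤ x ^ (2 * n - n) := by positivity
  rw [← mul_div_assoc, le_div_iff₀ hx1, mul_comm, h, ← pow_succ]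
  linarith

theorem ctb_real {m₀ : ℝ} (hm : 1 < m₀) {n : ℕ} (hn : 1 ≤ n) :
    ∑ k ∈ Finset.range (n + 1), ((1 + 1 / (100 * n)) * m₀) ^ (2 * n - k) ≤
      103 / 100 * (m₀ ^ (2 * n) * (m₀ / (m₀ - 1))) := by
  have hn' : (1 : ℝ) ≤ n := by exact_mod_cast hn
  set δ : ℝ := 1 / (100 * n) with hδ
  have hδ0 : 0 < δ := by positivity
  have hδ1 : δ ≤ 1 / 100 := by
    rw [hδ]
    apply one_div_le_one_div_of_le (by norm_num)
    linarith
  set x := (1 + δ) * m₀ with hx
  have hxm : m₀ ≤ x := by rw [hx]; nlinarith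
  have hx1 : 1 < x := by linarith
  refine (ctb_geom hx1 n).trans ?_
  have h1 : x / (x - 1) ≤ m₀ / (m₀ - 1) := by
    rw [div_le_div_iff₀ (by linarith) (by linarith)]
    nlinarith
  have h2 : (1 + δ) ^ (2 * n) ≤ 103 / 100 := by
    have h3 : 1 + ((2 * n : ℕ) : ℝ) * (-δ) ≤ (1 + -δ) ^ (2 * n) :=
      one_add_mul_le_pow (by linarith) _
    have h4 : ((2 * n : ℕ) : ℝ) * δ = 2 / 100 := by
      rw [hδ]; push_cast; field_simp
    have h5 : (98 : ℝ) / 100 ≤ (1 + -δ) ^ (2 * n) := by linarith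
    have h6 : (1 + δ) ^ (2 * n) * (1 + -δ) ^ (2 * n) ≤ 1 := by
      rw [← mul_pow]
      apply pow_le_one₀
      · nlinarith
      · nlinarith
    have h7 : 0 < (1 + δ) ^ (2 * n) := by positivity
    nlinarith
  have h8 : 0 ≤ m₀ / (m₀ - 1) := div_nonneg (by linarith) (by linarith)
  calc x ^ (2 * n) * (x / (x - 1)) ≤ x ^ (2 * n) * (m₀ / (m₀ - 1)) := by
        apply mul_le_mul_of_nonneg_left h1; positivity
    _ = (1 + δ) ^ (2 * n) * (m₀ ^ (2 * n) * (m₀ / (m₀ - 1))) := by rw [hx, mul_pow]; ring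
    _ ≤ 103 / 100 * (m₀ ^ (2 * n) * (m₀ / (m₀ - 1))) := by
        apply mul_le_mul_of_nonneg_right h2
        positivity

open Classical in
theorem pairs_upper (hd : 4 ≤ d) (M : PM d P μ) [IsProbabilityMeasure P] (h : IsWiener μ)
    {κ : ℝ} (hA : AnFacts d μ κ) {c : ℝ} (hc : 0 < c) (hm : 1 < κ * c ^ 2) {n : ℕ} (hn : 1 ≤ n)
    {η : ℝ≥0∞} (hη : 0 < η) :
    ∀ᶠ r in 𝓝[>] (0 : ℝ), ∀ G : Set (Path d),
      GoodG μ (2 * r) (tt d c r) (κ * c ^ 2) (1 / (100 * n)) G → ∀ k : Fin d → ℤ,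
      P {ω | ENNReal.ofReal (2 * (κ * c ^ 2) ^ (2 * n) * (κ * c ^ 2 / (κ * c ^ 2 - 1))) *
          (RR d r : ℝ≥0∞) ^ d <
        ∑' s : Gluing (Fin (n + 1)) (Fin (n + 1)),
          (if s.1 (Sum.inl 0) (Sum.inr 0) ∧ s ∉ BadG n then
            cnt M.pres M.y (glueSet s (chainG (2 * r) (tt d c r) G (boxE k (RR d r) 0) n)
              (chainG (2 * r) (tt d c r) G (boxE k (RR d r) 0) n)) ω else 0)} ≤ η := by
  have := h.isProb
  have hfin : Fintype (Gluing (Fin (n + 1)) (Fin (n + 1))) := Fintype.ofFinite _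
  set m₀ := κ * c ^ 2 with hm₀
  set δ : ℝ := 1 / (100 * n) with hδ
  have hn' : (1 : ℝ) ≤ n := by exact_mod_cast hn
  have hδ0 : 0 < δ := by positivity
  have hm0 : 0 < m₀ := by linarith
  set m : ℝ≥0∞ := ENNReal.ofReal ((1 + δ) * m₀) with hmdef
  have hmt : m ≠ ∞ := ENNReal.ofReal_ne_top
  set g : ℕ := Fintype.card (Gluing (Fin (n + 1)) (Fin (n + 1))) with hg
  set K : Gluing (Fin (n + 1)) (Fin (n + 1)) → ℝ≥0∞ := fun s =>
    (Nat.card (Gluing (Quotient s.1) (Quotient s.1)) : ℝ≥0∞) *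
    (1 + m) ^ (2 * Fintype.card (Quotient s.1)) with hK
  have hKt : ∀ s, K s ≠ ∞ := fun s => ENNReal.mul_ne_top (ENNReal.natCast_ne_top _)
    (ENNReal.pow_ne_top (ENNReal.add_ne_top.2 ⟨ENNReal.one_ne_top, hmt⟩))
  have hKs : ∑ s, K s ≠ ∞ := ENNReal.sum_ne_top.2 fun s _ => hKt s
  have hg1 : (0 : ℝ) < (g : ℝ) + 1 := by positivity
  set θ : ℝ≥0∞ := ENNReal.ofReal (97 / 100 / (g + 1)) with hθ
  have hθ0 : θ ≠ 0 := by
    rw [hθ, Ne, ENNReal.ofReal_eq_zero, not_le]
    positivity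
  filter_upwards [cta_small hd hKs hθ0 hη, RR_pos hd] with r hr hr0 G hG k
  set R := RR d r with hR
  set Q := boxE k R 0 with hQ
  set A := chainG (2 * r) (tt d c r) G Q n with hAdef
  have hQm : MeasurableSet Q := measurableSet_boxE k R 0
  have hQv : volume Q = (R : ℝ≥0∞) ^ d := cta_vol k R
  set q : ℝ≥0∞ := (R : ℝ≥0∞) ^ d with hq
  have hq0 : q ≠ 0 := pow_ne_zero _ (by exact_mod_cast hr0.ne')
  have hqt : q ≠ ∞ := ENNReal.pow_ne_top (ENNReal.natCast_ne_top _)
  have hAm : MeasurableSet A := measurableSet_chainG (2 * r) (tt d c r) hG.meas hQm n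
  have hAsub := chainG_subset (2 * r) (tt d c r) G Q n
  -- the mean and the variance for one gluing
  have hpat : ∀ s : Gluing (Fin (n + 1)) (Fin (n + 1)), s.1 (Sum.inl 0) (Sum.inr 0) →
      P {ω | Measure.pi (fun _ : Quotient s.1 => nuM μ) (glueSet s A A) + θ * q ≤
        cnt M.pres M.y (glueSet s A A) ω} ≤ K s / (θ ^ 2 * q) ∧
      Measure.pi (fun _ : Quotient s.1 => nuM μ) (glueSet s A A) ≤
        q * m ^ (Fintype.card (Quotient s.1) - 1) := by
    intro s hs
    have hsub : glueSet s A A ⊆ {z | z (glL s 0) ∈ {y : Mark d | y.1 ∈ Q} ∧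
        Sat (glueGraph (PG n) (PG n) s) (relG (2 * r) (tt d c r) G) z} :=
      glueSet_subset hAsub (fun z hz => (hAsub hz).2) s
    obtain ⟨h1, h2, h3, h4, h5⟩ := cta_pattern M
      (measurableSet_relG (2 * r) (tt d c r) hG.meas)
      (fun a b => relG_symm) (nuM_relG_le hG.meas hG.upper) hmt
      (glueGraph_connected (SimpleGraph.pathGraph_connected n)
        (SimpleGraph.pathGraph_connected n) s hs) (glL s 0) hQm (by rw [hQv]; exact hqt)
      (measurableSet_glueSet s hAm hAm) hsub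
    rw [hQv] at h3 h5
    exact ⟨cta_up h1 h2 h4 h5 hq0 hqt hθ0 le_rfl, h3⟩
  -- the union bound
  set C : Gluing (Fin (n + 1)) (Fin (n + 1)) → Prop := fun s =>
    s.1 (Sum.inl 0) (Sum.inr 0) ∧ s ∉ BadG n with hC
  have hsum : ∑ s : Gluing (Fin (n + 1)) (Fin (n + 1)), (if C s then
      Measure.pi (fun _ : Quotient s.1 => nuM μ) (glueSet s A A) + θ * q else 0) ≤
      ENNReal.ofReal (2 * m₀ ^ (2 * n) * (m₀ / (m₀ - 1))) * q := by
    have h1 : ∀ s : Gluing (Fin (n + 1)) (Fin (n + 1)), (if C s then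
      Measure.pi (fun _ : Quotient s.1 => nuM μ) (glueSet s A A) + θ * q else 0) ≤
        q * (if s.1 (Sum.inl 0) (Sum.inr 0) ∧ (glueGraph (PG n) (PG n) s).IsAcyclic then
          m ^ (Fintype.card (Quotient s.1) - 1) else 0) + θ * q := by
      intro s
      by_cases hs : C s
      · rw [if_pos hs]
        have hac : s.1 (Sum.inl 0) (Sum.inr 0) ∧ (glueGraph (PG n) (PG n) s).IsAcyclic := by
          refine ⟨hs.1, ?_⟩
          by_contra hno
          exact hs.2 ⟨hs.1, hno⟩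
        rw [if_pos hac]
        exact add_le_add (hpat s hs.1).2 le_rfl
      · rw [if_neg hs]
        exact zero_le
    calc ∑ s : Gluing (Fin (n + 1)) (Fin (n + 1)), (if C s then
          Measure.pi (fun _ : Quotient s.1 => nuM μ) (glueSet s A A) + θ * q else 0)
        ≤ ∑ s : Gluing (Fin (n + 1)) (Fin (n + 1)),
          (q * (if s.1 (Sum.inl 0) (Sum.inr 0) ∧ (glueGraph (PG n) (PG n) s).IsAcyclic then
          m ^ (Fintype.card (Quotient s.1) - 1) else 0) + θ * q) :=
          Finset.sum_le_sum fun s _ => h1 s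
      _ = q * ∑' s : Gluing (Fin (n + 1)) (Fin (n + 1)),
          (if s.1 (Sum.inl 0) (Sum.inr 0) ∧ (glueGraph (PG n) (PG n) s).IsAcyclic then
          m ^ (Fintype.card (Quotient s.1) - 1) else 0) + g * (θ * q) := by
          rw [Finset.sum_add_distrib, ← Finset.mul_sum, tsum_fintype, Finset.sum_const,
            Finset.card_univ, nsmul_eq_mul]
      _ ≤ q * ∑ k ∈ Finset.range (n + 1), m ^ (2 * n - k) + g * (θ * q) :=
          add_le_add (mul_le_mul' le_rfl (acyc_sum n m)) le_rfl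
      _ = (ENNReal.ofReal (∑ k ∈ Finset.range (n + 1), ((1 + δ) * m₀) ^ (2 * n - k)) +
            ENNReal.ofReal (g * (97 / 100 / (g + 1)))) * q := by
          rw [ENNReal.ofReal_sum_of_nonneg (fun k _ => by positivity), hθ,
            ENNReal.ofReal_mul (Nat.cast_nonneg g), ENNReal.ofReal_natCast]
          have h2 : ∀ k, ENNReal.ofReal (((1 + δ) * m₀) ^ (2 * n - k)) = m ^ (2 * n - k) :=
            fun k => ENNReal.ofReal_pow (by positivity) _
          simp_rw [h2]
          ring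
      _ ≤ ENNReal.ofReal (2 * m₀ ^ (2 * n) * (m₀ / (m₀ - 1))) * q := by
          refine mul_le_mul' ?_ le_rfl
          rw [← ENNReal.ofReal_add (Finset.sum_nonneg fun k _ => by positivity) (by positivity)]
          apply ENNReal.ofReal_le_ofReal
          have h3 := ctb_real hm hn
          have h4 : (g : ℝ) * (97 / 100 / (g + 1)) ≤ 97 / 100 := by
            rw [← mul_div_assoc, div_le_iff₀ hg1]
            linarith
          have h5 : 1 ≤ m₀ ^ (2 * n) * (m₀ / (m₀ - 1)) := by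
            have h6 : 1 ≤ m₀ ^ (2 * n) := one_le_pow₀ hm.le
            have h7 : 1 ≤ m₀ / (m₀ - 1) := by
              rw [le_div_iff₀ (by linarith)]; linarith
            nlinarith
          rw [← hδ] at h3
          calc _ ≤ 103 / 100 * (m₀ ^ (2 * n) * (m₀ / (m₀ - 1))) + 97 / 100 := add_le_add h3 h4
            _ ≤ 103 / 100 * (m₀ ^ (2 * n) * (m₀ / (m₀ - 1))) +
                97 / 100 * (m₀ ^ (2 * n) * (m₀ / (m₀ - 1))) := by linarith
            _ = 2 * m₀ ^ (2 * n) * (m₀ / (m₀ - 1)) := by ring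
  have hsubset : {ω | ENNReal.ofReal (2 * m₀ ^ (2 * n) * (m₀ / (m₀ - 1))) * q <
      ∑' s : Gluing (Fin (n + 1)) (Fin (n + 1)), (if C s then
        cnt M.pres M.y (glueSet s A A) ω else 0)} ⊆
      ⋃ s : Gluing (Fin (n + 1)) (Fin (n + 1)), {ω | C s ∧
        Measure.pi (fun _ : Quotient s.1 => nuM μ) (glueSet s A A) + θ * q ≤
        cnt M.pres M.y (glueSet s A A) ω} := by
    intro ω hω
    by_contra hno
    have hno' : ∀ s : Gluing (Fin (n + 1)) (Fin (n + 1)), C s →
        cnt M.pres M.y (glueSet s A A) ω <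
        Measure.pi (fun _ : Quotient s.1 => nuM μ) (glueSet s A A) + θ * q := by
      intro s hs
      by_contra hge
      exact hno (Set.mem_iUnion.2 ⟨s, hs, not_lt.1 hge⟩)
    have h1 : ∑' s : Gluing (Fin (n + 1)) (Fin (n + 1)), (if C s then
        cnt M.pres M.y (glueSet s A A) ω else 0) ≤
        ENNReal.ofReal (2 * m₀ ^ (2 * n) * (m₀ / (m₀ - 1))) * q := by
      refine le_trans ?_ hsum
      rw [tsum_fintype]
      refine Finset.sum_le_sum fun s _ => ?_
      by_cases hs : C s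
      · rw [if_pos hs, if_pos hs]
        exact (hno' s hs).le
      · rw [if_neg hs, if_neg hs]
    exact absurd hω (not_lt.2 h1)
  calc P {ω | ENNReal.ofReal (2 * m₀ ^ (2 * n) * (m₀ / (m₀ - 1))) * q <
      ∑' s : Gluing (Fin (n + 1)) (Fin (n + 1)), (if C s then
        cnt M.pres M.y (glueSet s A A) ω else 0)}
      ≤ P (⋃ s : Gluing (Fin (n + 1)) (Fin (n + 1)), {ω | C s ∧
        Measure.pi (fun _ : Quotient s.1 => nuM μ) (glueSet s A A) + θ * q ≤
        cnt M.pres M.y (glueSet s A A) ω}) := measure_mono hsubset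
    _ ≤ ∑ s : Gluing (Fin (n + 1)) (Fin (n + 1)), P {ω | C s ∧
        Measure.pi (fun _ : Quotient s.1 => nuM μ) (glueSet s A A) + θ * q ≤
        cnt M.pres M.y (glueSet s A A) ω} := measure_iUnion_fintype_le P _
    _ ≤ ∑ s : Gluing (Fin (n + 1)) (Fin (n + 1)), K s / (θ ^ 2 * q) := by
        refine Finset.sum_le_sum fun s _ => ?_
        by_cases hs : C s
        · refine le_trans (measure_mono fun ω hω => ?_) (hpat s hs.1).1
          exact hω.2
        · have : {ω | C s ∧ Measure.pi (fun _ : Quotient s.1 => nuM μ) (glueSet s A A) + θ * q ≤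
              cnt M.pres M.y (glueSet s A A) ω} = ∅ := by
            ext ω
            simp [hs]
          rw [this, measure_empty]
          exact zero_le
    _ = (∑ s, K s) / (θ ^ 2 * q) := by
        simp_rw [div_eq_mul_inv]
        rw [Finset.sum_mul]
    _ ≤ η := hr _ le_rfl

end WSP
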