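import Pool.Agent.Lib_MP_c175fd.CountA

/-!
# Piece COUNTC (see `CountA.lean`)
-/

open MeasureTheory ProbabilityTheory Filter Topology
open scoped ENNReal NNReal

namespace WSP

variable {d : ℕ} {Ω : Type*} [MeasurableSpace Ω] {P : Measure Ω} {μ : Measure (Path d)}

/-- Markov's inequality with a product threshold -/
theorem countc_markov {X : Ω → ℝ≥0∞} (hX : Measurable X) {a b η : ℝ≥0∞} (ha : 0 < a)
    (hb0 : b ≠ 0) (hbt : b ≠ ∞) (h : ∫⁻ ω, X ω ∂P ≤ η * a * b) : P {ω | a * b < X ω} ≤ η := by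
  rcases eq_or_ne a ∞ with rfl | hat
  · have h0 : {ω | ∞ * b < X ω} = (∅ : Set Ω) := by
      ext ω
      rw [Set.mem_ofPred_eq, ENNReal.top_mul hb0]
      exact ⟨fun h => absurd h not_top_lt, fun h => h.elim⟩
    rw [h0, measure_empty]
    exact zero_le
  · have hab0 : a * b ≠ 0 := mul_ne_zero ha.ne' hb0
    have habt : a * b ≠ ∞ := ENNReal.mul_ne_top hat hbt
    have h1 : (a * b) * P {ω | a * b < X ω} ≤ (a * b) * η := by
      calc (a * b) * P {ω | a * b < X ω} ≤ (a * b) * P {ω | a * b ≤ X ω} := by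
            refine mul_le_mul_right (measure_mono ?_) _
            intro ω hω
            have hω' : a * b < X ω := hω
            exact hω'.le
        _ ≤ ∫⁻ ω, X ω ∂P := mul_meas_ge_le_lintegral hX _
        _ ≤ η * a * b := h
        _ = (a * b) * η := by ring
    exact (ENNReal.mul_le_mul_iff_right hab0 habt).mp h1

open Classical in
theorem bad_upper (hd : 4 ≤ d) (M : PM d P μ) [IsProbabilityMeasure P] (h : IsWiener μ)
    {κ : ℝ} (hA : AnFacts d μ κ) {c : ℝ} (hc : 0 < c) {n : ℕ} (hn : 1 ≤ n)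
    {η ρ' : ℝ≥0∞} (hη : 0 < η) (hρ' : 0 < ρ') :
    ∀ᶠ r in 𝓝[>] (0 : ℝ), ∀ G : Set (Path d),
      GoodG μ (2 * r) (tt d c r) (κ * c ^ 2) (1 / (100 * n)) G → ∀ k : Fin d → ℤ,
      P {ω | ρ' * (RR d r : ℝ≥0∞) ^ d <
        ∑' s : Gluing (Fin (n + 1)) (Fin (n + 1)),
          (if s ∈ BadG n then
            cnt M.pres M.y (glueSet s (chainG (2 * r) (tt d c r) G (boxE k (RR d r) 0) n)
              (chainG (2 * r) (tt d c r) G (boxE k (RR d r) 0) n)) ω else 0)} ≤ η := by
  have hprob := h.isProb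
  have hcount : Countable (Idx d) := inferInstance
  have hfin : Finite (Gluing (Fin (n + 1)) (Fin (n + 1))) := inferInstance
  have hft : Fintype (Gluing (Fin (n + 1)) (Fin (n + 1))) := Fintype.ofFinite _
  set K : ℝ≥0∞ := (Fintype.card (Gluing (Fin (n + 1)) (Fin (n + 1))) : ℝ≥0∞) with hK
  have hKt : K + 1 ≠ ∞ := ENNReal.add_ne_top.mpr ⟨ENNReal.natCast_ne_top _, ENNReal.one_ne_top⟩
  have hε : 0 < η * ρ' / (K + 1) := ENNReal.div_pos (mul_ne_zero hη.ne' hρ'.ne') hKt
  have hcyc := cycpat hd h hA hc n (M := ENNReal.ofReal ((1 + 1 / (100 * n)) * (κ * c ^ 2)))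
    ENNReal.ofReal_ne_top hε
  filter_upwards [hcyc, RR_pos hd] with r hr hR G hG k
  have hQv : volume (boxE k (RR d r) 0) = (RR d r : ℝ≥0∞) ^ d := by
    rw [volume_boxE, Nat.mul_zero, Nat.add_zero]
  have hR0 : (RR d r : ℝ≥0∞) ^ d ≠ 0 := pow_ne_zero _ (by exact_mod_cast hR.ne')
  have hRt : (RR d r : ℝ≥0∞) ^ d ≠ ∞ := ENNReal.pow_ne_top (ENNReal.natCast_ne_top _)
  have hQm : MeasurableSet (boxE k (RR d r) 0) := measurableSet_boxE _ _ _
  have hbd := hr G hG.meas hG.upper (boxE k (RR d r) 0) hQm (by rw [hQv]; exact hR0)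
    (by rw [hQv]; exact hRt)
  rw [hQv] at hbd
  have hCm := measurableSet_chainG (d := d) (2 * r) (tt d c r) hG.meas hQm n
  have hgm : ∀ s : Gluing (Fin (n + 1)) (Fin (n + 1)), MeasurableSet
      (glueSet s (chainG (2 * r) (tt d c r) G (boxE k (RR d r) 0) n)
        (chainG (2 * r) (tt d c r) G (boxE k (RR d r) 0) n)) := fun s =>
    measurableSet_glueSet s hCm hCm
  have hm : ∀ s : Gluing (Fin (n + 1)) (Fin (n + 1)), Measurable (fun ω =>
      if s ∈ BadG n then
        cnt M.pres M.y (glueSet s (chainG (2 * r) (tt d c r) G (boxE k (RR d r) 0) n)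
          (chainG (2 * r) (tt d c r) G (boxE k (RR d r) 0) n)) ω else 0) := by
    intro s
    by_cases hs : s ∈ BadG n
    · simp only [if_pos hs]
      exact measurable_cnt M.measurableSet_pres M.measy (hgm s)
    · simp only [if_neg hs]
      exact measurable_const
  refine countc_markov (Measurable.ennreal_tsum hm) hρ' hR0 hRt ?_
  rw [lintegral_tsum (fun s => (hm s).aemeasurable), tsum_fintype]
  have hterm : ∀ s ∈ (Finset.univ : Finset (Gluing (Fin (n + 1)) (Fin (n + 1)))),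
      ∫⁻ ω, (if s ∈ BadG n then
        cnt M.pres M.y (glueSet s (chainG (2 * r) (tt d c r) G (boxE k (RR d r) 0) n)
          (chainG (2 * r) (tt d c r) G (boxE k (RR d r) 0) n)) ω else 0) ∂P ≤
      η * ρ' / (K + 1) * (RR d r : ℝ≥0∞) ^ d := by
    intro s _
    by_cases hs : s ∈ BadG n
    · simp only [if_pos hs]
      rw [M.mecke (Quotient s.1) _ (hgm s)]
      exact hbd s hs
    · simp only [if_neg hs]
      rw [lintegral_zero]
      exact zero_le
  refine (Finset.sum_le_card_nsmul _ _ _ hterm).trans ?_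
  rw [nsmul_eq_mul, Finset.card_univ, ← hK, ← mul_assoc]
  refine mul_le_mul_left ?_ _
  calc K * (η * ρ' / (K + 1)) ≤ (K + 1) * (η * ρ' / (K + 1)) := by
        refine mul_le_mul_left ?_ _
        exact le_self_add
    _ ≤ η * ρ' := ENNReal.mul_div_le

end WSP
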