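import Pool.Agent.Lib_MP_c175fd.AnFacts
import Pool.Agent.Lib_MP_c175fd.ScaleFF

/-!
# Piece GOODSET: a set of good paths with almost constant mean degree

Let `t = tt d c r`, `m₀ = κ c ^ 2`, `u w = ∫ w', Vol t t w w'`, `u₂ w = ∫ w', (Vol t t w w') ^ 2`. Then
`∫ u = EV → m₀`, `∫ u₂ = EV2 → m₀ ^ 2`, `u ^ 2 ≤ u₂`, and `∫ u ^ 2 ≥ (∫ u) ^ 2`. So `∫ (u - m₀) ^ 2 → 0` and
`∫ |u₂ - m₀ ^ 2| ≤ ∫ (u₂ - u ^ 2) + ∫ |u ^ 2 - m₀ ^ 2| → 0`. Let
`G = {|u - m₀| ≤ (δ/4) m₀} ∩ {u₂ ≤ 2 m₀ ^ 2} ∩ {rg t w ≤ a R}` with `a = C₀ / δ`. By Chebyshev/Markov and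
`IsWiener.rg_tail` (with `p = 4`: `μ {rg t w > a R} ≤ C / a ^ 4` up to constants depending on `c`, since
`√t = √c √f ≤ √c R`), `μ Gᶜ ≤ min δ (δ ^ 2 / 32)` for `C₀` large (depending on `c`, `κ` only) and small `r`.
For `w ∈ G`: `∫ w' in G, Vol ≤ u w ≤ (1 + δ) m₀`, and
`∫ w' in Gᶜ, Vol ≤ (u₂ w) ^ (1/2) (μ Gᶜ) ^ (1/2) ≤ (2 m₀ ^ 2 δ ^ 2 / 32) ^ (1/2) = δ m₀ / 4`, so
`∫ w' in G, Vol ≥ (1 - δ/4) m₀ - δ m₀ / 4 ≥ (1 - δ) m₀`.
-/

open MeasureTheory ProbabilityTheory Filter Topology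
open scoped ENNReal NNReal

namespace WSP

variable {d : ℕ}

theorem gs_two_mul_le (a b : ℝ≥0∞) : 2 * (a * b) ≤ a ^ 2 + b ^ 2 := by
  rcases le_total a b with h | h
  · obtain ⟨c, rfl⟩ := exists_add_of_le h
    have : a ^ 2 + (a + c) ^ 2 = 2 * (a * (a + c)) + c ^ 2 := by ring
    rw [this]
    exact le_self_add
  · obtain ⟨c, rfl⟩ := exists_add_of_le h
    have : (b + c) ^ 2 + b ^ 2 = 2 * ((b + c) * b) + c ^ 2 := by ring
    rw [this]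
    exact le_self_add

/-- Quantitative version: if `a` and `b` differ by at least `e`. -/
theorem gs_two_mul_add_le {a b e : ℝ≥0∞} (h : a + e ≤ b ∨ b + e ≤ a) :
    2 * (a * b) + e ^ 2 ≤ a ^ 2 + b ^ 2 := by
  rcases h with h | h
  · obtain ⟨c, rfl⟩ := exists_add_of_le h
    have : a ^ 2 + (a + e + c) ^ 2 = 2 * (a * (a + e + c)) + e ^ 2 + (2 * e * c + c ^ 2) := by
      ring
    rw [this]
    exact le_self_add
  · obtain ⟨c, rfl⟩ := exists_add_of_le h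
    have : (b + e + c) ^ 2 + b ^ 2 = 2 * ((b + e + c) * b) + e ^ 2 + (2 * e * c + c ^ 2) := by
      ring
    rw [this]
    exact le_self_add

/-- Cauchy-Schwarz for a finite measure. -/
theorem gs_sq_lintegral_le {α : Type*} [MeasurableSpace α] {ν : Measure α} [IsFiniteMeasure ν]
    {f : α → ℝ≥0∞} (hf : Measurable f) :
    (∫⁻ x, f x ∂ν) ^ 2 ≤ ν Set.univ * ∫⁻ x, f x ^ 2 ∂ν := by
  have hf2 : Measurable (fun x => f x ^ 2) := hf.pow_const 2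
  have h1 : 2 * (∫⁻ x, f x ∂ν) ^ 2 ≤ 2 * (ν Set.univ * ∫⁻ x, f x ^ 2 ∂ν) := by
    calc 2 * (∫⁻ x, f x ∂ν) ^ 2 = ∫⁻ x, ∫⁻ y, 2 * (f x * f y) ∂ν ∂ν := by
          have e1 : ∀ x, ∫⁻ y, 2 * (f x * f y) ∂ν = 2 * (f x * ∫⁻ y, f y ∂ν) := by
            intro x
            rw [lintegral_const_mul _ (hf.const_mul _), lintegral_const_mul _ hf]
          simp only [e1]
          rw [lintegral_const_mul _ (hf.mul_const _), lintegral_mul_const _ hf, pow_two]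
      _ ≤ ∫⁻ x, ∫⁻ y, (f x ^ 2 + f y ^ 2) ∂ν ∂ν :=
          lintegral_mono fun x => lintegral_mono fun y => gs_two_mul_le _ _
      _ = 2 * (ν Set.univ * ∫⁻ x, f x ^ 2 ∂ν) := by
          have e1 : ∀ x, ∫⁻ y, (f x ^ 2 + f y ^ 2) ∂ν =
              f x ^ 2 * ν Set.univ + ∫⁻ y, f y ^ 2 ∂ν := by
            intro x
            rw [lintegral_add_left measurable_const, lintegral_const]
          simp only [e1]
          rw [lintegral_add_right _ measurable_const, lintegral_const,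
            lintegral_mul_const _ hf2]
          ring
  exact (ENNReal.mul_le_mul_iff_right (by norm_num) (by norm_num)).1 h1

/-- Concentration of a random variable with `E u` close to `m` and `E u ^ 2` close to `m ^ 2`. -/
theorem gs_cheb {α : Type*} [MeasurableSpace α] {μ : Measure α} [IsProbabilityMeasure μ]
    {u : α → ℝ≥0∞} (hu : Measurable u) {M η ε : ℝ} (hM : 0 < M) (hη : 0 ≤ η) (hηM : η ≤ M)
    (hε : 0 < ε) (h1 : ENNReal.ofReal (M - η) ≤ ∫⁻ x, u x ∂μ)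
    (h2 : ∫⁻ x, u x ^ 2 ∂μ ≤ ENNReal.ofReal (M ^ 2 + η)) :
    μ {x | u x + ENNReal.ofReal ε < ENNReal.ofReal M ∨
      ENNReal.ofReal M + ENNReal.ofReal ε < u x} ≤ ENNReal.ofReal ((1 + 2 * M) * η / ε ^ 2) := by
  set B : Set α := {x | u x + ENNReal.ofReal ε < ENNReal.ofReal M ∨
      ENNReal.ofReal M + ENNReal.ofReal ε < u x} with hB
  have mB : MeasurableSet B := by
    apply MeasurableSet.union
    · exact measurableSet_lt (hu.add_const _) measurable_const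
    · exact measurableSet_lt measurable_const hu
  have hpt : ∀ x, 2 * (u x * ENNReal.ofReal M) +
      B.indicator (fun _ => ENNReal.ofReal ε ^ 2) x ≤ u x ^ 2 + ENNReal.ofReal M ^ 2 := by
    intro x
    by_cases hx : x ∈ B
    · rw [Set.indicator_of_mem hx]
      exact gs_two_mul_add_le (hx.imp le_of_lt le_of_lt)
    · rw [Set.indicator_of_notMem hx, add_zero]
      exact gs_two_mul_le _ _
  have h3 : 2 * ((∫⁻ x, u x ∂μ) * ENNReal.ofReal M) + ENNReal.ofReal ε ^ 2 * μ B ≤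
      (∫⁻ x, u x ^ 2 ∂μ) + ENNReal.ofReal M ^ 2 := by
    have h4 := lintegral_mono (μ := μ) hpt
    rw [lintegral_add_left ((hu.mul_const _).const_mul _),
      lintegral_const_mul _ (hu.mul_const _), lintegral_mul_const _ hu,
      lintegral_indicator_const mB, lintegral_add_left (hu.pow_const 2), lintegral_const,
      measure_univ, mul_one] at h4
    exact h4
  have h5 : 2 * (ENNReal.ofReal (M - η) * ENNReal.ofReal M) + ENNReal.ofReal ε ^ 2 * μ B ≤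
      ENNReal.ofReal (M ^ 2 + η) + ENNReal.ofReal M ^ 2 :=
    (add_le_add (mul_le_mul' le_rfl (mul_le_mul' h1 le_rfl)) le_rfl).trans
      (h3.trans (add_le_add h2 le_rfl))
  have hfin : μ B ≠ ∞ := measure_ne_top μ B
  obtain ⟨x, hx0, hx⟩ : ∃ x : ℝ, 0 ≤ x ∧ μ B = ENNReal.ofReal x :=
    ⟨(μ B).toReal, ENNReal.toReal_nonneg, (ENNReal.ofReal_toReal hfin).symm⟩
  rw [hx] at h5 ⊢
  have e2 : (2 : ℝ≥0∞) = ENNReal.ofReal 2 := by norm_num
  rw [e2, ← ENNReal.ofReal_mul (by linarith), ← ENNReal.ofReal_mul (by norm_num),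
    ← ENNReal.ofReal_pow hε.le, ← ENNReal.ofReal_mul (by positivity),
    ← ENNReal.ofReal_add (by have := mul_nonneg (sub_nonneg.2 hηM) hM.le; linarith)
      (by positivity), ← ENNReal.ofReal_pow hM.le,
    ← ENNReal.ofReal_add (by positivity) (by positivity),
    ENNReal.ofReal_le_ofReal_iff (by positivity)] at h5
  apply ENNReal.ofReal_le_ofReal
  rw [le_div_iff₀ (by positivity)]
  nlinarith

/-- The excess of the second moment is small. -/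
theorem gs_excess {α : Type*} [MeasurableSpace α] {μ : Measure α} [IsProbabilityMeasure μ]
    {u u2 : α → ℝ≥0∞} (hu : Measurable u) (hu2 : Measurable u2) (hle : ∀ x, u x ^ 2 ≤ u2 x)
    {M η θ : ℝ} (hM : 0 < M) (hη : 0 ≤ η) (hηM : η ≤ M) (hθ : 0 < θ)
    (h1 : ENNReal.ofReal (M - η) ≤ ∫⁻ x, u x ∂μ)
    (h2 : ∫⁻ x, u2 x ∂μ ≤ ENNReal.ofReal (M ^ 2 + η)) :
    μ {x | ENNReal.ofReal θ ≤ u2 x - u x ^ 2} ≤ ENNReal.ofReal ((1 + 2 * M) * η / θ) := by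
  set e : α → ℝ≥0∞ := fun x => u2 x - u x ^ 2 with he
  have me : Measurable e := hu2.sub (hu.pow_const 2)
  have h3 : (∫⁻ x, e x ∂μ) + (∫⁻ x, u x ∂μ) ^ 2 ≤ ∫⁻ x, u2 x ∂μ := by
    have h4 : ∫⁻ x, u2 x ∂μ = (∫⁻ x, e x ∂μ) + ∫⁻ x, u x ^ 2 ∂μ := by
      rw [← lintegral_add_left me]
      exact lintegral_congr fun x => (tsub_add_cancel_of_le (hle x)).symm
    rw [h4]
    refine add_le_add le_rfl ?_
    have h5 := gs_sq_lintegral_le (ν := μ) hu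
    rwa [measure_univ, one_mul] at h5
  have h6 : ENNReal.ofReal θ * μ {x | ENNReal.ofReal θ ≤ e x} ≤ ∫⁻ x, e x ∂μ :=
    mul_meas_ge_le_lintegral me _
  have hfin : μ {x | ENNReal.ofReal θ ≤ e x} ≠ ∞ := measure_ne_top μ _
  obtain ⟨x, hx0, hx⟩ : ∃ x : ℝ, 0 ≤ x ∧ μ {x | ENNReal.ofReal θ ≤ e x} = ENNReal.ofReal x :=
    ⟨(μ {x | ENNReal.ofReal θ ≤ e x}).toReal, ENNReal.toReal_nonneg,
      (ENNReal.ofReal_toReal hfin).symm⟩
  have h7 : ENNReal.ofReal θ * ENNReal.ofReal x + ENNReal.ofReal (M - η) ^ 2 ≤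
      ENNReal.ofReal (M ^ 2 + η) := by
    rw [← hx]
    exact (add_le_add h6 (pow_le_pow_left' h1 2)).trans (h3.trans h2)
  rw [← ENNReal.ofReal_mul hθ.le, ← ENNReal.ofReal_pow (by linarith),
    ← ENNReal.ofReal_add (by positivity) (by positivity),
    ENNReal.ofReal_le_ofReal_iff (by positivity)] at h7
  change μ {x | ENNReal.ofReal θ ≤ e x} ≤ _
  rw [hx]
  apply ENNReal.ofReal_le_ofReal
  rw [le_div_iff₀ hθ]
  nlinarith

theorem gs_coe_div (C : ℝ≥0) {a : ℝ≥0} (ha : 0 < a) :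
    (C : ℝ≥0∞) / (a : ℝ≥0∞) ^ 4 = ((C / a ^ 4 : ℝ≥0) : ℝ≥0∞) := by
  have h0 : a ^ 4 ≠ 0 := (pow_pos ha 4).ne'
  rw [ENNReal.coe_div h0, ENNReal.coe_pow]

/-- The tail of the range at the scale of the blocks. -/
theorem gs_range (hd : 4 ≤ d) {μ : Measure (Path d)} (h : IsWiener μ) {c : ℝ} (hc : 0 < c) :
    ∃ C₀ : ℝ≥0, ∀ δ : ℝ≥0, 0 < δ → δ < 1 → ∀ᶠ r in 𝓝[>] (0 : ℝ),
      μ {w | (C₀ / δ : ℝ≥0) * (RR d r : ℝ≥0∞) < rg (tt d c r) w} ≤
        ENNReal.ofReal ((δ : ℝ) ^ 2 / 96) := by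
  obtain ⟨C, hC⟩ := h.rg_tail 4
  set c' : ℝ≥0 := c.toNNReal with hc'
  have hc'0 : 0 < c' := Real.toNNReal_pos.2 hc
  have hcc : (c' : ℝ) = c := Real.coe_toNNReal _ hc.le
  refine ⟨1 + 96 * C * c' ^ 2, fun δ hδ hδ1 => ?_⟩
  set C₀ : ℝ≥0 := 1 + 96 * C * c' ^ 2 with hC₀
  have hC₀1 : 1 ≤ C₀ := le_self_add
  have hC₀0 : 0 < C₀ := lt_of_lt_of_le one_pos hC₀1
  filter_upwards [RR_bounds hd, (tendsto_ff hd).eventually_gt_atTop 0] with r hr hf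
  set a : ℝ≥0 := C₀ / (δ * NNReal.sqrt c') with ha
  have hs0 : 0 < NNReal.sqrt c' := NNReal.sqrt_pos.2 hc'0
  have ha0 : 0 < a := by positivity
  have h1 := hC (tt d c r) a ha0
  have h2 : a * NNReal.sqrt (tt d c r) ≤ C₀ / δ * (RR d r : ℝ≥0) := by
    have e1 : NNReal.sqrt (tt d c r) = NNReal.sqrt c' * NNReal.sqrt (ff d r).toNNReal := by
      rw [← NNReal.sqrt_mul, tt, Real.toNNReal_mul hc.le]
    have e2 : NNReal.sqrt (ff d r).toNNReal ≤ (RR d r : ℝ≥0) := by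
      rw [← NNReal.coe_le_coe, Real.coe_sqrt, Real.coe_toNNReal _ hf.le]
      exact_mod_cast hr.1
    calc a * NNReal.sqrt (tt d c r)
        = C₀ / δ * NNReal.sqrt (ff d r).toNNReal := by
          rw [e1, ha]
          field_simp
      _ ≤ C₀ / δ * (RR d r : ℝ≥0) := by gcongr
  have h3 : {w : Path d | (C₀ / δ : ℝ≥0) * (RR d r : ℝ≥0∞) < rg (tt d c r) w} ⊆
      {w | (a : ℝ≥0∞) * (NNReal.sqrt (tt d c r) : ℝ≥0∞) < rg (tt d c r) w} := by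
    intro w hw
    have hw' : ((C₀ / δ : ℝ≥0) : ℝ≥0∞) * (RR d r : ℝ≥0∞) < rg (tt d c r) w := hw
    have h2' : (a : ℝ≥0∞) * (NNReal.sqrt (tt d c r) : ℝ≥0∞) ≤
        ((C₀ / δ : ℝ≥0) : ℝ≥0∞) * (RR d r : ℝ≥0∞) := by
      exact_mod_cast h2
    show (a : ℝ≥0∞) * (NNReal.sqrt (tt d c r) : ℝ≥0∞) < rg (tt d c r) w
    exact lt_of_le_of_lt h2' hw'
  refine (measure_mono h3).trans (h1.trans ?_)
  have h4 : C / a ^ 4 ≤ δ ^ 2 / 96 := by
    have e3 : a ^ 4 = C₀ ^ 4 / (δ ^ 4 * c' ^ 2) := by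
      rw [ha, div_pow, mul_pow]
      congr 2
      rw [show (NNReal.sqrt c') ^ 4 = ((NNReal.sqrt c') ^ 2) ^ 2 by ring, NNReal.sq_sqrt]
    rw [e3, div_div_eq_mul_div, div_le_div_iff₀ (by positivity) (by norm_num)]
    have e4 : 96 * C * c' ^ 2 ≤ C₀ ^ 4 :=
      calc 96 * C * c' ^ 2 ≤ C₀ := le_add_self
        _ ≤ C₀ ^ 4 := le_self_pow₀ hC₀1 (by norm_num)
    have e5 : δ ^ 4 ≤ δ ^ 2 := pow_le_pow_of_le_one bot_le hδ1.le (by norm_num)
    calc C * (δ ^ 4 * c' ^ 2) * 96 = (96 * C * c' ^ 2) * δ ^ 4 := by ring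
      _ ≤ C₀ ^ 4 * δ ^ 2 := mul_le_mul' e4 e5
      _ = δ ^ 2 * C₀ ^ 4 := mul_comm _ _
  rw [gs_coe_div C ha0]
  have h6 : ENNReal.ofReal ((δ : ℝ) ^ 2 / 96) = ((δ ^ 2 / 96 : ℝ≥0) : ℝ≥0∞) := by
    rw [ENNReal.ofReal, ENNReal.coe_inj]
    rw [← NNReal.coe_inj, Real.coe_toNNReal _ (by positivity)]
    push_cast
    rfl
  rw [h6]
  exact_mod_cast h4

/-- The kernel version: a set on which the mean degree is almost constant. -/
theorem gs_core {α : Type*} [MeasurableSpace α] {μ : Measure α} [IsProbabilityMeasure μ]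
    {V : α → α → ℝ≥0∞} (mV : Measurable (Function.uncurry V)) {M η δ : ℝ} (hM : 0 < M)
    (hδ : 0 < δ) (hδ1 : δ < 1) (hη0 : 0 ≤ η) (hηM : η ≤ M)
    (hη1 : (1 + 2 * M) * η / (δ / 4 * M) ^ 2 ≤ δ ^ 2 / 96)
    (hη2 : (1 + 2 * M) * η / (7 / 16 * M ^ 2) ≤ δ ^ 2 / 96)
    (h1 : ENNReal.ofReal (M - η) ≤ ∫⁻ w, ∫⁻ w', V w w' ∂μ ∂μ)
    (h2 : ∫⁻ w, ∫⁻ w', V w w' ^ 2 ∂μ ∂μ ≤ ENNReal.ofReal (M ^ 2 + η))
    {B3 : Set α} (mB3 : MeasurableSet B3) (hB3 : μ B3 ≤ ENNReal.ofReal (δ ^ 2 / 96)) :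
    ∃ G : Set α, MeasurableSet G ∧ μ Gᶜ ≤ ENNReal.ofReal δ ∧
      (∀ w ∈ G, ∫⁻ w' in G, V w w' ∂μ ≤ ENNReal.ofReal ((1 + δ) * M)) ∧
      (∀ w ∈ G, ENNReal.ofReal ((1 - δ) * M) ≤ ∫⁻ w' in G, V w w' ∂μ) ∧
      (∀ w ∈ G, w ∉ B3) := by
  have hε0 : 0 < δ / 4 * M := by positivity
  have hθ0 : 0 < 7 / 16 * M ^ 2 := by positivity
  have mVw : ∀ w, Measurable (V w) := fun w => mV.comp measurable_prodMk_left
  obtain ⟨u, hu⟩ : ∃ u : α → ℝ≥0∞, ∀ w, u w = ∫⁻ w', V w w' ∂μ := ⟨_, fun _ => rfl⟩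
  obtain ⟨u2, hu2⟩ : ∃ u2 : α → ℝ≥0∞, ∀ w, u2 w = ∫⁻ w', V w w' ^ 2 ∂μ :=
    ⟨_, fun _ => rfl⟩
  have mu : Measurable u := by
    have e : u = fun w => ∫⁻ w', V w w' ∂μ := funext hu
    rw [e]
    exact mV.lintegral_prod_right
  have mu2 : Measurable u2 := by
    have e : u2 = fun w => ∫⁻ w', V w w' ^ 2 ∂μ := funext hu2
    rw [e]
    exact (mV.pow_const 2).lintegral_prod_right
  have h1' : ENNReal.ofReal (M - η) ≤ ∫⁻ w, u w ∂μ :=
    h1.trans (le_of_eq (lintegral_congr fun w => (hu w).symm))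
  have h2' : ∫⁻ w, u2 w ∂μ ≤ ENNReal.ofReal (M ^ 2 + η) :=
    (le_of_eq (lintegral_congr fun w => hu2 w)).trans h2
  have hle : ∀ w, u w ^ 2 ≤ u2 w := by
    intro w
    have h5 := gs_sq_lintegral_le (ν := μ) (mVw w)
    rw [measure_univ, one_mul] at h5
    rw [hu, hu2]
    exact h5
  have hb1 := gs_cheb (μ := μ) mu hM hη0 hηM hε0 h1' ((lintegral_mono hle).trans h2')
  have hb2 := gs_excess (μ := μ) mu mu2 hle hM hη0 hηM hθ0 h1' h2'
  set B1 : Set α := {x | u x + ENNReal.ofReal (δ / 4 * M) < ENNReal.ofReal M ∨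
      ENNReal.ofReal M + ENNReal.ofReal (δ / 4 * M) < u x} with hB1
  set B2 : Set α := {x | ENNReal.ofReal (7 / 16 * M ^ 2) ≤ u2 x - u x ^ 2} with hB2
  have mB1 : MeasurableSet B1 :=
    (measurableSet_lt (mu.add_const _) measurable_const).union
      (measurableSet_lt measurable_const mu)
  have mB2 : MeasurableSet B2 := measurableSet_le measurable_const (mu2.sub (mu.pow_const 2))
  obtain ⟨G, hG⟩ : ∃ G : Set α, G = (B1 ∪ B2 ∪ B3)ᶜ := ⟨_, rfl⟩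
  have mG : MeasurableSet G := by
    rw [hG]
    exact ((mB1.union mB2).union mB3).compl
  have hGc : Gᶜ = B1 ∪ B2 ∪ B3 := by rw [hG, compl_compl]
  have hmu : μ Gᶜ ≤ ENNReal.ofReal (δ ^ 2 / 32) := by
    rw [hGc]
    calc μ (B1 ∪ B2 ∪ B3) ≤ μ B1 + μ B2 + μ B3 :=
          (measure_union_le _ _).trans (add_le_add (measure_union_le _ _) le_rfl)
      _ ≤ ENNReal.ofReal (δ ^ 2 / 96) + ENNReal.ofReal (δ ^ 2 / 96) +
          ENNReal.ofReal (δ ^ 2 / 96) :=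
          add_le_add (add_le_add (hb1.trans (ENNReal.ofReal_le_ofReal hη1))
            (hb2.trans (ENNReal.ofReal_le_ofReal hη2))) hB3
      _ = ENNReal.ofReal (δ ^ 2 / 32) := by
          rw [← ENNReal.ofReal_add (by positivity) (by positivity),
            ← ENNReal.ofReal_add (by positivity) (by positivity)]
          congr 1
          ring
  have hB : ∀ w ∈ G, w ∉ B1 ∧ w ∉ B2 ∧ w ∉ B3 := by
    intro w hw
    rw [hG] at hw
    simp only [Set.mem_compl_iff, Set.mem_union, not_or] at hw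
    exact ⟨hw.1.1, hw.1.2, hw.2⟩
  have hup : ∀ w ∈ G, u w ≤ ENNReal.ofReal M + ENNReal.ofReal (δ / 4 * M) := by
    intro w hw
    have h3 := (hB w hw).1
    simp only [hB1, Set.mem_ofPred_eq, not_or, not_lt] at h3
    exact h3.2
  have hlo : ∀ w ∈ G, ENNReal.ofReal M ≤ u w + ENNReal.ofReal (δ / 4 * M) := by
    intro w hw
    have h3 := (hB w hw).1
    simp only [hB1, Set.mem_ofPred_eq, not_or, not_lt] at h3
    exact h3.1
  have hu2w : ∀ w ∈ G, u2 w ≤ ENNReal.ofReal (2 * M ^ 2) := by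
    intro w hw
    have h3 := (hB w hw).2.1
    simp only [hB2, Set.mem_ofPred_eq, not_le] at h3
    have h4 : u w ≤ ENNReal.ofReal (5 / 4 * M) := by
      refine (hup w hw).trans ?_
      rw [← ENNReal.ofReal_add hM.le hε0.le]
      apply ENNReal.ofReal_le_ofReal
      nlinarith
    calc u2 w ≤ (u2 w - u w ^ 2) + u w ^ 2 := le_tsub_add
      _ ≤ ENNReal.ofReal (7 / 16 * M ^ 2) + ENNReal.ofReal (5 / 4 * M) ^ 2 :=
          add_le_add h3.le (pow_le_pow_left' h4 2)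
      _ = ENNReal.ofReal (2 * M ^ 2) := by
          rw [← ENNReal.ofReal_pow (by positivity),
            ← ENNReal.ofReal_add (by positivity) (by positivity)]
          congr 1
          ring
  have hcompl : ∀ w ∈ G, ∫⁻ w' in Gᶜ, V w w' ∂μ ≤ ENNReal.ofReal (δ / 4 * M) := by
    intro w hw
    have h3 := gs_sq_lintegral_le (ν := μ.restrict Gᶜ) (mVw w)
    rw [Measure.restrict_apply_univ] at h3
    have h4 : ∫⁻ w' in Gᶜ, V w w' ^ 2 ∂μ ≤ ENNReal.ofReal (2 * M ^ 2) := by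
      refine (setLIntegral_le_lintegral _ _).trans ?_
      rw [← hu2]
      exact hu2w w hw
    have h5 : (∫⁻ w' in Gᶜ, V w w' ∂μ) ^ 2 ≤ ENNReal.ofReal (δ / 4 * M) ^ 2 :=
      calc (∫⁻ w' in Gᶜ, V w w' ∂μ) ^ 2 ≤ μ Gᶜ * ∫⁻ w' in Gᶜ, V w w' ^ 2 ∂μ := h3
        _ ≤ ENNReal.ofReal (δ ^ 2 / 32) * ENNReal.ofReal (2 * M ^ 2) := mul_le_mul' hmu h4
        _ = ENNReal.ofReal (δ / 4 * M) ^ 2 := by
            rw [← ENNReal.ofReal_pow (by positivity), ← ENNReal.ofReal_mul (by positivity)]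
            congr 1
            ring
    exact (ENNReal.pow_le_pow_left_iff (by norm_num)).1 h5
  have hsum : ∀ w, (∫⁻ w' in G, V w w' ∂μ) + ∫⁻ w' in Gᶜ, V w w' ∂μ = u w := by
    intro w
    rw [hu]
    exact lintegral_add_compl _ mG
  refine ⟨G, mG, hmu.trans (ENNReal.ofReal_le_ofReal (by nlinarith)), ?_, ?_,
    fun w hw => (hB w hw).2.2⟩
  · intro w hw
    calc ∫⁻ w' in G, V w w' ∂μ ≤ u w := by
          rw [← hsum w]
          exact le_self_add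
      _ ≤ ENNReal.ofReal M + ENNReal.ofReal (δ / 4 * M) := hup w hw
      _ ≤ ENNReal.ofReal ((1 + δ) * M) := by
          rw [← ENNReal.ofReal_add hM.le hε0.le]
          apply ENNReal.ofReal_le_ofReal
          nlinarith [mul_pos hδ hM]
  · intro w hw
    have h3 : ENNReal.ofReal M ≤ (∫⁻ w' in G, V w w' ∂μ) + ENNReal.ofReal (δ / 2 * M) :=
      calc ENNReal.ofReal M ≤ u w + ENNReal.ofReal (δ / 4 * M) := hlo w hw
        _ = (∫⁻ w' in G, V w w' ∂μ) + (∫⁻ w' in Gᶜ, V w w' ∂μ) +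
            ENNReal.ofReal (δ / 4 * M) := by rw [hsum w]
        _ ≤ (∫⁻ w' in G, V w w' ∂μ) + ENNReal.ofReal (δ / 4 * M) +
            ENNReal.ofReal (δ / 4 * M) :=
            add_le_add (add_le_add le_rfl (hcompl w hw)) le_rfl
        _ = (∫⁻ w' in G, V w w' ∂μ) + ENNReal.ofReal (δ / 2 * M) := by
            rw [add_assoc, ← ENNReal.ofReal_add hε0.le hε0.le]
            congr 2
            ring
    have h4 : ENNReal.ofReal ((1 - δ) * M) + ENNReal.ofReal (δ / 2 * M) ≤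
        (∫⁻ w' in G, V w w' ∂μ) + ENNReal.ofReal (δ / 2 * M) := by
      refine le_trans ?_ h3
      rw [← ENNReal.ofReal_add (by nlinarith) (by positivity)]
      apply ENNReal.ofReal_le_ofReal
      nlinarith [mul_pos hδ hM]
    exact (ENNReal.add_le_add_iff_right ENNReal.ofReal_ne_top).1 h4

/-- The choice of the small parameter. -/
theorem gs_eta {M δ : ℝ} (hM : 0 < M) (hδ : 0 < δ) : ∃ η : ℝ, 0 < η ∧ η ≤ M ∧
    (1 + 2 * M) * η / (δ / 4 * M) ^ 2 ≤ δ ^ 2 / 96 ∧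
    (1 + 2 * M) * η / (7 / 16 * M ^ 2) ≤ δ ^ 2 / 96 := by
  obtain ⟨ε2, hε⟩ : ∃ x : ℝ, x = (δ / 4 * M) ^ 2 := ⟨_, rfl⟩
  obtain ⟨θ, hθ⟩ : ∃ x : ℝ, x = 7 / 16 * M ^ 2 := ⟨_, rfl⟩
  obtain ⟨A, hA⟩ : ∃ x : ℝ, x = δ ^ 2 / 96 := ⟨_, rfl⟩
  have hε0 : 0 < ε2 := by rw [hε]; positivity
  have hθ0 : 0 < θ := by rw [hθ]; positivity
  have hA0 : 0 < A := by rw [hA]; positivity
  rw [← hε, ← hθ, ← hA]
  refine ⟨min M (min (A * ε2 / (1 + 2 * M)) (A * θ / (1 + 2 * M))), by positivity,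
    min_le_left _ _, ?_, ?_⟩
  · rw [div_le_iff₀ hε0]
    calc (1 + 2 * M) * min M (min (A * ε2 / (1 + 2 * M)) (A * θ / (1 + 2 * M)))
        ≤ (1 + 2 * M) * (A * ε2 / (1 + 2 * M)) := by
          apply mul_le_mul_of_nonneg_left _ (by positivity)
          exact (min_le_right _ _).trans (min_le_left _ _)
      _ = A * ε2 := by field_simp
  · rw [div_le_iff₀ hθ0]
    calc (1 + 2 * M) * min M (min (A * ε2 / (1 + 2 * M)) (A * θ / (1 + 2 * M)))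
        ≤ (1 + 2 * M) * (A * θ / (1 + 2 * M)) := by
          apply mul_le_mul_of_nonneg_left _ (by positivity)
          exact (min_le_right _ _).trans (min_le_right _ _)
      _ = A * θ := by field_simp

theorem good_set (hd : 4 ≤ d) {μ : Measure (Path d)} (h : IsWiener μ) {κ : ℝ}
    (hA : AnFacts d μ κ) {c : ℝ} (hc : 0 < c) :
    ∃ C₀ : ℝ≥0, ∀ δ : ℝ≥0, 0 < δ → δ < 1 → ∀ᶠ r in 𝓝[>] (0 : ℝ), ∃ G : Set (Path d),
      MeasurableSet G ∧ μ Gᶜ ≤ δ ∧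
      (∀ w ∈ G, ∫⁻ w' in G, Vol (2 * r) (tt d c r) (tt d c r) w w' ∂μ ≤
        ENNReal.ofReal ((1 + δ) * (κ * c ^ 2))) ∧
      (∀ w ∈ G, ENNReal.ofReal ((1 - δ) * (κ * c ^ 2)) ≤
        ∫⁻ w' in G, Vol (2 * r) (tt d c r) (tt d c r) w w' ∂μ) ∧
      (∀ w ∈ G, rg (tt d c r) w ≤ (C₀ / δ : ℝ≥0) * (RR d r : ℝ≥0∞)) := by
  have := h.isProb
  obtain ⟨C₀, hC₀⟩ := gs_range hd h hc
  refine ⟨C₀, fun δ hδ hδ1 => ?_⟩
  have hδ' : (0 : ℝ) < δ := hδ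
  have hδ1' : (δ : ℝ) < 1 := hδ1
  obtain ⟨M, hMdef⟩ : ∃ x : ℝ, x = κ * c ^ 2 := ⟨_, rfl⟩
  rw [← hMdef]
  have hM : 0 < M := by rw [hMdef]; exact mul_pos hA.pos (by positivity)
  obtain ⟨η, hη0, hηM, hη1, hη2⟩ := gs_eta hM hδ'
  have hev := hA.ev c hc
  have hev2 := hA.ev2 c hc
  rw [← hMdef] at hev hev2
  have hlow : ∀ᶠ r in 𝓝[>] (0 : ℝ),
      ENNReal.ofReal (M - η) < EV μ (2 * r) (tt d c r) (tt d c r) :=
    hev.eventually (lt_mem_nhds ((ENNReal.ofReal_lt_ofReal_iff hM).2 (by linarith)))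
  have hup : ∀ᶠ r in 𝓝[>] (0 : ℝ), EV2 μ (2 * r) (tt d c r) (tt d c r) <
      ENNReal.ofReal (M ^ 2 + η) :=
    hev2.eventually (gt_mem_nhds ((ENNReal.ofReal_lt_ofReal_iff (by positivity)).2
      (by linarith)))
  filter_upwards [hC₀ δ hδ hδ1, hlow, hup] with r hr3 hr1 hr2
  have mB3 : MeasurableSet {w : Path d | (C₀ / δ : ℝ≥0) * (RR d r : ℝ≥0∞) < rg (tt d c r) w} :=
    measurableSet_lt measurable_const (measurable_rg (tt d c r))
  obtain ⟨G, mG, hG1, hG2, hG3, hG4⟩ := gs_core (μ := μ)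
    (measurable_Vol (2 * r) (tt d c r) (tt d c r)) hM hδ' hδ1' hη0.le hηM hη1 hη2 hr1.le hr2.le
    mB3 hr3
  refine ⟨G, mG, ?_, hG2, hG3, ?_⟩
  · rwa [ENNReal.ofReal_coe_nnreal] at hG1
  · intro w hw
    exact not_lt.1 (hG4 w hw)

end WSP
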