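import Pool.Agent.Lib_MP_c175fd.BigLoc
import Pool.Agent.Lib_MP_c175fd.CountB
import Pool.Agent.Lib_MP_c175fd.CountC
import Pool.Agent.Lib_MP_c175fd.GoodSet

/-!
# Piece BIGP: many big points with high probability

Let `m₀ = κ c ^ 2`, `C₀' = m₀ / (m₀ - 1)`, `ρ = (m₀ - 1) / (100 m₀) = 1 / (100 C₀')`, `R = RR d r`. Take `G` from
`good_set` with `δ = 1 / (100 n)`, `b = (C₀ / δ) R`, so that `n (2 r + 2 b) ≤ n (R + 200 n C₀ R) ≤ CD n ^ 2 R`
with `CD = ⌈200 C₀⌉ + 1`. Outside an event of probability at most `η` (`chains_lower`, `points_upper` with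
`L = 0`, `pairs_upper`, `bad_upper` with `ρ' = ρ`, each with `η / 4`, and the null event of `ae_mem_cube`)
`root_cs` with the threshold `x = ofReal (m₀ ^ n / 8)` gives, with `N` the number of clean `i` with `x ≤ Zr i`
(in units of `R ^ d`, `N = N' R ^ d`):
`0.9 m₀ ^ n ≤ (m₀ ^ n / 8) * 2 + ((N' + ρ) * (2 m₀ ^ (2 n) C₀' + ρ)) ^ (1/2)`, so
`(N' + ρ) * 3 C₀' m₀ ^ (2 n) ≥ (0.65 m₀ ^ n) ^ 2` (as `ρ ≤ C₀' m₀ ^ (2 n)`), `N' + ρ ≥ 0.14 / C₀' = 14 ρ`,
`N' ≥ 13 ρ ≥ ρ`. Conclude by `card_bg_ge` with `A = ⌈m₀ ^ n / 8⌉₊`.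
-/

open MeasureTheory ProbabilityTheory Filter Topology
open scoped ENNReal NNReal

namespace WSP

variable {d : ℕ} {Ω : Type*} [MeasurableSpace Ω] {P : Measure Ω} {μ : Measure (Path d)}

/-- the real inequality behind `big_prob` -/
theorem bigp_real {m D : ℝ} (hm : 1 < m) (hD : 0 < D) (n : ℕ)
    (h : 9 / 10 * m ^ n * D ≤ m ^ n / 8 * (2 * D) +
      (((m - 1) / (100 * m) * D + (m - 1) / (100 * m) * D) *
        (2 * m ^ (2 * n) * (m / (m - 1)) * D + (m - 1) / (100 * m) * D)) ^ (1 / 2 : ℝ)) : False := by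
  have hm0 : 0 < m := by linarith
  have hm1 : 0 < m - 1 := by linarith
  have hX : 1 ≤ m ^ n := one_le_pow₀ hm.le
  set X : ℝ := m ^ n with hXdef
  have hX2 : m ^ (2 * n) = X ^ 2 := by rw [hXdef, ← pow_mul, mul_comm]
  have hle : (m - 1) / (100 * m) ≤ m / (m - 1) * X ^ 2 := by
    have h1 : (m - 1) / (100 * m) ≤ 1 := by
      rw [div_le_one (by positivity)]
      linarith
    have h2 : 1 ≤ m / (m - 1) := by
      rw [one_le_div hm1]
      linarith
    have h3 : 1 ≤ X ^ 2 := one_le_pow₀ hX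
    nlinarith
  have hprod : (((m - 1) / (100 * m) * D + (m - 1) / (100 * m) * D) *
        (2 * m ^ (2 * n) * (m / (m - 1)) * D + (m - 1) / (100 * m) * D)) ≤ (X * D / 4) ^ 2 := by
    rw [hX2]
    have h1 : 0 ≤ (m - 1) / (100 * m) := by positivity
    have h2 : 2 * X ^ 2 * (m / (m - 1)) * D + (m - 1) / (100 * m) * D ≤
        3 * X ^ 2 * (m / (m - 1)) * D := by
      have := mul_le_mul_of_nonneg_right hle hD.le
      linarith
    refine (mul_le_mul_of_nonneg_left h2 (by positivity)).trans ?_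
    have h3 : ((m - 1) / (100 * m) * D + (m - 1) / (100 * m) * D) *
        (3 * X ^ 2 * (m / (m - 1)) * D) = 6 / 100 * (X * D) ^ 2 := by
      field_simp
      ring
    rw [h3]
    have h4 : 0 ≤ (X * D) ^ 2 := sq_nonneg _
    linarith
  have hsq := Real.rpow_le_rpow (by positivity) hprod (show (0 : ℝ) ≤ 1 / 2 by norm_num)
  have h5 : ((X * D / 4) ^ 2) ^ (1 / 2 : ℝ) = X * D / 4 := by
    rw [← Real.sqrt_eq_rpow, Real.sqrt_sq (by positivity)]
  rw [h5] at hsq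
  have h6 : 0 < X * D := by positivity
  linarith

theorem big_prob (hd : 4 ≤ d) (M : PM d P μ) [IsProbabilityMeasure P] (h : IsWiener μ)
    {κ : ℝ} (hA : AnFacts d μ κ) {c : ℝ} (hc : 0 < c) (hm : 1 < κ * c ^ 2) :
    ∃ CD : ℕ, ∀ n : ℕ, 1 ≤ n → ∀ η : ℝ≥0∞, 0 < η → ∀ᶠ r in 𝓝[>] (0 : ℝ), ∀ k : Fin d → ℤ,
      P {ω | ((M.bg r (tt d c r) ⌈(κ * c ^ 2) ^ n / 8⌉₊ (RR d r) (CD * n ^ 2 * RR d r) k ω).card : ℝ) <
        (κ * c ^ 2 - 1) / (100 * (κ * c ^ 2)) * (RR d r : ℝ) ^ d} ≤ η := by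
  classical
  have hμ : IsProbabilityMeasure μ := h.isProb
  obtain ⟨C₀, hC₀⟩ := good_set hd h hA hc
  refine ⟨⌈200 * (C₀ : ℝ)⌉₊ + 1, ?_⟩
  intro n hn η hη
  have hη4 : 0 < η / 4 := ENNReal.div_pos hη.ne' (by norm_num)
  have hn0 : (0 : ℝ) < n := by exact_mod_cast hn
  have hn1 : (1 : ℝ) ≤ n := by exact_mod_cast hn
  set δ : ℝ≥0 := 1 / (100 * n) with hδdef
  have hδr : (δ : ℝ) = 1 / (100 * n) := by
    rw [hδdef]
    push_cast
    rfl
  have hδ0 : 0 < δ := by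
    rw [← NNReal.coe_pos, hδr]
    positivity
  have hδ1 : δ < 1 := by
    rw [← NNReal.coe_lt_one, hδr, div_lt_one (by positivity)]
    linarith
  set m : ℝ := κ * c ^ 2 with hmdef
  have hm0 : 0 < m := by linarith
  have hm1 : 0 < m - 1 := by linarith
  have hρ0 : 0 < (m - 1) / (100 * m) := by positivity
  have hrpos : ∀ᶠ r in 𝓝[>] (0 : ℝ), 0 < r := self_mem_nhdsWithin
  have hrsmall : ∀ᶠ r in 𝓝[>] (0 : ℝ), r < 1 / 2 :=
    nhdsWithin_le_nhds (gt_mem_nhds (by norm_num))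
  filter_upwards [hC₀ δ hδ0 hδ1, hrpos, hrsmall, RR_pos hd,
    chains_lower hd M h hA hc hm hn hη4, points_upper hd M (μ := μ) hη4,
    pairs_upper hd M h hA hc hm hn hη4,
    bad_upper hd M h hA hc hn hη4 (ρ' := ENNReal.ofReal ((m - 1) / (100 * m)))
      (ENNReal.ofReal_pos.2 hρ0)] with r hG' hr hr2 hR e1 e2 e3 e4
  intro k
  obtain ⟨G, hGm, hGc, hGu, hGl, hGr⟩ := hG'
  have hGood : GoodG μ (2 * r) (tt d c r) m (1 / (100 * n)) G := by
    refine ⟨hGm, ?_, ?_, ?_⟩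
    · rw [← hδr, ENNReal.ofReal_coe_nnreal]
      exact hGc
    · intro w hw
      rw [← hδr]
      exact hGu w hw
    · intro w hw
      rw [← hδr]
      exact hGl w hw
  have f1 := e1 G hGood k
  have f2 := e2 k 0
  have f3 := e3 G hGood k
  have f4 := e4 G hGood k
  have f0 : P {ω | ¬ ∀ i, (M.y i ω).1 ∈ cube i.1} = 0 := M.ae_mem_cube
  set R : ℕ := RR d r with hRdef
  have hRr : (1 : ℝ) ≤ R := by exact_mod_cast hR
  set D : ℝ := (R : ℝ) ^ d with hDdef
  have hD : 0 < D := by positivity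
  have hDe : (R : ℝ≥0∞) ^ d = ENNReal.ofReal D := by
    rw [hDdef, ENNReal.ofReal_pow (by positivity), ENNReal.ofReal_natCast]
  set CD : ℕ := ⌈200 * (C₀ : ℝ)⌉₊ + 1 with hCD
  have hCDr : 200 * (C₀ : ℝ) + 1 ≤ CD := by
    rw [hCD]
    push_cast
    have := Nat.le_ceil (200 * (C₀ : ℝ))
    linarith
  -- the radius
  set b : ℝ≥0 := C₀ / δ * (R : ℝ≥0) with hb
  have hbr : (b : ℝ) = 100 * n * C₀ * R := by
    rw [hb]
    push_cast
    rw [hδr]
    field_simp
  have hGb : ∀ w ∈ G, rg (tt d c r) w ≤ b := by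
    intro w hw
    refine (hGr w hw).trans (le_of_eq ?_)
    rw [hb]
    push_cast
    rfl
  have hL : (n : ℝ) * (2 * r + 2 * b) ≤ ((CD * n ^ 2 * R : ℕ) : ℝ) := by
    rw [hbr]
    push_cast
    have h1 : (n : ℝ) * (2 * r + 2 * (100 * n * C₀ * R)) ≤ n * (n * R + 2 * (100 * n * C₀ * R)) := by
      apply mul_le_mul_of_nonneg_left _ hn0.le
      have : (1 : ℝ) * 1 ≤ n * R := mul_le_mul hn1 hRr zero_le_one hn0.le
      linarith
    refine h1.trans ?_
    have h2 : (n : ℝ) * (n * R + 2 * (100 * n * C₀ * R)) = (200 * C₀ + 1) * ((n : ℝ) ^ 2 * R) := by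
      ring
    rw [h2, mul_assoc (CD : ℝ)]
    exact mul_le_mul_of_nonneg_right hCDr (by positivity)
  -- the inclusion of events
  have hsub : {ω | ((M.bg r (tt d c r) ⌈m ^ n / 8⌉₊ R (CD * n ^ 2 * R) k ω).card : ℝ) <
        (m - 1) / (100 * m) * D} ⊆
      {ω | ¬ ∀ i, (M.y i ω).1 ∈ cube i.1} ∪
      ({ω | cnt M.pres M.y (chainG (2 * r) (tt d c r) G (boxE k R 0) n) ω <
        ENNReal.ofReal (9 / 10 * m ^ n) * (R : ℝ≥0∞) ^ d} ∪
      ({ω | 2 * ((R + 2 * 0 : ℕ) : ℝ≥0∞) ^ d <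
        cnt M.pres M.y {z : Unit → Mark d | (z ()).1 ∈ boxE k R 0} ω} ∪
      ({ω | ENNReal.ofReal (2 * m ^ (2 * n) * (m / (m - 1))) *
          (R : ℝ≥0∞) ^ d <
        ∑' s : Gluing (Fin (n + 1)) (Fin (n + 1)),
          (if s.1 (Sum.inl 0) (Sum.inr 0) ∧ s ∉ BadG n then
            cnt M.pres M.y (glueSet s (chainG (2 * r) (tt d c r) G (boxE k R 0) n)
              (chainG (2 * r) (tt d c r) G (boxE k R 0) n)) ω else 0)} ∪
      {ω | ENNReal.ofReal ((m - 1) / (100 * m)) * (R : ℝ≥0∞) ^ d <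
        ∑' s : Gluing (Fin (n + 1)) (Fin (n + 1)),
          (if s ∈ BadG n then
            cnt M.pres M.y (glueSet s (chainG (2 * r) (tt d c r) G (boxE k R 0) n)
              (chainG (2 * r) (tt d c r) G (boxE k R 0) n)) ω else 0)}))) := by
    intro ω hω
    by_contra hcon
    simp only [Set.mem_union, not_or] at hcon
    obtain ⟨g0, g1, g2, g3, g4⟩ := hcon
    have g0' : ∀ i, (M.y i ω).1 ∈ cube i.1 := not_not.1 g0
    have gg : ∀ {u v : Ω → ℝ≥0∞}, ω ∉ {ω | u ω < v ω} → v ω ≤ u ω := fun hh => not_lt.1 hh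
    have g1' := gg g1
    have g2' := gg g2
    have g3' := gg g3
    have g4' := gg g4
    have hω' : ((M.bg r (tt d c r) ⌈m ^ n / 8⌉₊ R (CD * n ^ 2 * R) k ω).card : ℝ) <
        (m - 1) / (100 * m) * D := hω
    have hx0 : ENNReal.ofReal (m ^ n / 8) ≠ 0 := by
      have : 0 < ENNReal.ofReal (m ^ n / 8) := ENNReal.ofReal_pos.2 (by positivity)
      exact this.ne'
    have hxA : ∀ N' : ℕ, ENNReal.ofReal (m ^ n / 8) ≤ N' → ⌈m ^ n / 8⌉₊ ≤ N' := by
      intro N' hN'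
      rw [← ENNReal.ofReal_natCast, ENNReal.ofReal_le_ofReal_iff (Nat.cast_nonneg _)] at hN'
      exact Nat.ceil_le.2 hN'
    have k1 := root_cs M.pres M.y (0 : Fin (n + 1)) (Q := {y : Mark d | y.1 ∈ boxE k R 0})
      (A := chainG (2 * r) (tt d c r) G (boxE k R 0) n) (fun z hz => hz.1) (BadG n) ω
      (ENNReal.ofReal (m ^ n / 8)) hx0
    have k2 := card_bg_ge (R := R) M g0' hr hGb hL k hx0 hxA
    -- the sum over all gluings with a common root
    have k3 : ∑' s : Gluing (Fin (n + 1)) (Fin (n + 1)), (if s.1 (Sum.inl 0) (Sum.inr 0) then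
          cnt M.pres M.y (glueSet s (chainG (2 * r) (tt d c r) G (boxE k R 0) n)
            (chainG (2 * r) (tt d c r) G (boxE k R 0) n)) ω else 0) ≤
        ENNReal.ofReal (2 * m ^ (2 * n) * (m / (m - 1))) * (R : ℝ≥0∞) ^ d +
          ENNReal.ofReal ((m - 1) / (100 * m)) * (R : ℝ≥0∞) ^ d := by
      refine le_trans ?_ (add_le_add g3' g4')
      rw [← ENNReal.tsum_add]
      refine ENNReal.tsum_le_tsum fun s => ?_
      by_cases hs1 : s.1 (Sum.inl 0) (Sum.inr 0)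
      · rw [if_pos hs1]
        by_cases hs2 : s ∈ BadG n
        · rw [if_pos hs2]
          exact le_add_self
        · rw [if_pos (⟨hs1, hs2⟩ : s.1 (Sum.inl 0) (Sum.inr 0) ∧ s ∉ BadG n)]
          exact le_self_add
      · rw [if_neg hs1]
        exact bot_le
    have hN : (((M.bg r (tt d c r) ⌈m ^ n / 8⌉₊ R (CD * n ^ 2 * R) k ω).card : ℕ) : ℝ≥0∞) ≤
        ENNReal.ofReal ((m - 1) / (100 * m) * D) := by
      rw [← ENNReal.ofReal_natCast]
      exact ENNReal.ofReal_le_ofReal hω'.le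
    have k4 := g1'.trans (k1.trans (add_le_add (mul_le_mul' le_rfl g2')
      (ENNReal.rpow_le_rpow (mul_le_mul' (add_le_add (k2.trans hN) g4') k3)
        (show (0 : ℝ) ≤ 1 / 2 by norm_num))))
    rw [mul_zero, add_zero, hDe, ← ENNReal.ofReal_mul (by positivity),
      ← ENNReal.ofReal_mul (by positivity), ← ENNReal.ofReal_mul (by positivity),
      ← ENNReal.ofReal_add (by positivity) (by positivity),
      ← ENNReal.ofReal_add (by positivity) (by positivity),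
      ← ENNReal.ofReal_mul (by positivity),
      ENNReal.ofReal_rpow_of_nonneg (by positivity) (by norm_num)] at k4
    have h2D : (2 : ℝ≥0∞) * ENNReal.ofReal D = ENNReal.ofReal (2 * D) := by
      rw [ENNReal.ofReal_mul (by norm_num), ENNReal.ofReal_ofNat]
    rw [h2D, ← ENNReal.ofReal_mul (by positivity),
      ← ENNReal.ofReal_add (by positivity) (by positivity),
      ENNReal.ofReal_le_ofReal_iff (by positivity)] at k4
    exact bigp_real hm hD n k4
  refine (measure_mono hsub).trans ?_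
  refine (measure_union_le _ _).trans ?_
  rw [f0, zero_add]
  refine (measure_union_le _ _).trans ?_
  refine (add_le_add f1 ((measure_union_le _ _).trans
    (add_le_add f2 ((measure_union_le _ _).trans (add_le_add f3 f4))))).trans ?_
  have h4 : η / 4 + (η / 4 + (η / 4 + η / 4)) = 4 * (η / 4) := by ring
  rw [h4, ENNReal.mul_div_cancel (by norm_num) (by norm_num)]

end WSP
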