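import Pool.Agent.Lib_MP_c175fd.Win

/-!
# Pieces SIG, CONDN: sigma algebras of regions, conditioning on the numbers of points

SIG: `M.sig K` is generated by the numbers of points of the cubes in `K` and by all marks with cube in `K`;
`indep_sig` is `indep_iSup_of_disjoint` for `PM.indep`. A property `Φ (M.J W ω) (M.y · ω)` which is local (only
depends on the marks of `M.J W ω`) and measurable for every fixed value of `M.J W ω` is
`⋃ J, {M.J W ω = J} ∩ {Φ J (M.y · ω)}` (countable union), and `{z | Φ J z}` is the preimage of a measurable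
set under the restriction to `J` (use `extM`), so it is measurable for `M.sig K`.

CONDN: `P {M.J W ω = J, Φ J (y ω)} = P {M.J W ω = J} P {Φ J (y ω)}` by independence of the numbers and the
marks (`PM.indep`), and the law of `(y i)_{i ∈ J}` is the product of the laws (`iIndepFun_iff_map_fun_eq_pi_map`);
sum over `J` (countable; the events are disjoint).
-/

open MeasureTheory ProbabilityTheory Filter Topology
open scoped ENNReal NNReal

namespace WSP

variable {d : ℕ}

/-- Extension of a configuration by a default mark. -/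
noncomputable def extM (J : Finset (Idx d)) (z : J → Mark d) : Idx d → Mark d :=
  fun i => if h : i ∈ J then z ⟨i, h⟩ else (0, default)

theorem condn_extM_of_mem {J : Finset (Idx d)} {z : J → Mark d} {i : Idx d} (h : i ∈ J) :
    extM J z i = z ⟨i, h⟩ := dif_pos h

theorem condn_extM_of_notMem {J : Finset (Idx d)} {z : J → Mark d} {i : Idx d} (h : i ∉ J) :
    extM J z i = (0, default) := dif_neg h

theorem condn_measurable_extM (J : Finset (Idx d)) :
    Measurable (extM J : (J → Mark d) → Idx d → Mark d) := by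
  refine measurable_pi_lambda _ fun i => ?_
  by_cases h : i ∈ J
  · have h1 : (fun z : J → Mark d => extM J z i) = fun z => z ⟨i, h⟩ :=
      funext fun z => condn_extM_of_mem h
    rw [h1]
    exact measurable_pi_apply _
  · have h1 : (fun z : J → Mark d => extM J z i) = fun _ => ((0, default) : Mark d) :=
      funext fun z => condn_extM_of_notMem h
    rw [h1]
    exact measurable_const

namespace PM

variable {Ω : Type*} [MeasurableSpace Ω] {P : Measure Ω} {μ : Measure (Path d)}

/-- The sigma algebra of the cubes in `K`. -/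
def sig (M : PM d P μ) (K : Set (Fin d → ℤ)) : MeasurableSpace Ω :=
  ⨆ s ∈ {s : (Fin d → ℤ) ⊕ Idx d | Sum.elim id Prod.fst s ∈ K},
    Sum.elim (fun k => MeasurableSpace.comap (M.N k) inferInstance)
      (fun i => MeasurableSpace.comap (M.y i) inferInstance) s

theorem condn_le (M : PM d P μ) (s : (Fin d → ℤ) ⊕ Idx d) :
    Sum.elim (fun k => MeasurableSpace.comap (M.N k) inferInstance)
      (fun i => MeasurableSpace.comap (M.y i) inferInstance) s ≤ ‹MeasurableSpace Ω› := by
  rcases s with k | i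
  · exact (M.measN k).comap_le
  · exact (M.measy i).comap_le

theorem sig_le (M : PM d P μ) (K : Set (Fin d → ℤ)) : M.sig K ≤ ‹MeasurableSpace Ω› :=
  iSup₂_le fun s _ => M.condn_le s

theorem sig_mono (M : PM d P μ) {K K' : Set (Fin d → ℤ)} (h : K ⊆ K') : M.sig K ≤ M.sig K' :=
  biSup_mono fun _ hs => h hs

theorem indep_sig (M : PM d P μ) {K K' : Set (Fin d → ℤ)} (h : Disjoint K K') :
    Indep (M.sig K) (M.sig K') P :=
  indep_iSup_of_disjoint M.condn_le M.indep (Disjoint.preimage (Sum.elim id Prod.fst) h)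

theorem condn_N_le (M : PM d P μ) {K : Set (Fin d → ℤ)} {k : Fin d → ℤ} (hk : k ∈ K) :
    MeasurableSpace.comap (M.N k) inferInstance ≤ M.sig K :=
  le_iSup₂_of_le (f := fun (s : (Fin d → ℤ) ⊕ Idx d)
      (_ : s ∈ {s : (Fin d → ℤ) ⊕ Idx d | Sum.elim id Prod.fst s ∈ K}) =>
    (Sum.elim (fun k => MeasurableSpace.comap (M.N k) inferInstance)
      (fun i => MeasurableSpace.comap (M.y i) inferInstance) s : MeasurableSpace Ω))
    (Sum.inl k) hk le_rfl

theorem condn_y_le (M : PM d P μ) {K : Set (Fin d → ℤ)} {i : Idx d} (hi : i.1 ∈ K) :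
    MeasurableSpace.comap (M.y i) inferInstance ≤ M.sig K :=
  le_iSup₂_of_le (f := fun (s : (Fin d → ℤ) ⊕ Idx d)
      (_ : s ∈ {s : (Fin d → ℤ) ⊕ Idx d | Sum.elim id Prod.fst s ∈ K}) =>
    (Sum.elim (fun k => MeasurableSpace.comap (M.N k) inferInstance)
      (fun i => MeasurableSpace.comap (M.y i) inferInstance) s : MeasurableSpace Ω))
    (Sum.inr i) hi le_rfl

end PM

namespace PM

section

variable {Ω : Type*} {m : MeasurableSpace Ω} [mΩ : MeasurableSpace Ω] {P : Measure Ω}
  {μ : Measure (Path d)}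

omit m in
theorem condn_J_eq (M : PM d P μ) (W : Finset (Fin d → ℤ)) (J : Finset (Idx d)) :
    {ω | M.J W ω = J} = ⋂ i : Idx d, {ω | (i.1 ∈ W ∧ i.2 < M.N i.1 ω) ↔ i ∈ J} := by
  ext ω
  simp only [Set.mem_ofPred_eq, Set.mem_iInter, Finset.ext_iff, mem_J]

/-- The event `M.J W ω = J` is measurable for a sigma algebra for which the numbers are. -/
theorem condn_measurable_J (M : PM d P μ) (W : Finset (Fin d → ℤ)) (J : Finset (Idx d))
    (hm : ∀ k ∈ W, MeasurableSpace.comap (M.N k) inferInstance ≤ m) :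
    MeasurableSet[m] {ω | M.J W ω = J} := by
  rw [condn_J_eq]
  refine @MeasurableSet.iInter Ω (Idx d) m _ _ fun i => ?_
  by_cases hi : i.1 ∈ W
  · refine hm _ hi _ ⟨{n : ℕ | i.2 < n ↔ i ∈ J}, MeasurableSet.of_discrete, ?_⟩
    ext ω
    simp [hi]
  · by_cases hJ : i ∈ J
    · have : {ω | (i.1 ∈ W ∧ i.2 < M.N i.1 ω) ↔ i ∈ J} = ∅ := by
        ext ω
        simp [hi, hJ]
      rw [this]
      exact @MeasurableSet.empty Ω m
    · have : {ω | (i.1 ∈ W ∧ i.2 < M.N i.1 ω) ↔ i ∈ J} = Set.univ := by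
        ext ω
        simp [hi, hJ]
      rw [this]
      exact @MeasurableSet.univ Ω m

/-- Events described by the marks of `J`. -/
theorem condn_measurable_y (M : PM d P μ) {Φ : Finset (Idx d) → (Idx d → Mark d) → Prop}
    (hloc : ∀ J z z', (∀ i ∈ J, z i = z' i) → Φ J z → Φ J z')
    (hmeas : ∀ J, MeasurableSet {z | Φ J z}) (J : Finset (Idx d))
    (hm : ∀ i ∈ J, MeasurableSpace.comap (M.y i) inferInstance ≤ m) :
    MeasurableSet[m] {ω | Φ J fun i => M.y i ω} := by
  have h1 : {ω | Φ J fun i => M.y i ω} =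
      (fun ω => (fun i : J => M.y i ω)) ⁻¹' (extM J ⁻¹' {z | Φ J z}) := by
    ext ω
    simp only [Set.mem_ofPred_eq, Set.mem_preimage]
    constructor
    · exact hloc J _ _ fun i hi =>
        (condn_extM_of_mem (z := fun i : J => M.y i ω) hi).symm
    · exact hloc J _ _ fun i hi => condn_extM_of_mem (z := fun i : J => M.y i ω) hi
  rw [h1]
  have h2 : @Measurable Ω (J → Mark d) m _ (fun ω => (fun i : J => M.y i ω)) := by
    refine @measurable_pi_lambda Ω J (fun _ => Mark d) m _ _ fun i => ?_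
    exact Measurable.of_comap_le (hm i i.2)
  exact h2 (condn_measurable_extM J (hmeas J))

end

end PM

namespace PM

variable {Ω : Type*} [MeasurableSpace Ω] {P : Measure Ω} {μ : Measure (Path d)}

theorem measurableSet_local (M : PM d P μ) {W : Finset (Fin d → ℤ)}
    {Φ : Finset (Idx d) → (Idx d → Mark d) → Prop}
    (hloc : ∀ J z z', (∀ i ∈ J, z i = z' i) → Φ J z → Φ J z')
    (hmeas : ∀ J, MeasurableSet {z | Φ J z}) {K : Set (Fin d → ℤ)} (hK : (W : Set (Fin d → ℤ)) ⊆ K) :
    MeasurableSet[M.sig K] {ω | Φ (M.J W ω) fun i => M.y i ω} := by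
  have h1 : {ω | Φ (M.J W ω) fun i => M.y i ω} =
      ⋃ J : Finset (Idx d), ({ω | M.J W ω = J} ∩ {ω | Φ J fun i => M.y i ω}) := by
    ext ω
    simp only [Set.mem_ofPred_eq, Set.mem_iUnion, Set.mem_inter_iff]
    constructor
    · intro h
      exact ⟨_, rfl, h⟩
    · rintro ⟨J, rfl, h⟩
      exact h
  rw [h1]
  refine @MeasurableSet.iUnion Ω (Finset (Idx d)) (M.sig K) _ _ fun J => ?_
  by_cases hJ : ∀ i ∈ J, i.1 ∈ W
  · refine @MeasurableSet.inter Ω (M.sig K) _ _ ?_ ?_
    · exact M.condn_measurable_J W J fun k hk => M.condn_N_le (hK hk)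
    · exact M.condn_measurable_y hloc hmeas J fun i hi => M.condn_y_le (hK (hJ i hi))
  · have h2 : {ω | M.J W ω = J} ∩ {ω | Φ J fun i => M.y i ω} = ∅ := by
      refine Set.eq_empty_iff_forall_notMem.2 ?_
      rintro ω ⟨rfl, -⟩
      exact hJ fun i hi => (mem_J.1 hi).1
    rw [h2]
    exact @MeasurableSet.empty Ω (M.sig K)

theorem condn_indepy (M : PM d P μ) (J : Finset (Idx d)) :
    iIndepFun (fun (i : J) => M.y i) P := by
  have h1 : Function.Injective fun i : J => (Sum.inr (i : Idx d) : (Fin d → ℤ) ⊕ Idx d) :=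
    Sum.inr_injective.comp Subtype.val_injective
  exact M.indep.precomp h1

theorem condn_law (M : PM d P μ) [IsProbabilityMeasure P]
    {Φ : Finset (Idx d) → (Idx d → Mark d) → Prop}
    (hloc : ∀ J z z', (∀ i ∈ J, z i = z' i) → Φ J z → Φ J z')
    (hmeas : ∀ J, MeasurableSet {z | Φ J z}) (J : Finset (Idx d)) :
    P {ω | Φ J fun i => M.y i ω} = Measure.pi
      (fun i : J => ((volume : Measure (E d)).restrict (cube (i : Idx d).1)).prod μ)
      {z | Φ J (extM J z)} := by
  have h1 : {ω | Φ J fun i => M.y i ω} =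
      (fun ω => (fun i : J => M.y i ω)) ⁻¹' {z | Φ J (extM J z)} := by
    ext ω
    simp only [Set.mem_ofPred_eq, Set.mem_preimage]
    constructor
    · exact hloc J _ _ fun i hi =>
        (condn_extM_of_mem (z := fun i : J => M.y i ω) hi).symm
    · exact hloc J _ _ fun i hi => condn_extM_of_mem (z := fun i : J => M.y i ω) hi
  have h2 : Measurable fun ω => (fun i : J => M.y i ω) :=
    measurable_pi_lambda _ fun i => M.measy i
  have h3 : MeasurableSet {z : J → Mark d | Φ J (extM J z)} := condn_measurable_extM J (hmeas J)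
  rw [h1, ← Measure.map_apply h2 h3,
    (iIndepFun_iff_map_fun_eq_pi_map (fun i : J => (M.measy i).aemeasurable)).1 (M.condn_indepy J)]
  congr 1
  congr 1
  funext i
  exact M.lawy i

theorem cond_N (M : PM d P μ) [IsProbabilityMeasure P] [IsProbabilityMeasure μ]
    (W : Finset (Fin d → ℤ)) {Φ : Finset (Idx d) → (Idx d → Mark d) → Prop}
    (hloc : ∀ J z z', (∀ i ∈ J, z i = z' i) → Φ J z → Φ J z')
    (hmeas : ∀ J, MeasurableSet {z | Φ J z}) {b : ℝ≥0∞}
    (hb : ∀ J : Finset (Idx d), Measure.pi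
      (fun i : J => ((volume : Measure (E d)).restrict (cube (i : Idx d).1)).prod μ)
      {z | Φ J (extM J z)} ≤ b) :
    P {ω | Φ (M.J W ω) fun i => M.y i ω} ≤ b := by
  have h1 : {ω | Φ (M.J W ω) fun i => M.y i ω} =
      ⋃ J : Finset (Idx d), ({ω | M.J W ω = J} ∩ {ω | Φ J fun i => M.y i ω}) := by
    ext ω
    simp only [Set.mem_ofPred_eq, Set.mem_iUnion, Set.mem_inter_iff]
    constructor
    · intro h
      exact ⟨_, rfl, h⟩
    · rintro ⟨J, rfl, h⟩
      exact h
  -- independence of the numbers and the marks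
  have hdis : Disjoint (Set.range (Sum.inl : (Fin d → ℤ) → (Fin d → ℤ) ⊕ Idx d))
      (Set.range (Sum.inr : Idx d → (Fin d → ℤ) ⊕ Idx d)) := by
    rw [Set.disjoint_left]
    rintro _ ⟨k, rfl⟩ ⟨i, hi⟩
    exact Sum.inr_ne_inl hi
  have hind := indep_iSup_of_disjoint M.condn_le M.indep hdis
  have h2 : ∀ J : Finset (Idx d), P ({ω | M.J W ω = J} ∩ {ω | Φ J fun i => M.y i ω}) =
      P {ω | M.J W ω = J} * P {ω | Φ J fun i => M.y i ω} := by
    intro J
    refine (Indep_iff _ _ _).1 hind _ _ ?_ ?_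
    · refine M.condn_measurable_J W J fun k _ => ?_
      exact le_iSup₂_of_le (f := fun (s : (Fin d → ℤ) ⊕ Idx d)
          (_ : s ∈ Set.range (Sum.inl : (Fin d → ℤ) → (Fin d → ℤ) ⊕ Idx d)) =>
        (Sum.elim (fun k => MeasurableSpace.comap (M.N k) inferInstance)
          (fun i => MeasurableSpace.comap (M.y i) inferInstance) s : MeasurableSpace Ω))
        (Sum.inl k) ⟨k, rfl⟩ le_rfl
    · refine M.condn_measurable_y hloc hmeas J fun i _ => ?_
      exact le_iSup₂_of_le (f := fun (s : (Fin d → ℤ) ⊕ Idx d)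
          (_ : s ∈ Set.range (Sum.inr : Idx d → (Fin d → ℤ) ⊕ Idx d)) =>
        (Sum.elim (fun k => MeasurableSpace.comap (M.N k) inferInstance)
          (fun i => MeasurableSpace.comap (M.y i) inferInstance) s : MeasurableSpace Ω))
        (Sum.inr i) ⟨i, rfl⟩ le_rfl
  have hJm : ∀ J : Finset (Idx d), MeasurableSet {ω | M.J W ω = J} := fun J =>
    M.condn_measurable_J W J fun k _ => (M.measN k).comap_le
  rw [h1]
  calc P (⋃ J : Finset (Idx d), ({ω | M.J W ω = J} ∩ {ω | Φ J fun i => M.y i ω}))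
      ≤ ∑' J : Finset (Idx d), P ({ω | M.J W ω = J} ∩ {ω | Φ J fun i => M.y i ω}) :=
        measure_iUnion_le _
    _ ≤ ∑' J : Finset (Idx d), P {ω | M.J W ω = J} * b := by
        refine ENNReal.tsum_le_tsum fun J => ?_
        rw [h2 J, M.condn_law hloc hmeas J]
        exact mul_le_mul' le_rfl (hb J)
    _ = (∑' J : Finset (Idx d), P {ω | M.J W ω = J}) * b := ENNReal.tsum_mul_right
    _ = P (⋃ J : Finset (Idx d), {ω | M.J W ω = J}) * b := by
        rw [measure_iUnion _ hJm]
        intro J J' hJJ'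
        refine Set.disjoint_left.2 fun ω h3 h4 => hJJ' ?_
        have h3' : M.J W ω = J := h3
        have h4' : M.J W ω = J' := h4
        rw [← h3', h4']
    _ ≤ 1 * b := mul_le_mul' prob_le_one le_rfl
    _ = b := one_mul b

end PM

end WSP
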