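import Pool.Agent.Lib_MP_c175fd.PercApply
import Pool.Agent.Lib_MP_c175fd.CondN

/-!
# Piece BLOCKMEAS: measurability of the good events

`goodPair` is `{ω | Φ (M.J (win k R L') ω) (M.y · ω)}` with a local measurable `Φ` (`bg_eq_bigF`,
`measurableSet_block`, `bigF_congr`), so it is measurable for `M.sig K` as soon as `win k R L' ⊆ K`
(`measurableSet_local`). For `k = cor d R α`, `L' = D' R` the elements `k'` of the window satisfy
`R α.1 - D' R ≤ k' 0 < R α.1 + R + D' R`, so the block index `(k' 0 / R, k' 1 / R)` (floor division) of its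
cubes is at sup distance at most `D'` from `α`.
-/

open MeasureTheory ProbabilityTheory Filter Topology
open scoped ENNReal NNReal

namespace WSP

variable {d : ℕ}

/-- The cubes whose block index belongs to `S`. -/
def cubesOf (hd : 4 ≤ d) (R : ℕ) (S : Set (ℤ × ℤ)) : Set (Fin d → ℤ) :=
  {k | (k ⟨0, by omega⟩ / (R : ℤ), k ⟨1, by omega⟩ / (R : ℤ)) ∈ S}

variable {Ω : Type*} [MeasurableSpace Ω] {P : Measure Ω} {μ : Measure (Path d)}

/-- The good event of a pair as a function of the configuration in a window. -/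
def goodF (r : ℝ) (t₁ t : ℝ≥0) (A R L : ℕ) (ρ δ : ℝ) (k k' : Fin d → ℤ) (J : Finset (Idx d))
    (z : Idx d → Mark d) : Prop :=
  ρ * (R : ℝ) ^ d ≤ ((bigF J z r t₁ A R L k).card : ℝ) ∧
    ρ * (R : ℝ) ^ d ≤ ((bigF J z r t₁ A R L k').card : ℝ) ∧
    ¬ Split J (bigF J z r t₁ A R L k ∪ bigF J z r t₁ A R L k') z r t (δ * (R : ℝ) ^ d)

theorem blockmeas_congr (r : ℝ) (t₁ t : ℝ≥0) (A R L : ℕ) (ρ δ : ℝ) (k k' : Fin d → ℤ)
    (J : Finset (Idx d)) (z z' : Idx d → Mark d) (h : ∀ i ∈ J, z i = z' i)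
    (hz : goodF r t₁ t A R L ρ δ k k' J z) : goodF r t₁ t A R L ρ δ k k' J z' := by
  obtain ⟨h1, h2, h3⟩ := hz
  unfold goodF
  rw [← bigF_congr h, ← bigF_congr h]
  exact ⟨h1, h2, fun hs => h3 (split_congr (fun i hi => (h i hi).symm) hs)⟩

theorem blockmeas_meas (r : ℝ) (t₁ t : ℝ≥0) (A R L : ℕ) (ρ δ : ℝ) (k k' : Fin d → ℤ)
    (J : Finset (Idx d)) : MeasurableSet {z | goodF r t₁ t A R L ρ δ k k' J z} :=
  measurableSet_block J r t₁ t A R L k k' fun B B' conn =>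
    ρ * (R : ℝ) ^ d ≤ (B.card : ℝ) ∧ ρ * (R : ℝ) ^ d ≤ (B'.card : ℝ) ∧
      ¬ ∃ S ⊆ B ∪ B', (∀ b ∈ S, ∀ b' ∈ (B ∪ B') \ S, ¬ conn b b') ∧
        δ * (R : ℝ) ^ d ≤ (S.card : ℝ) ∧ δ * (R : ℝ) ^ d ≤ (((B ∪ B') \ S).card : ℝ)

theorem measurableSet_goodPair (M : PM d P μ) (r : ℝ) (t₁ t : ℝ≥0) (A R L L' : ℕ) (ρ δ : ℝ)
    {k k' : Fin d → ℤ} (hL : win k R L ⊆ win k R L') (hL' : win k' R L ⊆ win k R L')
    {K : Set (Fin d → ℤ)} (hK : (win k R L' : Set (Fin d → ℤ)) ⊆ K) :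
    MeasurableSet[M.sig K] (M.goodPair r t₁ t A R L L' ρ δ k k') := by
  have h := M.measurableSet_local (blockmeas_congr r t₁ t A R L ρ δ k k')
    (blockmeas_meas r t₁ t A R L ρ δ k k') hK
  have he : M.goodPair r t₁ t A R L L' ρ δ k k' =
      {ω | goodF r t₁ t A R L ρ δ k k' (M.J (win k R L') ω) fun i => M.y i ω} := by
    ext ω
    simp only [PM.goodPair, goodF, Set.mem_ofPred_eq]
    rw [bg_eq_bigF M r t₁ A R L hL ω, bg_eq_bigF M r t₁ A R L hL' ω]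
  rw [he]
  exact h

/-- The window of a block only meets blocks at sup distance at most `D + 1`. -/
theorem blockmeas_win_subset (hd : 4 ≤ d) (D : ℕ) {R : ℕ} (hR : 0 < R) (α : ℤ × ℤ) :
    (win (cor d R α) R ((D + 1) * R) : Set (Fin d → ℤ)) ⊆ cubesOf hd R
      {β | |β.1 - α.1| ≤ ((D + 1 : ℕ) : ℤ) ∧ |β.2 - α.2| ≤ ((D + 1 : ℕ) : ℤ)} := by
  have hR' : (0 : ℤ) < R := by exact_mod_cast hR
  have key : ∀ a x : ℤ, (R : ℤ) * a - (((D + 1) * R : ℕ) : ℤ) ≤ x →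
      x < (R : ℤ) * a + R + (((D + 1) * R : ℕ) : ℤ) → |x / (R : ℤ) - a| ≤ ((D + 1 : ℕ) : ℤ) := by
    intro a x h1 h2
    rw [abs_le]
    have h3 : (a - (D + 1 : ℕ)) * (R : ℤ) ≤ x := by
      push_cast at h1 ⊢
      linarith
    have h4 : x < (a + 1 + (D + 1 : ℕ)) * (R : ℤ) := by
      push_cast at h2 ⊢
      linarith
    have h5 := (Int.le_ediv_iff_mul_le hR').2 h3
    have h6 := (Int.ediv_lt_iff_lt_mul hR').2 h4
    constructor <;> linarith
  intro k hk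
  have hk' := mem_win.1 (Finset.mem_coe.1 hk)
  refine ⟨?_, ?_⟩
  · obtain ⟨h1, h2⟩ := hk' ⟨0, by omega⟩
    exact key α.1 _ (by simpa [cor] using h1) (by simpa [cor] using h2)
  · obtain ⟨h1, h2⟩ := hk' ⟨1, by omega⟩
    exact key α.2 _ (by simpa [cor] using h1) (by simpa [cor] using h2)

theorem measurableSet_siteGood (hd : 4 ≤ d) (M : PM d P μ) (r : ℝ) (t₁ t : ℝ≥0) (A D : ℕ)
    {R : ℕ} (hR : 0 < R) (ρ δ : ℝ) (α : ℤ × ℤ) :
    MeasurableSet[M.sig (cubesOf hd R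
      {β | |β.1 - α.1| ≤ ((D + 1 : ℕ) : ℤ) ∧ |β.2 - α.2| ≤ ((D + 1 : ℕ) : ℤ)})]
      (M.siteGood r t₁ t A R (D * R) ((D + 1) * R) ρ δ α) := by
  have hK := blockmeas_win_subset hd D hR α
  have h0 : win (cor d R α) R (D * R) ⊆ win (cor d R α) R ((D + 1) * R) :=
    win_mono _ _ (Nat.mul_le_mul_right R (Nat.le_succ D))
  have hD : (D + 1) * R = R + D * R := by ring
  have h1 : win (cor d R (α + (1, 0))) R (D * R) ⊆ win (cor d R α) R ((D + 1) * R) := by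
    rw [hD]
    exact win_subset (cor_near d R α).1
  have h2 : win (cor d R (α + (0, 1))) R (D * R) ⊆ win (cor d R α) R ((D + 1) * R) := by
    rw [hD]
    exact win_subset (cor_near d R α).2
  exact @MeasurableSet.inter Ω (M.sig _) _ _
    (measurableSet_goodPair M r t₁ t A R (D * R) ((D + 1) * R) ρ δ h0 h1 hK)
    (measurableSet_goodPair M r t₁ t A R (D * R) ((D + 1) * R) ρ δ h0 h2 hK)

end WSP
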