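import Pool.Agent.Lib_MP_c175fd.MarkovWB

/-!
# Piece WIENERK: independence of disjoint blocks of a Brownian path

Apply `map_stop_shift` two or three times: for `i < j` write `w` as the path stopped at `(i+1) τ` and the
increments after `(i+1) τ`; `stop τ (shift (i * τ) w)` is a function of `stop ((i+1) * τ) w`
(`stop_shift_stop`) with law `μ.map (stop τ)` (`map_shift`); `stop τ (shift (j * τ) w)` is a function of
`shift ((i+1) τ) w` (`shift_shift`). For the gap version split the shifted path again at time
`(j - i - 1) τ`. For `j < i` exchange the coordinates.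
-/

open MeasureTheory ProbabilityTheory Filter Topology
open scoped ENNReal NNReal

namespace WSP

variable {d : ℕ}

/-- Functions of the path stopped at `a` and of the increments after `a` are independent. -/
theorem IsWiener.blocksW_aux {μ : Measure (Path d)} (h : IsWiener μ) (a : ℝ≥0) {α β : Type*}
    [MeasurableSpace α] [MeasurableSpace β] {F : Path d → α} {K : Path d → β}
    (hF : Measurable F) (hK : Measurable K) :
    μ.map (fun w => (F (stop a w), K (shift a w))) =
      (μ.map (fun w => F (stop a w))).prod (μ.map K) := by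
  haveI := h.isProb
  haveI : IsProbabilityMeasure (μ.map (stop a)) :=
    Measure.isProbabilityMeasure_map (measurable_stop a).aemeasurable
  have h1 : (fun w : Path d => (F (stop a w), K (shift a w))) =
      Prod.map F K ∘ (fun w => (stop a w, shift a w)) := rfl
  have h2 : Measurable (fun w : Path d => (stop a w, shift a w)) :=
    (measurable_stop a).prodMk (measurable_shift a)
  have h3 : (fun w : Path d => F (stop a w)) = F ∘ stop a := rfl
  rw [h1, ← Measure.map_map (hF.prodMap hK) h2, h.map_stop_shift, ← Measure.map_prod_map _ _ hF hK,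
    h3, Measure.map_map hF (measurable_stop a)]

/-- the law of a block -/
theorem IsWiener.blocksW_law {μ : Measure (Path d)} (h : IsWiener μ) (a τ : ℝ≥0) :
    μ.map (fun w => stop τ (shift a w)) = μ.map (stop τ) := by
  have h1 : (fun w : Path d => stop τ (shift a w)) = stop τ ∘ shift a := rfl
  rw [h1, ← Measure.map_map (measurable_stop τ) (measurable_shift a), h.map_shift]

/-- the case `i < j` -/
theorem IsWiener.blocksW_lt {μ : Measure (Path d)} (h : IsWiener μ) (τ : ℝ≥0) {i j : ℕ}
    (hij : i < j) :
    μ.map (fun w => (stop τ (shift (i * τ) w), stop τ (shift (j * τ) w))) =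
      (μ.map (stop τ)).prod (μ.map (stop τ)) := by
  obtain ⟨g, rfl⟩ := Nat.exists_eq_add_of_lt hij
  have e1 : ∀ w : Path d, stop τ (shift (i * τ) w) =
      stop τ (shift (i * τ) (stop ((i + 1) * τ) w)) := by
    intro w
    have : ((i : ℝ≥0) + 1) * τ = i * τ + τ := by ring
    rw [this, stop_shift_stop]
  have e2 : ∀ w : Path d, shift (((i + g + 1 : ℕ) : ℝ≥0) * τ) w =
      shift (g * τ) (shift ((i + 1) * τ) w) := by
    intro w
    rw [shift_shift]
    congr 1
    push_cast
    ring
  have h1 : (fun w : Path d => (stop τ (shift (i * τ) w),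
      stop τ (shift (((i + g + 1 : ℕ) : ℝ≥0) * τ) w))) =
      fun w => ((fun p => stop τ (shift (i * τ) p)) (stop ((i + 1) * τ) w),
        (fun p => stop τ (shift (g * τ) p)) (shift ((i + 1) * τ) w)) := by
    funext w
    show (stop τ (shift (i * τ) w), stop τ (shift (((i + g + 1 : ℕ) : ℝ≥0) * τ) w)) =
      (stop τ (shift (i * τ) (stop ((i + 1) * τ) w)),
        stop τ (shift (g * τ) (shift ((i + 1) * τ) w)))
    rw [← e1, ← e2]
  have m1 : ∀ a : ℝ≥0, Measurable (fun p : Path d => stop τ (shift a p)) :=
    fun a => (measurable_stop τ).comp (measurable_shift a)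
  rw [h1, h.blocksW_aux _ (m1 _) (m1 _), h.blocksW_law]
  congr 1
  have h2 : (fun w : Path d => (fun p => stop τ (shift (i * τ) p)) (stop ((i + 1) * τ) w)) =
      fun w => stop τ (shift (i * τ) w) := by
    funext w
    exact (e1 w).symm
  rw [h2, h.blocksW_law]

/-- Two different blocks of length `τ` are independent and have the law of the first block. -/
theorem IsWiener.map_blocks {μ : Measure (Path d)} (h : IsWiener μ) (τ : ℝ≥0) {i j : ℕ}
    (hij : i ≠ j) :
    μ.map (fun w => (stop τ (shift (i * τ) w), stop τ (shift (j * τ) w))) =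
      (μ.map (stop τ)).prod (μ.map (stop τ)) := by
  rcases lt_or_gt_of_ne hij with hlt | hlt
  · exact h.blocksW_lt τ hlt
  · haveI := h.isProb
    haveI : IsProbabilityMeasure (μ.map (stop τ)) :=
      Measure.isProbabilityMeasure_map (measurable_stop τ).aemeasurable
    have h1 := h.blocksW_lt τ hlt
    have m1 : ∀ a : ℝ≥0, Measurable (fun p : Path d => stop τ (shift a p)) :=
      fun a => (measurable_stop τ).comp (measurable_shift a)
    have h2 : (fun w : Path d => (stop τ (shift (i * τ) w), stop τ (shift (j * τ) w))) =
        Prod.swap ∘ (fun w => (stop τ (shift (j * τ) w), stop τ (shift (i * τ) w))) := rfl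
    rw [h2, ← Measure.map_map measurable_swap ((m1 _).prodMk (m1 _)), h1, Measure.prod_swap]

/-- Two blocks of length `τ` separated by at least one block, and the increment between them, are
independent; the increment has the law of `w ((j - i - 1) τ)`. -/
theorem IsWiener.map_blocks_gap {μ : Measure (Path d)} (h : IsWiener μ) (τ : ℝ≥0) {i j : ℕ}
    (hij : i + 2 ≤ j) :
    μ.map (fun w => ((stop τ (shift (i * τ) w), stop τ (shift (j * τ) w)),
        w (j * τ) - w ((i + 1) * τ))) =
      ((μ.map (stop τ)).prod (μ.map (stop τ))).prod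
        (μ.map (fun w => w (((j - i - 1 : ℕ) : ℝ≥0) * τ))) := by
  haveI := h.isProb
  haveI : IsProbabilityMeasure (μ.map (stop τ)) :=
    Measure.isProbabilityMeasure_map (measurable_stop τ).aemeasurable
  obtain ⟨g, rfl⟩ := Nat.exists_eq_add_of_lt (show i < j by omega)
  have hg : i + g + 1 - i - 1 = g := by omega
  rw [hg]
  set b : ℝ≥0 := (g : ℝ≥0) * τ with hb
  have m1 : ∀ a : ℝ≥0, Measurable (fun p : Path d => stop τ (shift a p)) :=
    fun a => (measurable_stop τ).comp (measurable_shift a)
  haveI : IsProbabilityMeasure (μ.map (fun w : Path d => w b)) :=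
    Measure.isProbabilityMeasure_map (measurable_eval b).aemeasurable
  have e1 : ∀ w : Path d, stop τ (shift (i * τ) w) =
      stop τ (shift (i * τ) (stop ((i + 1) * τ) w)) := by
    intro w
    have : ((i : ℝ≥0) + 1) * τ = i * τ + τ := by ring
    rw [this, stop_shift_stop]
  have e0 : ((i + g + 1 : ℕ) : ℝ≥0) * τ = (i + 1) * τ + b := by
    rw [hb]
    push_cast
    ring
  have e2 : ∀ w : Path d, shift (((i + g + 1 : ℕ) : ℝ≥0) * τ) w =
      shift b (shift ((i + 1) * τ) w) := by
    intro w
    rw [shift_shift, e0]
  have e3 : ∀ w : Path d, w (((i + g + 1 : ℕ) : ℝ≥0) * τ) - w ((i + 1) * τ) =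
      shift ((i + 1) * τ) w b := by
    intro w
    rw [shift_apply, e0]
  -- the law of the later block together with the increment
  have hH : μ.map (fun u : Path d => (stop τ (shift b u), u b)) =
      (μ.map (stop τ)).prod (μ.map (fun w => w b)) := by
    have h2 : (fun u : Path d => (stop τ (shift b u), u b)) =
        Prod.swap ∘ (fun u => ((fun p : Path d => p b) (stop b u), stop τ (shift b u))) := by
      funext u
      show (stop τ (shift b u), u b) = (stop τ (shift b u), u (min b b))
      rw [min_self]
    have h3 : (fun w : Path d => (fun p : Path d => p b) (stop b w)) = fun w => w b := by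
      funext u
      show u (min b b) = u b
      rw [min_self]
    have mm : Measurable (fun u : Path d =>
        ((fun p : Path d => p b) (stop b u), stop τ (shift b u))) :=
      ((measurable_eval b).comp (measurable_stop b)).prodMk (m1 b)
    rw [h2, ← Measure.map_map measurable_swap mm,
      h.blocksW_aux b (measurable_eval b) (measurable_stop τ), Measure.prod_swap, h3]
  -- the law in the other association
  have hA : μ.map (fun w : Path d => (stop τ (shift (i * τ) w),
      (stop τ (shift (((i + g + 1 : ℕ) : ℝ≥0) * τ) w),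
        w (((i + g + 1 : ℕ) : ℝ≥0) * τ) - w ((i + 1) * τ)))) =
      (μ.map (stop τ)).prod ((μ.map (stop τ)).prod (μ.map (fun w => w b))) := by
    have h1 : (fun w : Path d => (stop τ (shift (i * τ) w),
        (stop τ (shift (((i + g + 1 : ℕ) : ℝ≥0) * τ) w),
          w (((i + g + 1 : ℕ) : ℝ≥0) * τ) - w ((i + 1) * τ)))) =
        fun w => ((fun p => stop τ (shift (i * τ) p)) (stop ((i + 1) * τ) w),
          (fun u : Path d => (stop τ (shift b u), u b)) (shift ((i + 1) * τ) w)) := by
      funext w
      show (stop τ (shift (i * τ) w), (stop τ (shift (((i + g + 1 : ℕ) : ℝ≥0) * τ) w),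
          w (((i + g + 1 : ℕ) : ℝ≥0) * τ) - w ((i + 1) * τ))) =
        (stop τ (shift (i * τ) (stop ((i + 1) * τ) w)),
          (stop τ (shift b (shift ((i + 1) * τ) w)), shift ((i + 1) * τ) w b))
      rw [← e1, ← e2, ← e3]
    have h2 : (fun w : Path d => (fun p => stop τ (shift (i * τ) p)) (stop ((i + 1) * τ) w)) =
        fun w => stop τ (shift (i * τ) w) := by
      funext w
      exact (e1 w).symm
    rw [h1, h.blocksW_aux _ (m1 _) ((m1 _).prodMk (measurable_eval b)), hH, h2, h.blocksW_law]
  have mev : Measurable (fun w : Path d => w (((i + g + 1 : ℕ) : ℝ≥0) * τ) - w ((i + 1) * τ)) :=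
    (measurable_eval _).sub (measurable_eval _)
  refine (MeasurableEquiv.map_measurableEquiv_injective
    (MeasurableEquiv.prodAssoc (α := Path d) (β := Path d) (γ := E d))) ?_
  rw [Measure.map_map (MeasurableEquiv.measurable _) (((m1 _).prodMk (m1 _)).prodMk mev),
    Measure.prodAssoc_prod, ← hA]
  rfl

end WSP
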