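import Pool.Agent.Lib_MP_c175fd.Acyc
import Pool.Agent.Lib_MP_c175fd.KBasic

/-!
# Piece CHAING: good chains

`G` is a set of good paths. `relG` is the relation good and meeting. The lower bound of the measure of the
chains is by induction on `n`, integrating the last vertex
(`nuM μ {y' | relG ρ t G y y'} = ∫ w' in G, Vol ρ t t y.2 w'` if `y.2 ∈ G`: Tonelli and translation
invariance of `volume`).
-/

open MeasureTheory ProbabilityTheory Filter Topology
open scoped ENNReal NNReal

namespace WSP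

variable {d : ℕ}

/-- Good relation. -/
def relG (ρ : ℝ) (t : ℝ≥0) (G : Set (Path d)) (y y' : Mark d) : Prop :=
  y.2 ∈ G ∧ y'.2 ∈ G ∧ hitR ρ t t y y'

/-- Good chains with root in `Q`. -/
def chainG (ρ : ℝ) (t : ℝ≥0) (G : Set (Path d)) (Q : Set (E d)) (n : ℕ) :
    Set (Fin (n + 1) → Mark d) :=
  {z | (z 0).1 ∈ Q ∧ (z 0).2 ∈ G ∧ ∀ i : Fin n, relG ρ t G (z i.castSucc) (z i.succ)}

theorem measurableSet_relG (ρ : ℝ) (t : ℝ≥0) {G : Set (Path d)} (hG : MeasurableSet G) :
    MeasurableSet {p : Mark d × Mark d | relG ρ t G p.1 p.2} := by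
  have h1 : MeasurableSet {p : Mark d × Mark d | p.1.2 ∈ G} :=
    (measurable_snd.comp measurable_fst) hG
  have h2 : MeasurableSet {p : Mark d × Mark d | p.2.2 ∈ G} :=
    (measurable_snd.comp measurable_snd) hG
  exact h1.inter (h2.inter (measurableSet_hitR ρ t t))

theorem relG_symm {ρ : ℝ} {t : ℝ≥0} {G : Set (Path d)} {y y' : Mark d} (h : relG ρ t G y y') :
    relG ρ t G y' y := by
  refine ⟨h.2.1, h.1, ?_⟩
  have h1 : y'.1 - y.1 ∈ Kset ρ t t y.2 y'.2 := h.2.2
  rw [mem_Kset_symm, neg_sub] at h1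
  exact h1

theorem chainG_volume_hit (ρ : ℝ) (t : ℝ≥0) (x : E d) (w w' : Path d) :
    volume {x' : E d | hitR ρ t t (x, w) (x', w')} = Vol ρ t t w w' := by
  have h1 : {x' : E d | hitR ρ t t (x, w) (x', w')} =
      (fun x' => x' - x) ⁻¹' (Kset ρ t t w w') := rfl
  rw [h1, Vol]
  exact (measurePreserving_sub_right volume x).measure_preimage
    (isOpen_Kset ρ t t w w').measurableSet.nullMeasurableSet

theorem nuM_relG {μ : Measure (Path d)} [IsProbabilityMeasure μ] {ρ : ℝ} {t : ℝ≥0}
    {G : Set (Path d)} (hG : MeasurableSet G) {y : Mark d} (hy : y.2 ∈ G) :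
    nuM μ {y' | relG ρ t G y y'} = ∫⁻ w' in G, Vol ρ t t y.2 w' ∂μ := by
  have hm : MeasurableSet {y' : Mark d | relG ρ t G y y'} :=
    measurable_prodMk_left (measurableSet_relG ρ t hG)
  rw [nuM, Measure.prod_apply_symm hm, ← lintegral_indicator hG]
  refine lintegral_congr fun w' => ?_
  by_cases hw : w' ∈ G
  · rw [Set.indicator_of_mem hw, ← chainG_volume_hit ρ t y.1 y.2 w']
    congr 1
    ext x
    exact ⟨fun h => h.2.2, fun h => ⟨hy, hw, h⟩⟩
  · rw [Set.indicator_of_notMem hw]
    have h0 : (fun x : E d => (x, w')) ⁻¹' {y' : Mark d | relG ρ t G y y'} = ∅ := by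
      ext x
      exact ⟨fun h => hw h.2.1, fun h => h.elim⟩
    rw [h0, measure_empty]

theorem nuM_relG_le {μ : Measure (Path d)} [IsProbabilityMeasure μ] {ρ : ℝ} {t : ℝ≥0}
    {G : Set (Path d)} (hG : MeasurableSet G) {M : ℝ≥0∞}
    (hM : ∀ w ∈ G, ∫⁻ w' in G, Vol ρ t t w w' ∂μ ≤ M) (y : Mark d) :
    nuM μ {y' | relG ρ t G y y'} ≤ M := by
  by_cases hy : y.2 ∈ G
  · rw [nuM_relG hG hy]
    exact hM _ hy
  · have h0 : {y' : Mark d | relG ρ t G y y'} = ∅ := by
      ext y'
      exact ⟨fun h => hy h.1, fun h => h.elim⟩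
    rw [h0, measure_empty]
    exact zero_le

theorem measurableSet_chainG (ρ : ℝ) (t : ℝ≥0) {G : Set (Path d)} (hG : MeasurableSet G)
    {Q : Set (E d)} (hQ : MeasurableSet Q) (n : ℕ) : MeasurableSet (chainG ρ t G Q n) := by
  have h1 : MeasurableSet {z : Fin (n + 1) → Mark d | (z 0).1 ∈ Q} :=
    (measurable_fst.comp (measurable_pi_apply 0)) hQ
  have h1' : MeasurableSet {z : Fin (n + 1) → Mark d | (z 0).2 ∈ G} :=
    (measurable_snd.comp (measurable_pi_apply 0)) hG
  have h2 : ∀ i : Fin n, MeasurableSet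
      {z : Fin (n + 1) → Mark d | relG ρ t G (z i.castSucc) (z i.succ)} := fun i => by
    have hm : Measurable fun z : Fin (n + 1) → Mark d => (z i.castSucc, z i.succ) :=
      (measurable_pi_apply i.castSucc).prodMk (measurable_pi_apply i.succ)
    exact hm (measurableSet_relG ρ t hG)
  have h3 : chainG ρ t G Q n = {z : Fin (n + 1) → Mark d | (z 0).1 ∈ Q} ∩
      ({z : Fin (n + 1) → Mark d | (z 0).2 ∈ G} ∩
      ⋂ i : Fin n, {z : Fin (n + 1) → Mark d | relG ρ t G (z i.castSucc) (z i.succ)}) := by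
    ext z
    simp [chainG]
  rw [h3]
  exact h1.inter (h1'.inter (MeasurableSet.iInter h2))

theorem chainG_subset (ρ : ℝ) (t : ℝ≥0) (G : Set (Path d)) (Q : Set (E d)) (n : ℕ) :
    chainG ρ t G Q n ⊆ {z | z 0 ∈ {y : Mark d | y.1 ∈ Q} ∧ Sat (PG n) (relG ρ t G) z} := by
  intro z hz
  refine ⟨hz.1, fun u v huv => ?_⟩
  have key : ∀ u v : Fin (n + 1), u.val + 1 = v.val → relG ρ t G (z u) (z v) := by
    intro u v huv
    have hu : u.val < n := by
      have := v.2
      omega
    have h := hz.2.2 ⟨u.val, hu⟩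
    have e1 : (⟨u.val, hu⟩ : Fin n).castSucc = u := Fin.ext rfl
    have e2 : (⟨u.val, hu⟩ : Fin n).succ = v := Fin.ext huv
    rw [e1, e2] at h
    exact h
  rcases SimpleGraph.pathGraph_adj.1 huv with h | h
  · exact key u v h
  · exact relG_symm (key v u h)

/-- Disintegration of a product measure along the last coordinate. -/
theorem chainG_pi_last {α : Type*} [MeasurableSpace α] (ν : Measure α) [SigmaFinite ν] (n : ℕ)
    {S : Set (Fin (n + 1) → α)} (hS : MeasurableSet S) :
    Measure.pi (fun _ : Fin (n + 1) => ν) S =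
      ∫⁻ z, ν {y | (Fin.snoc z y : Fin (n + 1) → α) ∈ S} ∂(Measure.pi (fun _ : Fin n => ν)) := by
  have h := (measurePreserving_piFinSuccAbove (fun _ : Fin (n + 1) => ν) (Fin.last n)).symm
  rw [← h.measure_preimage hS.nullMeasurableSet,
    Measure.prod_apply_symm ((MeasurableEquiv.measurable _) hS)]
  refine lintegral_congr fun z => ?_
  congr 1
  ext y
  simp only [Set.mem_preimage, MeasurableEquiv.piFinSuccAbove_symm_apply, Fin.insertNthEquiv,
    Equiv.coe_fn_mk, Fin.insertNth_last', Set.mem_ofPred_eq]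

theorem chainG_last {ρ : ℝ} {t : ℝ≥0} {G : Set (Path d)} {Q : Set (E d)} {n : ℕ}
    {z : Fin (n + 1) → Mark d} (hz : z ∈ chainG ρ t G Q n) : (z (Fin.last n)).2 ∈ G := by
  cases n with
  | zero => exact hz.2.1
  | succ k =>
    have h := (hz.2.2 (Fin.last k)).2.1
    rw [Fin.succ_last] at h
    exact h

theorem chainG_ge {μ : Measure (Path d)} [IsProbabilityMeasure μ] {ρ : ℝ} {t : ℝ≥0}
    {G : Set (Path d)} (hG : MeasurableSet G) {m : ℝ≥0∞}
    (hm : ∀ w ∈ G, m ≤ ∫⁻ w' in G, Vol ρ t t w w' ∂μ) {Q : Set (E d)} (hQ : MeasurableSet Q)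
    (n : ℕ) : volume Q * μ G * m ^ n ≤
      Measure.pi (fun _ : Fin (n + 1) => nuM μ) (chainG ρ t G Q n) := by
  induction n with
  | zero =>
    rw [chainG_pi_last _ _ (measurableSet_chainG ρ t hG hQ 0)]
    have h1 : ∀ z : Fin 0 → Mark d,
        nuM μ {y | (Fin.snoc z y : Fin (0 + 1) → Mark d) ∈ chainG ρ t G Q 0} =
        volume Q * μ G := by
      intro z
      rw [← Measure.prod_prod]
      congr 1
      ext y
      have e : (Fin.snoc z y : Fin (0 + 1) → Mark d) 0 = y := by
        have h := Fin.snoc_last (α := fun _ => Mark d) y z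
        exact h
      constructor
      · intro h
        have h1 := h.1
        have h2 := h.2.1
        rw [e] at h1 h2
        exact ⟨h1, h2⟩
      · intro h
        refine ⟨?_, ?_, fun i => i.elim0⟩
        · rw [e]
          exact h.1
        · rw [e]
          exact h.2
    rw [lintegral_congr h1, lintegral_const]
    simp
  | succ n ih =>
    rw [chainG_pi_last _ _ (measurableSet_chainG ρ t hG hQ (n + 1))]
    have h1 : ∀ z : Fin (n + 1) → Mark d,
        Set.indicator (chainG ρ t G Q n) (fun _ => m) z ≤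
        nuM μ {y | (Fin.snoc z y : Fin (n + 1 + 1) → Mark d) ∈ chainG ρ t G Q (n + 1)} := by
      intro z
      by_cases hz : z ∈ chainG ρ t G Q n
      · rw [Set.indicator_of_mem hz]
        refine (hm _ (chainG_last hz)).trans ?_
        rw [← nuM_relG hG (chainG_last hz)]
        refine measure_mono fun y hy => ?_
        have e0 : ∀ i : Fin (n + 1), (Fin.snoc z y : Fin (n + 1 + 1) → Mark d) i.castSucc = z i :=
          fun i => Fin.snoc_castSucc (α := fun _ => Mark d) y z i
        have e1 : (Fin.snoc z y : Fin (n + 1 + 1) → Mark d) (Fin.last (n + 1)) = y :=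
          Fin.snoc_last (α := fun _ => Mark d) y z
        have e2 : (Fin.snoc z y : Fin (n + 1 + 1) → Mark d) 0 = z 0 := by
          have := e0 0
          rwa [Fin.castSucc_zero] at this
        refine ⟨?_, ?_, ?_⟩
        · rw [e2]
          exact hz.1
        · rw [e2]
          exact hz.2.1
        · intro i
          rw [e0]
          refine Fin.lastCases ?_ (fun j => ?_) i
          · rw [Fin.succ_last, e1]
            exact hy
          · rw [Fin.succ_castSucc, e0]
            exact hz.2.2 j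
      · rw [Set.indicator_of_notMem hz]
        exact zero_le
    refine le_trans ?_ (lintegral_mono h1)
    rw [lintegral_indicator_const (measurableSet_chainG ρ t hG hQ n), pow_succ, mul_comm m,
      ← mul_assoc]
    exact mul_le_mul_left ih m

end WSP
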