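import Pool.Agent.Lib_MP_c175fd.WienerA

/-!
# Piece RGMOMENT: moments and tails of the supremum of the path

Proof of `rg_moment`: `rg 1 w ≤ ∑ i, sup_{s ≤ 1} |w s i|`. For one coordinate `B` (a martingale with
`B 1` Gaussian) and `n ≥ 1` the discrete process `k ↦ B (k / 2 ^ n)`, `k ≤ 2 ^ n`, is a martingale with
respect to its natural filtration (independent increments), so `|B (k / 2 ^ n)| ^ q` is a nonnegative
submartingale (or use `|B| ^ q` only through the maximal inequality `maximal_ineq` for `|B|^q`), and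
Doob's maximal inequality (`MeasureTheory.maximal_ineq`) gives
`P (max_k |B (k / 2 ^ n)| ≥ lam) ≤ E |B 1| ^ q / lam ^ q`; let `n → ∞` by continuity of the path.
With `q = p + 1` integrate the tail (`lintegral_rpow_eq_lintegral_meas_le_mul` or a dyadic sum).
An alternative without martingales: the chaining bound
`sup_{s ≤ 1} |B s| ≤ ∑ n, max_{k < 2 ^ n} |B ((k+1) / 2 ^ n) - B (k / 2 ^ n)|` and
`E (max_k |..|) ^ p ≤ ∑ k E |..| ^ p = C 2 ^ (n (1 - p / 2))`, so for `p ≥ 4` the `L ^ p` norms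
`≤ C 2 ^ (n (1 / p - 1 / 2))` are summable (Minkowski, `ENNReal.lintegral_Lp_add_le` or
`eLpNorm_tsum_le`); small `p` from large `p` since `x ^ p ≤ 1 + x ^ q`. This is probably the shortest way.

`rg_tail`: scaling (`rg_eq_scale`, `IsWiener.map_scale`) and Markov's inequality
(`mul_meas_ge_le_lintegral`).
-/

open MeasureTheory ProbabilityTheory Filter Topology
open scoped ENNReal NNReal

namespace WSP

variable {d : ℕ}

/-! ### Deterministic chaining -/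

private lemma rgm_half (c n : ℕ) :
    ((2 * c : ℕ) : ℝ≥0) / 2 ^ (n + 1) = (c : ℝ≥0) / 2 ^ n := by
  push_cast
  rw [pow_succ]
  have h2 : (2 : ℝ≥0) ^ n ≠ 0 := by positivity
  field_simp

private lemma rgm_dyadic (w : Path d) (b : ℕ → ℝ≥0∞)
    (hb : ∀ n k : ℕ, k < 2 ^ n →
      ‖w (((k + 1 : ℕ) : ℝ≥0) / 2 ^ n) - w ((k : ℝ≥0) / 2 ^ n)‖ₑ ≤ b n) (n : ℕ) :
    ∀ k : ℕ, k ≤ 2 ^ n → ‖w ((k : ℝ≥0) / 2 ^ n)‖ₑ ≤ ∑ j ∈ Finset.range (n + 1), b j := by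
  induction n with
  | zero =>
    intro k hk
    simp only [pow_zero] at hk
    rcases Nat.le_one_iff_eq_zero_or_eq_one.1 hk with rfl | rfl
    · simp
    · have := hb 0 0 (by simp)
      simpa using this
  | succ n ih =>
    intro k hk
    rw [Finset.sum_range_succ]
    rcases Nat.even_or_odd' k with ⟨c, rfl | rfl⟩
    · rw [rgm_half]
      have hc : c ≤ 2 ^ n := by rw [pow_succ] at hk; omega
      exact (ih c hc).trans le_self_add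
    · have hc : c < 2 ^ n := by rw [pow_succ] at hk; omega
      have h2 := hb (n + 1) (2 * c) (by rw [pow_succ]; omega)
      rw [rgm_half] at h2
      have h3 : w (((2 * c + 1 : ℕ) : ℝ≥0) / 2 ^ (n + 1)) = w ((c : ℝ≥0) / 2 ^ n) +
          (w (((2 * c + 1 : ℕ) : ℝ≥0) / 2 ^ (n + 1)) - w ((c : ℝ≥0) / 2 ^ n)) := by abel
      rw [h3]
      exact (enorm_add_le _ _).trans (add_le_add (ih c hc.le) h2)

private lemma rgm_sup (w : Path d) (b : ℕ → ℝ≥0∞)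
    (hb : ∀ n k : ℕ, k < 2 ^ n →
      ‖w (((k + 1 : ℕ) : ℝ≥0) / 2 ^ n) - w ((k : ℝ≥0) / 2 ^ n)‖ₑ ≤ b n) {s : ℝ≥0} (hs : s ≤ 1) :
    ‖w s‖ₑ ≤ ∑' j, b j := by
  have hlim : Tendsto (fun n : ℕ => ((⌊(s : ℝ) * 2 ^ n⌋₊ : ℕ) : ℝ≥0) / 2 ^ n) atTop (𝓝 s) := by
    rw [← NNReal.tendsto_coe]
    have h1 := (tendsto_nat_floor_mul_div_atTop (R := ℝ) s.coe_nonneg).comp
      (tendsto_pow_atTop_atTop_of_one_lt (one_lt_two : (1 : ℝ) < 2))
    refine h1.congr fun n => ?_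
    simp
  have h1 : Tendsto (fun n : ℕ => ‖w (((⌊(s : ℝ) * 2 ^ n⌋₊ : ℕ) : ℝ≥0) / 2 ^ n)‖ₑ) atTop
      (𝓝 ‖w s‖ₑ) := ((continuous_enorm.comp w.cont).tendsto s).comp hlim
  refine le_of_tendsto' h1 fun n => ?_
  refine (rgm_dyadic w b hb n _ ?_).trans (ENNReal.sum_le_tsum _)
  have h2 : (s : ℝ) * 2 ^ n ≤ 2 ^ n := by
    have h3 : (s : ℝ) ≤ 1 := by exact_mod_cast hs
    have h4 : (0 : ℝ) ≤ 2 ^ n := by positivity
    nlinarith
  have h5 : ⌊(s : ℝ) * 2 ^ n⌋₊ ≤ ⌊((2 ^ n : ℕ) : ℝ)⌋₊ := Nat.floor_le_floor (by push_cast; exact h2)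
  rwa [Nat.floor_natCast] at h5

/-! ### Moments of the increments -/

private lemma rgm_pow_sum {ι : Type*} (s : Finset ι) (a : ι → ℝ≥0) {q : ℕ} (hq : q ≠ 0) :
    (∑ i ∈ s, a i) ^ q ≤ (s.card : ℝ≥0) ^ q * ∑ i ∈ s, a i ^ q := by
  rcases s.eq_empty_or_nonempty with rfl | hne
  · simp [hq]
  · obtain ⟨i, hi, hmax⟩ := s.exists_max_image a hne
    calc (∑ i ∈ s, a i) ^ q ≤ (s.card • a i) ^ q :=
          pow_le_pow_left' (Finset.sum_le_card_nsmul s a (a i) hmax) q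
      _ = (s.card : ℝ≥0) ^ q * a i ^ q := by rw [nsmul_eq_mul, mul_pow]
      _ ≤ (s.card : ℝ≥0) ^ q * ∑ i ∈ s, a i ^ q := by
          refine mul_le_mul_right ?_ _
          exact Finset.single_le_sum (f := fun i => a i ^ q) (fun _ _ => zero_le) hi

private lemma rgm_norm (x : E d) {q : ℕ} (hq : q ≠ 0) :
    ‖x‖ₑ ^ (2 * q) ≤ (d : ℝ≥0∞) ^ q * ∑ i, ‖x i‖ₑ ^ (2 * q) := by
  have h1 : ‖x‖₊ ^ 2 = ∑ i, ‖x i‖₊ ^ 2 := by
    rw [EuclideanSpace.nnnorm_eq, NNReal.sq_sqrt]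
  have h2 : ‖x‖₊ ^ (2 * q) ≤ (d : ℝ≥0) ^ q * ∑ i, ‖x i‖₊ ^ (2 * q) := by
    rw [pow_mul, h1]
    have h3 := rgm_pow_sum (Finset.univ : Finset (Fin d)) (fun i => ‖x i‖₊ ^ 2) hq
    rw [Finset.card_univ, Fintype.card_fin] at h3
    simpa only [← pow_mul] using h3
  have h3 : ((‖x‖₊ ^ (2 * q) : ℝ≥0) : ℝ≥0∞) ≤
      (((d : ℝ≥0) ^ q * ∑ i, ‖x i‖₊ ^ (2 * q) : ℝ≥0) : ℝ≥0∞) := ENNReal.coe_le_coe.2 h2
  simpa [enorm_eq_nnnorm] using h3

private lemma rgm_gauss (q : ℕ) : ∃ C : ℝ≥0, ∀ v : ℝ≥0,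
    ∫⁻ x, ‖x‖ₑ ^ (2 * q) ∂(gaussianReal 0 v) = C * (v : ℝ≥0∞) ^ q := by
  have hfin : ∫⁻ x, ‖x‖ₑ ^ (2 * q) ∂(gaussianReal 0 1) < ∞ := by
    rcases Nat.eq_zero_or_pos q with rfl | hq
    · simp
    · have h1 : MemLp id ((2 * q : ℕ) : ℝ≥0∞) (gaussianReal 0 1) :=
        memLp_id_gaussianReal' _ (ENNReal.natCast_ne_top _)
      have h2 := lintegral_rpow_enorm_lt_top_of_eLpNorm_lt_top
        (by exact_mod_cast (by omega : 2 * q ≠ 0)) (ENNReal.natCast_ne_top _) h1.eLpNorm_lt_top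
      rw [ENNReal.toReal_natCast] at h2
      simpa only [ENNReal.rpow_natCast, id] using h2
  refine ⟨(∫⁻ x, ‖x‖ₑ ^ (2 * q) ∂(gaussianReal 0 1)).toNNReal, fun v => ?_⟩
  rw [ENNReal.coe_toNNReal hfin.ne]
  have h1 : gaussianReal 0 v = (gaussianReal 0 1).map ((NNReal.sqrt v : ℝ) * ·) := by
    rw [gaussianReal_map_const_mul, mul_zero]
    congr 1
    apply NNReal.eq
    simp
  rw [h1, lintegral_map (by fun_prop) (by fun_prop)]
  have h2 : ∀ x : ℝ, ‖(NNReal.sqrt v : ℝ) * x‖ₑ ^ (2 * q) = (v : ℝ≥0∞) ^ q * ‖x‖ₑ ^ (2 * q) := by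
    intro x
    rw [enorm_mul, mul_pow]
    congr 1
    have h3 : ‖(NNReal.sqrt v : ℝ)‖ₑ = (NNReal.sqrt v : ℝ≥0∞) := by
      rw [enorm_eq_nnnorm]
      congr 1
      exact NNReal.nnnorm_eq _
    rw [h3, pow_mul]
    congr 1
    rw [← ENNReal.coe_pow, NNReal.sq_sqrt]
  rw [lintegral_congr h2, lintegral_const_mul _ (by fun_prop), mul_comm]

private lemma rgm_incr {q : ℕ} (hq : q ≠ 0) {μ : Measure (Path d)} (h : IsWiener μ) :
    ∃ C : ℝ≥0, ∀ s t v : ℝ≥0, s = t + v → ∫⁻ w, ‖w s - w t‖ₑ ^ (2 * q) ∂μ ≤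
      C * (v : ℝ≥0∞) ^ q := by
  obtain ⟨C, hC⟩ := rgm_gauss q
  refine ⟨(d : ℝ≥0) ^ q * (d * C), fun s t v hst => ?_⟩
  have hi : ∀ i : Fin d, ∫⁻ w, ‖(w s - w t) i‖ₑ ^ (2 * q) ∂μ = C * (v : ℝ≥0∞) ^ q := by
    intro i
    have h1 := (h.brown i).hasLaw_sub s t
    have h3 : nndist s.1 t.1 = v := by
      apply NNReal.eq
      rw [coe_nndist, Real.dist_eq, hst]
      simp
    rw [h3] at h1
    rw [← hC v, ← h1.lintegral_comp (f := fun x => ‖x‖ₑ ^ (2 * q)) (by fun_prop)]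
    rfl
  calc ∫⁻ w, ‖w s - w t‖ₑ ^ (2 * q) ∂μ
      ≤ ∫⁻ w, (d : ℝ≥0∞) ^ q * ∑ i, ‖(w s - w t) i‖ₑ ^ (2 * q) ∂μ :=
        lintegral_mono fun w => rgm_norm _ hq
    _ = (d : ℝ≥0∞) ^ q * ∑ i : Fin d, ∫⁻ w, ‖(w s - w t) i‖ₑ ^ (2 * q) ∂μ := by
        have hm : ∀ i : Fin d, Measurable (fun w : Path d => ‖(w s - w t) i‖ₑ ^ (2 * q)) := by
          intro i
          have hc : Continuous (fun x : E d => x i) := (EuclideanSpace.proj (𝕜 := ℝ) i).continuous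
          exact (hc.measurable.comp
            ((measurable_eval (d := d) s).sub (measurable_eval (d := d) t))).enorm.pow_const _
        rw [lintegral_const_mul _ (Finset.measurable_sum _ fun i _ => hm i),
          lintegral_finsetSum _ fun i _ => hm i]
    _ = ((d : ℝ≥0) ^ q * (d * C) : ℝ≥0) * (v : ℝ≥0∞) ^ q := by
        rw [Finset.sum_congr rfl fun i _ => hi i]
        simp only [Finset.sum_const, Finset.card_univ, Fintype.card_fin, nsmul_eq_mul]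
        push_cast
        ring

/-- weighted sum of all dyadic increments -/
private noncomputable def rgm_S (q : ℕ) (w : Path d) : ℝ≥0∞ :=
  ∑' n : ℕ, ((9 / 8 : ℝ≥0) : ℝ≥0∞) ^ (n * (2 * q)) * ∑ k ∈ Finset.range (2 ^ n),
    ‖w (((k + 1 : ℕ) : ℝ≥0) / 2 ^ n) - w ((k : ℝ≥0) / 2 ^ n)‖ₑ ^ (2 * q)

private lemma rgm_S_moment {q : ℕ} (hq : 2 ≤ q) {μ : Measure (Path d)} (h : IsWiener μ) :
    ∫⁻ w, rgm_S q w ∂μ < ∞ := by
  obtain ⟨C, hC⟩ := rgm_incr (by omega : q ≠ 0) h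
  have hm : ∀ n k : ℕ, Measurable (fun w : Path d =>
      ‖w (((k + 1 : ℕ) : ℝ≥0) / 2 ^ n) - w ((k : ℝ≥0) / 2 ^ n)‖ₑ ^ (2 * q)) := by
    intro n k
    exact ((measurable_eval (d := d) (((k + 1 : ℕ) : ℝ≥0) / 2 ^ n)).sub
      (measurable_eval (d := d) ((k : ℝ≥0) / 2 ^ n))).enorm.pow_const _
  have hm2 : ∀ n : ℕ, Measurable (fun w : Path d => ∑ k ∈ Finset.range (2 ^ n),
      ‖w (((k + 1 : ℕ) : ℝ≥0) / 2 ^ n) - w ((k : ℝ≥0) / 2 ^ n)‖ₑ ^ (2 * q)) :=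
    fun n => Finset.measurable_sum _ fun k _ => hm n k
  unfold rgm_S
  rw [lintegral_tsum fun n => ((hm2 n).const_mul _).aemeasurable]
  have hterm : ∀ n : ℕ, ∫⁻ w, ((9 / 8 : ℝ≥0) : ℝ≥0∞) ^ (n * (2 * q)) *
      ∑ k ∈ Finset.range (2 ^ n),
        ‖w (((k + 1 : ℕ) : ℝ≥0) / 2 ^ n) - w ((k : ℝ≥0) / 2 ^ n)‖ₑ ^ (2 * q) ∂μ ≤
      (C : ℝ≥0∞) * ((6561 / 8192 : ℝ≥0) : ℝ≥0∞) ^ n := by
    intro n
    rw [lintegral_const_mul _ (hm2 n), lintegral_finsetSum _ fun k _ => hm n k]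
    have h1 : ∀ k ∈ Finset.range (2 ^ n),
        ∫⁻ w, ‖w (((k + 1 : ℕ) : ℝ≥0) / 2 ^ n) - w ((k : ℝ≥0) / 2 ^ n)‖ₑ ^ (2 * q) ∂μ ≤
        (C : ℝ≥0∞) * (((1 : ℝ≥0) / 2 ^ n : ℝ≥0) : ℝ≥0∞) ^ q := fun k _ =>
      hC _ _ ((1 : ℝ≥0) / 2 ^ n) (by push_cast; rw [add_div])
    refine (mul_le_mul_right (Finset.sum_le_sum h1) _).trans ?_
    rw [Finset.sum_const, Finset.card_range, nsmul_eq_mul]
    have h2 : (9 / 8 : ℝ≥0) ^ (n * (2 * q)) * (((2 ^ n : ℕ) : ℝ≥0) *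
        (C * ((1 : ℝ≥0) / 2 ^ n) ^ q)) ≤ C * (6561 / 8192 : ℝ≥0) ^ n := by
      have h3 : (9 / 8 : ℝ≥0) ^ (n * (2 * q)) * (((2 ^ n : ℕ) : ℝ≥0) *
        (C * ((1 : ℝ≥0) / 2 ^ n) ^ q)) = C * (2 * (81 / 128 : ℝ≥0) ^ q) ^ n := by
        have e1 : (9 / 8 : ℝ≥0) ^ (n * (2 * q)) = ((81 / 64 : ℝ≥0) ^ q) ^ n := by
          rw [← pow_mul, show n * (2 * q) = 2 * (q * n) by ring, pow_mul]
          congr 1
          norm_num
        have e2 : ((1 : ℝ≥0) / 2 ^ n) ^ q = ((1 / 2 : ℝ≥0) ^ q) ^ n := by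
          rw [one_div, ← inv_pow, ← pow_mul, ← pow_mul, mul_comm n q, one_div]
        have e3 : (81 / 128 : ℝ≥0) = 81 / 64 * (1 / 2) := by norm_num
        rw [e1, e2, e3, mul_pow, mul_pow, mul_pow]
        push_cast
        ring
      rw [h3]
      refine mul_le_mul_right (pow_le_pow_left' ?_ n) _
      have h4 : (81 / 128 : ℝ≥0) ^ q ≤ (81 / 128 : ℝ≥0) ^ 2 :=
        pow_le_pow_of_le_one (zero_le) (by
          rw [← NNReal.coe_le_coe]; push_cast; norm_num) hq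
      calc 2 * (81 / 128 : ℝ≥0) ^ q ≤ 2 * (81 / 128 : ℝ≥0) ^ 2 := mul_le_mul_right h4 _
        _ = 6561 / 8192 := by norm_num
    have h5 := ENNReal.coe_le_coe.2 h2
    push_cast at h5 ⊢
    exact h5
  refine (ENNReal.tsum_le_tsum hterm).trans_lt ?_
  rw [ENNReal.tsum_mul_left, ENNReal.tsum_geometric]
  refine ENNReal.mul_lt_top ENNReal.coe_lt_top ?_
  rw [ENNReal.inv_lt_top, tsub_pos_iff_lt]
  have h6 : (6561 / 8192 : ℝ≥0) < 1 := by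
    rw [← NNReal.coe_lt_coe]; push_cast; norm_num
  exact_mod_cast h6

private lemma rgm_rg_le {q : ℕ} (hq : q ≠ 0) (w : Path d) :
    (rg 1 w) ^ (2 * q) ≤ (9 : ℝ≥0∞) ^ (2 * q) * rgm_S q w := by
  have hq2 : ((2 * q : ℕ) : ℝ) ≠ 0 := by exact_mod_cast (by omega : 2 * q ≠ 0)
  set r : ℝ≥0∞ := (rgm_S q w) ^ (((2 * q : ℕ) : ℝ)⁻¹) with hr
  have hrpow : r ^ (2 * q) = rgm_S q w := by
    rw [hr, ← ENNReal.rpow_natCast, ← ENNReal.rpow_mul, inv_mul_cancel₀ hq2, ENNReal.rpow_one]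
  have hb : ∀ n k : ℕ, k < 2 ^ n →
      ‖w (((k + 1 : ℕ) : ℝ≥0) / 2 ^ n) - w ((k : ℝ≥0) / 2 ^ n)‖ₑ ≤
        ((8 / 9 : ℝ≥0) : ℝ≥0∞) ^ n * r := by
    intro n k hk
    set x := ‖w (((k + 1 : ℕ) : ℝ≥0) / 2 ^ n) - w ((k : ℝ≥0) / 2 ^ n)‖ₑ with hx
    have h1 : ((9 / 8 : ℝ≥0) : ℝ≥0∞) ^ (n * (2 * q)) * x ^ (2 * q) ≤ r ^ (2 * q) := by
      rw [hrpow]
      refine le_trans ?_ (ENNReal.le_tsum n)
      refine mul_le_mul_right ?_ _
      exact Finset.single_le_sum (f := fun k : ℕ =>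
        ‖w (((k + 1 : ℕ) : ℝ≥0) / 2 ^ n) - w ((k : ℝ≥0) / 2 ^ n)‖ₑ ^ (2 * q))
        (fun _ _ => zero_le) (Finset.mem_range.2 hk)
    rw [pow_mul, ← mul_pow] at h1
    have h2 : ((9 / 8 : ℝ≥0) : ℝ≥0∞) ^ n * x ≤ r :=
      (ENNReal.pow_le_pow_left_iff (n := 2 * q) (by omega)).1 h1
    have h3 : ((8 / 9 : ℝ≥0) : ℝ≥0∞) ^ n * (((9 / 8 : ℝ≥0) : ℝ≥0∞) ^ n * x) = x := by
      rw [← mul_assoc, ← mul_pow, ← ENNReal.coe_mul]
      have h4 : (8 / 9 : ℝ≥0) * (9 / 8) = 1 := by norm_num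
      rw [h4, ENNReal.coe_one, one_pow, one_mul]
    rw [← h3]
    exact mul_le_mul_right h2 _
  have hsup : rg 1 w ≤ 9 * r := by
    unfold rg
    refine iSup₂_le fun s hs => ?_
    refine (rgm_sup w _ hb hs).trans ?_
    rw [ENNReal.tsum_mul_right, ENNReal.tsum_geometric]
    refine mul_le_mul_left ?_ _
    have h1 : (1 : ℝ≥0∞) - ((8 / 9 : ℝ≥0) : ℝ≥0∞) = ((1 / 9 : ℝ≥0) : ℝ≥0∞) := by
      rw [← ENNReal.coe_one, ← ENNReal.coe_sub]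
      congr 1
      apply NNReal.eq
      rw [NNReal.coe_sub (by rw [← NNReal.coe_le_coe]; push_cast; norm_num)]
      push_cast
      norm_num
    rw [h1, ← ENNReal.coe_inv (by norm_num)]
    simp
  calc (rg 1 w) ^ (2 * q) ≤ (9 * r) ^ (2 * q) := pow_le_pow_left' hsup _
    _ = 9 ^ (2 * q) * rgm_S q w := by rw [mul_pow, hrpow]

theorem IsWiener.rg_moment {μ : Measure (Path d)} (h : IsWiener μ) (p : ℕ) :
    ∫⁻ w, (rg 1 w) ^ p ∂μ < ∞ := by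
  have := h.isProb
  set q := p + 2 with hq
  have h1 : ∀ w : Path d, (rg 1 w) ^ p ≤ 1 + (9 : ℝ≥0∞) ^ (2 * q) * rgm_S q w := by
    intro w
    rcases le_total (rg 1 w) 1 with h2 | h2
    · exact (pow_le_one' h2 p).trans le_self_add
    · refine le_trans ?_ le_add_self
      refine le_trans ?_ (rgm_rg_le (by omega) w)
      exact pow_le_pow_right' h2 (by omega)
  refine (lintegral_mono h1).trans_lt ?_
  rw [lintegral_add_left measurable_const, lintegral_const, measure_univ, mul_one,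
    lintegral_const_mul' _ _ (ENNReal.pow_ne_top (by norm_num))]
  exact ENNReal.add_lt_top.2 ⟨ENNReal.one_lt_top,
    ENNReal.mul_lt_top (ENNReal.pow_lt_top (by norm_num)) (rgm_S_moment (by omega) h)⟩

/-- Moments of `rg t` by scaling. -/
theorem IsWiener.rg_moment_scale {μ : Measure (Path d)} (h : IsWiener μ) (p : ℕ) (t : ℝ≥0) :
    ∫⁻ w, (rg t w) ^ p ∂μ = (NNReal.sqrt t : ℝ≥0∞) ^ p * ∫⁻ w, (rg 1 w) ^ p ∂μ := by
  have := h.isProb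
  rcases eq_or_ne t 0 with rfl | ht
  · have h0 : ∀ w : Path d, rg 0 w = 0 := by
      intro w
      unfold rg
      refine le_antisymm (iSup₂_le fun s hs => ?_) (zero_le)
      have hs0 : s = 0 := le_antisymm hs (zero_le)
      rw [hs0, Path.zero, enorm_zero]
    rcases Nat.eq_zero_or_pos p with rfl | hp
    · simp
    · simp [h0, hp.ne']
  · have h1 : ∀ w : Path d, (rg t w) ^ p = (NNReal.sqrt t : ℝ≥0∞) ^ p * (rg 1 (scale t w)) ^ p := by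
      intro w
      rw [rg_eq_scale ht w, mul_pow]
    have hm : Measurable (fun w : Path d => (rg 1 (scale t w)) ^ p) :=
      ((measurable_rg 1).comp (measurable_scale t)).pow_const p
    rw [lintegral_congr h1, lintegral_const_mul _ hm]
    congr 1
    conv_rhs => rw [← h.map_scale ht]
    rw [lintegral_map ((measurable_rg 1).pow_const p) (measurable_scale t)]

/-- Polynomial tails of all orders, uniformly in `t`. -/
theorem IsWiener.rg_tail {μ : Measure (Path d)} (h : IsWiener μ) (p : ℕ) :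
    ∃ C : ℝ≥0, ∀ (t a : ℝ≥0), 0 < a →
      μ {w | (a : ℝ≥0∞) * (NNReal.sqrt t : ℝ≥0∞) < rg t w} ≤ (C : ℝ≥0∞) / (a : ℝ≥0∞) ^ p := by
  have := h.isProb
  have hfin := h.rg_moment p
  refine ⟨(∫⁻ w, (rg 1 w) ^ p ∂μ).toNNReal, fun t a ha => ?_⟩
  rw [ENNReal.coe_toNNReal hfin.ne]
  set M := ∫⁻ w, (rg 1 w) ^ p ∂μ with hM
  have ha0 : (a : ℝ≥0∞) ^ p ≠ 0 := pow_ne_zero _ (by exact_mod_cast ha.ne')
  have hat : (a : ℝ≥0∞) ^ p ≠ ∞ := ENNReal.pow_ne_top ENNReal.coe_ne_top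
  rcases eq_or_ne t 0 with rfl | ht
  · have h0 : {w : Path d | (a : ℝ≥0∞) * (NNReal.sqrt 0 : ℝ≥0∞) < rg 0 w} = ∅ := by
      ext w
      simp only [Set.mem_ofPred_eq, Set.mem_empty_iff_false, iff_false, not_lt]
      unfold rg
      refine (iSup₂_le fun s hs => ?_).trans (zero_le)
      have hs0 : s = 0 := le_antisymm hs (zero_le)
      rw [hs0, Path.zero, enorm_zero]
    rw [h0, measure_empty]
    exact zero_le
  · have hst : (NNReal.sqrt t : ℝ≥0∞) ^ p ≠ 0 := by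
      refine pow_ne_zero _ ?_
      rw [Ne, ENNReal.coe_eq_zero, NNReal.sqrt_eq_zero]
      exact ht
    have hstt : (NNReal.sqrt t : ℝ≥0∞) ^ p ≠ ∞ := ENNReal.pow_ne_top ENNReal.coe_ne_top
    have h1 : ((a : ℝ≥0∞) * (NNReal.sqrt t : ℝ≥0∞)) ^ p *
        μ {w | ((a : ℝ≥0∞) * (NNReal.sqrt t : ℝ≥0∞)) ^ p ≤ (rg t w) ^ p} ≤
        (NNReal.sqrt t : ℝ≥0∞) ^ p * M := by
      rw [hM, ← h.rg_moment_scale p t]
      exact mul_meas_ge_le_lintegral ((measurable_rg t).pow_const p) _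
    have h2 : μ {w | (a : ℝ≥0∞) * (NNReal.sqrt t : ℝ≥0∞) < rg t w} ≤
        μ {w | ((a : ℝ≥0∞) * (NNReal.sqrt t : ℝ≥0∞)) ^ p ≤ (rg t w) ^ p} :=
      measure_mono fun w (hw : (a : ℝ≥0∞) * (NNReal.sqrt t : ℝ≥0∞) < rg t w) =>
        show ((a : ℝ≥0∞) * (NNReal.sqrt t : ℝ≥0∞)) ^ p ≤ (rg t w) ^ p from
          pow_le_pow_left' hw.le p
    have h3 : (NNReal.sqrt t : ℝ≥0∞) ^ p * ((a : ℝ≥0∞) ^ p *
        μ {w | (a : ℝ≥0∞) * (NNReal.sqrt t : ℝ≥0∞) < rg t w}) ≤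
        (NNReal.sqrt t : ℝ≥0∞) ^ p * M := by
      refine le_trans ?_ h1
      rw [← mul_assoc, ← mul_pow, mul_comm (NNReal.sqrt t : ℝ≥0∞) (a : ℝ≥0∞)]
      exact mul_le_mul_right h2 _
    have h4 := (ENNReal.mul_le_mul_iff_right hst hstt).1 h3
    rw [ENNReal.le_div_iff_mul_le (Or.inl ha0) (Or.inl hat), mul_comm]
    exact h4

end WSP
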