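import Pool.Agent.Lib_MP_c175fd.MarkovWB

/-!
# Piece WIENERR: time reversal

* `map_stop_shift`: for each coordinate, `IsPreBrownianReal.indepFun_shift` says that the increments
  after `a` are independent of the path up to `a`. Together with the independence of the coordinates
  this gives that `stop a w` and `shift a w` are independent: the family
  `(stop part i, shift part i)`, `i : Fin d`, is independent with law `(law of stop part i) × (law of
  shift part i)`, so the family of the `2 d` processes is independent, and regroup
  (a clean way: prove that the two measures on `Path d × Path d` agree on the pi system of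
  rectangles, or use `iIndepFun` indexed by `Fin d × Bool`). The law of `shift a` is `μ`
  (`IsWiener.map_shift`).
* `map_rev`: for each coordinate the process `u ↦ w a - w (a - u)` for `u ≤ a`, `w u` for `u ≥ a`, is
  Gaussian, centred with covariance `min u v`, hence pre-Brownian
  (`IsGaussianProcess.isPreBrownianReal_of_covariance`), with continuous paths; so this modified
  path has law `μ` by uniqueness, and its stopped path at time `a` is `rev a w`.
-/

open MeasureTheory ProbabilityTheory Filter Topology
open scoped ENNReal NNReal

namespace WSP

variable {d : ℕ}

/-- reversal of the increments on `[0, a]`, unchanged path after time `a` -/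
def flipAt (a : ℝ≥0) (w : Path d) : Path d :=
  ⟨fun s => w (max s a) - w (a - s), by
    have := w.cont
    have h : Continuous fun s : ℝ≥0 => a - s := continuous_const.sub continuous_id
    exact (this.comp (continuous_id.max continuous_const)).sub (this.comp h), by simp⟩

theorem flipAt_apply (a : ℝ≥0) (w : Path d) (s : ℝ≥0) :
    flipAt a w s = w (max s a) - w (a - s) := rfl

theorem measurable_flipAt (a : ℝ≥0) : Measurable (flipAt a : Path d → Path d) :=
  measurable_path fun s => (measurable_eval (max s a)).sub (measurable_eval (a - s))

theorem stop_flipAt (a : ℝ≥0) (w : Path d) : stop a (flipAt a w) = rev a w := by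
  apply Path.ext
  intro s
  rw [stop_apply, flipAt_apply, rev_apply, max_eq_right (min_le_right s a)]
  congr 2
  rcases le_total s a with h | h
  · rw [min_eq_left h]
  · rw [min_eq_right h, tsub_self, tsub_eq_zero_of_le h]

theorem flipAt_brown {Ω : Type*} {mΩ : MeasurableSpace Ω} {P : Measure Ω} {B : ℝ≥0 → Ω → ℝ}
    (hB : IsPreBrownianReal B P) (a : ℝ≥0) :
    IsPreBrownianReal (fun s ω => B (max s a) ω - B (a - s) ω) P := by
  classical
  have hG : IsGaussianProcess (fun (s : ℝ≥0) ω => B (max s a) ω - B (a - s) ω) P := by
    apply hB.isGaussianProcess.of_isGaussianProcess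
    intro s
    exact ⟨{max s a, a - s},
        { toFun x := x ⟨max s a, by simp⟩ - x ⟨a - s, by simp⟩
          map_add' x y := by simp; abel
          map_smul' c x := by simp; ring }, by simp⟩
  refine IsGaussianProcess.isPreBrownianReal_of_covariance hG (fun t => ?_) (fun s t hst => ?_)
  · rw [integral_sub, hB.integral_eval, hB.integral_eval, sub_zero]
    all_goals exact (hB.isGaussianProcess.hasGaussianLaw_eval _).integrable
  · have := hB.isGaussianProcess.isProbabilityMeasure
    rw [covariance_fun_sub_left, covariance_fun_sub_right, covariance_fun_sub_right,
      hB.covariance_eval, hB.covariance_eval, hB.covariance_eval, hB.covariance_eval]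
    · have h1 : min (max s a) (max t a) = max s a := min_eq_left (max_le_max_right a hst)
      have h2 : min (max s a) (a - t) = a - t := min_eq_right (tsub_le_self.trans (le_max_right s a))
      have h3 : min (a - s) (max t a) = a - s := min_eq_left (tsub_le_self.trans (le_max_right t a))
      have h4 : min (a - s) (a - t) = a - t := min_eq_right (tsub_le_tsub_left hst a)
      rw [h1, h2, h3, h4]
      rcases le_total s a with h | h
      · rw [max_eq_right h, NNReal.coe_sub h]
        ring
      · rw [max_eq_left h, tsub_eq_zero_of_le h]
        simp
    all_goals first
      | exact (hB.isGaussianProcess.hasGaussianLaw_eval _).memLp_two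
      | exact hB.isGaussianProcess.hasGaussianLaw_sub.memLp_two

theorem IsWiener.map_flipAt {μ : Measure (Path d)} (h : IsWiener μ) (a : ℝ≥0) :
    μ.map (flipAt a) = μ := by
  have := h.isProb
  refine IsWiener.unique (isWiener_map (measurable_flipAt a) (fun i => ?_) ?_) h
  · exact flipAt_brown (h.brown i) a
  · have h1 := h.indep.comp (fun (_ : Fin d) (f : ℝ≥0 → ℝ) (s : ℝ≥0) => f (max s a) - f (a - s))
      (fun i => measurable_pi_iff.2 fun s => (measurable_pi_apply _).sub (measurable_pi_apply _))
    exact h1

theorem IsWiener.map_rev {μ : Measure (Path d)} (h : IsWiener μ) (a : ℝ≥0) :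
    μ.map (rev a) = μ.map (stop a) := by
  have e : (rev a : Path d → Path d) = stop a ∘ flipAt a := by
    funext w
    exact (stop_flipAt a w).symm
  rw [e, ← Measure.map_map (measurable_stop a) (measurable_flipAt a), h.map_flipAt a]

/-- The past (reversed) and the future of time `a` are independent. -/
theorem IsWiener.map_rev_shift {μ : Measure (Path d)} (h : IsWiener μ) (a : ℝ≥0) :
    μ.map (fun w => (rev a w, shift a w)) = (μ.map (stop a)).prod μ := by
  have := h.isProb
  have e : (fun w : Path d => (rev a w, shift a w)) =
      Prod.map (rev a) id ∘ fun w => (stop a w, shift a w) := by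
    funext w
    simp only [Function.comp_apply, Prod.map_apply, id_eq]
    rw [rev_stop]
  have h1 : IsProbabilityMeasure (μ.map (stop a)) :=
    Measure.isProbabilityMeasure_map (measurable_stop a).aemeasurable
  rw [e, ← Measure.map_map ((measurable_rev a).prodMap measurable_id)
    ((measurable_stop a).prodMk (measurable_shift a)), h.map_stop_shift a,
    ← Measure.map_prod_map _ _ (measurable_rev a) measurable_id, Measure.map_id,
    Measure.map_map (measurable_rev a) (measurable_stop a)]
  congr 1
  have e2 : (rev a ∘ stop a : Path d → Path d) = rev a := by
    funext w
    exact rev_stop a w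
  rw [e2, h.map_rev a]

end WSP
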