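import Pool.Agent.Lib_MP_c175fd.MarkovWB
import Pool.Agent.Lib_MP_c175fd.TimeRev
import Pool.Agent.Lib_MP_c175fd.BlocksW

/-! Markov property, time reversal and blocks of the Wiener measure. -/


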