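import Pool.Agent.Lib_MP_c175fd.KBasic
import Pool.Agent.Lib_MP_c175fd.WienerB
import Pool.Agent.Lib_MP_c175fd.RgMoment

/-!
# Piece EVA: elementary properties of `EV` and `EV2`

Monotonicity, scaling (`Vol_scale`, `IsWiener.map_scale`), finiteness (`Vol_le_rg`, `rg_moment`), Jensen.
-/

open MeasureTheory ProbabilityTheory Filter Topology
open scoped ENNReal NNReal

namespace WSP

variable {d : ℕ}

theorem EV_mono {μ : Measure (Path d)} {ρ ρ' : ℝ} {s s' t t' : ℝ≥0} (hρ : ρ ≤ ρ') (hs : s ≤ s')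
    (ht : t ≤ t') : EV μ ρ s t ≤ EV μ ρ' s' t' :=
  lintegral_mono fun w => lintegral_mono fun w' => Vol_mono hρ hs ht w w'

theorem EV2_mono {μ : Measure (Path d)} {ρ ρ' : ℝ} {s s' t t' : ℝ≥0} (hρ : ρ ≤ ρ') (hs : s ≤ s')
    (ht : t ≤ t') : EV2 μ ρ s t ≤ EV2 μ ρ' s' t' :=
  lintegral_mono fun w => lintegral_mono fun w' => by
    have := Vol_mono hρ hs ht w w'
    gcongr

theorem eva_jensen {α : Type*} [MeasurableSpace α] {μ : Measure α} [IsProbabilityMeasure μ]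
    {f : α → ℝ≥0∞} (hf : Measurable f) : (∫⁻ x, f x ∂μ) ^ 2 ≤ ∫⁻ x, (f x) ^ 2 ∂μ := by
  have hpq : Real.HolderConjugate 2 2 := Real.HolderConjugate.two_two
  have h := ENNReal.lintegral_mul_le_Lp_mul_Lq μ hpq hf.aemeasurable
    (aemeasurable_const (b := (1 : ℝ≥0∞)))
  simp only [Pi.mul_apply, mul_one, ENNReal.one_rpow, lintegral_one, measure_univ] at h
  calc (∫⁻ x, f x ∂μ) ^ 2 ≤ ((∫⁻ a, f a ^ (2 : ℝ) ∂μ) ^ (1 / (2 : ℝ))) ^ 2 := by gcongr
    _ = ∫⁻ x, (f x) ^ 2 ∂μ := by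
      rw [← ENNReal.rpow_natCast, ← ENNReal.rpow_mul]
      norm_num

theorem measurable_Vol_right (ρ : ℝ) (s t : ℝ≥0) (w : Path d) :
    Measurable (fun w' : Path d => Vol ρ s t w w') := by
  have h1 : Measurable (fun w' : Path d => ((w, w') : Path d × Path d)) :=
    measurable_const.prodMk measurable_id
  have h2 := (measurable_Vol (d := d) ρ s t).comp h1
  exact h2

theorem measurable_lintegral_Vol (μ : Measure (Path d)) [SFinite μ] (ρ : ℝ) (s t : ℝ≥0) :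
    Measurable (fun w : Path d => ∫⁻ w', Vol ρ s t w w' ∂μ) :=
  (measurable_Vol ρ s t).lintegral_prod_right'

theorem measurable_lintegral_Vol_sq (μ : Measure (Path d)) [SFinite μ] (ρ : ℝ) (s t : ℝ≥0) :
    Measurable (fun w : Path d => ∫⁻ w', (Vol ρ s t w w') ^ 2 ∂μ) :=
  ((measurable_Vol ρ s t).pow_const 2).lintegral_prod_right'

/-- Cauchy-Schwarz (Jensen). -/
theorem EV_sq_le_EV2 {μ : Measure (Path d)} (h : IsWiener μ) (ρ : ℝ) (s t : ℝ≥0) :
    (EV μ ρ s t) ^ 2 ≤ EV2 μ ρ s t := by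
  have := h.isProb
  calc (EV μ ρ s t) ^ 2 ≤ ∫⁻ w, (∫⁻ w', Vol ρ s t w w' ∂μ) ^ 2 ∂μ :=
        eva_jensen (measurable_lintegral_Vol μ ρ s t)
    _ ≤ EV2 μ ρ s t := lintegral_mono fun w => eva_jensen (measurable_Vol_right ρ s t w)

theorem eva_scale_right {μ : Measure (Path d)} (h : IsWiener μ) {c : ℝ≥0} (hc : c ≠ 0)
    {F : Path d → ℝ≥0∞} (hF : Measurable F) : ∫⁻ w, F (scale c w) ∂μ = ∫⁻ w, F w ∂μ := by
  conv_rhs => rw [← h.map_scale hc]
  rw [lintegral_map hF (measurable_scale c)]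

theorem EV_scale {μ : Measure (Path d)} (h : IsWiener μ) {ρ : ℝ≥0} (hρ : 0 < ρ) (s t : ℝ≥0) :
    EV μ (ρ : ℝ) s t = (ρ : ℝ≥0∞) ^ d * EV μ 1 (s / ρ ^ 2) (t / ρ ^ 2) := by
  have := h.isProb
  have hc : ρ ^ 2 ≠ 0 := pow_ne_zero 2 hρ.ne'
  unfold EV
  have e1 : ∀ w : Path d, ∫⁻ w', Vol (ρ : ℝ) s t w w' ∂μ =
      (ρ : ℝ≥0∞) ^ d * ∫⁻ w', Vol 1 (s / ρ ^ 2) (t / ρ ^ 2) (scale (ρ ^ 2) w) w' ∂μ := by
    intro w
    have m1 : Measurable (fun w' : Path d =>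
        Vol 1 (s / ρ ^ 2) (t / ρ ^ 2) (scale (ρ ^ 2) w) (scale (ρ ^ 2) w')) :=
      (measurable_Vol_right 1 _ _ _).comp (measurable_scale _)
    rw [← eva_scale_right h hc (measurable_Vol_right 1 _ _ (scale (ρ ^ 2) w)),
      ← lintegral_const_mul _ m1]
    exact lintegral_congr fun w' => Vol_scale hρ s t w w'
  have m2 : Measurable (fun w : Path d =>
      ∫⁻ w', Vol 1 (s / ρ ^ 2) (t / ρ ^ 2) (scale (ρ ^ 2) w) w' ∂μ) :=
    (measurable_lintegral_Vol μ 1 _ _).comp (measurable_scale _)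
  rw [lintegral_congr e1, lintegral_const_mul _ m2,
    eva_scale_right (F := fun w : Path d => ∫⁻ w', Vol 1 (s / ρ ^ 2) (t / ρ ^ 2) w w' ∂μ)
      h hc (measurable_lintegral_Vol μ 1 _ _)]

theorem EV2_scale {μ : Measure (Path d)} (h : IsWiener μ) {ρ : ℝ≥0} (hρ : 0 < ρ) (s t : ℝ≥0) :
    EV2 μ (ρ : ℝ) s t = (ρ : ℝ≥0∞) ^ (2 * d) * EV2 μ 1 (s / ρ ^ 2) (t / ρ ^ 2) := by
  have := h.isProb
  have hc : ρ ^ 2 ≠ 0 := pow_ne_zero 2 hρ.ne'
  unfold EV2
  have e1 : ∀ w : Path d, ∫⁻ w', (Vol (ρ : ℝ) s t w w') ^ 2 ∂μ =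
      (ρ : ℝ≥0∞) ^ (2 * d) *
        ∫⁻ w', (Vol 1 (s / ρ ^ 2) (t / ρ ^ 2) (scale (ρ ^ 2) w) w') ^ 2 ∂μ := by
    intro w
    have m1 : Measurable (fun w' : Path d =>
        (Vol 1 (s / ρ ^ 2) (t / ρ ^ 2) (scale (ρ ^ 2) w) (scale (ρ ^ 2) w')) ^ 2) :=
      ((measurable_Vol_right 1 _ _ _).pow_const 2).comp (measurable_scale _)
    rw [← eva_scale_right (F := fun w' : Path d =>
        (Vol 1 (s / ρ ^ 2) (t / ρ ^ 2) (scale (ρ ^ 2) w) w') ^ 2) h hc
        ((measurable_Vol_right 1 _ _ (scale (ρ ^ 2) w)).pow_const 2),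
      ← lintegral_const_mul _ m1]
    refine lintegral_congr fun w' => ?_
    rw [Vol_scale hρ s t w w', mul_pow, ← pow_mul, mul_comm d 2]
  have m2 : Measurable (fun w : Path d =>
      ∫⁻ w', (Vol 1 (s / ρ ^ 2) (t / ρ ^ 2) (scale (ρ ^ 2) w) w') ^ 2 ∂μ) :=
    (measurable_lintegral_Vol_sq μ 1 _ _).comp (measurable_scale _)
  rw [lintegral_congr e1, lintegral_const_mul _ m2,
    eva_scale_right (F := fun w : Path d => ∫⁻ w', (Vol 1 (s / ρ ^ 2) (t / ρ ^ 2) w w') ^ 2 ∂μ)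
      h hc (measurable_lintegral_Vol_sq μ 1 _ _)]

theorem eva_add3_pow (a b c : ℝ≥0∞) (n : ℕ) :
    (a + b + c) ^ n ≤ 3 ^ n * (a ^ n + b ^ n + c ^ n) := by
  have h1 : a + b + c ≤ 3 * max a (max b c) := by
    have ha : a ≤ max a (max b c) := le_max_left _ _
    have hb : b ≤ max a (max b c) := (le_max_left _ _).trans (le_max_right _ _)
    have hc : c ≤ max a (max b c) := (le_max_right _ _).trans (le_max_right _ _)
    calc a + b + c ≤ max a (max b c) + max a (max b c) + max a (max b c) := by gcongr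
      _ = 3 * max a (max b c) := by ring
  calc (a + b + c) ^ n ≤ (3 * max a (max b c)) ^ n := by gcongr
    _ = 3 ^ n * (max a (max b c)) ^ n := mul_pow _ _ _
    _ ≤ 3 ^ n * (a ^ n + b ^ n + c ^ n) := by
      gcongr
      rcases max_choice a (max b c) with h | h
      · rw [h, add_assoc]; exact le_self_add
      · rw [h]
        rcases max_choice b c with h' | h'
        · rw [h']; calc b ^ n ≤ a ^ n + b ^ n := le_add_self
            _ ≤ _ := le_self_add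
        · rw [h']; exact le_add_self

theorem EV2_lt_top {μ : Measure (Path d)} (h : IsWiener μ) (ρ : ℝ) (s t : ℝ≥0) :
    EV2 μ ρ s t < ∞ := by
  have := h.isProb
  set r : ℝ≥0 := ρ.toNNReal with hr
  set V : ℝ≥0∞ := volume (Metric.ball (0 : E d) 1) with hV
  have hVt : V < ∞ := measure_ball_lt_top
  have hmom : ∀ u : ℝ≥0, ∫⁻ w, (rg u w) ^ (d * 2) ∂μ < ∞ := by
    intro u
    rw [h.rg_moment_scale]
    exact ENNReal.mul_lt_top (ENNReal.pow_lt_top ENNReal.coe_lt_top) (h.rg_moment _)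
  have hb : ∀ w w' : Path d, (Vol ρ s t w w') ^ 2 ≤
      (V ^ 2 * 3 ^ (d * 2)) * (((r : ℝ≥0∞) ^ (d * 2) + (rg s w) ^ (d * 2)) + (rg t w') ^ (d * 2)) := by
    intro w w'
    calc (Vol ρ s t w w') ^ 2 ≤ (V * ((r : ℝ≥0∞) + rg s w + rg t w') ^ d) ^ 2 := by
          gcongr
          exact (Vol_mono (Real.le_coe_toNNReal ρ) le_rfl le_rfl w w').trans (Vol_le_rg r s t w w')
      _ = V ^ 2 * ((r : ℝ≥0∞) + rg s w + rg t w') ^ (d * 2) := by rw [mul_pow, ← pow_mul]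
      _ ≤ V ^ 2 * (3 ^ (d * 2) * ((r : ℝ≥0∞) ^ (d * 2) + (rg s w) ^ (d * 2) +
            (rg t w') ^ (d * 2))) := by
          gcongr
          exact eva_add3_pow _ _ _ _
      _ = _ := by rw [mul_assoc]
  have hK : V ^ 2 * 3 ^ (d * 2) < ∞ :=
    ENNReal.mul_lt_top (ENNReal.pow_lt_top hVt) (ENNReal.pow_lt_top (by simp))
  calc EV2 μ ρ s t ≤ ∫⁻ w, ∫⁻ w', (V ^ 2 * 3 ^ (d * 2)) *
        (((r : ℝ≥0∞) ^ (d * 2) + (rg s w) ^ (d * 2)) + (rg t w') ^ (d * 2)) ∂μ ∂μ :=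
        lintegral_mono fun w => lintegral_mono fun w' => hb w w'
    _ = (V ^ 2 * 3 ^ (d * 2)) * (((r : ℝ≥0∞) ^ (d * 2) + ∫⁻ w, (rg s w) ^ (d * 2) ∂μ) +
        ∫⁻ w', (rg t w') ^ (d * 2) ∂μ) := by
        have e1 : ∀ w : Path d, ∫⁻ w', (V ^ 2 * 3 ^ (d * 2)) *
            (((r : ℝ≥0∞) ^ (d * 2) + (rg s w) ^ (d * 2)) + (rg t w') ^ (d * 2)) ∂μ =
            (V ^ 2 * 3 ^ (d * 2)) * (((r : ℝ≥0∞) ^ (d * 2) + (rg s w) ^ (d * 2)) +
              ∫⁻ w', (rg t w') ^ (d * 2) ∂μ) := by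
          intro w
          rw [lintegral_const_mul _ (((measurable_rg t).pow_const _).const_add _),
            lintegral_add_left measurable_const, lintegral_const, measure_univ, mul_one]
        rw [lintegral_congr e1, lintegral_const_mul _
          ((((measurable_rg s).pow_const _).const_add _).add_const _),
          lintegral_add_right _ measurable_const, lintegral_const, measure_univ, mul_one,
          lintegral_add_left measurable_const, lintegral_const, measure_univ, mul_one]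
    _ < ∞ := by
        refine ENNReal.mul_lt_top hK (ENNReal.add_lt_top.mpr ⟨ENNReal.add_lt_top.mpr
          ⟨ENNReal.pow_lt_top ENNReal.coe_lt_top, hmom s⟩, hmom t⟩)

theorem EV_lt_top {μ : Measure (Path d)} (h : IsWiener μ) (ρ : ℝ) (s t : ℝ≥0) :
    EV μ ρ s t < ∞ := by
  have h1 := (EV_sq_le_EV2 h ρ s t).trans_lt (EV2_lt_top h ρ s t)
  rw [sq] at h1
  by_contra h2
  rw [not_lt, top_le_iff] at h2
  rw [h2] at h1
  simp at h1

theorem EV_pos {μ : Measure (Path d)} (h : IsWiener μ) {ρ : ℝ} (hρ : 0 < ρ) (s t : ℝ≥0) :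
    0 < EV μ ρ s t := by
  have := h.isProb
  have hb : ∀ w w' : Path d, volume (Metric.ball (0 : E d) ρ) ≤ Vol ρ s t w w' := by
    intro w w'
    apply measure_mono
    intro z hz
    refine ⟨0, zero_le, 0, zero_le, ?_⟩
    rw [Path.zero, Path.zero, add_zero, dist_comm]
    exact hz
  calc 0 < volume (Metric.ball (0 : E d) ρ) := Metric.measure_ball_pos _ _ hρ
    _ = ∫⁻ _w : Path d, ∫⁻ _w' : Path d, volume (Metric.ball (0 : E d) ρ) ∂μ ∂μ := by simp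
    _ ≤ EV μ ρ s t := lintegral_mono fun w => lintegral_mono fun w' => hb w w'

end WSP
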