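import Pool.Agent.Lib_MP_c175fd.Perc
import Pool.Agent.Lib_MP_c175fd.EVBasic

/-!
# Pieces CHAINM, SUBFIN: no percolation below the critical time

CHAINM: the measure of the chains `z 0, ..., z n` with `(z 0).1 ∈ Q` is
`volume Q * E ∏_{i < n} Vol (W_i, W_{i+1})` (integrate the positions, starting with the last one), and
`T_n w = E [∏ ... | W_0 = w]` satisfies `T_{n+1} w = ∫ Vol w w' T_n w' dμ`, so
`∫ T_{n+1}^2 ≤ EV2 * ∫ T_n^2` (Cauchy-Schwarz) and `(E T_n)^2 ≤ ∫ T_n^2 ≤ EV2^n`.

SUBFIN: if `EV2 < 1`, the mean of the total number of injective chains (of all lengths) started in the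
cube `k` is at most `∑_n EV2^(n/2) < ∞` (Mecke formula, chains are a special case of `cnt` with
`V = Fin (n + 1)`). So almost surely it is finite for all `k`; every element of the cluster of a
present index `i` is `i` or the last element of an injective chain of present indices from `i`
(shorten the path given by `ReflTransGen`), so the cluster is finite; conclude by
`not_percolates_of_finite`.
-/

open MeasureTheory ProbabilityTheory Filter Topology
open scoped ENNReal NNReal

namespace WSP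

variable {d : ℕ}

/-- The chains with root in `Q`. -/
def chainSet (ρ : ℝ) (t : ℝ≥0) (Q : Set (E d)) (n : ℕ) : Set (Fin (n + 1) → Mark d) :=
  {z | (z 0).1 ∈ Q ∧ ∀ i : Fin n, hitR ρ t t (z i.castSucc) (z i.succ)}

theorem measurableSet_chainSet (ρ : ℝ) (t : ℝ≥0) {Q : Set (E d)} (hQ : MeasurableSet Q) (n : ℕ) :
    MeasurableSet (chainSet ρ t Q n) := by
  have h1 : MeasurableSet {z : Fin (n + 1) → Mark d | (z 0).1 ∈ Q} :=
    (measurable_fst.comp (measurable_pi_apply 0)) hQ
  have h2 : ∀ i : Fin n, MeasurableSet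
      {z : Fin (n + 1) → Mark d | hitR ρ t t (z i.castSucc) (z i.succ)} := fun i => by
    have hm : Measurable fun z : Fin (n + 1) → Mark d => (z i.castSucc, z i.succ) :=
      (measurable_pi_apply i.castSucc).prodMk (measurable_pi_apply i.succ)
    exact hm (measurableSet_hitR ρ t t)
  have h3 : chainSet ρ t Q n = {z : Fin (n + 1) → Mark d | (z 0).1 ∈ Q} ∩
      ⋂ i : Fin n, {z : Fin (n + 1) → Mark d | hitR ρ t t (z i.castSucc) (z i.succ)} := by
    ext z
    simp [chainSet]
  rw [h3]
  exact h1.inter (MeasurableSet.iInter h2)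

/-- Cauchy-Schwarz for the lower Lebesgue integral. -/
theorem lintegral_mul_sq_le_chain {α : Type*} [MeasurableSpace α] (μ : Measure α)
    {f g : α → ℝ≥0∞} (hf : AEMeasurable f μ) (hg : AEMeasurable g μ) :
    (∫⁻ a, f a * g a ∂μ) ^ 2 ≤ (∫⁻ a, f a ^ 2 ∂μ) * (∫⁻ a, g a ^ 2 ∂μ) := by
  have h := ENNReal.lintegral_mul_le_Lp_mul_Lq μ Real.HolderConjugate.two_two hf hg
  have h2 : ∀ (k : α → ℝ≥0∞), ∫⁻ a, k a ^ (2 : ℝ) ∂μ = ∫⁻ a, k a ^ 2 ∂μ := fun k => by
    simp only [ENNReal.rpow_ofNat]
  rw [h2, h2] at h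
  calc (∫⁻ a, f a * g a ∂μ) ^ 2
      ≤ ((∫⁻ a, f a ^ 2 ∂μ) ^ (1 / (2 : ℝ)) * (∫⁻ a, g a ^ 2 ∂μ) ^ (1 / (2 : ℝ))) ^ 2 :=
        pow_le_pow_left' h 2
    _ = _ := by
        rw [mul_pow, ← ENNReal.rpow_natCast, ← ENNReal.rpow_natCast, ← ENNReal.rpow_mul,
          ← ENNReal.rpow_mul]
        norm_num

/-- The kernels `T_n`. -/
noncomputable def chT (μ : Measure (Path d)) (ρ : ℝ) (t : ℝ≥0) : ℕ → Path d → ℝ≥0∞
  | 0 => fun _ => 1
  | n + 1 => fun w => ∫⁻ w', Vol ρ t t w w' * chT μ ρ t n w' ∂μ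

theorem measurable_chT (μ : Measure (Path d)) [IsProbabilityMeasure μ] (ρ : ℝ) (t : ℝ≥0) (n : ℕ) :
    Measurable (chT μ ρ t n) := by
  induction n with
  | zero => exact measurable_const
  | succ n ih =>
    show Measurable fun w => ∫⁻ w', Vol ρ t t w w' * chT μ ρ t n w' ∂μ
    exact Measurable.lintegral_prod_right' (f := fun p : Path d × Path d =>
      Vol ρ t t p.1 p.2 * chT μ ρ t n p.2) ((measurable_Vol ρ t t).mul (ih.comp measurable_snd))

theorem lintegral_chT_sq_le (μ : Measure (Path d)) [IsProbabilityMeasure μ] (ρ : ℝ) (t : ℝ≥0)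
    (n : ℕ) : ∫⁻ w, chT μ ρ t n w ^ 2 ∂μ ≤ EV2 μ ρ t t ^ n := by
  induction n with
  | zero => simp [chT]
  | succ n ih =>
    have h1 : ∀ w, chT μ ρ t (n + 1) w ^ 2 ≤
        (∫⁻ w', Vol ρ t t w w' ^ 2 ∂μ) * (∫⁻ w', chT μ ρ t n w' ^ 2 ∂μ) := fun w =>
      lintegral_mul_sq_le_chain μ
        ((measurable_Vol ρ t t).comp measurable_prodMk_left).aemeasurable
        (measurable_chT μ ρ t n).aemeasurable
    calc ∫⁻ w, chT μ ρ t (n + 1) w ^ 2 ∂μ
        ≤ ∫⁻ w, (∫⁻ w', Vol ρ t t w w' ^ 2 ∂μ) * (∫⁻ w', chT μ ρ t n w' ^ 2 ∂μ) ∂μ :=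
          lintegral_mono h1
      _ = EV2 μ ρ t t * (∫⁻ w', chT μ ρ t n w' ^ 2 ∂μ) := by
          rw [lintegral_mul_const]
          · rfl
          · exact Measurable.lintegral_prod_right' (f := fun p : Path d × Path d =>
              Vol ρ t t p.1 p.2 ^ 2) ((measurable_Vol ρ t t).pow_const 2)
      _ ≤ EV2 μ ρ t t * EV2 μ ρ t t ^ n := mul_le_mul_right ih _
      _ = _ := (pow_succ' _ _).symm

/-- Disintegration of a product measure along the first coordinate. -/
theorem pi_succ_apply_chain {α : Type*} [MeasurableSpace α] (ν : Measure α) [SigmaFinite ν] (n : ℕ)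
    {S : Set (Fin (n + 1) → α)} (hS : MeasurableSet S) :
    Measure.pi (fun _ : Fin (n + 1) => ν) S =
      ∫⁻ y, Measure.pi (fun _ : Fin n => ν) {z | (Fin.cons y z : Fin (n + 1) → α) ∈ S} ∂ν := by
  have h := (measurePreserving_piFinSuccAbove (fun _ : Fin (n + 1) => ν) 0).symm
  rw [← h.measure_preimage hS.nullMeasurableSet,
    Measure.prod_apply ((MeasurableEquiv.measurable _) hS)]
  refine lintegral_congr fun y => ?_
  congr 1
  ext z
  simp only [Set.mem_preimage, MeasurableEquiv.piFinSuccAbove_symm_apply, Fin.insertNthEquiv,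
    Equiv.coe_fn_mk, Fin.insertNth_zero', Set.mem_ofPred_eq]

/-- The chains with a prescribed first mark. -/
def chainFrom (ρ : ℝ) (t : ℝ≥0) (n : ℕ) (y : Mark d) : Set (Fin n → Mark d) :=
  {z | ∀ i : Fin n, hitR ρ t t ((Fin.cons y z : Fin (n + 1) → Mark d) i.castSucc)
    ((Fin.cons y z : Fin (n + 1) → Mark d) i.succ)}

theorem measurableSet_chainFrom (ρ : ℝ) (t : ℝ≥0) (n : ℕ) (y : Mark d) :
    MeasurableSet (chainFrom ρ t n y) := by
  have hm : Measurable fun z : Fin n → Mark d => (Fin.cons y z : Fin (n + 1) → Mark d) := by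
    rw [measurable_pi_iff]
    intro i
    refine Fin.cases ?_ (fun i => ?_) i
    · simp only [Fin.cons_zero]
      exact measurable_const
    · simp only [Fin.cons_succ]
      exact measurable_pi_apply i
  have h1 := hm (measurableSet_chainSet (d := d) ρ t MeasurableSet.univ n)
  have h2 : chainFrom ρ t n y =
      (fun z : Fin n → Mark d => (Fin.cons y z : Fin (n + 1) → Mark d)) ⁻¹'
        (chainSet ρ t Set.univ n) := by
    ext z
    simp [chainFrom, chainSet]
  rw [h2]
  exact h1

theorem volume_hit (ρ : ℝ) (t : ℝ≥0) (x : E d) (w w' : Path d) :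
    volume {x' : E d | hitR ρ t t (x, w) (x', w')} = Vol ρ t t w w' := by
  have h1 : {x' : E d | hitR ρ t t (x, w) (x', w')} =
      (fun x' => x' - x) ⁻¹' (Kset ρ t t w w') := rfl
  rw [h1, Vol]
  exact (measurePreserving_sub_right volume x).measure_preimage
    (isOpen_Kset ρ t t w w').measurableSet.nullMeasurableSet

theorem pi_chainFrom (μ : Measure (Path d)) [IsProbabilityMeasure μ] (ρ : ℝ) (t : ℝ≥0) (n : ℕ)
    (y : Mark d) :
    Measure.pi (fun _ : Fin n => nuM μ) (chainFrom ρ t n y) = chT μ ρ t n y.2 := by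
  induction n generalizing y with
  | zero =>
    have h1 : chainFrom ρ t 0 y = Set.univ := by
      ext z
      simp only [chainFrom, Set.mem_ofPred_eq, Set.mem_univ, iff_true]
      intro i
      exact i.elim0
    rw [h1]
    simp [chT]
  | succ n ih =>
    rw [pi_succ_apply_chain _ _ (measurableSet_chainFrom ρ t (n + 1) y)]
    have h1 : ∀ y₁ : Mark d, Measure.pi (fun _ : Fin n => nuM μ)
        {z | (Fin.cons y₁ z : Fin (n + 1) → Mark d) ∈ chainFrom ρ t (n + 1) y} =
        Set.indicator {y₁ : Mark d | hitR ρ t t y y₁} (fun y₁ => chT μ ρ t n y₁.2) y₁ := by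
      intro y₁
      by_cases hy : hitR ρ t t y y₁
      · rw [Set.indicator_of_mem (by exact hy), ← ih y₁]
        congr 1
        ext z
        simp only [chainFrom, Set.mem_ofPred_eq]
        constructor
        · intro h i
          have h2 := h i.succ
          simpa using h2
        · intro h i
          refine Fin.cases ?_ (fun i => ?_) i
          · simpa using hy
          · have h2 := h i
            simpa using h2
      · rw [Set.indicator_of_notMem (by exact hy)]
        have h3 : {z | (Fin.cons y₁ z : Fin (n + 1) → Mark d) ∈ chainFrom ρ t (n + 1) y} = ∅ := by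
          ext z
          simp only [chainFrom, Set.mem_ofPred_eq, Set.mem_empty_iff_false, iff_false]
          intro h
          apply hy
          have h2 := h 0
          simpa using h2
        rw [h3]
        simp
    rw [lintegral_congr h1]
    have hm1 : MeasurableSet {y₁ : Mark d | hitR ρ t t y y₁} :=
      measurable_prodMk_left (measurableSet_hitR ρ t t)
    have hm2 : Measurable (Set.indicator {y₁ : Mark d | hitR ρ t t y y₁}
        (fun y₁ => chT μ ρ t n y₁.2)) :=
      Measurable.indicator ((measurable_chT μ ρ t n).comp measurable_snd) hm1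
    rw [nuM, lintegral_prod_symm _ hm2.aemeasurable]
    show _ = ∫⁻ w', Vol ρ t t y.2 w' * chT μ ρ t n w' ∂μ
    refine lintegral_congr fun w' => ?_
    have h4 : ∀ x : E d, Set.indicator {y₁ : Mark d | hitR ρ t t y y₁}
        (fun y₁ => chT μ ρ t n y₁.2) (x, w') =
        Set.indicator {x' : E d | hitR ρ t t (y.1, y.2) (x', w')} (fun _ => chT μ ρ t n w') x := by
      intro x
      rfl
    rw [lintegral_congr h4, lintegral_indicator_const, volume_hit, mul_comm]
    exact measurable_prodMk_right hm1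

/-- Piece CHAINM. -/
theorem pi_chainSet_sq_le (μ : Measure (Path d)) [IsProbabilityMeasure μ] (ρ : ℝ) (t : ℝ≥0)
    {Q : Set (E d)} (hQ : MeasurableSet Q) (n : ℕ) :
    (Measure.pi (fun _ : Fin (n + 1) => nuM μ) (chainSet ρ t Q n)) ^ 2 ≤
      (volume Q) ^ 2 * (EV2 μ ρ t t) ^ n := by
  have h0 : Measure.pi (fun _ : Fin (n + 1) => nuM μ) (chainSet ρ t Q n) =
      volume Q * ∫⁻ w, chT μ ρ t n w ∂μ := by
    rw [pi_succ_apply_chain _ _ (measurableSet_chainSet ρ t hQ n)]
    have h1 : ∀ y : Mark d, Measure.pi (fun _ : Fin n => nuM μ)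
        {z | (Fin.cons y z : Fin (n + 1) → Mark d) ∈ chainSet ρ t Q n} =
        Set.indicator Q (fun _ => (1 : ℝ≥0∞)) y.1 * chT μ ρ t n y.2 := by
      intro y
      by_cases hy : y.1 ∈ Q
      · rw [Set.indicator_of_mem hy, one_mul, ← pi_chainFrom μ ρ t n y]
        congr 1
        ext z
        simp [chainFrom, chainSet, hy]
      · rw [Set.indicator_of_notMem hy, zero_mul]
        have h3 : {z | (Fin.cons y z : Fin (n + 1) → Mark d) ∈ chainSet ρ t Q n} = ∅ := by
          ext z
          simp [chainSet, hy]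
        rw [h3]
        simp
    rw [lintegral_congr h1, nuM, lintegral_prod_mul
      (measurable_const.indicator hQ).aemeasurable (measurable_chT μ ρ t n).aemeasurable,
      lintegral_indicator_const hQ, one_mul]
  have h2 : (∫⁻ w, chT μ ρ t n w ∂μ) ^ 2 ≤ ∫⁻ w, chT μ ρ t n w ^ 2 ∂μ := by
    have h := lintegral_mul_sq_le_chain μ (f := fun _ => (1 : ℝ≥0∞)) (g := chT μ ρ t n)
      aemeasurable_const (measurable_chT μ ρ t n).aemeasurable
    simpa using h
  rw [h0, mul_pow]
  exact mul_le_mul_right (h2.trans (lintegral_chT_sq_le μ ρ t n)) _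

end WSP
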