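import Mathlib

/-!
# Piece CHEB
-/

open MeasureTheory ProbabilityTheory Filter Topology
open scoped ENNReal NNReal

namespace WSP

variable {Ω : Type*}

theorem cheb_pt1 {e x : ℝ≥0∞} (he : e ≠ ∞) : (e - x) ^ 2 + 2 * e * x ≤ e ^ 2 + x ^ 2 := by
  rcases le_total x e with h | h
  · obtain ⟨d, rfl⟩ := exists_add_of_le h
    have hx : x ≠ ∞ := ne_top_of_le_ne_top he h
    rw [ENNReal.add_sub_cancel_left hx]
    apply le_of_eq
    ring
  · obtain ⟨d, rfl⟩ := exists_add_of_le h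
    rw [tsub_eq_zero_of_le (le_self_add : e ≤ e + d)]
    calc (0 : ℝ≥0∞) ^ 2 + 2 * e * (e + d) ≤ (2 * e * (e + d)) + d ^ 2 := by
          rw [zero_pow two_ne_zero, zero_add]
          exact le_self_add
      _ = e ^ 2 + (e + d) ^ 2 := by ring

theorem cheb_pt2 {e x : ℝ≥0∞} (he : e ≠ ∞) : (x - e) ^ 2 + 2 * e * x ≤ e ^ 2 + x ^ 2 := by
  rcases le_total x e with h | h
  · rw [tsub_eq_zero_of_le h]
    obtain ⟨d, rfl⟩ := exists_add_of_le h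
    calc (0 : ℝ≥0∞) ^ 2 + 2 * (x + d) * x ≤ (2 * (x + d) * x) + d ^ 2 := by
          rw [zero_pow two_ne_zero, zero_add]
          exact le_self_add
      _ = (x + d) ^ 2 + x ^ 2 := by ring
  · obtain ⟨d, rfl⟩ := exists_add_of_le h
    rw [ENNReal.add_sub_cancel_left he]
    apply le_of_eq
    ring

theorem cheb_cancel [MeasurableSpace Ω] {P : Measure Ω} [IsProbabilityMeasure P] {S F : Ω → ℝ≥0∞}
    (hS : Measurable S) (hF : Measurable F) {e v : ℝ≥0∞} (he : ∫⁻ ω, S ω ∂P = e) (he' : e ≠ ∞)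
    (hv : ∫⁻ ω, (S ω) ^ 2 ∂P ≤ e ^ 2 + v) (hp : ∀ ω, F ω + 2 * e * S ω ≤ e ^ 2 + S ω ^ 2) :
    ∫⁻ ω, F ω ∂P ≤ v := by
  have h1 : ∫⁻ ω, (F ω + 2 * e * S ω) ∂P ≤ ∫⁻ ω, (e ^ 2 + S ω ^ 2) ∂P := lintegral_mono hp
  rw [lintegral_add_left hF, lintegral_const_mul _ hS, he, lintegral_add_left measurable_const,
    lintegral_const, measure_univ, mul_one] at h1
  have h2 : ∫⁻ ω, F ω ∂P + 2 * e * e ≤ v + 2 * e * e := by
    calc ∫⁻ ω, F ω ∂P + 2 * e * e ≤ e ^ 2 + ∫⁻ ω, S ω ^ 2 ∂P := h1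
      _ ≤ e ^ 2 + (e ^ 2 + v) := by gcongr
      _ = v + 2 * e * e := by ring
  have h3 : 2 * e * e ≠ ∞ := ENNReal.mul_ne_top (ENNReal.mul_ne_top (by norm_num) he') he'
  exact (ENNReal.add_le_add_iff_right h3).1 h2

/-- Piece CHEB: Chebyshev inequality, lower tail. -/
theorem cheb_lower [MeasurableSpace Ω] {P : Measure Ω} [IsProbabilityMeasure P] {S : Ω → ℝ≥0∞}
    (hS : Measurable S) {e v : ℝ≥0∞} (he : ∫⁻ ω, S ω ∂P = e) (he' : e ≠ ∞)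
    (hv : ∫⁻ ω, (S ω) ^ 2 ∂P ≤ e ^ 2 + v) {a : ℝ≥0∞} (ha : a < e) :
    P {ω | S ω ≤ a} ≤ v / (e - a) ^ 2 := by
  have h1 : ∫⁻ ω, (e - S ω) ^ 2 ∂P ≤ v :=
    cheb_cancel hS ((measurable_const.sub hS).pow_const 2) he he' hv
      (fun ω => cheb_pt1 he')
  have h2 := mul_meas_ge_le_lintegral (μ := P) ((measurable_const.sub hS).pow_const 2 :
    Measurable fun ω => (e - S ω) ^ 2) ((e - a) ^ 2)
  have h0 : (e - a) ^ 2 ≠ 0 := pow_ne_zero 2 (tsub_pos_of_lt ha).ne'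
  have ht : (e - a) ^ 2 ≠ ∞ := ENNReal.pow_ne_top (ENNReal.sub_ne_top he')
  rw [ENNReal.le_div_iff_mul_le (Or.inl h0) (Or.inl ht), mul_comm]
  refine le_trans (mul_le_mul' le_rfl (measure_mono ?_)) (h2.trans h1)
  intro ω h
  show (e - a) ^ 2 ≤ (e - S ω) ^ 2
  have h' : S ω ≤ a := h
  gcongr

/-- Piece CHEB: Chebyshev inequality, upper tail. -/
theorem cheb_upper [MeasurableSpace Ω] {P : Measure Ω} [IsProbabilityMeasure P] {S : Ω → ℝ≥0∞}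
    (hS : Measurable S) {e v : ℝ≥0∞} (he : ∫⁻ ω, S ω ∂P = e) (he' : e ≠ ∞)
    (hv : ∫⁻ ω, (S ω) ^ 2 ∂P ≤ e ^ 2 + v) {b : ℝ≥0∞} (hb : e < b) :
    P {ω | b ≤ S ω} ≤ v / (b - e) ^ 2 := by
  have h1 : ∫⁻ ω, (S ω - e) ^ 2 ∂P ≤ v :=
    cheb_cancel hS ((hS.sub measurable_const).pow_const 2) he he' hv
      (fun ω => cheb_pt2 he')
  by_cases hbt : b = ∞
  · subst hbt
    have h3 : ∀ᵐ ω ∂P, S ω < ∞ := ae_lt_top hS (by rw [he]; exact he')
    have h4 : P {ω | ∞ ≤ S ω} = 0 := by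
      rw [ae_iff] at h3
      refine le_antisymm (le_trans (measure_mono ?_) h3.le) bot_le
      intro ω h
      have h' : ∞ ≤ S ω := h
      exact not_lt.2 h'
    rw [h4]
    exact bot_le
  · have h2 := mul_meas_ge_le_lintegral (μ := P) ((hS.sub measurable_const).pow_const 2 :
      Measurable fun ω => (S ω - e) ^ 2) ((b - e) ^ 2)
    have h0 : (b - e) ^ 2 ≠ 0 := pow_ne_zero 2 (tsub_pos_of_lt hb).ne'
    have ht : (b - e) ^ 2 ≠ ∞ := ENNReal.pow_ne_top (ENNReal.sub_ne_top hbt)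
    rw [ENNReal.le_div_iff_mul_le (Or.inl h0) (Or.inl ht), mul_comm]
    refine le_trans (mul_le_mul' le_rfl (measure_mono ?_)) (h2.trans h1)
    intro ω h
    show (b - e) ^ 2 ≤ (S ω - e) ^ 2
    have h' : b ≤ S ω := h
    gcongr

end WSP
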