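import Mathlib

/-!
# Piece CHOOSEN: elementary asymptotics

`2 ^ (⌊U R ^ d⌋₊ / A) * (1 - p) ^ ⌈a R ^ d⌉₊ → 0` as `R → ∞` if `U log 2 / A < a p`
(`(1 - p) ≤ exp (- p)`, `2 ^ (⌊U R ^ d⌋₊ / A) ≤ exp (log 2 * U R ^ d / A)`; if `p ≥ 1` then `1 - p = 0`).
`choose_n`: an exponential beats a polynomial.
-/

open MeasureTheory ProbabilityTheory Filter Topology
open scoped ENNReal NNReal

namespace WSP

variable {d : ℕ}

theorem choosen_bound {U a s : ℝ} {A : ℕ} (hA : 0 < A) (hU : 0 ≤ U) (hs : 0 ≤ s)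
    {p : ℝ≥0∞} (hp : p ≠ ∞) :
    (2 : ℝ≥0∞) ^ (⌊U * s⌋₊ / A) * (1 - p) ^ ⌈a * s⌉₊ ≤
      ENNReal.ofReal (Real.exp ((U * Real.log 2 / A - a * p.toReal) * s)) := by
  have hp0 : 0 ≤ p.toReal := ENNReal.toReal_nonneg
  have hAR : (0 : ℝ) < A := by exact_mod_cast hA
  have h1 : (2 : ℝ≥0∞) ^ (⌊U * s⌋₊ / A) ≤
      ENNReal.ofReal (Real.exp (U * Real.log 2 / A * s)) := by
    have e2 : (2 : ℝ≥0∞) = ENNReal.ofReal 2 := by simp
    rw [e2, ← ENNReal.ofReal_pow (by norm_num)]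
    refine ENNReal.ofReal_le_ofReal ?_
    have h2 : ((⌊U * s⌋₊ / A : ℕ) : ℝ) ≤ U * s / A := by
      refine Nat.cast_div_le.trans ?_
      exact div_le_div_of_nonneg_right (Nat.floor_le (mul_nonneg hU hs)) hAR.le
    have h3 : (2 : ℝ) ^ (⌊U * s⌋₊ / A) = Real.exp (Real.log 2 * (⌊U * s⌋₊ / A : ℕ)) := by
      rw [mul_comm (Real.log 2), Real.exp_nat_mul, Real.exp_log (by norm_num)]
    rw [h3]
    refine Real.exp_le_exp.2 ?_
    have h4 : U * Real.log 2 / A * s = Real.log 2 * (U * s / A) := by ring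
    rw [h4]
    exact mul_le_mul_of_nonneg_left h2 (Real.log_nonneg (by norm_num))
  have h2 : (1 - p) ^ ⌈a * s⌉₊ ≤ ENNReal.ofReal (Real.exp (-(a * p.toReal * s))) := by
    have h3 : 1 - p ≤ ENNReal.ofReal (Real.exp (-p.toReal)) := by
      have h4 : 1 - p = ENNReal.ofReal (1 - p.toReal) := by
        rw [ENNReal.ofReal_sub _ hp0, ENNReal.ofReal_one, ENNReal.ofReal_toReal hp]
      rw [h4]
      refine ENNReal.ofReal_le_ofReal ?_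
      have := Real.add_one_le_exp (-p.toReal)
      linarith
    calc (1 - p) ^ ⌈a * s⌉₊ ≤ (ENNReal.ofReal (Real.exp (-p.toReal))) ^ ⌈a * s⌉₊ :=
          pow_le_pow_left₀ bot_le h3 _
      _ = ENNReal.ofReal (Real.exp ((⌈a * s⌉₊ : ℝ) * (-p.toReal))) := by
          rw [← ENNReal.ofReal_pow (Real.exp_pos _).le, Real.exp_nat_mul]
      _ ≤ ENNReal.ofReal (Real.exp (-(a * p.toReal * s))) := by
          refine ENNReal.ofReal_le_ofReal (Real.exp_le_exp.2 ?_)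
          have h5 := mul_le_mul_of_nonneg_right (Nat.le_ceil (a * s)) hp0
          linarith
  calc (2 : ℝ≥0∞) ^ (⌊U * s⌋₊ / A) * (1 - p) ^ ⌈a * s⌉₊
      ≤ ENNReal.ofReal (Real.exp (U * Real.log 2 / A * s)) *
        ENNReal.ofReal (Real.exp (-(a * p.toReal * s))) := mul_le_mul' h1 h2
    _ = ENNReal.ofReal (Real.exp ((U * Real.log 2 / A - a * p.toReal) * s)) := by
        rw [← ENNReal.ofReal_mul (Real.exp_pos _).le, ← Real.exp_add]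
        congr 2
        ring

/-- Piece CHOOSEN, limit in `R`. -/
theorem union_tendsto (hd : 1 ≤ d) {U a : ℝ} {A : ℕ} (hA : 0 < A) (hU : 0 ≤ U) (ha : 0 < a)
    {p : ℝ≥0∞} (h : U * Real.log 2 / A < a * p.toReal) :
    Tendsto (fun R : ℕ => (2 : ℝ≥0∞) ^ (⌊U * (R : ℝ) ^ d⌋₊ / A) * (1 - p) ^ ⌈a * (R : ℝ) ^ d⌉₊)
      atTop (𝓝 0) := by
  have hAR : (0 : ℝ) < A := by exact_mod_cast hA
  have hp : p ≠ ∞ := by
    rintro rfl
    rw [ENNReal.toReal_top, mul_zero] at h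
    have h1 : 0 ≤ U * Real.log 2 / A :=
      div_nonneg (mul_nonneg hU (Real.log_nonneg (by norm_num))) hAR.le
    linarith
  have h1 : Tendsto (fun R : ℕ => (U * Real.log 2 / A - a * p.toReal) * (R : ℝ) ^ d)
      atTop atBot := by
    refine Tendsto.const_mul_atTop_of_neg (by linarith) ?_
    exact (tendsto_pow_atTop (by omega)).comp tendsto_natCast_atTop_atTop
  have h2 := ENNReal.tendsto_ofReal (Real.tendsto_exp_atBot.comp h1)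
  rw [ENNReal.ofReal_zero] at h2
  refine tendsto_of_tendsto_of_tendsto_of_le_of_le tendsto_const_nhds h2 (fun _ => bot_le) ?_
  intro R
  exact choosen_bound hA hU (by positivity) hp

/-- Piece CHOOSEN, choice of `n`. -/
theorem choose_n (d CD : ℕ) {m₀ q : ℝ} (hm : 1 < m₀) (hq : 0 < q) :
    ∃ n : ℕ, 1 ≤ n ∧ 2 * (2 * ((CD * n ^ 2 : ℕ) + 1 : ℝ) + 1) ^ d * Real.log 2 /
      (⌈m₀ ^ n / 8⌉₊ : ℝ) < q / (10 ^ 6 * (2 * ((CD * n ^ 2 : ℕ) : ℝ) + 7) ^ 2) := by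
  obtain ⟨K, hK⟩ : ∃ K : ℝ, K = 2 * (2 * (CD : ℝ) + 3) ^ d * Real.log 2 *
    (10 ^ 6 * (2 * (CD : ℝ) + 7) ^ 2) := ⟨_, rfl⟩
  have hlog : 0 ≤ Real.log 2 := Real.log_nonneg (by norm_num)
  have h1 := (tendsto_pow_const_div_const_pow_of_one_lt (2 * d + 4) hm).const_mul K
  rw [mul_zero] at h1
  obtain ⟨n, hn1, hn2⟩ := ((h1.eventually_lt_const (by positivity : (0 : ℝ) < q / 8)).and
    (eventually_ge_atTop 1)).exists
  refine ⟨n, hn2, ?_⟩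
  have hm0 : (0 : ℝ) < m₀ := by linarith
  have hmn : (0 : ℝ) < m₀ ^ n := pow_pos hm0 n
  have hn : (1 : ℝ) ≤ n := by exact_mod_cast hn2
  have hn3 : (1 : ℝ) ≤ (n : ℝ) ^ 2 := one_le_pow₀ hn
  have hC : (0 : ℝ) ≤ CD := Nat.cast_nonneg _
  have hceil : m₀ ^ n / 8 ≤ (⌈m₀ ^ n / 8⌉₊ : ℝ) := Nat.le_ceil _
  have hceil0 : (0 : ℝ) < (⌈m₀ ^ n / 8⌉₊ : ℝ) := lt_of_lt_of_le (by positivity) hceil
  push_cast
  rw [div_lt_div_iff₀ hceil0 (by positivity)]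
  have h2 : 2 * ((CD : ℝ) * n ^ 2 + 1) + 1 ≤ (2 * (CD : ℝ) + 3) * (n : ℝ) ^ 2 := by nlinarith
  have h3 : 2 * ((CD : ℝ) * n ^ 2) + 7 ≤ (2 * (CD : ℝ) + 7) * (n : ℝ) ^ 2 := by nlinarith
  have h4 : (2 * ((CD : ℝ) * n ^ 2 + 1) + 1) ^ d ≤ ((2 * (CD : ℝ) + 3) * (n : ℝ) ^ 2) ^ d :=
    pow_le_pow_left₀ (by positivity) h2 d
  have h5 : (2 * ((CD : ℝ) * n ^ 2) + 7) ^ 2 ≤ ((2 * (CD : ℝ) + 7) * (n : ℝ) ^ 2) ^ 2 :=
    pow_le_pow_left₀ (by positivity) h3 2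
  have h6 : K * (n : ℝ) ^ (2 * d + 4) < q / 8 * m₀ ^ n := by
    have h7 : K * ((n : ℝ) ^ (2 * d + 4) / m₀ ^ n) * m₀ ^ n = K * (n : ℝ) ^ (2 * d + 4) := by
      field_simp
    rw [← h7]
    exact mul_lt_mul_of_pos_right hn1 hmn
  calc 2 * (2 * ((CD : ℝ) * n ^ 2 + 1) + 1) ^ d * Real.log 2 *
        (10 ^ 6 * (2 * ((CD : ℝ) * n ^ 2) + 7) ^ 2)
      ≤ 2 * ((2 * (CD : ℝ) + 3) * (n : ℝ) ^ 2) ^ d * Real.log 2 *
        (10 ^ 6 * ((2 * (CD : ℝ) + 7) * (n : ℝ) ^ 2) ^ 2) := by gcongr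
    _ = K * (n : ℝ) ^ (2 * d + 4) := by
        rw [hK, mul_pow, mul_pow, ← pow_mul, ← pow_mul]
        have e : (n : ℝ) ^ (2 * d + 4) = (n : ℝ) ^ (2 * d) * (n : ℝ) ^ (2 * 2) := by
          rw [← pow_add]
        rw [e]
        ring
    _ < q / 8 * m₀ ^ n := h6
    _ = q * (m₀ ^ n / 8) := by ring
    _ ≤ q * (⌈m₀ ^ n / 8⌉₊ : ℝ) := mul_le_mul_of_nonneg_left hceil hq.le

end WSP
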