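import Pool.Agent.Lib_MP_c175fd.CntVar
import Pool.Agent.Lib_MP_c175fd.PatCyc
import Pool.Agent.Lib_MP_c175fd.Cheb

/-! Counting tuples of points with the Mecke property. -/


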