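import Mathlib

/-!
# Counting tuples of points with the Mecke property (definitions; piece CNTD: the two sorries)

`cnt pres y A ω` is the number of injective maps `a : V ↪ I` whose values are all present and whose
marks `(y (a v) ω)_v` lie in `A`. `MeckeProp` says that its mean is `ν^V (A)` for all finite `V`.
-/

open MeasureTheory ProbabilityTheory Filter Topology
open scoped ENNReal NNReal

namespace WSP

variable {Ω I Y : Type*}

/-- Number of injective tuples of present indices, indexed by `V`, with marks in `A`. -/
noncomputable def cnt (pres : I → Set Ω) (y : I → Ω → Y) {V : Type*} (A : Set (V → Y)) (ω : Ω) :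
    ℝ≥0∞ :=
  ∑' a : V ↪ I, Set.indicator {ω | (∀ v, ω ∈ pres (a v)) ∧ (fun v => y (a v) ω) ∈ A}
    (fun _ => (1 : ℝ≥0∞)) ω

/-- The (multivariate) Mecke formula: the mean of the number of tuples of present points. -/
def MeckeProp [MeasurableSpace Ω] [MeasurableSpace Y] (P : Measure Ω) (pres : I → Set Ω)
    (y : I → Ω → Y) (ν : Measure Y) : Prop :=
  ∀ (V : Type) [Fintype V] (A : Set (V → Y)), MeasurableSet A →
    ∫⁻ ω, cnt pres y A ω ∂P = Measure.pi (fun _ : V => ν) A

theorem measurable_cnt [MeasurableSpace Ω] [MeasurableSpace Y] [Countable I] {pres : I → Set Ω}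
    (hp : ∀ i, MeasurableSet (pres i)) {y : I → Ω → Y} (hy : ∀ i, Measurable (y i)) {V : Type}
    [Fintype V] {A : Set (V → Y)} (hA : MeasurableSet A) : Measurable (cnt pres y A) := by
  have hc : Countable (V ↪ I) := Function.Injective.countable (f := fun a : V ↪ I => (a : V → I))
    DFunLike.coe_injective
  unfold cnt
  refine Measurable.ennreal_tsum fun a => ?_
  refine measurable_const.indicator ?_
  have h1 : {ω : Ω | (∀ v, ω ∈ pres (a v)) ∧ (fun v => y (a v) ω) ∈ A} =
      (⋂ v, pres (a v)) ∩ (fun ω v => y (a v) ω) ⁻¹' A := by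
    ext ω
    simp only [Set.mem_setOf_eq, Set.mem_inter_iff, Set.mem_iInter, Set.mem_preimage]
  rw [h1]
  exact (MeasurableSet.iInter fun v => hp (a v)).inter
    ((measurable_pi_lambda _ fun v => hy (a v)) hA)

/-- The ways of gluing two index types: equivalence relations on the disjoint union which do not
identify different elements of the same part. -/
def Gluing (V V' : Type) : Type :=
  {s : Setoid (V ⊕ V') // (∀ v w : V, s (Sum.inl v) (Sum.inl w) → v = w) ∧
    (∀ v w : V', s (Sum.inr v) (Sum.inr w) → v = w)}

/-- Tuples over the glued index type whose two restrictions lie in `A` and `A'`. -/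
def glueSet {V V' : Type} (s : Gluing V V') (A : Set (V → Y)) (A' : Set (V' → Y)) :
    Set (Quotient s.1 → Y) :=
  {z | (fun v => z (Quotient.mk s.1 (Sum.inl v))) ∈ A ∧
    (fun v => z (Quotient.mk s.1 (Sum.inr v))) ∈ A'}

instance (V V' : Type) [Finite V] [Finite V'] : Finite (Gluing V V') := by
  refine Finite.of_injective (fun s : Gluing V V' => fun a b : V ⊕ V' => s.1 a b) ?_
  intro s s' h
  refine Subtype.ext (Setoid.ext fun a b => ?_)
  have h1 := congrFun (congrFun h a) b
  exact iff_of_eq h1

noncomputable instance {V V' : Type} [Fintype V] [Fintype V'] (s : Gluing V V') :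
    Fintype (Quotient s.1) := Fintype.ofFinite _

/-- The marks satisfy the relation along all edges of the graph. -/
def Sat {V : Type*} (G : SimpleGraph V) (rel : Y → Y → Prop) (z : V → Y) : Prop :=
  ∀ u v, G.Adj u v → rel (z u) (z v)

end WSP
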