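import Pool.Agent.Lib_MP_c175fd.CntDefs

/-!
# Piece GBL
-/

open MeasureTheory ProbabilityTheory Filter Topology
open scoped ENNReal NNReal

namespace WSP

variable {Ω I Y : Type*}

/-- indicator of a relation -/
noncomputable def gblInd (rel : Y → Y → Prop) (a b : Y) : ℝ≥0∞ :=
  Set.indicator {p : Y × Y | rel p.1 p.2} (fun _ => (1 : ℝ≥0∞)) (a, b)

theorem gblInd_measurable [MeasurableSpace Y] {rel : Y → Y → Prop}
    (hrel : MeasurableSet {p : Y × Y | rel p.1 p.2}) {V : Type*} (u v : V) :
    Measurable (fun z : V → Y => gblInd rel (z u) (z v)) :=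
  (measurable_const.indicator hrel).comp
    ((measurable_pi_apply u).prodMk (measurable_pi_apply v))

theorem gblInd_lintegral [MeasurableSpace Y] {ν : Measure Y} {rel : Y → Y → Prop}
    (hrel : MeasurableSet {p : Y × Y | rel p.1 p.2}) (a : Y) :
    ∫⁻ b, gblInd rel a b ∂ν = ν {b | rel a b} := by
  have h1 : (fun b => gblInd rel a b) = Set.indicator {b | rel a b} (fun _ => (1 : ℝ≥0∞)) := by
    funext b
    rfl
  have h2 : MeasurableSet {b | rel a b} := measurable_prodMk_left hrel
  rw [h1, lintegral_indicator_const h2, one_mul]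

/-- pull a factor which does not depend on the integrated coordinates out of `lmarginal` -/
theorem gbl_pull [MeasurableSpace Y] {ν : Measure Y} [SigmaFinite ν] {V : Type*} [DecidableEq V]
    (T : Finset V) (f g : (V → Y) → ℝ≥0∞) (hg : Measurable g)
    (hf : ∀ x y : V → Y, (∀ i ∉ T, x i = y i) → f x = f y) (z : V → Y) :
    lmarginal (fun _ : V => ν) T (fun z => f z * g z) z =
      f z * lmarginal (fun _ : V => ν) T g z := by
  unfold lmarginal
  have hgm : Measurable (fun y : (i : T) → Y => g (Function.updateFinset z T y)) :=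
    hg.comp measurable_updateFinset
  rw [← lintegral_const_mul (f z) hgm]
  refine lintegral_congr (fun y => ?_)
  beta_reduce
  rw [hf (Function.updateFinset z T y) z]
  intro i hi
  simp only [Function.updateFinset_def, dif_neg hi]

/-- integrating the vertices of `T`, each one related to its parent -/
theorem gbl_marg [MeasurableSpace Y] {ν : Measure Y} [SigmaFinite ν] {rel : Y → Y → Prop}
    (hrel : MeasurableSet {p : Y × Y | rel p.1 p.2}) {M : ℝ≥0∞} (hM : ∀ a, ν {b | rel a b} ≤ M)
    {V : Type*} [DecidableEq V] (p : V → V) (r : V → ℕ) :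
    ∀ (n : ℕ) (T : Finset V), T.card = n → (∀ v ∈ T, r (p v) < r v) → ∀ z : V → Y,
      lmarginal (fun _ : V => ν) T (fun z => ∏ v ∈ T, gblInd rel (z (p v)) (z v)) z ≤ M ^ n := by
  intro n
  induction n with
  | zero =>
    intro T hT _ z
    rw [Finset.card_eq_zero] at hT
    subst hT
    rw [lmarginal_empty, Finset.prod_empty, pow_zero]
  | succ n ih =>
    intro T hT hr z
    have hne : T.Nonempty := by
      rw [← Finset.card_pos, hT]
      exact Nat.succ_pos n
    obtain ⟨v, hv, hmin⟩ := T.exists_min_image r hne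
    have hpv : p v ∉ T := fun h => absurd (hmin _ h) (not_le.mpr (hr v hv))
    have hpne : p v ≠ v := fun h => absurd (hr v hv) (by rw [h]; exact lt_irrefl _)
    have hmeas : ∀ S : Finset V,
        Measurable (fun z : V → Y => ∏ v ∈ S, gblInd rel (z (p v)) (z v)) := fun S =>
      Finset.measurable_fun_prod S (fun v _ => gblInd_measurable hrel (p v) v)
    rw [lmarginal_erase _ (hmeas T) hv]
    have hsplit : (fun z : V → Y => ∏ v ∈ T, gblInd rel (z (p v)) (z v)) =
        fun z => gblInd rel (z (p v)) (z v) *
          ∏ v ∈ T.erase v, gblInd rel (z (p v)) (z v) := by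
      funext z
      exact (Finset.mul_prod_erase T (fun v => gblInd rel (z (p v)) (z v)) hv).symm
    have hcard : (T.erase v).card = n := by
      rw [Finset.card_erase_of_mem hv, hT, Nat.add_sub_cancel]
    have hr' : ∀ u ∈ T.erase v, r (p u) < r u := fun u hu => hr u (Finset.mem_of_mem_erase hu)
    calc ∫⁻ y, lmarginal (fun _ : V => ν) (T.erase v)
          (fun z => ∏ v ∈ T, gblInd rel (z (p v)) (z v)) (Function.update z v y) ∂ν
        = ∫⁻ y, gblInd rel (z (p v)) y * lmarginal (fun _ : V => ν) (T.erase v)
            (fun z => ∏ v ∈ T.erase v, gblInd rel (z (p v)) (z v)) (Function.update z v y) ∂ν := by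
          refine lintegral_congr (fun y => ?_)
          rw [hsplit, gbl_pull (T.erase v) (fun z => gblInd rel (z (p v)) (z v)) _
            (hmeas (T.erase v))]
          · simp only [Function.update_self, Function.update_of_ne hpne]
          · intro x x' hxx
            rw [hxx (p v) (fun h => hpv (Finset.mem_of_mem_erase h)),
              hxx v (Finset.notMem_erase v T)]
      _ ≤ ∫⁻ y, gblInd rel (z (p v)) y * M ^ n ∂ν := by
          refine lintegral_mono (fun y => ?_)
          exact mul_le_mul_right (ih (T.erase v) hcard hr' _) _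
      _ = ν {b | rel (z (p v)) b} * M ^ n := by
          have hm : Measurable (fun y => gblInd rel (z (p v)) y) :=
            (measurable_const.indicator hrel).comp measurable_prodMk_left
          rw [lintegral_mul_const _ hm, gblInd_lintegral hrel]
      _ ≤ M * M ^ n := mul_le_mul_left (hM _) _
      _ = M ^ (n + 1) := by rw [pow_succ, mul_comm]

/-- Piece GBL: the measure of a connected pattern with root in `Q`. Induction on the number of
vertices: a vertex `v ≠ v₀` at maximal distance from `v₀` can be removed (the rest stays connected, see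
`SimpleGraph.Connected.induce_compl_singleton_of_degree_eq_one` or use the distance function as a
rank: every `v ≠ v₀` has a neighbour `p v` with `dist v₀ (p v) < dist v₀ v`; keep only the edges
`{p v, v}` and integrate the vertices in decreasing order of the rank, e.g. with
`MeasureTheory.lmarginal`). -/
theorem pi_pattern_le [MeasurableSpace Y] {ν : Measure Y} [SigmaFinite ν] {rel : Y → Y → Prop}
    (hrel : MeasurableSet {p : Y × Y | rel p.1 p.2}) (hsymm : ∀ a b, rel a b → rel b a)
    {M : ℝ≥0∞} (hM : ∀ a, ν {b | rel a b} ≤ M) {V : Type} [Fintype V] {G : SimpleGraph V}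
    (hG : G.Connected) (v₀ : V) {Q : Set Y} (hQ : MeasurableSet Q) :
    Measure.pi (fun _ : V => ν) {z | z v₀ ∈ Q ∧ Sat G rel z} ≤ ν Q * M ^ (Fintype.card V - 1) := by
  classical
  -- parents
  have hpar : ∀ v : V, ∃ u : V, v ≠ v₀ → G.Adj u v ∧ G.dist v₀ u < G.dist v₀ v := by
    intro v
    by_cases hv : v = v₀
    · exact ⟨v, fun h => absurd hv h⟩
    · obtain ⟨w, hw⟩ := (hG v v₀).exists_walk_length_eq_dist
      cases w with
      | nil => exact absurd rfl hv
      | cons h q =>
        rename_i u
        refine ⟨u, fun _ => ⟨h.symm, ?_⟩⟩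
        have h1 : G.dist u v₀ ≤ q.length := SimpleGraph.dist_le q
        rw [SimpleGraph.Walk.length_cons] at hw
        rw [SimpleGraph.dist_comm (u := v₀) (v := u), SimpleGraph.dist_comm (u := v₀) (v := v)]
        omega
  choose p hp using hpar
  set T : Finset V := Finset.univ.erase v₀ with hT
  have hTcard : T.card = Fintype.card V - 1 := by
    rw [hT, Finset.card_erase_of_mem (Finset.mem_univ _), Finset.card_univ]
  have hTr : ∀ v ∈ T, G.dist v₀ (p v) < G.dist v₀ v := fun v hv =>
    (hp v (Finset.ne_of_mem_erase hv)).2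
  have hmeas : Measurable (fun z : V → Y => ∏ v ∈ T, gblInd rel (z (p v)) (z v)) :=
    Finset.measurable_fun_prod T (fun v _ => gblInd_measurable hrel (p v) v)
  have hmQ : Measurable (fun z : V → Y => Q.indicator (fun _ => (1 : ℝ≥0∞)) (z v₀)) :=
    (measurable_const.indicator hQ).comp (measurable_pi_apply v₀)
  set F : (V → Y) → ℝ≥0∞ := fun z => Q.indicator (fun _ => (1 : ℝ≥0∞)) (z v₀) *
    ∏ v ∈ T, gblInd rel (z (p v)) (z v) with hF
  have hFm : Measurable F := hmQ.mul hmeas
  have hsub : {z : V → Y | z v₀ ∈ Q ∧ Sat G rel z} ⊆ {z | 1 ≤ F z} := by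
    rintro z ⟨hz1, hz2⟩
    have h1 : F z = 1 := by
      simp only [hF]
      rw [Set.indicator_of_mem hz1, one_mul]
      refine Finset.prod_eq_one ?_
      intro v hv
      have h2 : ((z (p v), z v) : Y × Y) ∈ {p : Y × Y | rel p.1 p.2} :=
        hz2 _ _ (hp v (Finset.ne_of_mem_erase hv)).1
      unfold gblInd
      rw [Set.indicator_of_mem h2]
    exact h1.symm.le
  have hle : Measure.pi (fun _ : V => ν) {z | z v₀ ∈ Q ∧ Sat G rel z} ≤
      ∫⁻ z, F z ∂(Measure.pi (fun _ : V => ν)) := by
    refine (measure_mono hsub).trans ?_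
    have := mul_meas_ge_le_lintegral (μ := Measure.pi (fun _ : V => ν)) hFm 1
    rwa [one_mul] at this
  refine hle.trans ?_
  rcases isEmpty_or_nonempty Y with hY | ⟨⟨y₀⟩⟩
  · have hemp : IsEmpty (V → Y) := ⟨fun z => hY.false (z v₀)⟩
    rw [Measure.eq_zero_of_isEmpty (Measure.pi (fun _ : V => ν)), lintegral_zero_measure]
    exact zero_le
  · rw [lintegral_eq_lmarginal_univ (fun _ : V => y₀),
      lmarginal_erase F hFm (Finset.mem_univ v₀)]
    calc ∫⁻ y, lmarginal (fun _ : V => ν) (Finset.univ.erase v₀) F
          (Function.update (fun _ : V => y₀) v₀ y) ∂ν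
        ≤ ∫⁻ y, Q.indicator (fun _ => (1 : ℝ≥0∞)) y * M ^ (Fintype.card V - 1) ∂ν := by
          refine lintegral_mono (fun y => ?_)
          rw [hF, gbl_pull (Finset.univ.erase v₀)
            (fun z => Q.indicator (fun _ => (1 : ℝ≥0∞)) (z v₀)) _ hmeas]
          · simp only [Function.update_self]
            refine mul_le_mul_right ?_ _
            exact gbl_marg hrel hM p (fun v => G.dist v₀ v) _ T hTcard hTr _
          · intro x x' hxx
            rw [hxx v₀ (Finset.notMem_erase v₀ _)]
      _ = ν Q * M ^ (Fintype.card V - 1) := by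
          rw [lintegral_mul_const _ (measurable_const.indicator hQ), lintegral_indicator_const hQ,
            one_mul]

end WSP
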