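import Pool.Agent.Lib_MP_c175fd.Glue
import Pool.Agent.Lib_MP_c175fd.PatLe

/-!
# Piece GVL
-/

open MeasureTheory ProbabilityTheory Filter Topology
open scoped ENNReal NNReal

namespace WSP

variable {Ω I Y : Type*}

/-- first embedding into the glued vertex set -/
private def gvlL {V V' : Type} (s : Gluing V V') : V ↪ Quotient s.1 :=
  ⟨fun v => Quotient.mk s.1 (Sum.inl v), fun v w h => s.2.1 v w (Quotient.exact h)⟩

/-- second embedding into the glued vertex set -/
private def gvlR {V V' : Type} (s : Gluing V V') : V' ↪ Quotient s.1 :=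
  ⟨fun v => Quotient.mk s.1 (Sum.inr v), fun v w h => s.2.2 v w (Quotient.exact h)⟩

private theorem gvl_cases {V V' : Type} (s : Gluing V V') (x : Quotient s.1) :
    (∃ v, gvlL s v = x) ∨ ∃ v, gvlR s v = x := by
  obtain ⟨u, rfl⟩ := Quotient.exists_rep x
  rcases u with v | v
  · exact Or.inl ⟨v, rfl⟩
  · exact Or.inr ⟨v, rfl⟩

private theorem gvl_connected {V : Type} {G : SimpleGraph V} (hG : G.Connected) (v₀ : V)
    (s : Gluing V V) {v v' : V} (h : s.1 (Sum.inl v) (Sum.inr v')) :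
    (G.map (gvlL s) ⊔ G.map (gvlR s)).Connected := by
  have h1 : ∀ a b : V, (G.map (gvlL s) ⊔ G.map (gvlR s)).Reachable (gvlL s a) (gvlL s b) := by
    intro a b
    exact ((hG a b).map (SimpleGraph.Embedding.map (gvlL s) G).toHom).mono le_sup_left
  have h2 : ∀ a b : V, (G.map (gvlL s) ⊔ G.map (gvlR s)).Reachable (gvlR s a) (gvlR s b) := by
    intro a b
    exact ((hG a b).map (SimpleGraph.Embedding.map (gvlR s) G).toHom).mono le_sup_right
  have h3 : gvlL s v = gvlR s v' := Quotient.sound h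
  have h4 : ∀ a b : V, (G.map (gvlL s) ⊔ G.map (gvlR s)).Reachable (gvlL s a) (gvlR s b) := by
    intro a b
    have h5 := h1 a v
    rw [h3] at h5
    exact h5.trans (h2 v' b)
  have : Nonempty (Quotient s.1) := ⟨gvlL s v₀⟩
  refine ⟨fun x y => ?_⟩
  rcases gvl_cases s x with ⟨a, rfl⟩ | ⟨a, rfl⟩ <;> rcases gvl_cases s y with ⟨b, rfl⟩ | ⟨b, rfl⟩
  · exact h1 a b
  · exact h4 a b
  · exact (h4 b a).symm
  · exact h2 a b

private theorem gvl_meas [MeasurableSpace Y] {V V' : Type} (s : Gluing V V') {A : Set (V → Y)}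
    {A' : Set (V' → Y)} (hA : MeasurableSet A) (hA' : MeasurableSet A') :
    MeasurableSet (glueSet s A A') := by
  have h1 : Measurable (fun (z : Quotient s.1 → Y) (v : V) => z (Quotient.mk s.1 (Sum.inl v))) :=
    measurable_pi_lambda _ fun v => measurable_pi_apply _
  have h2 : Measurable (fun (z : Quotient s.1 → Y) (v : V') => z (Quotient.mk s.1 (Sum.inr v))) :=
    measurable_pi_lambda _ fun v => measurable_pi_apply _
  exact (h1 hA).inter (h2 hA')

/-- a nontrivial gluing -/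
private theorem gvl_nontriv [MeasurableSpace Y] {ν : Measure Y} [SigmaFinite ν]
    {rel : Y → Y → Prop} (hrel : MeasurableSet {p : Y × Y | rel p.1 p.2})
    (hsymm : ∀ a b, rel a b → rel b a) {M : ℝ≥0∞} (hM : ∀ a, ν {b | rel a b} ≤ M) {V : Type}
    [Fintype V] {G : SimpleGraph V} (hG : G.Connected) (v₀ : V) {Q : Set Y} (hQ : MeasurableSet Q)
    {A : Set (V → Y)} (hAG : A ⊆ {z | z v₀ ∈ Q ∧ Sat G rel z})
    (s : Gluing V V) {v v' : V} (h : s.1 (Sum.inl v) (Sum.inr v')) :
    Measure.pi (fun _ : Quotient s.1 => ν) (glueSet s A A) ≤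
      (1 + M) ^ (2 * Fintype.card V) * ν Q := by
  have h1 : glueSet s A A ⊆ {z | z (gvlL s v₀) ∈ Q ∧
      Sat (G.map (gvlL s) ⊔ G.map (gvlR s)) rel z} := by
    rintro z ⟨hz1, hz2⟩
    have h3 := hAG hz1
    have h4 := hAG hz2
    refine ⟨h3.1, fun x y hxy => ?_⟩
    rcases hxy with hxy | hxy
    · obtain ⟨a, b, hab, rfl, rfl⟩ := (SimpleGraph.map_adj _ _ _ _).1 hxy
      exact h3.2 a b hab
    · obtain ⟨a, b, hab, rfl, rfl⟩ := (SimpleGraph.map_adj _ _ _ _).1 hxy
      exact h4.2 a b hab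
  have h2 := pi_pattern_le hrel hsymm hM (gvl_connected hG v₀ s h) (gvlL s v₀) hQ
  have hcard : Fintype.card (Quotient s.1) - 1 ≤ 2 * Fintype.card V := by
    have h5 : Fintype.card (Quotient s.1) ≤ Fintype.card (V ⊕ V) :=
      Fintype.card_le_of_surjective (Quotient.mk s.1) Quotient.exists_rep
    rw [Fintype.card_sum] at h5
    omega
  calc Measure.pi (fun _ : Quotient s.1 => ν) (glueSet s A A)
      ≤ Measure.pi (fun _ : Quotient s.1 => ν) {z | z (gvlL s v₀) ∈ Q ∧
          Sat (G.map (gvlL s) ⊔ G.map (gvlR s)) rel z} := measure_mono h1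
    _ ≤ ν Q * M ^ (Fintype.card (Quotient s.1) - 1) := h2
    _ ≤ ν Q * (1 + M) ^ (Fintype.card (Quotient s.1) - 1) := by
        gcongr
        exact le_add_self
    _ ≤ ν Q * (1 + M) ^ (2 * Fintype.card V) := by
        gcongr
        exact le_self_add
    _ = (1 + M) ^ (2 * Fintype.card V) * ν Q := mul_comm _ _

/-- the trivial gluing -/
private theorem gvl_triv {V : Type} (s t : Gluing V V)
    (hs : ∀ v v' : V, ¬ s.1 (Sum.inl v) (Sum.inr v')) (ht : ∀ v v' : V, ¬ t.1 (Sum.inl v) (Sum.inr v')) :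
    s = t := by
  have key : ∀ (s t : Gluing V V) (_ : ∀ v v' : V, ¬ s.1 (Sum.inl v) (Sum.inr v')) (a b : V ⊕ V),
      s.1 a b → t.1 a b := by
    intro s t hs a b hab
    rcases a with a | a <;> rcases b with b | b
    · rw [s.2.1 a b hab]
    · exact absurd hab (hs a b)
    · exact absurd (s.1.symm hab) (hs b a)
    · rw [s.2.2 a b hab]
  refine Subtype.ext (Setoid.ext fun a b => ⟨key s t hs a b, key t s ht a b⟩)

/-- Piece GVL: variance bound for pattern counts. Expand `cnt ^ 2` by `cnt_mul_cnt`; the trivial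
gluing gives `(ν^V A) ^ 2`; for every other gluing the glued graph (images of the edges of both
copies) is connected and its tuples have the root of the first copy in `Q`, so `pi_pattern_le` bounds
the mean by `ν Q * (1 + M) ^ (2 |V|)`; the number of gluings is finite. -/
theorem lintegral_cnt_sq_le [MeasurableSpace Ω] [MeasurableSpace Y] [Countable I] {P : Measure Ω}
    {pres : I → Set Ω} (hp : ∀ i, MeasurableSet (pres i)) {y : I → Ω → Y}
    (hy : ∀ i, Measurable (y i)) {ν : Measure Y} [SigmaFinite ν] (hMe : MeckeProp P pres y ν)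
    {rel : Y → Y → Prop} (hrel : MeasurableSet {p : Y × Y | rel p.1 p.2})
    (hsymm : ∀ a b, rel a b → rel b a) {M : ℝ≥0∞} (hM : ∀ a, ν {b | rel a b} ≤ M) {V : Type}
    [Fintype V] {G : SimpleGraph V} (hG : G.Connected) (v₀ : V) {Q : Set Y} (hQ : MeasurableSet Q)
    {A : Set (V → Y)} (hA : MeasurableSet A) (hAG : A ⊆ {z | z v₀ ∈ Q ∧ Sat G rel z}) :
    ∫⁻ ω, (cnt pres y A ω) ^ 2 ∂P ≤ (Measure.pi (fun _ : V => ν) A) ^ 2 +
      (Nat.card (Gluing V V) : ℝ≥0∞) * (1 + M) ^ (2 * Fintype.card V) * ν Q := by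
  classical
  have hfin : Fintype (Gluing V V) := Fintype.ofFinite _
  have h1 : ∀ ω, (cnt pres y A ω) ^ 2 = ∑ s : Gluing V V, cnt pres y (glueSet s A A) ω := by
    intro ω
    rw [sq, cnt_mul_cnt, tsum_fintype]
  rw [lintegral_congr h1, lintegral_finsetSum _ fun s _ => measurable_cnt hp hy (gvl_meas s hA hA)]
  have h2 : ∀ s : Gluing V V, ∫⁻ ω, cnt pres y (glueSet s A A) ω ∂P =
      Measure.pi (fun _ : Quotient s.1 => ν) (glueSet s A A) := fun s =>
    hMe (Quotient s.1) _ (gvl_meas s hA hA)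
  -- the trivial gluing
  obtain ⟨s₀, hs₀⟩ : ∃ s₀ : Gluing V V, ∀ v v' : V, ¬ s₀.1 (Sum.inl v) (Sum.inr v') :=
    ⟨⟨⊥, fun v w h => Sum.inl_injective h, fun v w h => Sum.inr_injective h⟩,
      fun v v' h => Sum.inl_ne_inr h⟩
  have h3 : ∀ s : Gluing V V, Measure.pi (fun _ : Quotient s.1 => ν) (glueSet s A A) ≤
      (if s = s₀ then (Measure.pi (fun _ : V => ν) A) ^ 2 else 0) +
        (1 + M) ^ (2 * Fintype.card V) * ν Q := by
    intro s
    by_cases hs : ∀ v v' : V, ¬ s.1 (Sum.inl v) (Sum.inr v')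
    · rw [if_pos (gvl_triv s s₀ hs hs₀), pi_glueSet_bot ν hA hA s hs, sq]
      exact le_self_add
    · push Not at hs
      obtain ⟨v, v', hvv⟩ := hs
      exact (gvl_nontriv hrel hsymm hM hG v₀ hQ hAG s hvv).trans le_add_self
  calc ∑ s : Gluing V V, ∫⁻ ω, cnt pres y (glueSet s A A) ω ∂P
      = ∑ s : Gluing V V, Measure.pi (fun _ : Quotient s.1 => ν) (glueSet s A A) :=
        Finset.sum_congr rfl fun s _ => h2 s
    _ ≤ ∑ s : Gluing V V, ((if s = s₀ then (Measure.pi (fun _ : V => ν) A) ^ 2 else 0) +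
        (1 + M) ^ (2 * Fintype.card V) * ν Q) := Finset.sum_le_sum fun s _ => h3 s
    _ = (Measure.pi (fun _ : V => ν) A) ^ 2 +
      (Nat.card (Gluing V V) : ℝ≥0∞) * (1 + M) ^ (2 * Fintype.card V) * ν Q := by
        rw [Finset.sum_add_distrib, Finset.sum_ite_eq' Finset.univ s₀, if_pos (Finset.mem_univ _),
          Finset.sum_const, Finset.card_univ, nsmul_eq_mul, Nat.card_eq_fintype_card, mul_assoc]

end WSP
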