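import Pool.Agent.Lib_MP_c175fd.Model

/-!
# Piece MECKEB
-/

open MeasureTheory ProbabilityTheory Filter Topology
open scoped ENNReal NNReal

namespace WSP

variable {d : ℕ}

namespace PM

/-- the injections with prescribed first components whose second components are small -/
private noncomputable def meckeEquiv {V K : Type} [Fintype V] [DecidableEq K] (k : V → K) (n : K → ℕ) :
    {a : {a : V ↪ K × ℕ // (fun v => (a v).1) = k} // ∀ v, (a.1 v).2 < n (a.1 v).1} ≃
      (∀ κ : {κ // κ ∈ Finset.univ.image k}, ({v // k v = κ.1} ↪ Fin (n κ.1))) where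
  toFun a κ :=
    { toFun := fun v => ⟨(a.1.1 v.1).2, by
        have h1 := a.2 v.1
        have h2 : (a.1.1 v.1).1 = k v.1 := congrFun a.1.2 v.1
        rw [h2, v.2] at h1
        exact h1⟩
      inj' := by
        intro v w h
        have h1 : (a.1.1 v.1).1 = k v.1 := congrFun a.1.2 v.1
        have h2 : (a.1.1 w.1).1 = k w.1 := congrFun a.1.2 w.1
        have h3 : (a.1.1 v.1).2 = (a.1.1 w.1).2 := congrArg Fin.val h
        have h4 : a.1.1 v.1 = a.1.1 w.1 := Prod.ext (by rw [h1, h2, v.2, w.2]) h3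
        exact Subtype.ext (a.1.1.injective h4) }
  invFun f :=
    ⟨⟨{ toFun := fun v => (k v, (f ⟨k v, Finset.mem_image_of_mem k (Finset.mem_univ v)⟩ ⟨v, rfl⟩ : ℕ))
        inj' := by
          intro v w h
          have h1 : k v = k w := congrArg Prod.fst h
          have h2 : (f ⟨k v, Finset.mem_image_of_mem k (Finset.mem_univ v)⟩ ⟨v, rfl⟩ : ℕ) =
              (f ⟨k w, Finset.mem_image_of_mem k (Finset.mem_univ w)⟩ ⟨w, rfl⟩ : ℕ) :=
            congrArg Prod.snd h
          have h3 : ∀ (κ : K) (hκ : κ ∈ Finset.univ.image k) (hv : k v = κ),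
              (f ⟨k v, Finset.mem_image_of_mem k (Finset.mem_univ v)⟩ ⟨v, rfl⟩ : ℕ) =
                (f ⟨κ, hκ⟩ ⟨v, hv⟩ : ℕ) := by
            rintro κ hκ rfl
            rfl
          rw [h3 (k w) (Finset.mem_image_of_mem k (Finset.mem_univ w)) h1] at h2
          have h4 := (f ⟨k w, Finset.mem_image_of_mem k (Finset.mem_univ w)⟩).injective (Fin.ext h2)
          exact congrArg Subtype.val h4 }, rfl⟩,
      fun v => (f ⟨k v, Finset.mem_image_of_mem k (Finset.mem_univ v)⟩ ⟨v, rfl⟩).2⟩
  left_inv := by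
    rintro ⟨⟨a, ha⟩, hn⟩
    refine Subtype.ext (Subtype.ext (Function.Embedding.ext fun v => ?_))
    exact Prod.ext (congrFun ha v).symm rfl
  right_inv := by
    intro f
    funext κ
    obtain ⟨κ, hκ⟩ := κ
    refine Function.Embedding.ext fun v => ?_
    obtain ⟨v, hv⟩ := v
    change k v = κ at hv
    subst hv
    rfl

private theorem mecke_count {V K : Type} [Fintype V] [DecidableEq K] (k : V → K) (n : K → ℕ) :
    ∑' a : {a : V ↪ K × ℕ // (fun v => (a v).1) = k},
      Set.indicator {a : {a : V ↪ K × ℕ // (fun v => (a v).1) = k} | ∀ v, (a.1 v).2 < n (a.1 v).1}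
        (fun _ => (1 : ℝ≥0∞)) a =
    ∏ κ ∈ Finset.univ.image k, ((n κ).descFactorial (Fintype.card {v // k v = κ}) : ℝ≥0∞) := by
  classical
  rw [← tsum_subtype {a : {a : V ↪ K × ℕ // (fun v => (a v).1) = k} |
    ∀ v, (a.1 v).2 < n (a.1 v).1} (fun _ => (1 : ℝ≥0∞))]
  have h1 := (meckeEquiv k n).tsum_eq (fun _ => (1 : ℝ≥0∞))
  refine Eq.trans h1 ?_
  rw [tsum_fintype, Finset.sum_const, Finset.card_univ, Fintype.card_pi, nsmul_eq_mul, mul_one,
    Nat.cast_prod]
  rw [← Finset.prod_coe_sort (Finset.univ.image k)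
    (fun κ => ((n κ).descFactorial (Fintype.card {v // k v = κ}) : ℝ≥0∞))]
  exact Finset.prod_congr rfl fun κ _ => by rw [Fintype.card_embedding_eq, Fintype.card_fin]

private theorem mecke_part {V : Type} [Fintype V] {μ : Measure (Path d)} [IsProbabilityMeasure μ]
    {A : Set (V → Mark d)} (hA : MeasurableSet A) :
    ∑' k : V → (Fin d → ℤ),
      Measure.pi (fun v => ((volume : Measure (E d)).restrict (cube (k v))).prod μ) A =
      Measure.pi (fun _ : V => nuM μ) A := by
  have h1 : ∀ k : V → (Fin d → ℤ),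
      Measure.pi (fun v => ((volume : Measure (E d)).restrict (cube (k v))).prod μ) A =
      Measure.pi (fun _ : V => nuM μ)
        (A ∩ Set.univ.pi fun v => (cube (k v) ×ˢ (Set.univ : Set (Path d)))) := by
    intro k
    have h2 : (fun v => ((volume : Measure (E d)).restrict (cube (k v))).prod μ) =
        fun v => (nuM μ).restrict (cube (k v) ×ˢ (Set.univ : Set (Path d))) := by
      funext v
      exact Measure.restrict_prod_eq_prod_univ _
    rw [h2, ← Measure.restrict_pi_pi, Measure.restrict_apply hA]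
  have hmeas : ∀ k : V → (Fin d → ℤ), MeasurableSet
      (Set.univ.pi fun v => (cube (k v) ×ˢ (Set.univ : Set (Path d)))) := fun k =>
    MeasurableSet.univ_pi fun v => (measurableSet_cube (k v)).prod MeasurableSet.univ
  rw [tsum_congr h1, ← measure_iUnion]
  · congr 1
    ext z
    simp only [Set.mem_iUnion, Set.mem_inter_iff, Set.mem_pi, Set.mem_univ, true_implies,
      Set.mem_prod, and_true]
    constructor
    · rintro ⟨k, hz, _⟩
      exact hz
    · intro hz
      have h2 : ∀ v, ∃ κ : Fin d → ℤ, (z v).1 ∈ cube κ := by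
        intro v
        have h3 : (z v).1 ∈ (⋃ κ : Fin d → ℤ, cube κ) := by
          rw [iUnion_cube]
          exact Set.mem_univ _
        exact Set.mem_iUnion.1 h3
      choose k hk using h2
      exact ⟨k, hz, hk⟩
  · intro k l hkl
    obtain ⟨v, hv⟩ := Function.ne_iff.1 hkl
    show Disjoint _ _
    rw [Set.disjoint_left]
    rintro z ⟨_, hz⟩ ⟨_, hz'⟩
    exact Set.disjoint_left.1 (disjoint_cube hv) (hz v (Set.mem_univ v)).1
      (hz' v (Set.mem_univ v)).1
  · intro k
    exact hA.inter (hmeas k)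

variable {Ω : Type*} [MeasurableSpace Ω] {P : Measure Ω} {μ : Measure (Path d)}

private theorem mecke_meas {Ω V Y : Type*} [MeasurableSpace Y] (m : MeasurableSpace Ω)
    (f : V → Ω → Y) (h : ∀ v, MeasurableSpace.comap (f v) inferInstance ≤ m) (A : Set (V → Y))
    (hA : MeasurableSet A) : MeasurableSet[m] ((fun ω v => f v ω) ⁻¹' A) := by
  have h1 : Measurable (fun ω v => f v ω) := measurable_pi_lambda _ fun v =>
    measurable_iff_comap_le.2 (h v)
  exact h1 hA

/-- the independence of the numbers -/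
private theorem mecke_indepN (M : PM d P μ) : iIndepFun M.N P :=
  M.indep.precomp (g := Sum.inl) Sum.inl_injective

/-- the independence of the marks -/
private theorem mecke_indepy (M : PM d P μ) : iIndepFun M.y P :=
  M.indep.precomp (g := Sum.inr) Sum.inr_injective

private theorem mecke_factor (M : PM d P μ) [IsProbabilityMeasure P] [IsProbabilityMeasure μ]
    {V : Type} [Fintype V] {A : Set (V → Mark d)} (hA : MeasurableSet A) (a : V ↪ Idx d) :
    P {ω | (∀ v, ω ∈ M.pres (a v)) ∧ (fun v => M.y (a v) ω) ∈ A} =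
      P {ω | ∀ v, ω ∈ M.pres (a v)} *
        Measure.pi (fun v => ((volume : Measure (E d)).restrict (cube (a v).1)).prod μ) A := by
  have hle : ∀ s : (Fin d → ℤ) ⊕ Idx d, Sum.elim
      (fun k => MeasurableSpace.comap (M.N k) inferInstance)
      (fun i => MeasurableSpace.comap (M.y i) inferInstance) s ≤ (inferInstance : MeasurableSpace Ω) := by
    rintro (k | i)
    · exact (M.measN k).comap_le
    · exact (M.measy i).comap_le
  have hind := indep_iSup_of_disjoint hle M.indep
    (S := Set.range Sum.inl) (T := Set.range Sum.inr) (by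
      rw [Set.disjoint_left]
      rintro _ ⟨k, rfl⟩ ⟨i, hi⟩
      exact Sum.inr_ne_inl hi)
  have h1 := (Indep_iff _ _ _).1 hind {ω | ∀ v, ω ∈ M.pres (a v)}
    ((fun ω v => M.y (a v) ω) ⁻¹' A) ?_ ?_
  · have h2 : {ω | (∀ v, ω ∈ M.pres (a v)) ∧ (fun v => M.y (a v) ω) ∈ A} =
        {ω | ∀ v, ω ∈ M.pres (a v)} ∩ ((fun ω v => M.y (a v) ω) ⁻¹' A) := rfl
    have hm : Measurable (fun ω v => M.y (a v) ω) := measurable_pi_lambda _ fun v => M.measy (a v)
    have h3 : iIndepFun (fun v => M.y (a v)) P := (mecke_indepy M).precomp a.injective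
    have h4 := h3.map_fun_eq_pi_map (fun v => (M.measy (a v)).aemeasurable)
    have h5 : (fun v => P.map (M.y (a v))) =
        fun v => ((volume : Measure (E d)).restrict (cube (a v).1)).prod μ :=
      funext fun v => M.lawy (a v)
    rw [h5] at h4
    rw [h2, h1, ← Measure.map_apply hm hA, h4]
  · have h2 : {ω | ∀ v, ω ∈ M.pres (a v)} = ⋂ v, M.N (a v).1 ⁻¹' {n | (a v).2 < n} := by
      ext ω
      rw [Set.mem_iInter]
      exact Iff.rfl
    rw [h2]
    refine MeasurableSet.iInter fun v => ?_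
    have h3 : MeasurableSpace.comap (M.N (a v).1) inferInstance ≤
        ⨆ s ∈ Set.range (Sum.inl : (Fin d → ℤ) → (Fin d → ℤ) ⊕ Idx d), Sum.elim
          (fun k => MeasurableSpace.comap (M.N k) inferInstance)
          (fun i => MeasurableSpace.comap (M.y i) inferInstance) s :=
      le_iSup₂_of_le (Sum.inl (a v).1) ⟨_, rfl⟩ le_rfl
    exact h3 _ ⟨{n | (a v).2 < n}, MeasurableSet.of_discrete, rfl⟩
  · exact mecke_meas _ (fun v => M.y (a v))
      (fun v => le_iSup₂_of_le (Sum.inr (a v)) ⟨_, rfl⟩ le_rfl) A hA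

private theorem mecke_fiber (M : PM d P μ) [IsProbabilityMeasure P] {V : Type} [Fintype V]
    (k : V → (Fin d → ℤ)) :
    ∑' a : {a : V ↪ Idx d // (fun v => (a v).1) = k}, P {ω | ∀ v, ω ∈ M.pres (a.1 v)} = 1 := by
  classical
  have hcount : Countable {a : V ↪ Idx d // (fun v => (a v).1) = k} :=
    (Function.Injective.comp (DFunLike.coe_injective (F := V ↪ Idx d))
      Subtype.val_injective).countable
  have hms : ∀ a : {a : V ↪ Idx d // (fun v => (a v).1) = k},
      MeasurableSet {ω | ∀ v, ω ∈ M.pres (a.1 v)} := by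
    intro a
    have h2 : {ω | ∀ v, ω ∈ M.pres (a.1 v)} = ⋂ v, M.pres (a.1 v) := by
      ext ω
      rw [Set.mem_iInter]
      exact Iff.rfl
    rw [h2]
    exact MeasurableSet.iInter fun v => M.measurableSet_pres _
  have h1 : ∀ a : {a : V ↪ Idx d // (fun v => (a v).1) = k},
      P {ω | ∀ v, ω ∈ M.pres (a.1 v)} =
        ∫⁻ ω, Set.indicator {ω | ∀ v, ω ∈ M.pres (a.1 v)} (fun _ => (1 : ℝ≥0∞)) ω ∂P := by
    intro a
    rw [lintegral_indicator_const (hms a), one_mul]
  rw [tsum_congr h1, ← lintegral_tsum fun a => (measurable_const.indicator (hms a)).aemeasurable]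
  have h2 : ∀ ω, ∑' a : {a : V ↪ Idx d // (fun v => (a v).1) = k},
      Set.indicator {ω | ∀ v, ω ∈ M.pres (a.1 v)} (fun _ => (1 : ℝ≥0∞)) ω =
      ∏ κ ∈ Finset.univ.image k,
        ((M.N κ ω).descFactorial (Fintype.card {v // k v = κ}) : ℝ≥0∞) := by
    intro ω
    rw [← mecke_count k (fun κ => M.N κ ω)]
    refine tsum_congr fun a => ?_
    by_cases h : ∀ v, (a.1 v).2 < M.N (a.1 v).1 ω
    · rw [Set.indicator_of_mem (show ω ∈ {ω | ∀ v, ω ∈ M.pres (a.1 v)} from h),
        Set.indicator_of_mem (show a ∈ {a : {a : V ↪ Idx d // (fun v => (a v).1) = k} |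
          ∀ v, (a.1 v).2 < M.N (a.1 v).1 ω} from h)]
    · rw [Set.indicator_of_notMem (show ω ∉ {ω | ∀ v, ω ∈ M.pres (a.1 v)} from h),
        Set.indicator_of_notMem (show a ∉ {a : {a : V ↪ Idx d // (fun v => (a v).1) = k} |
          ∀ v, (a.1 v).2 < M.N (a.1 v).1 ω} from h)]
  rw [lintegral_congr h2]
  have h3 : iIndepFun (fun (κ : Fin d → ℤ) (ω : Ω) =>
      ((M.N κ ω).descFactorial (Fintype.card {v // k v = κ}) : ℝ≥0∞)) P :=
    (mecke_indepN M).comp (fun κ n => (n.descFactorial (Fintype.card {v // k v = κ}) : ℝ≥0∞))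
      fun κ => measurable_of_countable _
  rw [lintegral_prod_eq_prod_lintegral_of_indepFun _ _ h3 fun κ =>
    (measurable_of_countable (fun n : ℕ => (n.descFactorial (Fintype.card {v // k v = κ}) : ℝ≥0∞))).comp
      (M.measN κ)]
  refine Finset.prod_eq_one fun κ _ => ?_
  rw [← poisson_factorial (Fintype.card {v // k v = κ}), ← M.lawN κ,
    lintegral_map (measurable_of_countable _) (M.measN κ)]

/-- Piece MECKEB: the Mecke formula. For a fixed embedding `a : V ↪ Idx d` the marks `(y (a v))_v` are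
independent of each other and of the numbers `N`, with laws `(volume restricted to the cube) × μ`
(`indep`), so the mean of the indicator is
`P (∀ v, (a v).2 < N (a v).1) * (⨂_v (volume.restrict (cube (a v).1)).prod μ) A`. Fix the map
`k : V → (Fin d → ℤ)` of the first components and sum over the embeddings with these first components:
`∑ P (..) = E ∏_κ (N κ) (N κ - 1) ... = 1` (number of injective choices in each cube, a falling
factorial, `poisson_factorial`, independence of the `N κ`). Finally sum over `k`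
(`∑_k volume.restrict (cube k) = volume`, `Measure.pi` of sums). -/
theorem mecke (M : PM d P μ) [IsProbabilityMeasure P] [IsProbabilityMeasure μ] :
    MeckeProp P M.pres M.y (nuM μ) := by
  intro V _ A hA
  have hcount : Countable (V ↪ Idx d) := (DFunLike.coe_injective (F := V ↪ Idx d)).countable
  have hms : ∀ a : V ↪ Idx d,
      MeasurableSet {ω | (∀ v, ω ∈ M.pres (a v)) ∧ (fun v => M.y (a v) ω) ∈ A} := by
    intro a
    have h2 : {ω | (∀ v, ω ∈ M.pres (a v)) ∧ (fun v => M.y (a v) ω) ∈ A} =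
        (⋂ v, M.pres (a v)) ∩ ((fun ω v => M.y (a v) ω) ⁻¹' A) := by
      ext ω
      rw [Set.mem_inter_iff, Set.mem_iInter]
      exact Iff.rfl
    rw [h2]
    exact (MeasurableSet.iInter fun v => M.measurableSet_pres _).inter
      (measurable_pi_lambda _ (fun v => M.measy (a v)) hA)
  unfold cnt
  rw [lintegral_tsum fun a => (measurable_const.indicator (hms a)).aemeasurable]
  have h1 : ∀ a : V ↪ Idx d,
      ∫⁻ ω, Set.indicator {ω | (∀ v, ω ∈ M.pres (a v)) ∧ (fun v => M.y (a v) ω) ∈ A}
        (fun _ => (1 : ℝ≥0∞)) ω ∂P =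
      P {ω | ∀ v, ω ∈ M.pres (a v)} *
        Measure.pi (fun v => ((volume : Measure (E d)).restrict (cube (a v).1)).prod μ) A := by
    intro a
    rw [lintegral_indicator_const (hms a), one_mul, mecke_factor M hA a]
  rw [tsum_congr h1]
  rw [← (Equiv.sigmaFiberEquiv (fun (a : V ↪ Idx d) (v : V) => (a v).1)).tsum_eq, ENNReal.tsum_sigma']
  rw [← mecke_part hA]
  refine tsum_congr fun k => ?_
  have h2 : ∀ a : {a : V ↪ Idx d // (fun v => (a v).1) = k},
      P {ω | ∀ v, ω ∈ M.pres ((Equiv.sigmaFiberEquiv (fun (a : V ↪ Idx d) (v : V) => (a v).1)) ⟨k, a⟩ v)} *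
        Measure.pi (fun v => ((volume : Measure (E d)).restrict (cube
          ((Equiv.sigmaFiberEquiv (fun (a : V ↪ Idx d) (v : V) => (a v).1)) ⟨k, a⟩ v).1)).prod μ) A =
      P {ω | ∀ v, ω ∈ M.pres (a.1 v)} *
        Measure.pi (fun v => ((volume : Measure (E d)).restrict (cube (k v))).prod μ) A := by
    rintro ⟨a, rfl⟩
    rfl
  rw [tsum_congr h2, ENNReal.tsum_mul_right, mecke_fiber M k, one_mul]

end PM

end WSP
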