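import Pool.Agent.Lib_MP_c175fd.CycPat
import Pool.Agent.Lib_MP_c175fd.CntVar
import Pool.Agent.Lib_MP_c175fd.Cheb
import Pool.Agent.Lib_MP_c175fd.Mecke
import Pool.Agent.Lib_MP_c175fd.Win

/-!
# Pieces COUNTA, COUNTB, COUNTC: the chain counts with high probability

Let `m₀ = κ c ^ 2 > 1`, `R = RR d r`, `Q = boxE k R 0` (volume `R ^ d`). `GoodG` collects the properties of
the set of good paths given by `good_set` with `δ = 1 / (100 n)`. All estimates are uniform in `k` and `G`.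
They use `PM.mecke`, `lintegral_cnt_sq_le` (with `rel = relG`, `M = ofReal ((1 + 1/(100 n)) m₀)`, for single
points `V = Unit` with the empty relation, `M = 0`), `cheb_lower`, `cheb_upper`: the error probability is at
most `K / R ^ d` with `K` depending on `n`, `m₀`, and `R → ∞` (`tendsto_RR`).

COUNTA: `chains_lower`: the mean is at least `R ^ d (99/100) ((1 - 1/(100n)) m₀) ^ n ≥ R ^ d (98/100) m₀ ^ n`
(Bernoulli), so with high probability the count is at least `(9/10) m₀ ^ n R ^ d`; `points_upper`.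

COUNTB: `pairs_upper`: for every acyclic gluing with common root
`mean ≤ R ^ d M ^ (card - 1)` (`pi_pattern_le`, `glueSet_subset`) and the sum over these gluings is at most
`R ^ d ∑_{k ≤ n} M ^ (2 n - k) ≤ R ^ d M ^ (2 n) M / (M - 1) ≤ R ^ d (103/100) m₀ ^ (2 n) m₀ / (m₀ - 1)`
(`acyc_sum`; `(1 + 1/(100 n)) ^ (2 n) ≤ exp (1/50)`; `x / (x - 1)` is decreasing). Each count exceeds its
mean by `R ^ d` times a small constant with small probability; there are finitely many gluings.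

COUNTC: `bad_upper`: Markov's inequality and `cycpat`.
-/

open MeasureTheory ProbabilityTheory Filter Topology
open scoped ENNReal NNReal

namespace WSP

variable {d : ℕ}

/-- Properties of the set of good paths. -/
structure GoodG (μ : Measure (Path d)) (ρ : ℝ) (t : ℝ≥0) (m₀ δ : ℝ) (G : Set (Path d)) : Prop where
  meas : MeasurableSet G
  compl : μ Gᶜ ≤ ENNReal.ofReal δ
  upper : ∀ w ∈ G, ∫⁻ w' in G, Vol ρ t t w w' ∂μ ≤ ENNReal.ofReal ((1 + δ) * m₀)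
  lower : ∀ w ∈ G, ENNReal.ofReal ((1 - δ) * m₀) ≤ ∫⁻ w' in G, Vol ρ t t w w' ∂μ

variable {Ω : Type*} [MeasurableSpace Ω] {P : Measure Ω} {μ : Measure (Path d)}

/-- The set of marks with starting point in `Q`. -/
theorem cta_nuM_root (μ : Measure (Path d)) [IsProbabilityMeasure μ] (Q : Set (E d)) :
    nuM μ {y : Mark d | y.1 ∈ Q} = volume Q := by
  have h : {y : Mark d | y.1 ∈ Q} = Q ×ˢ (Set.univ : Set (Path d)) := by
    ext y
    simp
  rw [h, nuM, Measure.prod_prod, measure_univ, mul_one]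

theorem cta_mono (P : Measure Ω) (S : Ω → ℝ≥0∞) (a : ℝ≥0∞) :
    P {ω | S ω < a} ≤ P {ω | S ω ≤ a} :=
  measure_mono fun ω (h : S ω < a) => (le_of_lt h : S ω ≤ a)

theorem cta_mono' (P : Measure Ω) (S : Ω → ℝ≥0∞) (a : ℝ≥0∞) :
    P {ω | a < S ω} ≤ P {ω | a ≤ S ω} :=
  measure_mono fun ω (h : a < S ω) => (le_of_lt h : a ≤ S ω)

theorem cta_low {P : Measure Ω} [IsProbabilityMeasure P] {S : Ω → ℝ≥0∞}
    (hS : Measurable S) {e K q θ a : ℝ≥0∞} (he : ∫⁻ ω, S ω ∂P = e) (he' : e ≠ ∞)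
    (hv : ∫⁻ ω, (S ω) ^ 2 ∂P ≤ e ^ 2 + K * q) (hq0 : q ≠ 0) (hq : q ≠ ∞) (hθ0 : θ ≠ 0)
    (ha : a + θ * q ≤ e) : P {ω | S ω ≤ a} ≤ K / (θ ^ 2 * q) := by
  have hat : a ≠ ∞ := ne_top_of_le_ne_top he' (le_self_add.trans ha)
  have hpos : θ * q ≠ 0 := mul_ne_zero hθ0 hq0
  have hlt : a < e := (ENNReal.lt_add_right hat hpos).trans_le ha
  have h1 := cheb_lower hS he he' hv hlt
  have h2 : θ * q ≤ e - a := by
    rw [add_comm] at ha
    exact ENNReal.le_sub_of_add_le_right hat ha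
  calc P {ω | S ω ≤ a} ≤ K * q / (e - a) ^ 2 := h1
    _ ≤ K * q / (θ * q) ^ 2 := ENNReal.div_le_div_left (pow_le_pow_left' h2 2) _
    _ = K * q / (θ ^ 2 * q * q) := by congr 1; ring
    _ = K / (θ ^ 2 * q) := ENNReal.mul_div_mul_right _ _ hq0 hq

theorem cta_up {P : Measure Ω} [IsProbabilityMeasure P] {S : Ω → ℝ≥0∞}
    (hS : Measurable S) {e K q θ b : ℝ≥0∞} (he : ∫⁻ ω, S ω ∂P = e) (he' : e ≠ ∞)
    (hv : ∫⁻ ω, (S ω) ^ 2 ∂P ≤ e ^ 2 + K * q) (hq0 : q ≠ 0) (hq : q ≠ ∞) (hθ0 : θ ≠ 0)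
    (hb : e + θ * q ≤ b) : P {ω | b ≤ S ω} ≤ K / (θ ^ 2 * q) := by
  have hpos : θ * q ≠ 0 := mul_ne_zero hθ0 hq0
  have hlt : e < b := (ENNReal.lt_add_right he' hpos).trans_le hb
  have h1 := cheb_upper hS he he' hv hlt
  have h2 : θ * q ≤ b - e := by
    rw [add_comm] at hb
    exact ENNReal.le_sub_of_add_le_right he' hb
  calc P {ω | b ≤ S ω} ≤ K * q / (b - e) ^ 2 := h1
    _ ≤ K * q / (θ * q) ^ 2 := ENNReal.div_le_div_left (pow_le_pow_left' h2 2) _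
    _ = K * q / (θ ^ 2 * q * q) := by congr 1; ring
    _ = K / (θ ^ 2 * q) := ENNReal.mul_div_mul_right _ _ hq0 hq

/-- The error probability is small for small `r`. -/
theorem cta_small (hd : 4 ≤ d) {K θ η : ℝ≥0∞} (hK : K ≠ ∞) (hθ : θ ≠ 0) (hη : 0 < η) :
    ∀ᶠ r in 𝓝[>] (0 : ℝ), ∀ q : ℝ≥0∞, (RR d r : ℝ≥0∞) ^ d ≤ q → K / (θ ^ 2 * q) ≤ η := by
  have hc : η * θ ^ 2 ≠ 0 := mul_ne_zero hη.ne' (pow_ne_zero 2 hθ)
  have h1 : Tendsto (fun n : ℕ => η * θ ^ 2 * (n : ℝ≥0∞)) atTop (𝓝 ∞) := by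
    have := ENNReal.Tendsto.const_mul (a := η * θ ^ 2) ENNReal.tendsto_nat_nhds_top
      (Or.inl ENNReal.top_ne_zero)
    rwa [ENNReal.mul_top hc] at this
  have h2 : ∀ᶠ n : ℕ in atTop, K < η * θ ^ 2 * (n : ℝ≥0∞) :=
    h1.eventually (lt_mem_nhds (lt_top_iff_ne_top.2 hK))
  filter_upwards [(tendsto_RR hd).eventually h2, RR_pos hd] with r hr hr0 q hq
  apply ENNReal.div_le_of_le_mul
  have h3 : (RR d r : ℝ≥0∞) ≤ (RR d r : ℝ≥0∞) ^ d := by
    have : RR d r ≤ RR d r ^ d := Nat.le_self_pow (by omega) _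
    exact_mod_cast this
  calc K ≤ η * θ ^ 2 * (RR d r : ℝ≥0∞) := hr.le
    _ ≤ η * θ ^ 2 * q := mul_le_mul' le_rfl (h3.trans hq)
    _ = η * (θ ^ 2 * q) := by ring

/-- Mean and variance of the number of tuples in a connected pattern. -/
theorem cta_pattern (M : PM d P μ) [IsProbabilityMeasure P] [IsProbabilityMeasure μ]
    {rel : Mark d → Mark d → Prop} (hrel : MeasurableSet {p : Mark d × Mark d | rel p.1 p.2})
    (hsymm : ∀ a b, rel a b → rel b a) {m : ℝ≥0∞} (hm : ∀ a, nuM μ {b | rel a b} ≤ m)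
    (hmt : m ≠ ∞) {V : Type}
    [Fintype V] {G : SimpleGraph V} (hG : G.Connected) (v₀ : V) {Q : Set (E d)}
    (hQ : MeasurableSet Q) (hQt : volume Q ≠ ∞) {A : Set (V → Mark d)} (hA : MeasurableSet A)
    (hAG : A ⊆ {z | z v₀ ∈ {y : Mark d | y.1 ∈ Q} ∧ Sat G rel z}) :
    Measurable (cnt M.pres M.y A) ∧
    ∫⁻ ω, cnt M.pres M.y A ω ∂P = Measure.pi (fun _ : V => nuM μ) A ∧
    Measure.pi (fun _ : V => nuM μ) A ≤ volume Q * m ^ (Fintype.card V - 1) ∧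
    Measure.pi (fun _ : V => nuM μ) A ≠ ∞ ∧
    ∫⁻ ω, (cnt M.pres M.y A ω) ^ 2 ∂P ≤ (Measure.pi (fun _ : V => nuM μ) A) ^ 2 +
      ((Nat.card (Gluing V V) : ℝ≥0∞) * (1 + m) ^ (2 * Fintype.card V)) * volume Q := by
  have hQ' : MeasurableSet {y : Mark d | y.1 ∈ Q} := measurable_fst hQ
  have h1 : Measure.pi (fun _ : V => nuM μ) A ≤ volume Q * m ^ (Fintype.card V - 1) := by
    rw [← cta_nuM_root μ Q]
    exact (measure_mono hAG).trans (pi_pattern_le hrel hsymm hm hG v₀ hQ')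
  refine ⟨measurable_cnt M.measurableSet_pres M.measy hA, M.mecke V A hA, h1, ?_, ?_⟩
  · exact ne_top_of_le_ne_top (ENNReal.mul_ne_top hQt (ENNReal.pow_ne_top hmt)) h1
  · rw [← cta_nuM_root μ Q]
    exact lintegral_cnt_sq_le M.measurableSet_pres M.measy M.mecke hrel hsymm hm hG v₀ hQ' hA hAG

theorem cta_vol (k : Fin d → ℤ) (R : ℕ) : volume (boxE k R 0) = (R : ℝ≥0∞) ^ d := by
  rw [volume_boxE]
  simp

theorem chains_lower (hd : 4 ≤ d) (M : PM d P μ) [IsProbabilityMeasure P] (h : IsWiener μ)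
    {κ : ℝ} (hA : AnFacts d μ κ) {c : ℝ} (hc : 0 < c) (hm : 1 < κ * c ^ 2) {n : ℕ} (hn : 1 ≤ n)
    {η : ℝ≥0∞} (hη : 0 < η) :
    ∀ᶠ r in 𝓝[>] (0 : ℝ), ∀ G : Set (Path d),
      GoodG μ (2 * r) (tt d c r) (κ * c ^ 2) (1 / (100 * n)) G → ∀ k : Fin d → ℤ,
      P {ω | cnt M.pres M.y (chainG (2 * r) (tt d c r) G (boxE k (RR d r) 0) n) ω <
        ENNReal.ofReal (9 / 10 * (κ * c ^ 2) ^ n) * (RR d r : ℝ≥0∞) ^ d} ≤ η := by
  have := h.isProb
  set m₀ := κ * c ^ 2 with hm₀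
  set δ : ℝ := 1 / (100 * n) with hδ
  have hn' : (1 : ℝ) ≤ n := by exact_mod_cast hn
  have hδ0 : 0 < δ := by positivity
  have hδ1 : δ ≤ 1 / 100 := by
    rw [hδ]
    apply one_div_le_one_div_of_le (by norm_num)
    linarith
  have hm0 : 0 < m₀ := by linarith
  set m : ℝ≥0∞ := ENNReal.ofReal ((1 + δ) * m₀) with hmdef
  set K : ℝ≥0∞ := (Nat.card (Gluing (Fin (n + 1)) (Fin (n + 1))) : ℝ≥0∞) *
    (1 + m) ^ (2 * Fintype.card (Fin (n + 1))) with hK
  have hmt : m ≠ ∞ := ENNReal.ofReal_ne_top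
  have hKt : K ≠ ∞ := ENNReal.mul_ne_top (ENNReal.natCast_ne_top _)
    (ENNReal.pow_ne_top (ENNReal.add_ne_top.2 ⟨ENNReal.one_ne_top, hmt⟩))
  have hθ0 : ENNReal.ofReal (8 / 100) ≠ 0 := by
    rw [Ne, ENNReal.ofReal_eq_zero, not_le]
    norm_num
  filter_upwards [cta_small hd hKt hθ0 hη, RR_pos hd] with r hr hr0 G hG k
  set R := RR d r with hR
  set Q := boxE k R 0 with hQ
  have hQm : MeasurableSet Q := measurableSet_boxE k R 0
  have hQv : volume Q = (R : ℝ≥0∞) ^ d := cta_vol k R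
  have hq0 : (R : ℝ≥0∞) ^ d ≠ 0 := pow_ne_zero _ (by exact_mod_cast hr0.ne')
  have hqt : (R : ℝ≥0∞) ^ d ≠ ∞ := ENNReal.pow_ne_top (ENNReal.natCast_ne_top _)
  obtain ⟨h1, h2, -, h4, h5⟩ := cta_pattern M (measurableSet_relG (2 * r) (tt d c r) hG.meas)
    (fun a b => relG_symm) (nuM_relG_le hG.meas hG.upper) hmt
    (SimpleGraph.pathGraph_connected n) (0 : Fin (n + 1)) hQm (by rw [hQv]; exact hqt)
    (measurableSet_chainG (2 * r) (tt d c r) hG.meas hQm n)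
    (chainG_subset (2 * r) (tt d c r) G Q n)
  rw [hQv] at h5
  have hmean : ENNReal.ofReal (9 / 10 * m₀ ^ n) * (R : ℝ≥0∞) ^ d +
      ENNReal.ofReal (8 / 100) * (R : ℝ≥0∞) ^ d ≤
      Measure.pi (fun _ : Fin (n + 1) => nuM μ) (chainG (2 * r) (tt d c r) G Q n) := by
    refine le_trans ?_ (chainG_ge hG.meas hG.lower hQm n)
    have hμG : ENNReal.ofReal (1 - δ) ≤ μ G := by
      have h6 := prob_compl_eq_one_sub (μ := μ) hG.meas.compl
      rw [compl_compl] at h6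
      rw [h6, ENNReal.ofReal_sub _ hδ0.le, ENNReal.ofReal_one]
      exact tsub_le_tsub_left hG.compl _
    have hδ' : 0 ≤ 1 - δ := by linarith
    calc ENNReal.ofReal (9 / 10 * m₀ ^ n) * (R : ℝ≥0∞) ^ d +
          ENNReal.ofReal (8 / 100) * (R : ℝ≥0∞) ^ d
        = ENNReal.ofReal (9 / 10 * m₀ ^ n + 8 / 100) * (R : ℝ≥0∞) ^ d := by
          rw [ENNReal.ofReal_add (by positivity) (by norm_num), add_mul]
      _ ≤ ENNReal.ofReal ((1 - δ) * ((1 - δ) * m₀) ^ n) * (R : ℝ≥0∞) ^ d := by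
          refine mul_le_mul' (ENNReal.ofReal_le_ofReal ?_) le_rfl
          have h7 : 1 + ((n + 1 : ℕ) : ℝ) * (-δ) ≤ (1 + -δ) ^ (n + 1) :=
            one_add_mul_le_pow (by linarith) _
          have h8 : ((n + 1 : ℕ) : ℝ) * δ ≤ 2 / 100 := by
            rw [hδ]
            push_cast
            rw [mul_one_div, div_le_div_iff₀ (by positivity) (by norm_num)]
            nlinarith
          have h9 : (98 : ℝ) / 100 ≤ (1 - δ) ^ (n + 1) := by
            have : (1 + -δ) ^ (n + 1) = (1 - δ) ^ (n + 1) := by ring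
            rw [this] at h7
            linarith
          have h10 : 1 ≤ m₀ ^ n := one_le_pow₀ hm.le
          have h11 : (1 - δ) * ((1 - δ) * m₀) ^ n = (1 - δ) ^ (n + 1) * m₀ ^ n := by
            rw [mul_pow]; ring
          rw [h11]
          nlinarith
      _ = (R : ℝ≥0∞) ^ d * ENNReal.ofReal (1 - δ) * ENNReal.ofReal ((1 - δ) * m₀) ^ n := by
          rw [ENNReal.ofReal_mul hδ', ENNReal.ofReal_pow (by positivity)]
          ring
      _ ≤ volume Q * μ G * ENNReal.ofReal ((1 - δ) * m₀) ^ n := by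
          rw [hQv]
          exact mul_le_mul' (mul_le_mul' le_rfl hμG) le_rfl
  have h6 := cta_low h1 h2 h4 h5 hq0 hqt hθ0 hmean
  calc P {ω | cnt M.pres M.y (chainG (2 * r) (tt d c r) G Q n) ω <
        ENNReal.ofReal (9 / 10 * m₀ ^ n) * (R : ℝ≥0∞) ^ d}
      ≤ P {ω | cnt M.pres M.y (chainG (2 * r) (tt d c r) G Q n) ω ≤
        ENNReal.ofReal (9 / 10 * m₀ ^ n) * (R : ℝ≥0∞) ^ d} :=
        cta_mono P _ _
    _ ≤ K / (ENNReal.ofReal (8 / 100) ^ 2 * (R : ℝ≥0∞) ^ d) := h6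
    _ ≤ η := hr _ le_rfl

theorem points_upper (hd : 4 ≤ d) (M : PM d P μ) [IsProbabilityMeasure P]
    [IsProbabilityMeasure μ] {η : ℝ≥0∞} (hη : 0 < η) :
    ∀ᶠ r in 𝓝[>] (0 : ℝ), ∀ k : Fin d → ℤ, ∀ L : ℕ,
      P {ω | 2 * ((RR d r + 2 * L : ℕ) : ℝ≥0∞) ^ d <
        cnt M.pres M.y {z : Unit → Mark d | (z ()).1 ∈ boxE k (RR d r) L} ω} ≤ η := by
  set K : ℝ≥0∞ := (Nat.card (Gluing Unit Unit) : ℝ≥0∞) *
    (1 + 0) ^ (2 * Fintype.card Unit) with hK
  have hKt : K ≠ ∞ := ENNReal.mul_ne_top (ENNReal.natCast_ne_top _)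
    (ENNReal.pow_ne_top (by simp))
  filter_upwards [cta_small hd hKt one_ne_zero hη, RR_pos hd] with r hr hr0 k L
  set R := RR d r with hR
  set q : ℝ≥0∞ := ((R + 2 * L : ℕ) : ℝ≥0∞) ^ d with hq
  have hq0 : q ≠ 0 := pow_ne_zero _ (by
    have : R + 2 * L ≠ 0 := by omega
    exact_mod_cast this)
  have hqt : q ≠ ∞ := ENNReal.pow_ne_top (ENNReal.natCast_ne_top _)
  have hQm : MeasurableSet (boxE k R L) := measurableSet_boxE k R L
  have hQv : volume (boxE k R L) = q := volume_boxE k R L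
  have hconn : (⊥ : SimpleGraph Unit).Connected := by
    refine ⟨fun a b => ?_⟩
    rw [Subsingleton.elim a b]
  have hAm : MeasurableSet {z : Unit → Mark d | (z ()).1 ∈ boxE k R L} :=
    (measurable_fst.comp (measurable_pi_apply ())) hQm
  obtain ⟨h1, h2, h3, h4, h5⟩ := cta_pattern M (rel := fun _ _ : Mark d => False)
    (by simp) (fun a b h => h.elim) (m := 0) (fun a => by simp) ENNReal.zero_ne_top
    hconn () hQm (by rw [hQv]; exact hqt) hAm (fun z hz => ⟨hz, fun u v huv => huv.elim⟩)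
  rw [hQv] at h3 h5
  have h3' : Measure.pi (fun _ : Unit => nuM μ) {z : Unit → Mark d | (z ()).1 ∈ boxE k R L} ≤ q := by
    simpa using h3
  have h6 := cta_up (b := 2 * q) (θ := 1) h1 h2 h4 h5 hq0 hqt one_ne_zero (by
    rw [one_mul, two_mul]
    exact add_le_add h3' le_rfl)
  calc P {ω | 2 * q < cnt M.pres M.y {z : Unit → Mark d | (z ()).1 ∈ boxE k R L} ω}
      ≤ P {ω | 2 * q ≤ cnt M.pres M.y {z : Unit → Mark d | (z ()).1 ∈ boxE k R L} ω} :=
        cta_mono' P _ _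
    _ ≤ K / (1 ^ 2 * q) := h6
    _ ≤ η := hr _ (by
        rw [hq]
        refine pow_le_pow_left' ?_ d
        exact_mod_cast Nat.le_add_right R (2 * L))

end WSP
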