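import Pool.Agent.Lib_MP_c175fd.EVBlock

/-!
# Piece CYCQ: kernels of open chains

`QQ μ ρ t j s s' w w' z`: expected number of chains `w, w₁, ..., w_j, w'` (`j` intermediate vertices,
whose shapes are independent with law `μ` and whose positions are integrated over the space) when `w`
sits at `0` and is used up to time `s`, `w'` sits at `z` and is used up to time `s'`, and the
intermediate paths are used up to time `t`. `qq` is its integral over `z`.

Proofs: all by induction on `j` with Tonelli and translation invariance of `volume`.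
* `lintegral_QQ`: `∫ z, QQ j .. z = qq j`.
* `QQ_succ_le`: drop the last edge.
* `QQ_blocks_left/right`: `Kset_blocks` (with one block for the other path; take `l = 1`).
* `lintegral_qq_sq`: Cauchy-Schwarz, `(∫ Vol(w,w'') qq(w'',w') dμ(w''))^2 ≤ (∫ Vol^2)(∫ qq^2)`.
-/

open MeasureTheory ProbabilityTheory Filter Topology
open scoped ENNReal NNReal

namespace WSP

variable {d : ℕ}

/-- Kernel of an open chain with `j` intermediate vertices. -/
noncomputable def QQ (μ : Measure (Path d)) (ρ : ℝ) (t : ℝ≥0) :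
    ℕ → ℝ≥0 → ℝ≥0 → Path d → Path d → E d → ℝ≥0∞
  | 0, s, s', w, w', z => (Kset ρ s s' w w').indicator (fun _ => 1) z
  | j + 1, s, s', w, w', z => ∫⁻ w'', (∫⁻ y, (Kset ρ s t w w'').indicator (fun _ => 1) y *
      QQ μ ρ t j t s' w'' w' (z - y)) ∂μ

/-- The integral of `QQ` over the displacement. -/
noncomputable def qq (μ : Measure (Path d)) (ρ : ℝ) (t : ℝ≥0) :
    ℕ → ℝ≥0 → ℝ≥0 → Path d → Path d → ℝ≥0∞
  | 0, s, s', w, w' => Vol ρ s s' w w'
  | j + 1, s, s', w, w' => ∫⁻ w'', Vol ρ s t w w'' * qq μ ρ t j t s' w'' w' ∂μ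

theorem measurable_ind3 (ρ : ℝ) (s t : ℝ≥0) :
    Measurable fun p : E d × Path d × Path d =>
      (Kset ρ s t p.2.1 p.2.2).indicator (fun _ => (1 : ℝ≥0∞)) p.1 := by
  have h : Measurable (Set.indicator {p : E d × Path d × Path d | p.1 ∈ Kset ρ s t p.2.1 p.2.2}
      (fun _ => (1 : ℝ≥0∞))) :=
    (measurable_const).indicator (measurableSet_Kset_prod (d := d) ρ s t)
  exact h

theorem measurable_QQ (μ : Measure (Path d)) [IsProbabilityMeasure μ] (ρ : ℝ) (t : ℝ≥0) (j : ℕ)
    (s s' : ℝ≥0) :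
    Measurable (fun p : Path d × Path d × E d => QQ μ ρ t j s s' p.1 p.2.1 p.2.2) := by
  induction j generalizing s s' with
  | zero =>
    exact (measurable_ind3 ρ s s').comp (f := fun p : Path d × Path d × E d => (p.2.2, p.1, p.2.1)) (by fun_prop)
  | succ j ih =>
    have hA : Measurable fun q : ((Path d × Path d × E d) × Path d) × E d =>
        (Kset ρ s t q.1.1.1 q.1.2).indicator (fun _ => (1 : ℝ≥0∞)) q.2 := by
      exact (measurable_ind3 ρ s t).comp (f := fun q : ((Path d × Path d × E d) × Path d) × E d =>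
        (q.2, q.1.1.1, q.1.2)) (by fun_prop)
    have hB : Measurable fun q : ((Path d × Path d × E d) × Path d) × E d =>
        QQ μ ρ t j t s' q.1.2 q.1.1.2.1 (q.1.1.2.2 - q.2) := by
      exact (ih t s').comp (f := fun q : ((Path d × Path d × E d) × Path d) × E d =>
        (q.1.2, q.1.1.2.1, q.1.1.2.2 - q.2)) (by fun_prop)
    have h2 := (hA.mul hB).lintegral_prod_right' (ν := (volume : Measure (E d)))
    exact h2.lintegral_prod_right' (ν := μ)

theorem measurable_qq (μ : Measure (Path d)) [IsProbabilityMeasure μ] (ρ : ℝ) (t : ℝ≥0) (j : ℕ)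
    (s s' : ℝ≥0) :
    Measurable (fun p : Path d × Path d => qq μ ρ t j s s' p.1 p.2) := by
  induction j generalizing s s' with
  | zero => exact measurable_Vol ρ s s'
  | succ j ih =>
    have hA : Measurable fun q : (Path d × Path d) × Path d => Vol ρ s t q.1.1 q.2 :=
      (measurable_Vol ρ s t).comp (f := fun q : (Path d × Path d) × Path d => (q.1.1, q.2))
        (by fun_prop)
    have hB : Measurable fun q : (Path d × Path d) × Path d => qq μ ρ t j t s' q.2 q.1.2 :=
      (ih t s').comp (f := fun q : (Path d × Path d) × Path d => (q.2, q.1.2)) (by fun_prop)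
    exact (hA.mul hB).lintegral_prod_right' (ν := μ)

theorem measurable_QQ_z (μ : Measure (Path d)) [IsProbabilityMeasure μ] (ρ : ℝ) (t : ℝ≥0) (j : ℕ)
    (s s' : ℝ≥0) (w w' : Path d) : Measurable (fun z : E d => QQ μ ρ t j s s' w w' z) :=
  (measurable_QQ μ ρ t j s s').comp (f := fun z : E d => (w, w', z)) (by fun_prop)

theorem lintegral_Kset (ρ : ℝ) (s s' : ℝ≥0) (w w' : Path d) :
    ∫⁻ z, (Kset ρ s s' w w').indicator (fun _ => (1 : ℝ≥0∞)) z = Vol ρ s s' w w' :=
  lintegral_indicator_one (isOpen_Kset ρ s s' w w').measurableSet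

theorem lintegral_QQ (μ : Measure (Path d)) [IsProbabilityMeasure μ] (ρ : ℝ) (t : ℝ≥0) (j : ℕ)
    (s s' : ℝ≥0) (w w' : Path d) : ∫⁻ z, QQ μ ρ t j s s' w w' z = qq μ ρ t j s s' w w' := by
  induction j generalizing s s' w w' with
  | zero => exact lintegral_Kset ρ s s' w w'
  | succ j ih =>
    have hA : Measurable fun q : (E d × Path d) × E d =>
        (Kset ρ s t w q.1.2).indicator (fun _ => (1 : ℝ≥0∞)) q.2 := by
      exact (measurable_ind3 ρ s t).comp (f := fun q : (E d × Path d) × E d => (q.2, w, q.1.2)) (by fun_prop)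
    have hB : Measurable fun q : (E d × Path d) × E d =>
        QQ μ ρ t j t s' q.1.2 w' (q.1.1 - q.2) := by
      exact (measurable_QQ μ ρ t j t s').comp (f := fun q : (E d × Path d) × E d =>
        (q.1.2, w', q.1.1 - q.2)) (by fun_prop)
    have h2 := (hA.mul hB).lintegral_prod_right' (ν := (volume : Measure (E d)))
    show ∫⁻ z, (∫⁻ w'', (∫⁻ y, (Kset ρ s t w w'').indicator (fun _ => 1) y *
      QQ μ ρ t j t s' w'' w' (z - y)) ∂μ) = ∫⁻ w'', Vol ρ s t w w'' * qq μ ρ t j t s' w'' w' ∂μ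
    rw [lintegral_lintegral_swap (μ := volume) (ν := μ) h2.aemeasurable]
    refine lintegral_congr fun w'' => ?_
    have h3 : Measurable fun q : E d × E d => (Kset ρ s t w w'').indicator (fun _ => (1 : ℝ≥0∞)) q.2 *
        QQ μ ρ t j t s' w'' w' (q.1 - q.2) :=
      (hA.mul hB).comp (f := fun q : E d × E d => ((q.1, w''), q.2)) (by fun_prop)
    rw [lintegral_lintegral_swap (f := fun z y => (Kset ρ s t w w'').indicator
      (fun _ => (1 : ℝ≥0∞)) y * QQ μ ρ t j t s' w'' w' (z - y)) h3.aemeasurable]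
    have h4 : ∀ y : E d, ∫⁻ z, (Kset ρ s t w w'').indicator (fun _ => (1 : ℝ≥0∞)) y *
        QQ μ ρ t j t s' w'' w' (z - y) =
        (Kset ρ s t w w'').indicator (fun _ => (1 : ℝ≥0∞)) y * qq μ ρ t j t s' w'' w' := by
      intro y
      have hm : Measurable fun z : E d => QQ μ ρ t j t s' w'' w' (z - y) :=
        (measurable_QQ_z μ ρ t j t s' w'' w').comp (measurable_id.sub_const y)
      rw [lintegral_const_mul _ hm,
        lintegral_sub_right_eq_self (fun z => QQ μ ρ t j t s' w'' w' z) y, ih]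
    simp_rw [h4]
    rw [lintegral_mul_const, lintegral_Kset]
    exact measurable_const.indicator (isOpen_Kset ρ s t w w'').measurableSet

theorem QQ_succ_le (μ : Measure (Path d)) [IsProbabilityMeasure μ] (ρ : ℝ) (t : ℝ≥0) (j : ℕ)
    (s s' : ℝ≥0) (w w' : Path d) (z : E d) :
    QQ μ ρ t (j + 1) s s' w w' z ≤ ∫⁻ w'', qq μ ρ t j s t w w'' ∂μ := by
  induction j generalizing s s' w w' z with
  | zero =>
    refine lintegral_mono fun w'' => ?_
    show (∫⁻ y, (Kset ρ s t w w'').indicator (fun _ => 1) y *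
      (Kset ρ t s' w'' w').indicator (fun _ => 1) (z - y)) ≤ Vol ρ s t w w''
    rw [← lintegral_Kset]
    refine lintegral_mono fun y => ?_
    calc (Kset ρ s t w w'').indicator (fun _ => (1 : ℝ≥0∞)) y *
        (Kset ρ t s' w'' w').indicator (fun _ => 1) (z - y)
        ≤ (Kset ρ s t w w'').indicator (fun _ => (1 : ℝ≥0∞)) y * 1 := by
          gcongr
          exact Set.indicator_le_self' (fun _ _ => zero_le) _
      _ = _ := mul_one _
  | succ j ih =>
    have h1 : QQ μ ρ t (j + 1 + 1) s s' w w' z ≤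
        ∫⁻ w₁, Vol ρ s t w w₁ * ∫⁻ w'', qq μ ρ t j t t w₁ w'' ∂μ ∂μ := by
      refine lintegral_mono fun w₁ => ?_
      rw [← lintegral_Kset, ← lintegral_mul_const _
        (measurable_const.indicator (isOpen_Kset ρ s t w w₁).measurableSet)]
      refine lintegral_mono fun y => ?_
      gcongr
      exact ih t s' w₁ w' (z - y)
    refine h1.trans (le_of_eq ?_)
    show _ = ∫⁻ w'', (∫⁻ w₁, Vol ρ s t w w₁ * qq μ ρ t j t t w₁ w'' ∂μ) ∂μ
    have hA : Measurable fun q : Path d × Path d => Vol ρ s t w q.2 :=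
      (measurable_Vol ρ s t).comp (f := fun q : Path d × Path d => (w, q.2)) (by fun_prop)
    have hB : Measurable fun q : Path d × Path d => qq μ ρ t j t t q.2 q.1 :=
      (measurable_qq μ ρ t j t t).comp (f := fun q : Path d × Path d => (q.2, q.1)) (by fun_prop)
    rw [lintegral_lintegral_swap (hA.mul hB).aemeasurable]
    refine lintegral_congr fun w₁ => ?_
    rw [lintegral_const_mul]
    exact (measurable_qq μ ρ t j t t).comp (f := fun q : Path d => (w₁, q)) (by fun_prop)

theorem shift_zero' (w : Path d) : shift 0 w = w := by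
  ext1 s
  simp

theorem Kset_blocks_left (ρ : ℝ) {k : ℕ} (hk : 0 < k) (τ s' : ℝ≥0) (w w' : Path d) (z : E d) :
    (Kset ρ (k * τ) s' w w').indicator (fun _ => (1 : ℝ≥0∞)) z ≤ ∑ b ∈ Finset.range k,
      (Kset ρ τ s' (shift (b * τ) w) w').indicator (fun _ => (1 : ℝ≥0∞)) (z - w (b * τ)) := by
  by_cases hz : z ∈ Kset ρ (k * τ) s' w w'
  · have h := Kset_blocks ρ k 1 τ s' hk one_pos w w'
    simp only [Nat.cast_one, one_mul] at h
    rw [h] at hz
    simp only [Set.mem_iUnion, exists_prop] at hz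
    obtain ⟨i, hi, j, hj, hz⟩ := hz
    obtain rfl : j = 0 := by omega
    simp only [Nat.cast_zero, zero_mul, Path.zero, add_zero, shift_zero'] at hz
    have hz' : z - w (i * τ) ∈ Kset ρ τ s' (shift (i * τ) w) w' := hz
    calc (Kset ρ (k * τ) s' w w').indicator (fun _ => (1 : ℝ≥0∞)) z ≤ 1 :=
          Set.indicator_le_self' (fun _ _ => zero_le) _
      _ = (Kset ρ τ s' (shift (i * τ) w) w').indicator (fun _ => (1 : ℝ≥0∞)) (z - w (i * τ)) := by
          rw [Set.indicator_of_mem hz']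
      _ ≤ _ := Finset.single_le_sum (f := fun b : ℕ =>
          (Kset ρ τ s' (shift (b * τ) w) w').indicator (fun _ => (1 : ℝ≥0∞)) (z - w (b * τ)))
          (fun _ _ => zero_le) (Finset.mem_range.2 hi)
  · rw [Set.indicator_of_notMem hz]
    exact zero_le

theorem Kset_blocks_right (ρ : ℝ) {k : ℕ} (hk : 0 < k) (s τ : ℝ≥0) (w w' : Path d) (z : E d) :
    (Kset ρ s (k * τ) w w').indicator (fun _ => (1 : ℝ≥0∞)) z ≤ ∑ a ∈ Finset.range k,
      (Kset ρ s τ w (shift (a * τ) w')).indicator (fun _ => (1 : ℝ≥0∞)) (z + w' (a * τ)) := by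
  by_cases hz : z ∈ Kset ρ s (k * τ) w w'
  · have h := Kset_blocks ρ 1 k s τ one_pos hk w w'
    simp only [Nat.cast_one, one_mul] at h
    rw [h] at hz
    simp only [Set.mem_iUnion, exists_prop] at hz
    obtain ⟨j, hj, i, hi, hz⟩ := hz
    obtain rfl : j = 0 := by omega
    simp only [Nat.cast_zero, zero_mul, Path.zero, sub_zero, shift_zero'] at hz
    have hz' : z + w' (i * τ) ∈ Kset ρ s τ w (shift (i * τ) w') := hz
    calc (Kset ρ s (k * τ) w w').indicator (fun _ => (1 : ℝ≥0∞)) z ≤ 1 :=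
          Set.indicator_le_self' (fun _ _ => zero_le) _
      _ = (Kset ρ s τ w (shift (i * τ) w')).indicator (fun _ => (1 : ℝ≥0∞)) (z + w' (i * τ)) := by
          rw [Set.indicator_of_mem hz']
      _ ≤ _ := Finset.single_le_sum (f := fun a : ℕ =>
          (Kset ρ s τ w (shift (a * τ) w')).indicator (fun _ => (1 : ℝ≥0∞)) (z + w' (a * τ)))
          (fun _ _ => zero_le) (Finset.mem_range.2 hi)
  · rw [Set.indicator_of_notMem hz]
    exact zero_le

theorem measurable_ind_path (ρ : ℝ) (s t : ℝ≥0) (w : Path d) :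
    Measurable fun q : Path d × E d => (Kset ρ s t w q.1).indicator (fun _ => (1 : ℝ≥0∞)) q.2 := by
  exact (measurable_ind3 ρ s t).comp (f := fun q : Path d × E d => (q.2, w, q.1)) (by fun_prop)

theorem QQ_blocks_left (μ : Measure (Path d)) [IsProbabilityMeasure μ] (ρ : ℝ) (t : ℝ≥0) (j : ℕ)
    {k : ℕ} (hk : 0 < k) (τ s' : ℝ≥0) (w w' : Path d) (z : E d) :
    QQ μ ρ t j (k * τ) s' w w' z ≤ ∑ b ∈ Finset.range k,
      QQ μ ρ t j τ s' (shift (b * τ) w) w' (z - w (b * τ)) := by
  cases j with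
  | zero => exact Kset_blocks_left ρ hk τ s' w w' z
  | succ j =>
    have hB : Measurable fun q : Path d × E d => QQ μ ρ t j t s' q.1 w' (z - q.2) := by
      exact (measurable_QQ μ ρ t j t s').comp (f := fun q : Path d × E d => (q.1, w', z - q.2))
        (by fun_prop)
    have hA : ∀ b : ℕ, Measurable fun q : Path d × E d =>
        (Kset ρ τ t (shift (b * τ) w) q.1).indicator (fun _ => (1 : ℝ≥0∞)) (q.2 - w (b * τ)) :=
      fun b => (measurable_ind_path ρ τ t (shift (b * τ) w)).comp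
        (f := fun q : Path d × E d => (q.1, q.2 - w (b * τ))) (by fun_prop)
    calc QQ μ ρ t (j + 1) (k * τ) s' w w' z
        ≤ ∫⁻ w'', (∫⁻ y, (∑ b ∈ Finset.range k,
          (Kset ρ τ t (shift (b * τ) w) w'').indicator (fun _ => (1 : ℝ≥0∞)) (y - w (b * τ)) *
          QQ μ ρ t j t s' w'' w' (z - y))) ∂μ := by
          refine lintegral_mono fun w'' => lintegral_mono fun y => ?_
          rw [← Finset.sum_mul]
          gcongr
          exact Kset_blocks_left ρ hk τ t w w'' y
      _ = ∑ b ∈ Finset.range k, ∫⁻ w'', (∫⁻ y,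
          (Kset ρ τ t (shift (b * τ) w) w'').indicator (fun _ => (1 : ℝ≥0∞)) (y - w (b * τ)) *
          QQ μ ρ t j t s' w'' w' (z - y)) ∂μ := by
          rw [← lintegral_finsetSum]
          · refine lintegral_congr fun w'' => ?_
            rw [lintegral_finsetSum]
            intro b _
            exact ((hA b).mul hB).comp (f := fun y : E d => (w'', y)) (by fun_prop)
          · intro b _
            exact ((hA b).mul hB).lintegral_prod_right' (ν := (volume : Measure (E d)))
      _ = ∑ b ∈ Finset.range k,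
          QQ μ ρ t (j + 1) τ s' (shift (b * τ) w) w' (z - w (b * τ)) := by
          refine Finset.sum_congr rfl fun b _ => ?_
          refine lintegral_congr fun w'' => ?_
          rw [← lintegral_sub_right_eq_self (fun y =>
            (Kset ρ τ t (shift (b * τ) w) w'').indicator (fun _ => (1 : ℝ≥0∞)) y *
            QQ μ ρ t j t s' w'' w' (z - w (b * τ) - y)) (w (b * τ))]
          refine lintegral_congr fun y => ?_
          congr 2
          abel

theorem QQ_blocks_right (μ : Measure (Path d)) [IsProbabilityMeasure μ] (ρ : ℝ) (t : ℝ≥0) (j : ℕ)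
    {k : ℕ} (hk : 0 < k) (s τ : ℝ≥0) (w w' : Path d) (z : E d) :
    QQ μ ρ t j s (k * τ) w w' z ≤ ∑ a ∈ Finset.range k,
      QQ μ ρ t j s τ w (shift (a * τ) w') (z + w' (a * τ)) := by
  induction j generalizing s w z with
  | zero => exact Kset_blocks_right ρ hk s τ w w' z
  | succ j ih =>
    have hB : ∀ a : ℕ, Measurable fun q : Path d × E d =>
        QQ μ ρ t j t τ q.1 (shift (a * τ) w') (z - q.2 + w' (a * τ)) := fun a =>
      (measurable_QQ μ ρ t j t τ).comp (f := fun q : Path d × E d =>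
        (q.1, shift (a * τ) w', z - q.2 + w' (a * τ))) (by fun_prop)
    have hA := measurable_ind_path ρ s t w
    calc QQ μ ρ t (j + 1) s (k * τ) w w' z
        ≤ ∫⁻ w'', (∫⁻ y, (∑ a ∈ Finset.range k,
          (Kset ρ s t w w'').indicator (fun _ => (1 : ℝ≥0∞)) y *
          QQ μ ρ t j t τ w'' (shift (a * τ) w') (z - y + w' (a * τ)))) ∂μ := by
          refine lintegral_mono fun w'' => lintegral_mono fun y => ?_
          rw [← Finset.mul_sum]
          gcongr
          exact ih t w'' (z - y)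
      _ = ∑ a ∈ Finset.range k, ∫⁻ w'', (∫⁻ y,
          (Kset ρ s t w w'').indicator (fun _ => (1 : ℝ≥0∞)) y *
          QQ μ ρ t j t τ w'' (shift (a * τ) w') (z - y + w' (a * τ))) ∂μ := by
          rw [← lintegral_finsetSum]
          · refine lintegral_congr fun w'' => ?_
            rw [lintegral_finsetSum]
            intro a _
            exact (hA.mul (hB a)).comp (f := fun y : E d => (w'', y)) (by fun_prop)
          · intro a _
            exact (hA.mul (hB a)).lintegral_prod_right' (ν := (volume : Measure (E d)))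
      _ = ∑ a ∈ Finset.range k,
          QQ μ ρ t (j + 1) s τ w (shift (a * τ) w') (z + w' (a * τ)) := by
          refine Finset.sum_congr rfl fun a _ => ?_
          refine lintegral_congr fun w'' => lintegral_congr fun y => ?_
          congr 2
          abel

theorem stop_self (s : ℝ≥0) (w : Path d) : stop s (stop s w) = stop s w := by
  rw [stop_stop, min_self]

/-- The kernels only depend on the stopped paths. -/
theorem QQ_stop (μ : Measure (Path d)) [IsProbabilityMeasure μ] (ρ : ℝ) (t : ℝ≥0) (j : ℕ)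
    (s s' : ℝ≥0) (w w' : Path d) (z : E d) :
    QQ μ ρ t j s s' (stop s w) (stop s' w') z = QQ μ ρ t j s s' w w' z := by
  induction j generalizing s w w' z with
  | zero =>
    show (Kset ρ s s' (stop s w) (stop s' w')).indicator (fun _ => 1) z =
      (Kset ρ s s' w w').indicator (fun _ => 1) z
    rw [Kset_stop]
  | succ j ih =>
    refine lintegral_congr fun w'' => lintegral_congr fun y => ?_
    have h1 : Kset ρ s t (stop s w) w'' = Kset ρ s t w w'' := by
      rw [← Kset_stop ρ s t (stop s w) w'', stop_self, Kset_stop]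
    have h2 : QQ μ ρ t j t s' w'' (stop s' w') (z - y) = QQ μ ρ t j t s' w'' w' (z - y) := by
      rw [← ih t w'' (stop s' w') (z - y), stop_self, ih]
    rw [h1, h2]

theorem qq_stop (μ : Measure (Path d)) [IsProbabilityMeasure μ] (ρ : ℝ) (t : ℝ≥0) (j : ℕ)
    (s s' : ℝ≥0) (w w' : Path d) :
    qq μ ρ t j s s' (stop s w) (stop s' w') = qq μ ρ t j s s' w w' := by
  rw [← lintegral_QQ, ← lintegral_QQ]
  exact lintegral_congr fun z => QQ_stop μ ρ t j s s' w w' z

theorem lintegral_qq_sq_zero (μ : Measure (Path d)) (ρ : ℝ) (t s s' : ℝ≥0) :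
    ∫⁻ w, ∫⁻ w', (qq μ ρ t 0 s s' w w') ^ 2 ∂μ ∂μ = EV2 μ ρ s s' := rfl

theorem sq_lintegral_mul_le {α : Type*} [MeasurableSpace α] (μ : Measure α) {f g : α → ℝ≥0∞}
    (hf : AEMeasurable f μ) (hg : AEMeasurable g μ) :
    (∫⁻ a, f a * g a ∂μ) ^ 2 ≤ (∫⁻ a, f a ^ 2 ∂μ) * ∫⁻ a, g a ^ 2 ∂μ := by
  have h := ENNReal.lintegral_mul_le_Lp_mul_Lq μ Real.HolderConjugate.two_two hf hg
  simp only [Pi.mul_apply] at h
  calc (∫⁻ a, f a * g a ∂μ) ^ 2
      ≤ ((∫⁻ a, f a ^ (2 : ℝ) ∂μ) ^ (1 / 2 : ℝ) * (∫⁻ a, g a ^ (2 : ℝ) ∂μ) ^ (1 / 2 : ℝ)) ^ 2 := by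
        gcongr
    _ = (∫⁻ a, f a ^ 2 ∂μ) * ∫⁻ a, g a ^ 2 ∂μ := by
        rw [mul_pow, ← ENNReal.rpow_natCast, ← ENNReal.rpow_natCast, ← ENNReal.rpow_mul,
          ← ENNReal.rpow_mul]
        norm_num

theorem lintegral_qq_sq_succ (μ : Measure (Path d)) [IsProbabilityMeasure μ] (ρ : ℝ) (t : ℝ≥0)
    (j : ℕ) (s s' : ℝ≥0) :
    ∫⁻ w, ∫⁻ w', (qq μ ρ t (j + 1) s s' w w') ^ 2 ∂μ ∂μ ≤
      EV2 μ ρ s t * ∫⁻ w, ∫⁻ w', (qq μ ρ t j t s' w w') ^ 2 ∂μ ∂μ := by
  have hV : Measurable fun q : Path d × Path d => Vol ρ s t q.1 q.2 ^ 2 :=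
    (measurable_Vol ρ s t).pow_const 2
  have hq : Measurable fun q : Path d × Path d => qq μ ρ t j t s' q.1 q.2 ^ 2 :=
    (measurable_qq μ ρ t j t s').pow_const 2
  have hq' : Measurable fun q : Path d × Path d => qq μ ρ t j t s' q.2 q.1 ^ 2 :=
    hq.comp measurable_swap
  calc ∫⁻ w, ∫⁻ w', (qq μ ρ t (j + 1) s s' w w') ^ 2 ∂μ ∂μ
      ≤ ∫⁻ w, ∫⁻ w', (∫⁻ w'', Vol ρ s t w w'' ^ 2 ∂μ) *
        (∫⁻ w'', qq μ ρ t j t s' w'' w' ^ 2 ∂μ) ∂μ ∂μ := by
        refine lintegral_mono fun w => lintegral_mono fun w' => ?_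
        refine sq_lintegral_mul_le μ ?_ ?_
        · exact ((measurable_Vol ρ s t).comp (f := fun q : Path d => (w, q))
            (by fun_prop)).aemeasurable
        · exact ((measurable_qq μ ρ t j t s').comp (f := fun q : Path d => (q, w'))
            (by fun_prop)).aemeasurable
    _ = EV2 μ ρ s t * ∫⁻ w, ∫⁻ w', (qq μ ρ t j t s' w w') ^ 2 ∂μ ∂μ := by
        have h1 : ∀ w : Path d, ∫⁻ w', (∫⁻ w'', Vol ρ s t w w'' ^ 2 ∂μ) *
            (∫⁻ w'', qq μ ρ t j t s' w'' w' ^ 2 ∂μ) ∂μ = (∫⁻ w'', Vol ρ s t w w'' ^ 2 ∂μ) *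
            ∫⁻ w, ∫⁻ w', (qq μ ρ t j t s' w w') ^ 2 ∂μ ∂μ := by
          intro w
          rw [lintegral_const_mul _ hq'.lintegral_prod_right']
          rw [lintegral_lintegral_swap hq'.aemeasurable]
        simp_rw [h1]
        rw [lintegral_mul_const _ hV.lintegral_prod_right']
        rfl

end WSP
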