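import Pool.Agent.Lib_MP_c175fd.WienerA

/-!
# Piece GAUSS: the law of `w t` and its density

`w t` has independent coordinates with law `gaussianReal 0 t`, so its law on `Fin d → ℝ` is the
product measure, with density the product of the one dimensional densities; transport to
`EuclideanSpace ℝ (Fin d)` by `EuclideanSpace.volume_preserving_symm_measurableEquiv_toLp` or
similar (`‖x‖ ^ 2 = ∑ i, x i ^ 2`).
-/

open MeasureTheory ProbabilityTheory Filter Topology
open scoped ENNReal NNReal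

namespace WSP

variable {d : ℕ}

/-- The Gaussian density of variance `t`. -/
noncomputable def gd (d : ℕ) (t : ℝ) (x : E d) : ℝ :=
  (2 * Real.pi * t) ^ (-(d : ℝ) / 2) * Real.exp (-‖x‖ ^ 2 / (2 * t))

theorem GA_zero (f : (Fin 0 → ℝ) → ℝ≥0∞) (ν : Measure ℝ) [SigmaFinite ν] :
    ∫⁻ x, f x ∂(Measure.pi fun _ : Fin 0 => ν) = f default := by
  rw [lintegral_unique, Measure.pi_univ]
  simp only [Finset.univ_eq_empty, Finset.prod_empty, mul_one]
  congr 1
  exact Subsingleton.elim _ _

theorem GA_cons (n : ℕ) :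
    Measurable (fun q : ℝ × (Fin n → ℝ) => (Fin.cons q.1 q.2 : Fin (n + 1) → ℝ)) := by
  rw [measurable_pi_iff]
  intro j
  refine Fin.cases ?_ (fun j => ?_) j
  · exact measurable_fst
  · exact (measurable_pi_apply j).comp measurable_snd

theorem GA_succ (n : ℕ) (ν : Measure ℝ) [SigmaFinite ν] (f : (Fin (n + 1) → ℝ) → ℝ≥0∞)
    (hf : Measurable f) :
    ∫⁻ x, f x ∂(Measure.pi fun _ : Fin (n + 1) => ν)
      = ∫⁻ t : ℝ, ∫⁻ x : Fin n → ℝ, f (Fin.cons t x) ∂(Measure.pi fun _ : Fin n => ν) ∂ν := by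
  have h1 := (measurePreserving_piFinSuccAbove (fun _ : Fin (n + 1) => ν) 0).symm.lintegral_comp hf
  rw [← h1]
  have h3 : (fun q => f ((MeasurableEquiv.piFinSuccAbove (fun _ : Fin (n + 1) => ℝ) 0).symm q))
      = fun q : ℝ × (Fin n → ℝ) => f (Fin.cons q.1 q.2) := by
    funext q
    congr 1
    funext j
    refine Fin.cases ?_ (fun j => ?_) j
    · rfl
    · rfl
  rw [h3]
  exact lintegral_prod _ (hf.comp (GA_cons n)).aemeasurable

theorem GA_pi {t : ℝ≥0} (ht : t ≠ 0) (n : ℕ) (f : (Fin n → ℝ) → ℝ≥0∞) (hf : Measurable f) :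
    ∫⁻ y, f y ∂(Measure.pi fun _ : Fin n => gaussianReal 0 t) =
      ∫⁻ y : Fin n → ℝ, (∏ j, gaussianPDF 0 t (y j)) * f y := by
  have hg : Measurable (gaussianPDF 0 t) := measurable_gaussianPDF 0 t
  induction n with
  | zero =>
    rw [GA_zero, volume_pi, GA_zero]
    simp
  | succ n ih =>
    have hm : Measurable (fun y : Fin (n + 1) → ℝ => (∏ j, gaussianPDF 0 t (y j)) * f y) :=
      (Finset.measurable_prod _ fun j _ => hg.comp (measurable_pi_apply j)).mul hf
    rw [GA_succ n (gaussianReal 0 t) f hf, volume_pi, GA_succ n volume _ hm]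
    have h1 : ∀ s : ℝ,
        ∫⁻ x : Fin n → ℝ, f (Fin.cons s x) ∂(Measure.pi fun _ : Fin n => gaussianReal 0 t)
        = ∫⁻ x : Fin n → ℝ, (∏ j, gaussianPDF 0 t (x j)) * f (Fin.cons s x) := fun s =>
      ih _ (hf.comp ((GA_cons n).comp (measurable_const.prodMk measurable_id)))
    rw [lintegral_congr h1]
    have hm2 : Measurable (fun q : ℝ × (Fin n → ℝ) =>
        (∏ j, gaussianPDF 0 t (q.2 j)) * f (Fin.cons q.1 q.2)) :=
      (Finset.measurable_prod _ fun j _ =>
        hg.comp ((measurable_pi_apply j).comp measurable_snd)).mul (hf.comp (GA_cons n))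
    have h2 : ∫⁻ s, (∫⁻ x : Fin n → ℝ, (∏ j, gaussianPDF 0 t (x j)) * f (Fin.cons s x))
          ∂(gaussianReal 0 t)
        = ∫⁻ s : ℝ, gaussianPDF 0 t s *
          ∫⁻ x : Fin n → ℝ, (∏ j, gaussianPDF 0 t (x j)) * f (Fin.cons s x) := by
      have h4 : Measurable (fun s : ℝ =>
          ∫⁻ x : Fin n → ℝ, (∏ j, gaussianPDF 0 t (x j)) * f (Fin.cons s x)) :=
        hm2.lintegral_prod_right'
      rw [gaussianReal_of_var_ne_zero 0 ht, lintegral_withDensity_eq_lintegral_mul _ hg h4]
      simp only [Pi.mul_apply]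
    rw [h2]
    refine lintegral_congr fun s => ?_
    have hc : Measurable (fun x : Fin n → ℝ => (Fin.cons s x : Fin (n + 1) → ℝ)) := by
      rw [measurable_pi_iff]
      intro j
      refine Fin.cases ?_ (fun j => ?_) j
      · exact measurable_const
      · exact measurable_pi_apply j
    have hm3 : Measurable (fun x : Fin n → ℝ =>
        (∏ j, gaussianPDF 0 t (x j)) * f (Fin.cons s x)) :=
      (Finset.measurable_prod _ fun j _ => hg.comp (measurable_pi_apply j)).mul (hf.comp hc)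
    rw [← lintegral_const_mul _ hm3, volume_pi]
    refine lintegral_congr fun x => ?_
    rw [Fin.prod_univ_succ, ← mul_assoc]
    rfl

theorem GA_prod {t : ℝ≥0} (ht : t ≠ 0) (y : Fin d → ℝ) :
    ∏ j, gaussianPDF 0 t (y j) = ENNReal.ofReal (gd d t (WithLp.toLp 2 y)) := by
  have ht0 : (0 : ℝ) < t := by
    have : 0 < t := pos_iff_ne_zero.2 ht
    exact_mod_cast this
  have hp : (0 : ℝ) < 2 * Real.pi * t := by positivity
  unfold gaussianPDF
  rw [← ENNReal.ofReal_prod_of_nonneg fun j _ => gaussianPDFReal_nonneg 0 t (y j)]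
  congr 1
  unfold gaussianPDFReal gd
  rw [Finset.prod_mul_distrib, Finset.prod_const, Finset.card_univ, Fintype.card_fin,
    ← Real.exp_sum]
  congr 1
  · rw [Real.sqrt_eq_rpow, ← Real.rpow_neg hp.le, ← Real.rpow_natCast, ← Real.rpow_mul hp.le]
    congr 1
    ring
  · congr 1
    rw [EuclideanSpace.real_norm_sq_eq, ← Finset.sum_div, Finset.sum_neg_distrib]
    simp

theorem gd_meas (d : ℕ) (t : ℝ) : Measurable (gd d t) := by
  unfold gd
  fun_prop

theorem IsWiener.map_eval_eq {μ : Measure (Path d)} (h : IsWiener μ) {t : ℝ≥0} (ht : t ≠ 0) :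
    μ.map (fun w => w t) =
      (volume : Measure (E d)).withDensity (fun x => ENNReal.ofReal (gd d t x)) := by
  have := h.isProb
  have h1 : μ.map (fun (w : Path d) (i : Fin d) => w t i) =
      Measure.pi (fun _ : Fin d => gaussianReal 0 t) := by
    have h2 : iIndepFun (fun (i : Fin d) (w : Path d) => w t i) μ :=
      h.indep.comp (fun (i : Fin d) (f : ℝ≥0 → ℝ) => f t) (fun i => measurable_pi_apply t)
    have h3 := (iIndepFun_iff_map_fun_eq_pi_map
      (fun i => ((WA_meas_coord i).comp (measurable_eval t)).aemeasurable)).1 h2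
    refine h3.trans ?_
    congr 1
    funext i
    exact ((h.brown i).hasLaw_eval t).map_eq
  have hm0 : Measurable (fun (w : Path d) (i : Fin d) => w t i) :=
    measurable_pi_lambda _ fun i => (WA_meas_coord i).comp (measurable_eval t)
  have hT : Measurable (WithLp.toLp 2 : (Fin d → ℝ) → E d) := WithLp.measurable_toLp 2 (Fin d → ℝ)
  have h4 : μ.map (fun w : Path d => w t) =
      (Measure.pi (fun _ : Fin d => gaussianReal 0 t)).map (WithLp.toLp 2 : (Fin d → ℝ) → E d) := by
    rw [← h1, Measure.map_map hT hm0]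
    rfl
  have hgm : Measurable (fun x : E d => ENNReal.ofReal (gd d t x)) := (gd_meas d t).ennreal_ofReal
  refine Measure.ext_of_lintegral _ fun f hf => ?_
  rw [h4, lintegral_map hf hT, lintegral_withDensity_eq_lintegral_mul _ hgm hf]
  refine (GA_pi ht d (fun a => f (WithLp.toLp 2 a)) (hf.comp hT)).trans ?_
  have h5 := (PiLp.volume_preserving_toLp (Fin d)).lintegral_comp (hgm.mul hf)
  refine Eq.trans ?_ h5
  refine lintegral_congr fun y => ?_
  rw [GA_prod ht y]
  rfl

/-- Upper bound: the density is at most `(2 π t)^(-d/2)`. -/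
theorem IsWiener.prob_eval_le {μ : Measure (Path d)} (h : IsWiener μ) {t : ℝ≥0} (ht : t ≠ 0)
    {A : Set (E d)} (hA : MeasurableSet A) :
    μ {w | w t ∈ A} ≤ ENNReal.ofReal ((2 * Real.pi * t) ^ (-(d : ℝ) / 2)) * volume A := by
  have h1 : μ {w : Path d | w t ∈ A} = μ.map (fun w => w t) A :=
    (Measure.map_apply (measurable_eval t) hA).symm
  have ht0 : (0 : ℝ) < t := by
    have : 0 < t := pos_iff_ne_zero.2 ht
    exact_mod_cast this
  have hp : (0 : ℝ) < 2 * Real.pi * t := by positivity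
  rw [h1, h.map_eval_eq ht, withDensity_apply _ hA, ← setLIntegral_const]
  refine lintegral_mono fun x => ENNReal.ofReal_le_ofReal ?_
  unfold gd
  have h2 : Real.exp (-‖x‖ ^ 2 / (2 * t)) ≤ 1 := by
    rw [Real.exp_le_one_iff]
    exact div_nonpos_of_nonpos_of_nonneg (by simp) (by positivity)
  exact mul_le_of_le_one_right (Real.rpow_nonneg hp.le _) h2

/-- Lower bound on a ball. -/
theorem IsWiener.prob_eval_ge {μ : Measure (Path d)} (h : IsWiener μ) {t : ℝ≥0} (ht : t ≠ 0)
    {A : Set (E d)} (hA : MeasurableSet A) {b : ℝ} (hb : ∀ x ∈ A, ‖x‖ ≤ b) :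
    ENNReal.ofReal ((2 * Real.pi * t) ^ (-(d : ℝ) / 2) * Real.exp (-b ^ 2 / (2 * t))) * volume A ≤
      μ {w | w t ∈ A} := by
  have h1 : μ {w : Path d | w t ∈ A} = μ.map (fun w => w t) A :=
    (Measure.map_apply (measurable_eval t) hA).symm
  have ht0 : (0 : ℝ) < t := by
    have : 0 < t := pos_iff_ne_zero.2 ht
    exact_mod_cast this
  have hp : (0 : ℝ) < 2 * Real.pi * t := by positivity
  rw [h1, h.map_eval_eq ht, withDensity_apply _ hA, ← setLIntegral_const]
  refine setLIntegral_mono' hA fun x hx => ENNReal.ofReal_le_ofReal ?_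
  unfold gd
  refine mul_le_mul_of_nonneg_left (Real.exp_le_exp.2 ?_) (Real.rpow_nonneg hp.le _)
  rw [div_le_div_iff_of_pos_right (by positivity)]
  have h3 := hb x hx
  have h4 := norm_nonneg x
  have h5 : ‖x‖ ^ 2 ≤ b ^ 2 := by gcongr
  linarith

end WSP
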