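import Pool.Agent.Lib_MP_c175fd.CycJJ
import Pool.Agent.Lib_MP_c175fd.Gauss

/-!
# Pieces CYCA, CYCC: the two cases of the block decomposition of a closed chain

`JJ a₀ b₀ a₁ b₁`: the closed chain with root `w₀` and second vertex `w₁` where the edge `w₀ w₁` uses the
block `b₀` of `w₀` and the block `a₁` of `w₁`, the open chain from `w₁` back to `w₀` uses the block `b₁` of
`w₁` and the block `a₀` of `w₀`.

* `cycle_le_sum_JJ` (piece CYCC): `Kset_blocks`, `QQ_blocks_left`, `QQ_blocks_right` and the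
  substitution `y = z - w₀ (b₀ τ) + w₁ (a₁ τ)`.
* `JJ_far_zero` (piece CYCA): `a₀ + 2 ≤ b₀` or `b₀ + 2 ≤ a₀`. For fixed `w₁` the integrand is a function
  of the two blocks `a₀`, `b₀` of `w₀` (stopped paths, `Kset_stop`, `QQ_stop`) and of the increment between
  them: if `a₀ < b₀`, `w₀ (b₀ τ) - w₀ (a₀ τ) = (block a₀ at time τ) + M` with
  `M = w₀ (b₀ τ) - w₀ ((a₀ + 1) τ)`; if `b₀ < a₀` it is `- (block b₀ at time τ) - M'`. By
  `IsWiener.map_blocks_gap` the triple is independent and the density of `M` is at most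
  `(2 π τ) ^ (-d/2)` (`IsWiener.prob_eval_le` gives `∫ F (c ± M) ≤ (2 π τ) ^ (-d/2) ∫ F`), so the integral
  over `M` of `QQ (.. ± M)` is at most `(2 π τ) ^ (-d/2) qq`. Then integrate `y`: factor `Vol τ τ`. Finally
  `a b ≤ a ^ 2 + b ^ 2`, `map_shift` and independence of `w₀`, `w₁`.
* `JJ_far_one` (piece CYCA): the same for `w₁`.
* `JJ_near` (piece CYCC): drop the last edge (`QQ_succ_le`), integrate `y`, and use
  `2 a b ≤ lam a ^ 2 + lam⁻¹ b ^ 2`; the second moment of `∫ w'', qq m τ t w w''` is at most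
  `∫∫ qq ^ 2` by Jensen.
-/

open MeasureTheory ProbabilityTheory Filter Topology
open scoped ENNReal NNReal

namespace WSP

variable {d : ℕ}

/-- Kernel of the closed chain with all the paths as arguments. -/
noncomputable def cyT (μ : Measure (Path d)) (ρ : ℝ) (t τ : ℝ≥0) (m : ℕ)
    (q : (Path d × Path d) × (Path d × Path d) × E d) : ℝ≥0∞ :=
  ∫⁻ y, (Kset ρ τ τ q.1.1 q.1.2).indicator (fun _ => (1 : ℝ≥0∞)) y *
    QQ μ ρ t (m + 1) τ τ q.2.1.1 q.2.1.2 (q.2.2 - y)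

theorem cyT_meas (μ : Measure (Path d)) [IsProbabilityMeasure μ] (ρ : ℝ) (t τ : ℝ≥0) (m : ℕ) :
    Measurable (cyT μ ρ t τ m) := by
  have hA : Measurable fun q : ((Path d × Path d) × (Path d × Path d) × E d) × E d =>
      (Kset ρ τ τ q.1.1.1 q.1.1.2).indicator (fun _ => (1 : ℝ≥0∞)) q.2 := by
    exact (measurable_ind3 ρ τ τ).comp
      (f := fun q : ((Path d × Path d) × (Path d × Path d) × E d) × E d =>
        (q.2, q.1.1.1, q.1.1.2)) (by fun_prop)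
  have hB : Measurable fun q : ((Path d × Path d) × (Path d × Path d) × E d) × E d =>
      QQ μ ρ t (m + 1) τ τ q.1.2.1.1 q.1.2.1.2 (q.1.2.2 - q.2) := by
    exact (measurable_QQ μ ρ t (m + 1) τ τ).comp
      (f := fun q : ((Path d × Path d) × (Path d × Path d) × E d) × E d =>
        (q.1.2.1.1, q.1.2.1.2, q.1.2.2 - q.2)) (by fun_prop)
  exact (hA.mul hB).lintegral_prod_right' (ν := (volume : Measure (E d)))

theorem cyT_stop (μ : Measure (Path d)) [IsProbabilityMeasure μ] (ρ : ℝ) (t τ : ℝ≥0) (m : ℕ)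
    (P Q R S : Path d) (e : E d) :
    cyT μ ρ t τ m ((stop τ P, stop τ Q), (stop τ R, stop τ S), e) =
      cyT μ ρ t τ m ((P, Q), (R, S), e) := by
  refine lintegral_congr fun y => ?_
  show (Kset ρ τ τ (stop τ P) (stop τ Q)).indicator (fun _ => (1 : ℝ≥0∞)) y *
    QQ μ ρ t (m + 1) τ τ (stop τ R) (stop τ S) (e - y) =
    (Kset ρ τ τ P Q).indicator (fun _ => (1 : ℝ≥0∞)) y *
    QQ μ ρ t (m + 1) τ τ R S (e - y)
  rw [Kset_stop, QQ_stop]

theorem cyT_int (μ : Measure (Path d)) [IsProbabilityMeasure μ] (ρ : ℝ) (t τ : ℝ≥0) (m : ℕ)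
    (P Q R S : Path d) (c : E d) :
    ∫⁻ e, cyT μ ρ t τ m ((P, Q), (R, S), c + e) =
      Vol ρ τ τ P Q * qq μ ρ t (m + 1) τ τ R S := by
  rw [lintegral_add_left_eq_self (fun e => cyT μ ρ t τ m ((P, Q), (R, S), e)) c]
  show ∫⁻ e, (∫⁻ y, (Kset ρ τ τ P Q).indicator (fun _ => (1 : ℝ≥0∞)) y *
    QQ μ ρ t (m + 1) τ τ R S (e - y)) = _
  have hI : Measurable ((Kset ρ τ τ P Q).indicator (fun _ => (1 : ℝ≥0∞))) :=
    measurable_const.indicator (isOpen_Kset ρ τ τ P Q).measurableSet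
  have h3 : Measurable fun q : E d × E d => (Kset ρ τ τ P Q).indicator (fun _ => (1 : ℝ≥0∞)) q.2 *
      QQ μ ρ t (m + 1) τ τ R S (q.1 - q.2) := by
    refine (hI.comp measurable_snd).mul ?_
    exact (measurable_QQ_z μ ρ t (m + 1) τ τ R S).comp (measurable_fst.sub measurable_snd)
  rw [lintegral_lintegral_swap (f := fun e y => (Kset ρ τ τ P Q).indicator
    (fun _ => (1 : ℝ≥0∞)) y * QQ μ ρ t (m + 1) τ τ R S (e - y)) h3.aemeasurable]
  have h4 : ∀ y : E d, ∫⁻ e, (Kset ρ τ τ P Q).indicator (fun _ => (1 : ℝ≥0∞)) y *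
      QQ μ ρ t (m + 1) τ τ R S (e - y) =
      (Kset ρ τ τ P Q).indicator (fun _ => (1 : ℝ≥0∞)) y * qq μ ρ t (m + 1) τ τ R S := by
    intro y
    have hm : Measurable fun e : E d => QQ μ ρ t (m + 1) τ τ R S (e - y) :=
      (measurable_QQ_z μ ρ t (m + 1) τ τ R S).comp (measurable_id.sub_const y)
    rw [lintegral_const_mul _ hm,
      lintegral_sub_right_eq_self (fun e => QQ μ ρ t (m + 1) τ τ R S e) y, lintegral_QQ]
  simp_rw [h4]
  rw [lintegral_mul_const _ hI, lintegral_Kset]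

theorem cyF_dens {μ : Measure (Path d)} (h : IsWiener μ) {τ : ℝ≥0} (hτ : τ ≠ 0) {g : ℕ}
    (hg : 1 ≤ g) {f : E d → ℝ≥0∞} (hf : Measurable f) :
    ∫⁻ x, f x ∂(μ.map (fun w => w ((g : ℝ≥0) * τ))) ≤
      ENNReal.ofReal ((2 * Real.pi * τ) ^ (-(d : ℝ) / 2)) * ∫⁻ x, f x := by
  have hg0 : (g : ℝ≥0) * τ ≠ 0 := mul_ne_zero (by exact_mod_cast (by omega : g ≠ 0)) hτ
  have ht0 : (0 : ℝ) < τ := by
    have : 0 < τ := pos_iff_ne_zero.2 hτ
    exact_mod_cast this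
  have hp : (0 : ℝ) < 2 * Real.pi * τ := by positivity
  rw [h.map_eval_eq hg0, lintegral_withDensity_eq_lintegral_mul _
    (gd_meas d _).ennreal_ofReal hf, ← lintegral_const_mul _ hf]
  refine lintegral_mono fun x => ?_
  show ENNReal.ofReal (gd d ((((g : ℝ≥0) * τ : ℝ≥0)) : ℝ) x) * f x ≤ _
  refine mul_le_mul_left (ENNReal.ofReal_le_ofReal ?_) (f x)
  unfold gd
  have hg1 : (1 : ℝ) ≤ g := by exact_mod_cast hg
  have h2 : Real.exp (-‖x‖ ^ 2 / (2 * (((g : ℝ≥0) * τ : ℝ≥0) : ℝ))) ≤ 1 := by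
    rw [Real.exp_le_one_iff]
    exact div_nonpos_of_nonpos_of_nonneg (by simp) (by positivity)
  refine (mul_le_of_le_one_right (Real.rpow_nonneg (by positivity) _) h2).trans ?_
  refine Real.rpow_le_rpow_of_nonpos hp ?_ ?_
  · push_cast
    nlinarith [Real.pi_pos]
  · have : (0 : ℝ) ≤ d := Nat.cast_nonneg d
    linarith

theorem cyF_meas_block (τ a : ℝ≥0) : Measurable (fun p : Path d => stop τ (shift a p)) :=
  (measurable_stop τ).comp (measurable_shift a)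

theorem cyF_gap {μ : Measure (Path d)} (h : IsWiener μ) {τ : ℝ≥0} (hτ : τ ≠ 0) {i j : ℕ}
    (hij : i + 2 ≤ j) {G : (Path d × Path d) × E d → ℝ≥0∞} (hG : Measurable G) :
    ∫⁻ w, G ((stop τ (shift (i * τ) w), stop τ (shift (j * τ) w)),
        w (j * τ) - w ((i + 1) * τ)) ∂μ ≤
      ENNReal.ofReal ((2 * Real.pi * τ) ^ (-(d : ℝ) / 2)) *
        ∫⁻ w, (∫⁻ x, G ((stop τ (shift (i * τ) w), stop τ (shift (j * τ) w)), x)) ∂μ := by
  have := h.isProb
  have hmap := h.map_blocks_gap τ hij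
  have hb : Measurable (fun w : Path d =>
      (stop τ (shift (i * τ) w), stop τ (shift (j * τ) w))) :=
    (cyF_meas_block τ _).prodMk (cyF_meas_block τ _)
  have hm : Measurable (fun w : Path d => ((stop τ (shift (i * τ) w), stop τ (shift (j * τ) w)),
      w (j * τ) - w ((i + 1) * τ))) :=
    hb.prodMk ((measurable_eval _).sub (measurable_eval _))
  have : IsProbabilityMeasure (μ.map (stop τ)) :=
    Measure.isProbabilityMeasure_map (measurable_stop τ).aemeasurable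
  have : IsProbabilityMeasure (μ.map (fun w : Path d => w (((j - i - 1 : ℕ) : ℝ≥0) * τ))) :=
    Measure.isProbabilityMeasure_map (measurable_eval _).aemeasurable
  have e1 := lintegral_map (μ := μ) hG hm
  rw [← e1, hmap, lintegral_prod _ hG.aemeasurable]
  have e2 : ∫⁻ w, (∫⁻ x, G ((stop τ (shift (i * τ) w), stop τ (shift (j * τ) w)), x)) ∂μ =
      ∫⁻ p, (∫⁻ x, G (p, x)) ∂((μ.map (stop τ)).prod (μ.map (stop τ))) := by
    rw [← h.map_blocks τ (by omega : i ≠ j),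
      lintegral_map (hG.lintegral_prod_right' (ν := (volume : Measure (E d)))) hb]
  rw [e2, ← lintegral_const_mul _ (hG.lintegral_prod_right' (ν := (volume : Measure (E d))))]
  refine lintegral_mono fun p => ?_
  exact cyF_dens h hτ (by omega) (hG.comp measurable_prodMk_left)

/-- Integration over the increment between two far blocks. -/
theorem cyF_far {μ : Measure (Path d)} (h : IsWiener μ) {τ : ℝ≥0} (hτ : τ ≠ 0) {i j : ℕ}
    (hij : i + 2 ≤ j ∨ j + 2 ≤ i) {F : (Path d × Path d) × E d → ℝ≥0∞} (hF : Measurable F)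
    (hs : ∀ P Q e, F ((stop τ P, stop τ Q), e) = F ((P, Q), e)) :
    ∫⁻ w, F ((shift (i * τ) w, shift (j * τ) w), w (i * τ) - w (j * τ)) ∂μ ≤
      ENNReal.ofReal ((2 * Real.pi * τ) ^ (-(d : ℝ) / 2)) *
        ∫⁻ w, (∫⁻ e, F ((shift (i * τ) w, shift (j * τ) w), e)) ∂μ := by
  rcases hij with hij | hij
  · have hG : Measurable (fun p : (Path d × Path d) × E d => F (p.1, -(p.2 + p.1.1 τ))) :=
      hF.comp (measurable_fst.prodMk
        ((measurable_snd.add ((measurable_eval τ).comp (measurable_fst.comp measurable_fst))).neg))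
    have h1 := cyF_gap h hτ hij hG
    refine le_trans (le_of_eq ?_) (h1.trans (le_of_eq ?_))
    · refine lintegral_congr fun w => ?_
      show _ = F ((stop τ (shift (i * τ) w), stop τ (shift (j * τ) w)),
        -(w (j * τ) - w ((i + 1) * τ) + (stop τ (shift (i * τ) w)) τ))
      rw [hs]
      congr 2
      rw [stop_apply, min_self, shift_apply]
      have : (i : ℝ≥0) * τ + τ = (i + 1) * τ := by ring
      rw [this]
      abel
    · congr 1
      refine lintegral_congr fun w => ?_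
      have h2 := lintegral_neg_eq_self
        (fun e : E d => F ((shift (i * τ) w, shift (j * τ) w), e)) (μ := volume)
      have h3 := lintegral_add_right_eq_self
        (fun x : E d => F ((shift (i * τ) w, shift (j * τ) w), -x))
        ((stop τ (shift (i * τ) w)) τ) (μ := volume)
      rw [← h2, ← h3]
      refine lintegral_congr fun x => ?_
      exact hs _ _ _
  · have hG : Measurable (fun p : (Path d × Path d) × E d => F ((p.1.2, p.1.1), p.2 + p.1.1 τ)) :=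
      hF.comp (((measurable_snd.comp measurable_fst).prodMk (measurable_fst.comp measurable_fst)).prodMk
        (measurable_snd.add ((measurable_eval τ).comp (measurable_fst.comp measurable_fst))))
    have h1 := cyF_gap h hτ hij hG
    refine le_trans (le_of_eq ?_) (h1.trans (le_of_eq ?_))
    · refine lintegral_congr fun w => ?_
      show _ = F ((stop τ (shift (i * τ) w), stop τ (shift (j * τ) w)),
        (w (i * τ) - w ((j + 1) * τ) + (stop τ (shift (j * τ) w)) τ))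
      rw [hs]
      congr 2
      rw [stop_apply, min_self, shift_apply]
      have : (j : ℝ≥0) * τ + τ = (j + 1) * τ := by ring
      rw [this]
      abel
    · congr 1
      refine lintegral_congr fun w => ?_
      have h3 := lintegral_add_right_eq_self
        (fun x : E d => F ((shift (i * τ) w, shift (j * τ) w), x))
        ((stop τ (shift (j * τ) w)) τ) (μ := volume)
      rw [← h3]
      refine lintegral_congr fun x => ?_
      exact hs _ _ _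

theorem cyF_mul_le (a b : ℝ≥0∞) : a * b ≤ a ^ 2 + b ^ 2 := by
  rcases le_total a b with hab | hab
  · calc a * b ≤ b * b := mul_le_mul_left hab b
      _ = b ^ 2 := (sq b).symm
      _ ≤ a ^ 2 + b ^ 2 := le_add_self
  · calc a * b ≤ a * a := mul_le_mul_right hab a
      _ = a ^ 2 := (sq a).symm
      _ ≤ a ^ 2 + b ^ 2 := le_self_add

theorem cyF_shift {μ : Measure (Path d)} (h : IsWiener μ) (a b : ℝ≥0)
    {f : Path d × Path d → ℝ≥0∞} (hf : Measurable f) :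
    ∫⁻ w, ∫⁻ w', f (shift a w, shift b w') ∂μ ∂μ = ∫⁻ w, ∫⁻ w', f (w, w') ∂μ ∂μ := by
  have := h.isProb
  have h0 : ∀ (c : ℝ≥0) (g : Path d → ℝ≥0∞), Measurable g →
      ∫⁻ w, g (shift c w) ∂μ = ∫⁻ w, g w ∂μ := by
    intro c g hg
    have h2 := lintegral_map (μ := μ) hg (measurable_shift c)
    rw [h.map_shift] at h2
    exact h2.symm
  have h1 : ∀ w : Path d, ∫⁻ w', f (w, shift b w') ∂μ = ∫⁻ w', f (w, w') ∂μ := fun w =>
    h0 b (fun w' => f (w, w')) (hf.comp measurable_prodMk_left)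
  simp_rw [h1]
  exact h0 a (fun w => ∫⁻ w', f (w, w') ∂μ) (hf.lintegral_prod_right' (ν := μ))

theorem cyF_measV (ρ : ℝ) (τ a b : ℝ≥0) :
    Measurable fun q : Path d × Path d => Vol ρ τ τ (shift a q.1) (shift b q.2) := by
  have h1 : Measurable (fun q : Path d × Path d => (shift a q.1, shift b q.2)) :=
    ((measurable_shift a).comp measurable_fst).prodMk ((measurable_shift b).comp measurable_snd)
  exact Measurable.comp (g := fun p : Path d × Path d => Vol ρ τ τ p.1 p.2)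
    (f := fun q : Path d × Path d => (shift a q.1, shift b q.2)) (measurable_Vol ρ τ τ) h1

theorem cyF_measq (μ : Measure (Path d)) [IsProbabilityMeasure μ] (ρ : ℝ) (t τ : ℝ≥0) (m : ℕ)
    (a b : ℝ≥0) :
    Measurable fun q : Path d × Path d =>
      qq μ ρ t (m + 1) τ τ (shift a q.1) (shift b q.2) := by
  have h1 : Measurable (fun q : Path d × Path d => (shift a q.1, shift b q.2)) :=
    ((measurable_shift a).comp measurable_fst).prodMk ((measurable_shift b).comp measurable_snd)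
  exact Measurable.comp (g := fun p : Path d × Path d => qq μ ρ t (m + 1) τ τ p.1 p.2)
    (f := fun q : Path d × Path d => (shift a q.1, shift b q.2))
    (measurable_qq μ ρ t (m + 1) τ τ) h1

theorem cyF_abs {μ : Measure (Path d)} (h : IsWiener μ) (b₀ a₁ b₁ a₀ : ℝ≥0)
    {V Q : Path d × Path d → ℝ≥0∞} (hV : Measurable V) (hQ : Measurable Q) :
    ∫⁻ w₀, ∫⁻ w₁, V (shift b₀ w₀, shift a₁ w₁) * Q (shift b₁ w₁, shift a₀ w₀) ∂μ ∂μ ≤
    (∫⁻ w, ∫⁻ w', V (w, w') ^ 2 ∂μ ∂μ) + ∫⁻ w, ∫⁻ w', Q (w, w') ^ 2 ∂μ ∂μ := by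
  have := h.isProb
  have hV2 : Measurable fun q : Path d × Path d => V (shift b₀ q.1, shift a₁ q.2) ^ 2 := by
    have h1 : Measurable (fun q : Path d × Path d => (shift b₀ q.1, shift a₁ q.2)) :=
      ((measurable_shift b₀).comp measurable_fst).prodMk ((measurable_shift a₁).comp measurable_snd)
    exact (hV.comp h1).pow_const 2
  have hQ2 : Measurable fun q : Path d × Path d => Q (q.2, q.1) ^ 2 := by
    have h1 : Measurable (fun q : Path d × Path d => (q.2, q.1)) :=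
      measurable_snd.prodMk measurable_fst
    exact (hQ.comp h1).pow_const 2
  have h1 : ∫⁻ w₀, ∫⁻ w₁, V (shift b₀ w₀, shift a₁ w₁) * Q (shift b₁ w₁, shift a₀ w₀) ∂μ ∂μ
      ≤ ∫⁻ w₀, ∫⁻ w₁, (V (shift b₀ w₀, shift a₁ w₁) ^ 2 + Q (shift b₁ w₁, shift a₀ w₀) ^ 2) ∂μ ∂μ :=
    lintegral_mono fun w₀ => lintegral_mono fun w₁ => cyF_mul_le _ _
  have h2 : ∀ w₀ : Path d,
      ∫⁻ w₁, (V (shift b₀ w₀, shift a₁ w₁) ^ 2 + Q (shift b₁ w₁, shift a₀ w₀) ^ 2) ∂μ =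
      (∫⁻ w₁, V (shift b₀ w₀, shift a₁ w₁) ^ 2 ∂μ) +
        ∫⁻ w₁, Q (shift b₁ w₁, shift a₀ w₀) ^ 2 ∂μ := by
    intro w₀
    have hV3 : Measurable fun w₁ : Path d => V (shift b₀ w₀, shift a₁ w₁) ^ 2 := by
      have h1 : Measurable (fun w₁ : Path d => (shift b₀ w₀, shift a₁ w₁)) :=
        measurable_const.prodMk (measurable_shift a₁)
      exact (hV.comp h1).pow_const 2
    exact lintegral_add_left hV3 _
  have h3 : ∫⁻ w₀, ((∫⁻ w₁, V (shift b₀ w₀, shift a₁ w₁) ^ 2 ∂μ) +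
        ∫⁻ w₁, Q (shift b₁ w₁, shift a₀ w₀) ^ 2 ∂μ) ∂μ =
      (∫⁻ w₀, ∫⁻ w₁, V (shift b₀ w₀, shift a₁ w₁) ^ 2 ∂μ ∂μ) +
        ∫⁻ w₀, ∫⁻ w₁, Q (shift b₁ w₁, shift a₀ w₀) ^ 2 ∂μ ∂μ :=
    lintegral_add_left (hV2.lintegral_prod_right' (ν := μ)) _
  have h4 : ∫⁻ w₀, ∫⁻ w₁, V (shift b₀ w₀, shift a₁ w₁) ^ 2 ∂μ ∂μ =
      ∫⁻ w, ∫⁻ w', V (w, w') ^ 2 ∂μ ∂μ :=
    cyF_shift h b₀ a₁ (f := fun q => V q ^ 2) (hV.pow_const 2)
  have h5 : ∫⁻ w₀, ∫⁻ w₁, Q (shift b₁ w₁, shift a₀ w₀) ^ 2 ∂μ ∂μ =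
      ∫⁻ w, ∫⁻ w', Q (w', w) ^ 2 ∂μ ∂μ :=
    cyF_shift h a₀ b₁ (f := fun q => Q (q.2, q.1) ^ 2) hQ2
  have h6 : ∫⁻ w, ∫⁻ w', Q (w', w) ^ 2 ∂μ ∂μ = ∫⁻ w, ∫⁻ w', Q (w, w') ^ 2 ∂μ ∂μ :=
    lintegral_lintegral_swap (f := fun w w' => Q (w', w) ^ 2) hQ2.aemeasurable
  calc ∫⁻ w₀, ∫⁻ w₁, V (shift b₀ w₀, shift a₁ w₁) * Q (shift b₁ w₁, shift a₀ w₀) ∂μ ∂μ
      ≤ _ := h1
    _ = _ := lintegral_congr h2
    _ = _ := h3
    _ = _ := by rw [h4, h5, h6]

theorem cyF_final {μ : Measure (Path d)} (h : IsWiener μ) (ρ : ℝ) (t τ : ℝ≥0) (m : ℕ)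
    (b₀ a₁ b₁ a₀ : ℝ≥0) :
    ∫⁻ w₀, ∫⁻ w₁, Vol ρ τ τ (shift b₀ w₀) (shift a₁ w₁) *
      qq μ ρ t (m + 1) τ τ (shift b₁ w₁) (shift a₀ w₀) ∂μ ∂μ ≤
    EV2 μ ρ τ τ + ∫⁻ w, ∫⁻ w', (qq μ ρ t (m + 1) τ τ w w') ^ 2 ∂μ ∂μ := by
  have := h.isProb
  exact cyF_abs h b₀ a₁ b₁ a₀ (V := fun q => Vol ρ τ τ q.1 q.2)
    (Q := fun q => qq μ ρ t (m + 1) τ τ q.1 q.2) (measurable_Vol ρ τ τ)
    (measurable_qq μ ρ t (m + 1) τ τ)

theorem cyF_JJ (μ : Measure (Path d)) (ρ : ℝ) (t τ : ℝ≥0) (m a₀ b₀ a₁ b₁ : ℕ) :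
    JJ μ ρ t τ m a₀ b₀ a₁ b₁ = ∫⁻ w₀, ∫⁻ w₁, cyT μ ρ t τ m
      ((shift (b₀ * τ) w₀, shift (a₁ * τ) w₁), (shift (b₁ * τ) w₁, shift (a₀ * τ) w₀),
        (w₀ (a₀ * τ) - w₀ (b₀ * τ)) + (w₁ (a₁ * τ) - w₁ (b₁ * τ))) ∂μ ∂μ := by
  refine lintegral_congr fun w₀ => lintegral_congr fun w₁ => lintegral_congr fun y => ?_
  show _ = (Kset ρ τ τ (shift (b₀ * τ) w₀) (shift (a₁ * τ) w₁)).indicator (fun _ => 1) y *
      QQ μ ρ t (m + 1) τ τ (shift (b₁ * τ) w₁) (shift (a₀ * τ) w₀)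
        ((w₀ (a₀ * τ) - w₀ (b₀ * τ)) + (w₁ (a₁ * τ) - w₁ (b₁ * τ)) - y)
  congr 2
  abel

/-- Piece CYCA. -/
theorem JJ_far_zero {μ : Measure (Path d)} (h : IsWiener μ) (ρ : ℝ) (t : ℝ≥0) {τ : ℝ≥0}
    (hτ : τ ≠ 0) (m : ℕ) {a₀ b₀ : ℕ} (a₁ b₁ : ℕ) (hab : a₀ + 2 ≤ b₀ ∨ b₀ + 2 ≤ a₀) :
    JJ μ ρ t τ m a₀ b₀ a₁ b₁ ≤ ENNReal.ofReal ((2 * Real.pi * τ) ^ (-(d : ℝ) / 2)) *
      (EV2 μ ρ τ τ + ∫⁻ w, ∫⁻ w', (qq μ ρ t (m + 1) τ τ w w') ^ 2 ∂μ ∂μ) := by
  have := h.isProb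
  have hT := cyT_meas μ ρ t τ m
  rw [cyF_JJ]
  have hjoint : Measurable (fun q : Path d × Path d => cyT μ ρ t τ m
      ((shift (b₀ * τ) q.1, shift (a₁ * τ) q.2), (shift (b₁ * τ) q.2, shift (a₀ * τ) q.1),
        (q.1 (a₀ * τ) - q.1 (b₀ * τ)) + (q.2 (a₁ * τ) - q.2 (b₁ * τ)))) := by
    have s1 : ∀ a : ℝ≥0, Measurable (fun q : Path d × Path d => shift a q.1) := fun a =>
      (measurable_shift a).comp measurable_fst
    have s2 : ∀ a : ℝ≥0, Measurable (fun q : Path d × Path d => shift a q.2) := fun a =>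
      (measurable_shift a).comp measurable_snd
    have v1 : ∀ a : ℝ≥0, Measurable (fun q : Path d × Path d => q.1 a) := fun a =>
      (measurable_eval a).comp measurable_fst
    have v2 : ∀ a : ℝ≥0, Measurable (fun q : Path d × Path d => q.2 a) := fun a =>
      (measurable_eval a).comp measurable_snd
    exact hT.comp (((s1 _).prodMk (s2 _)).prodMk (((s2 _).prodMk (s1 _)).prodMk
      (((v1 _).sub (v1 _)).add ((v2 _).sub (v2 _)))))
  rw [lintegral_lintegral_swap hjoint.aemeasurable]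
  refine le_trans (lintegral_mono (g := fun w₁ =>
    ENNReal.ofReal ((2 * Real.pi * τ) ^ (-(d : ℝ) / 2)) * ∫⁻ w₀, Vol ρ τ τ (shift (b₀ * τ) w₀)
      (shift (a₁ * τ) w₁) * qq μ ρ t (m + 1) τ τ (shift (b₁ * τ) w₁) (shift (a₀ * τ) w₀) ∂μ)
    fun w₁ => ?_) ?_
  · have hF : Measurable (fun p : (Path d × Path d) × E d => cyT μ ρ t τ m
        ((p.1.2, shift (a₁ * τ) w₁), (shift (b₁ * τ) w₁, p.1.1),
          p.2 + (w₁ (a₁ * τ) - w₁ (b₁ * τ)))) :=
      hT.comp (((measurable_snd.comp measurable_fst).prodMk measurable_const).prodMk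
        ((measurable_const.prodMk (measurable_fst.comp measurable_fst)).prodMk
          (measurable_snd.add measurable_const)))
    have h1 := cyF_far h hτ hab hF (fun P Q e => by
      show cyT μ ρ t τ m ((stop τ Q, shift (a₁ * τ) w₁), (shift (b₁ * τ) w₁, stop τ P),
          e + (w₁ (a₁ * τ) - w₁ (b₁ * τ))) =
        cyT μ ρ t τ m ((Q, shift (a₁ * τ) w₁), (shift (b₁ * τ) w₁, P),
          e + (w₁ (a₁ * τ) - w₁ (b₁ * τ)))
      rw [← cyT_stop, stop_self, stop_self, cyT_stop])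
    refine h1.trans (le_of_eq ?_)
    congr 1
    refine lintegral_congr fun w₀ => ?_
    rw [← cyT_int μ ρ t τ m (shift (b₀ * τ) w₀) (shift (a₁ * τ) w₁) (shift (b₁ * τ) w₁)
      (shift (a₀ * τ) w₀) (w₁ (a₁ * τ) - w₁ (b₁ * τ))]
    refine lintegral_congr fun e => ?_
    show cyT μ ρ t τ m (_, _, e + (w₁ (a₁ * τ) - w₁ (b₁ * τ))) = _
    rw [add_comm e]
  · have hVq : Measurable (fun q : Path d × Path d => Vol ρ τ τ (shift (b₀ * τ) q.2)
        (shift (a₁ * τ) q.1) * qq μ ρ t (m + 1) τ τ (shift (b₁ * τ) q.1) (shift (a₀ * τ) q.2)) :=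
      (Measurable.comp (g := fun q : Path d × Path d =>
        Vol ρ τ τ (shift (b₀ * τ) q.1) (shift (a₁ * τ) q.2)) (f := Prod.swap)
        (cyF_measV ρ τ (b₀ * τ) (a₁ * τ)) measurable_swap).mul
        (cyF_measq μ ρ t τ m (b₁ * τ) (a₀ * τ))
    rw [lintegral_const_mul _ (hVq.lintegral_prod_right' (ν := μ)),
      lintegral_lintegral_swap hVq.aemeasurable]
    exact mul_le_mul_right (cyF_final h ρ t τ m _ _ _ _) _

/-- Piece CYCA. -/
theorem JJ_far_one {μ : Measure (Path d)} (h : IsWiener μ) (ρ : ℝ) (t : ℝ≥0) {τ : ℝ≥0}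
    (hτ : τ ≠ 0) (m : ℕ) (a₀ b₀ : ℕ) {a₁ b₁ : ℕ} (hab : a₁ + 2 ≤ b₁ ∨ b₁ + 2 ≤ a₁) :
    JJ μ ρ t τ m a₀ b₀ a₁ b₁ ≤ ENNReal.ofReal ((2 * Real.pi * τ) ^ (-(d : ℝ) / 2)) *
      (EV2 μ ρ τ τ + ∫⁻ w, ∫⁻ w', (qq μ ρ t (m + 1) τ τ w w') ^ 2 ∂μ ∂μ) := by
  have := h.isProb
  have hT := cyT_meas μ ρ t τ m
  rw [cyF_JJ]
  refine le_trans (lintegral_mono (g := fun w₀ =>
    ENNReal.ofReal ((2 * Real.pi * τ) ^ (-(d : ℝ) / 2)) * ∫⁻ w₁, Vol ρ τ τ (shift (b₀ * τ) w₀)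
      (shift (a₁ * τ) w₁) * qq μ ρ t (m + 1) τ τ (shift (b₁ * τ) w₁) (shift (a₀ * τ) w₀) ∂μ)
    fun w₀ => ?_) ?_
  · have hF : Measurable (fun p : (Path d × Path d) × E d => cyT μ ρ t τ m
        ((shift (b₀ * τ) w₀, p.1.1), (p.1.2, shift (a₀ * τ) w₀),
          (w₀ (a₀ * τ) - w₀ (b₀ * τ)) + p.2)) :=
      hT.comp ((measurable_const.prodMk (measurable_fst.comp measurable_fst)).prodMk
        (((measurable_snd.comp measurable_fst).prodMk measurable_const).prodMk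
          (measurable_const.add measurable_snd)))
    have h1 := cyF_far h hτ hab hF (fun P Q e => by
      show cyT μ ρ t τ m ((shift (b₀ * τ) w₀, stop τ P), (stop τ Q, shift (a₀ * τ) w₀),
          (w₀ (a₀ * τ) - w₀ (b₀ * τ)) + e) =
        cyT μ ρ t τ m ((shift (b₀ * τ) w₀, P), (Q, shift (a₀ * τ) w₀),
          (w₀ (a₀ * τ) - w₀ (b₀ * τ)) + e)
      rw [← cyT_stop, stop_self, stop_self, cyT_stop])
    refine h1.trans (le_of_eq ?_)
    congr 1
    refine lintegral_congr fun w₁ => ?_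
    exact cyT_int μ ρ t τ m (shift (b₀ * τ) w₀) (shift (a₁ * τ) w₁) (shift (b₁ * τ) w₁)
      (shift (a₀ * τ) w₀) (w₀ (a₀ * τ) - w₀ (b₀ * τ))
  · have hVq : Measurable (fun q : Path d × Path d => Vol ρ τ τ (shift (b₀ * τ) q.1)
        (shift (a₁ * τ) q.2) * qq μ ρ t (m + 1) τ τ (shift (b₁ * τ) q.2) (shift (a₀ * τ) q.1)) :=
      (cyF_measV ρ τ (b₀ * τ) (a₁ * τ)).mul
        (Measurable.comp (g := fun q : Path d × Path d =>
          qq μ ρ t (m + 1) τ τ (shift (b₁ * τ) q.1) (shift (a₀ * τ) q.2)) (f := Prod.swap)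
          (cyF_measq μ ρ t τ m (b₁ * τ) (a₀ * τ)) measurable_swap)
    rw [lintegral_const_mul _ (hVq.lintegral_prod_right' (ν := μ))]
    exact mul_le_mul_right (cyF_final h ρ t τ m _ _ _ _) _

end WSP
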