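import Pool.Agent.Lib_MP_c175fd.CycDefs

/-!
# Definition of the contribution of given blocks to the closed chains
-/

open MeasureTheory ProbabilityTheory Filter Topology
open scoped ENNReal NNReal

namespace WSP

variable {d : ℕ}

/-- Contribution of given blocks to the closed chains. -/
noncomputable def JJ (μ : Measure (Path d)) (ρ : ℝ) (t τ : ℝ≥0) (m a₀ b₀ a₁ b₁ : ℕ) : ℝ≥0∞ :=
  ∫⁻ w₀, ∫⁻ w₁, (∫⁻ y,
    (Kset ρ τ τ (shift (b₀ * τ) w₀) (shift (a₁ * τ) w₁)).indicator (fun _ => 1) y *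
      QQ μ ρ t (m + 1) τ τ (shift (b₁ * τ) w₁) (shift (a₀ * τ) w₀)
        (-y - (w₀ (b₀ * τ) - w₀ (a₀ * τ)) + (w₁ (a₁ * τ) - w₁ (b₁ * τ)))) ∂μ ∂μ

end WSP
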