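import Pool.Agent.Lib_MP_c175fd.NiceDef

/-!
# Piece DATAM: events depending on finitely many measurable conditions; big points of two blocks

`measurableSet_of_finite_data`: the map `x ↦ (fun a => x ∈ E a)` into the finite (discrete) space `κ → Prop`
is measurable (`measurable_pi_iff`, `Measurable` into `Prop` from `measurableSet_setOf`, and
`MeasurableSet.of_discrete`).

The relation `adjI J z r t` is determined by the conditions `hitR (2 r) t t (z i) (z j)`, `i, j ∈ J`, which are
measurable (`measurableSet_hitR`) and only depend on the paths up to time `t` (`Kset_stop`), so `bigU` and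
`Split J (bigU ..) ..` are functions of finitely many measurable conditions (take
`κ = (J × J) ⊕ (J × J)`, times `t₁` and `t`).
-/

open MeasureTheory ProbabilityTheory Filter Topology
open scoped ENNReal NNReal

namespace WSP

variable {d : ℕ}

theorem measurableSet_of_finite_data {α κ : Type*} [MeasurableSpace α] [Finite κ]
    {E : κ → Set α} (hE : ∀ a, MeasurableSet (E a)) (Φ : (κ → Prop) → Prop) :
    MeasurableSet {x | Φ fun a => x ∈ E a} := by
  have hg : Measurable (fun (x : α) (a : κ) => x ∈ E a) :=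
    measurable_pi_iff.2 fun a => measurableSet_setOfPred.1 (hE a)
  have h : {x | Φ fun a => x ∈ E a} = (fun (x : α) (a : κ) => x ∈ E a) ⁻¹' {p | Φ p} := rfl
  rw [h]
  exact hg MeasurableSet.of_discrete

open Classical in
/-- Big points of the block with corner `k`, as a function of the configuration in a larger window. -/
noncomputable def bigF (J : Finset (Idx d)) (y : Idx d → Mark d) (r : ℝ) (t : ℝ≥0) (A R L : ℕ)
    (k : Fin d → ℤ) : Finset (Idx d) :=
  bigs (J.filter fun i => i.1 ∈ win k R L) y r t A (win k R 0)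

open Classical in
/-- Big points of the two blocks. -/
noncomputable def bigU (J : Finset (Idx d)) (y : Idx d → Mark d) (r : ℝ) (t : ℝ≥0) (A R L : ℕ)
    (k k' : Fin d → ℤ) : Finset (Idx d) :=
  bigF J y r t A R L k ∪ bigF J y r t A R L k'

theorem bg_eq_bigF {Ω : Type*} [MeasurableSpace Ω] {P : Measure Ω} {μ : Measure (Path d)}
    (M : PM d P μ) (r : ℝ) (t : ℝ≥0) (A R L : ℕ) {k : Fin d → ℤ} {W : Finset (Fin d → ℤ)}
    (h : win k R L ⊆ W) (ω : Ω) :
    M.bg r t A R L k ω = bigF (M.J W ω) (fun i => M.y i ω) r t A R L k := by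
  have h1 : ∀ J' : Finset (Idx d), (∀ i, i ∈ J' ↔ i ∈ M.J W ω ∧ i.1 ∈ win k R L) →
      M.J (win k R L) ω = J' := by
    intro J' hJ'
    ext i
    rw [hJ', PM.mem_J, PM.mem_J]
    constructor
    · rintro ⟨h1, h2⟩
      exact ⟨⟨h h1, h2⟩, h1⟩
    · rintro ⟨⟨_, h2⟩, h1⟩
      exact ⟨h1, h2⟩
  unfold PM.bg bigF
  rw [h1 _ fun i => Finset.mem_filter]

theorem datam_adjI_congr {ι : Type*} {J : Set ι} {z z' : ι → Mark d} {r : ℝ} {t : ℝ≥0}
    (h : ∀ i ∈ J, ∀ j ∈ J, hitR (2 * r) t t (z i) (z j) ↔ hitR (2 * r) t t (z' i) (z' j)) :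
    adjI J z r t = adjI J z' r t := by
  funext i j
  apply propext
  constructor
  · rintro ⟨h1, h2, h3⟩
    exact ⟨h1, h2, (h i h1 j h2).1 h3⟩
  · rintro ⟨h1, h2, h3⟩
    exact ⟨h1, h2, (h i h1 j h2).2 h3⟩

theorem datam_bigs_congr {J : Finset (Idx d)} {z z' : Idx d → Mark d} {r : ℝ} {t : ℝ≥0}
    (h : adjI (J : Set (Idx d)) z r t = adjI (J : Set (Idx d)) z' r t) (A : ℕ)
    (Wq : Finset (Fin d → ℤ)) : bigs J z r t A Wq = bigs J z' r t A Wq := by
  unfold bigs
  rw [h]

theorem bigF_congr {J : Finset (Idx d)} {z z' : Idx d → Mark d} (h : ∀ i ∈ J, z i = z' i)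
    (r : ℝ) (t : ℝ≥0) (A R L : ℕ) (k : Fin d → ℤ) :
    bigF J z r t A R L k = bigF J z' r t A R L k := by
  unfold bigF
  refine datam_bigs_congr (datam_adjI_congr fun i hi j hj => ?_) A _
  have hi' : i ∈ J := (Finset.mem_filter.1 (Finset.mem_coe.1 hi)).1
  have hj' : j ∈ J := (Finset.mem_filter.1 (Finset.mem_coe.1 hj)).1
  rw [h i hi', h j hj']

theorem datam_hitR_oldM {ι : Type*} (z : ι → Mark d) (r : ℝ) (t : ℝ≥0) (i j : ι) :
    hitR (2 * r) t t (oldM t z i) (oldM t z j) ↔ hitR (2 * r) t t (z i) (z j) := by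
  unfold hitR oldM
  simp only
  rw [Kset_stop]

theorem bigF_oldM (J : Finset (Idx d)) (z : Idx d → Mark d) (r : ℝ) (t : ℝ≥0) (A R L : ℕ)
    (k : Fin d → ℤ) : bigF J (oldM t z) r t A R L k = bigF J z r t A R L k := by
  unfold bigF
  exact datam_bigs_congr (datam_adjI_congr fun i _ j _ => datam_hitR_oldM z r t i j) A _

theorem split_congr {J B : Finset (Idx d)} {z z' : Idx d → Mark d} (h : ∀ i ∈ J, z i = z' i)
    {r : ℝ} {t : ℝ≥0} {m : ℝ} (hs : Split J B z r t m) : Split J B z' r t m := by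
  have h1 : adjI (J : Set (Idx d)) z r t = adjI (J : Set (Idx d)) z' r t :=
    datam_adjI_congr fun i hi j hj => by rw [h i (Finset.mem_coe.1 hi), h j (Finset.mem_coe.1 hj)]
  unfold Split at hs ⊢
  rwa [h1] at hs

theorem datam_bigF_subset (J : Finset (Idx d)) (z : Idx d → Mark d) (r : ℝ) (t : ℝ≥0) (A R L : ℕ)
    (k : Fin d → ℤ) : bigF J z r t A R L k ⊆ J := by
  unfold bigF bigs
  exact (Finset.filter_subset _ _).trans (Finset.filter_subset _ _)

theorem bigU_subset (J : Finset (Idx d)) (z : Idx d → Mark d) (r : ℝ) (t : ℝ≥0) (A R L : ℕ)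
    (k k' : Fin d → ℤ) : bigU J z r t A R L k k' ⊆ J := by
  unfold bigU
  exact Finset.union_subset (datam_bigF_subset J z r t A R L k) (datam_bigF_subset J z r t A R L k')

theorem mem_win_of_mem_bigU {J : Finset (Idx d)} {z : Idx d → Mark d} {r : ℝ} {t : ℝ≥0}
    {A R L : ℕ} {k k' : Fin d → ℤ} {i : Idx d} (h : i ∈ bigU J z r t A R L k k') :
    i.1 ∈ win k R 0 ∪ win k' R 0 := by
  unfold bigU bigF bigs at h
  rcases Finset.mem_union.1 h with h | h
  · exact Finset.mem_union_left _ (Finset.mem_filter.1 h).2.1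
  · exact Finset.mem_union_right _ (Finset.mem_filter.1 h).2.1

open Classical in
theorem datam_card_cluster {J : Finset (Idx d)} {z : Idx d → Mark d} {r : ℝ} {t : ℝ≥0}
    {A R L : ℕ} {k : Fin d → ℤ} {i : Idx d} (h : i ∈ bigF J z r t A R L k) :
    A ≤ (J.filter fun j => Relation.ReflTransGen (adjI (J : Set (Idx d)) z r t) i j).card := by
  unfold bigF bigs at h
  refine (Finset.mem_filter.1 h).2.2.trans (Finset.card_le_card ?_)
  intro j hj
  rw [Finset.mem_filter] at hj ⊢
  refine ⟨(Finset.mem_filter.1 hj.1).1, Relation.ReflTransGen.mono ?_ _ _ hj.2⟩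
  rintro a b ⟨h1, h2, h3⟩
  exact ⟨Finset.mem_coe.2 (Finset.mem_filter.1 (Finset.mem_coe.1 h1)).1,
    Finset.mem_coe.2 (Finset.mem_filter.1 (Finset.mem_coe.1 h2)).1, h3⟩

open Classical in
theorem card_cluster_of_mem_bigU {J : Finset (Idx d)} {z : Idx d → Mark d} {r : ℝ} {t : ℝ≥0}
    {A R L : ℕ} {k k' : Fin d → ℤ} {i : Idx d} (h : i ∈ bigU J z r t A R L k k') :
    A ≤ (J.filter fun j => Relation.ReflTransGen (adjI (J : Set (Idx d)) z r t) i j).card := by
  unfold bigU at h
  rcases Finset.mem_union.1 h with h | h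
  · exact datam_card_cluster h
  · exact datam_card_cluster h

open Classical in
/-- Big points as a function of the relation. -/
noncomputable def datam_G (J : Finset (Idx d)) (A R L : ℕ) (k : Fin d → ℤ)
    (rel : Idx d → Idx d → Prop) : Finset (Idx d) :=
  (J.filter fun i => i.1 ∈ win k R L).filter fun i => i.1 ∈ win k R 0 ∧
    A ≤ ((J.filter fun i => i.1 ∈ win k R L).filter fun j => Relation.ReflTransGen
      (fun a b => a ∈ ((J.filter fun i => i.1 ∈ win k R L : Finset (Idx d)) : Set (Idx d)) ∧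
        b ∈ ((J.filter fun i => i.1 ∈ win k R L : Finset (Idx d)) : Set (Idx d)) ∧
        rel a b) i j).card

theorem datam_bigF_eq (J : Finset (Idx d)) (z : Idx d → Mark d) (r : ℝ) (t : ℝ≥0) (A R L : ℕ)
    (k : Fin d → ℤ) :
    bigF J z r t A R L k = datam_G J A R L k fun i j => hitR (2 * r) t t (z i) (z j) := rfl

theorem datam_G_congr {J : Finset (Idx d)} {rel rel' : Idx d → Idx d → Prop}
    (h : ∀ i ∈ J, ∀ j ∈ J, rel i j ↔ rel' i j) (A R L : ℕ) (k : Fin d → ℤ) :
    datam_G J A R L k rel = datam_G J A R L k rel' := by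
  unfold datam_G
  have h1 : ∀ J' : Finset (Idx d), J' ⊆ J →
      (fun a b => a ∈ (J' : Set (Idx d)) ∧ b ∈ (J' : Set (Idx d)) ∧ rel a b) =
      fun a b => a ∈ (J' : Set (Idx d)) ∧ b ∈ (J' : Set (Idx d)) ∧ rel' a b := by
    intro J' hJ'
    funext a b
    apply propext
    constructor
    · rintro ⟨h1, h2, h3⟩
      exact ⟨h1, h2, (h a (hJ' (Finset.mem_coe.1 h1)) b (hJ' (Finset.mem_coe.1 h2))).1 h3⟩
    · rintro ⟨h1, h2, h3⟩
      exact ⟨h1, h2, (h a (hJ' (Finset.mem_coe.1 h1)) b (hJ' (Finset.mem_coe.1 h2))).2 h3⟩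
  rw [h1 _ (Finset.filter_subset _ _)]

/-- Relation on the indices of `J` read off from finite data. -/
def datam_rel (J : Finset (Idx d)) (p : (J × J) × Bool → Prop) (b : Bool) (i j : Idx d) : Prop :=
  ∃ (hi : i ∈ J) (hj : j ∈ J), p ((⟨i, hi⟩, ⟨j, hj⟩), b)

/-- Every property of the two big sets and of the connections in `J` at time `t` is measurable. -/
theorem measurableSet_block (J : Finset (Idx d)) (r : ℝ) (t₁ t : ℝ≥0) (A R L : ℕ)
    (k k' : Fin d → ℤ)
    (Φ : Finset (Idx d) → Finset (Idx d) → (Idx d → Idx d → Prop) → Prop) :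
    MeasurableSet {z : Idx d → Mark d | Φ (bigF J z r t₁ A R L k) (bigF J z r t₁ A R L k')
      (Relation.ReflTransGen (adjI (J : Set (Idx d)) z r t))} := by
  let E : (J × J) × Bool → Set (Idx d → Mark d) := fun a =>
    {z | hitR (2 * r) (if a.2 then t else t₁) (if a.2 then t else t₁) (z a.1.1) (z a.1.2)}
  have hE : ∀ a, MeasurableSet (E a) := by
    intro a
    have hm : Measurable fun z : Idx d → Mark d => (z a.1.1, z a.1.2) :=
      (measurable_pi_apply _).prodMk (measurable_pi_apply _)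
    exact hm (measurableSet_hitR (2 * r) (if a.2 then t else t₁) (if a.2 then t else t₁))
  have h := measurableSet_of_finite_data hE fun p =>
    Φ (datam_G J A R L k (datam_rel J p false)) (datam_G J A R L k' (datam_rel J p false))
      (Relation.ReflTransGen (datam_rel J p true))
  have hF : ∀ (z : Idx d → Mark d), ∀ i ∈ J, ∀ j ∈ J,
      hitR (2 * r) t₁ t₁ (z i) (z j) ↔ datam_rel J (fun a => z ∈ E a) false i j := by
    intro z i hi j hj
    constructor
    · intro h
      exact ⟨hi, hj, h⟩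
    · rintro ⟨_, _, h⟩
      exact h
  have hT : ∀ (z : Idx d → Mark d),
      adjI (J : Set (Idx d)) z r t = datam_rel J (fun a => z ∈ E a) true := by
    intro z
    funext i j
    apply propext
    constructor
    · rintro ⟨h1, h2, h3⟩
      exact ⟨Finset.mem_coe.1 h1, Finset.mem_coe.1 h2, h3⟩
    · rintro ⟨h1, h2, h3⟩
      exact ⟨Finset.mem_coe.2 h1, Finset.mem_coe.2 h2, h3⟩
  have hset : {z : Idx d → Mark d | Φ (bigF J z r t₁ A R L k) (bigF J z r t₁ A R L k')
      (Relation.ReflTransGen (adjI (J : Set (Idx d)) z r t))} =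
      {z | Φ (datam_G J A R L k (datam_rel J (fun a => z ∈ E a) false))
        (datam_G J A R L k' (datam_rel J (fun a => z ∈ E a) false))
        (Relation.ReflTransGen (datam_rel J (fun a => z ∈ E a) true))} := by
    ext z
    simp only [Set.mem_ofPred_eq]
    rw [datam_bigF_eq, datam_bigF_eq, datam_G_congr (hF z) A R L k,
      datam_G_congr (hF z) A R L k', hT]
  rw [hset]
  exact h

end WSP
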