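import Mathlib

/-!
# Wiener sausage percolation: definitions

Everything of the library `Lib_MP_c175fd` is based on this file. Times are in `ℝ≥0`, the space is
`E d = EuclideanSpace ℝ (Fin d)`, a path is a continuous function `ℝ≥0 → E d` issued from `0`,
and the sigma algebra on paths is generated by the evaluations.
-/

open MeasureTheory ProbabilityTheory Filter Topology
open scoped ENNReal NNReal

namespace WSP

/-- The Euclidean space of dimension `d`. -/
abbrev E (d : ℕ) := EuclideanSpace ℝ (Fin d)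

/-- Continuous paths in `ℝ^d` issued from the origin. -/
def Path (d : ℕ) : Type := {w : ℝ≥0 → E d // Continuous w ∧ w 0 = 0}

instance (d : ℕ) : CoeFun (Path d) (fun _ => ℝ≥0 → E d) := ⟨Subtype.val⟩

instance (d : ℕ) : MeasurableSpace (Path d) :=
  MeasurableSpace.comap (Subtype.val : Path d → ℝ≥0 → E d) MeasurableSpace.pi

theorem Path.cont {d : ℕ} (w : Path d) : Continuous (w : ℝ≥0 → E d) := w.2.1

@[simp] theorem Path.zero {d : ℕ} (w : Path d) : w 0 = 0 := w.2.2

instance (d : ℕ) : Inhabited (Path d) := ⟨⟨fun _ => 0, continuous_const, rfl⟩⟩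

/-- The path stopped at time `a`. -/
def stop {d : ℕ} (a : ℝ≥0) (w : Path d) : Path d :=
  ⟨fun s => w (min s a), w.cont.comp (by fun_prop), by simp⟩

/-- The increments after time `a`. -/
def shift {d : ℕ} (a : ℝ≥0) (w : Path d) : Path d :=
  ⟨fun s => w (a + s) - w a, by
    have := w.cont
    fun_prop, by simp⟩

/-- Brownian scaling: `s ↦ w (c s) / √c`. -/
noncomputable def scale {d : ℕ} (c : ℝ≥0) (w : Path d) : Path d :=
  ⟨fun s => (NNReal.sqrt c : ℝ)⁻¹ • w (c * s), by
    have := w.cont
    fun_prop, by simp⟩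

/-- Time reversal on `[0, a]`: `s ↦ w a - w (a - s)` for `s ≤ a`, constant after time `a`
(truncated subtraction). -/
def rev {d : ℕ} (a : ℝ≥0) (w : Path d) : Path d :=
  ⟨fun s => w a - w (a - s), by
    have := w.cont
    have h : Continuous fun s : ℝ≥0 => a - s := continuous_const.sub continuous_id
    exact continuous_const.sub (this.comp h), by simp⟩

@[simp] theorem stop_apply {d : ℕ} (a : ℝ≥0) (w : Path d) (s : ℝ≥0) :
    stop a w s = w (min s a) := rfl

@[simp] theorem shift_apply {d : ℕ} (a : ℝ≥0) (w : Path d) (s : ℝ≥0) :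
    shift a w s = w (a + s) - w a := rfl

@[simp] theorem scale_apply {d : ℕ} (c : ℝ≥0) (w : Path d) (s : ℝ≥0) :
    scale c w s = (NNReal.sqrt c : ℝ)⁻¹ • w (c * s) := rfl

@[simp] theorem rev_apply {d : ℕ} (a : ℝ≥0) (w : Path d) (s : ℝ≥0) :
    rev a w s = w a - w (a - s) := rfl

@[ext] theorem Path.ext {d : ℕ} {w w' : Path d} (h : ∀ s, w s = w' s) : w = w' :=
  Subtype.ext (funext h)

/-- `μ` is the law of a standard `d`-dimensional Brownian motion issued from `0`: the coordinates
of the path are independent and each of them is a (pre-)Brownian motion in the sense of Mathlib. -/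
structure IsWiener {d : ℕ} (μ : Measure (Path d)) : Prop where
  isProb : IsProbabilityMeasure μ
  brown : ∀ i : Fin d, IsPreBrownianReal (fun (s : ℝ≥0) (w : Path d) => w s i) μ
  indep : iIndepFun (fun (i : Fin d) (w : Path d) (s : ℝ≥0) => w s i) μ

/-- `rg t w` is the supremum of `‖w s‖` over `s ≤ t`, as an extended nonnegative real. -/
noncomputable def rg {d : ℕ} (t : ℝ≥0) (w : Path d) : ℝ≥0∞ := ⨆ (s : ℝ≥0) (_ : s ≤ t), ‖w s‖ₑ

/-- The displacements `z` such that the path `z + w'` up to time `t` comes within distance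
less than `ρ` of the path `w` up to time `s`. -/
def Kset {d : ℕ} (ρ : ℝ) (s t : ℝ≥0) (w w' : Path d) : Set (E d) :=
  {z | ∃ u ≤ s, ∃ v ≤ t, dist (w u) (z + w' v) < ρ}

/-- The volume of `Kset`. -/
noncomputable def Vol {d : ℕ} (ρ : ℝ) (s t : ℝ≥0) (w w' : Path d) : ℝ≥0∞ :=
  volume (Kset ρ s t w w')

/-- The mean of `Vol` for two independent paths. -/
noncomputable def EV {d : ℕ} (μ : Measure (Path d)) (ρ : ℝ) (s t : ℝ≥0) : ℝ≥0∞ :=
  ∫⁻ w, ∫⁻ w', Vol ρ s t w w' ∂μ ∂μ

/-- The second moment of `Vol` for two independent paths. -/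
noncomputable def EV2 {d : ℕ} (μ : Measure (Path d)) (ρ : ℝ) (s t : ℝ≥0) : ℝ≥0∞ :=
  ∫⁻ w, ∫⁻ w', (Vol ρ s t w w') ^ 2 ∂μ ∂μ

/-- The norming function of the problem. -/
noncomputable def ff (d : ℕ) (r : ℝ) : ℝ :=
  if d = 4 then Real.sqrt (Real.log (1 / r)) else r ^ (((4 : ℝ) - d) / 2)

/-- The time `c f(r)`. -/
noncomputable def tt (d : ℕ) (c r : ℝ) : ℝ≥0 := (c * ff d r).toNNReal

/-- The side length of the blocks, a positive integer of order `√(f r)`. -/
noncomputable def RR (d : ℕ) (r : ℝ) : ℕ := ⌈Real.sqrt (ff d r)⌉₊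

/-- The marks: a starting point and a path. -/
abbrev Mark (d : ℕ) := E d × Path d

/-- The intensity measure of the marked Poisson process. -/
noncomputable abbrev nuM {d : ℕ} (μ : Measure (Path d)) : Measure (Mark d) :=
  (volume : Measure (E d)).prod μ

/-- The set of pairs of marks such that the first sausage up to time `s` meets the second one up to
time `t` (contact distance `ρ`). -/
def hitR {d : ℕ} (ρ : ℝ) (s t : ℝ≥0) (y y' : Mark d) : Prop :=
  y'.1 - y.1 ∈ Kset ρ s t y.2 y'.2

/-- The half-open unit cube with integer corner `k`. -/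
def cube {d : ℕ} (k : Fin d → ℤ) : Set (E d) := {x | ∀ i, (k i : ℝ) ≤ x i ∧ x i < k i + 1}

end WSP
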