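import Pool.Agent.Lib_MP_c175fd.EVBasic

/-!
# Piece EVB: the block inequality

Proof of `EV2_block`: `Vol (k τ) (k τ) ≤ ∑_{i, j < k} V i j` with
`V i j = Vol τ τ (shift (i τ) w) (shift (j τ) w')` (`Vol_blocks`); expand the square of the sum. If
`i ≠ i'` and `j ≠ j'` then `V i j` and `V i' j'` are independent (both only depend on the blocks,
`Vol_stop`, and `IsWiener.map_blocks` for `w` and for `w'`) so the mean of the product is
`(EV τ τ) ^ 2`; otherwise it is at most `EV2 τ τ` (`a b ≤ (a ^ 2 + b ^ 2) / 2`, and every `V i j` has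
the law of `Vol τ τ` by `map_shift`). There are at most `2 k ^ 3` quadruples with `i = i'` or `j = j'`.
-/

open MeasureTheory ProbabilityTheory Filter Topology
open scoped ENNReal NNReal

namespace WSP

variable {d : ℕ}

private theorem evb_two_mul_le (a b : ℝ≥0∞) : 2 * (a * b) ≤ a ^ 2 + b ^ 2 := by
  rcases eq_or_ne a ⊤ with ha | ha
  · subst ha; simp
  rcases eq_or_ne b ⊤ with hb | hb
  · subst hb; simp
  lift a to ℝ≥0 using ha
  lift b to ℝ≥0 using hb
  have h := two_mul_le_add_sq a b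
  rw [mul_assoc] at h
  exact_mod_cast h

private theorem evb_sq_sum_le {ι : Type*} (s : Finset ι) (f : ι → ℝ≥0∞) :
    (∑ i ∈ s, f i) ^ 2 ≤ (s.card : ℝ≥0∞) * ∑ i ∈ s, f i ^ 2 := by
  have h1 : 2 * (∑ i ∈ s, f i) ^ 2 ≤ 2 * ((s.card : ℝ≥0∞) * ∑ i ∈ s, f i ^ 2) := by
    calc 2 * (∑ i ∈ s, f i) ^ 2 = ∑ i ∈ s, ∑ j ∈ s, 2 * (f i * f j) := by
          rw [sq, Finset.sum_mul_sum, Finset.mul_sum]
          exact Finset.sum_congr rfl fun i _ => Finset.mul_sum _ _ _
      _ ≤ ∑ i ∈ s, ∑ j ∈ s, (f i ^ 2 + f j ^ 2) :=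
          Finset.sum_le_sum fun i _ => Finset.sum_le_sum fun j _ => evb_two_mul_le _ _
      _ = 2 * ((s.card : ℝ≥0∞) * ∑ i ∈ s, f i ^ 2) := by
          simp only [Finset.sum_add_distrib, Finset.sum_const, nsmul_eq_mul, ← Finset.mul_sum]
          rw [two_mul]
  exact (ENNReal.mul_le_mul_iff_right (by norm_num) (by norm_num)).mp h1

attribute [local irreducible] Vol

private theorem evb_EV {μ : Measure (Path d)} (h : IsWiener μ) (ρ : ℝ) (s t : ℝ≥0) :
    EV μ ρ s t = ∫⁻ p, Vol ρ s t p.1 p.2 ∂(μ.prod μ) := by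
  have := h.isProb
  unfold EV
  exact (lintegral_prod _ (measurable_Vol ρ s t).aemeasurable).symm

private theorem evb_EV2 {μ : Measure (Path d)} (h : IsWiener μ) (ρ : ℝ) (s t : ℝ≥0) :
    EV2 μ ρ s t = ∫⁻ p, (Vol ρ s t p.1 p.2) ^ 2 ∂(μ.prod μ) := by
  have := h.isProb
  unfold EV2
  exact (lintegral_prod _ ((measurable_Vol ρ s t).pow_const 2).aemeasurable).symm

private theorem evb_map {μ : Measure (Path d)} (h : IsWiener μ) (a b : ℝ≥0) :
    (μ.prod μ).map (Prod.map (shift a) (shift b)) = μ.prod μ := by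
  have := h.isProb
  rw [← Measure.map_prod_map μ μ (measurable_shift a) (measurable_shift b), h.map_shift,
    h.map_shift]

private theorem evb_shift_law {μ : Measure (Path d)} (h : IsWiener μ) (a b : ℝ≥0)
    {F : Path d × Path d → ℝ≥0∞} (hF : Measurable F) :
    ∫⁻ p, F (Prod.map (shift a) (shift b) p) ∂(μ.prod μ) = ∫⁻ p, F p ∂(μ.prod μ) := by
  conv_rhs => rw [← evb_map h a b]
  exact (lintegral_map hF ((measurable_shift a).prodMap (measurable_shift b))).symm

/-- the volume for the shifted paths -/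
private noncomputable def VV (ρ : ℝ) (τ σ a b : ℝ≥0) (p : Path d × Path d) : ℝ≥0∞ :=
  Vol ρ τ σ (shift a p.1) (shift b p.2)

private theorem measurable_VV (ρ : ℝ) (τ σ a b : ℝ≥0) :
    Measurable (VV (d := d) ρ τ σ a b) :=
  Measurable.comp (g := fun p : Path d × Path d => Vol ρ τ σ p.1 p.2)
    (f := Prod.map (shift a) (shift b)) (measurable_Vol ρ τ σ)
    ((measurable_shift a).prodMap (measurable_shift b))

private theorem evb_law1 {μ : Measure (Path d)} (h : IsWiener μ) (ρ : ℝ) (τ σ a b : ℝ≥0) :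
    ∫⁻ p, VV ρ τ σ a b p ∂(μ.prod μ) = EV μ ρ τ σ := by
  rw [evb_EV h, ← evb_shift_law h a b (measurable_Vol ρ τ σ)]
  rfl

private theorem evb_law2 {μ : Measure (Path d)} (h : IsWiener μ) (ρ : ℝ) (τ σ a b : ℝ≥0) :
    ∫⁻ p, (VV ρ τ σ a b p) ^ 2 ∂(μ.prod μ) = EV2 μ ρ τ σ := by
  rw [evb_EV2 h, ← evb_shift_law h a b ((measurable_Vol ρ τ σ).pow_const 2)]
  rfl

theorem EV_block {μ : Measure (Path d)} (h : IsWiener μ) (ρ : ℝ) {k l : ℕ} (hk : 0 < k)
    (hl : 0 < l) (τ σ : ℝ≥0) : EV μ ρ (k * τ) (l * σ) ≤ (k : ℝ≥0∞) * l * EV μ ρ τ σ := by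
  have := h.isProb
  rw [evb_EV h]
  calc ∫⁻ p, Vol ρ (k * τ) (l * σ) p.1 p.2 ∂(μ.prod μ)
      ≤ ∫⁻ p, ∑ i ∈ Finset.range k, ∑ j ∈ Finset.range l, VV ρ τ σ (i * τ) (j * σ) p ∂(μ.prod μ) :=
        lintegral_mono fun p => Vol_blocks ρ k l τ σ hk hl p.1 p.2
    _ = ∑ i ∈ Finset.range k, ∑ j ∈ Finset.range l, ∫⁻ p, VV ρ τ σ (i * τ) (j * σ) p ∂(μ.prod μ) := by
        rw [lintegral_finsetSum _ fun i _ => Finset.measurable_sum _ fun j _ =>
          measurable_VV ρ τ σ _ _]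
        refine Finset.sum_congr rfl fun i _ => ?_
        rw [lintegral_finsetSum _ fun j _ => measurable_VV ρ τ σ _ _]
    _ = ∑ i ∈ Finset.range k, ∑ j ∈ Finset.range l, EV μ ρ τ σ :=
        Finset.sum_congr rfl fun i _ => Finset.sum_congr rfl fun j _ => evb_law1 h ρ τ σ _ _
    _ = (k : ℝ≥0∞) * l * EV μ ρ τ σ := by
        simp only [Finset.sum_const, Finset.card_range, nsmul_eq_mul]
        ring

/-- independence of disjoint blocks -/
private theorem evb_indep {μ : Measure (Path d)} (h : IsWiener μ) (ρ : ℝ) (τ : ℝ≥0)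
    {i i' j j' : ℕ} (hi : i ≠ i') (hj : j ≠ j') :
    ∫⁻ p, VV ρ τ τ (i * τ) (j * τ) p * VV ρ τ τ (i' * τ) (j' * τ) p ∂(μ.prod μ) =
      (EV μ ρ τ τ) ^ 2 := by
  have hprob := h.isProb
  set lam : Measure (Path d) := μ.map (stop τ) with hlam
  have hlprob : IsProbabilityMeasure lam :=
    Measure.isProbabilityMeasure_map (measurable_stop τ).aemeasurable
  have hG : Measurable (fun p : Path d × Path d => Vol ρ τ τ p.1 p.2) := measurable_Vol ρ τ τ
  set g : Path d → ℝ≥0∞ := fun x => ∫⁻ y, Vol ρ τ τ x y ∂lam with hgdef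
  have hg : Measurable g := hG.lintegral_prod_right'
  have hblk : ∀ m m' : ℕ, Measurable (fun w : Path d =>
      (stop τ (shift (m * τ) w), stop τ (shift (m' * τ) w))) := fun m m' =>
    ((measurable_stop τ).comp (measurable_shift _)).prodMk
      ((measurable_stop τ).comp (measurable_shift _))
  set H : (Path d × Path d) × (Path d × Path d) → ℝ≥0∞ := fun q =>
    Vol ρ τ τ q.1.1 q.2.1 * Vol ρ τ τ q.1.2 q.2.2 with hHdef
  have hH1 : Measurable (fun q : (Path d × Path d) × (Path d × Path d) =>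
      Vol ρ τ τ q.1.1 q.2.1) :=
    Measurable.comp (g := fun p : Path d × Path d => Vol ρ τ τ p.1 p.2)
      (f := fun q : (Path d × Path d) × (Path d × Path d) => (q.1.1, q.2.1)) hG
      (measurable_fst.fst.prodMk measurable_snd.fst)
  have hH2 : Measurable (fun q : (Path d × Path d) × (Path d × Path d) =>
      Vol ρ τ τ q.1.2 q.2.2) :=
    Measurable.comp (g := fun p : Path d × Path d => Vol ρ τ τ p.1 p.2)
      (f := fun q : (Path d × Path d) × (Path d × Path d) => (q.1.2, q.2.2)) hG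
      (measurable_fst.snd.prodMk measurable_snd.snd)
  have hH : Measurable H := hH1.mul hH2
  have e1 : ∫⁻ p, VV ρ τ τ (i * τ) (j * τ) p * VV ρ τ τ (i' * τ) (j' * τ) p ∂(μ.prod μ) =
      ∫⁻ q, H q ∂((μ.prod μ).map (Prod.map
        (fun w : Path d => (stop τ (shift (i * τ) w), stop τ (shift (i' * τ) w)))
        (fun w : Path d => (stop τ (shift (j * τ) w), stop τ (shift (j' * τ) w))))) := by
    rw [lintegral_map hH ((hblk i i').prodMap (hblk j j'))]
    refine lintegral_congr fun p => ?_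
    simp only [hHdef, VV, Prod.map_fst, Prod.map_snd]
    rw [Vol_stop, Vol_stop]
  rw [e1, ← Measure.map_prod_map μ μ (hblk i i') (hblk j j'), h.map_blocks τ hi,
    h.map_blocks τ hj, lintegral_prod _ hH.aemeasurable]
  have e2 : ∀ x : Path d × Path d, ∫⁻ y, H (x, y) ∂((μ.map (stop τ)).prod (μ.map (stop τ))) =
      g x.1 * g x.2 := by
    intro x
    have hx : ∀ x0 : Path d, Measurable (fun y : Path d => Vol ρ τ τ x0 y) := fun x0 =>
      Measurable.comp (g := fun p : Path d × Path d => Vol ρ τ τ p.1 p.2) (f := fun y => (x0, y))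
        hG measurable_prodMk_left
    exact lintegral_prod_mul (hx x.1).aemeasurable (hx x.2).aemeasurable
  simp_rw [e2]
  rw [lintegral_prod_mul hg.aemeasurable hg.aemeasurable]
  have e3 : ∫⁻ x, g x ∂lam = EV μ ρ τ τ := by
    unfold EV
    rw [hlam, lintegral_map hg (measurable_stop τ)]
    refine lintegral_congr fun w => ?_
    have hx : Measurable (fun y : Path d => Vol ρ τ τ (stop τ w) y) :=
      Measurable.comp (g := fun p : Path d × Path d => Vol ρ τ τ p.1 p.2)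
        (f := fun y => (stop τ w, y)) hG measurable_prodMk_left
    simp only [hgdef]
    rw [hlam, lintegral_map hx (measurable_stop τ)]
    exact lintegral_congr fun w' => Vol_stop ρ τ τ w w'
  rw [e3, sq]

private theorem evb_cross {μ : Measure (Path d)} (h : IsWiener μ) (ρ : ℝ) (τ σ : ℝ≥0)
    (a b a' b' : ℝ≥0) :
    ∫⁻ p, VV ρ τ σ a b p * VV ρ τ σ a' b' p ∂(μ.prod μ) ≤ EV2 μ ρ τ σ := by
  have h1 : 2 * ∫⁻ p, VV ρ τ σ a b p * VV ρ τ σ a' b' p ∂(μ.prod μ) ≤ 2 * EV2 μ ρ τ σ := by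
    calc 2 * ∫⁻ p, VV ρ τ σ a b p * VV ρ τ σ a' b' p ∂(μ.prod μ)
        = ∫⁻ p, 2 * (VV ρ τ σ a b p * VV ρ τ σ a' b' p) ∂(μ.prod μ) :=
          (lintegral_const_mul _ ((measurable_VV ρ τ σ a b).mul (measurable_VV ρ τ σ a' b'))).symm
      _ ≤ ∫⁻ p, (VV ρ τ σ a b p ^ 2 + VV ρ τ σ a' b' p ^ 2) ∂(μ.prod μ) :=
          lintegral_mono fun p => evb_two_mul_le _ _
      _ = 2 * EV2 μ ρ τ σ := by
          rw [lintegral_add_left ((measurable_VV ρ τ σ a b).pow_const 2), evb_law2 h, evb_law2 h,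
            two_mul]
  exact (ENNReal.mul_le_mul_iff_right (by norm_num) (by norm_num)).mp h1

theorem EV2_block {μ : Measure (Path d)} (h : IsWiener μ) (ρ : ℝ) {k : ℕ} (hk : 0 < k)
    (τ : ℝ≥0) : EV2 μ ρ (k * τ) (k * τ) ≤
      ((k : ℝ≥0∞) ^ 2 * EV μ ρ τ τ) ^ 2 + 2 * (k : ℝ≥0∞) ^ 3 * EV2 μ ρ τ τ := by
  have := h.isProb
  have hm : ∀ i j i' j' : ℕ, Measurable (fun p : Path d × Path d =>
      VV ρ τ τ (i * τ) (j * τ) p * VV ρ τ τ (i' * τ) (j' * τ) p) := fun i j i' j' =>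
    (measurable_VV ρ τ τ _ _).mul (measurable_VV ρ τ τ _ _)
  have hbd : ∀ i j i' j' : ℕ,
      ∫⁻ p, VV ρ τ τ (i * τ) (j * τ) p * VV ρ τ τ (i' * τ) (j' * τ) p ∂(μ.prod μ) ≤
      (EV μ ρ τ τ) ^ 2 + ((if i = i' then EV2 μ ρ τ τ else 0) +
        (if j = j' then EV2 μ ρ τ τ else 0)) := by
    intro i j i' j'
    by_cases hi : i = i'
    · refine (evb_cross h ρ τ τ _ _ _ _).trans ?_
      rw [if_pos hi]
      exact le_add_left (le_add_right le_rfl)
    · by_cases hj : j = j'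
      · refine (evb_cross h ρ τ τ _ _ _ _).trans ?_
        rw [if_pos hj]
        exact le_add_left (le_add_left le_rfl)
      · exact (evb_indep h ρ τ hi hj).le.trans (le_add_right le_rfl)
  have hexp : ∀ p : Path d × Path d,
      (∑ i ∈ Finset.range k, ∑ j ∈ Finset.range k, VV ρ τ τ (i * τ) (j * τ) p) ^ 2 =
      ∑ i ∈ Finset.range k, ∑ j ∈ Finset.range k, ∑ i' ∈ Finset.range k,
        ∑ j' ∈ Finset.range k, VV ρ τ τ (i * τ) (j * τ) p * VV ρ τ τ (i' * τ) (j' * τ) p := by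
    intro p
    rw [sq, Finset.sum_mul]
    refine Finset.sum_congr rfl fun i _ => ?_
    rw [Finset.sum_mul]
    refine Finset.sum_congr rfl fun j _ => ?_
    rw [Finset.mul_sum]
    refine Finset.sum_congr rfl fun i' _ => ?_
    rw [Finset.mul_sum]
  calc EV2 μ ρ (k * τ) (k * τ)
      ≤ ∫⁻ p, (∑ i ∈ Finset.range k, ∑ j ∈ Finset.range k,
          VV ρ τ τ (i * τ) (j * τ) p) ^ 2 ∂(μ.prod μ) := by
        rw [evb_EV2 h]
        refine lintegral_mono fun p => ?_
        exact pow_le_pow_left' (Vol_blocks ρ k k τ τ hk hk p.1 p.2) 2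
    _ = ∑ i ∈ Finset.range k, ∑ j ∈ Finset.range k, ∑ i' ∈ Finset.range k,
        ∑ j' ∈ Finset.range k,
          ∫⁻ p, VV ρ τ τ (i * τ) (j * τ) p * VV ρ τ τ (i' * τ) (j' * τ) p ∂(μ.prod μ) := by
        rw [lintegral_congr hexp]
        rw [lintegral_finsetSum _ fun i _ => Finset.measurable_sum _ fun j _ =>
          Finset.measurable_sum _ fun i' _ => Finset.measurable_sum _ fun j' _ => hm i j i' j']
        refine Finset.sum_congr rfl fun i _ => ?_
        rw [lintegral_finsetSum _ fun j _ =>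
          Finset.measurable_sum _ fun i' _ => Finset.measurable_sum _ fun j' _ => hm i j i' j']
        refine Finset.sum_congr rfl fun j _ => ?_
        rw [lintegral_finsetSum _ fun i' _ => Finset.measurable_sum _ fun j' _ => hm i j i' j']
        refine Finset.sum_congr rfl fun i' _ => ?_
        rw [lintegral_finsetSum _ fun j' _ => hm i j i' j']
    _ ≤ ∑ i ∈ Finset.range k, ∑ j ∈ Finset.range k, ∑ i' ∈ Finset.range k,
        ∑ j' ∈ Finset.range k, ((EV μ ρ τ τ) ^ 2 + ((if i = i' then EV2 μ ρ τ τ else 0) +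
        (if j = j' then EV2 μ ρ τ τ else 0))) :=
        Finset.sum_le_sum fun i _ => Finset.sum_le_sum fun j _ => Finset.sum_le_sum fun i' _ =>
          Finset.sum_le_sum fun j' _ => hbd i j i' j'
    _ = ((k : ℝ≥0∞) ^ 2 * EV μ ρ τ τ) ^ 2 + 2 * (k : ℝ≥0∞) ^ 3 * EV2 μ ρ τ τ := by
        have h1 : ∀ i j : ℕ, i ∈ Finset.range k → j ∈ Finset.range k →
            ∑ i' ∈ Finset.range k, ∑ j' ∈ Finset.range k, ((EV μ ρ τ τ) ^ 2 +
              ((if i = i' then EV2 μ ρ τ τ else 0) + (if j = j' then EV2 μ ρ τ τ else 0))) =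
            (k : ℝ≥0∞) ^ 2 * (EV μ ρ τ τ) ^ 2 + 2 * (k : ℝ≥0∞) * EV2 μ ρ τ τ := by
          intro i j hi hj
          simp only [Finset.sum_add_distrib, Finset.sum_const, Finset.card_range, nsmul_eq_mul,
            Finset.sum_ite_eq, if_pos hi, if_pos hj, ← Finset.mul_sum]
          ring
        rw [Finset.sum_congr rfl fun i hi => Finset.sum_congr rfl fun j hj => h1 i j hi hj]
        simp only [Finset.sum_const, Finset.card_range, nsmul_eq_mul]
        ring

/-- Crude version by the Cauchy-Schwarz inequality. -/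
theorem EV2_block_crude {μ : Measure (Path d)} (h : IsWiener μ) (ρ : ℝ) {k l : ℕ} (hk : 0 < k)
    (hl : 0 < l) (τ σ : ℝ≥0) :
    EV2 μ ρ (k * τ) (l * σ) ≤ ((k : ℝ≥0∞) * l) ^ 2 * EV2 μ ρ τ σ := by
  have := h.isProb
  set S : Finset (ℕ × ℕ) := Finset.range k ×ˢ Finset.range l with hS
  have hm : ∀ q : ℕ × ℕ, Measurable (fun p : Path d × Path d =>
      VV ρ τ σ (q.1 * τ) (q.2 * σ) p ^ 2) := fun q => (measurable_VV ρ τ σ _ _).pow_const 2
  have hcard : (S.card : ℝ≥0∞) = (k : ℝ≥0∞) * l := by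
    rw [hS, Finset.card_product, Finset.card_range, Finset.card_range]; push_cast; rfl
  calc EV2 μ ρ (k * τ) (l * σ)
      ≤ ∫⁻ p, ((k : ℝ≥0∞) * l) * ∑ q ∈ S, VV ρ τ σ (q.1 * τ) (q.2 * σ) p ^ 2 ∂(μ.prod μ) := by
        rw [evb_EV2 h]
        refine lintegral_mono fun p => ?_
        have h1 : Vol ρ (k * τ) (l * σ) p.1 p.2 ≤ ∑ i ∈ Finset.range k, ∑ j ∈ Finset.range l,
            VV ρ τ σ (i * τ) (j * σ) p := Vol_blocks ρ k l τ σ hk hl p.1 p.2
        have h2 : ∑ i ∈ Finset.range k, ∑ j ∈ Finset.range l,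
            VV ρ τ σ (i * τ) (j * σ) p = ∑ q ∈ S, VV ρ τ σ (q.1 * τ) (q.2 * σ) p := by
          rw [hS, Finset.sum_product]
        rw [h2] at h1
        refine (pow_le_pow_left' h1 2).trans ?_
        rw [← hcard]
        exact evb_sq_sum_le S _
    _ = ((k : ℝ≥0∞) * l) * ∑ q ∈ S, ∫⁻ p, VV ρ τ σ (q.1 * τ) (q.2 * σ) p ^ 2 ∂(μ.prod μ) := by
        rw [lintegral_const_mul _ (Finset.measurable_sum _ fun q _ => hm q),
          lintegral_finsetSum _ fun q _ => hm q]
    _ = ((k : ℝ≥0∞) * l) * ∑ q ∈ S, EV2 μ ρ τ σ := by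
        congr 1
        exact Finset.sum_congr rfl fun q _ => evb_law2 h ρ τ σ _ _
    _ = ((k : ℝ≥0∞) * l) ^ 2 * EV2 μ ρ τ σ := by
        rw [Finset.sum_const, nsmul_eq_mul, hcard, sq]
        ring

end WSP
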