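import Pool.Agent.Lib_MP_c175fd.LTSq

/-!
# Piece LIMFIVE: `EV 1 T T / T ^ 2` converges to a positive limit for `d ≥ 5`

Lower bound: by the Cauchy-Schwarz inequality on `Path × Path × E d` and `LT_eq_zero`,
`(T ^ 2 |B_1|) ^ 2 = (∫ LT) ^ 2 ≤ EV 1 T T * ∫ LT ^ 2 ≤ EV 1 T T * C T ^ 2`, so `EV 1 T T ≥ c T ^ 2`.
Limit: `v T = EV 1 T T` is nondecreasing, finite and `v (k T₀) ≤ k ^ 2 v T₀` (`EV_block`). For
`T ≥ T₀ > 0` take `k = ⌈T / T₀⌉`: `v T ≤ (T / T₀ + 1) ^ 2 v T₀`. Hence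
`limsup v T / T ^ 2 ≤ v T₀ / T₀ ^ 2` for every `T₀ > 0`, so the limit exists and is
`inf v T₀ / T₀ ^ 2 ≥ c > 0`.
-/

open MeasureTheory ProbabilityTheory Filter Topology
open scoped ENNReal NNReal

namespace WSP

variable {d : ℕ}

theorem LIM_cs {α : Type*} [MeasurableSpace α] {ν : Measure α} {f g : α → ℝ≥0∞}
    (hf : AEMeasurable f ν) (hg : AEMeasurable g ν) :
    (∫⁻ a, f a * g a ∂ν) ^ 2 ≤ (∫⁻ a, f a ^ 2 ∂ν) * (∫⁻ a, g a ^ 2 ∂ν) := by
  have h1 := ENNReal.lintegral_mul_le_Lp_mul_Lq ν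
    (Real.holderConjugate_iff.2 ⟨by norm_num, by norm_num⟩ : Real.HolderConjugate 2 2) hf hg
  simp only [Pi.mul_apply, ENNReal.rpow_two] at h1
  refine (pow_le_pow_left₀ zero_le h1 2).trans (le_of_eq ?_)
  rw [mul_pow, ← ENNReal.rpow_natCast, ← ENNReal.rpow_natCast, ← ENNReal.rpow_mul,
    ← ENNReal.rpow_mul]
  norm_num

theorem LIM_ineq {μ : Measure (Path d)} (h : IsWiener μ) (T : ℝ≥0) :
    ((T : ℝ≥0∞) * T * volume (Metric.ball (0 : E d) 1)) ^ 2 ≤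
      (∫⁻ w, ∫⁻ w', (∫⁻ z, (LT T T w w' z) ^ 2) ∂μ ∂μ) * EV μ 1 T T := by
  have := h.isProb
  have hm : Measurable (fun p : Path d × Path d × E d => LT T T p.1 p.2.1 p.2.2) :=
    measurable_LT T T
  set S : Set (Path d × Path d × E d) := {p | LT T T p.1 p.2.1 p.2.2 ≠ 0} with hS
  have hSm : MeasurableSet S := (hm (measurableSet_singleton 0)).compl
  have hprod : ∀ F : Path d × Path d × E d → ℝ≥0∞, Measurable F →
      ∫⁻ p, F p ∂(μ.prod (μ.prod volume)) = ∫⁻ w, ∫⁻ w', (∫⁻ z, F (w, w', z)) ∂μ ∂μ := by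
    intro F hF
    rw [lintegral_prod _ hF.aemeasurable]
    apply lintegral_congr
    intro w
    exact lintegral_prod (fun y => F (w, y)) (hF.comp measurable_prodMk_left).aemeasurable
  have h1 := LIM_cs (ν := μ.prod (μ.prod (volume : Measure (E d)))) hm.aemeasurable
    ((measurable_const.indicator hSm).aemeasurable (f := S.indicator (fun _ => (1 : ℝ≥0∞))))
  have e1 : (fun p : Path d × Path d × E d => LT T T p.1 p.2.1 p.2.2 *
      S.indicator (fun _ => (1 : ℝ≥0∞)) p) = fun p => LT T T p.1 p.2.1 p.2.2 := by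
    funext p
    by_cases hp : p ∈ S
    · rw [Set.indicator_of_mem hp, mul_one]
    · rw [Set.indicator_of_notMem hp, mul_zero]
      simp only [hS, Set.mem_ofPred_eq, not_not] at hp
      exact hp.symm
  have e2 : (fun p : Path d × Path d × E d => S.indicator (fun _ => (1 : ℝ≥0∞)) p ^ 2) =
      S.indicator (fun _ => (1 : ℝ≥0∞)) := by
    funext p
    by_cases hp : p ∈ S
    · rw [Set.indicator_of_mem hp, one_pow]
    · rw [Set.indicator_of_notMem hp, zero_pow two_ne_zero]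
  rw [e1, e2, hprod _ hm, hprod _ (hm.pow_const 2), hprod _ (measurable_const.indicator hSm)] at h1
  simp only [lintegral_LT, lintegral_const, measure_univ, mul_one] at h1
  refine h1.trans (mul_le_mul_right ?_ _)
  unfold EV
  apply lintegral_mono
  intro w
  apply lintegral_mono
  intro w'
  have e3 : (fun z : E d => S.indicator (fun _ => (1 : ℝ≥0∞)) (w, w', z)) =
      {z : E d | LT T T w w' z ≠ 0}.indicator (fun _ => (1 : ℝ≥0∞)) := rfl
  simp only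
  rw [e3]
  refine (lintegral_indicator_const_le _ _).trans ?_
  rw [one_mul]
  unfold Vol
  apply measure_mono
  intro z hz
  by_contra hzk
  exact hz (LT_eq_zero hzk)

theorem IsWiener.EV_ge_five {μ : Measure (Path d)} (h : IsWiener μ) (hd : 5 ≤ d) :
    ∃ c : ℝ≥0, 0 < c ∧ ∀ T : ℝ≥0, (c : ℝ≥0∞) * (T : ℝ≥0∞) ^ 2 ≤ EV μ 1 T T := by
  obtain ⟨C, hC⟩ := h.LT_sq_five hd
  obtain ⟨B, hB⟩ : ∃ B : ℝ≥0, (B : ℝ≥0∞) = volume (Metric.ball (0 : E d) 1) :=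
    ⟨(volume (Metric.ball (0 : E d) 1)).toNNReal,
      ENNReal.coe_toNNReal (measure_ball_lt_top).ne⟩
  have hB0 : 0 < B := by
    have := Metric.measure_ball_pos volume (0 : E d) one_pos
    rw [← hB] at this
    exact_mod_cast this
  refine ⟨B ^ 2 / (C + 1), by positivity, fun T => ?_⟩
  rcases eq_or_ne T 0 with rfl | hT
  · simp
  have h1 := LIM_ineq h T
  have h2 := h1.trans (mul_le_mul_left (hC T) _)
  rw [← hB] at h2
  obtain ⟨e, he⟩ : ∃ e : ℝ≥0, (e : ℝ≥0∞) = EV μ 1 T T :=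
    ⟨(EV μ 1 T T).toNNReal, ENNReal.coe_toNNReal (EV_lt_top h 1 T T).ne⟩
  rw [← he] at h2 ⊢
  have h3 : (T * T * B) ^ 2 ≤ C * T ^ 2 * e := by exact_mod_cast h2
  have h4 : B ^ 2 / (C + 1) * T ^ 2 ≤ e := by
    have hT0 : 0 < T := pos_iff_ne_zero.2 hT
    rw [div_mul_eq_mul_div, div_le_iff₀ (by positivity)]
    have h5 : B ^ 2 * T ^ 2 * T ^ 2 ≤ e * (C + 1) * T ^ 2 := by
      calc B ^ 2 * T ^ 2 * T ^ 2 = (T * T * B) ^ 2 := by ring
        _ ≤ C * T ^ 2 * e := h3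
        _ ≤ (C + 1) * T ^ 2 * e := by gcongr; exact le_self_add
        _ = e * (C + 1) * T ^ 2 := by ring
    exact le_of_mul_le_mul_right h5 (by positivity)
  exact_mod_cast h4

theorem IsWiener.EV_limit_five {μ : Measure (Path d)} (h : IsWiener μ) (hd : 5 ≤ d) :
    ∃ κ : ℝ, 0 < κ ∧
      Tendsto (fun T : ℝ≥0 => (EV μ 1 T T).toReal / (T : ℝ) ^ 2) atTop (𝓝 κ) := by
  obtain ⟨c, hc, hcT⟩ := h.EV_ge_five hd
  have hfin : ∀ T : ℝ≥0, EV μ 1 T T ≠ ∞ := fun T => (EV_lt_top h 1 T T).ne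
  set v : ℝ≥0 → ℝ := fun T => (EV μ 1 T T).toReal with hv
  have hv0 : ∀ T, 0 ≤ v T := fun T => ENNReal.toReal_nonneg
  have hlow : ∀ T : ℝ≥0, (c : ℝ) * (T : ℝ) ^ 2 ≤ v T := by
    intro T
    have := ENNReal.toReal_mono (hfin T) (hcT T)
    simpa using this
  have hblk : ∀ (T₀ T : ℝ≥0), 0 < T₀ → 0 < T → v T ≤ ((T : ℝ) / T₀ + 1) ^ 2 * v T₀ := by
    intro T₀ T h0 hT
    set k := ⌈T / T₀⌉₊ with hk
    have hkpos : 0 < k := Nat.ceil_pos.2 (by positivity)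
    have hle : T ≤ k * T₀ := by
      have := Nat.le_ceil (T / T₀)
      rw [← hk, div_le_iff₀ h0] at this
      exact this
    have hlt : (k : ℝ) < (T : ℝ) / T₀ + 1 := by
      have := Nat.ceil_lt_add_one (a := T / T₀) zero_le
      rw [← hk] at this
      exact_mod_cast this
    have e1 : EV μ 1 T T ≤ (k : ℝ≥0∞) * k * EV μ 1 T₀ T₀ :=
      (EV_mono le_rfl hle hle).trans (EV_block h 1 hkpos hkpos T₀ T₀)
    have e2 : v T ≤ (k : ℝ) * k * v T₀ := by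
      have := ENNReal.toReal_mono (ENNReal.mul_ne_top (by finiteness) (hfin T₀)) e1
      simpa using this
    refine e2.trans ?_
    have e3 : (k : ℝ) * k ≤ ((T : ℝ) / T₀ + 1) ^ 2 := by
      rw [← sq]
      exact pow_le_pow_left₀ (Nat.cast_nonneg k) hlt.le 2
    exact mul_le_mul_of_nonneg_right e3 (hv0 T₀)
  set S : Set ℝ := (fun T : ℝ≥0 => v T / (T : ℝ) ^ 2) '' Set.Ioi 0 with hS
  have hSne : S.Nonempty := ⟨_, 1, by simp, rfl⟩
  have hSlow : ∀ x ∈ S, (c : ℝ) ≤ x := by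
    rintro _ ⟨T, hT, rfl⟩
    have hT0 : (0 : ℝ) < T := by exact_mod_cast hT
    simp only
    rw [le_div_iff₀ (by positivity)]
    exact hlow T
  have hbdd : BddBelow S := ⟨c, hSlow⟩
  refine ⟨sInf S, lt_of_lt_of_le (by exact_mod_cast hc) (le_csInf hSne hSlow), ?_⟩
  rw [tendsto_order]
  constructor
  · intro a ha
    filter_upwards [eventually_gt_atTop (0 : ℝ≥0)] with T hT
    exact lt_of_lt_of_le ha (csInf_le hbdd ⟨T, hT, rfl⟩)
  · intro b hb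
    obtain ⟨_, ⟨T₀, hT₀, rfl⟩, hlt⟩ := exists_lt_of_csInf_lt hSne hb
    have hT₀' : (0 : ℝ) < T₀ := by exact_mod_cast hT₀
    have hinv : Tendsto (fun T : ℝ≥0 => ((T : ℝ))⁻¹) atTop (𝓝 0) :=
      tendsto_inv_atTop_zero.comp (NNReal.tendsto_coe_atTop.2 tendsto_id)
    have hlim : Tendsto (fun T : ℝ≥0 => ((T₀ : ℝ)⁻¹ + ((T : ℝ))⁻¹) ^ 2 * v T₀) atTop
        (𝓝 (((T₀ : ℝ)⁻¹ + 0) ^ 2 * v T₀)) := ((hinv.const_add _).pow 2).mul_const _
    have hlt' : ((T₀ : ℝ)⁻¹ + 0) ^ 2 * v T₀ < b := by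
      refine lt_of_le_of_lt (le_of_eq ?_) hlt
      simp only
      field_simp
      ring
    filter_upwards [eventually_gt_atTop (0 : ℝ≥0), hlim.eventually (gt_mem_nhds hlt')] with T hT e1
    refine lt_of_le_of_lt ?_ e1
    have hT0 : (0 : ℝ) < T := by exact_mod_cast hT
    rw [div_le_iff₀ (by positivity)]
    refine (hblk T₀ T hT₀ hT).trans (le_of_eq ?_)
    field_simp

/-- Crude bound of the second moment: `EV2 1 T T ≤ C T ^ 4` for `T ≥ 1` (blocks of length one). -/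
theorem IsWiener.EV2_le_five {μ : Measure (Path d)} (h : IsWiener μ) :
    ∃ C : ℝ≥0, ∀ T : ℝ≥0, 1 ≤ T → EV2 μ 1 T T ≤ (C : ℝ≥0∞) * (T : ℝ≥0∞) ^ 4 := by
  obtain ⟨e, he⟩ : ∃ e : ℝ≥0, (e : ℝ≥0∞) = EV2 μ 1 1 1 :=
    ⟨(EV2 μ 1 1 1).toNNReal, ENNReal.coe_toNNReal (EV2_lt_top h 1 1 1).ne⟩
  refine ⟨16 * e, fun T hT => ?_⟩
  set k := ⌈T⌉₊ with hk
  have hkpos : 0 < k := Nat.ceil_pos.2 (by positivity)
  have hle : T ≤ k * 1 := by
    rw [mul_one]
    exact Nat.le_ceil T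
  have hk2 : (k : ℝ≥0) ≤ 2 * T := by
    have := (Nat.ceil_lt_add_one (a := T) zero_le).le
    rw [← hk] at this
    refine this.trans ?_
    rw [two_mul]
    gcongr
  have e1 : EV2 μ 1 T T ≤ ((k : ℝ≥0∞) * k) ^ 2 * EV2 μ 1 1 1 :=
    (EV2_mono le_rfl hle hle).trans (EV2_block_crude h 1 hkpos hkpos 1 1)
  refine e1.trans ?_
  rw [← he]
  have e2 : ((k : ℝ≥0) * k) ^ 2 * e ≤ 16 * e * T ^ 4 := by
    calc ((k : ℝ≥0) * k) ^ 2 * e ≤ ((2 * T) * (2 * T)) ^ 2 * e := by gcongr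
      _ = 16 * e * T ^ 4 := by ring
  exact_mod_cast e2

end WSP
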