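import Pool.Agent.Lib_MP_c175fd.LocalTime

/-!
# Pieces LTA, LTB: the intersection local time `LT`

`LT s t w w' z` is the Lebesgue measure of the pairs of times `(u, v) ∈ (0, s] × (0, t]` such that
`dist (w u) (z + w' v) < 1` (real times, `Real.toNNReal` to evaluate the paths).

LTA: measurability, `∫ z, LT = s t |B_1|` (Tonelli), support in `Kset`, and the kernel estimate.
LTB: second moments.

Kernel estimate `pair_le`: for `u < u'` the increment `w u' - w u = shift u w (u' - u)` has a density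
bounded by `(2 π (u' - u)) ^ (-d/2)` (`IsWiener.prob_eval_le`, `map_shift`), so for every fixed `x` the
probability that it lies in `ball x 2` is at most `C (u' - u) ^ (-d/2)`; same with `v, v'`.

Second moments: `∫ z, LT ^ 2 = ∫ (u,v,u',v'), volume (ball (w u - w' v) 1 ∩ ball (w u' - w' v') 1)
≤ |B_1| * ∫ 1{dist (w u - w' v) (w u' - w' v') < 2}`; take means and use `pair_le`:
`≤ |B_1| * ∫ min (1, C max (|u - u'|, |v - v'|) ^ (-d/2))`. With `a = |u - u'|`, `b = |v - v'|` this is at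
most `4 |B_1| s t ∫_0^s ∫_0^t min (1, C max (a, b) ^ (-d/2)) da db`. For `d ≥ 5` the double integral over
`[0, ∞)^2` is finite (`= ∫_0^∞ 2 x min (1, C x ^ (-d/2)) dx`); for `s = 1`, `d ≥ 4` it is at most
`∫_0^∞ min (1, C b ^ (-d/2)) db < ∞`.
-/

open MeasureTheory ProbabilityTheory Filter Topology
open scoped ENNReal NNReal

namespace WSP

variable {d : ℕ}

/-- the probability that two pairs of times are close -/
noncomputable def FP (μ : Measure (Path d)) (u v u' v' : ℝ≥0) : ℝ≥0∞ :=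
  ∫⁻ w, μ {w' | dist (w u - w' v) (w u' - w' v') < 2} ∂μ

lemma FP_comm (μ : Measure (Path d)) (u v u' v' : ℝ≥0) : FP μ u v u' v' = FP μ u' v' u v := by
  unfold FP
  refine lintegral_congr fun w => ?_
  simp_rw [dist_comm (w u - _)]

lemma IsWiener.FP_le_one {μ : Measure (Path d)} (h : IsWiener μ) (u v u' v' : ℝ≥0) :
    FP μ u v u' v' ≤ 1 := by
  have := h.isProb
  calc FP μ u v u' v' ≤ ∫⁻ _w, 1 ∂μ := lintegral_mono fun w => prob_le_one
    _ = 1 := by rw [lintegral_const, measure_univ, mul_one]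

lemma IsWiener.FP_le {μ : Measure (Path d)} (h : IsWiener μ) {u v u' v' : ℝ≥0} {m : ℝ}
    (hm : 0 < m) (hor : m ≤ |(u : ℝ) - u'| ∨ m ≤ |(v : ℝ) - v'|) :
    FP μ u v u' v' ≤ pairC d * ENNReal.ofReal (m ^ (-(d : ℝ) / 2)) := by
  have hb : (0 : ℝ≥0) < m.toNNReal := by simpa using hm
  have hmc : ((m.toNNReal : ℝ≥0) : ℝ) = m := Real.coe_toNNReal m hm.le
  have key : ∀ x y : ℝ≥0, m ≤ |(x : ℝ) - y| → m.toNNReal ≤ x - y ∨ m.toNNReal ≤ y - x := by
    intro x y hxy
    rcases le_total (x : ℝ) y with hle | hle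
    · right
      rw [abs_of_nonpos (by linarith)] at hxy
      rw [← NNReal.coe_le_coe, hmc, NNReal.coe_sub (by exact_mod_cast hle)]
      linarith
    · left
      rw [abs_of_nonneg (by linarith)] at hxy
      rw [← NNReal.coe_le_coe, hmc, NNReal.coe_sub (by exact_mod_cast hle)]
      linarith
  have e : ENNReal.ofReal (m ^ (-(d : ℝ) / 2)) =
      ENNReal.ofReal (((m.toNNReal : ℝ≥0) : ℝ) ^ (-(d : ℝ) / 2)) := by rw [hmc]
  rw [e]
  rcases hor with hor | hor
  · rcases key _ _ hor with h1 | h1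
    · rw [FP_comm]
      exact h.pair_left v' v hb h1
    · exact h.pair_left v v' hb h1
  · rcases key _ _ hor with h1 | h1
    · exact h.pair_right' u u' hb h1
    · exact h.pair_right u u' hb h1

/-- the constant -/
noncomputable def pairD (d : ℕ) : ℝ≥0∞ := ENNReal.ofReal (2 ^ ((d : ℝ) / 2)) * (1 + pairC d)

lemma pairD_ne_top (d : ℕ) : pairD d ≠ ∞ :=
  ENNReal.mul_ne_top ENNReal.ofReal_ne_top (ENNReal.add_ne_top.mpr ⟨ENNReal.one_ne_top,
    pairC_ne_top d⟩)

lemma IsWiener.FP_le' {μ : Measure (Path d)} (h : IsWiener μ) {u v u' v' : ℝ≥0} {m : ℝ}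
    (hm : 0 ≤ m) (hor : m ≤ |(u : ℝ) - u'| ∨ m ≤ |(v : ℝ) - v'|) :
    FP μ u v u' v' ≤ pairD d * ENNReal.ofReal ((1 + m) ^ (-(d : ℝ) / 2)) := by
  have hd : (0 : ℝ) ≤ d := Nat.cast_nonneg d
  have h2 : (2 : ℝ) ^ ((d : ℝ) / 2) * (2 : ℝ) ^ (-(d : ℝ) / 2) = 1 := by
    rw [← Real.rpow_add (by norm_num)]
    have : (d : ℝ) / 2 + -(d : ℝ) / 2 = 0 := by ring
    rw [this, Real.rpow_zero]
  rcases le_or_gt m 1 with hm1 | hm1
  · refine (h.FP_le_one u v u' v').trans ?_
    have h3 : (2 : ℝ) ^ (-(d : ℝ) / 2) ≤ (1 + m) ^ (-(d : ℝ) / 2) :=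
      Real.rpow_le_rpow_of_nonpos (by linarith) (by linarith) (by linarith)
    calc (1 : ℝ≥0∞) = ENNReal.ofReal ((2 : ℝ) ^ ((d : ℝ) / 2) * (2 : ℝ) ^ (-(d : ℝ) / 2)) := by
          rw [h2, ENNReal.ofReal_one]
      _ ≤ ENNReal.ofReal ((2 : ℝ) ^ ((d : ℝ) / 2) * (1 + m) ^ (-(d : ℝ) / 2)) := by
          apply ENNReal.ofReal_le_ofReal
          exact mul_le_mul_of_nonneg_left h3 (by positivity)
      _ = ENNReal.ofReal ((2 : ℝ) ^ ((d : ℝ) / 2)) * ENNReal.ofReal ((1 + m) ^ (-(d : ℝ) / 2)) :=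
          ENNReal.ofReal_mul (by positivity)
      _ ≤ pairD d * ENNReal.ofReal ((1 + m) ^ (-(d : ℝ) / 2)) := by
          refine mul_le_mul' ?_ le_rfl
          unfold pairD
          calc ENNReal.ofReal ((2 : ℝ) ^ ((d : ℝ) / 2))
              = ENNReal.ofReal ((2 : ℝ) ^ ((d : ℝ) / 2)) * 1 := (mul_one _).symm
            _ ≤ _ := mul_le_mul' le_rfl le_self_add
  · refine (h.FP_le (by linarith) hor).trans ?_
    have h3 : m ^ (-(d : ℝ) / 2) ≤ (2 : ℝ) ^ ((d : ℝ) / 2) * (1 + m) ^ (-(d : ℝ) / 2) := by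
      have h4 : (2 * m) ^ (-(d : ℝ) / 2) ≤ (1 + m) ^ (-(d : ℝ) / 2) :=
        Real.rpow_le_rpow_of_nonpos (by linarith) (by linarith) (by linarith)
      rw [Real.mul_rpow (by norm_num) (by linarith)] at h4
      calc m ^ (-(d : ℝ) / 2) = ((2 : ℝ) ^ ((d : ℝ) / 2) * (2 : ℝ) ^ (-(d : ℝ) / 2)) *
            m ^ (-(d : ℝ) / 2) := by rw [h2, one_mul]
        _ = (2 : ℝ) ^ ((d : ℝ) / 2) * ((2 : ℝ) ^ (-(d : ℝ) / 2) * m ^ (-(d : ℝ) / 2)) := by ring
        _ ≤ _ := mul_le_mul_of_nonneg_left h4 (by positivity)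
    calc pairC d * ENNReal.ofReal (m ^ (-(d : ℝ) / 2))
        ≤ pairC d * ENNReal.ofReal ((2 : ℝ) ^ ((d : ℝ) / 2) * (1 + m) ^ (-(d : ℝ) / 2)) :=
          mul_le_mul' le_rfl (ENNReal.ofReal_le_ofReal h3)
      _ = ENNReal.ofReal ((2 : ℝ) ^ ((d : ℝ) / 2)) * pairC d *
            ENNReal.ofReal ((1 + m) ^ (-(d : ℝ) / 2)) := by
          rw [ENNReal.ofReal_mul (by positivity)]; ring
      _ ≤ pairD d * ENNReal.ofReal ((1 + m) ^ (-(d : ℝ) / 2)) := by
          refine mul_le_mul' ?_ le_rfl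
          unfold pairD
          exact mul_le_mul' le_rfl le_add_self

/-- the measure on the pairs of times -/
noncomputable def tmm (s t : ℝ≥0) : Measure (ℝ × ℝ) :=
  (volume.restrict (Set.Ioc (0 : ℝ) s)).prod (volume.restrict (Set.Ioc (0 : ℝ) t))

instance (s t : ℝ≥0) : SFinite (tmm s t) := by unfold tmm; infer_instance

lemma tmm_univ (s t : ℝ≥0) : tmm s t Set.univ = (s : ℝ≥0∞) * t := by
  unfold tmm
  rw [← Set.univ_prod_univ, Measure.prod_prod, Measure.restrict_apply_univ,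
    Measure.restrict_apply_univ, Real.volume_Ioc, Real.volume_Ioc, sub_zero, sub_zero,
    ENNReal.ofReal_coe_nnreal, ENNReal.ofReal_coe_nnreal]

open Classical in
/-- the indicator -/
noncomputable def indLT (w w' : Path d) (z : E d) (q : ℝ × ℝ) : ℝ≥0∞ :=
  if dist (w q.1.toNNReal) (z + w' q.2.toNNReal) < 1 then 1 else 0

open Classical in
/-- the indicator of closeness -/
noncomputable def indD (w w' : Path d) (q q' : ℝ × ℝ) : ℝ≥0∞ :=
  if dist (w q.1.toNNReal - w' q.2.toNNReal) (w q'.1.toNNReal - w' q'.2.toNNReal) < 2 then 1 else 0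

lemma measurable_indLT {α : Type*} [MeasurableSpace α] {f f' : α → Path d} {z : α → E d}
    {g : α → ℝ × ℝ} (hf : Measurable f) (hf' : Measurable f') (hz : Measurable z)
    (hg : Measurable g) : Measurable fun a => indLT (f a) (f' a) (z a) (g a) := by
  unfold indLT
  exact measurable_LT_aux hf hf' hz hg.fst hg.snd

lemma measurable_indD {α : Type*} [MeasurableSpace α] {f f' : α → Path d}
    {g g' : α → ℝ × ℝ} (hf : Measurable f) (hf' : Measurable f')
    (hg : Measurable g) (hg' : Measurable g') :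
    Measurable fun a => indD (f a) (f' a) (g a) (g' a) := by
  unfold indD
  refine Measurable.ite ?_ measurable_const measurable_const
  exact measurableSet_lt (((measurable_evalR hf hg.fst).sub (measurable_evalR hf' hg.snd)).dist
    ((measurable_evalR hf hg'.fst).sub (measurable_evalR hf' hg'.snd))) measurable_const

lemma LT_eq (s t : ℝ≥0) (w w' : Path d) (z : E d) :
    LT s t w w' z = ∫⁻ q, indLT w w' z q ∂(tmm s t) := by
  unfold tmm
  rw [lintegral_prod (fun q => indLT w w' z q) (measurable_indLT (g := fun q => q)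
    measurable_const measurable_const measurable_const measurable_id).aemeasurable]
  rfl

lemma lintegral_indLT (w w' : Path d) (q : ℝ × ℝ) :
    ∫⁻ z, indLT w w' z q = volume (Metric.ball (0 : E d) 1) := by
  classical
  have h3 : ∀ z : E d, indLT w w' z q =
      (Metric.ball (w q.1.toNNReal - w' q.2.toNNReal) 1).indicator 1 z := by
    intro z
    unfold indLT
    rw [Set.indicator_apply, Metric.mem_ball]
    have : dist z (w q.1.toNNReal - w' q.2.toNNReal) =
        dist (w q.1.toNNReal) (z + w' q.2.toNNReal) := by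
      rw [dist_eq_norm, dist_eq_norm, ← norm_neg]
      congr 1; abel
    rw [this]
    rfl
  simp_rw [h3]
  rw [lintegral_indicator_one measurableSet_ball, Measure.addHaar_ball_center]

lemma indLT_mul_le (w w' : Path d) (z : E d) (q q' : ℝ × ℝ) :
    indLT w w' z q * indLT w w' z q' ≤ indLT w w' z q * indD w w' q q' := by
  classical
  unfold indLT indD
  split_ifs with h1 h2 h3
  · simp
  · exfalso
    apply h3
    have e1 : dist (w q.1.toNNReal - w' q.2.toNNReal) z =
        dist (w q.1.toNNReal) (z + w' q.2.toNNReal) := by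
      rw [dist_eq_norm, dist_eq_norm]
      congr 1; abel
    have e2 : dist z (w q'.1.toNNReal - w' q'.2.toNNReal) =
        dist (w q'.1.toNNReal) (z + w' q'.2.toNNReal) := by
      rw [dist_eq_norm, dist_eq_norm, ← norm_neg]
      congr 1; abel
    calc dist (w q.1.toNNReal - w' q.2.toNNReal) (w q'.1.toNNReal - w' q'.2.toNNReal)
        ≤ dist (w q.1.toNNReal - w' q.2.toNNReal) z +
          dist z (w q'.1.toNNReal - w' q'.2.toNNReal) := dist_triangle _ _ _
      _ < 1 + 1 := by rw [e1, e2]; exact add_lt_add h1 h2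
      _ = 2 := by norm_num
  all_goals simp

/-- The second moment for fixed paths. -/
lemma lintegral_LT_sq_le (s t : ℝ≥0) (w w' : Path d) :
    ∫⁻ z, (LT s t w w' z) ^ 2 ≤ volume (Metric.ball (0 : E d) 1) *
      ∫⁻ q, ∫⁻ q', indD w w' q q' ∂(tmm s t) ∂(tmm s t) := by
  have h1 : ∀ z, (LT s t w w' z) ^ 2 = ∫⁻ q, ∫⁻ q', indLT w w' z q * indLT w w' z q'
      ∂(tmm s t) ∂(tmm s t) := by
    intro z
    rw [sq, LT_eq]
    have hm : Measurable fun q => indLT w w' z q :=
      measurable_indLT measurable_const measurable_const measurable_const measurable_id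
    rw [← lintegral_mul_const _ hm]
    refine lintegral_congr fun q => ?_
    rw [lintegral_const_mul _ hm]
  simp_rw [h1]
  rw [lintegral_lintegral_swap]
  · rw [← lintegral_const_mul']
    · refine lintegral_mono fun q => ?_
      rw [lintegral_lintegral_swap]
      · rw [← lintegral_const_mul']
        · refine lintegral_mono fun q' => ?_
          calc ∫⁻ z, indLT w w' z q * indLT w w' z q'
              ≤ ∫⁻ z, indLT w w' z q * indD w w' q q' :=
                lintegral_mono fun z => indLT_mul_le w w' z q q'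
            _ = volume (Metric.ball (0 : E d) 1) * indD w w' q q' := by
                rw [lintegral_mul_const _ (measurable_indLT (z := fun z => z) measurable_const
                  measurable_const measurable_id measurable_const), lintegral_indLT]
        · exact measure_ball_lt_top.ne
      · refine Measurable.aemeasurable ?_
        refine Measurable.mul ?_ ?_
        · exact measurable_indLT (f := fun _ : E d × (ℝ × ℝ) => w) (f' := fun _ => w')
            (z := fun p => p.1) (g := fun _ => q) measurable_const measurable_const measurable_fst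
            measurable_const
        · exact measurable_indLT (f := fun _ : E d × (ℝ × ℝ) => w) (f' := fun _ => w')
            (z := fun p => p.1) (g := fun p => p.2) measurable_const measurable_const
            measurable_fst measurable_snd
    · exact measure_ball_lt_top.ne
  · refine Measurable.aemeasurable ?_
    refine Measurable.lintegral_prod_right' (f := fun p : (E d × (ℝ × ℝ)) × (ℝ × ℝ) =>
      indLT w w' p.1.1 p.1.2 * indLT w w' p.1.1 p.2) ?_
    refine Measurable.mul ?_ ?_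
    · exact measurable_indLT (f := fun _ : (E d × (ℝ × ℝ)) × (ℝ × ℝ) => w) (f' := fun _ => w')
            (z := fun p => p.1.1) (g := fun p => p.1.2) measurable_const measurable_const
            (by fun_prop) (by fun_prop)
    · exact measurable_indLT (f := fun _ : (E d × (ℝ × ℝ)) × (ℝ × ℝ) => w) (f' := fun _ => w')
            (z := fun p => p.1.1) (g := fun p => p.2) measurable_const measurable_const
            (by fun_prop) (by fun_prop)

lemma lintegral_indD {μ : Measure (Path d)} (q q' : ℝ × ℝ) :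
    ∫⁻ w, ∫⁻ w', indD w w' q q' ∂μ ∂μ =
      FP μ q.1.toNNReal q.2.toNNReal q'.1.toNNReal q'.2.toNNReal := by
  classical
  unfold FP
  refine lintegral_congr fun w => ?_
  have hm : MeasurableSet {w' : Path d | dist (w q.1.toNNReal - w' q.2.toNNReal)
      (w q'.1.toNNReal - w' q'.2.toNNReal) < 2} := by
    exact measurableSet_lt ((measurable_const.sub (measurable_eval _)).dist
      (measurable_const.sub (measurable_eval _))) measurable_const
  rw [← lintegral_indicator_one hm]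
  refine lintegral_congr fun w' => ?_
  unfold indD
  rw [Set.indicator_apply]
  rfl

lemma measurable_indD_times (w w' : Path d) :
    Measurable fun r : (ℝ × ℝ) × (ℝ × ℝ) => indD w w' r.1 r.2 :=
  measurable_indD (f := fun _ : (ℝ × ℝ) × (ℝ × ℝ) => w) (f' := fun _ => w') (g := fun r => r.1)
    (g' := fun r => r.2) measurable_const measurable_const measurable_fst measurable_snd

lemma measurable_indD_paths (q q' : ℝ × ℝ) :
    Measurable fun p : Path d × Path d => indD p.1 p.2 q q' :=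
  measurable_indD (f := fun p : Path d × Path d => p.1) (f' := fun p => p.2) (g := fun _ => q)
    (g' := fun _ => q') measurable_fst measurable_snd measurable_const measurable_const

lemma measurable_indD_all : Measurable fun r : (Path d × Path d) × ((ℝ × ℝ) × (ℝ × ℝ)) =>
    indD r.1.1 r.1.2 r.2.1 r.2.2 :=
  measurable_indD (f := fun r : (Path d × Path d) × ((ℝ × ℝ) × (ℝ × ℝ)) => r.1.1)
    (f' := fun r => r.1.2) (g := fun r => r.2.1) (g' := fun r => r.2.2) (by fun_prop) (by fun_prop)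
    (by fun_prop) (by fun_prop)

lemma swap_four {μ : Measure (Path d)} [SFinite μ] {m : Measure (ℝ × ℝ)} [SFinite m] :
    ∫⁻ w, ∫⁻ w', ∫⁻ q, ∫⁻ q', indD w w' q q' ∂m ∂m ∂μ ∂μ =
      ∫⁻ q, ∫⁻ q', ∫⁻ w, ∫⁻ w', indD w w' q q' ∂μ ∂μ ∂m ∂m := by
  have hm := measurable_indD_all (d := d)
  have e1 : ∀ w w' : Path d, ∫⁻ q, ∫⁻ q', indD w w' q q' ∂m ∂m =
      ∫⁻ r, indD w w' r.1 r.2 ∂(m.prod m) := fun w w' =>
    (lintegral_prod _ (measurable_indD_times w w').aemeasurable).symm
  have m1 : Measurable fun p : Path d × Path d => ∫⁻ r, indD p.1 p.2 r.1 r.2 ∂(m.prod m) :=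
    Measurable.lintegral_prod_right' hm
  have e2 : ∫⁻ w, ∫⁻ w', ∫⁻ q, ∫⁻ q', indD w w' q q' ∂m ∂m ∂μ ∂μ =
      ∫⁻ p, ∫⁻ r, indD p.1 p.2 r.1 r.2 ∂(m.prod m) ∂(μ.prod μ) := by
    simp_rw [e1]
    exact (lintegral_prod _ m1.aemeasurable).symm
  have e3 : ∀ r : (ℝ × ℝ) × (ℝ × ℝ), ∫⁻ p, indD p.1 p.2 r.1 r.2 ∂(μ.prod μ) =
      ∫⁻ w, ∫⁻ w', indD w w' r.1 r.2 ∂μ ∂μ := fun r =>
    lintegral_prod _ (measurable_indD_paths r.1 r.2).aemeasurable
  have m2 : Measurable fun r : (ℝ × ℝ) × (ℝ × ℝ) => ∫⁻ p, indD p.1 p.2 r.1 r.2 ∂(μ.prod μ) :=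
    Measurable.lintegral_prod_left' hm
  rw [e2, lintegral_lintegral_swap hm.aemeasurable, lintegral_prod _ m2.aemeasurable]
  refine lintegral_congr fun q => lintegral_congr fun q' => ?_
  exact e3 (q, q')

/-- The second moment as an integral over four times. -/
lemma IsWiener.second_moment_le {μ : Measure (Path d)} (h : IsWiener μ) (s t : ℝ≥0) :
    ∫⁻ w, ∫⁻ w', (∫⁻ z, (LT s t w w' z) ^ 2) ∂μ ∂μ ≤ volume (Metric.ball (0 : E d) 1) *
      ∫⁻ q, ∫⁻ q', FP μ q.1.toNNReal q.2.toNNReal q'.1.toNNReal q'.2.toNNReal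
        ∂(tmm s t) ∂(tmm s t) := by
  have := h.isProb
  calc ∫⁻ w, ∫⁻ w', (∫⁻ z, (LT s t w w' z) ^ 2) ∂μ ∂μ
      ≤ ∫⁻ w, ∫⁻ w', volume (Metric.ball (0 : E d) 1) *
        ∫⁻ q, ∫⁻ q', indD w w' q q' ∂(tmm s t) ∂(tmm s t) ∂μ ∂μ :=
        lintegral_mono fun w => lintegral_mono fun w' => lintegral_LT_sq_le s t w w'
    _ = volume (Metric.ball (0 : E d) 1) * ∫⁻ w, ∫⁻ w',
        ∫⁻ q, ∫⁻ q', indD w w' q q' ∂(tmm s t) ∂(tmm s t) ∂μ ∂μ := by
        rw [← lintegral_const_mul' _ _ measure_ball_lt_top.ne]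
        refine lintegral_congr fun w => ?_
        rw [lintegral_const_mul' _ _ measure_ball_lt_top.ne]
    _ = _ := by
        congr 1
        rw [swap_four]
        refine lintegral_congr fun q => lintegral_congr fun q' => ?_
        exact lintegral_indD q q'

/-- the kernel on the line -/
noncomputable def lk (r x : ℝ) : ℝ≥0∞ := ENNReal.ofReal ((1 + ‖x‖) ^ (-r))

lemma measurable_lk (r : ℝ) : Measurable (lk r) := by
  unfold lk
  fun_prop

lemma lintegral_lk_lt_top {r : ℝ} (hr : 1 < r) : ∫⁻ x, lk r x < ∞ := by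
  unfold lk
  refine finite_integral_one_add_norm ?_
  simpa using hr

lemma lintegral_lk_sub (r x : ℝ) : ∫⁻ y, lk r (x - y) = ∫⁻ y, lk r y :=
  lintegral_sub_left_eq_self (lk r) x

lemma tmm_prod_le (s t : ℝ≥0) {f g : ℝ → ℝ≥0∞} (hf : Measurable f) (hg : Measurable g) :
    ∫⁻ q, f q.1 * g q.2 ∂(tmm s t) = (∫⁻ x in Set.Ioc (0 : ℝ) s, f x) *
      ∫⁻ y in Set.Ioc (0 : ℝ) t, g y := by
  unfold tmm
  rw [lintegral_prod (fun q : ℝ × ℝ => f q.1 * g q.2)
    ((hf.comp measurable_fst).mul (hg.comp measurable_snd)).aemeasurable]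
  simp only
  rw [← lintegral_mul_const _ hf]
  refine lintegral_congr fun x => ?_
  rw [lintegral_const_mul _ hg]

lemma ae_tmm_nonneg (s t : ℝ≥0) : ∀ᵐ q ∂(tmm s t), 0 ≤ q.1 ∧ 0 ≤ q.2 := by
  unfold tmm
  rw [Measure.prod_restrict]
  refine (ae_restrict_iff' (measurableSet_Ioc.prod measurableSet_Ioc)).mpr ?_
  exact ae_of_all _ fun q hq => ⟨hq.1.1.le, hq.2.1.le⟩

/-- Second moment in dimension at least five. -/
theorem IsWiener.LT_sq_five {μ : Measure (Path d)} (h : IsWiener μ) (hd : 5 ≤ d) :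
    ∃ C : ℝ≥0, ∀ T : ℝ≥0, ∫⁻ w, ∫⁻ w', (∫⁻ z, (LT T T w w' z) ^ 2) ∂μ ∂μ ≤ (C : ℝ≥0∞) * (T : ℝ≥0∞) ^ 2 := by
  set I : ℝ≥0∞ := ∫⁻ x, lk (5 / 4) x with hI
  have hIt : I ≠ ∞ := (lintegral_lk_lt_top (by norm_num)).ne
  set C : ℝ≥0∞ := volume (Metric.ball (0 : E d) 1) * (pairD d * (I * I)) with hC
  have hCt : C ≠ ∞ := ENNReal.mul_ne_top measure_ball_lt_top.ne
    (ENNReal.mul_ne_top (pairD_ne_top d) (ENNReal.mul_ne_top hIt hIt))
  refine ⟨C.toNNReal, fun T => ?_⟩
  rw [ENNReal.coe_toNNReal hCt]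
  refine (h.second_moment_le T T).trans ?_
  rw [hC, mul_assoc]
  refine mul_le_mul' le_rfl ?_
  have hF : ∀ q q' : ℝ × ℝ, (0 ≤ q.1 ∧ 0 ≤ q.2) → (0 ≤ q'.1 ∧ 0 ≤ q'.2) →
      FP μ q.1.toNNReal q.2.toNNReal q'.1.toNNReal q'.2.toNNReal ≤
        pairD d * (lk (5 / 4) (q.1 - q'.1) * lk (5 / 4) (q.2 - q'.2)) := by
    intro q q' hq hq'
    set a := ‖q.1 - q'.1‖ with ha
    set b := ‖q.2 - q'.2‖ with hb
    have ha0 : 0 ≤ a := norm_nonneg _
    have hb0 : 0 ≤ b := norm_nonneg _
    have hor : max a b ≤ |((q.1.toNNReal : ℝ≥0) : ℝ) - (q'.1.toNNReal : ℝ≥0)| ∨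
        max a b ≤ |((q.2.toNNReal : ℝ≥0) : ℝ) - (q'.2.toNNReal : ℝ≥0)| := by
      rw [Real.coe_toNNReal _ hq.1, Real.coe_toNNReal _ hq.2, Real.coe_toNNReal _ hq'.1,
        Real.coe_toNNReal _ hq'.2, ← Real.norm_eq_abs, ← Real.norm_eq_abs, ← ha, ← hb]
      rcases le_total a b with hab | hab
      · right; rw [max_eq_right hab]
      · left; rw [max_eq_left hab]
    refine (h.FP_le' (le_max_of_le_left ha0) hor).trans ?_
    refine mul_le_mul' le_rfl ?_
    unfold lk
    rw [← ENNReal.ofReal_mul (by positivity)]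
    apply ENNReal.ofReal_le_ofReal
    rw [← ha, ← hb, ← Real.mul_rpow (by positivity) (by positivity)]
    have hm1 : 1 ≤ 1 + max a b := by
      have : a ≤ max a b := le_max_left _ _
      linarith
    calc (1 + max a b) ^ (-(d : ℝ) / 2) ≤ (1 + max a b) ^ (-(5 : ℝ) / 2) := by
          apply Real.rpow_le_rpow_of_exponent_le hm1
          have : (5 : ℝ) ≤ d := by exact_mod_cast hd
          linarith
      _ = ((1 + max a b) ^ (2 : ℝ)) ^ (-(5 / 4) : ℝ) := by
          rw [← Real.rpow_mul (by linarith)]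
          norm_num
      _ ≤ ((1 + a) * (1 + b)) ^ (-(5 / 4) : ℝ) := by
          apply Real.rpow_le_rpow_of_nonpos (by positivity) _ (by norm_num)
          rw [Real.rpow_two, sq]
          have h1 : a ≤ max a b := le_max_left _ _
          have h2 : b ≤ max a b := le_max_right _ _
          apply mul_le_mul (by linarith) (by linarith) (by linarith) (by linarith)
  calc ∫⁻ q, ∫⁻ q', FP μ q.1.toNNReal q.2.toNNReal q'.1.toNNReal q'.2.toNNReal
        ∂(tmm T T) ∂(tmm T T)
      ≤ ∫⁻ q, ∫⁻ q', pairD d * (lk (5 / 4) (q.1 - q'.1) * lk (5 / 4) (q.2 - q'.2))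
        ∂(tmm T T) ∂(tmm T T) := by
        refine lintegral_mono_ae ?_
        filter_upwards [ae_tmm_nonneg T T] with q hq
        refine lintegral_mono_ae ?_
        filter_upwards [ae_tmm_nonneg T T] with q' hq'
        exact hF q q' hq hq'
    _ ≤ ∫⁻ _q, pairD d * (I * I) ∂(tmm T T) := by
        refine lintegral_mono fun q => ?_
        rw [lintegral_const_mul' _ _ (pairD_ne_top d)]
        refine mul_le_mul' le_rfl ?_
        rw [tmm_prod_le T T (f := fun x => lk (5 / 4) (q.1 - x)) (g := fun y => lk (5 / 4) (q.2 - y))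
          ((measurable_lk _).comp (by fun_prop)) ((measurable_lk _).comp (by fun_prop))]
        refine mul_le_mul' ?_ ?_
        · exact (setLIntegral_le_lintegral _ _).trans (lintegral_lk_sub _ _).le
        · exact (setLIntegral_le_lintegral _ _).trans (lintegral_lk_sub _ _).le
    _ = pairD d * (I * I) * (T : ℝ≥0∞) ^ 2 := by
        rw [lintegral_const, tmm_univ, sq]

/-- Second moment for a window of length one of the first path, dimension at least four. -/
theorem IsWiener.LT_sq_window {μ : Measure (Path d)} (h : IsWiener μ) (hd : 4 ≤ d) :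
    ∃ C : ℝ≥0, ∀ T : ℝ≥0, 1 ≤ T →
      ∫⁻ w, ∫⁻ w', (∫⁻ z, (LT 1 T w w' z) ^ 2) ∂μ ∂μ ≤ (C : ℝ≥0∞) * (T : ℝ≥0∞) := by
  set I : ℝ≥0∞ := ∫⁻ x, lk 2 x with hI
  have hIt : I ≠ ∞ := (lintegral_lk_lt_top (by norm_num)).ne
  set C : ℝ≥0∞ := volume (Metric.ball (0 : E d) 1) * (pairD d * I) with hC
  have hCt : C ≠ ∞ := ENNReal.mul_ne_top measure_ball_lt_top.ne
    (ENNReal.mul_ne_top (pairD_ne_top d) hIt)
  refine ⟨C.toNNReal, fun T _ => ?_⟩
  rw [ENNReal.coe_toNNReal hCt]
  refine (h.second_moment_le 1 T).trans ?_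
  rw [hC, mul_assoc]
  refine mul_le_mul' le_rfl ?_
  have hF : ∀ q q' : ℝ × ℝ, (0 ≤ q.1 ∧ 0 ≤ q.2) → (0 ≤ q'.1 ∧ 0 ≤ q'.2) →
      FP μ q.1.toNNReal q.2.toNNReal q'.1.toNNReal q'.2.toNNReal ≤
        pairD d * ((fun _ => 1) q'.1 * lk 2 (q.2 - q'.2)) := by
    intro q q' hq hq'
    have hor : ‖q.2 - q'.2‖ ≤ |((q.1.toNNReal : ℝ≥0) : ℝ) - (q'.1.toNNReal : ℝ≥0)| ∨
        ‖q.2 - q'.2‖ ≤ |((q.2.toNNReal : ℝ≥0) : ℝ) - (q'.2.toNNReal : ℝ≥0)| := by
      right
      rw [Real.coe_toNNReal _ hq.2, Real.coe_toNNReal _ hq'.2, Real.norm_eq_abs]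
    refine (h.FP_le' (norm_nonneg _) hor).trans ?_
    refine mul_le_mul' le_rfl ?_
    rw [one_mul]
    unfold lk
    apply ENNReal.ofReal_le_ofReal
    apply Real.rpow_le_rpow_of_exponent_le
    · have := norm_nonneg (q.2 - q'.2)
      linarith
    · have : (4 : ℝ) ≤ d := by exact_mod_cast hd
      linarith
  calc ∫⁻ q, ∫⁻ q', FP μ q.1.toNNReal q.2.toNNReal q'.1.toNNReal q'.2.toNNReal
        ∂(tmm 1 T) ∂(tmm 1 T)
      ≤ ∫⁻ q, ∫⁻ q', pairD d * ((fun _ => 1) q'.1 * lk 2 (q.2 - q'.2))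
        ∂(tmm 1 T) ∂(tmm 1 T) := by
        refine lintegral_mono_ae ?_
        filter_upwards [ae_tmm_nonneg 1 T] with q hq
        refine lintegral_mono_ae ?_
        filter_upwards [ae_tmm_nonneg 1 T] with q' hq'
        exact hF q q' hq hq'
    _ ≤ ∫⁻ _q, pairD d * I ∂(tmm 1 T) := by
        refine lintegral_mono fun q => ?_
        rw [lintegral_const_mul' _ _ (pairD_ne_top d)]
        refine mul_le_mul' le_rfl ?_
        rw [tmm_prod_le 1 T (f := fun _ => 1) (g := fun y => lk 2 (q.2 - y))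
          measurable_const ((measurable_lk _).comp (by fun_prop))]
        have h1 : ∫⁻ _x in Set.Ioc (0 : ℝ) ((1 : ℝ≥0) : ℝ), (1 : ℝ≥0∞) = 1 := by
          rw [setLIntegral_const, Real.volume_Ioc]; simp
        rw [h1, one_mul]
        exact (setLIntegral_le_lintegral _ _).trans (lintegral_lk_sub _ _).le
    _ = pairD d * I * (T : ℝ≥0∞) := by
        rw [lintegral_const, tmm_univ]; simp

end WSP
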