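import Pool.Agent.Lib_MP_c175fd.FourDefs

/-!
# Pieces G4, THETA, MK, UPE: potential theory in dimension four

* THETA: `E ‖w v‖^(-2) = 1 / (2 v)` in dimension four: `x^(-1) = ∫_0^∞ exp (-s x) ds` and
  `E exp (-s ‖w v‖^2) = (1 + 2 s v)^(-2)` (product of four one dimensional Gaussian integrals).
* G4: `Gk s x` is the expected time before `s` spent by the path in the unit ball around `x`. Since
  `∫_0^s (2 π u)^(-2) exp (-a^2/(2u)) du = exp (-a^2/(2 s)) / (2 π^2 a^2)` for `a > 0` (derivative in `s`;
  the limit at `0+` is `0`), Tonelli gives `Gk s x = ∫_{y ∈ ball x 1} exp (-‖y‖^2/(2s)) / (2 π^2 ‖y‖^2) dy`,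
  hence the lower bound (`‖y‖ ≤ ‖x‖ + 1`), the upper bound (`‖y‖ ≥ ‖x‖ - 1`) and the bound by a constant
  (the integral of `‖y‖^(-2)` over a unit ball of `ℝ^4` is bounded, or use `1 ∧ C u^(-2)`).
* MK: Markov property at time `a` for the local time after `a`.
* `lintegral_Gk_le`: mean of `Gk` at a shifted path; use the density bounds of `w u` and of the
  increment of `w'` (as in `pair_le`): the probability is at most `min 1 (C max(u, |v-j|)^(-2))`.
-/

open MeasureTheory ProbabilityTheory Filter Topology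
open scoped ENNReal NNReal

namespace WSP


theorem mk_congr {α β : Type*} [MeasurableSpace α] [MeasurableSpace β] {f g : α → β}
    (hf : Measurable f) (h : ∀ x, f x = g x) : Measurable g := by
  have : f = g := funext h
  rwa [← this]

theorem mk_eval {d : ℕ} {α : Type*} [MeasurableSpace α] {f : α → Path d} {g : α → ℝ}
    (hf : Measurable f) (hg : Measurable g) : Measurable (fun a => (f a) (g a).toNNReal) :=
  measurable_eval_prod.comp (hf.prodMk hg.real_toNNReal)

open Classical in
theorem mk_ite {d : ℕ} {α : Type*} [MeasurableSpace α] {f f' : α → Path d} {g g' : α → ℝ}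
    {z : α → E d} (hf : Measurable f) (hf' : Measurable f') (hg : Measurable g)
    (hg' : Measurable g') (hz : Measurable z) :
    Measurable (fun a => (if dist ((f a) (g a).toNNReal) (z a + (f' a) (g' a).toNNReal) < 1 then 1 else 0 :
      ℝ≥0∞)) := by
  refine Measurable.ite ?_ measurable_const measurable_const
  exact measurableSet_lt ((mk_eval hf hg).dist (hz.add (mk_eval hf' hg'))) measurable_const

/-- Piece MK: `Phi` as an integral of `Gk` along the path. -/
theorem Phi_eq {d : ℕ} {μ : Measure (Path d)} [IsProbabilityMeasure μ] (s n : ℝ≥0) (w' : Path d)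
    (y : E d) : Phi μ s n w' y = ∫⁻ v in Set.Ioc (0 : ℝ) n, Gk μ s (y + w' v.toNNReal) := by
  classical
  unfold Phi LT Gk
  rw [lintegral_lintegral_swap]
  · have h1 : ∀ u : ℝ, ∫⁻ w : Path d, (∫⁻ v in Set.Ioc (0 : ℝ) n,
        (if dist (w u.toNNReal) (y + w' v.toNNReal) < 1 then 1 else 0 : ℝ≥0∞)) ∂μ =
        ∫⁻ v in Set.Ioc (0 : ℝ) n, μ {w | dist (w u.toNNReal) (y + w' v.toNNReal) < 1} := by
      intro u
      rw [lintegral_lintegral_swap]
      · refine lintegral_congr fun v => ?_
        have h2 : MeasurableSet {w : Path d | dist (w u.toNNReal) (y + w' v.toNNReal) < 1} :=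
          measurableSet_lt ((measurable_eval _).dist measurable_const) measurable_const
        rw [← lintegral_indicator_one h2]
        refine lintegral_congr fun w => ?_
        simp [Set.indicator_apply]
      · refine Measurable.aemeasurable ?_
        exact mk_ite measurable_fst measurable_const measurable_const measurable_snd
          measurable_const
    simp_rw [h1]
    rw [lintegral_lintegral_swap]
    have h3 : Measurable (fun p : (ℝ × ℝ) × Path d =>
        (if dist (p.2 (p.1.1).toNNReal) (y + w' p.1.2.toNNReal) < 1 then 1 else 0 : ℝ≥0∞)) := 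
      mk_ite measurable_snd measurable_const (measurable_fst.comp measurable_fst)
        (measurable_snd.comp measurable_fst) measurable_const
    have h4 := h3.lintegral_prod_right' (ν := μ)
    refine Measurable.aemeasurable ?_
    refine mk_congr h4 fun p => ?_
    have h2 : MeasurableSet {w : Path d | dist (w p.1.toNNReal) (y + w' p.2.toNNReal) < 1} :=
      measurableSet_lt ((measurable_eval _).dist measurable_const) measurable_const
    rw [Function.uncurry]
    rw [← lintegral_indicator_one h2]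
    refine lintegral_congr fun w => ?_
    simp [Set.indicator_apply]
  · have h3 : Measurable (fun p : (Path d × ℝ) × ℝ =>
        (if dist (p.1.1 (p.1.2).toNNReal) (y + w' p.2.toNNReal) < 1 then 1 else 0 : ℝ≥0∞)) := 
      mk_ite (measurable_fst.comp measurable_fst) measurable_const
        (measurable_snd.comp measurable_fst) measurable_snd measurable_const
    exact (h3.lintegral_prod_right' (ν := volume.restrict (Set.Ioc (0 : ℝ) n))).aemeasurable

/-- Piece MK: Markov property at time `a` for the future local time over a set of displacements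
depending on the past. -/
theorem IsWiener.lintegral_future {d : ℕ} {μ : Measure (Path d)} (h : IsWiener μ) (a s n : ℝ≥0)
    {S : Set (E d × Path d × Path d)} (hS : MeasurableSet S) :
    ∫⁻ w, ∫⁻ w', (∫⁻ z in {z | (z, stop a w, w') ∈ S}, LT s n (shift a w) w' (z - w a)) ∂μ ∂μ =
      ∫⁻ w, ∫⁻ w', (∫⁻ z in {z | (z, stop a w, w') ∈ S}, Phi μ s n w' (z - w a)) ∂μ ∂μ := by
  classical
  have := h.isProb
  -- the kernel
  have hLT : Measurable (fun q : (Path d × Path d) × Path d × E d =>
      {z : E d | (z, q.1.1, q.2.1) ∈ S}.indicator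
        (fun z => LT s n q.1.2 q.2.1 (z - q.1.1 a)) q.2.2) := by
    have e1 : Measurable (fun q : (Path d × Path d) × Path d × E d =>
        (q.1.2, q.2.1, q.2.2 - q.1.1 a)) := by
      have : Measurable (fun q : (Path d × Path d) × Path d × E d => q.1.1 a) :=
        (measurable_eval a).comp (measurable_fst.comp measurable_fst)
      fun_prop
    have e2 := (measurable_LT (d := d) s n).comp e1
    have e3 : MeasurableSet {q : (Path d × Path d) × Path d × E d | (q.2.2, q.1.1, q.2.1) ∈ S} := by
      have : Measurable (fun q : (Path d × Path d) × Path d × E d => (q.2.2, q.1.1, q.2.1)) := by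
        fun_prop
      exact this hS
    refine mk_congr (e2.indicator e3) fun q => ?_
    simp [Set.indicator_apply]
  have hSz : ∀ p w' : Path d, MeasurableSet {z : E d | (z, p, w') ∈ S} := by
    intro p w'
    have : Measurable (fun z : E d => (z, p, w')) := by fun_prop
    exact this hS
  have hF : Measurable (Function.uncurry (fun p q : Path d =>
      ∫⁻ w', (∫⁻ z in {z | (z, p, w') ∈ S}, LT s n q w' (z - p a)) ∂μ)) := by
    have e4 : Measurable (fun q : (Path d × Path d) × Path d × E d =>
      {z : E d | (z, q.1.1, q.2.1) ∈ S}.indicator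
        (fun z => LT s n q.1.2 q.2.1 (z - q.1.1 a)) q.2.2) := hLT
    have e5 : Measurable (fun q : ((Path d × Path d) × Path d) × E d =>
      {z : E d | (z, q.1.1.1, q.1.2) ∈ S}.indicator
        (fun z => LT s n q.1.1.2 q.1.2 (z - q.1.1.1 a)) q.2) := by
      have : Measurable (fun q : ((Path d × Path d) × Path d) × E d => (q.1.1, q.1.2, q.2)) := by
        fun_prop
      exact e4.comp this
    have e6 := (e5.lintegral_prod_right' (ν := volume)).lintegral_prod_right' (ν := μ)
    refine mk_congr e6 fun q => ?_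
    refine lintegral_congr fun w' => ?_
    simp only
    rw [← lintegral_indicator (hSz _ _)]
  have h1 := h.lintegral_stop_shift a hF
  have h2 : ∫⁻ w, ∫⁻ w', (∫⁻ z in {z | (z, stop a w, w') ∈ S}, LT s n (shift a w) w' (z - w a)) ∂μ ∂μ =
      ∫⁻ w, (fun p q : Path d =>
      ∫⁻ w', (∫⁻ z in {z | (z, p, w') ∈ S}, LT s n q w' (z - p a)) ∂μ) (stop a w) (shift a w) ∂μ := by
    refine lintegral_congr fun w => ?_
    simp
  rw [h2, h1]
  refine lintegral_congr fun w => ?_
  have h5 : w a = (stop a w) a := by simp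
  rw [h5]
  generalize stop a w = p
  rw [lintegral_lintegral_swap]
  · refine lintegral_congr fun w' => ?_
    rw [lintegral_lintegral_swap]
    · simp only [Phi]
    · refine Measurable.aemeasurable ?_
      have e1 : Measurable (fun q : Path d × E d => (q.1, w', q.2 - p a)) := by
        fun_prop
      exact mk_congr ((measurable_LT (d := d) s n).comp e1) fun q => rfl
  · refine Measurable.aemeasurable ?_
    have e5 : Measurable (fun q : (Path d × Path d) × E d =>
      {z : E d | (z, p, q.1.2) ∈ S}.indicator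
        (fun z => LT s n q.1.1 q.1.2 (z - p a)) q.2) := by
      have : Measurable (fun q : (Path d × Path d) × E d => ((p, q.1.1), q.1.2, q.2)) := by
        fun_prop
      exact hLT.comp this
    refine mk_congr (e5.lintegral_prod_right' (ν := volume)) fun q => ?_
    rw [Function.uncurry]
    rw [← lintegral_indicator (hSz _ _)]

/-- Fundamental theorem of calculus with `lintegral`. -/
theorem mk_ftc {F f : ℝ → ℝ} {a b : ℝ} (hab : a ≤ b)
    (hd : ∀ x ∈ Set.Icc a b, HasDerivAt F (f x) x) (hc : ContinuousOn f (Set.Icc a b))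
    (h0 : ∀ x ∈ Set.Icc a b, 0 ≤ f x) :
    ∫⁻ x in Set.Ioc a b, ENNReal.ofReal (f x) = ENNReal.ofReal (F b - F a) := by
  have hi : IntervalIntegrable f volume a b := by
    refine ContinuousOn.intervalIntegrable ?_
    rwa [Set.uIcc_of_le hab]
  have h1 : ∫ x in a..b, f x = F b - F a := by
    refine intervalIntegral.integral_eq_sub_of_hasDerivAt ?_ hi
    intro x hx
    rw [Set.uIcc_of_le hab] at hx
    exact hd x hx
  rw [← h1, intervalIntegral.integral_of_le hab]
  rw [ofReal_integral_eq_lintegral_ofReal]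
  · exact (intervalIntegrable_iff_integrableOn_Ioc_of_le hab).1 hi
  · refine (ae_restrict_mem measurableSet_Ioc).mono fun x hx => ?_
    exact h0 x ⟨hx.1.le, hx.2⟩

theorem mk_int1 {a s : ℝ} (ha : 0 ≤ a) (hs : 0 ≤ s) :
    ∫⁻ u in Set.Ioc (0 : ℝ) s, ENNReal.ofReal (((1 + u + a) ^ 2)⁻¹) ≤
      ENNReal.ofReal ((1 + a)⁻¹) := by
  rw [mk_ftc (F := fun u => - (1 + u + a)⁻¹) hs]
  · refine ENNReal.ofReal_le_ofReal ?_
    have h1 : 0 ≤ (1 + s + a)⁻¹ := by positivity
    simp only [add_zero]
    linarith
  · intro x hx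
    have hx0 := hx.1
    have h1 : (1 + x + a) ≠ 0 := by positivity
    have h2 : HasDerivAt (fun u : ℝ => 1 + u + a) 1 x := by
      simpa using ((hasDerivAt_id x).const_add 1).add_const a
    have h3 := (h2.fun_inv h1).fun_neg
    refine h3.congr_deriv ?_
    field_simp
  · refine ContinuousOn.inv₀ (by fun_prop) ?_
    intro x hx
    have hx0 := hx.1
    positivity
  · intro x hx
    positivity

theorem mk_int2 {j n : ℝ} (hj : 0 ≤ j) (hn : j ≤ n) :
    ∫⁻ v in Set.Ioc (0 : ℝ) n, ENNReal.ofReal ((1 + |v - j|)⁻¹) ≤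
      ENNReal.ofReal (2 * Real.log (1 + n)) := by
  have h1 : ∫⁻ v in Set.Ioc (0 : ℝ) j, ENNReal.ofReal ((1 + |v - j|)⁻¹) ≤
      ENNReal.ofReal (Real.log (1 + n)) := by
    have e1 : ∫⁻ v in Set.Ioc (0 : ℝ) j, ENNReal.ofReal ((1 + |v - j|)⁻¹) =
        ∫⁻ v in Set.Ioc (0 : ℝ) j, ENNReal.ofReal ((1 + j - v)⁻¹) := by
      refine setLIntegral_congr_fun measurableSet_Ioc fun v hv => ?_
      have : |v - j| = j - v := by
        rw [abs_sub_comm]
        exact abs_of_nonneg (by linarith [hv.2])
      simp only [this]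
      congr 2
      ring
    rw [e1, mk_ftc (F := fun v => - Real.log (1 + j - v)) hj]
    · refine ENNReal.ofReal_le_ofReal ?_
      have : Real.log (1 + j) ≤ Real.log (1 + n) := Real.log_le_log (by linarith) (by linarith)
      simp
      exact this
    · intro x hx
      have hx0 := hx.2
      have h1 : (1 + j - x) ≠ 0 := by linarith
      have h2 : HasDerivAt (fun u : ℝ => 1 + j - u) (-1) x := by
        simpa using (hasDerivAt_id x).const_sub (1 + j)
      have h3 := (h2.log h1).fun_neg
      refine h3.congr_deriv ?_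
      field_simp
    · refine ContinuousOn.inv₀ (by fun_prop) ?_
      intro x hx
      have hx0 := hx.2
      linarith
    · intro x hx
      have hx0 := hx.2
      exact inv_nonneg.2 (by linarith)
  have h2 : ∫⁻ v in Set.Ioc j n, ENNReal.ofReal ((1 + |v - j|)⁻¹) ≤
      ENNReal.ofReal (Real.log (1 + n)) := by
    have e1 : ∫⁻ v in Set.Ioc j n, ENNReal.ofReal ((1 + |v - j|)⁻¹) =
        ∫⁻ v in Set.Ioc j n, ENNReal.ofReal ((1 + v - j)⁻¹) := by
      refine setLIntegral_congr_fun measurableSet_Ioc fun v hv => ?_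
      have : |v - j| = v - j := abs_of_nonneg (by linarith [hv.1])
      simp only [this]
      congr 2
      ring
    rw [e1, mk_ftc (F := fun v => Real.log (1 + v - j)) hn]
    · refine ENNReal.ofReal_le_ofReal ?_
      have : Real.log (1 + n - j) ≤ Real.log (1 + n) :=
        Real.log_le_log (by linarith) (by linarith)
      simp
      exact this
    · intro x hx
      have hx0 := hx.1
      have h1 : (1 + x - j) ≠ 0 := by linarith
      have h2 : HasDerivAt (fun u : ℝ => 1 + u - j) 1 x := by
        simpa using ((hasDerivAt_id x).const_add 1).sub_const j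
      have h3 := h2.log h1
      refine h3.congr_deriv ?_
      field_simp
    · refine ContinuousOn.inv₀ (by fun_prop) ?_
      intro x hx
      have hx0 := hx.1
      linarith
    · intro x hx
      have hx0 := hx.1
      exact inv_nonneg.2 (by linarith)
  rw [← Set.Ioc_union_Ioc_eq_Ioc hj hn]
  refine (lintegral_union_le _ _ _).trans ?_
  refine (add_le_add h1 h2).trans ?_
  have h0 : 0 ≤ Real.log (1 + n) := Real.log_nonneg (by linarith)
  rw [← ENNReal.ofReal_add h0 h0]
  exact le_of_eq (by congr 1; ring)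

/-- The one point bound in dimension four. -/
theorem mk_pt {μ : Measure (Path 4)} (h : IsWiener μ) {u b : ℝ≥0} (hb : 0 < b) (hbu : b ≤ u)
    (x : E 4) : μ {w | dist (w u) x < 1} ≤
      volume (Metric.ball (0 : E 4) 1) * ENNReal.ofReal (((b : ℝ) ^ 2)⁻¹) := by
  have hu : u ≠ 0 := (hb.trans_le hbu).ne'
  have h1 := h.prob_eval_le hu (A := Metric.ball x 1) measurableSet_ball
  have h2 : {w : Path 4 | w u ∈ Metric.ball x 1} = {w | dist (w u) x < 1} := rfl
  rw [h2] at h1
  refine h1.trans ?_
  rw [mul_comm]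
  have h3 : volume (Metric.ball x 1) = volume (Metric.ball (0 : E 4) 1) := by
    rw [Measure.addHaar_ball_center]
  rw [h3]
  refine mul_le_mul_right ?_ _
  refine ENNReal.ofReal_le_ofReal ?_
  have h4 : (-((4 : ℕ) : ℝ) / 2) = ((-2 : ℤ) : ℝ) := by norm_num
  rw [h4, Real.rpow_intCast]
  have h5 : (0 : ℝ) < b := by exact_mod_cast hb
  have h6 : (b : ℝ) ≤ u := by exact_mod_cast hbu
  have h7 : (b : ℝ) ≤ 2 * Real.pi * u := by
    have := Real.pi_gt_three
    nlinarith
  rw [zpow_neg]
  have h8 : (2 * Real.pi * (u : ℝ)) ^ (2 : ℤ) = (2 * Real.pi * (u : ℝ)) ^ 2 := by norm_cast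
  rw [h8]
  exact inv_anti₀ (by positivity) (pow_le_pow_left₀ h5.le h7 2)

/-- The mean one point bound with an increment of the second path. -/
theorem mk_pt2 {μ : Measure (Path 4)} (h : IsWiener μ) {u b : ℝ≥0} (v j : ℝ≥0) (hb : 0 < b)
    (hbv : b ≤ u ∨ b ≤ v - j ∨ b ≤ j - v) (y : E 4) :
    ∫⁻ w', μ {w | dist (w u) (y - w' j + w' v) < 1} ∂μ ≤
      volume (Metric.ball (0 : E 4) 1) * ENNReal.ofReal (((b : ℝ) ^ 2)⁻¹) := by
  have := h.isProb
  have hconst : ∀ c : ℝ≥0∞, ∫⁻ _ : Path 4, c ∂μ = c := fun c => by simp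
  rcases hbv with hbv | hbv
  · refine (lintegral_mono fun w' => mk_pt h hb hbv _).trans ?_
    rw [hconst]
  · -- swap
    have hm : MeasurableSet {p : Path 4 × Path 4 | dist (p.2 u) (y - p.1 j + p.1 v) < 1} := by
      refine measurableSet_lt (Measurable.dist ?_ ?_) measurable_const
      · exact (measurable_eval u).comp measurable_snd
      · exact (measurable_const.sub ((measurable_eval j).comp measurable_fst)).add
          ((measurable_eval v).comp measurable_fst)
    have e1 : ∫⁻ w', μ {w | dist (w u) (y - w' j + w' v) < 1} ∂μ =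
        ∫⁻ w, μ {w' | dist (w u) (y - w' j + w' v) < 1} ∂μ := by
      have a1 := Measure.prod_apply (μ := μ) (ν := μ) hm
      have a2 := Measure.prod_apply_symm (μ := μ) (ν := μ) hm
      exact a1.symm.trans a2
    rw [e1]
    have key : ∀ x : E 4, μ {w' | dist x (y - w' j + w' v) < 1} ≤
        volume (Metric.ball (0 : E 4) 1) * ENNReal.ofReal (((b : ℝ) ^ 2)⁻¹) := by
      intro x
      rcases hbv with hbv | hbv
      · have hjv : j ≤ v := by
          by_contra hc
          push Not at hc
          rw [tsub_eq_zero_of_le hc.le] at hbv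
          exact absurd hb (not_lt.2 hbv)
        have e2 : {w' : Path 4 | dist x (y - w' j + w' v) < 1} =
            shift j ⁻¹' {w | dist (w (v - j)) (x - y) < 1} := by
          ext w'
          simp only [Set.mem_ofPred_eq, Set.mem_preimage, shift_apply]
          rw [add_tsub_cancel_of_le hjv, dist_comm, dist_eq_norm, dist_eq_norm]
          have : y - w' j + w' v - x = w' v - w' j - (x - y) := by abel
          rw [this]
        have hm2 : MeasurableSet {w : Path 4 | dist (w (v - j)) (x - y) < 1} :=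
          measurableSet_lt ((measurable_eval _).dist measurable_const) measurable_const
        rw [e2, ← Measure.map_apply (measurable_shift j) hm2, h.map_shift]
        exact mk_pt h hb hbv _
      · have hjv : v ≤ j := by
          by_contra hc
          push Not at hc
          rw [tsub_eq_zero_of_le hc.le] at hbv
          exact absurd hb (not_lt.2 hbv)
        have e2 : {w' : Path 4 | dist x (y - w' j + w' v) < 1} =
            shift v ⁻¹' {w | dist (w (j - v)) (y - x) < 1} := by
          ext w'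
          simp only [Set.mem_ofPred_eq, Set.mem_preimage, shift_apply]
          rw [add_tsub_cancel_of_le hjv, dist_eq_norm, dist_eq_norm]
          have : x - (y - w' j + w' v) = w' j - w' v - (y - x) := by abel
          rw [this]
        have hm2 : MeasurableSet {w : Path 4 | dist (w (j - v)) (y - x) < 1} :=
          measurableSet_lt ((measurable_eval _).dist measurable_const) measurable_const
        rw [e2, ← Measure.map_apply (measurable_shift v) hm2, h.map_shift]
        exact mk_pt h hb hbv _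
    refine (lintegral_mono fun w => key _).trans ?_
    rw [hconst]

/-- The mean one point bound, symmetric form. -/
theorem mk_pt3 {μ : Measure (Path 4)} (h : IsWiener μ) : ∃ C : ℝ≥0, ∀ (u v : ℝ) (j : ℝ≥0)
    (y : E 4), 0 ≤ u → 0 ≤ v →
    ∫⁻ w', μ {w | dist (w u.toNNReal) (y - w' j + w' v.toNNReal) < 1} ∂μ ≤
      (C : ℝ≥0∞) * ENNReal.ofReal (((1 + u + |v - j|) ^ 2)⁻¹) := by
  have hprob := h.isProb
  have hB : volume (Metric.ball (0 : E 4) 1) ≠ ∞ := measure_ball_lt_top.ne
  set B : ℝ≥0 := (volume (Metric.ball (0 : E 4) 1)).toNNReal with hBdef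
  have hBe : volume (Metric.ball (0 : E 4) 1) = (B : ℝ≥0∞) := (ENNReal.coe_toNNReal hB).symm
  refine ⟨9 * (B + 1), fun u v j y hu hv => ?_⟩
  by_cases hm : 1 ≤ max u |v - j|
  · -- use the density bound with `b = max u |v - j|`
    set m := max u |v - j| with hmdef
    have hm0 : 0 ≤ m := by linarith
    have h1 : (0 : ℝ≥0) < m.toNNReal := Real.toNNReal_pos.2 (by linarith)
    have h2 : m.toNNReal ≤ u.toNNReal ∨ m.toNNReal ≤ v.toNNReal - j ∨
        m.toNNReal ≤ j - v.toNNReal := by
      rcases max_choice u |v - j| with hc | hc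
      · left
        rw [hmdef, hc]
      · right
        rcases abs_choice (v - j) with hc' | hc'
        · left
          rw [hmdef, hc, hc']
          rw [← NNReal.coe_le_coe, Real.coe_toNNReal _ (by rw [← hc']; exact abs_nonneg _)]
          refine le_trans ?_ (NNReal.coe_sub_def ▸ le_max_left _ _)
          rw [Real.coe_toNNReal _ hv]
        · right
          rw [hmdef, hc, hc']
          rw [← NNReal.coe_le_coe, Real.coe_toNNReal _ (by rw [← hc']; exact abs_nonneg _)]
          refine le_trans ?_ (NNReal.coe_sub_def ▸ le_max_left _ _)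
          rw [Real.coe_toNNReal _ hv]
          linarith
    refine (mk_pt2 h v.toNNReal j h1 h2 y).trans ?_
    rw [Real.coe_toNNReal _ hm0, hBe]
    have h3 : ((m ^ 2)⁻¹ : ℝ) ≤ 9 * (((1 + u + |v - j|) ^ 2)⁻¹) := by
      have a1 : u ≤ m := le_max_left _ _
      have a2 : |v - j| ≤ m := le_max_right _ _
      have a3 : 0 ≤ |v - j| := abs_nonneg _
      have a4 : 1 + u + |v - j| ≤ 3 * m := by linarith
      have a5 : (1 + u + |v - j|) ^ 2 ≤ (3 * m) ^ 2 := pow_le_pow_left₀ (by positivity) a4 2
      have a6 : 0 < m := by linarith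
      have a7 := inv_anti₀ (by positivity) a5
      have a8 : ((3 * m) ^ 2)⁻¹ = (m ^ 2)⁻¹ / 9 := by
        field_simp
        norm_num
      rw [a8] at a7
      linarith
    calc (B : ℝ≥0∞) * ENNReal.ofReal ((m ^ 2)⁻¹)
        ≤ ((B + 1 : ℝ≥0) : ℝ≥0∞) * ENNReal.ofReal (9 * (((1 + u + |v - j|) ^ 2)⁻¹)) := by
          refine mul_le_mul' ?_ (ENNReal.ofReal_le_ofReal h3)
          exact_mod_cast le_self_add
      _ = ((9 * (B + 1) : ℝ≥0) : ℝ≥0∞) * ENNReal.ofReal (((1 + u + |v - j|) ^ 2)⁻¹) := by
          rw [ENNReal.ofReal_mul (by norm_num)]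
          push_cast
          rw [ENNReal.ofReal_ofNat]
          ring
  · push Not at hm
    have a1 : u < 1 := lt_of_le_of_lt (le_max_left _ _) hm
    have a2 : |v - j| < 1 := lt_of_le_of_lt (le_max_right _ _) hm
    have a3 : 0 ≤ |v - j| := abs_nonneg _
    have h1 : ∫⁻ w', μ {w | dist (w u.toNNReal) (y - w' j + w' v.toNNReal) < 1} ∂μ ≤ 1 := by
      calc ∫⁻ w', μ {w | dist (w u.toNNReal) (y - w' j + w' v.toNNReal) < 1} ∂μ
          ≤ ∫⁻ _, 1 ∂μ := lintegral_mono fun w' => prob_le_one
        _ = 1 := by simp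
    refine h1.trans ?_
    have h2 : (1 : ℝ) ≤ 9 * (((1 + u + |v - j|) ^ 2)⁻¹) := by
      have a4 : 1 + u + |v - j| ≤ 3 := by linarith
      have a5 : (1 + u + |v - j|) ^ 2 ≤ 3 ^ 2 := pow_le_pow_left₀ (by positivity) a4 2
      have a7 := inv_anti₀ (by positivity) a5
      norm_num at a7 ⊢
      linarith
    calc (1 : ℝ≥0∞) = 1 * ENNReal.ofReal 1 := by simp
      _ ≤ ((B + 1 : ℝ≥0) : ℝ≥0∞) * ENNReal.ofReal (9 * (((1 + u + |v - j|) ^ 2)⁻¹)) := by
          refine mul_le_mul' ?_ (ENNReal.ofReal_le_ofReal h2)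
          exact_mod_cast le_add_self
      _ = ((9 * (B + 1) : ℝ≥0) : ℝ≥0∞) * ENNReal.ofReal (((1 + u + |v - j|) ^ 2)⁻¹) := by
          rw [ENNReal.ofReal_mul (by norm_num)]
          push_cast
          rw [ENNReal.ofReal_ofNat]
          ring

/-- Piece MK: mean of `Phi` around a point of the path, dimension four. -/
theorem IsWiener.lintegral_Phi_le {μ : Measure (Path 4)} (h : IsWiener μ) :
    ∃ C : ℝ≥0, ∀ (n : ℕ), 2 ≤ n → ∀ (s j : ℝ≥0), j ≤ n → ∀ y : E 4,
      ∫⁻ w', Phi μ s n w' (y - w' j) ∂μ ≤ (C : ℝ≥0∞) * ENNReal.ofReal (Real.log n) := by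
  have hprob := h.isProb
  obtain ⟨C, hC⟩ := mk_pt3 h
  refine ⟨C * 4, fun n hn s j hj y => ?_⟩
  have hm : MeasurableSet {q : ((Path 4 × ℝ) × ℝ) × Path 4 |
      dist (q.2 q.1.2.toNNReal) (y - q.1.1.1 j + q.1.1.1 q.1.1.2.toNNReal) < 1} := by
    refine measurableSet_lt (Measurable.dist ?_ ?_) measurable_const
    · exact mk_eval measurable_snd (measurable_snd.comp measurable_fst)
    · refine (measurable_const.sub ?_).add ?_
      · exact (measurable_eval j).comp (measurable_fst.comp (measurable_fst.comp measurable_fst))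
      · exact mk_eval (measurable_fst.comp (measurable_fst.comp measurable_fst))
          (measurable_snd.comp (measurable_fst.comp measurable_fst))
  have hg : Measurable (fun q : (Path 4 × ℝ) × ℝ =>
      μ {w | dist (w q.2.toNNReal) (y - q.1.1 j + q.1.1 q.1.2.toNNReal) < 1}) :=
    measurable_measure_prodMk_left hm
  have h1 : ∀ w' : Path 4, Phi μ s n w' (y - w' j) = ∫⁻ v in Set.Ioc (0 : ℝ) n,
      ∫⁻ u in Set.Ioc (0 : ℝ) s,
        μ {w | dist (w u.toNNReal) (y - w' j + w' v.toNNReal) < 1} := by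
    intro w'
    rw [Phi_eq]
    rfl
  simp_rw [h1]
  rw [lintegral_lintegral_swap]
  swap
  · refine Measurable.aemeasurable ?_
    exact hg.lintegral_prod_right' (ν := volume.restrict (Set.Ioc (0 : ℝ) s))
  have h2 : ∀ v : ℝ, ∫⁻ w' : Path 4, (∫⁻ u in Set.Ioc (0 : ℝ) s,
      μ {w | dist (w u.toNNReal) (y - w' j + w' v.toNNReal) < 1}) ∂μ =
      ∫⁻ u in Set.Ioc (0 : ℝ) s, ∫⁻ w' : Path 4,
      μ {w | dist (w u.toNNReal) (y - w' j + w' v.toNNReal) < 1} ∂μ := by
    intro v
    rw [lintegral_lintegral_swap]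
    refine Measurable.aemeasurable ?_
    have : Measurable (fun q : Path 4 × ℝ => ((q.1, v), q.2)) := by fun_prop
    exact mk_congr (hg.comp this) fun q => rfl
  simp_rw [h2]
  have h3 : ∫⁻ v in Set.Ioc (0 : ℝ) (n : ℝ≥0), ∫⁻ u in Set.Ioc (0 : ℝ) s, ∫⁻ w' : Path 4,
      μ {w | dist (w u.toNNReal) (y - w' j + w' v.toNNReal) < 1} ∂μ ≤
      ∫⁻ v in Set.Ioc (0 : ℝ) (n : ℝ≥0),
        (C : ℝ≥0∞) * ENNReal.ofReal ((1 + |v - j|)⁻¹) := by
    refine setLIntegral_mono (by fun_prop) fun v hv => ?_
    calc ∫⁻ u in Set.Ioc (0 : ℝ) s, ∫⁻ w' : Path 4,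
          μ {w | dist (w u.toNNReal) (y - w' j + w' v.toNNReal) < 1} ∂μ
        ≤ ∫⁻ u in Set.Ioc (0 : ℝ) s,
          (C : ℝ≥0∞) * ENNReal.ofReal (((1 + u + |v - j|) ^ 2)⁻¹) := by
          refine setLIntegral_mono (by fun_prop) fun u hu => ?_
          exact hC u v j y hu.1.le hv.1.le
      _ = (C : ℝ≥0∞) * ∫⁻ u in Set.Ioc (0 : ℝ) s,
          ENNReal.ofReal (((1 + u + |v - j|) ^ 2)⁻¹) := by
          rw [lintegral_const_mul _ (by fun_prop)]
      _ ≤ _ := by
          refine mul_le_mul_right ?_ _
          exact mk_int1 (abs_nonneg _) s.2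
  refine h3.trans ?_
  rw [lintegral_const_mul _ (by fun_prop)]
  have h4 : ∫⁻ v in Set.Ioc (0 : ℝ) (n : ℝ≥0), ENNReal.ofReal ((1 + |v - j|)⁻¹) ≤
      ENNReal.ofReal (2 * Real.log (1 + (n : ℝ≥0))) :=
    mk_int2 j.2 (by exact_mod_cast hj)
  have h5 : 2 * Real.log (1 + ((n : ℝ≥0) : ℝ)) ≤ 4 * Real.log n := by
    have hn' : (2 : ℝ) ≤ n := by exact_mod_cast hn
    have a1 : Real.log (1 + ((n : ℝ≥0) : ℝ)) ≤ Real.log ((n : ℝ) ^ 2) := by
      refine Real.log_le_log (by positivity) ?_
      simp only [NNReal.coe_natCast]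
      nlinarith
    rw [Real.log_pow] at a1
    push_cast at a1 ⊢
    linarith
  calc (C : ℝ≥0∞) * ∫⁻ v in Set.Ioc (0 : ℝ) (n : ℝ≥0), ENNReal.ofReal ((1 + |v - j|)⁻¹)
      ≤ (C : ℝ≥0∞) * ENNReal.ofReal (4 * Real.log n) :=
        mul_le_mul_right (h4.trans (ENNReal.ofReal_le_ofReal h5)) _
    _ = ((C * 4 : ℝ≥0) : ℝ≥0∞) * ENNReal.ofReal (Real.log n) := by
        rw [ENNReal.ofReal_mul (by norm_num)]
        push_cast
        rw [ENNReal.ofReal_ofNat]
        ring

end WSP
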