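import Pool.Agent.Lib_MP_c175fd.Kbb
import Pool.Agent.Lib_MP_c175fd.MarkovK

/-!
# Pieces LOA, LOB, LOC, LOD, LOE: lower bound of `EV 1 n n` in dimension four

LOA: `Psi C ε K a n j w'` is an upper bound of `Phi n n w' y` for `‖y + w' j‖ ≤ ϖ`, whose mean is
`≤ (1 + 2 ε) cB log n`; it is also `≥ (1 - 3 ε) cB log n` with high probability, so it is rarely larger
than `(1 + √ε) cB log n`.

LOB (`lo_core`): for measurable sets `A j` of paths, let
`LTg w w' z = ∑_{j < n, w' ∈ A j} LT n 1 w (shift j w') (z + w' j)`. Its integral over `z` is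
`n |B| #{j < n | w' ∈ A j}`; it vanishes outside `⋃_{k<n} Fg A n k w w'` (if a pair of times
`(u, v)` with `u ∈ (k, k+1]`, `v ∈ (j, j+1]` contributes then `z ∈ Kbb k j`), and for `z ∈ Fg A n k` the times
`u ≤ k` do not contribute (except a null set), the times `u ∈ (k, k+1]` contribute at most
`LT 1 n (shift k w) w' (z - w k)` and the times `u > k + 1` at most
`LT (n-1-k) n (shift (k+1) w) w' (z - w (k+1))`. Take means and use `lintegral_future`, `Fg_stop`.

LOC (`lo_first`): `x ≤ B₀ + B₀⁻¹ x ^ 2` pointwise; the sets `Fg A n k` are disjoint subsets of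
`Kset 1 n n w w'`; translation invariance and `map_shift`.

LOD (`lo_second`): for `z ∈ Fg A n k` there is `j < n` with `w' ∈ A j`, `z ∈ Kbb k j`; if
`rg 1 (shift k w) ≤ (ϖ-1)/3` then `‖z - w (k+1) + w' j‖ ≤ ϖ` and `Phi (n-1-k) n ≤ Phi n n ≤ lam`. Otherwise
`∫_{Fg A n k} Phi n n w' (z - w (k+1)) dz ≤ ∑_{j<n} ∫_{‖y‖ ≤ 1 + 2 rg 1 (shift k w) + ϖ} Phi n n w' (y - w' j) dy`,
integrate over `w'` first (`lintegral_Phi_le`), `shift k w` is independent of `w'` and has law `μ`.

LOE: assembly, see the formulas in the docstrings of the statements: with `ϖ = (log n)^(1/16)`,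
`a = √(log n)`, `K = K₁ (ϖ + 1)`, `B₀ = √(log n)`, `lam = ofReal ((1 + √ε) log n) * cB`,
`A j = {w' | Psi j w' ≤ lam, rg 1 (shift j w') ≤ (ϖ-1)/3}` for `n^(1-ε) ≤ j ≤ n - n^(1-ε)`, empty otherwise:
`(1 - 8√ε) n^2 |B| ≤ (B₀ + lam) EV + C n^2 / B₀ + C n^2 log n (log n)^(-3)`; `|B| / cB = 2 π^2`.
-/

open MeasureTheory ProbabilityTheory Filter Topology
open scoped ENNReal NNReal

namespace WSP

variable {d : ℕ}

theorem lo_meas_pair (w w' : Path d) (z : E d) :
    MeasurableSet {p : ℝ × ℝ | dist (w p.1.toNNReal) (z + w' p.2.toNNReal) < 1} := by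
  have h1 : Continuous fun p : ℝ × ℝ => dist (w p.1.toNNReal) (z + w' p.2.toNNReal) := by
    have a1 : Continuous fun p : ℝ × ℝ => w p.1.toNNReal :=
      w.cont.comp (continuous_real_toNNReal.comp continuous_fst)
    have a2 : Continuous fun p : ℝ × ℝ => w' p.2.toNNReal :=
      w'.cont.comp (continuous_real_toNNReal.comp continuous_snd)
    exact a1.dist (continuous_const.add a2)
  exact (isOpen_lt h1 continuous_const).measurableSet

theorem lo_meas_inner (s : Set ℝ) (w w' : Path d) (z : E d) :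
    Measurable fun u : ℝ => ∫⁻ v in s,
      (@ite ℝ≥0∞ (dist (w u.toNNReal) (z + w' v.toNNReal) < 1) (Classical.propDecidable _) 1 0) := by
  classical
  have h : Measurable fun p : ℝ × ℝ =>
      (@ite ℝ≥0∞ (dist (w p.1.toNNReal) (z + w' p.2.toNNReal) < 1) (Classical.propDecidable _) 1 0) :=
    Measurable.ite (lo_meas_pair w w' z) measurable_const measurable_const
  exact h.lintegral_prod_right'

theorem lo_LT_split_right (s a b : ℝ≥0) (w w' : Path d) (z : E d) :
    LT s (a + b) w w' z = LT s a w w' z + LT s b w (shift a w') (z + w' a) := by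
  classical
  have key : ∀ u : ℝ, (∫⁻ v in Set.Ioc (0:ℝ) ((a + b : ℝ≥0) : ℝ),
        (@ite ℝ≥0∞ (dist (w u.toNNReal) (z + w' v.toNNReal) < 1) (Classical.propDecidable _) 1 0)) =
     (∫⁻ v in Set.Ioc (0:ℝ) a,
        (@ite ℝ≥0∞ (dist (w u.toNNReal) (z + w' v.toNNReal) < 1) (Classical.propDecidable _) 1 0)) +
     ∫⁻ v in Set.Ioc (0:ℝ) b, (@ite ℝ≥0∞ (dist (w u.toNNReal)
        (z + w' a + shift a w' v.toNNReal) < 1) (Classical.propDecidable _) 1 0) := by
    intro u
    have hab : (a:ℝ) ≤ ((a + b : ℝ≥0) : ℝ) := by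
      push_cast; have := b.coe_nonneg; linarith
    have hU : Set.Ioc (0:ℝ) ((a + b : ℝ≥0) : ℝ) =
        Set.Ioc 0 (a:ℝ) ∪ Set.Ioc (a:ℝ) ((a+b : ℝ≥0) : ℝ) :=
      (Set.Ioc_union_Ioc_eq_Ioc a.coe_nonneg hab).symm
    rw [hU, lintegral_union measurableSet_Ioc]
    · congr 1
      rw [← lintegral_indicator measurableSet_Ioc, ← lintegral_indicator measurableSet_Ioc,
        ← lintegral_add_left_eq_self _ (a:ℝ)]
      refine lintegral_congr fun v => ?_
      by_cases hv : v ∈ Set.Ioc (0:ℝ) b
      · have hv' : (a:ℝ) + v ∈ Set.Ioc (a:ℝ) ((a+b : ℝ≥0) : ℝ) := by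
          constructor
          · linarith [hv.1]
          · push_cast; linarith [hv.2]
        rw [Set.indicator_of_mem hv, Set.indicator_of_mem hv']
        have h1 : ((a:ℝ) + v).toNNReal = a + v.toNNReal := by
          rw [Real.toNNReal_add a.coe_nonneg hv.1.le, Real.toNNReal_coe]
        have h2 : z + w' a + shift a w' v.toNNReal = z + w' ((a:ℝ) + v).toNNReal := by
          rw [h1, shift_apply]; abel
        rw [h2]
      · have hv' : (a:ℝ) + v ∉ Set.Ioc (a:ℝ) ((a+b : ℝ≥0) : ℝ) := by
          intro hc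
          apply hv
          constructor
          · linarith [hc.1]
          · have := hc.2; push_cast at this; linarith
        rw [Set.indicator_of_notMem hv, Set.indicator_of_notMem hv']
    · rw [Set.disjoint_left]
      intro x hx hx'
      exact absurd hx.2 (not_le.2 hx'.1)
  unfold LT
  rw [← lintegral_add_left (lo_meas_inner _ w w' z)]
  exact lintegral_congr fun u => key u

theorem lo_LT_zero_right (s : ℝ≥0) (w w' : Path d) (z : E d) : LT s 0 w w' z = 0 := by
  unfold LT
  simp

theorem lo_LT_zero_left (t : ℝ≥0) (w w' : Path d) (z : E d) : LT 0 t w w' z = 0 := by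
  unfold LT
  simp

/-- Decomposition of the time of the second path into unit blocks. -/
theorem lo_LT_sum_right (s : ℝ≥0) (n : ℕ) (w w' : Path d) (z : E d) :
    ∑ j ∈ Finset.range n, LT s 1 w (shift j w') (z + w' j) = LT s n w w' z := by
  induction n with
  | zero => simp [lo_LT_zero_right]
  | succ n ih =>
    rw [Finset.sum_range_succ, ih, Nat.cast_succ, lo_LT_split_right]

/-- Membership in the blocks. -/
theorem lo_mem_Kset_iff {k : ℕ} (hk : 0 < k) (j : ℕ) (w w' : Path d) (z : E d) :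
    z + w' j ∈ Kset 1 k 1 w (shift j w') ↔ ∃ l < k, z ∈ Kbb l j w w' := by
  have h := Kset_blocks 1 k 1 1 1 hk one_pos w (shift j w')
  simp only [mul_one, Nat.cast_one] at h
  rw [h]
  simp only [Set.mem_iUnion, Set.mem_ofPred_eq, exists_prop]
  constructor
  · rintro ⟨i, hi, j', hj', hz⟩
    have : j' = 0 := by omega
    subst this
    refine ⟨i, hi, ?_⟩
    unfold Kbb
    simp only [Nat.cast_zero, shift_shift, Path.zero, add_zero, Set.mem_ofPred_eq] at hz ⊢
    have e1 : z - w i + w' j = z + w' j - w i := by abel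
    rw [e1]
    convert hz using 2
  · rintro ⟨l, hl, hz⟩
    refine ⟨l, hl, 0, one_pos, ?_⟩
    unfold Kbb at hz
    simp only [Nat.cast_zero, shift_shift, Path.zero, add_zero, Set.mem_ofPred_eq] at hz ⊢
    have e1 : z - w l + w' j = z + w' j - w l := by abel
    rw [e1] at hz
    convert hz using 2

theorem lo_LT_blocks {n k : ℕ} (hk : k < n) (A : ℕ → Set (Path d)) (w w' : Path d) (z : E d)
    (hmin : ∀ l < k, z ∉ Kg A n l w w') {j : ℕ} (hj : j < n) (hjA : w' ∈ A j) :
    LT n 1 w (shift j w') (z + w' j) =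
      LT 1 1 (shift k w) (shift j w') (z - w k + w' j) +
      LT ((n - 1 - k : ℕ) : ℝ≥0) 1 (shift (k + 1) w) (shift j w') (z - w (k + 1) + w' j) := by
  have hn : (n : ℝ≥0) = k + (1 + ((n - 1 - k : ℕ) : ℝ≥0)) := by
    have : n = k + (1 + (n - 1 - k)) := by omega
    exact_mod_cast this
  have h0 : LT (k : ℝ≥0) 1 w (shift j w') (z + w' j) = 0 := by
    rcases Nat.eq_zero_or_pos k with hk0 | hk0
    · subst hk0
      simp [lo_LT_zero_left]
    · apply LT_eq_zero
      rw [lo_mem_Kset_iff hk0]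
      rintro ⟨l, hl, hz⟩
      apply hmin l hl
      unfold Kg
      simp only [Set.mem_iUnion, exists_prop]
      exact ⟨j, hj, hjA, hz⟩
  conv_lhs => rw [hn]
  rw [LT_split, h0, zero_add, LT_split, shift_shift]
  have e1 : z + w' j - w k = z - w k + w' j := by abel
  have e2 : z + w' j - w k - shift k w 1 = z - w (k + 1) + w' j := by
    rw [shift_apply]; abel
  rw [e2, e1]

theorem lo_pointwise {n : ℕ} (hn : 0 < n) (A : ℕ → Set (Path d)) (w w' : Path d) (z : E d) :
    ∑ j ∈ Finset.range n, (A j).indicator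
        (fun w' : Path d => LT n 1 w (shift j w') (z + w' j)) w' ≤
      ∑ k ∈ Finset.range n, (Fg A n k w w').indicator
        (fun z => LT 1 n (shift k w) w' (z - w k) +
          LT ((n - 1 - k : ℕ) : ℝ≥0) n (shift (k + 1) w) w' (z - w (k + 1))) z := by
  classical
  by_cases hz : ∃ k, k < n ∧ z ∈ Kg A n k w w'
  · have hk := Nat.find_spec hz
    have hmin' := fun l (hl : l < Nat.find hz) => Nat.find_min hz hl
    set k := Nat.find hz with hkdef
    have hmin : ∀ l < k, z ∉ Kg A n l w w' := by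
      intro l hl hc
      exact hmin' l hl ⟨lt_trans hl hk.1, hc⟩
    have hF : z ∈ Fg A n k w w' := by
      refine ⟨hk.2, ?_⟩
      simp only [Set.mem_iUnion, exists_prop, not_exists, not_and]
      exact hmin
    refine le_trans ?_ (Finset.single_le_sum (f := fun k => (Fg A n k w w').indicator
        (fun z => LT 1 n (shift k w) w' (z - w k) +
          LT ((n - 1 - k : ℕ) : ℝ≥0) n (shift (k + 1) w) w' (z - w (k + 1))) z)
        (fun _ _ => zero_le) (Finset.mem_range.2 hk.1))
    simp only [Set.indicator_of_mem hF]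
    rw [← lo_LT_sum_right 1 n (shift k w) w' (z - w k),
      ← lo_LT_sum_right _ n (shift (k + 1) w) w' (z - w (k + 1)), ← Finset.sum_add_distrib]
    refine Finset.sum_le_sum fun j hj => ?_
    by_cases hjA : w' ∈ A j
    · rw [Set.indicator_of_mem hjA, lo_LT_blocks hk.1 A w w' z hmin (Finset.mem_range.1 hj) hjA]
    · rw [Set.indicator_of_notMem hjA]
      exact zero_le
  · push Not at hz
    refine le_trans (le_of_eq ?_) zero_le
    refine Finset.sum_eq_zero fun j hj => ?_
    by_cases hjA : w' ∈ A j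
    · rw [Set.indicator_of_mem hjA]
      apply LT_eq_zero
      rw [lo_mem_Kset_iff hn]
      rintro ⟨l, hl, hzl⟩
      apply hz l hl
      unfold Kg
      simp only [Set.mem_iUnion, exists_prop]
      exact ⟨j, Finset.mem_range.1 hj, hjA, hzl⟩
    · rw [Set.indicator_of_notMem hjA]

theorem lo_measurable_LT_comp {α : Type*} [MeasurableSpace α] (s n : ℝ≥0) {f g : α → Path d}
    {x : α → E d} (hf : Measurable f) (hg : Measurable g) (hx : Measurable x) :
    Measurable fun p => LT s n (f p) (g p) (x p) := by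
  have h1 : Measurable fun p : α => ((f p, g p, x p) : Path d × Path d × E d) :=
    hf.prodMk (hg.prodMk hx)
  have h2 : Measurable ((fun p : Path d × Path d × E d => LT s n p.1 p.2.1 p.2.2) ∘
      fun p : α => ((f p, g p, x p) : Path d × Path d × E d)) := (measurable_LT s n).comp h1
  exact h2

theorem lo_measurable_ind {A : ℕ → Set (Path d)} (hA : ∀ j, MeasurableSet (A j)) (n k : ℕ)
    (s : ℝ≥0) (a : ℝ≥0) :
    Measurable fun p : Path d × Path d × E d => (Fg A n k p.1 p.2.1).indicator
        (fun z => LT s n (shift a p.1) p.2.1 (z - p.1 a)) p.2.2 := by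
  have h1 : MeasurableSet {p : Path d × Path d × E d | p.2.2 ∈ Fg A n k p.1 p.2.1} := by
    have hm : Measurable fun p : Path d × Path d × E d => (p.2.2, p.1, p.2.1) := by fun_prop
    exact hm (measurableSet_Fg hA n k)
  have hs : Measurable fun p : Path d × Path d × E d => shift a p.1 :=
    (measurable_shift a).comp measurable_fst
  have hx : Measurable fun p : Path d × Path d × E d => p.2.2 - p.1 a :=
    (measurable_snd.comp measurable_snd).sub ((measurable_eval a).comp measurable_fst)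
  have h2 := lo_measurable_LT_comp s (n : ℝ≥0) hs (measurable_fst.comp measurable_snd) hx
  have e : (fun p : Path d × Path d × E d => (Fg A n k p.1 p.2.1).indicator
        (fun z => LT s n (shift a p.1) p.2.1 (z - p.1 a)) p.2.2) =
      {p : Path d × Path d × E d | p.2.2 ∈ Fg A n k p.1 p.2.1}.indicator
        (fun p => LT s n (shift a p.1) (((Prod.fst : Path d × E d → Path d) ∘ Prod.snd) p)
          (p.2.2 - p.1 a)) := by
    funext p
    by_cases hp : p.2.2 ∈ Fg A n k p.1 p.2.1
    · rw [Set.indicator_of_mem hp, Set.indicator_of_mem (by exact hp)]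
      rfl
    · rw [Set.indicator_of_notMem hp, Set.indicator_of_notMem (by exact hp)]
  rw [e]
  exact h2.indicator h1

theorem lo_prod {μ : Measure (Path d)} [SFinite μ] {G : Path d × Path d × E d → ℝ≥0∞}
    (hG : Measurable G) :
    ∫⁻ w, ∫⁻ w', ∫⁻ z, G (w, w', z) ∂volume ∂μ ∂μ = ∫⁻ p, G p ∂(μ.prod (μ.prod volume)) := by
  rw [lintegral_prod _ hG.aemeasurable]
  refine lintegral_congr fun w => ?_
  rw [lintegral_prod _ (by fun_prop)]

/-- Piece LOB. -/
theorem IsWiener.lo_core {μ : Measure (Path d)} (h : IsWiener μ) {n : ℕ} (hn : 0 < n)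
    {A : ℕ → Set (Path d)} (hA : ∀ j, MeasurableSet (A j)) :
    (n : ℝ≥0∞) * volume (Metric.ball (0 : E d) 1) * ∑ j ∈ Finset.range n, μ (A j) ≤
      (∑ k ∈ Finset.range n, ∫⁻ w, ∫⁻ w',
        (∫⁻ z in Fg A n k w w', LT 1 n (shift k w) w' (z - w k)) ∂μ ∂μ) +
      ∑ k ∈ Finset.range n, ∫⁻ w, ∫⁻ w',
        (∫⁻ z in Fg A n k w w', Phi μ ((n - 1 - k : ℕ) : ℝ≥0) n w' (z - w (k + 1))) ∂μ ∂μ := by
  have := h.isProb
  have hFm : ∀ (k : ℕ) (w w' : Path d), MeasurableSet (Fg A n k w w') := by
    intro k w w'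
    have hm : Measurable fun z : E d => (z, w, w') := by fun_prop
    exact hm (measurableSet_Fg hA n k)
  -- the mean of the local time on the left
  have hL : (n : ℝ≥0∞) * volume (Metric.ball (0 : E d) 1) * ∑ j ∈ Finset.range n, μ (A j) =
      ∫⁻ w, ∫⁻ w', ∫⁻ z, (∑ j ∈ Finset.range n, (A j).indicator
        (fun w' : Path d => LT n 1 w (shift j w') (z + w' j)) w') ∂volume ∂μ ∂μ := by
    have h1 : ∀ w w' : Path d, ∫⁻ z, (∑ j ∈ Finset.range n, (A j).indicator
        (fun w' : Path d => LT n 1 w (shift j w') (z + w' j)) w') =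
        ∑ j ∈ Finset.range n, (A j).indicator
          (fun _ => (n : ℝ≥0∞) * volume (Metric.ball (0 : E d) 1)) w' := by
      intro w w'
      rw [lintegral_finsetSum']
      · refine Finset.sum_congr rfl fun j _ => ?_
        by_cases hj : w' ∈ A j
        · simp only [Set.indicator_of_mem hj]
          rw [lintegral_add_right_eq_self (fun z => LT n 1 w (shift j w') z), lintegral_LT]
          simp
        · simp only [Set.indicator_of_notMem hj, lintegral_zero]
      · intro j _
        by_cases hj : w' ∈ A j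
        · simp only [Set.indicator_of_mem hj]
          have hm : Measurable fun z : E d => ((w, shift j w', z + w' j) : Path d × Path d × E d) := by
            fun_prop
          exact ((measurable_LT n 1).comp hm).aemeasurable
        · simp only [Set.indicator_of_notMem hj]
          exact aemeasurable_const
    simp only [h1]
    rw [lintegral_const, measure_univ, mul_one, lintegral_finsetSum]
    · rw [Finset.mul_sum]
      refine Finset.sum_congr rfl fun j _ => ?_
      rw [lintegral_indicator_const (hA j)]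
    · intro j _
      exact measurable_const.indicator (hA j)
  rw [hL]
  -- pointwise bound
  have hle : (∫⁻ w, ∫⁻ w', ∫⁻ z, (∑ j ∈ Finset.range n, (A j).indicator
        (fun w' : Path d => LT n 1 w (shift j w') (z + w' j)) w') ∂volume ∂μ ∂μ) ≤
      ∫⁻ w, ∫⁻ w', ∫⁻ z, (∑ k ∈ Finset.range n,
        ((Fg A n k w w').indicator (fun z => LT 1 n (shift k w) w' (z - w k)) z +
        (Fg A n k w w').indicator (fun z => LT ((n - 1 - k : ℕ) : ℝ≥0) n (shift (k + 1) w) w'
          (z - w (k + 1))) z)) ∂volume ∂μ ∂μ := by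
    refine lintegral_mono fun w => lintegral_mono fun w' => lintegral_mono fun z => ?_
    refine (lo_pointwise hn A w w' z).trans (le_of_eq ?_)
    refine Finset.sum_congr rfl fun k _ => ?_
    by_cases hz : z ∈ Fg A n k w w'
    · simp only [Set.indicator_of_mem hz]
    · simp only [Set.indicator_of_notMem hz, add_zero]
  refine hle.trans (le_of_eq ?_)
  let GA : ℕ → Path d × Path d × E d → ℝ≥0∞ := fun k p =>
    (Fg A n k p.1 p.2.1).indicator (fun z => LT 1 n (shift k p.1) p.2.1 (z - p.1 k)) p.2.2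
  let GB : ℕ → Path d × Path d × E d → ℝ≥0∞ := fun k p =>
    (Fg A n k p.1 p.2.1).indicator (fun z => LT ((n - 1 - k : ℕ) : ℝ≥0) n
          (shift (k + 1) p.1) p.2.1 (z - p.1 (k + 1))) p.2.2
  have hmA : ∀ k, Measurable (GA k) := fun k => lo_measurable_ind hA n k 1 (k : ℝ≥0)
  have hmB : ∀ k, Measurable (GB k) :=
    fun k => lo_measurable_ind hA n k ((n - 1 - k : ℕ) : ℝ≥0) ((k : ℝ≥0) + 1)
  have hm : Measurable fun p => ∑ k ∈ Finset.range n, (GA k p + GB k p) :=
    Finset.measurable_sum _ fun k _ => (hmA k).add (hmB k)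
  have hA' : ∀ k, ∫⁻ p, GA k p ∂(μ.prod (μ.prod volume)) = ∫⁻ w, ∫⁻ w',
        (∫⁻ z in Fg A n k w w', LT 1 n (shift k w) w' (z - w k)) ∂μ ∂μ := by
    intro k
    rw [← lo_prod (hmA k)]
    refine lintegral_congr fun w => lintegral_congr fun w' => ?_
    exact lintegral_indicator (hFm k w w') _
  have hB' : ∀ k, ∫⁻ p, GB k p ∂(μ.prod (μ.prod volume)) = ∫⁻ w, ∫⁻ w',
        (∫⁻ z in Fg A n k w w', Phi μ ((n - 1 - k : ℕ) : ℝ≥0) n w' (z - w (k + 1))) ∂μ ∂μ := by
    intro k
    have hfut := h.lintegral_future ((k : ℝ≥0) + 1) ((n - 1 - k : ℕ) : ℝ≥0) n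
      (measurableSet_Fg hA n k)
    have e : ∀ w w' : Path d, {z | (z, stop ((k : ℝ≥0) + 1) w, w') ∈
        {p : E d × Path d × Path d | p.1 ∈ Fg A n k p.2.1 p.2.2}} = Fg A n k w w' := by
      intro w w'
      ext z
      simp only [Set.mem_ofPred_eq]
      rw [Fg_stop]
    simp only [e] at hfut
    rw [← hfut, ← lo_prod (hmB k)]
    refine lintegral_congr fun w => lintegral_congr fun w' => ?_
    exact lintegral_indicator (hFm k w w') _
  calc _ = ∫⁻ p, (∑ k ∈ Finset.range n, (GA k p + GB k p)) ∂(μ.prod (μ.prod volume)) := lo_prod hm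
    _ = ∑ k ∈ Finset.range n, ∫⁻ p, (GA k p + GB k p) ∂(μ.prod (μ.prod volume)) :=
        lintegral_finsetSum _ (fun k _ => (hmA k).add (hmB k))
    _ = ∑ k ∈ Finset.range n, ((∫⁻ w, ∫⁻ w',
        (∫⁻ z in Fg A n k w w', LT 1 n (shift k w) w' (z - w k)) ∂μ ∂μ) + ∫⁻ w, ∫⁻ w',
        (∫⁻ z in Fg A n k w w', Phi μ ((n - 1 - k : ℕ) : ℝ≥0) n w' (z - w (k + 1))) ∂μ ∂μ) := by
        refine Finset.sum_congr rfl fun k _ => ?_
        rw [lintegral_add_left (hmA k), hA', hB']
    _ = _ := Finset.sum_add_distrib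

end WSP
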