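import Pool.Agent.Lib_MP_c175fd.Kbb

/-!
# Pieces LOA, LOB, LOC, LOD, LOE: lower bound of `EV 1 n n` in dimension four

LOA: `Psi C ε K a n j w'` is an upper bound of `Phi n n w' y` for `‖y + w' j‖ ≤ ϖ`, whose mean is
`≤ (1 + 2 ε) cB log n`; it is also `≥ (1 - 3 ε) cB log n` with high probability, so it is rarely larger
than `(1 + √ε) cB log n`.

LOB (`lo_core`): for measurable sets `A j` of paths, let
`LTg w w' z = ∑_{j < n, w' ∈ A j} LT n 1 w (shift j w') (z + w' j)`. Its integral over `z` is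
`n |B| #{j < n | w' ∈ A j}`; it vanishes outside `⋃_{k<n} Fg A n k w w'` (if a pair of times
`(u, v)` with `u ∈ (k, k+1]`, `v ∈ (j, j+1]` contributes then `z ∈ Kbb k j`), and for `z ∈ Fg A n k` the times
`u ≤ k` do not contribute (except a null set), the times `u ∈ (k, k+1]` contribute at most
`LT 1 n (shift k w) w' (z - w k)` and the times `u > k + 1` at most
`LT (n-1-k) n (shift (k+1) w) w' (z - w (k+1))`. Take means and use `lintegral_future`, `Fg_stop`.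

LOC (`lo_first`): `x ≤ B₀ + B₀⁻¹ x ^ 2` pointwise; the sets `Fg A n k` are disjoint subsets of
`Kset 1 n n w w'`; translation invariance and `map_shift`.

LOD (`lo_second`): for `z ∈ Fg A n k` there is `j < n` with `w' ∈ A j`, `z ∈ Kbb k j`; if
`rg 1 (shift k w) ≤ (ϖ-1)/3` then `‖z - w (k+1) + w' j‖ ≤ ϖ` and `Phi (n-1-k) n ≤ Phi n n ≤ lam`. Otherwise
`∫_{Fg A n k} Phi n n w' (z - w (k+1)) dz ≤ ∑_{j<n} ∫_{‖y‖ ≤ 1 + 2 rg 1 (shift k w) + ϖ} Phi n n w' (y - w' j) dy`,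
integrate over `w'` first (`lintegral_Phi_le`), `shift k w` is independent of `w'` and has law `μ`.

LOE: assembly, see the formulas in the docstrings of the statements: with `ϖ = (log n)^(1/16)`,
`a = √(log n)`, `K = K₁ (ϖ + 1)`, `B₀ = √(log n)`, `lam = ofReal ((1 + √ε) log n) * cB`,
`A j = {w' | Psi j w' ≤ lam, rg 1 (shift j w') ≤ (ϖ-1)/3}` for `n^(1-ε) ≤ j ≤ n - n^(1-ε)`, empty otherwise:
`(1 - 8√ε) n^2 |B| ≤ (B₀ + lam) EV + C n^2 / B₀ + C n^2 log n (log n)^(-3)`; `|B| / cB = 2 π^2`.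
-/

open MeasureTheory ProbabilityTheory Filter Topology
open scoped ENNReal NNReal

namespace WSP

variable {d : ℕ}

private theorem loc_Kbb_subset {n k j : ℕ} (hk : k < n) (hj : j < n) (w w' : Path d) :
    Kbb k j w w' ⊆ Kset 1 n n w w' := by
  rintro z ⟨u, hu, v, hv, hd⟩
  have e1 : (k : ℝ≥0) + u ≤ n := by
    calc (k : ℝ≥0) + u ≤ k + 1 := by gcongr
      _ ≤ n := by exact_mod_cast hk
  have e2 : (j : ℝ≥0) + v ≤ n := by
    calc (j : ℝ≥0) + v ≤ j + 1 := by gcongr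
      _ ≤ n := by exact_mod_cast hj
  refine ⟨k + u, e1, j + v, e2, ?_⟩
  rw [shift_apply, shift_apply] at hd
  have e3 : dist (w (k + u) - w k) (z - w k + w' j + (w' (j + v) - w' j)) =
      dist (w (k + u)) (z + w' (j + v)) := by
    rw [dist_eq_norm, dist_eq_norm]; congr 1; abel
  rwa [e3] at hd

private theorem loc_sq_bound {B₀ : ℝ≥0} (hB : 0 < B₀) (x : ℝ≥0∞) :
    x ≤ (B₀ : ℝ≥0∞) + (B₀ : ℝ≥0∞)⁻¹ * x ^ 2 := by
  have hB1 : (B₀ : ℝ≥0∞) ≠ 0 := by exact_mod_cast hB.ne'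
  rcases le_total x B₀ with h | h
  · exact h.trans (self_le_add_right _ _)
  · refine le_trans ?_ (self_le_add_left _ _)
    calc x = (B₀ : ℝ≥0∞)⁻¹ * (B₀ : ℝ≥0∞) * x := by
          rw [ENNReal.inv_mul_cancel hB1 ENNReal.coe_ne_top, one_mul]
      _ ≤ (B₀ : ℝ≥0∞)⁻¹ * x * x := by gcongr
      _ = (B₀ : ℝ≥0∞)⁻¹ * x ^ 2 := by rw [sq, mul_assoc]

private theorem loc_disjoint (A : ℕ → Set (Path d)) (n : ℕ) (w w' : Path d) {k l : ℕ} (h : k < l) :
    Disjoint (Fg A n k w w') (Fg A n l w w') := by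
  rw [Set.disjoint_left]
  rintro z ⟨h1, _⟩ ⟨_, h2⟩
  apply h2
  simp only [Set.mem_iUnion]
  exact ⟨k, h, h1⟩

private theorem loc_meas_sec {A : ℕ → Set (Path d)} (hA : ∀ j, MeasurableSet (A j)) (n k : ℕ)
    (w w' : Path d) : MeasurableSet (Fg A n k w w') := by
  have h := measurableSet_Fg hA n k
  exact (measurable_id.prodMk measurable_const : Measurable (fun z : E d => (z, (w, w')))) h

private theorem loc_sum_le {A : ℕ → Set (Path d)} (hA : ∀ j, MeasurableSet (A j)) (n : ℕ)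
    (w w' : Path d) : ∑ k ∈ Finset.range n, volume (Fg A n k w w') ≤ Vol 1 n n w w' := by
  rw [← measure_biUnion_finset]
  · unfold Vol
    apply measure_mono
    intro z hz
    simp only [Set.mem_iUnion, Finset.mem_range, exists_prop] at hz
    obtain ⟨k, hk, hz1, _⟩ := hz
    unfold Kg at hz1
    simp only [Set.mem_iUnion, exists_prop] at hz1
    obtain ⟨j, hj, _, hz2⟩ := hz1
    exact loc_Kbb_subset hk hj w w' hz2
  · intro k _ l _ hkl
    rcases lt_or_gt_of_ne hkl with h | h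
    · exact loc_disjoint A n w w' h
    · exact (loc_disjoint A n w w' h).symm
  · intro k _
    exact loc_meas_sec hA n k w w'

private theorem loc_sec {F : Path d → Path d → ℝ≥0∞}
    (hF : Measurable (fun p : Path d × Path d => F p.1 p.2)) (w : Path d) : Measurable (F w) :=
  hF.comp (measurable_prodMk_left (x := w))

private theorem loc_int {μ : Measure (Path d)} [SFinite μ] {F : Path d → Path d → ℝ≥0∞}
    (hF : Measurable (fun p : Path d × Path d => F p.1 p.2)) :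
    Measurable (fun w => ∫⁻ w', F w w' ∂μ) :=
  hF.lintegral_prod_right'

private theorem loc_meas_LT (s t : ℝ≥0) (a b : Path d) (c : E d) :
    Measurable (fun z : E d => LT s t a b (z - c)) := by
  have h2 : Measurable (fun z : E d => (a, b, z - c)) :=
    measurable_const.prodMk (measurable_const.prodMk (measurable_id.sub_const c))
  have h3 := (measurable_LT s t).comp h2
  simpa only [Function.comp_def] using h3

private theorem loc_meas_G (s t : ℝ≥0) :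
    Measurable (fun p : Path d × Path d => ∫⁻ z, (LT s t p.1 p.2 z) ^ 2) := by
  have h2 : Measurable (fun q : (Path d × Path d) × E d => (q.1.1, q.1.2, q.2)) :=
    (measurable_fst.comp measurable_fst).prodMk
      ((measurable_snd.comp measurable_fst).prodMk measurable_snd)
  have h3 := ((measurable_LT s t).comp h2).pow_const 2
  have h4 : Measurable (fun q : (Path d × Path d) × E d => (LT s t q.1.1 q.1.2 q.2) ^ 2) := by
    simpa only [Function.comp_def] using h3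
  exact h4.lintegral_prod_right'

/-- Piece LOC. -/
theorem IsWiener.lo_first {μ : Measure (Path d)} (h : IsWiener μ) {n : ℕ} (hn : 0 < n)
    {A : ℕ → Set (Path d)} (hA : ∀ j, MeasurableSet (A j)) {B₀ : ℝ≥0} (hB : 0 < B₀) :
    (∑ k ∈ Finset.range n, ∫⁻ w, ∫⁻ w',
        (∫⁻ z in Fg A n k w w', LT 1 n (shift k w) w' (z - w k)) ∂μ ∂μ) ≤
      (B₀ : ℝ≥0∞) * EV μ 1 n n +
        (B₀ : ℝ≥0∞)⁻¹ * n * ∫⁻ w, ∫⁻ w', (∫⁻ z, (LT 1 n w w' z) ^ 2) ∂μ ∂μ := by
  have := h.isProb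
  -- the second moment functional
  let G : Path d → Path d → ℝ≥0∞ := fun w w' => ∫⁻ z, (LT 1 n w w' z) ^ 2
  have hG : Measurable (fun p : Path d × Path d => G p.1 p.2) := loc_meas_G 1 (n : ℝ≥0)
  have hG2 : Measurable (fun w : Path d => ∫⁻ w', G w w' ∂μ) := loc_int hG
  have hvol0 : ∀ k, Measurable (fun p : Path d × Path d => volume (Fg A n k p.1 p.2)) := by
    intro k
    exact measurable_measure_prodMk_right (measurableSet_Fg hA n k)
  obtain ⟨W, hW⟩ : ∃ W : ℕ → Path d → Path d → ℝ≥0∞, W = fun k w w' => volume (Fg A n k w w') :=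
    ⟨_, rfl⟩
  have hWe : ∀ k w w', volume (Fg A n k w w') = W k w w' := fun k w w' => by rw [hW]
  have hvol : ∀ k, Measurable (fun p : Path d × Path d => W k p.1 p.2) := by
    intro k
    rw [hW]
    exact hvol0 k
  -- pointwise bound
  have hpt : ∀ k : ℕ, ∀ w w' : Path d,
      ∫⁻ z in Fg A n k w w', LT 1 n (shift k w) w' (z - w k) ≤
        (B₀ : ℝ≥0∞) * volume (Fg A n k w w') + (B₀ : ℝ≥0∞)⁻¹ * G (shift k w) w' := by
    intro k w w'
    have hm : Measurable (fun z : E d => LT 1 n (shift k w) w' (z - w k)) :=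
      loc_meas_LT 1 (n : ℝ≥0) (shift k w) w' (w k)
    calc ∫⁻ z in Fg A n k w w', LT 1 n (shift k w) w' (z - w k)
        ≤ ∫⁻ z in Fg A n k w w', ((B₀ : ℝ≥0∞) +
            (B₀ : ℝ≥0∞)⁻¹ * (LT 1 n (shift k w) w' (z - w k)) ^ 2) :=
          lintegral_mono fun z => loc_sq_bound hB _
      _ = (B₀ : ℝ≥0∞) * volume (Fg A n k w w') + (B₀ : ℝ≥0∞)⁻¹ *
            ∫⁻ z in Fg A n k w w', (LT 1 n (shift k w) w' (z - w k)) ^ 2 := by
          rw [lintegral_add_left measurable_const, setLIntegral_const,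
            lintegral_const_mul _ (hm.pow_const 2)]
      _ ≤ (B₀ : ℝ≥0∞) * volume (Fg A n k w w') + (B₀ : ℝ≥0∞)⁻¹ *
            ∫⁻ z, (LT 1 n (shift k w) w' (z - w k)) ^ 2 := by
          gcongr
          exact Measure.restrict_le_self
      _ = (B₀ : ℝ≥0∞) * volume (Fg A n k w w') + (B₀ : ℝ≥0∞)⁻¹ * G (shift k w) w' := by
          rw [lintegral_sub_right_eq_self (fun z => (LT 1 n (shift k w) w' z) ^ 2) (w k)]
  have hshift : ∀ k : ℕ, ∫⁻ w, ∫⁻ w', G (shift k w) w' ∂μ ∂μ = ∫⁻ w, ∫⁻ w', G w w' ∂μ ∂μ := by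
    intro k
    have e := lintegral_map (μ := μ) hG2 (measurable_shift (k : ℝ≥0))
    rw [h.map_shift] at e
    exact e.symm
  have hsum : ∀ w w', ∑ k ∈ Finset.range n, W k w w' ≤ Vol 1 n n w w' := by
    intro w w'
    rw [hW]
    exact loc_sum_le hA n w w'
  simp only [hWe] at hpt
  change _ ≤ (B₀ : ℝ≥0∞) * EV μ 1 n n + (B₀ : ℝ≥0∞)⁻¹ * n * ∫⁻ w, ∫⁻ w', G w w' ∂μ ∂μ
  clear_value G
  clear hvol0 hWe hW
  have hstep : ∀ k : ℕ, ∫⁻ w, ∫⁻ w',
      (∫⁻ z in Fg A n k w w', LT 1 n (shift k w) w' (z - w k)) ∂μ ∂μ ≤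
      (B₀ : ℝ≥0∞) * (∫⁻ w, ∫⁻ w', W k w w' ∂μ ∂μ) +
        (B₀ : ℝ≥0∞)⁻¹ * ∫⁻ w, ∫⁻ w', G w w' ∂μ ∂μ := by
    intro k
    have hv1 : ∀ w : Path d, Measurable (fun w' => W k w w') := fun w => loc_sec (hvol k) w
    have hv2 : Measurable (fun w : Path d => ∫⁻ w', W k w w' ∂μ) := loc_int (hvol k)
    have hg1 : ∀ w : Path d, Measurable (fun w' => G (shift k w) w') := fun w =>
      loc_sec hG (shift k w)
    have hg2 : Measurable (fun w : Path d => ∫⁻ w', G (shift k w) w' ∂μ) :=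
      hG2.comp (measurable_shift (k : ℝ≥0))
    calc ∫⁻ w, ∫⁻ w', (∫⁻ z in Fg A n k w w', LT 1 n (shift k w) w' (z - w k)) ∂μ ∂μ
        ≤ ∫⁻ w, ∫⁻ w', ((B₀ : ℝ≥0∞) * W k w w' +
            (B₀ : ℝ≥0∞)⁻¹ * G (shift k w) w') ∂μ ∂μ :=
          lintegral_mono fun w => lintegral_mono fun w' => hpt k w w'
      _ = ∫⁻ w, ((B₀ : ℝ≥0∞) * (∫⁻ w', W k w w' ∂μ) +
            (B₀ : ℝ≥0∞)⁻¹ * ∫⁻ w', G (shift k w) w' ∂μ) ∂μ := by
          refine lintegral_congr fun w => ?_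
          rw [lintegral_add_left ((hv1 w).const_mul _), lintegral_const_mul _ (hv1 w),
            lintegral_const_mul _ (hg1 w)]
      _ = (B₀ : ℝ≥0∞) * (∫⁻ w, ∫⁻ w', W k w w' ∂μ ∂μ) +
            (B₀ : ℝ≥0∞)⁻¹ * ∫⁻ w, ∫⁻ w', G (shift k w) w' ∂μ ∂μ := by
          rw [lintegral_add_left (hv2.const_mul _), lintegral_const_mul _ hv2,
            lintegral_const_mul _ hg2]
      _ = _ := by rw [hshift k]
  calc (∑ k ∈ Finset.range n, ∫⁻ w, ∫⁻ w',
        (∫⁻ z in Fg A n k w w', LT 1 n (shift k w) w' (z - w k)) ∂μ ∂μ)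
      ≤ ∑ k ∈ Finset.range n, ((B₀ : ℝ≥0∞) * (∫⁻ w, ∫⁻ w', W k w w' ∂μ ∂μ) +
        (B₀ : ℝ≥0∞)⁻¹ * ∫⁻ w, ∫⁻ w', G w w' ∂μ ∂μ) := Finset.sum_le_sum fun k _ => hstep k
    _ = (B₀ : ℝ≥0∞) * (∑ k ∈ Finset.range n, ∫⁻ w, ∫⁻ w', W k w w' ∂μ ∂μ) +
        (B₀ : ℝ≥0∞)⁻¹ * n * ∫⁻ w, ∫⁻ w', G w w' ∂μ ∂μ := by
        rw [Finset.sum_add_distrib, ← Finset.mul_sum, Finset.sum_const, Finset.card_range, nsmul_eq_mul]
        congr 1
        ring
    _ = (B₀ : ℝ≥0∞) * (∫⁻ w, ∫⁻ w', (∑ k ∈ Finset.range n, W k w w') ∂μ ∂μ) +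
        (B₀ : ℝ≥0∞)⁻¹ * n * ∫⁻ w, ∫⁻ w', G w w' ∂μ ∂μ := by
        congr 2
        rw [← lintegral_finsetSum _ (fun k _ => loc_int (hvol k))]
        refine lintegral_congr fun w => ?_
        rw [lintegral_finsetSum _ (fun k _ => loc_sec (hvol k) w)]
    _ ≤ (B₀ : ℝ≥0∞) * EV μ 1 n n + (B₀ : ℝ≥0∞)⁻¹ * n * ∫⁻ w, ∫⁻ w', G w w' ∂μ ∂μ := by
        unfold EV
        refine add_le_add (mul_le_mul_right ?_ _) le_rfl
        exact lintegral_mono fun w => lintegral_mono fun w' => hsum w w'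

end WSP
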