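import Pool.Agent.Lib_MP_c175fd.Kbb

/-!
# Pieces LOA, LOB, LOC, LOD, LOE: lower bound of `EV 1 n n` in dimension four

LOA: `Psi C ε K a n j w'` is an upper bound of `Phi n n w' y` for `‖y + w' j‖ ≤ ϖ`, whose mean is
`≤ (1 + 2 ε) cB log n`; it is also `≥ (1 - 3 ε) cB log n` with high probability, so it is rarely larger
than `(1 + √ε) cB log n`.

LOB (`lo_core`): for measurable sets `A j` of paths, let
`LTg w w' z = ∑_{j < n, w' ∈ A j} LT n 1 w (shift j w') (z + w' j)`. Its integral over `z` is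
`n |B| #{j < n | w' ∈ A j}`; it vanishes outside `⋃_{k<n} Fg A n k w w'` (if a pair of times
`(u, v)` with `u ∈ (k, k+1]`, `v ∈ (j, j+1]` contributes then `z ∈ Kbb k j`), and for `z ∈ Fg A n k` the times
`u ≤ k` do not contribute (except a null set), the times `u ∈ (k, k+1]` contribute at most
`LT 1 n (shift k w) w' (z - w k)` and the times `u > k + 1` at most
`LT (n-1-k) n (shift (k+1) w) w' (z - w (k+1))`. Take means and use `lintegral_future`, `Fg_stop`.

LOC (`lo_first`): `x ≤ B₀ + B₀⁻¹ x ^ 2` pointwise; the sets `Fg A n k` are disjoint subsets of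
`Kset 1 n n w w'`; translation invariance and `map_shift`.

LOD (`lo_second`): for `z ∈ Fg A n k` there is `j < n` with `w' ∈ A j`, `z ∈ Kbb k j`; if
`rg 1 (shift k w) ≤ (ϖ-1)/3` then `‖z - w (k+1) + w' j‖ ≤ ϖ` and `Phi (n-1-k) n ≤ Phi n n ≤ lam`. Otherwise
`∫_{Fg A n k} Phi n n w' (z - w (k+1)) dz ≤ ∑_{j<n} ∫_{‖y‖ ≤ 1 + 2 rg 1 (shift k w) + ϖ} Phi n n w' (y - w' j) dy`,
integrate over `w'` first (`lintegral_Phi_le`), `shift k w` is independent of `w'` and has law `μ`.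

LOE: assembly, see the formulas in the docstrings of the statements: with `ϖ = (log n)^(1/16)`,
`a = √(log n)`, `K = K₁ (ϖ + 1)`, `B₀ = √(log n)`, `lam = ofReal ((1 + √ε) log n) * cB`,
`A j = {w' | Psi j w' ≤ lam, rg 1 (shift j w') ≤ (ϖ-1)/3}` for `n^(1-ε) ≤ j ≤ n - n^(1-ε)`, empty otherwise:
`(1 - 8√ε) n^2 |B| ≤ (B₀ + lam) EV + C n^2 / B₀ + C n^2 log n (log n)^(-3)`; `|B| / cB = 2 π^2`.
-/

open MeasureTheory ProbabilityTheory Filter Topology
open scoped ENNReal NNReal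

namespace WSP

variable {d : ℕ}

/-- Superadditivity of the lower integral over a finite sum, no measurability. -/
theorem LOD_sum_lintegral_le {α : Type*} [MeasurableSpace α] (ν : Measure α) (s : Finset ℕ)
    (f : ℕ → α → ℝ≥0∞) : ∑ k ∈ s, ∫⁻ a, f k a ∂ν ≤ ∫⁻ a, ∑ k ∈ s, f k a ∂ν := by
  classical
  induction s using Finset.induction_on with
  | empty => simp
  | insert k s hk ih =>
    rw [Finset.sum_insert hk]
    calc ∫⁻ a, f k a ∂ν + ∑ l ∈ s, ∫⁻ a, f l a ∂ν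
        ≤ ∫⁻ a, f k a ∂ν + ∫⁻ a, ∑ l ∈ s, f l a ∂ν := by gcongr
      _ ≤ ∫⁻ a, (f k a + ∑ l ∈ s, f l a) ∂ν := le_lintegral_add _ _
      _ = ∫⁻ a, ∑ l ∈ insert k s, f l a ∂ν := by
          refine lintegral_congr fun a => ?_
          rw [Finset.sum_insert hk]

theorem LOD_Kbb_subset {k j n : ℕ} (hk : k < n) (hj : j < n) (w w' : Path d) :
    Kbb k j w w' ⊆ Kset 1 n n w w' := by
  intro z hz
  obtain ⟨u, hu, v, hv, huv⟩ := hz
  refine ⟨(k : ℝ≥0) + u, ?_, (j : ℝ≥0) + v, ?_, ?_⟩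
  · calc (k : ℝ≥0) + u ≤ k + 1 := by gcongr
      _ ≤ n := by exact_mod_cast hk
  · calc (j : ℝ≥0) + v ≤ j + 1 := by gcongr
      _ ≤ n := by exact_mod_cast hj
  · have h1 : dist (w ((k : ℝ≥0) + u)) (z + w' ((j : ℝ≥0) + v)) =
        dist (shift k w u) (z - w k + w' j + shift j w' v) := by
      rw [shift_apply, shift_apply, dist_eq_norm, dist_eq_norm]
      congr 1
      abel
    rw [h1]
    exact huv

theorem LOD_Fg_subset {A : ℕ → Set (Path d)} {k n : ℕ} (hk : k < n) (w w' : Path d) :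
    Fg A n k w w' ⊆ Kset 1 n n w w' := by
  intro z hz
  have h1 := hz.1
  simp only [Kg, Set.mem_iUnion] at h1
  obtain ⟨j, hj, -, hz'⟩ := h1
  exact LOD_Kbb_subset hk hj w w' hz'

theorem LOD_Fg_disjoint {A : ℕ → Set (Path d)} {n : ℕ} (w w' : Path d) :
    Pairwise (Function.onFun Disjoint fun k => Fg A n k w w') := by
  intro k l hkl
  rw [Function.onFun, Set.disjoint_left]
  intro z hz hz'
  rcases lt_or_gt_of_ne hkl with h | h
  · apply hz'.2
    simp only [Set.mem_iUnion]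
    exact ⟨k, h, hz.1⟩
  · apply hz.2
    simp only [Set.mem_iUnion]
    exact ⟨l, h, hz'.1⟩

theorem LOD_measurableSet_Fg_sec {A : ℕ → Set (Path d)} (hA : ∀ j, MeasurableSet (A j)) (n k : ℕ)
    (w w' : Path d) : MeasurableSet (Fg A n k w w') := by
  have h := measurableSet_Fg hA n k
  have h1 : Measurable (fun z : E d => (z, w, w')) := by fun_prop
  exact h1 h

theorem LOD_sum_volume_le {A : ℕ → Set (Path d)} (hA : ∀ j, MeasurableSet (A j)) (n : ℕ)
    (w w' : Path d) :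
    ∑ k ∈ Finset.range n, volume (Fg A n k w w') ≤ Vol 1 n n w w' := by
  rw [← measure_biUnion_finset (fun k _ l _ hkl => LOD_Fg_disjoint w w' hkl)
    (fun k _ => LOD_measurableSet_Fg_sec hA n k w w')]
  unfold Vol
  apply measure_mono
  intro z hz
  simp only [Set.mem_iUnion] at hz
  obtain ⟨k, hk, hz⟩ := hz
  exact LOD_Fg_subset (Finset.mem_range.1 hk) w w' hz

theorem LOD_Phi_mono {μ : Measure (Path d)} {s s' n : ℝ≥0} (hs : s ≤ s') (w' : Path d) (y : E d) :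
    Phi μ s n w' y ≤ Phi μ s' n w' y :=
  lintegral_mono fun w => LT_mono hs le_rfl w w' y

theorem LOD_volume_ball {R : ℝ≥0∞} (hR : R ≠ ∞) :
    volume {y : E 4 | ‖y‖ₑ ≤ R} = R ^ 4 * volume (Metric.ball (0 : E 4) 1) := by
  have h1 : {y : E 4 | ‖y‖ₑ ≤ R} = Metric.closedBall (0 : E 4) R.toReal := by
    ext y
    simp only [Set.mem_ofPred_eq, Metric.mem_closedBall, dist_zero_right]
    rw [← ofReal_norm, ENNReal.ofReal_le_iff_le_toReal hR]
  rw [h1, Measure.addHaar_closedBall _ _ ENNReal.toReal_nonneg, finrank_euclideanSpace_fin,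
    ENNReal.ofReal_pow ENNReal.toReal_nonneg, ENNReal.ofReal_toReal hR]

/-- First case. -/
theorem LOD_case_a {μ : Measure (Path 4)} {n k : ℕ} (hk : k < n)
    {A : ℕ → Set (Path 4)} (hA : ∀ j, MeasurableSet (A j)) {ϖ : ℝ} (hϖ : 1 ≤ ϖ) {lam : ℝ≥0∞}
    (hlam : ∀ j < n, ∀ w' ∈ A j, ∀ y : E 4, ‖y + w' j‖ ≤ ϖ → Phi μ n n w' y ≤ lam)
    (hrg : ∀ j < n, ∀ w' ∈ A j, rg 1 (shift j w') ≤ ENNReal.ofReal ((ϖ - 1) / 3))
    (w w' : Path 4) (hw : rg 1 (shift k w) ≤ ENNReal.ofReal ((ϖ - 1) / 3)) :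
    (∫⁻ z in Fg A n k w w', Phi μ ((n - 1 - k : ℕ) : ℝ≥0) n w' (z - w (k + 1))) ≤
      lam * volume (Fg A n k w w') := by
  have hF := LOD_measurableSet_Fg_sec hA n k w w'
  rw [← setLIntegral_const]
  refine setLIntegral_mono' hF fun z hz => ?_
  have h1 := hz.1
  simp only [Kg, Set.mem_iUnion] at h1
  obtain ⟨j, hj, hw', hz'⟩ := h1
  have h2 := norm_le_of_mem_Kbb hz'
  refine (LOD_Phi_mono (s' := n) ?_ w' _).trans (hlam j hj w' hw' _ ?_)
  · exact_mod_cast (by omega : n - 1 - k ≤ n)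
  · have h3 : ‖z - w (k + 1) + w' j‖ₑ ≤ ENNReal.ofReal ϖ := by
      refine h2.trans ?_
      calc 1 + 2 * rg 1 (shift k w) + rg 1 (shift j w')
          ≤ 1 + 2 * ENNReal.ofReal ((ϖ - 1) / 3) + ENNReal.ofReal ((ϖ - 1) / 3) := by
            gcongr
            exact hrg j hj w' hw'
        _ = ENNReal.ofReal ϖ := by
            have h4 : (0 : ℝ) ≤ (ϖ - 1) / 3 := by linarith
            rw [← ENNReal.ofReal_one, ← ENNReal.ofReal_ofNat 2, ← ENNReal.ofReal_mul (by norm_num),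
              ← ENNReal.ofReal_add (by norm_num) (by positivity),
              ← ENNReal.ofReal_add (by positivity) h4]
            congr 1
            ring
    rw [← ofReal_norm] at h3
    exact (ENNReal.ofReal_le_ofReal_iff (by linarith)).1 h3

theorem LOD_measurable_Phi_shift {μ : Measure (Path 4)} [IsProbabilityMeasure μ] (n : ℝ≥0) (j : ℝ≥0) :
    Measurable (fun p : Path 4 × E 4 => Phi μ n n p.1 (p.2 - p.1 j)) := by
  have h1 := measurable_Phi (μ := μ) n n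
  have h2 : Measurable (fun p : Path 4 × E 4 => (p.1, p.2 - p.1 j)) := by
    refine measurable_fst.prodMk ?_
    refine Measurable.sub measurable_snd ?_
    exact (measurable_eval j).comp measurable_fst
  have h3 := h1.comp h2
  have h4 : (fun p : Path 4 × E 4 => Phi μ n n p.1 (p.2 - p.1 j)) =
    ((fun p : Path 4 × E 4 => Phi μ n n p.1 p.2) ∘
      fun p : Path 4 × E 4 => (p.1, p.2 - p.1 j)) := rfl
  rw [h4]
  exact h3

theorem LOD_measurable_Phi_sec {μ : Measure (Path 4)} [IsProbabilityMeasure μ] (n : ℝ≥0) (j : ℝ≥0)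
    (w' : Path 4) : Measurable (fun y : E 4 => Phi μ n n w' (y - w' j)) := by
  have h1 := LOD_measurable_Phi_shift (μ := μ) n j
  have h2 : Measurable (fun y : E 4 => (w', y)) := measurable_prodMk_left
  have h3 := h1.comp h2
  have h4 : (fun y : E 4 => Phi μ n n w' (y - w' j)) =
    ((fun p : Path 4 × E 4 => Phi μ n n p.1 (p.2 - p.1 j)) ∘ fun y : E 4 => (w', y)) := rfl
  rw [h4]
  exact h3

/-- Second case, fixed paths. -/
theorem LOD_case_b {μ : Measure (Path 4)} [IsProbabilityMeasure μ] {n k : ℕ} (hk : k < n)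
    {A : ℕ → Set (Path 4)} (hA : ∀ j, MeasurableSet (A j)) {ϖ : ℝ} (hϖ : 1 ≤ ϖ)
    (hrg : ∀ j < n, ∀ w' ∈ A j, rg 1 (shift j w') ≤ ENNReal.ofReal ((ϖ - 1) / 3))
    (w w' : Path 4) :
    (∫⁻ z in Fg A n k w w', Phi μ ((n - 1 - k : ℕ) : ℝ≥0) n w' (z - w (k + 1))) ≤
      ∑ j ∈ Finset.range n, ∫⁻ y in {y : E 4 | ‖y‖ₑ ≤ 1 + 2 * rg 1 (shift k w) + ENNReal.ofReal ϖ},
        Phi μ n n w' (y - w' j) := by
  have hF := LOD_measurableSet_Fg_sec hA n k w w'
  set R : ℝ≥0∞ := 1 + 2 * rg 1 (shift k w) + ENNReal.ofReal ϖ with hR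
  have hS : MeasurableSet {y : E 4 | ‖y‖ₑ ≤ R} := measurableSet_le (by fun_prop) measurable_const
  have hm : ∀ j : ℕ, Measurable (fun y : E 4 => Phi μ n n w' (y - w' j)) := fun j =>
    LOD_measurable_Phi_sec (μ := μ) (n : ℝ≥0) (j : ℝ≥0) w'
  have hFj : ∀ j : ℕ, Measurable (fun z : E 4 => Set.indicator {y : E 4 | ‖y‖ₑ ≤ R}
      (fun y : E 4 => Phi μ n n w' (y - w' j)) (z + (w' j - w (k + 1)))) := by
    intro j
    have h1 := (hm j).indicator hS
    have h2 : Measurable (fun z : E 4 => z + (w' j - w (k + 1))) := measurable_id.add_const _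
    exact h1.comp h2
  calc (∫⁻ z in Fg A n k w w', Phi μ ((n - 1 - k : ℕ) : ℝ≥0) n w' (z - w (k + 1)))
      ≤ ∫⁻ z in Fg A n k w w', ∑ j ∈ Finset.range n, Set.indicator {y : E 4 | ‖y‖ₑ ≤ R}
          (fun y : E 4 => Phi μ n n w' (y - w' j)) (z + (w' j - w (k + 1))) := by
        refine setLIntegral_mono' hF fun z hz => ?_
        have h1 := hz.1
        simp only [Kg, Set.mem_iUnion] at h1
        obtain ⟨j, hj, hw', hz'⟩ := h1
        have h2 := norm_le_of_mem_Kbb hz'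
        have h3 : z + (w' j - w (k + 1)) ∈ {y : E 4 | ‖y‖ₑ ≤ R} := by
          rw [Set.mem_ofPred_eq, hR]
          have h4 : z + (w' j - w (k + 1)) = z - w (k + 1) + w' j := by abel
          rw [h4]
          refine h2.trans ?_
          gcongr
          refine (hrg j hj w' hw').trans (ENNReal.ofReal_le_ofReal (by linarith))
        refine le_trans ?_ (Finset.single_le_sum (f := fun j : ℕ => Set.indicator
          {y : E 4 | ‖y‖ₑ ≤ R} (fun y : E 4 => Phi μ n n w' (y - w' j)) (z + (w' j - w (k + 1))))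
          (fun i _ => by positivity) (Finset.mem_range.2 hj))
        rw [Set.indicator_of_mem h3]
        have h5 : z + (w' j - w (k + 1)) - w' j = z - w (k + 1) := by abel
        rw [h5]
        exact LOD_Phi_mono (by exact_mod_cast (by omega : n - 1 - k ≤ n)) w' _
    _ ≤ ∫⁻ z, ∑ j ∈ Finset.range n, Set.indicator {y : E 4 | ‖y‖ₑ ≤ R}
          (fun y : E 4 => Phi μ n n w' (y - w' j)) (z + (w' j - w (k + 1))) :=
        setLIntegral_le_lintegral _ _
    _ = ∑ j ∈ Finset.range n, ∫⁻ z, Set.indicator {y : E 4 | ‖y‖ₑ ≤ R}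
          (fun y : E 4 => Phi μ n n w' (y - w' j)) (z + (w' j - w (k + 1))) :=
        lintegral_finsetSum _ fun j _ => hFj j
    _ = ∑ j ∈ Finset.range n, ∫⁻ y in {y : E 4 | ‖y‖ₑ ≤ R}, Phi μ n n w' (y - w' j) := by
        refine Finset.sum_congr rfl fun j _ => ?_
        rw [lintegral_add_right_eq_self (μ := (volume : Measure (E 4))) (fun z : E 4 => Set.indicator {y : E 4 | ‖y‖ₑ ≤ R}
          (fun y : E 4 => Phi μ n n w' (y - w' j)) z) (w' j - w (k + 1))]
        rw [lintegral_indicator hS]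

/-- Second case, mean over the second path. -/
theorem LOD_case_b_mean {μ : Measure (Path 4)} [IsProbabilityMeasure μ] {n k : ℕ} (hk : k < n)
    {A : ℕ → Set (Path 4)} (hA : ∀ j, MeasurableSet (A j)) {ϖ : ℝ} (hϖ : 1 ≤ ϖ)
    (hrg : ∀ j < n, ∀ w' ∈ A j, rg 1 (shift j w') ≤ ENNReal.ofReal ((ϖ - 1) / 3)) {C : ℝ≥0}
    (hC : ∀ (j : ℝ≥0), j ≤ n → ∀ y : E 4,
      ∫⁻ w', Phi μ n n w' (y - w' j) ∂μ ≤ (C : ℝ≥0∞) * ENNReal.ofReal (Real.log n))
    (w : Path 4) :
    ∫⁻ w', (∫⁻ z in Fg A n k w w', Phi μ ((n - 1 - k : ℕ) : ℝ≥0) n w' (z - w (k + 1))) ∂μ ≤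
      (n : ℝ≥0∞) * C * ENNReal.ofReal (Real.log n) * volume (Metric.ball (0 : E 4) 1) *
        (1 + 2 * rg 1 (shift k w) + ENNReal.ofReal ϖ) ^ 4 := by
  set R : ℝ≥0∞ := 1 + 2 * rg 1 (shift k w) + ENNReal.ofReal ϖ with hR
  have hRt : R ≠ ∞ := by
    rw [hR]
    have := (rg_lt_top 1 (shift k w)).ne
    finiteness
  have hm : ∀ j : ℕ, Measurable (fun p : Path 4 × E 4 => Phi μ n n p.1 (p.2 - p.1 j)) := fun j =>
    LOD_measurable_Phi_shift (μ := μ) (n : ℝ≥0) (j : ℝ≥0)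
  calc ∫⁻ w', (∫⁻ z in Fg A n k w w', Phi μ ((n - 1 - k : ℕ) : ℝ≥0) n w' (z - w (k + 1))) ∂μ
      ≤ ∫⁻ w', (∑ j ∈ Finset.range n, ∫⁻ y in {y : E 4 | ‖y‖ₑ ≤ R},
          Phi μ n n w' (y - w' j)) ∂μ := lintegral_mono fun w' => LOD_case_b hk hA hϖ hrg w w'
    _ = ∑ j ∈ Finset.range n, ∫⁻ w', (∫⁻ y in {y : E 4 | ‖y‖ₑ ≤ R}, Phi μ n n w' (y - w' j)) ∂μ := by
        refine lintegral_finsetSum _ fun j _ => ?_
        exact (hm j).lintegral_prod_right'
    _ = ∑ j ∈ Finset.range n, ∫⁻ y in {y : E 4 | ‖y‖ₑ ≤ R}, (∫⁻ w', Phi μ n n w' (y - w' j) ∂μ) := by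
        refine Finset.sum_congr rfl fun j _ => ?_
        exact lintegral_lintegral_swap (hm j).aemeasurable
    _ ≤ ∑ j ∈ Finset.range n, ∫⁻ _y in {y : E 4 | ‖y‖ₑ ≤ R},
          (C : ℝ≥0∞) * ENNReal.ofReal (Real.log n) := by
        refine Finset.sum_le_sum fun j hj => lintegral_mono fun y => hC j ?_ y
        exact_mod_cast (Finset.mem_range.1 hj).le
    _ = (n : ℝ≥0∞) * C * ENNReal.ofReal (Real.log n) * volume (Metric.ball (0 : E 4) 1) * R ^ 4 := by
        rw [setLIntegral_const, LOD_volume_ball hRt, Finset.sum_const, Finset.card_range,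
          nsmul_eq_mul]
        ring

/-- Piece LOD. The constant `C` is the one of `lintegral_Phi_le`. -/
theorem IsWiener.lo_second {μ : Measure (Path 4)} (h : IsWiener μ) {n : ℕ} (hn : 2 ≤ n)
    {A : ℕ → Set (Path 4)} (hA : ∀ j, MeasurableSet (A j)) {ϖ : ℝ} (hϖ : 1 ≤ ϖ) {lam : ℝ≥0∞}
    (hlam : ∀ j < n, ∀ w' ∈ A j, ∀ y : E 4, ‖y + w' j‖ ≤ ϖ → Phi μ n n w' y ≤ lam)
    (hrg : ∀ j < n, ∀ w' ∈ A j, rg 1 (shift j w') ≤ ENNReal.ofReal ((ϖ - 1) / 3)) {C : ℝ≥0}
    (hC : ∀ (j : ℝ≥0), j ≤ n → ∀ y : E 4,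
      ∫⁻ w', Phi μ n n w' (y - w' j) ∂μ ≤ (C : ℝ≥0∞) * ENNReal.ofReal (Real.log n)) :
    (∑ k ∈ Finset.range n, ∫⁻ w, ∫⁻ w',
        (∫⁻ z in Fg A n k w w', Phi μ ((n - 1 - k : ℕ) : ℝ≥0) n w' (z - w (k + 1))) ∂μ ∂μ) ≤
      lam * EV μ 1 n n + (n : ℝ≥0∞) ^ 2 * C * ENNReal.ofReal (Real.log n) *
        volume (Metric.ball (0 : E 4) 1) *
        ∫⁻ w in {w | ENNReal.ofReal ((ϖ - 1) / 3) < rg 1 w},
          (1 + 2 * rg 1 w + ENNReal.ofReal ϖ) ^ 4 ∂μ := by
  have := h.isProb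
  set q : ℝ≥0∞ := ENNReal.ofReal ((ϖ - 1) / 3) with hq
  set D : ℝ≥0∞ := (n : ℝ≥0∞) * C * ENNReal.ofReal (Real.log n) *
    volume (Metric.ball (0 : E 4) 1) with hD
  set G : Path 4 → ℝ≥0∞ := fun w => (1 + 2 * rg 1 w + ENNReal.ofReal ϖ) ^ 4 with hG
  have hGm : Measurable G := by
    have := measurable_rg (d := 4) 1
    fun_prop
  have hQm : MeasurableSet {w : Path 4 | q < rg 1 w} :=
    measurableSet_lt measurable_const (measurable_rg 1)
  have key : ∀ k ∈ Finset.range n, (∫⁻ w, ∫⁻ w', (∫⁻ z in Fg A n k w w',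
      Phi μ ((n - 1 - k : ℕ) : ℝ≥0) n w' (z - w (k + 1))) ∂μ ∂μ) ≤
      (∫⁻ w, ∫⁻ w', lam * volume (Fg A n k w w') ∂μ ∂μ) +
        D * ∫⁻ w in {w | q < rg 1 w}, G w ∂μ := by
    intro k hk
    have hk' := Finset.mem_range.1 hk
    have hmi : Measurable (fun w : Path 4 => Set.indicator {w | q < rg 1 w} (fun w => D * G w) w) :=
      (hGm.const_mul D).indicator hQm
    have h1 : ∀ w : Path 4, ∫⁻ w', (∫⁻ z in Fg A n k w w',
        Phi μ ((n - 1 - k : ℕ) : ℝ≥0) n w' (z - w (k + 1))) ∂μ ≤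
        (∫⁻ w', lam * volume (Fg A n k w w') ∂μ) +
          Set.indicator {w | q < rg 1 w} (fun w => D * G w) (shift k w) := by
      intro w
      by_cases hw : rg 1 (shift k w) ≤ q
      · refine le_trans ?_ (le_add_right le_rfl)
        exact lintegral_mono fun w' => LOD_case_a hk' hA hϖ hlam hrg w w' hw
      · refine le_trans ?_ (le_add_left le_rfl)
        rw [Set.indicator_of_mem (by exact not_le.1 hw)]
        exact LOD_case_b_mean hk' hA hϖ hrg hC w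
    calc (∫⁻ w, ∫⁻ w', (∫⁻ z in Fg A n k w w',
          Phi μ ((n - 1 - k : ℕ) : ℝ≥0) n w' (z - w (k + 1))) ∂μ ∂μ)
        ≤ ∫⁻ w, ((∫⁻ w', lam * volume (Fg A n k w w') ∂μ) +
          Set.indicator {w | q < rg 1 w} (fun w => D * G w) (shift k w)) ∂μ :=
          lintegral_mono h1
      _ = (∫⁻ w, ∫⁻ w', lam * volume (Fg A n k w w') ∂μ ∂μ) +
          ∫⁻ w, Set.indicator {w | q < rg 1 w} (fun w => D * G w) (shift k w) ∂μ :=
          lintegral_add_right _ (hmi.comp (measurable_shift k))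
      _ = (∫⁻ w, ∫⁻ w', lam * volume (Fg A n k w w') ∂μ ∂μ) +
          D * ∫⁻ w in {w | q < rg 1 w}, G w ∂μ := by
          congr 1
          have h2 : ∫⁻ w, Set.indicator {w | q < rg 1 w} (fun w => D * G w) (shift k w) ∂μ =
              ∫⁻ w, Set.indicator {w | q < rg 1 w} (fun w => D * G w) w ∂(μ.map (shift k)) :=
            (lintegral_map hmi (measurable_shift _)).symm
          rw [h2, h.map_shift, lintegral_indicator hQm, lintegral_const_mul _ hGm]
  calc (∑ k ∈ Finset.range n, ∫⁻ w, ∫⁻ w', (∫⁻ z in Fg A n k w w',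
        Phi μ ((n - 1 - k : ℕ) : ℝ≥0) n w' (z - w (k + 1))) ∂μ ∂μ)
      ≤ ∑ k ∈ Finset.range n, ((∫⁻ w, ∫⁻ w', lam * volume (Fg A n k w w') ∂μ ∂μ) +
        D * ∫⁻ w in {w | q < rg 1 w}, G w ∂μ) := Finset.sum_le_sum key
    _ = (∑ k ∈ Finset.range n, ∫⁻ w, ∫⁻ w', lam * volume (Fg A n k w w') ∂μ ∂μ) +
        (n : ℝ≥0∞) * (D * ∫⁻ w in {w | q < rg 1 w}, G w ∂μ) := by
        rw [Finset.sum_add_distrib, Finset.sum_const, Finset.card_range, nsmul_eq_mul]
    _ ≤ lam * EV μ 1 n n + (n : ℝ≥0∞) ^ 2 * C * ENNReal.ofReal (Real.log n) *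
        volume (Metric.ball (0 : E 4) 1) * ∫⁻ w in {w | q < rg 1 w}, G w ∂μ := by
        refine add_le_add ?_ (le_of_eq ?_)
        · calc (∑ k ∈ Finset.range n, ∫⁻ w, ∫⁻ w', lam * volume (Fg A n k w w') ∂μ ∂μ)
              ≤ ∫⁻ w, ∑ k ∈ Finset.range n, ∫⁻ w', lam * volume (Fg A n k w w') ∂μ ∂μ :=
                LOD_sum_lintegral_le _ _ _
            _ ≤ ∫⁻ w, ∫⁻ w', lam * Vol 1 n n w w' ∂μ ∂μ := by
                refine lintegral_mono fun w => (LOD_sum_lintegral_le _ _ _).trans ?_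
                refine lintegral_mono fun w' => ?_
                rw [← Finset.mul_sum]
                gcongr
                exact LOD_sum_volume_le hA n w w'
            _ = lam * EV μ 1 n n := by
                unfold EV
                have hV := measurable_Vol (d := 4) 1 (n : ℝ≥0) (n : ℝ≥0)
                have hV1 := hV.lintegral_prod_right' (ν := μ)
                rw [← lintegral_const_mul _ hV1]
                refine lintegral_congr fun w => ?_
                have h2 : Measurable (fun w' : Path 4 => (w, w')) := measurable_prodMk_left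
                have h3 := hV.comp h2
                exact lintegral_const_mul _ h3
        · rw [hD]
          ring

end WSP
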