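import Pool.Agent.Lib_MP_c175fd.LoA
import Pool.Agent.Lib_MP_c175fd.LoB
import Pool.Agent.Lib_MP_c175fd.LoC
import Pool.Agent.Lib_MP_c175fd.LoD
import Pool.Agent.Lib_MP_c175fd.LTSq

/-!
# Pieces LOA, LOB, LOC, LOD, LOE: lower bound of `EV 1 n n` in dimension four

LOA: `Psi C ε K a n j w'` is an upper bound of `Phi n n w' y` for `‖y + w' j‖ ≤ ϖ`, whose mean is
`≤ (1 + 2 ε) cB log n`; it is also `≥ (1 - 3 ε) cB log n` with high probability, so it is rarely larger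
than `(1 + √ε) cB log n`.

LOB (`lo_core`): for measurable sets `A j` of paths, let
`LTg w w' z = ∑_{j < n, w' ∈ A j} LT n 1 w (shift j w') (z + w' j)`. Its integral over `z` is
`n |B| #{j < n | w' ∈ A j}`; it vanishes outside `⋃_{k<n} Fg A n k w w'` (if a pair of times
`(u, v)` with `u ∈ (k, k+1]`, `v ∈ (j, j+1]` contributes then `z ∈ Kbb k j`), and for `z ∈ Fg A n k` the times
`u ≤ k` do not contribute (except a null set), the times `u ∈ (k, k+1]` contribute at most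
`LT 1 n (shift k w) w' (z - w k)` and the times `u > k + 1` at most
`LT (n-1-k) n (shift (k+1) w) w' (z - w (k+1))`. Take means and use `lintegral_future`, `Fg_stop`.

LOC (`lo_first`): `x ≤ B₀ + B₀⁻¹ x ^ 2` pointwise; the sets `Fg A n k` are disjoint subsets of
`Kset 1 n n w w'`; translation invariance and `map_shift`.

LOD (`lo_second`): for `z ∈ Fg A n k` there is `j < n` with `w' ∈ A j`, `z ∈ Kbb k j`; if
`rg 1 (shift k w) ≤ (ϖ-1)/3` then `‖z - w (k+1) + w' j‖ ≤ ϖ` and `Phi (n-1-k) n ≤ Phi n n ≤ lam`. Otherwise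
`∫_{Fg A n k} Phi n n w' (z - w (k+1)) dz ≤ ∑_{j<n} ∫_{‖y‖ ≤ 1 + 2 rg 1 (shift k w) + ϖ} Phi n n w' (y - w' j) dy`,
integrate over `w'` first (`lintegral_Phi_le`), `shift k w` is independent of `w'` and has law `μ`.

LOE: assembly, see the formulas in the docstrings of the statements: with `ϖ = (log n)^(1/16)`,
`a = √(log n)`, `K = K₁ (ϖ + 1)`, `B₀ = √(log n)`, `lam = ofReal ((1 + √ε) log n) * cB`,
`A j = {w' | Psi j w' ≤ lam, rg 1 (shift j w') ≤ (ϖ-1)/3}` for `n^(1-ε) ≤ j ≤ n - n^(1-ε)`, empty otherwise: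
`(1 - 8√ε) n^2 |B| ≤ (B₀ + lam) EV + C n^2 / B₀ + C n^2 log n (log n)^(-3)`; `|B| / cB = 2 π^2`.
-/

open MeasureTheory ProbabilityTheory Filter Topology
open scoped ENNReal NNReal

namespace WSP

variable {d : ℕ}

/-- Tail moment of the range. -/
theorem IsWiener.rg_tail_moment {μ : Measure (Path d)} (h : IsWiener μ) :
    ∃ C : ℝ≥0, ∀ ϖ : ℝ, 4 ≤ ϖ →
      ∫⁻ w in {w | ENNReal.ofReal ((ϖ - 1) / 3) < rg 1 w},
          (1 + 2 * rg 1 w + ENNReal.ofReal ϖ) ^ 4 ∂μ ≤ ENNReal.ofReal (C * (ϖ ^ 32)⁻¹) := by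
  have hM : ∫⁻ w, (rg 1 w) ^ 36 ∂μ < ∞ := h.rg_moment 36
  refine ⟨7 ^ 4 * 4 ^ 32 * (∫⁻ w, (rg 1 w) ^ 36 ∂μ).toNNReal, fun ϖ hϖ => ?_⟩
  have hϖ0 : 0 < ϖ := by linarith
  have hS : MeasurableSet {w : Path d | ENNReal.ofReal ((ϖ - 1) / 3) < rg 1 w} :=
    measurableSet_lt measurable_const (measurable_rg 1)
  have hpt : ∀ w ∈ {w : Path d | ENNReal.ofReal ((ϖ - 1) / 3) < rg 1 w},
      (1 + 2 * rg 1 w + ENNReal.ofReal ϖ) ^ 4 ≤
        (7 ^ 4 * 4 ^ 32 * ENNReal.ofReal ((ϖ ^ 32)⁻¹)) * (rg 1 w) ^ 36 := by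
    intro w hw
    have hw' : ENNReal.ofReal ((ϖ - 1) / 3) < rg 1 w := hw
    have h4 : ENNReal.ofReal ϖ ≤ 4 * rg 1 w := by
      have h1 : ENNReal.ofReal ϖ = 4 * ENNReal.ofReal (ϖ / 4) := by
        rw [show (4 : ℝ≥0∞) = ENNReal.ofReal 4 by norm_num, ← ENNReal.ofReal_mul (by norm_num)]
        congr 1; ring
      rw [h1]
      refine mul_le_mul' le_rfl (le_trans ?_ hw'.le)
      exact ENNReal.ofReal_le_ofReal (by linarith)
    have h1 : 1 ≤ rg 1 w := by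
      refine le_trans ?_ hw'.le
      rw [← ENNReal.ofReal_one]
      exact ENNReal.ofReal_le_ofReal (by linarith)
    have h7 : 1 + 2 * rg 1 w + ENNReal.ofReal ϖ ≤ 7 * rg 1 w := by
      calc 1 + 2 * rg 1 w + ENNReal.ofReal ϖ ≤ rg 1 w + 2 * rg 1 w + 4 * rg 1 w := by gcongr
        _ = 7 * rg 1 w := by ring
    have h32 : (1 : ℝ≥0∞) ≤ ENNReal.ofReal ((ϖ ^ 32)⁻¹) * (4 * rg 1 w) ^ 32 := by
      calc (1 : ℝ≥0∞) = ENNReal.ofReal ((ϖ ^ 32)⁻¹) * (ENNReal.ofReal ϖ) ^ 32 := by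
            rw [← ENNReal.ofReal_pow hϖ0.le, ← ENNReal.ofReal_mul (by positivity),
              inv_mul_cancel₀ (by positivity), ENNReal.ofReal_one]
        _ ≤ _ := by gcongr
    calc (1 + 2 * rg 1 w + ENNReal.ofReal ϖ) ^ 4 ≤ (7 * rg 1 w) ^ 4 := by gcongr
      _ = (7 * rg 1 w) ^ 4 * 1 := by rw [mul_one]
      _ ≤ (7 * rg 1 w) ^ 4 * (ENNReal.ofReal ((ϖ ^ 32)⁻¹) * (4 * rg 1 w) ^ 32) := by gcongr
      _ = _ := by ring
  calc ∫⁻ w in {w | ENNReal.ofReal ((ϖ - 1) / 3) < rg 1 w},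
          (1 + 2 * rg 1 w + ENNReal.ofReal ϖ) ^ 4 ∂μ
      ≤ ∫⁻ w in {w | ENNReal.ofReal ((ϖ - 1) / 3) < rg 1 w},
          (7 ^ 4 * 4 ^ 32 * ENNReal.ofReal ((ϖ ^ 32)⁻¹)) * (rg 1 w) ^ 36 ∂μ :=
        setLIntegral_mono' hS hpt
    _ ≤ ∫⁻ w, (7 ^ 4 * 4 ^ 32 * ENNReal.ofReal ((ϖ ^ 32)⁻¹)) * (rg 1 w) ^ 36 ∂μ :=
        setLIntegral_le_lintegral _ _
    _ = (7 ^ 4 * 4 ^ 32 * ENNReal.ofReal ((ϖ ^ 32)⁻¹)) * ∫⁻ w, (rg 1 w) ^ 36 ∂μ :=
        lintegral_const_mul _ ((measurable_rg 1).pow_const 36)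
    _ = ENNReal.ofReal (((7 ^ 4 * 4 ^ 32 * (∫⁻ w, (rg 1 w) ^ 36 ∂μ).toNNReal : ℝ≥0) : ℝ) *
          (ϖ ^ 32)⁻¹) := by
        rw [ENNReal.ofReal_mul (by positivity), ENNReal.ofReal_coe_nnreal]
        push_cast
        rw [ENNReal.coe_toNNReal hM.ne]
        ring

/-- The mean number of good blocks. -/
theorem IsWiener.good_blocks {μ : Measure (Path 4)} (h : IsWiener μ) {η : ℝ} (hη : 0 < η)
    (hη' : η < 1 / 100) {C : ℝ≥0} {K₁ : ℝ} (hK : 1 ≤ K₁)
    (hC : ∀ (ϖ a : ℝ), 0 ≤ ϖ → 0 ≤ a → ∀ (n j : ℕ), j ≤ n → ∀ (w' : Path 4) (y : E 4),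
      ‖y + w' j‖ ≤ ϖ → Phi μ n n w' y ≤ Psi C η (K₁ * (ϖ + 1)) a n j w') :
    ∀ᶠ n : ℕ in atTop, ∃ A : ℕ → Set (Path 4), (∀ j, MeasurableSet (A j)) ∧
      (∀ j < n, ∀ w' ∈ A j, ∀ y : E 4, ‖y + w' j‖ ≤ (Real.log n) ^ (1 / 16 : ℝ) →
        Phi μ n n w' y ≤ cB * ENNReal.ofReal ((1 + Real.sqrt η) * Real.log n)) ∧
      (∀ j < n, ∀ w' ∈ A j,
        rg 1 (shift j w') ≤ ENNReal.ofReal (((Real.log n) ^ (1 / 16 : ℝ) - 1) / 3)) ∧
      ENNReal.ofReal ((1 - 8 * Real.sqrt η) * n) ≤ ∑ j ∈ Finset.range n, μ (A j) := by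
  classical
  have := h.isProb
  obtain ⟨Cr, hCr⟩ := h.rg_tail 1
  have hs0 : 0 < Real.sqrt η := Real.sqrt_pos.mpr hη
  have hs1 : Real.sqrt η < 1 / 10 := by
    rw [show (1 / 10 : ℝ) = Real.sqrt (1 / 100) by
      rw [show (1 / 100 : ℝ) = (1 / 10) ^ 2 by norm_num, Real.sqrt_sq (by norm_num)]]
    exact Real.sqrt_lt_sqrt hη.le hη'
  have hlog : Tendsto (fun n : ℕ => Real.log n) atTop atTop :=
    Real.tendsto_log_atTop.comp tendsto_natCast_atTop_atTop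
  have hϖt : Tendsto (fun n : ℕ => (Real.log n) ^ (1 / 16 : ℝ)) atTop atTop :=
    (tendsto_rpow_atTop (by norm_num)).comp hlog
  -- number of indices
  have hcard : ∀ᶠ n : ℕ in atTop, 2 * ((n : ℝ) ^ (1 - η) + 1) ≤ (Real.sqrt η / 4) * n := by
    have h1 : Tendsto (fun n : ℕ => (n : ℝ) ^ (-η)) atTop (𝓝 0) :=
      (tendsto_rpow_neg_atTop hη).comp tendsto_natCast_atTop_atTop
    have h2 : Tendsto (fun n : ℕ => 2 * ((n : ℝ) ^ (-η) + (n : ℝ)⁻¹)) atTop (𝓝 0) := by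
      have h3 := (h1.add (tendsto_inv_atTop_nhds_zero_nat (𝕜 := ℝ))).const_mul 2
      simpa using h3
    filter_upwards [h2.eventually_le_const (u := Real.sqrt η / 4) (by positivity),
      eventually_gt_atTop 0] with n hn hn0
    have hn0' : (0 : ℝ) < n := by exact_mod_cast hn0
    have h4 : (n : ℝ) ^ (1 - η) = n * (n : ℝ) ^ (-η) := by
      rw [sub_eq_add_neg, Real.rpow_add hn0', Real.rpow_one]
    rw [h4]
    calc 2 * ((n : ℝ) * (n : ℝ) ^ (-η) + 1) = n * (2 * ((n : ℝ) ^ (-η) + (n : ℝ)⁻¹)) := by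
          field_simp
      _ ≤ n * (Real.sqrt η / 4) := by gcongr
      _ = _ := by ring
  have hϖ4 : ∀ᶠ n : ℕ in atTop, 4 + 12 * ((Cr : ℝ) + 1) / (Real.sqrt η) + 1 ≤
      (Real.log n) ^ (1 / 16 : ℝ) := hϖt.eventually_ge_atTop _
  filter_upwards [h.Psi_tail hη hη' hK hC, hcard, hϖ4, hlog.eventually_ge_atTop 1,
    eventually_gt_atTop 0] with n hn1 hn2 hn3 hn4 hn5
  set L := Real.log n with hL
  set ϖ := L ^ (1 / 16 : ℝ) with hϖ
  have hCr0 : 0 ≤ (Cr : ℝ) := Cr.2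
  have hϖ4' : 4 ≤ ϖ := by
    have : 0 ≤ 12 * ((Cr : ℝ) + 1) / (Real.sqrt η) := by positivity
    linarith
  set lam := cB * ENNReal.ofReal ((1 + Real.sqrt η) * L) with hlam
  let P : ℕ → Prop := fun j => (n : ℝ) ^ (1 - η) ≤ j ∧ (j : ℝ) + (n : ℝ) ^ (1 - η) ≤ n
  let A : ℕ → Set (Path 4) := fun j => if P j then
    {w' | Psi C η (K₁ * (ϖ + 1)) (Real.sqrt L) n j w' ≤ lam} ∩
      {w' | rg 1 (shift j w') ≤ ENNReal.ofReal ((ϖ - 1) / 3)} else ∅
  have hA1 : ∀ j, P j → A j = {w' | Psi C η (K₁ * (ϖ + 1)) (Real.sqrt L) n j w' ≤ lam} ∩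
      {w' | rg 1 (shift j w') ≤ ENNReal.ofReal ((ϖ - 1) / 3)} := fun j hj => if_pos hj
  have hA0 : ∀ j, ¬ P j → A j = ∅ := fun j hj => if_neg hj
  have hmA : ∀ j, MeasurableSet (A j) := by
    intro j
    by_cases hj : P j
    · rw [hA1 j hj]
      exact (measurableSet_le (measurable_Psi C η _ _ n j) measurable_const).inter
        (measurableSet_le ((measurable_rg 1).comp (measurable_shift j)) measurable_const)
    · rw [hA0 j hj]; exact MeasurableSet.empty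
  refine ⟨A, hmA, ?_, ?_, ?_⟩
  · intro j hj w' hw' y hy
    by_cases hPj : P j
    · rw [hA1 j hPj] at hw'
      exact (hC ϖ (Real.sqrt L) (by linarith) (Real.sqrt_nonneg _) n j hj.le w' y hy).trans hw'.1
    · rw [hA0 j hPj] at hw'; exact absurd hw' (Set.notMem_empty _)
  · intro j hj w' hw'
    by_cases hPj : P j
    · rw [hA1 j hPj] at hw'; exact hw'.2
    · rw [hA0 j hPj] at hw'; exact absurd hw' (Set.notMem_empty _)
  · -- the measure of a good block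
    have hδ : μ {w : Path 4 | ENNReal.ofReal ((ϖ - 1) / 3) < rg 1 w} ≤
        ENNReal.ofReal (Real.sqrt η / 4) := by
      have ha : 0 < ((ϖ - 1) / 3).toNNReal := Real.toNNReal_pos.mpr (by linarith)
      have h1 := hCr 1 (((ϖ - 1) / 3).toNNReal) ha
      have h2 : (((ϖ - 1) / 3).toNNReal : ℝ≥0∞) = ENNReal.ofReal ((ϖ - 1) / 3) := rfl
      rw [NNReal.sqrt_one, ENNReal.coe_one, mul_one, pow_one, h2] at h1
      refine h1.trans ?_
      rw [← ENNReal.ofReal_coe_nnreal (p := Cr), ← ENNReal.ofReal_div_of_pos (by linarith)]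
      refine ENNReal.ofReal_le_ofReal ?_
      rw [div_le_iff₀ (by linarith)]
      have h3 : 12 * ((Cr : ℝ) + 1) / (Real.sqrt η) ≤ ϖ - 1 := by linarith
      calc (Cr : ℝ) ≤ (Cr : ℝ) + 1 := by linarith
        _ = (Real.sqrt η / 4) * ((12 * ((Cr : ℝ) + 1) / (Real.sqrt η)) / 3) := by
            field_simp
            ring
        _ ≤ (Real.sqrt η / 4) * ((ϖ - 1) / 3) := by gcongr
    have hgood : ∀ j, P j → ENNReal.ofReal (1 - 7 * Real.sqrt η - Real.sqrt η / 4) ≤ μ (A j) := by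
      intro j hj
      have h1 := hn1 j hj.1 hj.2
      have h2 : μ {w' : Path 4 | ENNReal.ofReal ((ϖ - 1) / 3) < rg 1 (shift j w')} ≤
          ENNReal.ofReal (Real.sqrt η / 4) := by
        refine le_trans (le_of_eq ?_) hδ
        have hS : MeasurableSet {w : Path 4 | ENNReal.ofReal ((ϖ - 1) / 3) < rg 1 w} :=
          measurableSet_lt measurable_const (measurable_rg 1)
        conv_rhs => rw [← h.map_shift j, Measure.map_apply (measurable_shift j) hS]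
        rfl
      have h3 : μ (A j)ᶜ ≤ ENNReal.ofReal (7 * Real.sqrt η) + ENNReal.ofReal (Real.sqrt η / 4) := by
        have hsub : (A j)ᶜ ⊆ {w' | cB * ENNReal.ofReal ((1 + Real.sqrt η) * Real.log n) <
            Psi C η (K₁ * ((Real.log n) ^ (1 / 16 : ℝ) + 1)) (Real.sqrt (Real.log n)) n j w'} ∪
            {w' : Path 4 | ENNReal.ofReal ((ϖ - 1) / 3) < rg 1 (shift j w')} := by
          intro w' hw'
          rw [hA1 j hj] at hw'
          by_contra hcon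
          simp only [Set.mem_union, Set.mem_ofPred_eq, not_or, not_lt] at hcon
          exact hw' ⟨hcon.1, hcon.2⟩
        exact (measure_mono hsub).trans ((measure_union_le _ _).trans (add_le_add h1 h2))
      have h4 : μ (A j) = 1 - μ (A j)ᶜ := by
        have := prob_compl_eq_one_sub (μ := μ) (hmA j).compl
        rwa [compl_compl] at this
      rw [h4]
      have h5 : ENNReal.ofReal (1 - 7 * Real.sqrt η - Real.sqrt η / 4) =
          1 - (ENNReal.ofReal (7 * Real.sqrt η) + ENNReal.ofReal (Real.sqrt η / 4)) := by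
        rw [← ENNReal.ofReal_add (by positivity) (by positivity), sub_sub,
          ENNReal.ofReal_sub _ (by positivity), ENNReal.ofReal_one]
      rw [h5]
      exact tsub_le_tsub_left h3 _
    -- counting
    set a := ⌈(n : ℝ) ^ (1 - η)⌉₊ with ha
    have ha1 : (n : ℝ) ^ (1 - η) ≤ a := Nat.le_ceil _
    have ha2 : (a : ℝ) < (n : ℝ) ^ (1 - η) + 1 := Nat.ceil_lt_add_one (by positivity)
    have hJ : Finset.Ico a (n - a) ⊆ Finset.range n := by
      intro j hj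
      rw [Finset.mem_Ico] at hj
      rw [Finset.mem_range]; omega
    have hJP : ∀ j ∈ Finset.Ico a (n - a), P j := by
      intro j hj
      rw [Finset.mem_Ico] at hj
      have h1 : (a : ℝ) ≤ j := by exact_mod_cast hj.1
      have h2 : j + a ≤ n := by omega
      have h3 : (j : ℝ) + a ≤ n := by exact_mod_cast h2
      exact ⟨ha1.trans h1, by linarith⟩
    have hsum : ∑ j ∈ Finset.Ico a (n - a),
        ENNReal.ofReal (1 - 7 * Real.sqrt η - Real.sqrt η / 4) ≤ ∑ j ∈ Finset.range n, μ (A j) :=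
      (Finset.sum_le_sum fun j hj => hgood j (hJP j hj)).trans
        (Finset.sum_le_sum_of_subset hJ)
    refine le_trans ?_ hsum
    rw [Finset.sum_const, Nat.card_Ico, nsmul_eq_mul, ← ENNReal.ofReal_natCast,
      ← ENNReal.ofReal_mul (Nat.cast_nonneg _)]
    refine ENNReal.ofReal_le_ofReal ?_
    have h6 : (n : ℝ) - 2 * a ≤ ((n - a - a : ℕ) : ℝ) := by
      rw [Nat.sub_sub]
      have : (n : ℝ) ≤ ((n - (a + a) : ℕ) : ℝ) + ((a + a : ℕ) : ℝ) := by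
        exact_mod_cast Nat.sub_le_iff_le_add.mp le_rfl
      push_cast at this ⊢
      linarith
    have h7 : (0 : ℝ) ≤ 1 - 7 * Real.sqrt η - Real.sqrt η / 4 := by linarith
    have hn0 : (0 : ℝ) < n := by exact_mod_cast hn5
    calc (1 - 8 * Real.sqrt η) * n
        ≤ ((1 - Real.sqrt η / 4) * n) * (1 - 7 * Real.sqrt η - Real.sqrt η / 4) := by
          have : (1 - 8 * Real.sqrt η) ≤
              (1 - Real.sqrt η / 4) * (1 - 7 * Real.sqrt η - Real.sqrt η / 4) := by nlinarith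
          nlinarith
      _ ≤ ((n : ℝ) - 2 * a) * (1 - 7 * Real.sqrt η - Real.sqrt η / 4) := by
          refine mul_le_mul_of_nonneg_right ?_ h7
          linarith
      _ ≤ _ := mul_le_mul_of_nonneg_right h6 h7

/-- Piece LOE. -/
theorem IsWiener.EV_lower_four {μ : Measure (Path 4)} (h : IsWiener μ) {ε : ℝ} (hε : 0 < ε) :
    ∀ᶠ n : ℕ in atTop, (1 - ε) * (2 * Real.pi ^ 2) * n ^ 2 / Real.log n ≤ (EV μ 1 n n).toReal := by
  have := h.isProb
  -- choice of the auxiliary parameter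
  obtain ⟨η, hη, hη', hηε⟩ : ∃ η : ℝ, 0 < η ∧ η < 1 / 100 ∧ 10 * Real.sqrt η ≤ ε := by
    refine ⟨min (1 / 200) ((ε / 10) ^ 2), by positivity,
      lt_of_le_of_lt (min_le_left _ _) (by norm_num), ?_⟩
    have : Real.sqrt (min (1 / 200) ((ε / 10) ^ 2)) ≤ ε / 10 := by
      rw [show ε / 10 = Real.sqrt ((ε / 10) ^ 2) from (Real.sqrt_sq (by positivity)).symm]
      exact Real.sqrt_le_sqrt (min_le_right _ _ |>.trans (by
        rw [Real.sqrt_sq (by positivity)]))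
    linarith
  have hs0 : 0 < Real.sqrt η := Real.sqrt_pos.mpr hη
  have hs1 : Real.sqrt η < 1 / 10 := by
    rw [show (1 / 10 : ℝ) = Real.sqrt (1 / 100) by
      rw [show (1 / 100 : ℝ) = (1 / 10) ^ 2 by norm_num, Real.sqrt_sq (by norm_num)]]
    exact Real.sqrt_lt_sqrt hη.le hη'
  obtain ⟨C, K₁, hK, hC⟩ := h.Phi_le_Psi hη
  obtain ⟨C₂, hC₂⟩ := h.LT_sq_window (by norm_num : 4 ≤ 4)
  obtain ⟨C₃, hC₃⟩ := h.lintegral_Phi_le
  obtain ⟨C₄, hC₄⟩ := h.rg_tail_moment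
  have hlog : Tendsto (fun n : ℕ => Real.log n) atTop atTop :=
    Real.tendsto_log_atTop.comp tendsto_natCast_atTop_atTop
  have hϖt : Tendsto (fun n : ℕ => (Real.log n) ^ (1 / 16 : ℝ)) atTop atTop :=
    (tendsto_rpow_atTop (by norm_num)).comp hlog
  set V : ℝ := (volume (Metric.ball (0 : E 4) 1)).toReal with hV
  have hVfin : volume (Metric.ball (0 : E 4) 1) ≠ ∞ := measure_ball_lt_top.ne
  have hVe : volume (Metric.ball (0 : E 4) 1) = ENNReal.ofReal V :=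
    (ENNReal.ofReal_toReal hVfin).symm
  have hV0 : 0 < V := ENNReal.toReal_pos (Metric.measure_ball_pos _ _ one_pos).ne' hVfin
  have hsmall : ∀ᶠ n : ℕ in atTop,
      (2 * Real.pi ^ 2 + C₂) * (Real.sqrt (Real.log n))⁻¹ + C₃ * V * C₄ * (Real.log n)⁻¹ ≤
        V * Real.sqrt η := by
    have h1 : Tendsto (fun n : ℕ => (Real.sqrt (Real.log n))⁻¹) atTop (𝓝 0) :=
      tendsto_inv_atTop_zero.comp (Real.tendsto_sqrt_atTop.comp hlog)
    have h2 : Tendsto (fun n : ℕ => (Real.log n)⁻¹) atTop (𝓝 0) :=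
      tendsto_inv_atTop_zero.comp hlog
    have h3 := (h1.const_mul (2 * Real.pi ^ 2 + C₂ : ℝ)).add (h2.const_mul (C₃ * V * C₄ : ℝ))
    simp only [mul_zero, add_zero] at h3
    exact h3.eventually_le_const (by positivity)
  filter_upwards [h.good_blocks hη hη' hK hC, hsmall, hϖt.eventually_ge_atTop 4,
    hlog.eventually_ge_atTop 1, eventually_ge_atTop 2] with n hn1 hn2 hn3 hn4 hn5
  obtain ⟨A, hmA, hA1, hA2, hA3⟩ := hn1
  set L := Real.log n with hL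
  set ϖ := L ^ (1 / 16 : ℝ) with hϖ
  have hL0 : 0 < L := by linarith
  have hsL : 0 < Real.sqrt L := Real.sqrt_pos.mpr hL0
  have hn0 : (0 : ℝ) < n := by
    have : (2 : ℝ) ≤ n := by exact_mod_cast hn5
    linarith
  set Ev := (EV μ 1 n n).toReal with hEv
  have hEve : EV μ 1 n n = ENNReal.ofReal Ev := (ENNReal.ofReal_toReal (EV_lt_top h 1 n n).ne).symm
  have hEv0 : 0 ≤ Ev := ENNReal.toReal_nonneg
  have hϖ32 : ϖ ^ 32 = L ^ 2 := by
    rw [hϖ, ← Real.rpow_natCast, ← Real.rpow_mul hL0.le]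
    norm_num
  have hcore := h.lo_core (by omega : 0 < n) hmA
  have hB : 0 < (Real.sqrt L).toNNReal := Real.toNNReal_pos.mpr hsL
  have hfirst := h.lo_first (by omega : 0 < n) hmA hB
  have hsecond := h.lo_second hn5 hmA (by linarith : 1 ≤ ϖ)
    (lam := cB * ENNReal.ofReal ((1 + Real.sqrt η) * L)) hA1 hA2 (C := C₃)
    (fun j hj y => hC₃ n hn5 n j hj y)
  have hwin := hC₂ n (by exact_mod_cast (by omega : 1 ≤ n))
  have htail := hC₄ ϖ hn3
  have hcB : cB = ENNReal.ofReal (V / (2 * Real.pi ^ 2)) := by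
    rw [cB, hVe, ENNReal.ofReal_div_of_pos (by positivity)]
  have hBe : ((Real.sqrt L).toNNReal : ℝ≥0∞) = ENNReal.ofReal (Real.sqrt L) := rfl
  have hBi : ((Real.sqrt L).toNNReal : ℝ≥0∞)⁻¹ = ENNReal.ofReal ((Real.sqrt L)⁻¹) := by
    rw [hBe, ENNReal.ofReal_inv_of_pos hsL]
  -- everything in the reals
  have hreal : (n : ℝ) * V * ((1 - 8 * Real.sqrt η) * n) ≤
      (Real.sqrt L * Ev + (Real.sqrt L)⁻¹ * n * (C₂ * n)) +
      (V / (2 * Real.pi ^ 2) * ((1 + Real.sqrt η) * L) * Ev +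
        (n : ℝ) ^ 2 * C₃ * L * V * (C₄ * (L ^ 2)⁻¹)) := by
    have hpos1 : 0 ≤ 1 - 8 * Real.sqrt η := by linarith
    rw [← ENNReal.ofReal_le_ofReal_iff (by positivity)]
    have e1 : ENNReal.ofReal ((n : ℝ) * V * ((1 - 8 * Real.sqrt η) * n)) =
        (n : ℝ≥0∞) * volume (Metric.ball (0 : E 4) 1) *
          ENNReal.ofReal ((1 - 8 * Real.sqrt η) * n) := by
      rw [hVe, ENNReal.ofReal_mul (by positivity), ENNReal.ofReal_mul (by positivity),
        ENNReal.ofReal_natCast]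
    have e2 : ENNReal.ofReal ((Real.sqrt L * Ev + (Real.sqrt L)⁻¹ * n * (C₂ * n)) +
      (V / (2 * Real.pi ^ 2) * ((1 + Real.sqrt η) * L) * Ev +
        (n : ℝ) ^ 2 * C₃ * L * V * (C₄ * (L ^ 2)⁻¹))) =
        (((Real.sqrt L).toNNReal : ℝ≥0∞) * EV μ 1 n n +
          ((Real.sqrt L).toNNReal : ℝ≥0∞)⁻¹ * n * ((C₂ : ℝ≥0∞) * ((n : ℝ≥0) : ℝ≥0∞))) +
        (cB * ENNReal.ofReal ((1 + Real.sqrt η) * L) * EV μ 1 n n +
          (n : ℝ≥0∞) ^ 2 * C₃ * ENNReal.ofReal (Real.log n) *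
            volume (Metric.ball (0 : E 4) 1) * ENNReal.ofReal (C₄ * (ϖ ^ 32)⁻¹)) := by
      rw [hϖ32, hBi, hBe, hcB, hVe, hEve, ENNReal.ofReal_add (by positivity) (by positivity),
        ENNReal.ofReal_add (by positivity) (by positivity),
        ENNReal.ofReal_add (by positivity) (by positivity)]
      congr 1
      · congr 1
        · rw [ENNReal.ofReal_mul (by positivity)]
        · rw [ENNReal.ofReal_mul (by positivity), ENNReal.ofReal_mul (by positivity),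
            ENNReal.ofReal_mul (by positivity), ENNReal.ofReal_coe_nnreal,
            ENNReal.ofReal_natCast]
          norm_num
      · congr 1
        · rw [ENNReal.ofReal_mul (by positivity), ENNReal.ofReal_mul (by positivity)]
        · rw [ENNReal.ofReal_mul (by positivity), ENNReal.ofReal_mul (by positivity),
            ENNReal.ofReal_mul (by positivity), ENNReal.ofReal_mul (by positivity),
            ENNReal.ofReal_coe_nnreal, ENNReal.ofReal_pow (by positivity),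
            ENNReal.ofReal_natCast]
    rw [e1, e2]
    calc (n : ℝ≥0∞) * volume (Metric.ball (0 : E 4) 1) *
          ENNReal.ofReal ((1 - 8 * Real.sqrt η) * n)
        ≤ (n : ℝ≥0∞) * volume (Metric.ball (0 : E 4) 1) * ∑ j ∈ Finset.range n, μ (A j) := by
          gcongr
      _ ≤ _ := hcore
      _ ≤ _ := by
          refine add_le_add (hfirst.trans ?_) (hsecond.trans ?_)
          · gcongr
          · gcongr
  -- conclusion
  rw [div_le_iff₀ hL0]
  have hpi : 0 < Real.pi ^ 2 := by positivity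
  have hkey : (n : ℝ) ^ 2 * (V * (1 - 8 * Real.sqrt η) - C₂ * (Real.sqrt L)⁻¹ -
      C₃ * V * C₄ * L⁻¹) ≤ (Real.sqrt L + V / (2 * Real.pi ^ 2) * ((1 + Real.sqrt η) * L)) * Ev := by
    have e3 : (n : ℝ) ^ 2 * C₃ * L * V * (C₄ * (L ^ 2)⁻¹) = (n : ℝ) ^ 2 * (C₃ * V * C₄ * L⁻¹) := by
      field_simp
    rw [e3] at hreal
    nlinarith
  set D := Real.sqrt L + V / (2 * Real.pi ^ 2) * ((1 + Real.sqrt η) * L) with hD
  have hD0 : 0 < D := by positivity
  rcases le_or_gt 1 ε with hε1 | hε1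
  · have : (1 - ε) * (2 * Real.pi ^ 2) * (n : ℝ) ^ 2 ≤ 0 := by
      have : 0 ≤ (2 * Real.pi ^ 2) * (n : ℝ) ^ 2 := by positivity
      nlinarith
    exact this.trans (by positivity)
  -- main case
  have hbr : (1 - ε) * (2 * Real.pi ^ 2) * D ≤
      L * (V * (1 - 8 * Real.sqrt η) - C₂ * (Real.sqrt L)⁻¹ - C₃ * V * C₄ * L⁻¹) := by
    have hsq : Real.sqrt L = L * (Real.sqrt L)⁻¹ := by
      rw [← div_eq_mul_inv, Real.div_sqrt]
    have e4 : (1 - ε) * (2 * Real.pi ^ 2) * D =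
        L * ((1 - ε) * (2 * Real.pi ^ 2) * (Real.sqrt L)⁻¹ + (1 - ε) * (1 + Real.sqrt η) * V) := by
      rw [hD]
      conv_lhs => rw [hsq]
      field_simp
    rw [e4]
    refine mul_le_mul_of_nonneg_left ?_ hL0.le
    have h1 : (1 - ε) * (2 * Real.pi ^ 2) * (Real.sqrt L)⁻¹ ≤
        (2 * Real.pi ^ 2) * (Real.sqrt L)⁻¹ := by
      have : 0 ≤ (2 * Real.pi ^ 2) * (Real.sqrt L)⁻¹ := by positivity
      nlinarith
    have h2 : (1 - ε) * (1 + Real.sqrt η) ≤ 1 - 9 * Real.sqrt η := by nlinarith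
    have h3 : (1 - ε) * (1 + Real.sqrt η) * V ≤ (1 - 9 * Real.sqrt η) * V := by gcongr
    nlinarith
  have h5 : (1 - ε) * (2 * Real.pi ^ 2) * (n : ℝ) ^ 2 * D ≤ Ev * L * D := by
    calc (1 - ε) * (2 * Real.pi ^ 2) * (n : ℝ) ^ 2 * D
        = (n : ℝ) ^ 2 * ((1 - ε) * (2 * Real.pi ^ 2) * D) := by ring
      _ ≤ (n : ℝ) ^ 2 * (L * (V * (1 - 8 * Real.sqrt η) - C₂ * (Real.sqrt L)⁻¹ -
            C₃ * V * C₄ * L⁻¹)) := by gcongr
      _ = L * ((n : ℝ) ^ 2 * (V * (1 - 8 * Real.sqrt η) - C₂ * (Real.sqrt L)⁻¹ -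
            C₃ * V * C₄ * L⁻¹)) := by ring
      _ ≤ L * (D * Ev) := by gcongr
      _ = Ev * L * D := by ring
  exact le_of_mul_le_mul_right h5 hD0

end WSP
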