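import Pool.Agent.Lib_MP_c175fd.UpC
import Pool.Agent.Lib_MP_c175fd.LoE
import Pool.Agent.Lib_MP_c175fd.LimFive
import Pool.Agent.Lib_MP_c175fd.AnFactsR

/-!
# Piece LIM4: the limit in dimension four, and the analytic facts in all dimensions

Pass from integers to real `T` by monotonicity (`EV_mono`, `⌊T⌋ ≤ T ≤ ⌊T⌋ + 1`), then
`anFacts_four` (the a priori bound `EV2_le_apriori` at integers gives the hypothesis `hC`: for `T` real use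
`EV2 T T ≤ EV2 ⌈T⌉ ⌈T⌉` and `EV ⌈T⌉ ⌈T⌉ ≤ 2 EV T T` for large `T` by the limit), `anFacts_five` (hypothesis `hC`
from `EV2_le_five` and `EV_ge_five`).
-/

open MeasureTheory ProbabilityTheory Filter Topology
open scoped ENNReal NNReal

namespace WSP

/-- the limit along the integers -/
theorem IsWiener.lim4_nat {μ : Measure (Path 4)} (h : IsWiener μ) :
    Tendsto (fun n : ℕ => (EV μ 1 n n).toReal * Real.log n / (n : ℝ) ^ 2) atTop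
      (𝓝 (2 * Real.pi ^ 2)) := by
  have hκ : 0 < 2 * Real.pi ^ 2 := by positivity
  rw [Metric.tendsto_nhds]
  intro δ hδ
  have hε : 0 < δ / (2 * (2 * Real.pi ^ 2)) := by positivity
  filter_upwards [h.EV_upper_four hε, h.EV_lower_four hε, eventually_ge_atTop 2] with n h1 h2 hn
  have hn' : (2 : ℝ) ≤ n := by exact_mod_cast hn
  have hlog : 0 < Real.log n := Real.log_pos (by linarith)
  have hn2 : (0 : ℝ) < (n : ℝ) ^ 2 := by positivity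
  set v := (EV μ 1 n n).toReal with hv
  set ε := δ / (2 * (2 * Real.pi ^ 2)) with hεd
  have hεκ : ε * (2 * Real.pi ^ 2) = δ / 2 := by
    rw [hεd]
    field_simp
  have e1 : v * Real.log n / (n : ℝ) ^ 2 ≤ (1 + ε) * (2 * Real.pi ^ 2) := by
    rw [le_div_iff₀ hlog] at h1
    rw [div_le_iff₀ hn2]
    exact h1
  have e2 : (1 - ε) * (2 * Real.pi ^ 2) ≤ v * Real.log n / (n : ℝ) ^ 2 := by
    rw [div_le_iff₀ hlog] at h2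
    rw [le_div_iff₀ hn2]
    exact h2
  rw [Real.dist_eq, abs_lt]
  constructor
  · nlinarith
  · nlinarith

theorem lim4_floor_cast (T : ℝ≥0) : ((⌊T⌋₊ : ℕ) : ℝ≥0) ≤ T := Nat.floor_le zero_le

theorem IsWiener.EV_limit_four {μ : Measure (Path 4)} (h : IsWiener μ) :
    Tendsto (fun T : ℝ≥0 => (EV μ 1 T T).toReal * Real.log T / (T : ℝ) ^ 2) atTop
      (𝓝 (2 * Real.pi ^ 2)) := by
  have hfl : Tendsto (fun T : ℝ≥0 => ⌊T⌋₊) atTop atTop := tendsto_nat_floor_atTop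
  have hinv : Tendsto (fun n : ℕ => ((n : ℝ) / ((n : ℝ) + 1)) ^ 2) atTop (𝓝 1) := by
    have h1 := (tendsto_natCast_div_add_atTop (1 : ℝ)).pow 2
    rwa [one_pow] at h1
  have hinv2 : Tendsto (fun n : ℕ => (((n : ℝ) / ((n : ℝ) + 1)) ^ 2)⁻¹) atTop (𝓝 1) := by
    have h1 := hinv.inv₀ one_ne_zero
    rwa [inv_one] at h1
  have hlow : Tendsto (fun n : ℕ => (EV μ 1 n n).toReal * Real.log n / (n : ℝ) ^ 2 * ((n : ℝ) / ((n : ℝ) + 1)) ^ 2)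
      atTop (𝓝 (2 * Real.pi ^ 2)) := by
    have h1 := h.lim4_nat.mul hinv
    rwa [mul_one] at h1
  have hupp : Tendsto (fun n : ℕ => (EV μ 1 ((n + 1 : ℕ) : ℝ≥0) ((n + 1 : ℕ) : ℝ≥0)).toReal *
      Real.log ((n + 1 : ℕ) : ℝ) / ((n + 1 : ℕ) : ℝ) ^ 2 * (((n : ℝ) / ((n : ℝ) + 1)) ^ 2)⁻¹)
      atTop (𝓝 (2 * Real.pi ^ 2)) := by
    have h1 := (h.lim4_nat.comp (tendsto_add_atTop_nat 1)).mul hinv2
    rw [mul_one] at h1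
    exact h1
  refine tendsto_of_tendsto_of_tendsto_of_le_of_le' (hlow.comp hfl) (hupp.comp hfl) ?_ ?_
  · filter_upwards [hfl.eventually (eventually_ge_atTop 2)] with T hT
    have hn : (2 : ℝ) ≤ ((⌊T⌋₊ : ℕ) : ℝ) := by exact_mod_cast hT
    have hle : ((⌊T⌋₊ : ℕ) : ℝ≥0) ≤ T := lim4_floor_cast T
    have hleR : ((⌊T⌋₊ : ℕ) : ℝ) ≤ (T : ℝ) := by exact_mod_cast hle
    have hlt : (T : ℝ) ≤ ((⌊T⌋₊ : ℕ) : ℝ) + 1 := by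
      have h1 : T < (⌊T⌋₊ : ℝ≥0) + 1 := Nat.lt_floor_add_one T
      exact_mod_cast h1.le
    have hv : (EV μ 1 (⌊T⌋₊ : ℝ≥0) (⌊T⌋₊ : ℝ≥0)).toReal ≤ (EV μ 1 T T).toReal :=
      ENNReal.toReal_mono (EV_lt_top h 1 T T).ne (EV_mono le_rfl hle hle)
    have hlog0 : 0 ≤ Real.log ((⌊T⌋₊ : ℕ) : ℝ) := Real.log_nonneg (by linarith)
    have hlog : Real.log ((⌊T⌋₊ : ℕ) : ℝ) ≤ Real.log (T : ℝ) := Real.log_le_log (by linarith) hleR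
    show (EV μ 1 (⌊T⌋₊ : ℝ≥0) (⌊T⌋₊ : ℝ≥0)).toReal * Real.log ((⌊T⌋₊ : ℕ) : ℝ) / ((⌊T⌋₊ : ℕ) : ℝ) ^ 2 *
      (((⌊T⌋₊ : ℕ) : ℝ) / (((⌊T⌋₊ : ℕ) : ℝ) + 1)) ^ 2 ≤ (EV μ 1 T T).toReal * Real.log T / (T : ℝ) ^ 2
    have e1 : (EV μ 1 (⌊T⌋₊ : ℝ≥0) (⌊T⌋₊ : ℝ≥0)).toReal * Real.log ((⌊T⌋₊ : ℕ) : ℝ) / ((⌊T⌋₊ : ℕ) : ℝ) ^ 2 *
      (((⌊T⌋₊ : ℕ) : ℝ) / (((⌊T⌋₊ : ℕ) : ℝ) + 1)) ^ 2 =
      (EV μ 1 (⌊T⌋₊ : ℝ≥0) (⌊T⌋₊ : ℝ≥0)).toReal * Real.log ((⌊T⌋₊ : ℕ) : ℝ) / (((⌊T⌋₊ : ℕ) : ℝ) + 1) ^ 2 := by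
      have : ((⌊T⌋₊ : ℕ) : ℝ) ≠ 0 := by linarith
      field_simp
    rw [e1]
    have hTpos : (0 : ℝ) < T := by linarith
    have hnn : 0 ≤ (EV μ 1 T T).toReal * Real.log T :=
      mul_nonneg ENNReal.toReal_nonneg (hlog0.trans hlog)
    gcongr
  · filter_upwards [hfl.eventually (eventually_ge_atTop 2)] with T hT
    have hn : (2 : ℝ) ≤ ((⌊T⌋₊ : ℕ) : ℝ) := by exact_mod_cast hT
    have hle : ((⌊T⌋₊ : ℕ) : ℝ≥0) ≤ T := lim4_floor_cast T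
    have hleR : ((⌊T⌋₊ : ℕ) : ℝ) ≤ (T : ℝ) := by exact_mod_cast hle
    have hltN : T ≤ ((⌊T⌋₊ + 1 : ℕ) : ℝ≥0) := by
      have h1 : T < (⌊T⌋₊ : ℝ≥0) + 1 := Nat.lt_floor_add_one T
      exact_mod_cast h1.le
    have hlt : (T : ℝ) ≤ ((⌊T⌋₊ + 1 : ℕ) : ℝ) := by exact_mod_cast hltN
    have hv : (EV μ 1 T T).toReal ≤ (EV μ 1 ((⌊T⌋₊ + 1 : ℕ) : ℝ≥0) ((⌊T⌋₊ + 1 : ℕ) : ℝ≥0)).toReal :=
      ENNReal.toReal_mono (EV_lt_top h 1 _ _).ne (EV_mono le_rfl hltN hltN)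
    have hlog0 : 0 ≤ Real.log (T : ℝ) := Real.log_nonneg (by linarith)
    have hlog : Real.log (T : ℝ) ≤ Real.log ((⌊T⌋₊ + 1 : ℕ) : ℝ) := Real.log_le_log (by linarith) hlt
    show (EV μ 1 T T).toReal * Real.log T / (T : ℝ) ^ 2 ≤
      (EV μ 1 ((⌊T⌋₊ + 1 : ℕ) : ℝ≥0) ((⌊T⌋₊ + 1 : ℕ) : ℝ≥0)).toReal *
      Real.log ((⌊T⌋₊ + 1 : ℕ) : ℝ) / ((⌊T⌋₊ + 1 : ℕ) : ℝ) ^ 2 * ((((⌊T⌋₊ : ℕ) : ℝ) / (((⌊T⌋₊ : ℕ) : ℝ) + 1)) ^ 2)⁻¹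
    have e1 : (EV μ 1 ((⌊T⌋₊ + 1 : ℕ) : ℝ≥0) ((⌊T⌋₊ + 1 : ℕ) : ℝ≥0)).toReal *
      Real.log ((⌊T⌋₊ + 1 : ℕ) : ℝ) / ((⌊T⌋₊ + 1 : ℕ) : ℝ) ^ 2 * ((((⌊T⌋₊ : ℕ) : ℝ) / (((⌊T⌋₊ : ℕ) : ℝ) + 1)) ^ 2)⁻¹ =
      (EV μ 1 ((⌊T⌋₊ + 1 : ℕ) : ℝ≥0) ((⌊T⌋₊ + 1 : ℕ) : ℝ≥0)).toReal *
      Real.log ((⌊T⌋₊ + 1 : ℕ) : ℝ) / ((⌊T⌋₊ : ℕ) : ℝ) ^ 2 := by
      have h1 : ((⌊T⌋₊ : ℕ) : ℝ) ≠ 0 := by linarith
      have h2 : ((⌊T⌋₊ : ℕ) : ℝ) + 1 ≠ 0 := by linarith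
      rw [Nat.cast_add_one ⌊T⌋₊ (R := ℝ)]
      field_simp
    rw [e1]
    have hTpos : (0 : ℝ) < T := by linarith
    gcongr

theorem lim4_log_sq (E : ℝ) : ∀ᶠ n : ℕ in atTop, E * Real.log n ^ 2 ≤ (n : ℝ) := by
  have h1 : Tendsto (fun x : ℝ => Real.log x ^ 2 / x) atTop (𝓝 0) := by
    have := Real.tendsto_pow_log_div_mul_add_atTop 1 0 2 one_ne_zero
    simpa using this
  have h2 : Tendsto (fun n : ℕ => Real.log (n : ℝ) ^ 2 / (n : ℝ)) atTop (𝓝 0) := h1.comp tendsto_natCast_atTop_atTop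
  have hpos : 0 < 1 / (|E| + 1) := by positivity
  filter_upwards [h2.eventually (gt_mem_nhds hpos), eventually_ge_atTop 1] with n hn hn1
  have hn' : (0 : ℝ) < n := by exact_mod_cast hn1
  have h3 : Real.log (n : ℝ) ^ 2 / (n : ℝ) < 1 / (|E| + 1) := hn
  rw [div_lt_div_iff₀ hn' (by positivity)] at h3
  have h4 : E * Real.log n ^ 2 ≤ |E| * Real.log n ^ 2 := mul_le_mul_of_nonneg_right (le_abs_self E) (sq_nonneg _)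
  have h5 : 0 ≤ Real.log (n : ℝ) ^ 2 := sq_nonneg _
  nlinarith

/-- the a priori bound at large integers -/
theorem IsWiener.lim4_apriori {μ : Measure (Path 4)} (h : IsWiener μ) :
    ∀ᶠ n : ℕ in atTop, EV2 μ 1 n n ≤ 5 * (EV μ 1 n n) ^ 2 := by
  have hκ : 0 < Real.pi ^ 4 := by positivity
  set e : ℝ := (EV2 μ 1 1 1).toReal with he
  have he0 : 0 ≤ e := ENNReal.toReal_nonneg
  filter_upwards [h.EV_lower_four (ε := 1 / 2) (by norm_num), lim4_log_sq (6 * e / Real.pi ^ 4), eventually_ge_atTop 2]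
    with n h1 h2 hn
  have hn' : (2 : ℝ) ≤ n := by exact_mod_cast hn
  have hn0 : (0 : ℝ) < n := by linarith
  have hlog : 0 < Real.log n := Real.log_pos (by linarith)
  have hfin : EV μ 1 n n ≠ ∞ := (EV_lt_top h 1 n n).ne
  have hfin2 : EV2 μ 1 1 1 ≠ ∞ := (EV2_lt_top h 1 1 1).ne
  set v : ℝ := (EV μ 1 n n).toReal with hv
  have h3 : Real.pi ^ 2 * n ^ 2 ≤ v * Real.log n := by
    rw [div_le_iff₀ hlog] at h1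
    linarith
  have h4 : 6 * e * Real.log n ^ 2 ≤ Real.pi ^ 4 * n := by
    have h5 := mul_le_mul_of_nonneg_left h2 hκ.le
    have h6 : Real.pi ^ 4 * (6 * e / Real.pi ^ 4 * Real.log n ^ 2) = 6 * e * Real.log n ^ 2 := by
      field_simp
    rw [h6] at h5
    exact h5
  have h5 : 6 * (n : ℝ) ^ 3 * e ≤ v ^ 2 := by
    have h6 : (Real.pi ^ 2 * n ^ 2) ^ 2 ≤ (v * Real.log n) ^ 2 := pow_le_pow_left₀ (by positivity) h3 2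
    have h7 : 6 * (n : ℝ) ^ 3 * e * Real.log n ^ 2 ≤ v ^ 2 * Real.log n ^ 2 := by
      calc 6 * (n : ℝ) ^ 3 * e * Real.log n ^ 2 = n ^ 3 * (6 * e * Real.log n ^ 2) := by ring
        _ ≤ n ^ 3 * (Real.pi ^ 4 * n) := mul_le_mul_of_nonneg_left h4 (by positivity)
        _ = (Real.pi ^ 2 * n ^ 2) ^ 2 := by ring
        _ ≤ (v * Real.log n) ^ 2 := h6
        _ = v ^ 2 * Real.log n ^ 2 := by ring
    exact le_of_mul_le_mul_right h7 (by positivity)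
  have h8 : 6 * (n : ℝ≥0∞) ^ 3 * EV2 μ 1 1 1 ≤ (EV μ 1 n n) ^ 2 := by
    have e1 : (6 * (n : ℝ≥0∞) ^ 3 * EV2 μ 1 1 1).toReal = 6 * (n : ℝ) ^ 3 * e := by
      rw [ENNReal.toReal_mul, ENNReal.toReal_mul, ENNReal.toReal_pow, ENNReal.toReal_natCast]
      norm_num [he]
    have e2 : ((EV μ 1 n n) ^ 2).toReal = v ^ 2 := by
      rw [ENNReal.toReal_pow]
    have hf1 : 6 * (n : ℝ≥0∞) ^ 3 * EV2 μ 1 1 1 ≠ ∞ :=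
      ENNReal.mul_ne_top (ENNReal.mul_ne_top (by norm_num) (ENNReal.pow_ne_top (ENNReal.natCast_ne_top n))) hfin2
    rw [← ENNReal.toReal_le_toReal hf1 (ENNReal.pow_ne_top hfin), e1, e2]
    exact h5
  calc EV2 μ 1 n n ≤ 6 * (n : ℝ≥0∞) ^ 3 * EV2 μ 1 1 1 + 4 * (EV μ 1 n n) ^ 2 := EV2_le_apriori h (by omega)
    _ ≤ (EV μ 1 n n) ^ 2 + 4 * (EV μ 1 n n) ^ 2 := by gcongr
    _ = 5 * (EV μ 1 n n) ^ 2 := by ring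

theorem IsWiener.anFacts_four' {μ : Measure (Path 4)} (h : IsWiener μ) :
    AnFacts 4 μ (Real.pi ^ 2) := by
  have hC : ∀ᶠ T : ℝ≥0 in atTop, EV2 μ 1 T T ≤ ENNReal.ofReal 80 * (EV μ 1 T T) ^ 2 := by
    have hcl : Tendsto (fun T : ℝ≥0 => ⌈T⌉₊) atTop atTop := tendsto_nat_ceil_atTop
    filter_upwards [hcl.eventually h.lim4_apriori, eventually_ge_atTop 1] with T hT hT1
    have h1 : T ≤ ((⌈T⌉₊ : ℕ) : ℝ≥0) := Nat.le_ceil T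
    have h2 : ((⌈T⌉₊ : ℕ) : ℝ≥0) ≤ ((2 : ℕ) : ℝ≥0) * T := by
      have h3 : ((⌈T⌉₊ : ℕ) : ℝ≥0) < T + 1 := Nat.ceil_lt_add_one zero_le
      calc ((⌈T⌉₊ : ℕ) : ℝ≥0) ≤ T + 1 := h3.le
        _ ≤ T + T := by gcongr
        _ = ((2 : ℕ) : ℝ≥0) * T := by push_cast; ring
    have h4 : EV μ 1 (⌈T⌉₊ : ℝ≥0) (⌈T⌉₊ : ℝ≥0) ≤ 4 * EV μ 1 T T := by
      calc EV μ 1 (⌈T⌉₊ : ℝ≥0) (⌈T⌉₊ : ℝ≥0) ≤ EV μ 1 (((2 : ℕ) : ℝ≥0) * T) (((2 : ℕ) : ℝ≥0) * T) :=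
            EV_mono le_rfl h2 h2
        _ ≤ ((2 : ℕ) : ℝ≥0∞) * ((2 : ℕ) : ℝ≥0∞) * EV μ 1 T T := EV_block h 1 (by norm_num) (by norm_num) T T
        _ = 4 * EV μ 1 T T := by norm_num
    have e80 : ENNReal.ofReal 80 = 80 := by norm_num
    calc EV2 μ 1 T T ≤ EV2 μ 1 (⌈T⌉₊ : ℝ≥0) (⌈T⌉₊ : ℝ≥0) := EV2_mono le_rfl h1 h1
      _ ≤ 5 * (EV μ 1 (⌈T⌉₊ : ℝ≥0) (⌈T⌉₊ : ℝ≥0)) ^ 2 := hT
      _ ≤ 5 * (4 * EV μ 1 T T) ^ 2 := by gcongr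
      _ = 80 * (EV μ 1 T T) ^ 2 := by ring
      _ = ENNReal.ofReal 80 * (EV μ 1 T T) ^ 2 := by rw [e80]
  have h1 := anFacts_four h (κ := 2 * Real.pi ^ 2) (C := 80) (by positivity) h.EV_limit_four hC
  have h2 : 2 * Real.pi ^ 2 / 2 = Real.pi ^ 2 := by ring
  rwa [h2] at h1

theorem IsWiener.anFacts_five' {d : ℕ} (hd : 5 ≤ d) {μ : Measure (Path d)} (h : IsWiener μ) :
    ∃ κ, AnFacts d μ κ := by
  obtain ⟨κ, hκ, hlim⟩ := h.EV_limit_five hd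
  obtain ⟨c, hc, hge⟩ := h.EV_ge_five hd
  obtain ⟨C, hC⟩ := h.EV2_le_five
  refine ⟨κ * 2 ^ (d - 4), anFacts_five h hd (C := C / c ^ 2) hκ hlim ?_⟩
  filter_upwards [eventually_ge_atTop 1] with T hT
  have hc0 : (c : ℝ≥0∞) ≠ 0 := by exact_mod_cast hc.ne'
  have hcR : (0 : ℝ) < c := by exact_mod_cast hc
  have e1 : ENNReal.ofReal (C / c ^ 2) = (C : ℝ≥0∞) / (c : ℝ≥0∞) ^ 2 := by
    rw [ENNReal.ofReal_div_of_pos (by positivity), ENNReal.ofReal_pow hcR.le, ENNReal.ofReal_coe_nnreal,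
      ENNReal.ofReal_coe_nnreal]
  rw [e1]
  calc EV2 μ 1 T T ≤ (C : ℝ≥0∞) * (T : ℝ≥0∞) ^ 4 := hC T hT
    _ = (C : ℝ≥0∞) / (c : ℝ≥0∞) ^ 2 * ((c : ℝ≥0∞) * (T : ℝ≥0∞) ^ 2) ^ 2 := by
        rw [mul_pow, ← mul_assoc, ENNReal.div_mul_cancel (pow_ne_zero 2 hc0) (ENNReal.pow_ne_top ENNReal.coe_ne_top),
          ← pow_mul]
    _ ≤ (C : ℝ≥0∞) / (c : ℝ≥0∞) ^ 2 * (EV μ 1 T T) ^ 2 := by gcongr; exact hge T

end WSP
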