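import Pool.Agent.Lib_MP_c175fd.Perc

/-!
# Piece TOPOF
-/

open MeasureTheory ProbabilityTheory Filter Topology
open scoped ENNReal NNReal

namespace WSP

variable {d : ℕ}

theorem topof_isOpen (r : ℝ) (t : ℝ≥0) (y : Mark d) : IsOpen (sausage r t y) := by
  have e : sausage r t y = ⋃ s : ℝ≥0, ⋃ _ : s ≤ t, Metric.ball (y.1 + y.2 s) r := by
    ext x
    unfold sausage
    simp only [Set.mem_ofPred_eq, Set.mem_iUnion, Metric.mem_ball, exists_prop]
  rw [e]
  exact isOpen_iUnion fun s => isOpen_iUnion fun _ => Metric.isOpen_ball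

theorem topof_isBounded (r : ℝ) (t : ℝ≥0) (y : Mark d) : Bornology.IsBounded (sausage r t y) := by
  have hK : IsCompact ((fun s : ℝ≥0 => y.1 + y.2 s) '' Set.Icc 0 t) :=
    isCompact_Icc.image (continuous_const.add y.2.2.1)
  refine (hK.isBounded.thickening (δ := r)).subset ?_
  rintro x ⟨s, hs, hx⟩
  rw [Metric.mem_thickening_iff]
  exact ⟨y.1 + y.2 s, ⟨s, ⟨zero_le, hs⟩, rfl⟩, hx⟩

/-- Piece TOPOF: if all clusters are finite then the union of the sausages does not percolate. The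
union is a disjoint union over the clusters of open sets, a path component lies in one of them, and
a finite union of sausages is bounded (continuity of the paths on `[0, t]`). -/
theorem not_percolates_of_finite {ι : Type*} {J : Set ι} {y : ι → Mark d} {r : ℝ} (hr : 0 < r)
    {t : ℝ≥0} (h : ∀ i ∈ J, {j | Relation.ReflTransGen (adjI J y r t) i j}.Finite) :
    ¬ Percolates (⋃ i ∈ J, sausage r t (y i)) := by
  rintro ⟨x, hxS, hb⟩
  apply hb
  obtain ⟨i0, hi0, hx⟩ := Set.mem_iUnion₂.1 hxS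
  set C : Set ι := {j | Relation.ReflTransGen (adjI J y r t) i0 j} with hC
  have hfin : C.Finite := h i0 hi0
  have hi0C : i0 ∈ C := Relation.ReflTransGen.refl
  -- the two open sets
  have hUo : IsOpen (⋃ j ∈ C, sausage r t (y j)) :=
    isOpen_iUnion fun j => isOpen_iUnion fun _ => topof_isOpen r t (y j)
  have hVo : IsOpen (⋃ j ∈ J \ C, sausage r t (y j)) :=
    isOpen_iUnion fun j => isOpen_iUnion fun _ => topof_isOpen r t (y j)
  have hcov : (⋃ i ∈ J, sausage r t (y i)) ⊆
      (⋃ j ∈ C, sausage r t (y j)) ∪ (⋃ j ∈ J \ C, sausage r t (y j)) := by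
    intro z hz
    obtain ⟨j, hj, hzj⟩ := Set.mem_iUnion₂.1 hz
    by_cases hjC : j ∈ C
    · exact Or.inl (Set.mem_iUnion₂.2 ⟨j, hjC, hzj⟩)
    · exact Or.inr (Set.mem_iUnion₂.2 ⟨j, ⟨hj, hjC⟩, hzj⟩)
  have hCJ : ∀ j ∈ C, j ∈ J := by
    intro j hj
    rcases Relation.ReflTransGen.cases_tail hj with h1 | ⟨k, _, hk⟩
    · rw [h1]
      exact hi0
    · exact hk.2.1
  have hdisj : Disjoint (⋃ j ∈ C, sausage r t (y j)) (⋃ j ∈ J \ C, sausage r t (y j)) := by
    rw [Set.disjoint_left]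
    intro z hz hz'
    obtain ⟨j, hj, hzj⟩ := Set.mem_iUnion₂.1 hz
    obtain ⟨k, hk, hzk⟩ := Set.mem_iUnion₂.1 hz'
    apply hk.2
    have hadj : adjI J y r t j k :=
      ⟨hCJ j hj, hk.1, (inter_sausage_iff hr t (y j) (y k)).1 ⟨z, hzj, hzk⟩⟩
    exact Relation.ReflTransGen.tail hj hadj
  have hpc : IsPathConnected (pathComponentIn (⋃ i ∈ J, sausage r t (y i)) x) :=
    isPathConnected_pathComponentIn hxS
  have hsub : pathComponentIn (⋃ i ∈ J, sausage r t (y i)) x ⊆ ⋃ j ∈ C, sausage r t (y j) := by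
    refine IsPreconnected.subset_left_of_subset_union hUo hVo hdisj
      (pathComponentIn_subset.trans hcov) ⟨x, mem_pathComponentIn_self hxS, ?_⟩
      hpc.isConnected.isPreconnected
    exact Set.mem_iUnion₂.2 ⟨i0, hi0C, hx⟩
  refine Bornology.IsBounded.subset ?_ hsub
  rw [Bornology.isBounded_biUnion hfin]
  exact fun j _ => topof_isBounded r t (y j)

end WSP
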