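import Pool.Agent.Lib_MP_c175fd.ChainM
import Pool.Agent.Lib_MP_c175fd.PercFin
import Pool.Agent.Lib_MP_c175fd.Mecke

/-!
# Pieces CHAINM, SUBFIN: no percolation below the critical time

CHAINM: the measure of the chains `z 0, ..., z n` with `(z 0).1 ∈ Q` is
`volume Q * E ∏_{i < n} Vol (W_i, W_{i+1})` (integrate the positions, starting with the last one), and
`T_n w = E [∏ ... | W_0 = w]` satisfies `T_{n+1} w = ∫ Vol w w' T_n w' dμ`, so
`∫ T_{n+1}^2 ≤ EV2 * ∫ T_n^2` (Cauchy-Schwarz) and `(E T_n)^2 ≤ ∫ T_n^2 ≤ EV2^n`.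

SUBFIN: if `EV2 < 1`, the mean of the total number of injective chains (of all lengths) started in the
cube `k` is at most `∑_n EV2^(n/2) < ∞` (Mecke formula, chains are a special case of `cnt` with
`V = Fin (n + 1)`). So almost surely it is finite for all `k`; every element of the cluster of a
present index `i` is `i` or the last element of an injective chain of present indices from `i`
(shorten the path given by `ReflTransGen`), so the cluster is finite; conclude by
`not_percolates_of_finite`.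
-/

open MeasureTheory ProbabilityTheory Filter Topology
open scoped ENNReal NNReal

namespace WSP

variable {d : ℕ}

/-- Piece SUBFIN: every element of the cluster is reached by an injective chain. -/
theorem exists_embedding_of_reflTransGen {ι : Type*} {J : Set ι} {y : ι → Mark d} {r : ℝ}
    {t : ℝ≥0} {i j : ι} (hi : i ∈ J) (h : Relation.ReflTransGen (adjI J y r t) i j) :
    ∃ (n : ℕ) (a : Fin (n + 1) ↪ ι), a 0 = i ∧ a (Fin.last n) = j ∧ (∀ v, a v ∈ J) ∧
      ∀ k : Fin n, hitR (2 * r) t t (y (a k.castSucc)) (y (a k.succ)) := by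
  classical
  let G : SimpleGraph ι :=
    { Adj := fun a b => a ≠ b ∧ adjI J y r t a b
      symm := ⟨fun a b hab => ⟨hab.1.symm, adjI_symm hab.2⟩⟩
      loopless := ⟨fun a ha => ha.1 rfl⟩ }
  have hreach : G.Reachable i j := by
    induction h with
    | refl => exact SimpleGraph.Reachable.refl _
    | @tail b c _ hbc ih =>
      by_cases hbc' : b = c
      · exact hbc' ▸ ih
      · exact ih.trans (SimpleGraph.Adj.reachable (show G.Adj b c from ⟨hbc', hbc⟩))
  obtain ⟨p, hp⟩ := hreach.exists_isPath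
  have hadj : ∀ k, k < p.length → G.Adj (p.getVert k) (p.getVert (k + 1)) :=
    fun k hk => p.adj_getVert_succ hk
  refine ⟨p.length, ⟨fun k => p.getVert k, ?_⟩, ?_, ?_, ?_, ?_⟩
  · intro k l hkl
    exact Fin.ext (hp.getVert_injOn (by simpa using Nat.lt_succ_iff.mp k.2)
      (by simpa using Nat.lt_succ_iff.mp l.2) hkl)
  · simp
  · simp
  · intro v
    show p.getVert v ∈ J
    rcases v with ⟨v, hv⟩
    cases v with
    | zero => simpa using hi
    | succ v => exact (hadj v (by omega)).2.2.1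
  · intro k
    show hitR (2 * r) t t (y (p.getVert k)) (y (p.getVert (k + 1)))
    exact (hadj k k.2).2.2.2

/-- Piece SUBFIN. -/
theorem not_percolates_subcritical {Ω : Type*} [MeasurableSpace Ω] {P : Measure Ω}
    [IsProbabilityMeasure P] {μ : Measure (Path d)} [IsProbabilityMeasure μ] (M : PM d P μ)
    {r : ℝ} (hr : 0 < r) {t : ℝ≥0} (hE : EV2 μ (2 * r) t t < 1) :
    ∀ᵐ ω ∂P, ¬ Percolates (M.occ r t ω) := by
  classical
  set e : ℝ≥0∞ := EV2 μ (2 * r) t t with he
  set q : ℝ≥0∞ := e ^ (1 / 2 : ℝ) with hq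
  have hq1 : q < 1 := ENNReal.rpow_lt_one hE (by norm_num)
  have hsqrt : ∀ x : ℝ≥0∞, (x ^ 2) ^ (1 / 2 : ℝ) = x := by
    intro x
    rw [← ENNReal.rpow_natCast, ← ENNReal.rpow_mul]
    norm_num
  -- the mean number of chains
  have hmean : ∀ (k : Fin d → ℤ) (n : ℕ),
      ∫⁻ ω, cnt M.pres M.y (chainSet (2 * r) t (cube k) n) ω ∂P ≤ q ^ n := by
    intro k n
    rw [M.mecke (Fin (n + 1)) _ (measurableSet_chainSet _ _ (PM.measurableSet_cube k) n)]
    have h1 := pi_chainSet_sq_le μ (2 * r) t (PM.measurableSet_cube k) n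
    rw [PM.volume_cube, one_pow, one_mul, ← he] at h1
    have h2 := ENNReal.rpow_le_rpow h1 (by norm_num : (0 : ℝ) ≤ 1 / 2)
    rw [hsqrt] at h2
    refine h2.trans (le_of_eq ?_)
    rw [hq, ← ENNReal.rpow_natCast, ← ENNReal.rpow_natCast, ← ENNReal.rpow_mul,
      ← ENNReal.rpow_mul, mul_comm]
  have hmeas : ∀ (k : Fin d → ℤ) (n : ℕ),
      Measurable (cnt M.pres M.y (chainSet (2 * r) t (cube k) n)) := fun k n =>
    measurable_cnt M.measurableSet_pres M.measy
      (measurableSet_chainSet _ _ (PM.measurableSet_cube k) n)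
  have hfin : ∀ᵐ ω ∂P, ∀ k : Fin d → ℤ,
      ∑' n : ℕ, cnt M.pres M.y (chainSet (2 * r) t (cube k) n) ω < ∞ := by
    rw [ae_all_iff]
    intro k
    refine ae_lt_top' (Measurable.tsum (hmeas k)).aemeasurable ?_
    rw [lintegral_tsum fun n => (hmeas k n).aemeasurable]
    refine ne_top_of_le_ne_top ?_ (ENNReal.tsum_le_tsum (hmean k))
    rw [ENNReal.tsum_geometric]
    exact ENNReal.inv_ne_top.2 (tsub_pos_of_lt hq1).ne'
  filter_upwards [hfin] with ω hω
  refine not_percolates_of_finite hr fun i hi => ?_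
  set k : Fin d → ℤ := fun l => ⌊(M.y i ω).1 l⌋ with hk
  have hik : (M.y i ω).1 ∈ cube k := fun l =>
    ⟨Int.floor_le _, Int.lt_floor_add_one _⟩
  have h1 := (hω k).ne
  simp only [cnt] at h1
  rw [← ENNReal.tsum_sigma (fun (n : ℕ) (a : Fin (n + 1) ↪ Idx d) =>
    Set.indicator {ω | (∀ v, ω ∈ M.pres (a v)) ∧
      (fun v => M.y (a v) ω) ∈ chainSet (2 * r) t (cube k) n} (fun _ => (1 : ℝ≥0∞)) ω)] at h1
  have h2 := ENNReal.finite_const_le_of_tsum_ne_top h1 (one_ne_zero)
  refine (h2.image fun p : (Σ n : ℕ, Fin (n + 1) ↪ Idx d) => p.2 (Fin.last p.1)).subset ?_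
  intro j hj
  obtain ⟨n, a, ha0, hal, haJ, hah⟩ := exists_embedding_of_reflTransGen hi hj
  refine ⟨⟨n, a⟩, ?_, hal⟩
  show (1 : ℝ≥0∞) ≤ Set.indicator _ (fun _ => (1 : ℝ≥0∞)) ω
  rw [Set.indicator_of_mem]
  refine ⟨fun v => haJ v, ?_, hah⟩
  show (M.y (a 0) ω).1 ∈ cube k
  rw [ha0]
  exact hik

end WSP
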