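import Pool.Agent.Lib_MP_c175fd.PercDet

/-!
# Piece PERCPROB: finite range percolation with high density in the plane

Let `L = 2 D + 1`. The supersite `a` is `sq L a = {α | L a ≤ α < L (a + 1)}` (coordinatewise), good iff all
its sites are good (`base' ω a := ∀ α ∈ sq L a, ω ∈ G α`); `P (bad) ≤ L ^ 2 * p ≤ 10 ^ (-4)`. The event
`gdL (base' ω) n a` is measurable with respect to `F (Λ n a)` where `Λ n a` is the set of the sites at sup
distance at most `D` of `sq (L * 5 ^ n) a` (induction on `n`, `hmono`), and `Λ n b`, `Λ n b'` are disjoint if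
`b, b'` are not `near` (`L * 5 ^ n + 1 > 2 D`). With `p n = sup_a P (¬ gdL n a)`:
`p (n + 1) ≤ 625 (p n) ^ 2` (union bound over the pairs of subsites which are not near, independence), so
`625 p n ≤ (1/16) ^ (2 ^ n)`. Hence
`P (∃ n, ¬ gdL n (0,0) ∨ ¬ gdL n (1,0) ∨ ¬ gdL n (2,0)) ≤ 3 ∑ p n < 1`, and `perc_det` gives an infinite
cluster of good supersites; the union of their sites is a connected infinite set of good sites.
-/

open MeasureTheory ProbabilityTheory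
open scoped ENNReal

namespace WSP

/-- supersites -/
private noncomputable def ppSq (D : ℕ) (a : ℤ × ℤ) : Finset (ℤ × ℤ) :=
  Finset.Ico ((2 * (D : ℤ) + 1) * a.1) ((2 * (D : ℤ) + 1) * (a.1 + 1)) ×ˢ
    Finset.Ico ((2 * (D : ℤ) + 1) * a.2) ((2 * (D : ℤ) + 1) * (a.2 + 1))

/-- good supersites -/
private def ppBase {Ω : Type*} (D : ℕ) (G : ℤ × ℤ → Set Ω) (ω : Ω) (a : ℤ × ℤ) : Prop :=
  ∀ α ∈ ppSq D a, ω ∈ G α

/-- the sites on which the level `n` site `a` depends -/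
private def ppL (D n : ℕ) (a : ℤ × ℤ) : Set (ℤ × ℤ) :=
  {β | ((2 * (D : ℤ) + 1) * 5 ^ n * a.1 - D ≤ β.1 ∧ β.1 < (2 * (D : ℤ) + 1) * 5 ^ n * (a.1 + 1) + D) ∧
    ((2 * (D : ℤ) + 1) * 5 ^ n * a.2 - D ≤ β.2 ∧ β.2 < (2 * (D : ℤ) + 1) * 5 ^ n * (a.2 + 1) + D)}

private theorem pp_sub (K x y : ℤ) (D : ℤ) (hK : 0 ≤ K) (h1 : 5 * x ≤ y) (h2 : y < 5 * x + 5) {β : ℤ}
    (h3 : K * y - D ≤ β ∧ β < K * (y + 1) + D) :
    K * 5 * x - D ≤ β ∧ β < K * 5 * (x + 1) + D := by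
  have h4 : K * (5 * x) ≤ K * y := mul_le_mul_of_nonneg_left h1 hK
  have h5 : K * (y + 1) ≤ K * (5 * x + 5) := mul_le_mul_of_nonneg_left (by omega) hK
  constructor
  · nlinarith
  · nlinarith

private theorem pp_one (K D x y β : ℤ) (hK : 2 * D + 1 ≤ K) (hD : 0 ≤ D) (h1 : K * x - D ≤ β)
    (h2 : β < K * (x + 1) + D) (h3 : K * y - D ≤ β) (h4 : β < K * (y + 1) + D) : |x - y| ≤ 1 := by
  rw [abs_le]
  have hK0 : 0 ≤ K := by omega
  constructor
  · by_contra h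
    have h5 : x + 1 ≤ y - 1 := by omega
    have h6 : K * (x + 1) ≤ K * (y - 1) := mul_le_mul_of_nonneg_left h5 hK0
    nlinarith
  · by_contra h
    have h5 : y + 1 ≤ x - 1 := by omega
    have h6 : K * (y + 1) ≤ K * (x - 1) := mul_le_mul_of_nonneg_left h5 hK0
    nlinarith

private theorem pp_K (D n : ℕ) : 2 * (D : ℤ) + 1 ≤ (2 * (D : ℤ) + 1) * 5 ^ n := by
  have h1 : (1 : ℤ) ≤ 5 ^ n := one_le_pow₀ (by norm_num)
  have h2 : (0 : ℤ) ≤ 2 * (D : ℤ) + 1 := by positivity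
  calc 2 * (D : ℤ) + 1 = (2 * (D : ℤ) + 1) * 1 := (mul_one _).symm
    _ ≤ _ := mul_le_mul_of_nonneg_left h1 h2

private theorem pp_disj (D n : ℕ) {b b' : ℤ × ℤ} (h : ¬ near b b') : Disjoint (ppL D n b) (ppL D n b') := by
  rw [Set.disjoint_left]
  rintro β ⟨⟨h1, h2⟩, h3, h4⟩ ⟨⟨h5, h6⟩, h7, h8⟩
  apply h
  exact ⟨pp_one _ D _ _ _ (pp_K D n) (by positivity) h1 h2 h5 h6,
    pp_one _ D _ _ _ (pp_K D n) (by positivity) h3 h4 h7 h8⟩

private theorem pp_mono (D n : ℕ) {a b : ℤ × ℤ} (h : sub5 a b) : ppL D n b ⊆ ppL D (n + 1) a := by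
  rintro β ⟨h1, h2⟩
  obtain ⟨h3, h4, h5, h6⟩ := h
  have hK : (0 : ℤ) ≤ (2 * (D : ℤ) + 1) * 5 ^ n := by positivity
  have e : (2 * (D : ℤ) + 1) * 5 ^ (n + 1) = (2 * (D : ℤ) + 1) * 5 ^ n * 5 := by rw [pow_succ, mul_assoc]
  refine ⟨?_, ?_⟩
  · rw [e]
    exact pp_sub _ _ _ _ hK h3 h4 h1
  · rw [e]
    exact pp_sub _ _ _ _ hK h5 h6 h2

section prob

private theorem pp_meas {Ω : Type*} (F : Set (ℤ × ℤ) → MeasurableSpace Ω) (hmono : ∀ S S', S ⊆ S' → F S ≤ F S') (D : ℕ) (G : ℤ × ℤ → Set Ω)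
    (hG : ∀ α, MeasurableSet[F {β | |β.1 - α.1| ≤ D ∧ |β.2 - α.2| ≤ D}] (G α)) (n : ℕ) :
    ∀ a, MeasurableSet[F (ppL D n a)] {ω | gdL (ppBase D G ω) n a} := by
  induction n with
  | zero =>
    intro a
    have e : {ω | gdL (ppBase D G ω) 0 a} = ⋂ α, ⋂ (_ : α ∈ ppSq D a), G α := by
      ext ω
      rw [Set.mem_iInter₂]
      exact Iff.rfl
    rw [e]
    refine MeasurableSet.iInter fun α => MeasurableSet.iInter fun hα => ?_
    refine hmono _ _ ?_ _ (hG α)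
    rintro β ⟨h1, h2⟩
    have h3 := Finset.mem_product.1 hα
    rw [Finset.mem_Ico, Finset.mem_Ico] at h3
    obtain ⟨⟨h4, h5⟩, h6, h7⟩ := h3
    obtain ⟨h8, h9⟩ := abs_le.1 h1
    obtain ⟨h10, h11⟩ := abs_le.1 h2
    refine ⟨⟨?_, ?_⟩, ?_, ?_⟩
    · rw [pow_zero, mul_one]
      linarith
    · rw [pow_zero, mul_one]
      linarith
    · rw [pow_zero, mul_one]
      linarith
    · rw [pow_zero, mul_one]
      linarith
  | succ n ih =>
    intro a
    have e : {ω | gdL (ppBase D G ω) (n + 1) a} = ⋂ b, ⋂ b', ⋂ (_ : sub5 a b), ⋂ (_ : sub5 a b'),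
        ⋂ (_ : ¬ near b b'), ({ω | gdL (ppBase D G ω) n b} ∪ {ω | gdL (ppBase D G ω) n b'}) := by
      ext ω
      simp only [Set.mem_iInter, Set.mem_union]
      constructor
      · intro h b b' hb hb' hn
        by_contra hcon
        rw [not_or] at hcon
        exact hn (h b b' hb hb' hcon.1 hcon.2)
      · intro h b b' hb hb' h1 h2
        by_contra hn
        rcases h b b' hb hb' hn with h3 | h3
        · exact h1 h3
        · exact h2 h3
    rw [e]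
    refine MeasurableSet.iInter fun b => MeasurableSet.iInter fun b' => MeasurableSet.iInter fun hb =>
      MeasurableSet.iInter fun hb' => MeasurableSet.iInter fun _ => MeasurableSet.union ?_ ?_
    · exact hmono _ _ (pp_mono D n hb) _ (ih b)
    · exact hmono _ _ (pp_mono D n hb') _ (ih b')

variable {Ω : Type*} [m0 : MeasurableSpace Ω] (P : Measure Ω) [IsProbabilityMeasure P]
  (F : Set (ℤ × ℤ) → MeasurableSpace Ω)

private theorem pp_card (D : ℕ) (a : ℤ × ℤ) : (ppSq D a).card = (2 * D + 1) ^ 2 := by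
  have h : ∀ x : ℤ, ((2 * (D : ℤ) + 1) * (x + 1) - (2 * (D : ℤ) + 1) * x).toNat = 2 * D + 1 := by
    intro x
    have : (2 * (D : ℤ) + 1) * (x + 1) - (2 * (D : ℤ) + 1) * x = ((2 * D + 1 : ℕ) : ℤ) := by
      push_cast
      ring
    rw [this, Int.toNat_natCast]
  rw [ppSq, Finset.card_product, Int.card_Ico, Int.card_Ico, h, h, sq]

private theorem pp_bound (hmono : ∀ S S', S ⊆ S' → F S ≤ F S')
    (hind : ∀ S S', Disjoint S S' → Indep (F S) (F S') P) (D : ℕ) (G : ℤ × ℤ → Set Ω)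
    (hG : ∀ α, MeasurableSet[F {β | |β.1 - α.1| ≤ D ∧ |β.2 - α.2| ≤ D}] (G α))
    (hp : ∀ α, P (G α)ᶜ ≤ ENNReal.ofReal (1 / (10 ^ 4 * (2 * D + 1) ^ 2))) (n : ℕ) :
    ∀ a, P.real {ω | ¬ gdL (ppBase D G ω) n a} ≤ 1 / 625 * (1 / 16) ^ (2 ^ n) := by
  classical
  induction n with
  | zero =>
    intro a
    have hsub : {ω | ¬ gdL (ppBase D G ω) 0 a} ⊆ ⋃ α ∈ ppSq D a, (G α)ᶜ := by
      intro ω hω
      have h1 : ¬ ∀ α ∈ ppSq D a, ω ∈ G α := hω
      push Not at h1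
      obtain ⟨α, hα, h2⟩ := h1
      exact Set.mem_iUnion₂.2 ⟨α, hα, h2⟩
    have hL : (0 : ℝ) < 2 * (D : ℝ) + 1 := by positivity
    have hone : ∀ α, P.real (G α)ᶜ ≤ 1 / (10 ^ 4 * (2 * (D : ℝ) + 1) ^ 2) := fun α =>
      ENNReal.toReal_le_of_le_ofReal (by positivity) (hp α)
    calc P.real {ω | ¬ gdL (ppBase D G ω) 0 a} ≤ P.real (⋃ α ∈ ppSq D a, (G α)ᶜ) :=
          measureReal_mono hsub (measure_ne_top P _)
      _ ≤ ∑ α ∈ ppSq D a, P.real (G α)ᶜ := measureReal_biUnion_finset_le _ _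
      _ ≤ ∑ _α ∈ ppSq D a, 1 / (10 ^ 4 * (2 * (D : ℝ) + 1) ^ 2) := Finset.sum_le_sum fun α _ => hone α
      _ = 1 / 625 * (1 / 16) ^ (2 ^ 0) := by
          rw [Finset.sum_const, pp_card, nsmul_eq_mul]
          push_cast
          field_simp
          norm_num
  | succ n ih =>
    intro a
    obtain ⟨S, hS⟩ : ∃ S : Finset (ℤ × ℤ), S = Finset.Ico (5 * a.1) (5 * a.1 + 5) ×ˢ
      Finset.Ico (5 * a.2) (5 * a.2 + 5) := ⟨_, rfl⟩
    have hScard : S.card = 25 := by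
      rw [hS, Finset.card_product, Int.card_Ico, Int.card_Ico]
      have h : ∀ x : ℤ, (5 * x + 5 - 5 * x).toNat = 5 := by
        intro x
        have : 5 * x + 5 - 5 * x = ((5 : ℕ) : ℤ) := by
          push_cast
          ring
        rw [this, Int.toNat_natCast]
      rw [h, h]
    have hmem : ∀ b, b ∈ S ↔ sub5 a b := by
      intro b
      rw [hS, Finset.mem_product, Finset.mem_Ico, Finset.mem_Ico]
      unfold sub5
      tauto
    obtain ⟨T, hT⟩ : ∃ T : Finset ((ℤ × ℤ) × (ℤ × ℤ)), T = (S ×ˢ S).filter (fun x => ¬ near x.1 x.2) :=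
      ⟨_, rfl⟩
    have hTcard : T.card ≤ 625 := by
      rw [hT]
      refine (Finset.card_filter_le _ _).trans ?_
      rw [Finset.card_product, hScard]
    have hsub : {ω | ¬ gdL (ppBase D G ω) (n + 1) a} ⊆
        ⋃ x ∈ T, ({ω | ¬ gdL (ppBase D G ω) n x.1} ∩ {ω | ¬ gdL (ppBase D G ω) n x.2}) := by
      intro ω hω
      have h1 : ¬ ∀ b b', sub5 a b → sub5 a b' → ¬ gdL (ppBase D G ω) n b →
        ¬ gdL (ppBase D G ω) n b' → near b b' := hω
      push Not at h1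
      obtain ⟨b, b', hb, hb', h2, h3, h4⟩ := h1
      refine Set.mem_iUnion₂.2 ⟨(b, b'), ?_, h2, h3⟩
      rw [hT, Finset.mem_filter, Finset.mem_product]
      exact ⟨⟨(hmem b).2 hb, (hmem b').2 hb'⟩, h4⟩
    have hpair : ∀ x ∈ T, P.real ({ω | ¬ gdL (ppBase D G ω) n x.1} ∩ {ω | ¬ gdL (ppBase D G ω) n x.2}) ≤
        (1 / 625 * (1 / 16) ^ (2 ^ n)) ^ 2 := by
      intro x hx
      rw [hT, Finset.mem_filter] at hx
      have h1 := (Indep_iff _ _ P).1 (hind _ _ (pp_disj D n hx.2)) _ _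
        (pp_meas F hmono D G hG n x.1).compl (pp_meas F hmono D G hG n x.2).compl
      have h2 : P.real ({ω | ¬ gdL (ppBase D G ω) n x.1} ∩ {ω | ¬ gdL (ppBase D G ω) n x.2}) =
          P.real {ω | ¬ gdL (ppBase D G ω) n x.1} * P.real {ω | ¬ gdL (ppBase D G ω) n x.2} := by
        unfold Measure.real
        rw [← ENNReal.toReal_mul]
        exact congrArg ENNReal.toReal h1
      rw [h2, sq]
      exact mul_le_mul (ih _) (ih _) measureReal_nonneg (by positivity)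
    calc P.real {ω | ¬ gdL (ppBase D G ω) (n + 1) a}
        ≤ P.real (⋃ x ∈ T, ({ω | ¬ gdL (ppBase D G ω) n x.1} ∩ {ω | ¬ gdL (ppBase D G ω) n x.2})) :=
          measureReal_mono hsub (measure_ne_top P _)
      _ ≤ ∑ x ∈ T, P.real ({ω | ¬ gdL (ppBase D G ω) n x.1} ∩ {ω | ¬ gdL (ppBase D G ω) n x.2}) :=
          measureReal_biUnion_finset_le _ _
      _ ≤ ∑ _x ∈ T, (1 / 625 * (1 / 16) ^ (2 ^ n) : ℝ) ^ 2 := Finset.sum_le_sum hpair
      _ = T.card * (1 / 625 * (1 / 16) ^ (2 ^ n) : ℝ) ^ 2 := by rw [Finset.sum_const, nsmul_eq_mul]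
      _ ≤ 625 * (1 / 625 * (1 / 16) ^ (2 ^ n) : ℝ) ^ 2 :=
          mul_le_mul_of_nonneg_right (by exact_mod_cast hTcard) (by positivity)
      _ = 1 / 625 * (1 / 16) ^ (2 ^ (n + 1)) := by
          rw [pow_succ 2 n, pow_mul, mul_pow]
          ring

end prob

/-! ## From supersites to sites -/

private theorem pp_nn_symm {u v : ℤ × ℤ} (h : nn u v) : nn v u := by
  unfold nn at h ⊢
  rcases h with ⟨h1, h2⟩ | ⟨h1, h2⟩
  · exact Or.inl ⟨h1.symm, by rw [abs_sub_comm]; exact h2⟩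
  · exact Or.inr ⟨h1.symm, by rw [abs_sub_comm]; exact h2⟩

private theorem pp_symm {good : ℤ × ℤ → Prop} {u v : ℤ × ℤ} (h : gconn good u v) : gconn good v u := by
  unfold gconn at h
  induction h with
  | refl => exact Relation.ReflTransGen.refl
  | tail _ h1 ih => exact Relation.ReflTransGen.head ⟨h1.2.1, h1.1, pp_nn_symm h1.2.2⟩ ih

private theorem pp_line1 {good : ℤ × ℤ → Prop} (x y : ℤ) (m : ℕ)
    (h : ∀ k : ℤ, 0 ≤ k → k ≤ m → good (x + k, y)) : gconn good (x, y) (x + m, y) := by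
  induction m with
  | zero =>
    have e : (x + ((0 : ℕ) : ℤ), y) = (x, y) := by simp
    rw [e]
    exact Relation.ReflTransGen.refl
  | succ m ih =>
    refine Relation.ReflTransGen.tail (ih fun k h1 h2 => h k h1 (by push_cast; omega)) ?_
    refine ⟨h m (by positivity) (by push_cast; omega), h _ (by positivity) le_rfl, Or.inr ⟨rfl, ?_⟩⟩
    show |(x + (m : ℤ)) - (x + ((m + 1 : ℕ) : ℤ))| = 1
    push_cast
    rw [show x + (m : ℤ) - (x + (m + 1)) = -1 by ring]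
    simp

private theorem pp_line2 {good : ℤ × ℤ → Prop} (x y : ℤ) (m : ℕ)
    (h : ∀ k : ℤ, 0 ≤ k → k ≤ m → good (x, y + k)) : gconn good (x, y) (x, y + m) := by
  induction m with
  | zero =>
    have e : (x, y + ((0 : ℕ) : ℤ)) = (x, y) := by simp
    rw [e]
    exact Relation.ReflTransGen.refl
  | succ m ih =>
    refine Relation.ReflTransGen.tail (ih fun k h1 h2 => h k h1 (by push_cast; omega)) ?_
    refine ⟨h m (by positivity) (by push_cast; omega), h _ (by positivity) le_rfl, Or.inl ⟨rfl, ?_⟩⟩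
    show |(y + (m : ℤ)) - (y + ((m + 1 : ℕ) : ℤ))| = 1
    push_cast
    rw [show y + (m : ℤ) - (y + (m + 1)) = -1 by ring]
    simp

/-- corner of a supersite -/
private def ppC (D : ℕ) (a : ℤ × ℤ) : ℤ × ℤ := ((2 * (D : ℤ) + 1) * a.1, (2 * (D : ℤ) + 1) * a.2)

private theorem pp_mem (D : ℕ) (a : ℤ × ℤ) (i j : ℤ) (hi : 0 ≤ i) (hi2 : i < 2 * (D : ℤ) + 1) (hj : 0 ≤ j)
    (hj2 : j < 2 * (D : ℤ) + 1) :
    ((2 * (D : ℤ) + 1) * a.1 + i, (2 * (D : ℤ) + 1) * a.2 + j) ∈ ppSq D a := by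
  rw [ppSq, Finset.mem_product, Finset.mem_Ico, Finset.mem_Ico]
  refine ⟨⟨?_, ?_⟩, ?_, ?_⟩
  · show (2 * (D : ℤ) + 1) * a.1 ≤ (2 * (D : ℤ) + 1) * a.1 + i
    linarith
  · show (2 * (D : ℤ) + 1) * a.1 + i < (2 * (D : ℤ) + 1) * (a.1 + 1)
    linarith
  · show (2 * (D : ℤ) + 1) * a.2 ≤ (2 * (D : ℤ) + 1) * a.2 + j
    linarith
  · show (2 * (D : ℤ) + 1) * a.2 + j < (2 * (D : ℤ) + 1) * (a.2 + 1)
    linarith

/-- the step to the right and the step upwards -/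
private theorem pp_right {Ω : Type*} (D : ℕ) (G : ℤ × ℤ → Set Ω) (ω : Ω) (x y : ℤ)
    (h1 : ppBase D G ω (x, y)) (h2 : ppBase D G ω (x + 1, y)) :
    gconn (fun α => ω ∈ G α) (ppC D (x, y)) (ppC D (x + 1, y)) := by
  have e : ppC D (x + 1, y) = ((2 * (D : ℤ) + 1) * x + ((2 * D + 1 : ℕ) : ℤ), (2 * (D : ℤ) + 1) * y) := by
    unfold ppC
    refine Prod.ext ?_ rfl
    push_cast
    ring
  rw [e]
  refine pp_line1 _ _ _ fun k hk hk2 => ?_
  push_cast at hk2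
  rcases lt_or_eq_of_le hk2 with h3 | h3
  · have h4 := h1 _ (pp_mem D (x, y) k 0 hk h3 le_rfl (by positivity))
    rw [add_zero] at h4
    exact h4
  · have h4 := h2 _ (pp_mem D (x + 1, y) 0 0 le_rfl (by positivity) le_rfl (by positivity))
    rw [add_zero, add_zero] at h4
    have e2 : (2 * (D : ℤ) + 1) * x + k = (2 * (D : ℤ) + 1) * (x + 1) := by
      rw [h3]
      ring
    rw [e2]
    exact h4

private theorem pp_upw {Ω : Type*} (D : ℕ) (G : ℤ × ℤ → Set Ω) (ω : Ω) (x y : ℤ)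
    (h1 : ppBase D G ω (x, y)) (h2 : ppBase D G ω (x, y + 1)) :
    gconn (fun α => ω ∈ G α) (ppC D (x, y)) (ppC D (x, y + 1)) := by
  have e : ppC D (x, y + 1) = ((2 * (D : ℤ) + 1) * x, (2 * (D : ℤ) + 1) * y + ((2 * D + 1 : ℕ) : ℤ)) := by
    unfold ppC
    refine Prod.ext rfl ?_
    push_cast
    ring
  rw [e]
  refine pp_line2 _ _ _ fun k hk hk2 => ?_
  push_cast at hk2
  rcases lt_or_eq_of_le hk2 with h3 | h3
  · have h4 := h1 _ (pp_mem D (x, y) 0 k le_rfl (by positivity) hk h3)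
    rw [add_zero] at h4
    exact h4
  · have h4 := h2 _ (pp_mem D (x, y + 1) 0 0 le_rfl (by positivity) le_rfl (by positivity))
    rw [add_zero, add_zero] at h4
    have e2 : (2 * (D : ℤ) + 1) * y + k = (2 * (D : ℤ) + 1) * (y + 1) := by
      rw [h3]
      ring
    rw [e2]
    exact h4

private theorem pp_step {Ω : Type*} (D : ℕ) (G : ℤ × ℤ → Set Ω) (ω : Ω) (u v : ℤ × ℤ)
    (h1 : ppBase D G ω u) (h2 : ppBase D G ω v) (h : nn u v) :
    gconn (fun α => ω ∈ G α) (ppC D u) (ppC D v) := by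
  obtain ⟨x, y⟩ := u
  obtain ⟨x', y'⟩ := v
  rcases h with ⟨h3, h4⟩ | ⟨h3, h4⟩
  · dsimp only at h3 h4
    subst h3
    rcases (abs_eq (by norm_num : (0 : ℤ) ≤ 1)).1 h4 with h5 | h5
    · obtain rfl : y = y' + 1 := by omega
      exact pp_symm (pp_upw D G ω x y' h2 h1)
    · obtain rfl : y' = y + 1 := by omega
      exact pp_upw D G ω x y h1 h2
  · dsimp only at h3 h4
    subst h3
    rcases (abs_eq (by norm_num : (0 : ℤ) ≤ 1)).1 h4 with h5 | h5
    · obtain rfl : x = x' + 1 := by omega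
      exact pp_symm (pp_right D G ω x' y h2 h1)
    · obtain rfl : x' = x + 1 := by omega
      exact pp_right D G ω x y h1 h2

private theorem pp_conn {Ω : Type*} (D : ℕ) (G : ℤ × ℤ → Set Ω) (ω : Ω) (u v : ℤ × ℤ)
    (h : gconn (ppBase D G ω) u v) : gconn (fun α => ω ∈ G α) (ppC D u) (ppC D v) := by
  unfold gconn at h
  induction h with
  | refl => exact Relation.ReflTransGen.refl
  | tail _ h1 ih => exact Relation.ReflTransGen.trans ih (pp_step D G ω _ _ h1.1 h1.2.1 h1.2.2)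

private theorem pp_inj (D : ℕ) : Function.Injective (ppC D) := by
  intro a b h
  have hL : (2 * (D : ℤ) + 1) ≠ 0 := by positivity
  obtain ⟨h1, h2⟩ := Prod.ext_iff.1 h
  exact Prod.ext (mul_left_cancel₀ hL h1) (mul_left_cancel₀ hL h2)

theorem perc_finite_range {Ω : Type*} [m0 : MeasurableSpace Ω] (P : Measure Ω)
    [IsProbabilityMeasure P] (F : Set (ℤ × ℤ) → MeasurableSpace Ω) (hle : ∀ S, F S ≤ m0)
    (hmono : ∀ S S', S ⊆ S' → F S ≤ F S') (hind : ∀ S S', Disjoint S S' → Indep (F S) (F S') P)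
    (D : ℕ) (G : ℤ × ℤ → Set Ω)
    (hG : ∀ α, MeasurableSet[F {β | |β.1 - α.1| ≤ D ∧ |β.2 - α.2| ≤ D}] (G α))
    (hp : ∀ α, P (G α)ᶜ ≤ ENNReal.ofReal (1 / (10 ^ 4 * (2 * D + 1) ^ 2))) :
    0 < P {ω | ∃ x, {z | gconn (fun α => ω ∈ G α) x z}.Infinite} := by
  obtain ⟨E, hE⟩ : ∃ E : ℕ → Set Ω, E = fun n => {ω | ¬ gdL (ppBase D G ω) n (0, 0)} ∪
    ({ω | ¬ gdL (ppBase D G ω) n (1, 0)} ∪ {ω | ¬ gdL (ppBase D G ω) n (2, 0)}) := ⟨_, rfl⟩
  have hb := pp_bound P F hmono hind D G hG hp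
  have hEn : ∀ n, P (E n) ≤ (2⁻¹ : ℝ≥0∞) ^ (n + 2) := by
    intro n
    have h1 : P.real (E n) ≤ (2⁻¹ : ℝ) ^ (n + 2) := by
      have h2 : P.real (E n) ≤ P.real {ω | ¬ gdL (ppBase D G ω) n (0, 0)} +
          (P.real {ω | ¬ gdL (ppBase D G ω) n (1, 0)} + P.real {ω | ¬ gdL (ppBase D G ω) n (2, 0)}) := by
        rw [hE]
        exact (measureReal_union_le _ _).trans (by gcongr; exact measureReal_union_le _ _)
      have h3 : ((1 : ℝ) / 16) ^ (2 ^ n) ≤ (1 / 16) ^ n :=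
        pow_le_pow_of_le_one (by norm_num) (by norm_num) Nat.lt_two_pow_self.le
      have h4 : ((1 : ℝ) / 16) ^ n ≤ (2⁻¹) ^ n :=
        pow_le_pow_left₀ (by norm_num) (by norm_num) n
      have h5 : (0 : ℝ) ≤ (2⁻¹) ^ n := by positivity
      have h6 := hb n (0, 0)
      have h7 := hb n (1, 0)
      have h8 := hb n (2, 0)
      rw [pow_add]
      nlinarith
    have h2 : P (E n) = ENNReal.ofReal (P.real (E n)) := (ofReal_measureReal (measure_ne_top P _)).symm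
    rw [h2]
    refine (ENNReal.ofReal_le_ofReal h1).trans (le_of_eq ?_)
    rw [ENNReal.ofReal_pow (by norm_num), ENNReal.ofReal_inv_of_pos (by norm_num)]
    norm_num
  have hunion : P (⋃ n, E n) < 1 := by
    calc P (⋃ n, E n) ≤ ∑' n, P (E n) := measure_iUnion_le E
      _ ≤ ∑' n : ℕ, (2⁻¹ : ℝ≥0∞) ^ (n + 2) := ENNReal.tsum_le_tsum hEn
      _ = (∑' n : ℕ, (2⁻¹ : ℝ≥0∞) ^ n) * (2⁻¹) ^ 2 := by
          rw [← ENNReal.tsum_mul_right]
          exact tsum_congr fun n => pow_add _ _ _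
      _ = 2⁻¹ := by
          rw [ENNReal.tsum_geometric, ENNReal.one_sub_inv_two, inv_inv, sq, ← mul_assoc,
            ENNReal.mul_inv_cancel (by norm_num) (by norm_num), one_mul]
      _ < 1 := ENNReal.inv_lt_one.2 (by norm_num)
  have hsub : (⋃ n, E n)ᶜ ⊆ {ω | ∃ x, {z | gconn (fun α => ω ∈ G α) x z}.Infinite} := by
    intro ω hω
    rw [Set.mem_compl_iff, Set.mem_iUnion, not_exists] at hω
    have h1 : ∀ n, gdL (ppBase D G ω) n (0, 0) ∧ gdL (ppBase D G ω) n (1, 0) ∧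
        gdL (ppBase D G ω) n (2, 0) := by
      intro n
      have h2 := hω n
      rw [hE] at h2
      simp only [Set.mem_union, not_or] at h2
      exact ⟨not_not.1 h2.1, not_not.1 h2.2.1, not_not.1 h2.2.2⟩
    obtain ⟨x, hx⟩ := perc_det h1
    refine ⟨ppC D x, ?_⟩
    refine (hx.image (pp_inj D).injOn).mono ?_
    rintro _ ⟨y, hy, rfl⟩
    exact pp_conn D G ω x y hy
  by_contra hcon
  have h0 : P {ω | ∃ x, {z | gconn (fun α => ω ∈ G α) x z}.Infinite} = 0 := by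
    exact le_antisymm (not_lt.1 hcon) zero_le
  have h1 : P (⋃ n, E n)ᶜ = 0 := measure_mono_null hsub h0
  have h2 : (1 : ℝ≥0∞) ≤ P (⋃ n, E n) + P (⋃ n, E n)ᶜ := by
    rw [← measure_univ (μ := P), ← Set.union_compl_self (⋃ n, E n)]
    exact measure_union_le _ _
  rw [h1, add_zero] at h2
  exact absurd hunion (not_lt.2 h2)

end WSP
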