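import Pool.Agent.Lib_MP_c175fd.PairProb
import Pool.Agent.Lib_MP_c175fd.BlockMeas
import Pool.Agent.Lib_MP_c175fd.PercProb

/-!
# Piece SUPER: percolation above the critical time

Take the constants of `pair_prob`, `R = RR d r > 0` (`RR_pos`), `G α = M.siteGood .. α`,
`F S = M.sig (cubesOf hd R S)` (independent for disjoint sets, `indep_sig`), range `D + 1`. By `pair_prob` and
`cor_near`, `P (G α)ᶜ ≤ 2 / (10 ^ 5 (2 D + 7) ^ 2) ≤ 1 / (10 ^ 4 (2 (D + 1) + 1) ^ 2)`. `perc_finite_range` gives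
an infinite cluster of good sites with positive probability; with `ae_mem_cube` and `percolates_of_cluster`
this contradicts `∀ᵐ ω, ¬ Percolates`.
-/

open MeasureTheory ProbabilityTheory Filter Topology
open scoped ENNReal NNReal

namespace WSP

variable {d : ℕ} {Ω : Type*} [MeasurableSpace Ω] {P : Measure Ω} {μ : Measure (Path d)}

private theorem sup_cubesOf_mono (hd : 4 ≤ d) (R : ℕ) {S S' : Set (ℤ × ℤ)} (h : S ⊆ S') :
    cubesOf hd R S ⊆ cubesOf hd R S' := fun _ hk => h hk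

private theorem sup_cubesOf_disj (hd : 4 ≤ d) (R : ℕ) {S S' : Set (ℤ × ℤ)} (h : Disjoint S S') :
    Disjoint (cubesOf hd R S) (cubesOf hd R S') := by
  rw [Set.disjoint_left] at h ⊢
  exact fun k hk hk' => h hk hk'

theorem percolates_supercritical (hd : 4 ≤ d) (M : PM d P μ) [IsProbabilityMeasure P]
    (h : IsWiener μ) {κ : ℝ} (hA : AnFacts d μ κ) {c : ℝ} (hc : 0 < c) (hm : 1 < κ * c ^ 2) :
    ∀ᶠ r in 𝓝[>] (0 : ℝ), ¬ ∀ᵐ ω ∂P, ¬ Percolates (M.occ r (tt d c r) ω) := by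
  obtain ⟨c₁, ρ, δ, A, D, hδ, hρ, hev⟩ := pair_prob hd M h hA hc hm
  filter_upwards [hev, RR_pos hd, self_mem_nhdsWithin] with r hr hR hr0 hcon
  have hr0' : 0 < r := hr0
  have hp : ∀ α : ℤ × ℤ, P (M.siteGood r (tt d c₁ r) (tt d c r) A (RR d r) (D * RR d r)
      ((D + 1) * RR d r) ρ δ α)ᶜ ≤
        ENNReal.ofReal (1 / (10 ^ 4 * (2 * ((D + 1 : ℕ) : ℝ) + 1) ^ 2)) := by
    intro α
    have h1 := hr (cor d (RR d r) α) (cor d (RR d r) (α + (1, 0))) (cor_near d (RR d r) α).1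
    have h2 := hr (cor d (RR d r) α) (cor d (RR d r) (α + (0, 1))) (cor_near d (RR d r) α).2
    have h3 : (M.siteGood r (tt d c₁ r) (tt d c r) A (RR d r) (D * RR d r)
        ((D + 1) * RR d r) ρ δ α)ᶜ =
        (M.goodPair r (tt d c₁ r) (tt d c r) A (RR d r) (D * RR d r) ((D + 1) * RR d r) ρ δ
          (cor d (RR d r) α) (cor d (RR d r) (α + (1, 0))))ᶜ ∪
        (M.goodPair r (tt d c₁ r) (tt d c r) A (RR d r) (D * RR d r) ((D + 1) * RR d r) ρ δ
          (cor d (RR d r) α) (cor d (RR d r) (α + (0, 1))))ᶜ := Set.compl_inter _ _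
    rw [h3]
    refine (measure_union_le _ _).trans ((add_le_add h1 h2).trans ?_)
    rw [← ENNReal.ofReal_add (by positivity) (by positivity)]
    refine ENNReal.ofReal_le_ofReal ?_
    have hD : (0 : ℝ) ≤ D := Nat.cast_nonneg D
    have e1 : (1 : ℝ) / (10 ^ 5 * (2 * D + 7) ^ 2) + 1 / (10 ^ 5 * (2 * D + 7) ^ 2) =
        1 / (5 * 10 ^ 4 * (2 * D + 7) ^ 2) := by
      have : (2 * (D : ℝ) + 7) ≠ 0 := by positivity
      field_simp
      norm_num
    rw [e1]
    refine one_div_le_one_div_of_le (by positivity) ?_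
    push_cast
    nlinarith
  have hG : ∀ α : ℤ × ℤ, MeasurableSet[M.sig (cubesOf hd (RR d r)
      {β | |β.1 - α.1| ≤ ((D + 1 : ℕ) : ℤ) ∧ |β.2 - α.2| ≤ ((D + 1 : ℕ) : ℤ)})]
      (M.siteGood r (tt d c₁ r) (tt d c r) A (RR d r) (D * RR d r) ((D + 1) * RR d r) ρ δ α) :=
    fun α => measurableSet_siteGood hd M r (tt d c₁ r) (tt d c r) A D hR ρ δ α
  have hpos := perc_finite_range P (fun S => M.sig (cubesOf hd (RR d r) S))
    (fun S => M.sig_le _) (fun S S' hS => M.sig_mono (sup_cubesOf_mono hd _ hS))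
    (fun S S' hS => M.indep_sig (sup_cubesOf_disj hd _ hS)) (D + 1)
    (fun α => M.siteGood r (tt d c₁ r) (tt d c r) A (RR d r) (D * RR d r)
      ((D + 1) * RR d r) ρ δ α) hG hp
  have h0 : P {ω | ∃ x, {z | gconn (fun α => ω ∈ M.siteGood r (tt d c₁ r) (tt d c r) A (RR d r)
      (D * RR d r) ((D + 1) * RR d r) ρ δ α) x z}.Infinite} = 0 := by
    have hae : ∀ᵐ ω ∂P, ¬ ∃ x, {z | gconn (fun α => ω ∈ M.siteGood r (tt d c₁ r) (tt d c r) A
        (RR d r) (D * RR d r) ((D + 1) * RR d r) ρ δ α) x z}.Infinite := by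
      filter_upwards [hcon, M.ae_mem_cube] with ω h1 h2
      rintro ⟨x, hx⟩
      exact h1 (percolates_of_cluster hd M h2 hr0' hR hδ hρ hx)
    rw [ae_iff] at hae
    simpa only [not_not] using hae
  exact hpos.ne' h0

end WSP
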