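import Pool.Agent.Lib_MP_c175fd.PModel
import Pool.Agent.Lib_MP_c175fd.Super
import Pool.Agent.Lib_MP_c175fd.SubFin
import Pool.Agent.Lib_MP_c175fd.FourLim

/-!
# Piece FINAL: the main theorem

Fix a Wiener measure `μ` on `Path d` (if there is none, there is no model by `exists_PM`) and `κ` with
`AnFacts d μ κ` (`anFacts_four'`, `anFacts_five'`), `c_* = 1 / √κ` (`1 / π` for `d = 4`). By `IsWiener.unique` the
measure given by `exists_PM` is `μ`. Let `M'` be the internal model.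
(a) `0 < c < c_*`: `(κ c ^ 2) ^ 2 < 1`, so for small `r` `EV2 (2 r) t t < 1` with `t = tt d c r` (`AnFacts.ev2`) and
almost surely there is no percolation at time `c ff d r`, nor at smaller times (`sausage_mono`,
`Percolates.mono`).
(b) `c > c_*`: for small `r` percolation at time `c ff d r` has positive probability
(`percolates_supercritical`).
So `c ff d r ≤ critTime r` for `c < c_*` and `critTime r ≤ c ff d r` for `c > c_*` (the infimum is over a
nonempty set bounded below by `0`), for small `r`. If `tc` has the threshold property: `tc r < c ff d r` is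
impossible for `c < c_*` (at time `c ff d r` there is almost surely no percolation and almost surely
percolation) and `c ff d r < tc r` is impossible for `c > c_*`.
-/

open MeasureTheory ProbabilityTheory Filter Topology
open scoped ENNReal NNReal

namespace WSP

theorem ff_nonneg_of_pos (d : ℕ) {r : ℝ} (hr : 0 < r) : 0 ≤ ff d r := by
  unfold ff
  split_ifs
  · exact Real.sqrt_nonneg _
  · exact (Real.rpow_pos_of_pos hr _).le

theorem ff_pos_eventually (d : ℕ) : ∀ᶠ r in 𝓝[>] (0 : ℝ), 0 < ff d r := by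
  have h1 : ∀ᶠ r in 𝓝[>] (0 : ℝ), r < 1 := nhdsWithin_le_nhds (gt_mem_nhds one_pos)
  filter_upwards [h1, self_mem_nhdsWithin] with r hr hr0
  have hr0' : (0 : ℝ) < r := hr0
  unfold ff
  split_ifs
  · exact Real.sqrt_pos.2 (Real.log_pos ((one_lt_div hr0').2 hr))
  · exact Real.rpow_pos_of_pos hr0' _

theorem WModel.occ_mono {d : ℕ} {Ω : Type*} [MeasurableSpace Ω] {P : Measure Ω} (M : WModel d P)
    (r : ℝ) {s t : ℝ} (h : s ≤ t) (ω : Ω) : M.occ r s ω ⊆ M.occ r t ω := by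
  intro x hx
  simp only [WModel.occ, Set.mem_iUnion] at hx ⊢
  obtain ⟨k, j, hj, u, hu, hx⟩ := hx
  exact ⟨k, j, hj, u, hu.trans h, hx⟩

/-- Consequences of the analytic facts for the model. -/
theorem model_bounds {d : ℕ} (hd : 4 ≤ d) {Ω : Type*} [MeasurableSpace Ω] {P : Measure Ω}
    [IsProbabilityMeasure P] (M : WModel d P) {μ : Measure (Path d)} (h : IsWiener μ) {κ : ℝ}
    (hA : AnFacts d μ κ) :
    (∀ c : ℝ, 0 < c → c < 1 / Real.sqrt κ → ∀ᶠ r in 𝓝[>] (0 : ℝ), ∀ t ≤ c * ff d r,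
      ∀ᵐ ω ∂P, ¬ Percolates (M.occ r t ω)) ∧
    (∀ c : ℝ, 1 / Real.sqrt κ < c → ∀ᶠ r in 𝓝[>] (0 : ℝ),
      ¬ ∀ᵐ ω ∂P, ¬ Percolates (M.occ r (c * ff d r) ω)) := by
  obtain ⟨μ', hμ', M', hM'⟩ := M.exists_PM
  obtain rfl : μ' = μ := hμ'.unique h
  have : IsProbabilityMeasure μ' := h.isProb
  have hκ := hA.pos
  have hsq : 0 < Real.sqrt κ := Real.sqrt_pos.2 hκ
  have hss : Real.sqrt κ ^ 2 = κ := Real.sq_sqrt hκ.le
  refine ⟨fun c hc hc' => ?_, fun c hc => ?_⟩
  · have h1 : κ * c ^ 2 < 1 := by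
      have h2 : c * Real.sqrt κ < 1 := (lt_div_iff₀ hsq).1 hc'
      have h3 : (c * Real.sqrt κ) ^ 2 < 1 := by
        rw [sq_lt_one_iff_abs_lt_one, abs_of_pos (mul_pos hc hsq)]
        exact h2
      rw [mul_pow, hss] at h3
      linarith
    have h4 : ENNReal.ofReal ((κ * c ^ 2) ^ 2) < 1 := by
      rw [ENNReal.ofReal_lt_one, sq_lt_one_iff_abs_lt_one, abs_of_pos (by positivity)]
      exact h1
    filter_upwards [(hA.ev2 c hc).eventually (gt_mem_nhds h4), self_mem_nhdsWithin] with r hr hr0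
    have hr0' : (0 : ℝ) < r := hr0
    intro t ht
    have h5 := not_percolates_subcritical M' hr0' hr
    filter_upwards [h5, hM'] with ω hω hωM hp
    apply hω
    have h6 : 0 ≤ c * ff d r := mul_nonneg hc.le (ff_nonneg_of_pos d hr0')
    have h7 : M.occ r (c * ff d r) ω = M'.occ r (tt d c r) ω := hωM r _ h6
    rw [← h7]
    exact hp.mono (M.occ_mono r ht ω)
  · have hc0 : 0 < c := lt_trans (by positivity) hc
    have h1 : 1 < κ * c ^ 2 := by
      have h2 : 1 < c * Real.sqrt κ := (div_lt_iff₀ hsq).1 hc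
      have h3 : 1 < (c * Real.sqrt κ) ^ 2 := by
        rw [one_lt_sq_iff_one_lt_abs, abs_of_pos (mul_pos hc0 hsq)]
        exact h2
      rw [mul_pow, hss] at h3
      linarith
    filter_upwards [percolates_supercritical hd M' h hA hc0 h1, self_mem_nhdsWithin] with r hr hr0
    have hr0' : (0 : ℝ) < r := hr0
    intro hcon
    apply hr
    filter_upwards [hcon, hM'] with ω hω hωM
    have h6 : 0 ≤ c * ff d r := mul_nonneg hc0.le (ff_nonneg_of_pos d hr0')
    have h7 : M.occ r (c * ff d r) ω = M'.occ r (tt d c r) ω := hωM r _ h6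
    rw [← h7]
    exact hω

/-- A quotient squeezed between all constants below and above `c₀` tends to `c₀`. -/
theorem tendsto_div_of_bounds {f g : ℝ → ℝ} {c₀ : ℝ} (hc₀ : 0 < c₀)
    (hf : ∀ᶠ r in 𝓝[>] (0 : ℝ), 0 < f r)
    (h1 : ∀ c : ℝ, 0 < c → c < c₀ → ∀ᶠ r in 𝓝[>] (0 : ℝ), c * f r ≤ g r)
    (h2 : ∀ c : ℝ, c₀ < c → ∀ᶠ r in 𝓝[>] (0 : ℝ), g r ≤ c * f r) :
    Tendsto (fun r => g r / f r) (𝓝[>] 0) (𝓝 c₀) := by
  rw [tendsto_order]
  refine ⟨fun a ha => ?_, fun a ha => ?_⟩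
  · have h3 : max a 0 < c₀ := max_lt ha hc₀
    obtain ⟨c, hc, hc'⟩ := exists_between h3
    filter_upwards [hf, h1 c ((le_max_right a 0).trans_lt hc) hc'] with r hr hr1
    rw [lt_div_iff₀ hr]
    have h4 : a < c := (le_max_left a 0).trans_lt hc
    have h5 : a * f r < c * f r := mul_lt_mul_of_pos_right h4 hr
    linarith
  · obtain ⟨c, hc, hc'⟩ := exists_between ha
    filter_upwards [hf, h2 c hc] with r hr hr1
    rw [div_lt_iff₀ hr]
    have h5 : c * f r < a * f r := mul_lt_mul_of_pos_right hc' hr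
    linarith

/-- The two limits, given the analytic facts. -/
theorem model_limits {d : ℕ} (hd : 4 ≤ d) {Ω : Type*} [MeasurableSpace Ω] {P : Measure Ω}
    [IsProbabilityMeasure P] (M : WModel d P) {μ : Measure (Path d)} (h : IsWiener μ) {κ : ℝ}
    (hA : AnFacts d μ κ) :
    Tendsto (fun r => M.critTime r / ff d r) (𝓝[>] 0) (𝓝 (1 / Real.sqrt κ)) ∧
      ∀ tc : ℝ → ℝ, (∀ᶠ r in 𝓝[>] (0 : ℝ),
          (∀ t, 0 ≤ t → t < tc r → ∀ᵐ ω ∂P, ¬ Percolates (M.occ r t ω)) ∧
          (∀ t, tc r < t → ∀ᵐ ω ∂P, Percolates (M.occ r t ω))) →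
        Tendsto (fun r => tc r / ff d r) (𝓝[>] 0) (𝓝 (1 / Real.sqrt κ)) := by
  obtain ⟨hlow, hupp⟩ := model_bounds hd M h hA
  have hκ := hA.pos
  have hc₀ : 0 < 1 / Real.sqrt κ := by positivity
  have hff := ff_pos_eventually d
  constructor
  · refine tendsto_div_of_bounds hc₀ hff (fun c hc hc' => ?_) (fun c hc => ?_)
    · filter_upwards [hlow c hc hc', hupp (1 / Real.sqrt κ + 1) (by linarith), hff] with r hr hr2 hr3
      refine le_csInf ⟨_, mul_nonneg (by positivity) hr3.le, hr2⟩ ?_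
      rintro t ⟨_, ht⟩
      by_contra hlt
      exact ht (hr t (not_le.1 hlt).le)
    · have hc0 : 0 < c := hc₀.trans hc
      filter_upwards [hupp c hc, hff] with r hr hr3
      exact csInf_le ⟨0, fun t ht => ht.1⟩ ⟨mul_nonneg hc0.le hr3.le, hr⟩
  · intro tc htc
    refine tendsto_div_of_bounds hc₀ hff (fun c hc hc' => ?_) (fun c hc => ?_)
    · filter_upwards [hlow c hc hc', htc] with r hr hr2
      by_contra hlt
      have h1 := hr2.2 _ (not_le.1 hlt)
      have h2 := hr _ le_rfl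
      have h3 : ∀ᵐ ω ∂P, False := by
        filter_upwards [h1, h2] with ω hω hω'
        exact hω' hω
      exact absurd h3.exists (by simp)
    · have hc0 : 0 < c := hc₀.trans hc
      filter_upwards [hupp c hc, htc, hff] with r hr hr2 hr3
      by_contra hlt
      exact hr (hr2.1 _ (mul_nonneg hc0.le hr3.le) (not_le.1 hlt))

theorem main_theorem : ∃ cs : ℕ → ℝ, cs 4 = 1 / Real.pi ∧ ∀ d : ℕ, 4 ≤ d → 0 < cs d ∧
    ∀ {Ω : Type*} [MeasurableSpace Ω] (P : Measure Ω) [IsProbabilityMeasure P] (M : WModel d P),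
      Tendsto (fun r => M.critTime r / ff d r) (𝓝[>] 0) (𝓝 (cs d)) ∧
      ∀ tc : ℝ → ℝ, (∀ᶠ r in 𝓝[>] (0 : ℝ),
          (∀ t, 0 ≤ t → t < tc r → ∀ᵐ ω ∂P, ¬ Percolates (M.occ r t ω)) ∧
          (∀ t, tc r < t → ∀ᵐ ω ∂P, Percolates (M.occ r t ω))) →
        Tendsto (fun r => tc r / ff d r) (𝓝[>] 0) (𝓝 (cs d)) := by
  classical
  have key : ∀ d : ℕ, 4 ≤ d → ∃ c : ℝ, 0 < c ∧ (d = 4 → c = 1 / Real.pi) ∧
      ∀ μ : Measure (Path d), IsWiener μ → ∃ κ, AnFacts d μ κ ∧ c = 1 / Real.sqrt κ := by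
    intro d hd
    rcases Nat.lt_or_ge 4 d with h5 | h5
    · by_cases hex : ∃ μ : Measure (Path d), IsWiener μ
      · obtain ⟨μ, hμ⟩ := hex
        obtain ⟨κ, hκ⟩ := hμ.anFacts_five' h5
        have hpos := hκ.pos
        refine ⟨1 / Real.sqrt κ, by positivity, fun h => by omega, fun ν hν => ?_⟩
        obtain rfl : ν = μ := hν.unique hμ
        exact ⟨κ, hκ, rfl⟩
      · exact ⟨1, one_pos, fun h => by omega, fun μ hμ => absurd ⟨μ, hμ⟩ hex⟩
    · obtain rfl : d = 4 := by omega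
      refine ⟨1 / Real.pi, by positivity, fun _ => rfl, fun μ hμ => ⟨Real.pi ^ 2, hμ.anFacts_four', ?_⟩⟩
      rw [Real.sqrt_sq Real.pi_pos.le]
  refine ⟨fun d => if hd : 4 ≤ d then (key d hd).choose else 0, ?_, fun d hd => ?_⟩
  · have h4 : (4 : ℕ) ≤ 4 := le_rfl
    show (if hd : 4 ≤ 4 then (key 4 hd).choose else 0) = 1 / Real.pi
    rw [dif_pos h4]
    exact (key 4 h4).choose_spec.2.1 rfl
  · simp only [dif_pos hd]
    obtain ⟨h1, -, h3⟩ := (key d hd).choose_spec
    refine ⟨h1, ?_⟩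
    intro Ω _ P _ M
    obtain ⟨μ, hμ, -⟩ := M.exists_PM
    obtain ⟨κ, hκ, he⟩ := h3 μ hμ
    rw [he]
    exact model_limits hd M hμ hκ

end WSP
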