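import Pool.Agent.Lib_MP_c175fd.GoodSet
import Pool.Agent.Lib_MP_c175fd.Gauss

/-!
# Pieces FINE, SMOOTH: macroscopic estimates for a fresh path

Here `t = tt d c r` is the (long) time of the old paths and `τ = tt d c' r` the time of a fresh path
`W`; `R = RR d r`.

FINE: for most shapes `w` of an old path, a fresh path started uniformly in the ball of radius `R`
around its starting point hits it with probability at least `c₂ / R ^ d`. Proof: let `β ≤ min c c'` be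
small and `σ = tt d β r`. Then
`∫_{‖z‖ ≤ R} μ {W | z ∈ Kset t τ w W} dz ≥ ∫_{‖z‖ ≤ R} μ {W | z ∈ Kset σ σ w W} dz
  ≥ u_σ w - ∫ W, Vol σ σ w W 1{2 r + rg σ w + rg σ W > R}` with `u_σ w = ∫ W, Vol σ σ w W`
(`enorm_le_of_mem_Kset`). The mean of the last term is at most
`(EV2 σ σ) ^ (1/2) (μ × μ) {2 r + rg σ w + rg σ W > R} ^ (1/2)`, and the probability is at most `C β ^ 2`
(`rg_tail` with `p = 4`), so for `β` small it is at most `δ κ β ^ 2 / 16`: by Markov the last term is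
at most `κ β ^ 2 / 4` outside a set of measure `δ / 4`. And `u_σ` has mean `→ κ β ^ 2` and second moment
`≤ EV2 σ σ → (κ β ^ 2) ^ 2`, so `μ {u_σ < κ β ^ 2 / 2} → 0`. Take `c₂ = κ β ^ 2 / 4`.

SMOOTH: at time `τ` the density of `W τ` is at least `c₅ / R ^ d` on the ball of radius `K₀ R`
(`IsWiener.prob_eval_ge`, `RR_bounds`).
-/

open MeasureTheory ProbabilityTheory Filter Topology
open scoped ENNReal NNReal

namespace WSP

variable {d : ℕ}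

theorem fine_pt (u : ℝ≥0∞) (m : ℝ≥0) : 2 * (m : ℝ≥0∞) * u ≤ u ^ 2 + (m : ℝ≥0∞) ^ 2 := by
  induction u using ENNReal.recTopCoe with
  | top => simp
  | coe u =>
    norm_cast
    rw [← NNReal.coe_le_coe]
    push_cast
    nlinarith [sq_nonneg ((u : ℝ) - m)]

theorem fine_pt' (u : ℝ≥0∞) (m : ℝ≥0) (h : u < ((m / 2 : ℝ≥0) : ℝ≥0∞)) :
    2 * (m : ℝ≥0∞) * u + ((m ^ 2 / 4 : ℝ≥0) : ℝ≥0∞) ≤ u ^ 2 + (m : ℝ≥0∞) ^ 2 := by
  induction u using ENNReal.recTopCoe with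
  | top => simp
  | coe u =>
    have h1 : (u : ℝ) < m / 2 := by
      have := ENNReal.coe_lt_coe.1 h
      rw [← NNReal.coe_lt_coe] at this
      push_cast at this
      exact this
    norm_cast
    rw [← NNReal.coe_le_coe]
    push_cast
    have h2 : (0 : ℝ) ≤ u := u.2
    nlinarith

theorem fine_pt2 (u : ℝ≥0∞) {l : ℝ≥0} (hl : 0 < l) :
    u ≤ (l : ℝ≥0∞) * u ^ 2 + ((l⁻¹ : ℝ≥0) : ℝ≥0∞) := by
  induction u using ENNReal.recTopCoe with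
  | top =>
    have : (l : ℝ≥0∞) ≠ 0 := by exact_mod_cast hl.ne'
    simp [ENNReal.mul_top this]
  | coe u =>
    norm_cast
    rw [← NNReal.coe_le_coe]
    push_cast
    have h0 : (0 : ℝ) < l := hl
    have h1 : (l : ℝ) * (l : ℝ)⁻¹ = 1 := mul_inv_cancel₀ h0.ne'
    have h2 : (0 : ℝ) < (l : ℝ)⁻¹ := inv_pos.2 h0
    have h3 : (0 : ℝ) ≤ u := u.2
    have h4 : 0 ≤ (l : ℝ)⁻¹ * (l * u - 1) ^ 2 := by positivity
    have h5 : (l : ℝ)⁻¹ * (l * u - 1) ^ 2 = l * u ^ 2 - 2 * u + (l : ℝ)⁻¹ := by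
      field_simp
      ring
    nlinarith

/-- Jensen -/
theorem fine_jensen {α : Type*} [MeasurableSpace α] {ν : Measure α} [IsProbabilityMeasure ν]
    {f : α → ℝ≥0∞} (hf : Measurable f) : (∫⁻ a, f a ∂ν) ^ 2 ≤ ∫⁻ a, (f a) ^ 2 ∂ν := by
  by_cases h : ∫⁻ a, f a ∂ν = ∞
  · have h1 : ∫⁻ a, f a ∂ν ≤ ∫⁻ a, (((1 : ℝ≥0) : ℝ≥0∞) * (f a) ^ 2 + ((1⁻¹ : ℝ≥0) : ℝ≥0∞)) ∂ν :=
      lintegral_mono fun a => fine_pt2 (f a) one_pos
    rw [lintegral_add_right _ measurable_const] at h1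
    simp only [ENNReal.coe_one, one_mul, inv_one, lintegral_const, measure_univ, mul_one] at h1
    rw [h, top_le_iff, ENNReal.add_eq_top] at h1
    rcases h1 with h1 | h1
    · rw [h1]
      exact le_top
    · simp at h1
  · obtain ⟨m, hm⟩ : ∃ m : ℝ≥0, (m : ℝ≥0∞) = ∫⁻ a, f a ∂ν :=
      ⟨_, ENNReal.coe_toNNReal h⟩
    have h1 : ∫⁻ a, 2 * (m : ℝ≥0∞) * f a ∂ν ≤ ∫⁻ a, ((f a) ^ 2 + (m : ℝ≥0∞) ^ 2) ∂ν :=
      lintegral_mono fun a => fine_pt (f a) m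
    rw [lintegral_const_mul _ hf, lintegral_add_right _ measurable_const, lintegral_const,
      measure_univ, mul_one, ← hm] at h1
    rw [← hm]
    have h2 : (m : ℝ≥0∞) ^ 2 + (m : ℝ≥0∞) ^ 2 ≤ ∫⁻ a, (f a) ^ 2 ∂ν + (m : ℝ≥0∞) ^ 2 := by
      refine le_trans (le_of_eq ?_) h1
      ring
    have h3 : (m : ℝ≥0∞) ^ 2 ≠ ∞ := by
      rw [← ENNReal.coe_pow]
      exact ENNReal.coe_ne_top
    exact (ENNReal.add_le_add_iff_right h3).1 h2

/-- the mean volume -/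
noncomputable def fU (μ : Measure (Path d)) (ρ : ℝ) (σ : ℝ≥0) (w : Path d) : ℝ≥0∞ :=
  ∫⁻ W, Vol ρ σ σ w W ∂μ

/-- the pairs with a large range -/
def fBad (ρ σ : ℝ≥0) (R : ℕ) : Set (Path d × Path d) :=
  {p | (R : ℝ≥0∞) < (ρ : ℝ≥0∞) + rg σ p.1 + rg σ p.2}

theorem measurableSet_fBad (ρ σ : ℝ≥0) (R : ℕ) : MeasurableSet (fBad ρ σ R : Set (Path d × Path d)) :=
  measurableSet_lt measurable_const
    ((measurable_const.add ((measurable_rg σ).comp measurable_fst)).add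
      ((measurable_rg σ).comp measurable_snd))

/-- the bad part -/
noncomputable def fV (μ : Measure (Path d)) (ρ σ : ℝ≥0) (R : ℕ) (w : Path d) : ℝ≥0∞ :=
  ∫⁻ W, (fBad ρ σ R).indicator (fun p : Path d × Path d => Vol ρ σ σ p.1 p.2) (w, W) ∂μ

theorem measurable_fU (μ : Measure (Path d)) [SFinite μ] (ρ : ℝ) (σ : ℝ≥0) :
    Measurable (fU μ ρ σ) :=
  (measurable_Vol ρ σ σ).lintegral_prod_right'

theorem measurable_fV (μ : Measure (Path d)) [SFinite μ] (ρ σ : ℝ≥0) (R : ℕ) :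
    Measurable (fV μ ρ σ R) :=
  ((measurable_Vol ρ σ σ).indicator (measurableSet_fBad ρ σ R)).lintegral_prod_right'

/-- Tonelli and the decomposition of the volume -/
theorem fine_decomp (μ : Measure (Path d)) [IsProbabilityMeasure μ] (ρ σ t τ : ℝ≥0) (hs : σ ≤ t)
    (ht : σ ≤ τ) (R : ℕ) (w : Path d) :
    fU μ ρ σ w ≤ (∫⁻ z in Metric.closedBall (0 : E d) R,
      μ {W | z ∈ Kset (ρ : ℝ) t τ w W}) + fV μ ρ σ R w := by
  have hS : MeasurableSet {p : E d × Path d | p.1 ∈ Kset (ρ : ℝ) σ σ w p.2} := by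
    have h1 := measurableSet_Kset_prod (d := d) (ρ : ℝ) σ σ
    have h2 : Measurable (fun p : E d × Path d => (p.1, w, p.2)) :=
      measurable_fst.prodMk (measurable_const.prodMk measurable_snd)
    exact h2 h1
  have h1 : ∫⁻ z in Metric.closedBall (0 : E d) R, μ {W | z ∈ Kset (ρ : ℝ) σ σ w W} ≤
      ∫⁻ z in Metric.closedBall (0 : E d) R, μ {W | z ∈ Kset (ρ : ℝ) t τ w W} :=
    lintegral_mono fun z => measure_mono fun W hW => Kset_mono le_rfl hs ht w W hW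
  have h2 : ∫⁻ z in Metric.closedBall (0 : E d) R, μ {W | z ∈ Kset (ρ : ℝ) σ σ w W} =
      ∫⁻ W, volume (Kset (ρ : ℝ) σ σ w W ∩ Metric.closedBall (0 : E d) R) ∂μ := by
    have e1 := Measure.prod_apply (μ := (volume : Measure (E d)).restrict
      (Metric.closedBall (0 : E d) R)) (ν := μ) hS
    have e2 := Measure.prod_apply_symm (μ := (volume : Measure (E d)).restrict
      (Metric.closedBall (0 : E d) R)) (ν := μ) hS
    rw [e1] at e2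
    refine e2.trans (lintegral_congr fun W => ?_)
    exact Measure.restrict_apply' Metric.isClosed_closedBall.measurableSet
  have h3 : ∀ W, Vol (ρ : ℝ) σ σ w W ≤
      volume (Kset (ρ : ℝ) σ σ w W ∩ Metric.closedBall (0 : E d) R) +
        (fBad ρ σ R).indicator (fun p : Path d × Path d => Vol (ρ : ℝ) σ σ p.1 p.2) (w, W) := by
    intro W
    by_cases hb : (w, W) ∈ (fBad ρ σ R : Set (Path d × Path d))
    · rw [Set.indicator_of_mem hb]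
      exact le_add_self
    · rw [Set.indicator_of_notMem hb, add_zero]
      have hb' : (ρ : ℝ≥0∞) + rg σ w + rg σ W ≤ (R : ℝ≥0∞) := not_lt.1 hb
      refine measure_mono fun z hz => ⟨hz, ?_⟩
      have h4 : ‖z‖ₑ ≤ (R : ℝ≥0∞) := (enorm_le_of_mem_Kset hz).trans hb'
      rw [mem_closedBall_zero_iff]
      have h5 : ENNReal.ofReal ‖z‖ ≤ ENNReal.ofReal (R : ℝ) := by
        rw [ofReal_norm, ENNReal.ofReal_natCast]
        exact h4
      exact (ENNReal.ofReal_le_ofReal_iff (Nat.cast_nonneg R)).1 h5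
  have h4 : fU μ ρ σ w ≤ (∫⁻ W, volume (Kset (ρ : ℝ) σ σ w W ∩ Metric.closedBall (0 : E d) R) ∂μ) +
      fV μ ρ σ R w := by
    have h5 : Measurable (fun W : Path d => (fBad ρ σ R).indicator
        (fun p : Path d × Path d => Vol (ρ : ℝ) σ σ p.1 p.2) (w, W)) := by
      have h6 : Measurable (fun W : Path d => (w, W)) := measurable_prodMk_left
      have h7 := ((measurable_Vol (d := d) (ρ : ℝ) σ σ).indicator (measurableSet_fBad ρ σ R)).comp h6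
      exact h7
    unfold fU fV
    rw [← lintegral_add_right _ h5]
    exact lintegral_mono h3
  refine h4.trans ?_
  rw [← h2]
  exact add_le_add_left h1 _

theorem fine_sq {μ : Measure (Path d)} [IsProbabilityMeasure μ] (ρ : ℝ) (σ : ℝ≥0) :
    ∫⁻ w, (fU μ ρ σ w) ^ 2 ∂μ ≤ EV2 μ ρ σ σ := by
  unfold EV2 fU
  exact lintegral_mono fun w => fine_jensen (measurable_Vol_right ρ σ σ w)

theorem fine_A {μ : Measure (Path d)} [IsProbabilityMeasure μ] (ρ : ℝ) (σ m : ℝ≥0) :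
    2 * (m : ℝ≥0∞) * EV μ ρ σ σ + ((m ^ 2 / 4 : ℝ≥0) : ℝ≥0∞) *
      μ {w | fU μ ρ σ w < ((m / 2 : ℝ≥0) : ℝ≥0∞)} ≤ EV2 μ ρ σ σ + (m : ℝ≥0∞) ^ 2 := by
  have hU := measurable_fU μ ρ σ
  have hA : MeasurableSet {w | fU μ ρ σ w < ((m / 2 : ℝ≥0) : ℝ≥0∞)} :=
    measurableSet_lt hU measurable_const
  have h1 : ∫⁻ w, (2 * (m : ℝ≥0∞) * fU μ ρ σ w +
      ({w | fU μ ρ σ w < ((m / 2 : ℝ≥0) : ℝ≥0∞)}).indicator
        (fun _ => ((m ^ 2 / 4 : ℝ≥0) : ℝ≥0∞)) w) ∂μ ≤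
      ∫⁻ w, ((fU μ ρ σ w) ^ 2 + (m : ℝ≥0∞) ^ 2) ∂μ := by
    refine lintegral_mono fun w => ?_
    by_cases hw : fU μ ρ σ w < ((m / 2 : ℝ≥0) : ℝ≥0∞)
    · rw [Set.indicator_of_mem (show w ∈ {w | fU μ ρ σ w < ((m / 2 : ℝ≥0) : ℝ≥0∞)} from hw)]
      exact fine_pt' _ m hw
    · rw [Set.indicator_of_notMem (show w ∉ {w | fU μ ρ σ w < ((m / 2 : ℝ≥0) : ℝ≥0∞)} from hw),
        add_zero]
      exact fine_pt _ m
  rw [lintegral_add_left (hU.const_mul _), lintegral_const_mul _ hU, lintegral_indicator_const hA,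
    lintegral_add_right _ measurable_const, lintegral_const, measure_univ, mul_one] at h1
  have h2 : ∫⁻ w, fU μ ρ σ w ∂μ = EV μ ρ σ σ := rfl
  rw [h2] at h1
  exact h1.trans (add_le_add_left (fine_sq ρ σ) _)

theorem fine_P {μ : Measure (Path d)} [IsProbabilityMeasure μ] (ρ σ : ℝ≥0) (R : ℕ)
    (hρ : ρ ≤ (R : ℝ≥0) / 2) :
    ∫⁻ w, μ {W | (w, W) ∈ (fBad ρ σ R : Set (Path d × Path d))} ∂μ ≤
      2 * μ {w | (((R : ℝ≥0) / 4 : ℝ≥0) : ℝ≥0∞) < rg σ w} := by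
  set B : Set (Path d) := {w | (((R : ℝ≥0) / 4 : ℝ≥0) : ℝ≥0∞) < rg σ w} with hB
  have hBm : MeasurableSet B := measurableSet_lt measurable_const (measurable_rg σ)
  have h1 : ∀ w, μ {W | (w, W) ∈ (fBad ρ σ R : Set (Path d × Path d))} ≤
      B.indicator (fun _ => (1 : ℝ≥0∞)) w + μ B := by
    intro w
    by_cases hw : w ∈ B
    · rw [Set.indicator_of_mem hw]
      exact prob_le_one.trans le_self_add
    · rw [Set.indicator_of_notMem hw, zero_add]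
      refine measure_mono fun W hW => ?_
      by_contra hW2
      have h2 : rg σ w ≤ (((R : ℝ≥0) / 4 : ℝ≥0) : ℝ≥0∞) := not_lt.1 hw
      have h3 : rg σ W ≤ (((R : ℝ≥0) / 4 : ℝ≥0) : ℝ≥0∞) := not_lt.1 hW2
      have h4 : (R : ℝ≥0∞) < (ρ : ℝ≥0∞) + rg σ w + rg σ W := hW
      have h5 : (ρ : ℝ≥0∞) + rg σ w + rg σ W ≤
          (((R : ℝ≥0) / 2 : ℝ≥0) : ℝ≥0∞) + (((R : ℝ≥0) / 4 : ℝ≥0) : ℝ≥0∞) +
            (((R : ℝ≥0) / 4 : ℝ≥0) : ℝ≥0∞) :=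
        add_le_add (add_le_add (ENNReal.coe_le_coe.2 hρ) h2) h3
      have h6 : (((R : ℝ≥0) / 2 : ℝ≥0) : ℝ≥0∞) + (((R : ℝ≥0) / 4 : ℝ≥0) : ℝ≥0∞) +
            (((R : ℝ≥0) / 4 : ℝ≥0) : ℝ≥0∞) = (R : ℝ≥0∞) := by
        rw [← ENNReal.coe_add, ← ENNReal.coe_add]
        have : (R : ℝ≥0) / 2 + (R : ℝ≥0) / 4 + (R : ℝ≥0) / 4 = (R : ℝ≥0) := by
          rw [← NNReal.coe_inj]
          push_cast
          ring
        rw [this]
        simp
      rw [h6] at h5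
      exact absurd h4 (not_lt.2 h5)
  refine (lintegral_mono h1).trans ?_
  rw [lintegral_add_right _ measurable_const, lintegral_const, measure_univ, mul_one,
    lintegral_indicator_const hBm, one_mul, two_mul]

theorem fine_V {μ : Measure (Path d)} [IsProbabilityMeasure μ] (ρ σ : ℝ≥0) (R : ℕ) {l : ℝ≥0}
    (hl : 0 < l) :
    ∫⁻ w, fV μ ρ σ R w ∂μ ≤ (l : ℝ≥0∞) * EV2 μ (ρ : ℝ) σ σ + ((l⁻¹ : ℝ≥0) : ℝ≥0∞) *
      ∫⁻ w, μ {W | (w, W) ∈ (fBad ρ σ R : Set (Path d × Path d))} ∂μ := by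
  have hbm : ∀ w : Path d, MeasurableSet {W | (w, W) ∈ (fBad ρ σ R : Set (Path d × Path d))} := by
    intro w
    have h6 : Measurable (fun W : Path d => (w, W)) := measurable_prodMk_left
    exact h6 (measurableSet_fBad ρ σ R)
  have h1 : ∀ w, fV μ ρ σ R w ≤ (l : ℝ≥0∞) * ∫⁻ W, (Vol (ρ : ℝ) σ σ w W) ^ 2 ∂μ +
      ((l⁻¹ : ℝ≥0) : ℝ≥0∞) * μ {W | (w, W) ∈ (fBad ρ σ R : Set (Path d × Path d))} := by
    intro w
    have h2 : ∀ W, (fBad ρ σ R).indicator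
        (fun p : Path d × Path d => Vol (ρ : ℝ) σ σ p.1 p.2) (w, W) ≤
        (l : ℝ≥0∞) * (Vol (ρ : ℝ) σ σ w W) ^ 2 +
          ({W | (w, W) ∈ (fBad ρ σ R : Set (Path d × Path d))}).indicator
            (fun _ => ((l⁻¹ : ℝ≥0) : ℝ≥0∞)) W := by
      intro W
      by_cases hb : (w, W) ∈ (fBad ρ σ R : Set (Path d × Path d))
      · rw [Set.indicator_of_mem hb, Set.indicator_of_mem
          (show W ∈ {W | (w, W) ∈ (fBad ρ σ R : Set (Path d × Path d))} from hb)]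
        exact fine_pt2 _ hl
      · rw [Set.indicator_of_notMem hb]
        exact zero_le
    have h3 := (measurable_Vol_right (ρ : ℝ) σ σ w).pow_const 2
    refine (lintegral_mono h2).trans ?_
    rw [lintegral_add_left (h3.const_mul _), lintegral_const_mul _ h3,
      lintegral_indicator_const (hbm w)]
  have h4 : Measurable (fun w : Path d => ∫⁻ W, (Vol (ρ : ℝ) σ σ w W) ^ 2 ∂μ) :=
    ((measurable_Vol (ρ : ℝ) σ σ).pow_const 2).lintegral_prod_right'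
  have h5 : Measurable (fun w : Path d =>
      μ {W | (w, W) ∈ (fBad ρ σ R : Set (Path d × Path d))}) :=
    measurable_measure_prodMk_left (measurableSet_fBad ρ σ R)
  refine (lintegral_mono h1).trans ?_
  rw [lintegral_add_left (h4.const_mul _), lintegral_const_mul _ h4, lintegral_const_mul _ h5]
  rfl

theorem fine_num {C b δ m : ℝ≥0} (hb0 : 0 < b) (hδ : 0 < δ) (hm : 0 < m)
    (hb : b ≤ δ / (1024 * (C + 1))) :
    δ / (64 * m) * (4 * m ^ 2) + (δ / (64 * m))⁻¹ * (2 * (C / ((4 * NNReal.sqrt b)⁻¹) ^ 4)) ≤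
      m / 4 * (δ / 2) := by
  have hs : NNReal.sqrt b ^ 4 = b ^ 2 := by
    rw [show (4 : ℕ) = 2 * 2 by norm_num, pow_mul, NNReal.sq_sqrt]
  have h1 : C / ((4 * NNReal.sqrt b)⁻¹) ^ 4 = 256 * C * b ^ 2 := by
    rw [inv_pow, div_inv_eq_mul, mul_pow, hs]
    norm_num
    ring
  rw [h1, ← NNReal.coe_le_coe]
  push_cast
  have hδ' : (0 : ℝ) < δ := hδ
  have hm' : (0 : ℝ) < m := hm
  have hb0' : (0 : ℝ) < b := hb0
  have hC' : (0 : ℝ) ≤ C := C.2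
  have hb' : (b : ℝ) * (1024 * (C + 1)) ≤ δ := by
    have h2 : (b : ℝ) ≤ δ / (1024 * (C + 1)) := by
      have := NNReal.coe_le_coe.2 hb
      push_cast at this
      exact this
    rwa [le_div_iff₀ (by positivity)] at h2
  have h3 : (C : ℝ) * b ^ 2 * 1048576 ≤ δ ^ 2 := by
    have h4 : ((b : ℝ) * (1024 * (C + 1))) ^ 2 ≤ δ ^ 2 := pow_le_pow_left₀ (by positivity) hb' 2
    have h5 : (C : ℝ) ≤ (C + 1) ^ 2 := by nlinarith
    have h6 : (C : ℝ) * b ^ 2 * 1048576 ≤ (C + 1) ^ 2 * b ^ 2 * 1048576 := by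
      have : (0 : ℝ) ≤ b ^ 2 := sq_nonneg _
      nlinarith
    nlinarith
  have e1 : (δ : ℝ) / (64 * m) * (4 * m ^ 2) = δ * m / 16 := by
    field_simp
    ring
  have e2 : ((δ : ℝ) / (64 * m))⁻¹ * (2 * (256 * C * b ^ 2)) = 32768 * m * (C * b ^ 2) / δ := by
    field_simp
    ring
  rw [e1, e2]
  have h7 : 32768 * (m : ℝ) * (C * b ^ 2) / δ ≤ m * δ / 32 := by
    rw [div_le_iff₀ hδ']
    nlinarith
  nlinarith

theorem fine_range {b : ℝ≥0} (hb0 : 0 < b) {r : ℝ} (d : ℕ) :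
    (4 * NNReal.sqrt b)⁻¹ * NNReal.sqrt (tt d b r) ≤ (RR d r : ℝ≥0) / 4 := by
  have hsb : NNReal.sqrt b ≠ 0 := by
    rw [Ne, NNReal.sqrt_eq_zero]
    exact hb0.ne'
  have h1 : NNReal.sqrt (tt d b r) = NNReal.sqrt b * NNReal.sqrt (ff d r).toNNReal := by
    unfold tt
    rw [Real.toNNReal_mul (NNReal.coe_nonneg b), Real.toNNReal_coe, NNReal.sqrt_mul]
  have h2 : NNReal.sqrt (ff d r).toNNReal ≤ (RR d r : ℝ≥0) := by
    rw [← NNReal.coe_le_coe]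
    have h3 : ((NNReal.sqrt (ff d r).toNNReal : ℝ≥0) : ℝ) = Real.sqrt (ff d r) := by
      rw [Real.coe_sqrt]
      rcases le_total 0 (ff d r) with h | h
      · rw [Real.coe_toNNReal _ h]
      · rw [Real.toNNReal_of_nonpos h, Real.sqrt_eq_zero_of_nonpos h]
        simp
    rw [h3, NNReal.coe_natCast]
    exact Nat.le_ceil _
  have h4 : (4 * NNReal.sqrt b)⁻¹ * NNReal.sqrt (tt d b r) = NNReal.sqrt (ff d r).toNNReal / 4 := by
    rw [h1]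
    field_simp
  rw [h4]
  exact div_le_div_of_nonneg_right h2 zero_le

theorem fine_shapes (hd : 4 ≤ d) {μ : Measure (Path d)} (h : IsWiener μ) {κ : ℝ}
    (hA : AnFacts d μ κ) {c c' : ℝ} (hc : 0 < c) (hc' : 0 < c') {δ : ℝ≥0} (hδ : 0 < δ) :
    ∃ c₂ : ℝ≥0, 0 < c₂ ∧ ∀ᶠ r in 𝓝[>] (0 : ℝ),
      μ {w | (∫⁻ z in Metric.closedBall (0 : E d) (RR d r),
        μ {W | z ∈ Kset (2 * r) (tt d c r) (tt d c' r) w W}) < c₂} ≤ δ := by
  have hprob := h.isProb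
  obtain ⟨C, hC⟩ := h.rg_tail 4
  obtain ⟨b, hb0, hbc, hbc', hbδ⟩ : ∃ b : ℝ≥0, 0 < b ∧ (b : ℝ) ≤ c ∧ (b : ℝ) ≤ c' ∧
      b ≤ δ / (1024 * (C + 1)) := by
    refine ⟨min (min c.toNNReal c'.toNNReal) (δ / (1024 * (C + 1))), ?_, ?_, ?_, min_le_right _ _⟩
    · refine lt_min (lt_min (Real.toNNReal_pos.2 hc) (Real.toNNReal_pos.2 hc')) ?_
      positivity
    · have : min (min c.toNNReal c'.toNNReal) (δ / (1024 * (C + 1))) ≤ c.toNNReal :=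
        (min_le_left _ _).trans (min_le_left _ _)
      have h1 := NNReal.coe_le_coe.2 this
      rwa [Real.coe_toNNReal _ hc.le] at h1
    · have : min (min c.toNNReal c'.toNNReal) (δ / (1024 * (C + 1))) ≤ c'.toNNReal :=
        (min_le_left _ _).trans (min_le_right _ _)
      have h1 := NNReal.coe_le_coe.2 this
      rwa [Real.coe_toNNReal _ hc'.le] at h1
  have hbr : (0 : ℝ) < b := hb0
  set m : ℝ≥0 := (κ * (b : ℝ) ^ 2).toNNReal with hm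
  have hmr : (m : ℝ) = κ * (b : ℝ) ^ 2 := Real.coe_toNNReal _ (by have := hA.pos; positivity)
  have hm0 : 0 < m := Real.toNNReal_pos.2 (by have := hA.pos; positivity)
  have hev : Tendsto (fun r : ℝ => EV μ (2 * r) (tt d b r) (tt d b r)) (𝓝[>] 0)
      (𝓝 (m : ℝ≥0∞)) := hA.ev b hbr
  have hev2 : Tendsto (fun r : ℝ => EV2 μ (2 * r) (tt d b r) (tt d b r)) (𝓝[>] 0)
      (𝓝 ((m : ℝ≥0∞) ^ 2)) := by
    have h1 := hA.ev2 b hbr
    have e : ENNReal.ofReal ((κ * (b : ℝ) ^ 2) ^ 2) = (m : ℝ≥0∞) ^ 2 := by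
      rw [← hmr, ENNReal.ofReal_pow (NNReal.coe_nonneg m), ENNReal.ofReal_coe_nnreal]
    rwa [e] at h1
  refine ⟨m / 4, by positivity, ?_⟩
  have ev1 : ∀ᶠ r in 𝓝[>] (0 : ℝ), EV2 μ (2 * r) (tt d b r) (tt d b r) <
      ((4 * m ^ 2 : ℝ≥0) : ℝ≥0∞) := by
    refine hev2.eventually_lt_const ?_
    rw [← ENNReal.coe_pow, ENNReal.coe_lt_coe]
    rw [← NNReal.coe_lt_coe]
    push_cast
    have : (0 : ℝ) < (m : ℝ) ^ 2 := by positivity
    linarith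
  have ev2 : ∀ᶠ r in 𝓝[>] (0 : ℝ), EV2 μ (2 * r) (tt d b r) (tt d b r) + (m : ℝ≥0∞) ^ 2 <
      2 * (m : ℝ≥0∞) * EV μ (2 * r) (tt d b r) (tt d b r) +
        ((m ^ 2 / 4 * (δ / 2) : ℝ≥0) : ℝ≥0∞) := by
    have t1 : Tendsto (fun r : ℝ => EV2 μ (2 * r) (tt d b r) (tt d b r) + (m : ℝ≥0∞) ^ 2) (𝓝[>] 0)
        (𝓝 ((m : ℝ≥0∞) ^ 2 + (m : ℝ≥0∞) ^ 2)) := hev2.add tendsto_const_nhds
    have hne : (2 * (m : ℝ≥0∞)) ≠ ∞ := by
      have : (2 * (m : ℝ≥0∞)) = ((2 * m : ℝ≥0) : ℝ≥0∞) := by push_cast; rfl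
      rw [this]
      exact ENNReal.coe_ne_top
    have t2 : Tendsto (fun r : ℝ => 2 * (m : ℝ≥0∞) * EV μ (2 * r) (tt d b r) (tt d b r) +
        ((m ^ 2 / 4 * (δ / 2) : ℝ≥0) : ℝ≥0∞)) (𝓝[>] 0)
        (𝓝 (2 * (m : ℝ≥0∞) * m + ((m ^ 2 / 4 * (δ / 2) : ℝ≥0) : ℝ≥0∞))) :=
      (ENNReal.Tendsto.const_mul hev (Or.inr hne)).add tendsto_const_nhds
    refine t1.eventually_lt t2 ?_
    have e1 : (m : ℝ≥0∞) ^ 2 + (m : ℝ≥0∞) ^ 2 = ((2 * m ^ 2 : ℝ≥0) : ℝ≥0∞) := by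
      push_cast
      ring
    have e2 : 2 * (m : ℝ≥0∞) * m + ((m ^ 2 / 4 * (δ / 2) : ℝ≥0) : ℝ≥0∞) =
        ((2 * m ^ 2 + m ^ 2 / 4 * (δ / 2) : ℝ≥0) : ℝ≥0∞) := by
      rw [ENNReal.coe_add]
      congr 1
      push_cast
      ring
    rw [e1, e2, ENNReal.coe_lt_coe]
    exact lt_add_of_pos_right _ (by positivity)
  have ev3 : ∀ᶠ r in 𝓝[>] (0 : ℝ), (0 : ℝ) < r := self_mem_nhdsWithin
  have ev4 : ∀ᶠ r in 𝓝[>] (0 : ℝ), r < 1 / 4 :=
    mem_nhdsWithin_of_mem_nhds (Iio_mem_nhds (by norm_num))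
  filter_upwards [ev1, ev2, ev3, ev4, RR_pos hd, (tendsto_ff hd).eventually_ge_atTop 0]
    with r h1 h2 hr0 hr1 hR hff
  set R : ℕ := RR d r with hRdef
  set σ : ℝ≥0 := tt d b r with hσ
  obtain ⟨ρ, hρ⟩ : ∃ ρ : ℝ≥0, (ρ : ℝ) = 2 * r := ⟨(2 * r).toNNReal, Real.coe_toNNReal _ (by linarith)⟩
  have hst : σ ≤ tt d c r := Real.toNNReal_le_toNNReal (mul_le_mul_of_nonneg_right hbc hff)
  have hst' : σ ≤ tt d c' r := Real.toNNReal_le_toNNReal (mul_le_mul_of_nonneg_right hbc' hff)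
  have hρR : ρ ≤ (R : ℝ≥0) / 2 := by
    rw [← NNReal.coe_le_coe, hρ]
    push_cast
    have : (1 : ℝ) ≤ R := by exact_mod_cast hR
    linarith
  rw [← hρ] at h1 h2 ⊢
  -- the two bad sets
  have hsub : {w | (∫⁻ z in Metric.closedBall (0 : E d) R,
        μ {W | z ∈ Kset (ρ : ℝ) (tt d c r) (tt d c' r) w W}) < ((m / 4 : ℝ≥0) : ℝ≥0∞)} ⊆
      {w | fU μ ρ σ w < ((m / 2 : ℝ≥0) : ℝ≥0∞)} ∪
        {w | ((m / 4 : ℝ≥0) : ℝ≥0∞) ≤ fV μ ρ σ R w} := by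
    intro w hw
    by_contra hcon
    rw [Set.mem_union, not_or] at hcon
    obtain ⟨hu, hv⟩ := hcon
    have hu' : ((m / 2 : ℝ≥0) : ℝ≥0∞) ≤ fU μ ρ σ w := not_lt.1 hu
    have hv' : fV μ ρ σ R w < ((m / 4 : ℝ≥0) : ℝ≥0∞) := not_le.1 hv
    have h3 := hu'.trans (fine_decomp μ ρ σ (tt d c r) (tt d c' r) hst hst' R w)
    have h4 := h3.trans_lt (ENNReal.add_lt_add hw hv')
    have h5 : ((m / 4 : ℝ≥0) : ℝ≥0∞) + ((m / 4 : ℝ≥0) : ℝ≥0∞) = ((m / 2 : ℝ≥0) : ℝ≥0∞) := by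
      rw [← ENNReal.coe_add]
      congr 1
      rw [← NNReal.coe_inj]
      push_cast
      ring
    rw [h5] at h4
    exact lt_irrefl _ h4
  have hA1 : μ {w | fU μ ρ σ w < ((m / 2 : ℝ≥0) : ℝ≥0∞)} ≤ ((δ / 2 : ℝ≥0) : ℝ≥0∞) := by
    by_contra hcon
    have hcon' := (not_le.1 hcon).le
    have h3 := fine_A (μ := μ) (ρ : ℝ) σ m
    have h4 : 2 * (m : ℝ≥0∞) * EV μ ρ σ σ + ((m ^ 2 / 4 * (δ / 2) : ℝ≥0) : ℝ≥0∞) ≤
        EV2 μ ρ σ σ + (m : ℝ≥0∞) ^ 2 := by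
      refine le_trans (add_le_add_right ?_ _) h3
      rw [ENNReal.coe_mul]
      exact mul_le_mul_right hcon' _
    exact absurd h2 (not_lt.2 h4)
  have hB : μ {w | ((m / 4 : ℝ≥0) : ℝ≥0∞) ≤ fV μ ρ σ R w} ≤ ((δ / 2 : ℝ≥0) : ℝ≥0∞) := by
    have hl : 0 < δ / (64 * m) := by positivity
    have h3 := mul_meas_ge_le_lintegral (μ := μ) (measurable_fV μ ρ σ R) ((m / 4 : ℝ≥0) : ℝ≥0∞)
    have h4 := fine_V (μ := μ) ρ σ R hl
    have h5 := fine_P (μ := μ) ρ σ R hρR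
    have ha : 0 < (4 * NNReal.sqrt b)⁻¹ := by
      have : 0 < NNReal.sqrt b := NNReal.sqrt_pos.2 hb0
      positivity
    have h6 : μ {w | (((R : ℝ≥0) / 4 : ℝ≥0) : ℝ≥0∞) < rg σ w} ≤
        ((C / ((4 * NNReal.sqrt b)⁻¹) ^ 4 : ℝ≥0) : ℝ≥0∞) := by
      have h7 := hC σ ((4 * NNReal.sqrt b)⁻¹) ha
      have h8 : ((C / ((4 * NNReal.sqrt b)⁻¹) ^ 4 : ℝ≥0) : ℝ≥0∞) =
          (C : ℝ≥0∞) / (((4 * NNReal.sqrt b)⁻¹ : ℝ≥0) : ℝ≥0∞) ^ 4 := by
        rw [ENNReal.coe_div (by positivity), ENNReal.coe_pow]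
      rw [h8]
      refine le_trans (measure_mono fun w hw => ?_) h7
      have h9 := fine_range hb0 (r := r) d
      have h10 : (((4 * NNReal.sqrt b)⁻¹ : ℝ≥0) : ℝ≥0∞) * (NNReal.sqrt σ : ℝ≥0∞) ≤
          (((R : ℝ≥0) / 4 : ℝ≥0) : ℝ≥0∞) := by
        rw [← ENNReal.coe_mul, ENNReal.coe_le_coe]
        exact h9
      exact h10.trans_lt hw
    have h11 : ∫⁻ w, fV μ ρ σ R w ∂μ ≤ ((m / 4 * (δ / 2) : ℝ≥0) : ℝ≥0∞) := by
      refine h4.trans ?_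
      have h12 : ((δ / (64 * m) : ℝ≥0) : ℝ≥0∞) * EV2 μ (ρ : ℝ) σ σ ≤
          ((δ / (64 * m) * (4 * m ^ 2) : ℝ≥0) : ℝ≥0∞) := by
        rw [ENNReal.coe_mul]
        exact mul_le_mul_right h1.le _
      have h13 : (((δ / (64 * m))⁻¹ : ℝ≥0) : ℝ≥0∞) *
          ∫⁻ w, μ {W | (w, W) ∈ (fBad ρ σ R : Set (Path d × Path d))} ∂μ ≤
          (((δ / (64 * m))⁻¹ * (2 * (C / ((4 * NNReal.sqrt b)⁻¹) ^ 4)) : ℝ≥0) : ℝ≥0∞) := by
        rw [ENNReal.coe_mul, ENNReal.coe_mul]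
        refine mul_le_mul_right (h5.trans ?_) _
        exact mul_le_mul_right h6 _
      refine (add_le_add h12 h13).trans ?_
      rw [← ENNReal.coe_add, ENNReal.coe_le_coe]
      exact fine_num hb0 hδ hm0 hbδ
    have h14 := h3.trans h11
    rw [ENNReal.coe_mul] at h14
    have h15 : ((m / 4 : ℝ≥0) : ℝ≥0∞) ≠ 0 := by
      rw [Ne, ENNReal.coe_eq_zero]
      positivity
    exact (ENNReal.mul_le_mul_iff_right h15 ENNReal.coe_ne_top).1 h14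
  refine (measure_mono hsub).trans ((measure_union_le _ _).trans ?_)
  refine (add_le_add hA1 hB).trans (le_of_eq ?_)
  rw [← ENNReal.coe_add]
  congr 1
  rw [← NNReal.coe_inj]
  push_cast
  ring

end WSP
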