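import Pool.Agent.Lib_MP_c175fd.LocalTime
import Pool.Agent.Lib_MP_c175fd.Apriori

/-!
# Definitions for dimension four (piece FOURD: the measurability of `Gk`)
-/

open MeasureTheory ProbabilityTheory Filter Topology
open scoped ENNReal NNReal

namespace WSP

/-- Expected time before `s` spent in the unit ball around `x`. -/
noncomputable def Gk {d : ℕ} (μ : Measure (Path d)) (s : ℝ≥0) (x : E d) : ℝ≥0∞ :=
  ∫⁻ u in Set.Ioc (0 : ℝ) s, μ {w | dist (w u.toNNReal) x < 1}

/-- Expected local time of a fresh path with `w'` placed at displacement `y`. -/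
noncomputable def Phi {d : ℕ} (μ : Measure (Path d)) (s n : ℝ≥0) (w' : Path d) (y : E d) : ℝ≥0∞ :=
  ∫⁻ w, LT s n w w' y ∂μ

/-- The constant `|B_1| / (2 π^2)` of dimension four. -/
noncomputable def cB : ℝ≥0∞ := volume (Metric.ball (0 : E 4) 1) / ENNReal.ofReal (2 * Real.pi ^ 2)

theorem measurable_Gk {d : ℕ} {μ : Measure (Path d)} [IsProbabilityMeasure μ] (s : ℝ≥0) :
    Measurable (Gk μ s : E d → ℝ≥0∞) := by
  have hm : MeasurableSet {q : (E d × ℝ) × Path d | dist (q.2 q.1.2.toNNReal) q.1.1 < 1} := by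
    refine measurableSet_lt (Measurable.dist ?_ ?_) measurable_const
    · exact measurable_eval_prod.comp
        (measurable_snd.prodMk (measurable_snd.comp measurable_fst).real_toNNReal)
    · exact measurable_fst.comp measurable_fst
  exact (measurable_measure_prodMk_left (ν := μ) hm).lintegral_prod_right'
    (ν := volume.restrict (Set.Ioc (0 : ℝ) s))

open Classical in
/-- The upper function: the constant `C` in the ball of radius `K`, `(1 + ε) cB / ‖x‖^2` outside. -/
noncomputable def cu (C : ℝ≥0) (ε K : ℝ) (x : E 4) : ℝ≥0∞ :=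
  if ‖x‖ ≤ K then C else cB * ENNReal.ofReal ((1 + ε) * ‖x‖ ^ (-2 : ℤ))

end WSP
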