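import Pool.Agent.Lib_MP_c175fd.Smooth
import Pool.Agent.Lib_MP_c175fd.WienerB

/-!
# Piece FRESH: a fresh path hits a large set of old paths

`z s = (x s, w s)`, `s ∈ S`, are the old marks (paths used up to time `t`), a fresh path `W` starts at `p`.
1. `hitR ρ t τ (z s) (p + W τ, shift τ W)` implies `hitR ρ t (τ + τ) (z s) (p, W)` (`Kset_split_right`).
2. By `IsWiener.map_stop_shift` at time `τ` (`W τ = stop τ W τ`):
   `μ {W | ∃ s ∈ S, hitR ρ t τ (z s) (p + W τ, shift τ W)} = ∫ H (p + W τ) dμ(W)` with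
   `H q = μ {W' | ∃ s ∈ S, hitR ρ t τ (z s) (q, W')}`.
3. `hsm` says that the law of `p + W τ` is at least `(c₅ / R ^ d) volume` on subsets of `D`, so
   `∫ H (p + W τ) dμ ≥ (c₅ / R ^ d) ∫_D H`.
4. With `N q W = #{s ∈ S | hitR ρ t τ (z s) (q, W)}` the Cauchy-Schwarz inequality gives
   `(∫_D ∫ N) ^ 2 ≤ (∫_D ∫ N ^ 2) (∫_D H)` (`N = N 1{N > 0}`).
5. `∫_D ∫ N ≥ ∑_{s fine} ∫_{closedBall (x s) R} μ {W | hitR ρ t τ (z s) (q, W)} dq ≥ m c₂` (substitute
   `q = x s + v`; `hitR ρ t τ (z s) (q, W)` is `q - x s ∈ Kset ρ t τ (w s) W`).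
So `∫_D H ≥ (m c₂) ^ 2 / (Y₀ R ^ d)`.
-/

open MeasureTheory ProbabilityTheory Filter Topology
open scoped ENNReal NNReal

namespace WSP

variable {d : ℕ}

/-- The integral over the starting point of the probability that a fresh path hits an old one. -/
noncomputable def fineval (μ : Measure (Path d)) (ρ : ℝ) (t τ : ℝ≥0) (R : ℕ) (w : Path d) : ℝ≥0∞ :=
  ∫⁻ v in Metric.closedBall (0 : E d) R, μ {W | v ∈ Kset ρ t τ w W}

open Classical in
theorem fresh_hit {μ : Measure (Path d)} (h : IsWiener μ) {ι : Type*} (S : Finset ι)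
    (z : ι → Mark d) {ρ : ℝ} {t τ : ℝ≥0} {R : ℕ} (hR : 0 < R) {D : Set (E d)}
    (hD : MeasurableSet D) {c₂ Y₀ c₅ : ℝ≥0} (hY₀ : 0 < Y₀) {p : E d}
    (hball : ∀ s ∈ S, Metric.closedBall (z s).1 (R : ℝ) ⊆ D)
    (hsm : ∀ A : Set (E d), MeasurableSet A → A ⊆ D →
      (c₅ : ℝ≥0∞) * volume A / (R : ℝ≥0∞) ^ d ≤ μ {W | p + W τ ∈ A})
    {m : ℕ} (hfine : m ≤ (S.filter fun s => (c₂ : ℝ≥0∞) ≤ fineval μ ρ t τ R (z s).2).card)
    (hY : ∫⁻ q in D, ∫⁻ W, ((S.filter fun s => hitR ρ t τ (z s) (q, W)).card : ℝ≥0∞) ^ 2 ∂μ ≤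
      (Y₀ : ℝ≥0∞) * (R : ℝ≥0∞) ^ d) :
    (c₅ : ℝ≥0∞) * ((m : ℝ≥0∞) * c₂) ^ 2 / ((Y₀ : ℝ≥0∞) * (R : ℝ≥0∞) ^ (2 * d)) ≤
      μ {W | ∃ s ∈ S, hitR ρ t (τ + τ) (z s) (p, W)} := by
  have := h.isProb
  have hRpos : (0 : ℝ≥0∞) < (R : ℝ≥0∞) := by exact_mod_cast hR
  have hR0 : (R : ℝ≥0∞) ^ d ≠ 0 := pow_ne_zero _ hRpos.ne'
  have hRt : (R : ℝ≥0∞) ^ d ≠ ∞ := ENNReal.pow_ne_top (ENNReal.natCast_ne_top R)
  have hY0 : (Y₀ : ℝ≥0∞) ≠ 0 := by exact_mod_cast hY₀.ne'
  have hYt : (Y₀ : ℝ≥0∞) ≠ ∞ := ENNReal.coe_ne_top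
  set A : ι → Set (Mark d) := fun s => {y | hitR ρ t τ (z s) y} with hA
  have hAm : ∀ s, MeasurableSet (A s) := by
    intro s
    have hm : Measurable (fun y : Mark d => ((z s, y) : Mark d × Mark d)) :=
      measurable_const.prodMk measurable_id
    exact hm (measurableSet_hitR ρ t τ)
  set lam : Measure (Mark d) := (volume.restrict D).prod μ with hlam
  set N : Mark d → ℝ≥0∞ := fun y => ((S.filter fun s => hitR ρ t τ (z s) y).card : ℝ≥0∞) with hN
  have hNs : ∀ y, N y = ∑ s ∈ S, (A s).indicator (fun _ => (1 : ℝ≥0∞)) y := by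
    intro y
    simp only [hN]
    rw [Finset.card_filter]
    push_cast
    refine Finset.sum_congr rfl fun s _ => ?_
    rw [Set.indicator_apply]
    exact if_congr Iff.rfl rfl rfl
  have hNm : Measurable N := by
    have e : N = fun y => ∑ s ∈ S, (A s).indicator (fun _ => (1 : ℝ≥0∞)) y := funext hNs
    rw [e]
    exact Finset.measurable_sum _ fun s _ => measurable_const.indicator (hAm s)
  set B : Set (Mark d) := {y | ∃ s ∈ S, hitR ρ t τ (z s) y} with hB
  have hBm : MeasurableSet B := by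
    have e : B = ⋃ s ∈ S, A s := by
      ext y
      simp only [hB, hA, Set.mem_iUnion, exists_prop]
      exact Iff.rfl
    rw [e]
    exact Finset.measurableSet_biUnion S fun s _ => hAm s
  have hNB : ∀ y, y ∉ B → N y = 0 := by
    intro y hy
    rw [hNs]
    refine Finset.sum_eq_zero fun s hs => ?_
    have hys : y ∉ A s := fun hc => hy ⟨s, hs, hc⟩
    rw [Set.indicator_of_notMem hys]
  -- first moment
  have hfv : ∀ s ∈ S, fineval μ ρ t τ R (z s).2 ≤ lam (A s) := by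
    intro s hs
    rw [hlam, Measure.prod_apply (hAm s)]
    set f : E d → ℝ≥0∞ := fun v => μ {W | v ∈ Kset ρ t τ (z s).2 W} with hf
    have e1 : ∀ q : E d, μ (Prod.mk q ⁻¹' A s) = f (q - (z s).1) := fun q => rfl
    refine le_trans (le_of_eq ?_) (lintegral_mono_set (hball s hs))
    unfold fineval
    rw [← lintegral_indicator Metric.isClosed_closedBall.measurableSet,
      ← lintegral_indicator Metric.isClosed_closedBall.measurableSet,
      ← lintegral_sub_right_eq_self _ (z s).1]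
    refine lintegral_congr fun q => ?_
    by_cases hq : q ∈ Metric.closedBall (z s).1 (R : ℝ)
    · have hq' : q - (z s).1 ∈ Metric.closedBall (0 : E d) (R : ℝ) := by
        rw [Metric.mem_closedBall, dist_eq_norm] at hq ⊢
        simpa using hq
      rw [Set.indicator_of_mem hq, Set.indicator_of_mem hq', e1]
    · have hq' : q - (z s).1 ∉ Metric.closedBall (0 : E d) (R : ℝ) := by
        intro hc
        apply hq
        rw [Metric.mem_closedBall, dist_eq_norm] at hc ⊢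
        simpa using hc
      rw [Set.indicator_of_notMem hq, Set.indicator_of_notMem hq']
  have hfirst : (m : ℝ≥0∞) * c₂ ≤ ∫⁻ y, N y ∂lam := by
    have e1 : ∫⁻ y, N y ∂lam = ∑ s ∈ S, lam (A s) := by
      rw [lintegral_congr hNs, lintegral_finsetSum _ fun s _ => measurable_const.indicator (hAm s)]
      refine Finset.sum_congr rfl fun s _ => ?_
      rw [lintegral_indicator_const (hAm s), one_mul]
    rw [e1]
    calc (m : ℝ≥0∞) * c₂
        ≤ ((S.filter fun s => (c₂ : ℝ≥0∞) ≤ fineval μ ρ t τ R (z s).2).card : ℝ≥0∞) * c₂ := by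
          gcongr
      _ = ∑ s ∈ S.filter fun s => (c₂ : ℝ≥0∞) ≤ fineval μ ρ t τ R (z s).2, (c₂ : ℝ≥0∞) := by
          rw [Finset.sum_const, nsmul_eq_mul]
      _ ≤ ∑ s ∈ S.filter fun s => (c₂ : ℝ≥0∞) ≤ fineval μ ρ t τ R (z s).2, lam (A s) := by
          refine Finset.sum_le_sum fun s hs => ?_
          rw [Finset.mem_filter] at hs
          exact hs.2.trans (hfv s hs.1)
      _ ≤ ∑ s ∈ S, lam (A s) := Finset.sum_le_sum_of_subset (Finset.filter_subset _ _)
  -- second moment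
  have hsecond : ∫⁻ y, N y ^ 2 ∂lam ≤ (Y₀ : ℝ≥0∞) * (R : ℝ≥0∞) ^ d := by
    rw [hlam, lintegral_prod _ (hNm.pow_const 2).aemeasurable]
    exact hY
  have hmain : ((m : ℝ≥0∞) * c₂) ^ 2 ≤ lam B * ((Y₀ : ℝ≥0∞) * (R : ℝ≥0∞) ^ d) := by
    by_cases hBt : lam B = ∞
    · rw [hBt, ENNReal.top_mul (mul_ne_zero hY0 hR0)]
      exact le_top
    · have hfin : IsFiniteMeasure (lam.restrict B) :=
        ⟨by rw [Measure.restrict_apply_univ]; exact lt_top_iff_ne_top.2 hBt⟩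
      have e1 : ∫⁻ y, N y ∂lam = ∫⁻ y in B, N y ∂lam := by
        rw [← lintegral_indicator hBm]
        refine lintegral_congr fun y => ?_
        by_cases hy : y ∈ B
        · rw [Set.indicator_of_mem hy]
        · rw [Set.indicator_of_notMem hy, hNB y hy]
      calc ((m : ℝ≥0∞) * c₂) ^ 2 ≤ (∫⁻ y, N y ∂lam) ^ 2 := pow_le_pow_left' hfirst 2
        _ = (∫⁻ y in B, N y ∂lam) ^ 2 := by rw [e1]
        _ ≤ (lam.restrict B) Set.univ * ∫⁻ y in B, N y ^ 2 ∂lam := gs_sq_lintegral_le hNm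
        _ ≤ lam B * ∫⁻ y, N y ^ 2 ∂lam := by
            rw [Measure.restrict_apply_univ]
            exact mul_le_mul_right (setLIntegral_le_lintegral _ _) _
        _ ≤ lam B * ((Y₀ : ℝ≥0∞) * (R : ℝ≥0∞) ^ d) := mul_le_mul_right hsecond _
  -- the law of the fresh path at time `τ`
  set H : E d → ℝ≥0∞ := fun q => μ (Prod.mk q ⁻¹' B) with hH
  have hHm : Measurable H := measurable_measure_prodMk_left hBm
  have hpτ : Measurable (fun W : Path d => p + W τ) := measurable_const.add (measurable_eval τ)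
  have hlaw : ((c₅ : ℝ≥0∞) / (R : ℝ≥0∞) ^ d) • (volume.restrict D) ≤
      μ.map (fun W : Path d => p + W τ) := by
    refine Measure.le_iff.2 fun C hC => ?_
    rw [Measure.smul_apply, Measure.restrict_apply hC, smul_eq_mul, Measure.map_apply hpτ hC]
    have e1 := hsm (C ∩ D) (hC.inter hD) Set.inter_subset_right
    have e2 : (c₅ : ℝ≥0∞) / (R : ℝ≥0∞) ^ d * volume (C ∩ D) =
        (c₅ : ℝ≥0∞) * volume (C ∩ D) / (R : ℝ≥0∞) ^ d := by
      rw [div_eq_mul_inv, div_eq_mul_inv, mul_right_comm]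
    rw [e2]
    exact e1.trans (measure_mono fun W hW => hW.1)
  have hstep : (c₅ : ℝ≥0∞) / (R : ℝ≥0∞) ^ d * lam B ≤ ∫⁻ W, H (p + W τ) ∂μ := by
    have e1 : lam B = ∫⁻ q in D, H q := by rw [hlam, Measure.prod_apply hBm]
    rw [e1, ← lintegral_map hHm hpτ]
    calc (c₅ : ℝ≥0∞) / (R : ℝ≥0∞) ^ d * ∫⁻ q in D, H q
        = ∫⁻ q, H q ∂(((c₅ : ℝ≥0∞) / (R : ℝ≥0∞) ^ d) • (volume.restrict D)) := by
          rw [lintegral_smul_measure, smul_eq_mul]
      _ ≤ ∫⁻ q, H q ∂(μ.map (fun W : Path d => p + W τ)) := lintegral_mono' hlaw le_rfl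
  have hmarkov : ∫⁻ W, H (p + W τ) ∂μ = μ {W | (p + W τ, shift τ W) ∈ B} := by
    set F : Path d → Path d → ℝ≥0∞ := fun w w' =>
      B.indicator (fun _ => (1 : ℝ≥0∞)) (p + w τ, w') with hF
    have hFm : Measurable (Function.uncurry F) := by
      have e : Function.uncurry F = fun x : Path d × Path d =>
          B.indicator (fun _ => (1 : ℝ≥0∞)) (p + x.1 τ, x.2) := by
        funext x
        rfl
      rw [e]
      have hm : Measurable (fun x : Path d × Path d => ((p + x.1 τ, x.2) : Mark d)) :=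
        (hpτ.comp measurable_fst).prodMk measurable_snd
      exact (measurable_const.indicator hBm).comp hm
    have e1 := h.lintegral_stop_shift τ hFm
    have e2 : ∀ w : Path d, (stop τ w) τ = w τ := fun w => by rw [stop_apply, min_self]
    have hm2 : Measurable (fun w : Path d => ((p + w τ, shift τ w) : Mark d)) :=
      hpτ.prodMk (measurable_shift τ)
    have e3 : ∫⁻ w, F (stop τ w) (shift τ w) ∂μ = μ {W | (p + W τ, shift τ W) ∈ B} := by
      set C : Set (Path d) := (fun w : Path d => ((p + w τ, shift τ w) : Mark d)) ⁻¹' B with hC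
      have hCm : MeasurableSet C := hm2 hBm
      have e5 : ∫⁻ w, C.indicator (fun _ => (1 : ℝ≥0∞)) w ∂μ = μ C := by
        rw [lintegral_indicator_const hCm, one_mul]
      refine Eq.trans ?_ e5
      refine lintegral_congr fun w => ?_
      simp only [hF, e2]
      rfl
    have e4 : ∀ w : Path d, ∫⁻ w', F (stop τ w) w' ∂μ = H (p + w τ) := by
      intro w
      have hCm : MeasurableSet (Prod.mk (p + w τ) ⁻¹' B : Set (Path d)) :=
        measurable_prodMk_left hBm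
      have e5 : ∫⁻ w', (Prod.mk (p + w τ) ⁻¹' B : Set (Path d)).indicator
          (fun _ => (1 : ℝ≥0∞)) w' ∂μ = μ (Prod.mk (p + w τ) ⁻¹' B) := by
        rw [lintegral_indicator_const hCm, one_mul]
      refine Eq.trans ?_ e5
      refine lintegral_congr fun w' => ?_
      simp only [hF, e2]
      rfl
    rw [← e3, e1]
    exact (lintegral_congr e4).symm
  have hsub : μ {W | (p + W τ, shift τ W) ∈ B} ≤
      μ {W | ∃ s ∈ S, hitR ρ t (τ + τ) (z s) (p, W)} := by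
    refine measure_mono ?_
    rintro W ⟨s, hs, hh⟩
    refine ⟨s, hs, ?_⟩
    unfold hitR at hh ⊢
    rw [Kset_split_right]
    right
    change (p - (z s).1) + W τ ∈ Kset ρ t τ (z s).2 (shift τ W)
    have e1 : (p - (z s).1) + W τ = (p + W τ) - (z s).1 := by abel
    rw [e1]
    exact hh
  refine le_trans ?_ ((hstep.trans (le_of_eq hmarkov)).trans hsub)
  have e1 : ((m : ℝ≥0∞) * c₂) ^ 2 / ((Y₀ : ℝ≥0∞) * (R : ℝ≥0∞) ^ d) ≤ lam B :=
    ENNReal.div_le_of_le_mul hmain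
  have e2 : (c₅ : ℝ≥0∞) * ((m : ℝ≥0∞) * c₂) ^ 2 / ((Y₀ : ℝ≥0∞) * (R : ℝ≥0∞) ^ (2 * d)) =
      (c₅ : ℝ≥0∞) / (R : ℝ≥0∞) ^ d *
        (((m : ℝ≥0∞) * c₂) ^ 2 / ((Y₀ : ℝ≥0∞) * (R : ℝ≥0∞) ^ d)) := by
    have e3 : (R : ℝ≥0∞) ^ (2 * d) = (R : ℝ≥0∞) ^ d * (R : ℝ≥0∞) ^ d := by
      rw [two_mul, pow_add]
    rw [e3, div_eq_mul_inv, div_eq_mul_inv, div_eq_mul_inv, ← mul_assoc (Y₀ : ℝ≥0∞),
      ENNReal.mul_inv (Or.inr hRt) (Or.inr hR0)]
    ring
  rw [e2]
  exact mul_le_mul_right e1 _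

end WSP
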