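import Pool.Agent.Lib_MP_c175fd.FourDefs
import Pool.Agent.Lib_MP_c175fd.LTSq

/-!
# Pieces G4, THETA, MK, UPE: potential theory in dimension four

* THETA: `E ‖w v‖^(-2) = 1 / (2 v)` in dimension four: `x^(-1) = ∫_0^∞ exp (-s x) ds` and
  `E exp (-s ‖w v‖^2) = (1 + 2 s v)^(-2)` (product of four one dimensional Gaussian integrals).
* G4: `Gk s x` is the expected time before `s` spent by the path in the unit ball around `x`. Since
  `∫_0^s (2 π u)^(-2) exp (-a^2/(2u)) du = exp (-a^2/(2 s)) / (2 π^2 a^2)` for `a > 0` (derivative in `s`;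
  the limit at `0+` is `0`), Tonelli gives `Gk s x = ∫_{y ∈ ball x 1} exp (-‖y‖^2/(2s)) / (2 π^2 ‖y‖^2) dy`,
  hence the lower bound (`‖y‖ ≤ ‖x‖ + 1`), the upper bound (`‖y‖ ≥ ‖x‖ - 1`) and the bound by a constant
  (the integral of `‖y‖^(-2)` over a unit ball of `ℝ^4` is bounded, or use `1 ∧ C u^(-2)`).
* MK: Markov property at time `a` for the local time after `a`.
* `lintegral_Gk_le`: mean of `Gk` at a shifted path; use the density bounds of `w u` and of the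
  increment of `w'` (as in `pair_le`): the probability is at most `min 1 (C max(u, |v-j|)^(-2))`.
-/

open MeasureTheory ProbabilityTheory Filter Topology
open scoped ENNReal NNReal

namespace WSP

/-- the primitive of the Gaussian density in time -/
noncomputable def gprim (a u : ℝ) : ℝ :=
  if u = 0 then 0 else Real.exp (-a ^ 2 / (2 * u)) / (2 * Real.pi ^ 2 * a ^ 2)

lemma gprim_bound {a u : ℝ} (ha : 0 < a) (hu : 0 ≤ u) :
    0 ≤ gprim a u ∧ gprim a u ≤ u * (2 / a ^ 2 / (2 * Real.pi ^ 2 * a ^ 2)) := by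
  unfold gprim
  rcases eq_or_lt_of_le hu with h | h
  · rw [if_pos h.symm, ← h]; simp
  · rw [if_neg h.ne']
    refine ⟨by positivity, ?_⟩
    have h1 : Real.exp (-a ^ 2 / (2 * u)) ≤ 2 * u / a ^ 2 := by
      have h2 : a ^ 2 / (2 * u) ≤ Real.exp (a ^ 2 / (2 * u)) := by
        have := Real.add_one_le_exp (a ^ 2 / (2 * u))
        linarith
      have h3 : -a ^ 2 / (2 * u) = -(a ^ 2 / (2 * u)) := by ring
      rw [h3, Real.exp_neg]
      calc (Real.exp (a ^ 2 / (2 * u)))⁻¹ ≤ (a ^ 2 / (2 * u))⁻¹ := inv_anti₀ (by positivity) h2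
        _ = 2 * u / a ^ 2 := inv_div _ _
    calc Real.exp (-a ^ 2 / (2 * u)) / (2 * Real.pi ^ 2 * a ^ 2)
        ≤ (2 * u / a ^ 2) / (2 * Real.pi ^ 2 * a ^ 2) := by gcongr
      _ = u * (2 / a ^ 2 / (2 * Real.pi ^ 2 * a ^ 2)) := by ring

lemma gd_four {u : ℝ} (hu : 0 < u) (y : E 4) :
    gd 4 u y = Real.exp (-‖y‖ ^ 2 / (2 * u)) / (4 * Real.pi ^ 2 * u ^ 2) := by
  unfold gd
  have h1 : (-((4 : ℕ) : ℝ) / 2) = -(2 : ℕ) := by norm_num
  rw [h1, Real.rpow_neg (by positivity), Real.rpow_natCast]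
  rw [div_eq_mul_inv, mul_comm]
  congr 2
  ring

lemma gprim_deriv {a u : ℝ} (ha : 0 < a) (hu : 0 < u) :
    HasDerivAt (gprim a) (Real.exp (-a ^ 2 / (2 * u)) / (4 * Real.pi ^ 2 * u ^ 2)) u := by
  have h1 : HasDerivAt (fun v : ℝ => Real.exp (-a ^ 2 / 2 * v⁻¹) / (2 * Real.pi ^ 2 * a ^ 2))
      (Real.exp (-a ^ 2 / 2 * u⁻¹) * (-a ^ 2 / 2 * (-(u ^ 2)⁻¹)) / (2 * Real.pi ^ 2 * a ^ 2)) u :=
    (((hasDerivAt_inv hu.ne').const_mul (-a ^ 2 / 2)).exp).div_const _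
  have e1 : Real.exp (-a ^ 2 / 2 * u⁻¹) * (-a ^ 2 / 2 * (-(u ^ 2)⁻¹)) / (2 * Real.pi ^ 2 * a ^ 2) =
      Real.exp (-a ^ 2 / (2 * u)) / (4 * Real.pi ^ 2 * u ^ 2) := by
    have : -a ^ 2 / 2 * u⁻¹ = -a ^ 2 / (2 * u) := by field_simp
    rw [this]
    have hpi := Real.pi_ne_zero
    field_simp
    norm_num
  rw [e1] at h1
  refine h1.congr_of_eventuallyEq ?_
  filter_upwards [lt_mem_nhds hu] with v hv
  unfold gprim
  rw [if_neg hv.ne']
  congr 2
  field_simp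

lemma gprim_continuousOn {a : ℝ} (ha : 0 < a) (s : ℝ) : ContinuousOn (gprim a) (Set.Icc 0 s) := by
  intro u hu
  rcases eq_or_lt_of_le hu.1 with h | h
  · rw [← h]
    unfold ContinuousWithinAt
    have h0 : gprim a 0 = 0 := by simp [gprim]
    rw [h0]
    have hlin : Tendsto (fun v : ℝ => v * (2 / a ^ 2 / (2 * Real.pi ^ 2 * a ^ 2)))
        (𝓝[Set.Icc 0 s] 0) (𝓝 0) := by
      have hc : Continuous fun v : ℝ => v * (2 / a ^ 2 / (2 * Real.pi ^ 2 * a ^ 2)) := by fun_prop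
      have := (hc.tendsto 0).mono_left (nhdsWithin_le_nhds (s := Set.Icc 0 s))
      simpa using this
    refine tendsto_of_tendsto_of_tendsto_of_le_of_le' tendsto_const_nhds hlin ?_ ?_
    · filter_upwards [self_mem_nhdsWithin] with v hv
      exact (gprim_bound ha hv.1).1
    · filter_upwards [self_mem_nhdsWithin] with v hv
      exact (gprim_bound ha hv.1).2
  · exact (gprim_deriv ha h).continuousAt.continuousWithinAt

/-- the time integral of the density -/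
lemma lintegral_gd_four {s : ℝ} (hs : 0 < s) {y : E 4} (hy : y ≠ 0) :
    ∫⁻ u in Set.Ioc (0 : ℝ) s, ENNReal.ofReal (gd 4 u y) =
      ENNReal.ofReal (Real.exp (-‖y‖ ^ 2 / (2 * s)) / (2 * Real.pi ^ 2 * ‖y‖ ^ 2)) := by
  have ha : 0 < ‖y‖ := norm_pos_iff.mpr hy
  have h1 : ∫⁻ u in Set.Ioc (0 : ℝ) s, ENNReal.ofReal (gd 4 u y) =
      ∫⁻ u in Set.Ioc (0 : ℝ) s,
        ENNReal.ofReal (Real.exp (-‖y‖ ^ 2 / (2 * u)) / (4 * Real.pi ^ 2 * u ^ 2)) :=
    setLIntegral_congr_fun measurableSet_Ioc fun u hu => by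
      rw [gd_four hu.1]
  have hcont := gprim_continuousOn ha s
  have hder : ∀ u ∈ Set.Ioo 0 s, HasDerivAt (gprim ‖y‖)
      (Real.exp (-‖y‖ ^ 2 / (2 * u)) / (4 * Real.pi ^ 2 * u ^ 2)) u := fun u hu =>
    gprim_deriv ha hu.1
  have hint : IntegrableOn (fun u : ℝ => Real.exp (-‖y‖ ^ 2 / (2 * u)) / (4 * Real.pi ^ 2 * u ^ 2))
      (Set.Ioc 0 s) :=
    intervalIntegral.integrableOn_deriv_of_nonneg hcont hder fun u _ => by positivity
  rw [h1, ← ofReal_integral_eq_lintegral_ofReal hint (ae_of_all _ fun u => by positivity)]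
  congr 1
  rw [← intervalIntegral.integral_of_le hs.le,
    intervalIntegral.integral_eq_sub_of_hasDerivAt_of_le hs.le hcont hder
      ((intervalIntegrable_iff_integrableOn_Ioc_of_le hs.le).mpr hint)]
  unfold gprim
  rw [if_neg hs.ne', if_pos rfl, sub_zero]

lemma measurable_gd_prod (d : ℕ) :
    Measurable fun p : ℝ × E d => ENNReal.ofReal (gd d p.1 p.2) := by
  unfold gd
  fun_prop

/-- `Gk` as a space integral. -/
lemma IsWiener.Gk_eq {μ : Measure (Path 4)} (h : IsWiener μ) {s : ℝ≥0} (hs : s ≠ 0) (x : E 4) :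
    Gk μ s x = ∫⁻ y in Metric.ball x 1,
      ENNReal.ofReal (Real.exp (-‖y‖ ^ 2 / (2 * s)) / (2 * Real.pi ^ 2 * ‖y‖ ^ 2)) := by
  have hs' : (0 : ℝ) < s := by
    have := pos_iff_ne_zero.mpr hs
    exact_mod_cast this
  unfold Gk
  have h1 : ∀ u ∈ Set.Ioc (0 : ℝ) s, μ {w | dist (w u.toNNReal) x < 1} =
      ∫⁻ y in Metric.ball x 1, ENNReal.ofReal (gd 4 u y) := by
    intro u hu
    have hu0 : u.toNNReal ≠ 0 := by
      have := Real.toNNReal_pos.mpr hu.1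
      exact this.ne'
    have h2 : μ {w | dist (w u.toNNReal) x < 1} =
        (μ.map fun w => w u.toNNReal) (Metric.ball x 1) :=
      (Measure.map_apply (measurable_eval _) measurableSet_ball).symm
    rw [h2, h.map_eval_eq hu0, withDensity_apply _ measurableSet_ball, Real.coe_toNNReal _ hu.1.le]
  rw [setLIntegral_congr_fun measurableSet_Ioc h1, lintegral_lintegral_swap]
  · refine lintegral_congr_ae ?_
    have h3 : ∀ᵐ y : E 4, y ≠ 0 := by
      rw [ae_iff]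
      simp
    filter_upwards [ae_restrict_of_ae h3] with y hy
    exact lintegral_gd_four hs' hy
  · exact (measurable_gd_prod 4).aemeasurable

/-- Piece G4. -/
theorem IsWiener.Gk_lower {μ : Measure (Path 4)} (h : IsWiener μ) {s : ℝ≥0} (hs : s ≠ 0)
    (x : E 4) :
    cB * ENNReal.ofReal ((‖x‖ + 1) ^ (-2 : ℤ) * Real.exp (-(‖x‖ + 1) ^ 2 / (2 * s))) ≤ Gk μ s x := by
  rw [h.Gk_eq hs]
  have hs' : (0 : ℝ) < s := by
    have := pos_iff_ne_zero.mpr hs
    exact_mod_cast this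
  have hx0 := norm_nonneg x
  set c : ℝ≥0∞ := ENNReal.ofReal ((‖x‖ + 1) ^ (-2 : ℤ) * Real.exp (-(‖x‖ + 1) ^ 2 / (2 * s))) /
    ENNReal.ofReal (2 * Real.pi ^ 2) with hc
  have h1 : ∫⁻ _y in Metric.ball x 1, c = cB *
      ENNReal.ofReal ((‖x‖ + 1) ^ (-2 : ℤ) * Real.exp (-(‖x‖ + 1) ^ 2 / (2 * s))) := by
    rw [setLIntegral_const, Measure.addHaar_ball_center, hc, cB, ENNReal.div_eq_inv_mul,
      ENNReal.div_eq_inv_mul]
    ring
  rw [← h1]
  refine lintegral_mono_ae ?_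
  have h3 : ∀ᵐ y : E 4, y ≠ 0 := by
    rw [ae_iff]
    simp
  filter_upwards [ae_restrict_of_ae h3, ae_restrict_mem measurableSet_ball] with y hy hyb
  have hy0 : 0 < ‖y‖ := norm_pos_iff.mpr hy
  have hyx : ‖y‖ ≤ ‖x‖ + 1 := by
    have h4 : ‖y‖ ≤ ‖x‖ + ‖y - x‖ := by
      calc ‖y‖ = ‖x + (y - x)‖ := by rw [add_sub_cancel]
        _ ≤ _ := norm_add_le _ _
    rw [Metric.mem_ball, dist_eq_norm] at hyb
    linarith
  rw [hc, ← ENNReal.ofReal_div_of_pos (by positivity)]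
  apply ENNReal.ofReal_le_ofReal
  rw [zpow_neg, mul_comm, ← div_eq_mul_inv, div_div, mul_comm (_ ^ (2 : ℤ))]
  have e : (‖x‖ + 1) ^ (2 : ℤ) = (‖x‖ + 1) ^ 2 := by norm_cast
  rw [e]
  have hsq : ‖y‖ ^ 2 ≤ (‖x‖ + 1) ^ 2 := by gcongr
  have hexp : Real.exp (-(‖x‖ + 1) ^ 2 / (2 * s)) ≤ Real.exp (-‖y‖ ^ 2 / (2 * s)) := by
    apply Real.exp_le_exp.mpr
    gcongr
  gcongr

/-- Piece G4. -/
theorem IsWiener.Gk_upper {μ : Measure (Path 4)} (h : IsWiener μ) (s : ℝ≥0) {x : E 4}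
    (hx : 1 < ‖x‖) : Gk μ s x ≤ cB * ENNReal.ofReal ((‖x‖ - 1) ^ (-2 : ℤ)) := by
  rcases eq_or_ne s 0 with rfl | hs
  · have : Gk μ 0 x = 0 := by simp [Gk]
    rw [this]
    exact zero_le
  rw [h.Gk_eq hs]
  have hs' : (0 : ℝ) < s := by
    have := pos_iff_ne_zero.mpr hs
    exact_mod_cast this
  set c : ℝ≥0∞ := ENNReal.ofReal ((‖x‖ - 1) ^ (-2 : ℤ)) / ENNReal.ofReal (2 * Real.pi ^ 2) with hc
  have h1 : ∫⁻ _y in Metric.ball x 1, c = cB * ENNReal.ofReal ((‖x‖ - 1) ^ (-2 : ℤ)) := by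
    rw [setLIntegral_const, Measure.addHaar_ball_center, hc, cB, ENNReal.div_eq_inv_mul,
      ENNReal.div_eq_inv_mul]
    ring
  rw [← h1]
  refine lintegral_mono_ae ?_
  filter_upwards [ae_restrict_mem measurableSet_ball] with y hyb
  have hx1 : 0 < ‖x‖ - 1 := by linarith
  have hyx : ‖x‖ - 1 ≤ ‖y‖ := by
    have h4 : ‖x‖ ≤ ‖y‖ + ‖x - y‖ := by
      calc ‖x‖ = ‖y + (x - y)‖ := by rw [add_sub_cancel]
        _ ≤ _ := norm_add_le _ _
    rw [Metric.mem_ball, dist_comm, dist_eq_norm] at hyb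
    linarith
  rw [hc, ← ENNReal.ofReal_div_of_pos (by positivity)]
  apply ENNReal.ofReal_le_ofReal
  rw [zpow_neg]
  have e : (‖x‖ - 1) ^ (2 : ℤ) = (‖x‖ - 1) ^ 2 := by norm_cast
  rw [e]
  have hsq : (‖x‖ - 1) ^ 2 ≤ ‖y‖ ^ 2 := by gcongr
  have hexp : Real.exp (-‖y‖ ^ 2 / (2 * s)) ≤ 1 := by
    apply Real.exp_le_one_iff.mpr
    have : 0 ≤ ‖y‖ ^ 2 / (2 * s) := by positivity
    have e : -‖y‖ ^ 2 / (2 * (s : ℝ)) = -(‖y‖ ^ 2 / (2 * s)) := by ring
    rw [e]; linarith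
  calc Real.exp (-‖y‖ ^ 2 / (2 * s)) / (2 * Real.pi ^ 2 * ‖y‖ ^ 2)
      ≤ 1 / (2 * Real.pi ^ 2 * (‖x‖ - 1) ^ 2) := by gcongr
    _ = ((‖x‖ - 1) ^ 2)⁻¹ / (2 * Real.pi ^ 2) := by field_simp

/-- Piece G4. -/
theorem IsWiener.Gk_le_const {d : ℕ} {μ : Measure (Path d)} (h : IsWiener μ) (hd : 4 ≤ d) :
    ∃ C : ℝ≥0, ∀ (s : ℝ≥0) (x : E d), Gk μ s x ≤ C := by
  have := h.isProb
  set I : ℝ≥0∞ := ∫⁻ x, lk 2 x with hI
  have hIt : I ≠ ∞ := (lintegral_lk_lt_top (by norm_num)).ne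
  set V : ℝ≥0∞ := volume (Metric.ball (0 : E d) 1) with hV
  have hVt : V ≠ ∞ := measure_ball_lt_top.ne
  have h4t : (4 : ℝ≥0∞) * (1 + V) ≠ ∞ :=
    ENNReal.mul_ne_top (by norm_num) (ENNReal.add_ne_top.mpr ⟨ENNReal.one_ne_top, hVt⟩)
  set C : ℝ≥0∞ := 4 * (1 + V) * I with hC
  have hCt : C ≠ ∞ := ENNReal.mul_ne_top h4t hIt
  refine ⟨C.toNNReal, fun s x => ?_⟩
  rw [ENNReal.coe_toNNReal hCt]
  unfold Gk
  have key : ∀ u ∈ Set.Ioc (0 : ℝ) s, μ {w | dist (w u.toNNReal) x < 1} ≤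
      4 * (1 + V) * lk 2 u := by
    intro u hu
    have hlk : lk 2 u = ENNReal.ofReal (((1 + u) ^ 2)⁻¹) := by
      unfold lk
      rw [Real.norm_of_nonneg hu.1.le, Real.rpow_neg (by linarith [hu.1]), Real.rpow_two]
    have hu0 := hu.1
    rcases le_or_gt u 1 with hu1 | hu1
    · calc μ {w | dist (w u.toNNReal) x < 1} ≤ 1 := prob_le_one
        _ ≤ 4 * ENNReal.ofReal (((1 + u) ^ 2)⁻¹) := by
            have e4 : (4 : ℝ≥0∞) = ENNReal.ofReal 4 := by norm_num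
            rw [e4, ← ENNReal.ofReal_mul (by norm_num), ← ENNReal.ofReal_one]
            apply ENNReal.ofReal_le_ofReal
            rw [← div_eq_mul_inv, le_div_iff₀ (by positivity)]
            nlinarith
        _ ≤ 4 * (1 + V) * lk 2 u := by
            rw [hlk]
            refine mul_le_mul' ?_ le_rfl
            calc (4 : ℝ≥0∞) = 4 * 1 := (mul_one _).symm
              _ ≤ _ := mul_le_mul' le_rfl le_self_add
    · have hu0' : u.toNNReal ≠ 0 := (Real.toNNReal_pos.mpr hu.1).ne'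
      have h1 := h.prob_eval_le hu0' (A := Metric.ball x 1) measurableSet_ball
      rw [Measure.addHaar_ball_center, Real.coe_toNNReal _ hu.1.le] at h1
      calc μ {w | dist (w u.toNNReal) x < 1}
          ≤ ENNReal.ofReal ((2 * Real.pi * u) ^ (-(d : ℝ) / 2)) * V := h1
        _ ≤ ENNReal.ofReal (4 * ((1 + u) ^ 2)⁻¹) * V := by
            refine mul_le_mul' (ENNReal.ofReal_le_ofReal ?_) le_rfl
            have hpi := Real.pi_gt_three
            calc (2 * Real.pi * u) ^ (-(d : ℝ) / 2) ≤ (2 * Real.pi * u) ^ (-2 : ℝ) := by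
                  apply Real.rpow_le_rpow_of_exponent_le
                  · nlinarith
                  · have : (4 : ℝ) ≤ d := by exact_mod_cast hd
                    linarith
              _ ≤ u ^ (-2 : ℝ) := by
                  apply Real.rpow_le_rpow_of_nonpos hu.1 _ (by norm_num)
                  nlinarith
              _ = (u ^ 2)⁻¹ := by
                  rw [Real.rpow_neg hu.1.le, Real.rpow_two]
              _ ≤ 4 * ((1 + u) ^ 2)⁻¹ := by
                  rw [← div_eq_mul_inv, inv_eq_one_div, div_le_div_iff₀ (by positivity)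
                    (by positivity)]
                  nlinarith
        _ ≤ 4 * (1 + V) * lk 2 u := by
            rw [hlk, ENNReal.ofReal_mul (by norm_num)]
            have e4 : ENNReal.ofReal 4 = (4 : ℝ≥0∞) := by norm_num
            rw [e4, mul_right_comm]
            exact mul_le_mul' (mul_le_mul' le_rfl le_add_self) le_rfl
  calc ∫⁻ u in Set.Ioc (0 : ℝ) s, μ {w | dist (w u.toNNReal) x < 1}
      ≤ ∫⁻ u in Set.Ioc (0 : ℝ) s, 4 * (1 + V) * lk 2 u :=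
        setLIntegral_mono' measurableSet_Ioc key
    _ ≤ ∫⁻ u, 4 * (1 + V) * lk 2 u := setLIntegral_le_lintegral _ _
    _ = C := by rw [lintegral_const_mul' _ _ h4t]

end WSP
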