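import Pool.Agent.Lib_MP_c175fd.Win

/-!
# Piece GIANT: a giant component from the absence of splittings

`Relation.ReflTransGen (adjI J y r t)` is an equivalence relation (`adjI_symm`). Suppose that every class
misses at least `m` elements of `B`. If some class has at least `m` elements in `B`, it gives a splitting.
Otherwise take a union `S` of classes (intersected with `B`) with at least `m` elements and the number of
elements minimal (`B` itself has at least `m`): removing one class (less than `m` elements, nonempty)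
leaves less than `m` elements, so `S` has less than `2 m` elements and `B \ S` more than `m`.
-/

open MeasureTheory ProbabilityTheory Filter Topology
open scoped ENNReal NNReal

namespace WSP

variable {d : ℕ}

open Classical in
theorem giant_aux {ι : Type*} {B : Finset ι} {rel : ι → ι → Prop}
    (hrefl : ∀ b, rel b b) (hsymm : ∀ b b', rel b b' → rel b' b)
    (htrans : ∀ a b c, rel a b → rel b c → rel a c)
    {m : ℝ} (hm : 0 < m) (hB : 3 * m ≤ (B.card : ℝ))
    (hns : ¬ ∃ S ⊆ B, (∀ b ∈ S, ∀ b' ∈ B \ S, ¬ rel b b') ∧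
      m ≤ (S.card : ℝ) ∧ m ≤ ((B \ S).card : ℝ)) :
    ∃ b ∈ B, ((B.filter fun b' => ¬ rel b b').card : ℝ) < m := by
  by_contra hcon
  have hcon' : ∀ b ∈ B, m ≤ ((B.filter fun b' => ¬ rel b b').card : ℝ) := by
    intro b hb
    by_contra hh
    exact hcon ⟨b, hb, not_le.1 hh⟩
  let F : Finset (Finset ι) := B.powerset.filter fun S =>
    (∀ b ∈ S, ∀ b' ∈ B \ S, ¬ rel b b') ∧ m ≤ (S.card : ℝ)
  have hF : F.Nonempty := by
    refine ⟨B, Finset.mem_filter.2 ⟨Finset.mem_powerset.2 subset_rfl, ?_, by linarith⟩⟩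
    intro b _ b' hb'
    simp at hb'
  obtain ⟨S, hS, hmin⟩ := Finset.exists_min_image F Finset.card hF
  obtain ⟨hSB, hcl, hcard⟩ := Finset.mem_filter.1 hS
  rw [Finset.mem_powerset] at hSB
  have hSne : S.Nonempty := by
    rw [← Finset.card_pos]
    have : (0 : ℝ) < (S.card : ℝ) := lt_of_lt_of_le hm hcard
    exact_mod_cast this
  obtain ⟨b, hb⟩ := hSne
  have hbB := hSB hb
  set C : Finset ι := B.filter fun b' => rel b b' with hC
  have hCB : C ⊆ B := Finset.filter_subset _ _
  have hCS : C ⊆ S := by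
    intro x hx
    obtain ⟨hx1, hx2⟩ := Finset.mem_filter.1 hx
    by_contra hxS
    exact hcl b hb x (Finset.mem_sdiff.2 ⟨hx1, hxS⟩) hx2
  have hCcl : ∀ x ∈ C, ∀ y ∈ B \ C, ¬ rel x y := by
    intro x hx y hy hxy
    obtain ⟨hy1, hy2⟩ := Finset.mem_sdiff.1 hy
    exact hy2 (Finset.mem_filter.2 ⟨hy1, htrans b x y (Finset.mem_filter.1 hx).2 hxy⟩)
  have hBC : B \ C = B.filter fun b' => ¬ rel b b' := by
    rw [hC, Finset.filter_not]
  have hClt : (C.card : ℝ) < m := by
    by_contra hh
    refine hns ⟨C, hCB, hCcl, not_lt.1 hh, ?_⟩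
    rw [hBC]
    exact hcon' b hbB
  have hS'cl : ∀ x ∈ S \ C, ∀ y ∈ B \ (S \ C), ¬ rel x y := by
    intro x hx y hy hxy
    obtain ⟨hx1, hx2⟩ := Finset.mem_sdiff.1 hx
    obtain ⟨hy1, hy2⟩ := Finset.mem_sdiff.1 hy
    by_cases hyS : y ∈ S
    · have hyC : y ∈ C := by
        by_contra hyC
        exact hy2 (Finset.mem_sdiff.2 ⟨hyS, hyC⟩)
      have hby := (Finset.mem_filter.1 hyC).2
      exact hx2 (Finset.mem_filter.2 ⟨hSB hx1, htrans b y x hby (hsymm x y hxy)⟩)
    · exact hcl x hx1 y (Finset.mem_sdiff.2 ⟨hy1, hyS⟩) hxy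
  have hbC : b ∈ C := Finset.mem_filter.2 ⟨hbB, hrefl b⟩
  have hsum : (S \ C).card + C.card = S.card := Finset.card_sdiff_add_card_eq_card hCS
  have hCpos : 0 < C.card := Finset.card_pos.2 ⟨b, hbC⟩
  have hS'lt : ((S \ C).card : ℝ) < m := by
    by_contra hh
    have hmem : S \ C ∈ F := Finset.mem_filter.2
      ⟨Finset.mem_powerset.2 (Finset.sdiff_subset.trans hSB), hS'cl, not_lt.1 hh⟩
    have := hmin _ hmem
    omega
  have hsum' : ((S \ C).card : ℝ) + (C.card : ℝ) = (S.card : ℝ) := by exact_mod_cast hsum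
  have hsum2 : ((B \ S).card : ℝ) + (S.card : ℝ) = (B.card : ℝ) := by
    exact_mod_cast Finset.card_sdiff_add_card_eq_card hSB
  exact hns ⟨S, hSB, hcl, hcard, by linarith⟩

open Classical in
theorem exists_giant {ι : Type*} {J B : Finset ι} {y : ι → Mark d} {r : ℝ} {t : ℝ≥0}
    {m : ℝ} (hm : 0 < m) (hB : 3 * m ≤ (B.card : ℝ)) (hns : ¬ Split J B y r t m) :
    ∃ b ∈ B, ((B.filter fun b' =>
      ¬ Relation.ReflTransGen (adjI (J : Set ι) y r t) b b').card : ℝ) < m := by
  refine giant_aux (rel := fun b b' => Relation.ReflTransGen (adjI (J : Set ι) y r t) b b')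
    (fun b => Relation.ReflTransGen.refl) (fun b b' h => ?_) (fun a b c h1 h2 => h1.trans h2)
    hm hB hns
  induction h with
  | refl => exact Relation.ReflTransGen.refl
  | tail _ h2 ih => exact (Relation.ReflTransGen.single (adjI_symm h2)).trans ih

end WSP
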