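import Pool.Agent.Lib_MP_c175fd.CntDefs

/-!
# Piece GLUE
-/

open MeasureTheory ProbabilityTheory Filter Topology
open scoped ENNReal NNReal

namespace WSP

variable {Ω I Y : Type*}

/-- An embedding of the glued index type gives a pair of embeddings. -/
def unglue {I : Type*} {V V' : Type} (p : Σ s : Gluing V V', (Quotient s.1 ↪ I)) :
    (V ↪ I) × (V' ↪ I) :=
  (⟨fun v => p.2 (Quotient.mk p.1.1 (Sum.inl v)), fun v w h =>
      p.1.2.1 v w (Quotient.exact (p.2.injective h))⟩,
    ⟨fun v => p.2 (Quotient.mk p.1.1 (Sum.inr v)), fun v w h =>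
      p.1.2.2 v w (Quotient.exact (p.2.injective h))⟩)

theorem unglue_injective {I : Type*} {V V' : Type} :
    Function.Injective (unglue (I := I) (V := V) (V' := V')) := by
  rintro ⟨⟨s, hs⟩, c⟩ ⟨⟨s', hs'⟩, c'⟩ h
  have h1 : ∀ v : V, c (Quotient.mk s (Sum.inl v)) = c' (Quotient.mk s' (Sum.inl v)) := fun v =>
    DFunLike.congr_fun (congrArg Prod.fst h) v
  have h2 : ∀ v : V', c (Quotient.mk s (Sum.inr v)) = c' (Quotient.mk s' (Sum.inr v)) := fun v =>
    DFunLike.congr_fun (congrArg Prod.snd h) v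
  have h3 : ∀ x : V ⊕ V', c (Quotient.mk s x) = c' (Quotient.mk s' x) := by
    rintro (v | v)
    · exact h1 v
    · exact h2 v
  have h4 : s = s' := by
    ext x z
    constructor
    · intro hxz
      have e1 : Quotient.mk s x = Quotient.mk s z := Quotient.sound hxz
      have e2 : c' (Quotient.mk s' x) = c' (Quotient.mk s' z) := by rw [← h3, ← h3, e1]
      exact Quotient.exact (c'.injective e2)
    · intro hxz
      have e1 : Quotient.mk s' x = Quotient.mk s' z := Quotient.sound hxz
      have e2 : c (Quotient.mk s x) = c (Quotient.mk s z) := by rw [h3, h3, e1]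
      exact Quotient.exact (c.injective e2)
  subst h4
  have h5 : c = c' := by
    ext q
    induction q using Quotient.ind with
    | _ x => exact h3 x
  subst h5
  rfl

theorem unglue_surjective {I : Type*} {V V' : Type} :
    Function.Surjective (unglue (I := I) (V := V) (V' := V')) := by
  rintro ⟨a, b⟩
  let F : V ⊕ V' → I := Sum.elim a b
  let s : Setoid (V ⊕ V') := Setoid.ker F
  have hs : (∀ v w : V, s (Sum.inl v) (Sum.inl w) → v = w) ∧
      (∀ v w : V', s (Sum.inr v) (Sum.inr w) → v = w) :=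
    ⟨fun v w h => a.injective h, fun v w h => b.injective h⟩
  let c : Quotient s ↪ I := ⟨Setoid.kerLift F, Setoid.kerLift_injective F⟩
  refine ⟨⟨⟨s, hs⟩, c⟩, ?_⟩
  refine Prod.ext ?_ ?_
  · ext v
    rfl
  · ext v
    rfl

/-- Piece GLUE: product of two counts. For fixed `ω`, a pair `(a, b)` of embeddings determines the
setoid `ker (Sum.elim a b)` and an embedding of its quotient, and conversely. -/
theorem cnt_mul_cnt (pres : I → Set Ω) (y : I → Ω → Y) {V V' : Type} [Fintype V] [Fintype V']
    (A : Set (V → Y)) (A' : Set (V' → Y)) (ω : Ω) :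
    cnt pres y A ω * cnt pres y A' ω = ∑' s : Gluing V V', cnt pres y (glueSet s A A') ω := by
  classical
  unfold cnt
  rw [← ENNReal.tsum_mul_right]
  simp_rw [← ENNReal.tsum_mul_left]
  rw [← ENNReal.tsum_prod (f := fun (a : V ↪ I) (b : V' ↪ I) =>
      Set.indicator {ω | (∀ v, ω ∈ pres (a v)) ∧ (fun v => y (a v) ω) ∈ A}
        (fun _ => (1 : ℝ≥0∞)) ω *
      Set.indicator {ω | (∀ v, ω ∈ pres (b v)) ∧ (fun v => y (b v) ω) ∈ A'}
        (fun _ => (1 : ℝ≥0∞)) ω),
    ← ENNReal.tsum_sigma (f := fun (s : Gluing V V') (c : Quotient s.1 ↪ I) =>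
      Set.indicator {ω | (∀ v, ω ∈ pres (c v)) ∧ (fun v => y (c v) ω) ∈ glueSet s A A'}
        (fun _ => (1 : ℝ≥0∞)) ω),
    ← Equiv.tsum_eq (Equiv.ofBijective _ ⟨unglue_injective, unglue_surjective⟩)]
  refine tsum_congr fun p => ?_
  simp only [Equiv.ofBijective_apply]
  obtain ⟨s, c⟩ := p
  by_cases h : ω ∈ {ω | (∀ v, ω ∈ pres (c v)) ∧ (fun v => y (c v) ω) ∈ glueSet s A A'}
  · rw [Set.indicator_of_mem h, Set.indicator_of_mem, Set.indicator_of_mem, mul_one]
    · exact ⟨fun v => h.1 _, h.2.2⟩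
    · exact ⟨fun v => h.1 _, h.2.1⟩
  · rw [Set.indicator_of_notMem h]
    by_contra hne
    have h1 := left_ne_zero_of_mul hne
    have h2 := right_ne_zero_of_mul hne
    have h1' := Set.mem_of_indicator_ne_zero h1
    have h2' := Set.mem_of_indicator_ne_zero h2
    refine h ⟨?_, h1'.2, h2'.2⟩
    intro q
    induction q using Quotient.ind with
    | _ x =>
      rcases x with v | v
      · exact h1'.1 v
      · exact h2'.1 v

/-- Piece GLUE: the trivial gluing gives the product of the means. -/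
theorem pi_glueSet_bot [MeasurableSpace Y] (ν : Measure Y) [SigmaFinite ν] {V V' : Type}
    [Fintype V] [Fintype V'] {A : Set (V → Y)} {A' : Set (V' → Y)} (hA : MeasurableSet A)
    (hA' : MeasurableSet A') (s : Gluing V V')
    (hs : ∀ (v : V) (v' : V'), ¬ s.1 (Sum.inl v) (Sum.inr v')) :
    Measure.pi (fun _ : Quotient s.1 => ν) (glueSet s A A') =
      Measure.pi (fun _ : V => ν) A * Measure.pi (fun _ : V' => ν) A' := by
  have hbij : Function.Bijective (fun x : V ⊕ V' => Quotient.mk s.1 x) := by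
    refine ⟨?_, fun q => ?_⟩
    · rintro (v | v) (w | w) h
      · exact congrArg Sum.inl (s.2.1 v w (Quotient.exact h))
      · exact absurd (Quotient.exact h) (hs v w)
      · exact absurd (s.1.symm (Quotient.exact h)) (hs w v)
      · exact congrArg Sum.inr (s.2.2 v w (Quotient.exact h))
    · induction q using Quotient.ind with
      | _ x => exact ⟨x, rfl⟩
  let e : V ⊕ V' ≃ Quotient s.1 := Equiv.ofBijective _ hbij
  let S : Set (V ⊕ V' → Y) := {z | (fun v => z (Sum.inl v)) ∈ A ∧ (fun v => z (Sum.inr v)) ∈ A'}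
  have hS : MeasurableSet S := by
    refine MeasurableSet.inter ?_ ?_
    · exact hA.preimage (measurable_pi_lambda _ fun v => measurable_pi_apply _)
    · exact hA'.preimage (measurable_pi_lambda _ fun v => measurable_pi_apply _)
  have h1 := (measurePreserving_piCongrLeft (fun _ : V ⊕ V' => ν) e.symm).measure_preimage
    hS.nullMeasurableSet
  have h2 : (MeasurableEquiv.piCongrLeft (fun _ : V ⊕ V' => Y) e.symm) ⁻¹' S = glueSet s A A' := by
    ext z
    have h3 : ∀ x : V ⊕ V', (MeasurableEquiv.piCongrLeft (fun _ : V ⊕ V' => Y) e.symm) z x =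
        z (Quotient.mk s.1 x) := by
      intro x
      have h4 := MeasurableEquiv.piCongrLeft_apply_apply (β := fun _ : V ⊕ V' => Y) e.symm z (e x)
      rw [Equiv.symm_apply_apply] at h4
      exact h4
    have h5 : (MeasurableEquiv.piCongrLeft (fun _ : V ⊕ V' => Y) e.symm) z =
        fun x => z (Quotient.mk s.1 x) := funext h3
    rw [Set.mem_preimage, h5]
    rfl
  rw [h2] at h1
  rw [h1]
  have h6 := (measurePreserving_sumPiEquivProdPi (fun _ : V ⊕ V' => ν)).measure_preimage
    (hA.prod hA').nullMeasurableSet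
  have h7 : (MeasurableEquiv.sumPiEquivProdPi (fun _ : V ⊕ V' => Y)) ⁻¹' (A ×ˢ A') = S := by
    ext z
    rfl
  rw [h7] at h6
  rw [h6, Measure.prod_prod]

end WSP
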