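import Pool.Agent.Lib_MP_c175fd.Glue

/-!
# Piece GLUEF: weighted count of pairs of tuples

Same proof as `cnt_mul_cnt` (`unglue` is a bijection, and `glueOf a b` is the setoid of the pair).
-/

open MeasureTheory ProbabilityTheory Filter Topology
open scoped ENNReal NNReal

namespace WSP

variable {Ω I Y : Type*}

/-- The gluing of a pair of embeddings. -/
def glueOf {V V' : Type} (a : V ↪ I) (b : V' ↪ I) : Gluing V V' :=
  ⟨Setoid.ker (Sum.elim a b), fun _ _ h => a.injective h, fun _ _ h => b.injective h⟩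

@[simp] theorem glueOf_inl_inr {V V' : Type} (a : V ↪ I) (b : V' ↪ I) (v : V) (v' : V') :
    (glueOf a b).1 (Sum.inl v) (Sum.inr v') ↔ a v = b v' := Iff.rfl

open Classical in
/-- Indicator that the embedding `a` is admissible. -/
noncomputable def adm (pres : I → Set Ω) (y : I → Ω → Y) {V : Type*} (A : Set (V → Y)) (ω : Ω)
    (a : V ↪ I) : ℝ≥0∞ :=
  if (∀ v, ω ∈ pres (a v)) ∧ (fun v => y (a v) ω) ∈ A then 1 else 0

theorem cnt_eq_tsum_adm (pres : I → Set Ω) (y : I → Ω → Y) {V : Type*} (A : Set (V → Y)) (ω : Ω) :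
    cnt pres y A ω = ∑' a : V ↪ I, adm pres y A ω a := by
  classical
  unfold cnt
  refine tsum_congr fun a => ?_
  unfold adm
  rw [Set.indicator_apply]
  exact if_congr Iff.rfl rfl rfl

theorem glueOf_unglue {V V' : Type} (p : Σ s : Gluing V V', (Quotient s.1 ↪ I)) :
    glueOf (unglue p).1 (unglue p).2 = p.1 := by
  obtain ⟨s, c⟩ := p
  apply Subtype.ext
  ext x z
  have h : ∀ x : V ⊕ V', Sum.elim (unglue ⟨s, c⟩).1 (unglue ⟨s, c⟩).2 x = c (Quotient.mk s.1 x) := by
    rintro (v | v)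
    · rfl
    · rfl
  change Sum.elim (unglue ⟨s, c⟩).1 (unglue ⟨s, c⟩).2 x =
    Sum.elim (unglue ⟨s, c⟩).1 (unglue ⟨s, c⟩).2 z ↔ s.1 x z
  rw [h, h]
  constructor
  · intro hxz
    exact Quotient.exact (c.injective hxz)
  · intro hxz
    rw [Quotient.sound hxz]

theorem tsum_pairs (pres : I → Set Ω) (y : I → Ω → Y) {V V' : Type} [Fintype V] [Fintype V']
    (A : Set (V → Y)) (A' : Set (V' → Y)) (ω : Ω) (F : Gluing V V' → ℝ≥0∞) :
    ∑' (a : V ↪ I), ∑' (b : V' ↪ I), adm pres y A ω a * adm pres y A' ω b * F (glueOf a b) =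
      ∑' s : Gluing V V', F s * cnt pres y (glueSet s A A') ω := by
  classical
  have hR : ∑' s : Gluing V V', F s * cnt pres y (glueSet s A A') ω =
      ∑' p : (Σ s : Gluing V V', (Quotient s.1 ↪ I)),
        F p.1 * adm pres y (glueSet p.1 A A') ω p.2 := by
    rw [ENNReal.tsum_sigma (f := fun (s : Gluing V V') (c : Quotient s.1 ↪ I) =>
      F s * adm pres y (glueSet s A A') ω c)]
    refine tsum_congr fun s => ?_
    rw [cnt_eq_tsum_adm, ENNReal.tsum_mul_left]
  rw [hR, ← ENNReal.tsum_prod (f := fun (a : V ↪ I) (b : V' ↪ I) =>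
      adm pres y A ω a * adm pres y A' ω b * F (glueOf a b)),
    ← Equiv.tsum_eq (Equiv.ofBijective (unglue (I := I) (V := V) (V' := V'))
      ⟨unglue_injective, unglue_surjective⟩)]
  refine tsum_congr fun p => ?_
  change adm pres y A ω (unglue p).1 * adm pres y A' ω (unglue p).2 *
    F (glueOf (unglue p).1 (unglue p).2) = _
  rw [glueOf_unglue, mul_comm (F p.1)]
  congr 1
  obtain ⟨s, c⟩ := p
  unfold adm
  by_cases h : (∀ v, ω ∈ pres (c v)) ∧ (fun v => y (c v) ω) ∈ glueSet s A A'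
  · rw [if_pos h, if_pos, if_pos, mul_one]
    · exact ⟨fun v => h.1 _, h.2.2⟩
    · exact ⟨fun v => h.1 _, h.2.1⟩
  · rw [if_neg h]
    by_contra hne
    have h1 := left_ne_zero_of_mul hne
    have h2 := right_ne_zero_of_mul hne
    have h1' : (∀ v, ω ∈ pres ((unglue ⟨s, c⟩).1 v)) ∧
        (fun v => y ((unglue ⟨s, c⟩).1 v) ω) ∈ A := by
      by_contra hc
      exact h1 (if_neg hc)
    have h2' : (∀ v, ω ∈ pres ((unglue ⟨s, c⟩).2 v)) ∧
        (fun v => y ((unglue ⟨s, c⟩).2 v) ω) ∈ A' := by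
      by_contra hc
      exact h2 (if_neg hc)
    refine h ⟨?_, h1'.2, h2'.2⟩
    intro q
    induction q using Quotient.ind with
    | _ x =>
      rcases x with v | v
      · exact h1'.1 v
      · exact h2'.1 v

end WSP
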