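import Pool.Agent.Lib_MP_c175fd.CntDefs

/-!
# The glued graph

(Adapted from the proof of `lintegral_cnt_sq_le`.)
-/

open MeasureTheory ProbabilityTheory Filter Topology
open scoped ENNReal NNReal

namespace WSP

variable {Y : Type*}

/-- First embedding into the glued vertex set. -/
def glL {V V' : Type} (s : Gluing V V') : V ↪ Quotient s.1 :=
  ⟨fun v => Quotient.mk s.1 (Sum.inl v), fun v w h => s.2.1 v w (Quotient.exact h)⟩

/-- Second embedding into the glued vertex set. -/
def glR {V V' : Type} (s : Gluing V V') : V' ↪ Quotient s.1 :=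
  ⟨fun v => Quotient.mk s.1 (Sum.inr v), fun v w h => s.2.2 v w (Quotient.exact h)⟩

theorem gl_cases {V V' : Type} (s : Gluing V V') (x : Quotient s.1) :
    (∃ v, glL s v = x) ∨ ∃ v, glR s v = x := by
  obtain ⟨u, rfl⟩ := Quotient.exists_rep x
  rcases u with v | v
  · exact Or.inl ⟨v, rfl⟩
  · exact Or.inr ⟨v, rfl⟩

theorem glL_eq_glR {V V' : Type} (s : Gluing V V') {v : V} {v' : V'} :
    glL s v = glR s v' ↔ s.1 (Sum.inl v) (Sum.inr v') :=
  ⟨fun h => Quotient.exact h, fun h => Quotient.sound h⟩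

/-- The union of the images of the two graphs. -/
def glueGraph {V V' : Type} (G : SimpleGraph V) (G' : SimpleGraph V') (s : Gluing V V') :
    SimpleGraph (Quotient s.1) := G.map (glL s) ⊔ G'.map (glR s)

theorem glueGraph_connected {V V' : Type} {G : SimpleGraph V} {G' : SimpleGraph V'}
    (hG : G.Connected) (hG' : G'.Connected) (s : Gluing V V') {v : V} {v' : V'}
    (h : s.1 (Sum.inl v) (Sum.inr v')) : (glueGraph G G' s).Connected := by
  have h1 : ∀ a b : V, (glueGraph G G' s).Reachable (glL s a) (glL s b) := by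
    intro a b
    exact ((hG a b).map (SimpleGraph.Embedding.map (glL s) G).toHom).mono le_sup_left
  have h2 : ∀ a b : V', (glueGraph G G' s).Reachable (glR s a) (glR s b) := by
    intro a b
    exact ((hG' a b).map (SimpleGraph.Embedding.map (glR s) G').toHom).mono le_sup_right
  have h3 : glL s v = glR s v' := Quotient.sound h
  have h4 : ∀ (a : V) (b : V'), (glueGraph G G' s).Reachable (glL s a) (glR s b) := by
    intro a b
    have h5 := h1 a v
    rw [h3] at h5
    exact h5.trans (h2 v' b)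
  have : Nonempty (Quotient s.1) := ⟨glL s v⟩
  refine ⟨fun x y => ?_⟩
  rcases gl_cases s x with ⟨a, rfl⟩ | ⟨a, rfl⟩ <;> rcases gl_cases s y with ⟨b, rfl⟩ | ⟨b, rfl⟩
  · exact h1 a b
  · exact h4 a b
  · exact (h4 b a).symm
  · exact h2 a b

theorem measurableSet_glueSet [MeasurableSpace Y] {V V' : Type} (s : Gluing V V')
    {A : Set (V → Y)} {A' : Set (V' → Y)} (hA : MeasurableSet A) (hA' : MeasurableSet A') :
    MeasurableSet (glueSet s A A') := by
  have h1 : Measurable (fun (z : Quotient s.1 → Y) (v : V) => z (Quotient.mk s.1 (Sum.inl v))) :=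
    measurable_pi_lambda _ fun v => measurable_pi_apply _
  have h2 : Measurable (fun (z : Quotient s.1 → Y) (v : V') => z (Quotient.mk s.1 (Sum.inr v))) :=
    measurable_pi_lambda _ fun v => measurable_pi_apply _
  exact (h1 hA).inter (h2 hA')

theorem glueSet_subset {rel : Y → Y → Prop} {V V' : Type} {G : SimpleGraph V}
    {G' : SimpleGraph V'} {Q : Set Y} {v₀ : V} {A : Set (V → Y)} {A' : Set (V' → Y)}
    (hA : A ⊆ {z | z v₀ ∈ Q ∧ Sat G rel z}) (hA' : A' ⊆ {z | Sat G' rel z}) (s : Gluing V V') :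
    glueSet s A A' ⊆ {z | z (glL s v₀) ∈ Q ∧ Sat (glueGraph G G' s) rel z} := by
  rintro z ⟨hz1, hz2⟩
  have h3 := hA hz1
  have h4 := hA' hz2
  refine ⟨h3.1, fun x y hxy => ?_⟩
  rcases hxy with hxy | hxy
  · obtain ⟨a, b, hab, rfl, rfl⟩ := (SimpleGraph.map_adj _ _ _ _).1 hxy
    exact h3.2 a b hab
  · obtain ⟨a, b, hab, rfl, rfl⟩ := (SimpleGraph.map_adj _ _ _ _).1 hxy
    exact h4 a b hab

end WSP
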