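import Pool.Agent.Lib_MP_c175fd.LowC
import Pool.Agent.Lib_MP_c175fd.GFour
import Pool.Agent.Lib_MP_c175fd.MarkovK

/-!
# Pieces LOWC, GOODJ: lower bound of the Green functional of a Brownian path, dimension four

LOWC. `Hl ϖ s w = ∫_{(0,s]} (‖w v‖ + ϖ + 1)^(-2) exp (-(‖w v‖ + ϖ + 1)^2 / (2 s)) dv`. Claim: for
`ε ∈ (0, 1/2)` and large real `T`, with `ϖ = log T`, `s = T^(1-ε)`,
`μ {Hl ϖ s w < (1 - 3 ε) (log T) / 2} ≤ (log T)^(-4)`.
Proof: let `ψ ξ = max (min (ξ^(-2)) K - L^(-2)) 0` (value `K - L^(-2)` at `ξ ≤ 0`), `1 ≤ K`, `1 ≤ L` large: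
bounded by `K`, Lipschitz, zero for `ξ ≥ L`. By scaling and `inv_sq_mean`, monotone convergence:
`∫ Ys ψ 0 = ∫_1^4 E ψ ‖w v‖ dv → ∫_1^4 dv / (2 v) = (log 4) / 2` as `K, L → ∞`; fix `K, L` with mean
`≥ (1 - ε/8) (log 4) / 2`. For `v ∈ [4^i, 4^(i+1)]` with `2^i ≥ (ϖ + 1) C` and `4^(i+1) ≤ T^(1-2ε)` one has,
for all `x`, `(‖x‖ + ϖ + 1)^(-2) exp (-(‖x‖+ϖ+1)^2/(2s)) ≥ (1 - ε/8) 4^(-i) ψ (‖x‖ / 2^i)` for large `T`
(if `‖x‖ > L 2^i` the right side is `0`; otherwise the exponent is at most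
`(L + 1)^2 T^(1-2ε) / T^(1-ε) → 0`; and `(‖x‖ + ϖ + 1)^(-2) ≥ (1 - ε/16) min (‖x‖^(-2)) (K 4^(-i))` as
`ϖ + 1 ≤ 2^i / C`). So `Hl ≥ (1 - ε/8) ∑_{i₀ ≤ i < n₁} Ys ψ i` with
`i₀ = ⌈log_2 (C (ϖ + 1))⌉ = O(log log T)`, `n₁ = ⌊log_4 T^(1-2ε)⌋`, and `scale_lln` applies
(`n = n₁ - i₀ ≥ c log T`, so `C n^(-8) ≤ (log T)^(-4)`); the result is
`Hl ≥ (1 - ε/8) (n₁ - i₀) ((1 - ε/8) (log 4)/2 - ε') ≥ (1 - 3 ε) (log T)/2`.

GOODJ. Two sided version at an integer time `j` of the path, `s ≤ j`, `s ≤ n - j`: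
for all `y` with `‖y + w' j‖ ≤ ϖ`, `Phi s n w' y = ∫_{(0,n]} Gk s (y + w' v) dv` (`Phi_eq`) is at least the
integral over `v ∈ (j - s, j + s]`; `w' (j + v) = w' j + shift j w' v`, `w' (j - v) = w' j - rev j w' v`, and
`Gk_lower` gives `Phi ≥ cB (Hl ϖ s (shift j w') + Hl ϖ s (rev j w'))`; the laws of `shift j w'` and of
`rev j w'` up to time `s ≤ j` are Wiener (`map_shift`, `map_rev`).
-/

open MeasureTheory ProbabilityTheory Filter Topology
open scoped ENNReal NNReal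

namespace WSP

/-- the kernel of `Hl` is decreasing in the norm -/
theorem goodj_ker {s : ℝ} (hs : 0 ≤ s) {x y : ℝ} (hx : 0 ≤ x) (hxy : x ≤ y) :
    (y + 1) ^ (-2 : ℤ) * Real.exp (-(y + 1) ^ 2 / (2 * s)) ≤
      (x + 1) ^ (-2 : ℤ) * Real.exp (-(x + 1) ^ 2 / (2 * s)) := by
  have h1 : (y + 1) ^ (-2 : ℤ) ≤ (x + 1) ^ (-2 : ℤ) := by
    have e : ∀ a : ℝ, a ^ (-2 : ℤ) = (a ^ 2)⁻¹ := fun a => by
      rw [zpow_neg]
      norm_cast
    rw [e, e]
    exact inv_anti₀ (by positivity) (pow_le_pow_left₀ (by linarith) (by linarith) 2)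
  have h2 : Real.exp (-(y + 1) ^ 2 / (2 * s)) ≤ Real.exp (-(x + 1) ^ 2 / (2 * s)) := by
    apply Real.exp_le_exp.2
    refine div_le_div_of_nonneg_right ?_ (by linarith)
    nlinarith
  exact mul_le_mul h1 h2 (Real.exp_pos _).le (by positivity)

theorem goodj_point {μ : Measure (Path 4)} (h : IsWiener μ) {s : ℝ≥0} (hs : s ≠ 0) {ϖ : ℝ}
    {x z : E 4} (hx : ‖x‖ ≤ ‖z‖ + ϖ) :
    cB * ENNReal.ofReal ((‖z‖ + ϖ + 1) ^ (-2 : ℤ) * Real.exp (-(‖z‖ + ϖ + 1) ^ 2 / (2 * s))) ≤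
      Gk μ s x := by
  refine le_trans (mul_le_mul_right (ENNReal.ofReal_le_ofReal ?_) cB) (h.Gk_lower hs x)
  exact goodj_ker s.coe_nonneg (norm_nonneg x) hx

/-- Piece GOODJ: deterministic part. -/
theorem IsWiener.Phi_ge {μ : Measure (Path 4)} (h : IsWiener μ) {s n j : ℝ≥0} (hs : s ≠ 0)
    (hsj : s ≤ j) (hjn : j + s ≤ n) {ϖ : ℝ} (w' : Path 4) {y : E 4} (hy : ‖y + w' j‖ ≤ ϖ) :
    cB * (Hl ϖ s (shift j w') + Hl ϖ s (rev j w')) ≤ Phi μ s n w' y := by
  have hP := h.isProb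
  have hsj' : (s : ℝ) ≤ j := by exact_mod_cast hsj
  have hjn' : (j : ℝ) + s ≤ n := by exact_mod_cast hjn
  have hs0 : (0 : ℝ) ≤ s := s.coe_nonneg
  -- the future part
  have hA : cB * Hl ϖ s (shift j w') ≤
      ∫⁻ v in Set.Ioc (j : ℝ) (j + s), Gk μ s (y + w' v.toNNReal) := by
    have e : (fun u : ℝ => (j : ℝ) + u) ⁻¹' Set.Ioc (j : ℝ) (j + s) = Set.Ioc (0 : ℝ) s := by
      ext u
      simp only [Set.mem_preimage, Set.mem_Ioc]
      constructor
      · rintro ⟨h1, h2⟩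
        exact ⟨by linarith, by linarith⟩
      · rintro ⟨h1, h2⟩
        exact ⟨by linarith, by linarith⟩
    rw [← (measurePreserving_add_left (volume : Measure ℝ) (j : ℝ)).setLIntegral_comp_preimage_emb
      (measurableEmbedding_addLeft (j : ℝ)) _ (Set.Ioc (j : ℝ) (j + s)), e, Hl]
    refine (lintegral_const_mul_le _ _).trans ?_
    refine setLIntegral_mono' measurableSet_Ioc fun u hu => ?_
    refine goodj_point h hs ?_
    have e1 : ((j : ℝ) + u).toNNReal = j + u.toNNReal := by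
      rw [Real.toNNReal_add j.coe_nonneg hu.1.le, Real.toNNReal_coe]
    rw [e1, shift_apply]
    have e2 : y + w' (j + u.toNNReal) = (w' (j + u.toNNReal) - w' j) + (y + w' j) := by abel
    rw [e2]
    exact (norm_add_le _ _).trans (add_le_add le_rfl hy)
  have hB : cB * Hl ϖ s (rev j w') ≤
      ∫⁻ v in Set.Ioc ((j : ℝ) - s) j, Gk μ s (y + w' v.toNNReal) := by
    have e : (fun u : ℝ => (j : ℝ) - u) ⁻¹' Set.Ioc ((j : ℝ) - s) j = Set.Ico (0 : ℝ) s := by
      ext u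
      simp only [Set.mem_preimage, Set.mem_Ioc, Set.mem_Ico]
      constructor
      · rintro ⟨h1, h2⟩
        exact ⟨by linarith, by linarith⟩
      · rintro ⟨h1, h2⟩
        exact ⟨by linarith, by linarith⟩
    rw [← (Measure.measurePreserving_sub_left (volume : Measure ℝ) (j : ℝ)).setLIntegral_comp_preimage_emb
      (measurableEmbedding_subLeft (j : ℝ)) _ (Set.Ioc ((j : ℝ) - s) j), e,
      setLIntegral_congr Ico_ae_eq_Ioc, Hl]
    refine (lintegral_const_mul_le _ _).trans ?_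
    refine setLIntegral_mono' measurableSet_Ioc fun u hu => ?_
    refine goodj_point h hs ?_
    have hu' : u.toNNReal ≤ j := by
      rw [Real.toNNReal_le_iff_le_coe]
      exact hu.2.trans hsj'
    have e1 : ((j : ℝ) - u).toNNReal = j - u.toNNReal := by
      apply NNReal.coe_injective
      rw [NNReal.coe_sub hu', Real.coe_toNNReal _ hu.1.le,
        Real.coe_toNNReal _ (by linarith [hu.2])]
    rw [e1, rev_apply]
    have e2 : y + w' (j - u.toNNReal) = -(w' j - w' (j - u.toNNReal)) + (y + w' j) := by abel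
    rw [e2]
    refine (norm_add_le _ _).trans (add_le_add ?_ hy)
    rw [norm_neg]
  rw [Phi_eq, mul_add, add_comm]
  refine (add_le_add hB hA).trans ?_
  rw [← lintegral_union measurableSet_Ioc (Set.Ioc_disjoint_Ioc_of_le le_rfl),
    Set.Ioc_union_Ioc_eq_Ioc (by linarith) (by linarith)]
  exact lintegral_mono_set (Set.Ioc_subset_Ioc (by linarith) hjn')

theorem measurable_Hl {d : ℕ} (ϖ : ℝ) (s : ℝ≥0) : Measurable (Hl ϖ s : Path d → ℝ≥0∞) := by
  unfold Hl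
  have h0 : Measurable fun p : Path d × ℝ => ‖p.1 p.2.toNNReal‖ :=
    (measurable_eval_prod.comp (measurable_fst.prodMk measurable_snd.real_toNNReal)).norm
  have h1 : Measurable fun p : Path d × ℝ =>
      ENNReal.ofReal ((‖p.1 p.2.toNNReal‖ + ϖ + 1) ^ (-2 : ℤ) *
        Real.exp (-(‖p.1 p.2.toNNReal‖ + ϖ + 1) ^ 2 / (2 * s))) := by
    have h2 : Measurable fun p : Path d × ℝ => ‖p.1 p.2.toNNReal‖ + ϖ + 1 :=
      (h0.add_const ϖ).add_const 1
    refine ENNReal.measurable_ofReal.comp (Measurable.mul ?_ ?_)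
    · simp only [zpow_neg]
      exact (h2.pow_const 2).inv
    · exact Real.measurable_exp.comp (((h2.pow_const 2).neg).div_const _)
  exact Measurable.lintegral_prod_right' h1

/-- Piece GOODJ: the probability that the time `j` is bad. -/
theorem IsWiener.goodj {μ : Measure (Path 4)} (h : IsWiener μ) {ε : ℝ} (hε : 0 < ε)
    (hε' : ε < 1 / 2) :
    ∀ᶠ T : ℝ in atTop, ∀ j n : ℝ≥0, (T ^ (1 - ε)).toNNReal ≤ j → j + (T ^ (1 - ε)).toNNReal ≤ n →
      μ {w' | Hl (Real.log T) (T ^ (1 - ε)).toNNReal (shift j w') +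
          Hl (Real.log T) (T ^ (1 - ε)).toNNReal (rev j w') <
          ENNReal.ofReal ((1 - 3 * ε) * Real.log T)} ≤
        ENNReal.ofReal (2 * (Real.log T) ^ (-4 : ℤ)) := by
  filter_upwards [h.Hl_lower hε hε', eventually_ge_atTop 1] with T hT hT1 j n hj _
  set s : ℝ≥0 := (T ^ (1 - ε)).toNNReal with hs
  set c : ℝ≥0∞ := ENNReal.ofReal ((1 - 3 * ε) * (Real.log T / 2)) with hc
  have hmeas : MeasurableSet {w : Path 4 | Hl (Real.log T) s w < c} :=
    measurableSet_lt (measurable_Hl _ _) measurable_const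
  have hsub : {w' : Path 4 | Hl (Real.log T) s (shift j w') + Hl (Real.log T) s (rev j w') <
      ENNReal.ofReal ((1 - 3 * ε) * Real.log T)} ⊆
      (shift j) ⁻¹' {w | Hl (Real.log T) s w < c} ∪ (rev j) ⁻¹' {w | Hl (Real.log T) s w < c} := by
    intro w' hw'
    by_contra hcon
    rw [Set.mem_union, not_or] at hcon
    obtain ⟨h1, h2⟩ := hcon
    have h1' : c ≤ Hl (Real.log T) s (shift j w') := not_lt.1 h1
    have h2' : c ≤ Hl (Real.log T) s (rev j w') := not_lt.1 h2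
    have h3 : ENNReal.ofReal ((1 - 3 * ε) * Real.log T) ≤ c + c := by
      have e : (1 - 3 * ε) * Real.log T =
          (1 - 3 * ε) * (Real.log T / 2) + (1 - 3 * ε) * (Real.log T / 2) := by ring
      rw [e]
      exact ENNReal.ofReal_add_le
    exact absurd hw' (not_lt.2 (h3.trans (add_le_add h1' h2')))
  have hp1 : μ ((shift j) ⁻¹' {w | Hl (Real.log T) s w < c}) ≤
      ENNReal.ofReal ((Real.log T) ^ (-4 : ℤ)) := by
    rw [← Measure.map_apply (measurable_shift j) hmeas, h.map_shift j]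
    exact hT
  have hp2 : μ ((rev j) ⁻¹' {w | Hl (Real.log T) s w < c}) ≤
      ENNReal.ofReal ((Real.log T) ^ (-4 : ℤ)) := by
    rw [← Measure.map_apply (measurable_rev j) hmeas, h.map_rev j,
      Measure.map_apply (measurable_stop j) hmeas]
    refine le_trans (measure_mono ?_) hT
    intro w hw
    have hw' : Hl (Real.log T) s (stop j w) < c := hw
    rw [Hl_stop _ hj] at hw'
    exact hw'
  refine (measure_mono hsub).trans ((measure_union_le _ _).trans ((add_le_add hp1 hp2).trans ?_))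
  have hl0 : 0 ≤ (Real.log T) ^ (-4 : ℤ) := zpow_nonneg (Real.log_nonneg hT1) _
  rw [← ENNReal.ofReal_add hl0 hl0]
  exact ENNReal.ofReal_le_ofReal (by linarith)

end WSP
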