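import Pool.Agent.Lib_MP_c175fd.PathMeas

/-!
# Piece KBASE: elementary properties of `Kset` and `Vol`

`Kset ρ s t w w' = {z | ∃ u ≤ s, ∃ v ≤ t, dist (w u) (z + w' v) < ρ}` is a union of open balls
`ball (w u - w' v) ρ`. Measurability: by continuity of the paths (open condition) one may restrict
to `u = min q s`, `v = min q' t` with `q, q'` rational, a countable union of measurable sets.
-/

open MeasureTheory ProbabilityTheory Filter Topology
open scoped ENNReal NNReal Pointwise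

namespace WSP

variable {d : ℕ}

theorem mem_Kset {ρ : ℝ} {s t : ℝ≥0} {w w' : Path d} {z : E d} :
    z ∈ Kset ρ s t w w' ↔ ∃ u ≤ s, ∃ v ≤ t, dist (w u) (z + w' v) < ρ := Iff.rfl

theorem isOpen_Kset (ρ : ℝ) (s t : ℝ≥0) (w w' : Path d) : IsOpen (Kset ρ s t w w') := by
  have h : Kset ρ s t w w' =
      ⋃ (u : ℝ≥0) (_ : u ≤ s) (v : ℝ≥0) (_ : v ≤ t), {z : E d | dist (w u) (z + w' v) < ρ} := by
    ext z
    simp only [mem_Kset, Set.mem_iUnion, Set.mem_ofPred_eq, exists_prop]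
  rw [h]
  refine isOpen_iUnion fun u => isOpen_iUnion fun _ => isOpen_iUnion fun v => isOpen_iUnion fun _ => ?_
  exact isOpen_lt (by fun_prop) continuous_const

/-- The condition in `Kset` may be tested on a countable dense set of times. -/
theorem mem_Kset_iff_dense {ρ : ℝ} {s t : ℝ≥0} {w w' : Path d} {z : E d} :
    z ∈ Kset ρ s t w w' ↔ ∃ n : ℕ,
      dist (w (min (TopologicalSpace.denseSeq (ℝ≥0 × ℝ≥0) n).1 s))
        (z + w' (min (TopologicalSpace.denseSeq (ℝ≥0 × ℝ≥0) n).2 t)) < ρ := by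
  constructor
  · rintro ⟨u, hu, v, hv, h⟩
    have hopen : IsOpen {q : ℝ≥0 × ℝ≥0 | dist (w (min q.1 s)) (z + w' (min q.2 t)) < ρ} := by
      refine isOpen_lt ?_ continuous_const
      have h1 : Continuous fun q : ℝ≥0 × ℝ≥0 => w (min q.1 s) := w.cont.comp (by fun_prop)
      have h2 : Continuous fun q : ℝ≥0 × ℝ≥0 => w' (min q.2 t) := w'.cont.comp (by fun_prop)
      exact h1.dist (continuous_const.add h2)
    have hne : ({q : ℝ≥0 × ℝ≥0 | dist (w (min q.1 s)) (z + w' (min q.2 t)) < ρ}).Nonempty :=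
      ⟨(u, v), by simpa [min_eq_left hu, min_eq_left hv] using h⟩
    obtain ⟨n, hn⟩ := (TopologicalSpace.denseRange_denseSeq (ℝ≥0 × ℝ≥0)).exists_mem_open hopen hne
    exact ⟨n, hn⟩
  · rintro ⟨n, hn⟩
    exact ⟨_, min_le_right _ _, _, min_le_right _ _, hn⟩

theorem measurableSet_Kset_prod (ρ : ℝ) (s t : ℝ≥0) :
    MeasurableSet {p : E d × Path d × Path d | p.1 ∈ Kset ρ s t p.2.1 p.2.2} := by
  have h : {p : E d × Path d × Path d | p.1 ∈ Kset ρ s t p.2.1 p.2.2} = ⋃ n : ℕ,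
      {p : E d × Path d × Path d |
        dist (p.2.1 (min (TopologicalSpace.denseSeq (ℝ≥0 × ℝ≥0) n).1 s))
        (p.1 + p.2.2 (min (TopologicalSpace.denseSeq (ℝ≥0 × ℝ≥0) n).2 t)) < ρ} := by
    ext p
    simp only [Set.mem_iUnion, Set.mem_ofPred_eq]
    exact mem_Kset_iff_dense
  rw [h]
  refine MeasurableSet.iUnion fun n => ?_
  refine measurableSet_lt ?_ measurable_const
  have h1 : Measurable fun p : E d × Path d × Path d =>
      p.2.1 (min (TopologicalSpace.denseSeq (ℝ≥0 × ℝ≥0) n).1 s) :=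
    (measurable_eval _).comp (measurable_fst.comp measurable_snd)
  have h2 : Measurable fun p : E d × Path d × Path d =>
      p.2.2 (min (TopologicalSpace.denseSeq (ℝ≥0 × ℝ≥0) n).2 t) :=
    (measurable_eval _).comp (measurable_snd.comp measurable_snd)
  exact h1.dist (measurable_fst.add h2)

theorem measurable_Vol (ρ : ℝ) (s t : ℝ≥0) :
    Measurable (fun p : Path d × Path d => Vol ρ s t p.1 p.2) :=
  measurable_measure_prodMk_right (μ := (volume : Measure (E d)))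
    (measurableSet_Kset_prod (d := d) ρ s t)

theorem measurableSet_hitR (ρ : ℝ) (s t : ℝ≥0) :
    MeasurableSet {p : Mark d × Mark d | hitR ρ s t p.1 p.2} := by
  have hm : Measurable fun p : Mark d × Mark d => (p.2.1 - p.1.1, p.1.2, p.2.2) :=
    Measurable.prodMk (by fun_prop) (Measurable.prodMk (by fun_prop) (by fun_prop))
  exact hm (measurableSet_Kset_prod (d := d) ρ s t)

theorem Kset_mono {ρ ρ' : ℝ} {s s' t t' : ℝ≥0} (hρ : ρ ≤ ρ') (hs : s ≤ s') (ht : t ≤ t')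
    (w w' : Path d) : Kset ρ s t w w' ⊆ Kset ρ' s' t' w w' := by
  rintro z ⟨u, hu, v, hv, h⟩
  exact ⟨u, hu.trans hs, v, hv.trans ht, h.trans_le hρ⟩

theorem Vol_mono {ρ ρ' : ℝ} {s s' t t' : ℝ≥0} (hρ : ρ ≤ ρ') (hs : s ≤ s') (ht : t ≤ t')
    (w w' : Path d) : Vol ρ s t w w' ≤ Vol ρ' s' t' w w' :=
  measure_mono (Kset_mono hρ hs ht w w')

theorem mem_Kset_symm {ρ : ℝ} {s t : ℝ≥0} {w w' : Path d} {z : E d} :
    z ∈ Kset ρ s t w w' ↔ -z ∈ Kset ρ t s w' w := by
  have h : ∀ (w w' : Path d) (z : E d) (u v : ℝ≥0),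
      dist (w u) (z + w' v) = dist (w' v) (-z + w u) := by
    intro w w' z u v
    rw [dist_comm (w u), dist_eq_norm, dist_eq_norm]
    congr 1
    abel
  constructor
  · rintro ⟨u, hu, v, hv, h'⟩
    exact ⟨v, hv, u, hu, by rw [← h]; exact h'⟩
  · rintro ⟨v, hv, u, hu, h'⟩
    exact ⟨u, hu, v, hv, by rw [h]; exact h'⟩

theorem Vol_symm (ρ : ℝ) (s t : ℝ≥0) (w w' : Path d) : Vol ρ s t w w' = Vol ρ t s w' w := by
  have h : Kset ρ s t w w' = -Kset ρ t s w' w := by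
    ext z
    rw [Set.mem_neg]
    exact mem_Kset_symm
  unfold Vol
  rw [h, Measure.measure_neg]

theorem Kset_stop (ρ : ℝ) (s t : ℝ≥0) (w w' : Path d) :
    Kset ρ s t (stop s w) (stop t w') = Kset ρ s t w w' := by
  ext z
  constructor
  · rintro ⟨u, hu, v, hv, h⟩
    refine ⟨u, hu, v, hv, ?_⟩
    rwa [stop_apply, stop_apply, min_eq_left hu, min_eq_left hv] at h
  · rintro ⟨u, hu, v, hv, h⟩
    refine ⟨u, hu, v, hv, ?_⟩
    rwa [stop_apply, stop_apply, min_eq_left hu, min_eq_left hv]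

theorem Vol_stop (ρ : ℝ) (s t : ℝ≥0) (w w' : Path d) :
    Vol ρ s t (stop s w) (stop t w') = Vol ρ s t w w' := by
  unfold Vol
  rw [Kset_stop]

/-- A displacement at which two paths meet is not larger than the sum of the ranges. -/
theorem enorm_le_of_mem_Kset {ρ : ℝ≥0} {s t : ℝ≥0} {w w' : Path d} {z : E d}
    (h : z ∈ Kset (ρ : ℝ) s t w w') : ‖z‖ₑ ≤ (ρ : ℝ≥0∞) + rg s w + rg t w' := by
  obtain ⟨u, hu, v, hv, h⟩ := h
  have h1 : z = ((z + w' v) - w u) + w u - w' v := by abel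
  have h2 : ‖(z + w' v) - w u‖ₑ ≤ (ρ : ℝ≥0∞) := by
    have h3 : ‖(z + w' v) - w u‖₊ ≤ ρ := by
      rw [← NNReal.coe_le_coe, coe_nnnorm, ← dist_eq_norm, dist_comm]
      exact h.le
    exact ENNReal.coe_le_coe.mpr h3
  calc ‖z‖ₑ = ‖((z + w' v) - w u) + w u - w' v‖ₑ := by rw [← h1]
    _ ≤ ‖((z + w' v) - w u) + w u‖ₑ + ‖w' v‖ₑ := enorm_sub_le
    _ ≤ (‖(z + w' v) - w u‖ₑ + ‖w u‖ₑ) + ‖w' v‖ₑ := by
        gcongr
        exact enorm_add_le _ _
    _ ≤ (ρ : ℝ≥0∞) + rg s w + rg t w' :=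
        add_le_add (add_le_add h2 (enorm_le_rg hu w)) (enorm_le_rg hv w')

/-- Translation of the first mark by the shift: the relation `hitR` only depends on the difference
of the starting points. -/
theorem hitR_symm {ρ : ℝ} {s t : ℝ≥0} {y y' : Mark d} : hitR ρ s t y y' ↔ hitR ρ t s y' y := by
  unfold hitR
  rw [mem_Kset_symm, neg_sub]

end WSP
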