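import Mathlib

/-!
# Elementary inequalities for piece LOWC (choice of the scales)
-/

namespace WSP

theorem arith_pow {θ x c : ℝ} (hθ : 0 < θ) (hc : 0 < c) (hx1 : 1 ≤ x)
    (hx : 8 / (c * (θ * Real.log 2) ^ 2) ≤ x) : x + 1 ≤ c * 2 ^ ⌊θ * x⌋₊ := by
  have hl2 : 0 < Real.log 2 := Real.log_pos (by norm_num)
  have hx0 : 0 < x := by linarith
  set τ := θ * Real.log 2 with hτ
  have hτ0 : 0 < τ := by positivity
  have h1 : (2 : ℝ) ^ ⌊θ * x⌋₊ = Real.exp (Real.log 2 * ⌊θ * x⌋₊) := by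
    rw [Real.exp_mul, Real.exp_log (by norm_num), Real.rpow_natCast]
  have h2 : θ * x - 1 ≤ (⌊θ * x⌋₊ : ℝ) := (Nat.sub_one_lt_floor (θ * x)).le
  have h3 : Real.exp (τ * x) / 2 ≤ (2 : ℝ) ^ ⌊θ * x⌋₊ := by
    rw [h1]
    have e : Real.exp (τ * x) / 2 = Real.exp (Real.log 2 * (θ * x - 1)) := by
      have : Real.log 2 * (θ * x - 1) = τ * x - Real.log 2 := by rw [hτ]; ring
      rw [this, Real.exp_sub, Real.exp_log (by norm_num)]
    rw [e]
    exact Real.exp_le_exp.2 (mul_le_mul_of_nonneg_left h2 hl2.le)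
  have h4 := Real.quadratic_le_exp_of_nonneg (x := τ * x) (by positivity)
  have h5 : (τ * x) ^ 2 / 4 ≤ Real.exp (τ * x) / 2 := by
    have : 0 ≤ τ * x := by positivity
    linarith
  have h6 : 8 ≤ x * (c * τ ^ 2) := (div_le_iff₀ (by positivity)).1 hx
  calc x + 1 ≤ 2 * x := by linarith
    _ = x * 8 / 4 := by ring
    _ ≤ x * (x * (c * τ ^ 2)) / 4 := by
        have := mul_le_mul_of_nonneg_left h6 hx0.le
        linarith
    _ = c * ((τ * x) ^ 2 / 4) := by ring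
    _ ≤ c * 2 ^ ⌊θ * x⌋₊ := mul_le_mul_of_nonneg_left (h5.trans h3) hc.le

theorem log4_lt : Real.log 4 < 2 := by
  have : (4 : ℝ) = 2 ^ 2 := by norm_num
  rw [this, Real.log_pow]
  have := Real.log_two_lt_d9
  push_cast
  linarith

theorem arith_main {ε a C : ℝ} (hε : 0 < ε) (hε' : ε < 1 / 2) (ha : 0 < a) (hC : 0 ≤ C) :
    ∃ X₀ : ℝ, ∀ x : ℝ, X₀ ≤ x → ∃ i₀ n : ℕ, 0 < x + 1 ∧ x + 1 ≤ 2 ^ i₀ ∧
      x + 1 ≤ a * (ε / 8) / 8 * 2 ^ i₀ ∧ (4 : ℝ) ^ (i₀ + n) ≤ Real.exp (x * (1 - ε)) ∧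
      (1 / a + 1) ^ 2 * 4 ^ (i₀ + n) / (2 * Real.exp (x * (1 - ε))) ≤ (ε / 8) / 4 ∧ 1 ≤ n ∧
      (1 - 3 * ε) * (x / 2) ≤ (1 - ε / 8) * ((1 - ε / 4) * (Real.log 4 / 2)) * n ∧
      C / (n : ℝ) ^ 8 ≤ x ^ (-4 : ℤ) := by
  have hl2 : 0 < Real.log 2 := Real.log_pos (by norm_num)
  have hl : 0 < Real.log 4 := Real.log_pos (by norm_num)
  have hl' := log4_lt
  set l := Real.log 4 with hldef
  set θ := (1 - 2 * ε) * (ε / 8) with hθ
  have h12 : 0 < 1 - 2 * ε := by linarith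
  have hθ0 : 0 < θ := by positivity
  set ν := (1 - 2 * ε) * (1 / l - ε / 8) with hν
  have hil : 1 / 2 < 1 / l := by
    rw [one_div, one_div]; exact inv_strictAnti₀ hl hl'
  have hν0 : 0 < ν := mul_pos h12 (by linarith)
  have hsum : (θ + ν) * l = 1 - 2 * ε := by
    have : 1 / l * l = 1 := by field_simp
    calc (θ + ν) * l = (1 - 2 * ε) * (1 / l * l) := by rw [hθ, hν]; ring
      _ = _ := by rw [this, mul_one]
  have hνl : (1 - 2 * ε) * (1 - ε / 4) ≤ ν * l := by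
    have : 1 / l * l = 1 := by field_simp
    have e : ν * l = (1 - 2 * ε) * (1 / l * l - ε / 8 * l) := by rw [hν]; ring
    rw [e, this]
    refine mul_le_mul_of_nonneg_left ?_ h12.le
    have : ε / 8 * l ≤ ε / 8 * 2 := mul_le_mul_of_nonneg_left hl'.le (by positivity)
    linarith
  set q := (1 - ε / 8) * ((1 - ε / 4) * (l / 2)) with hq
  have hq0 : 0 < q := by
    have h1 : 0 < 1 - ε / 8 := by linarith
    have h2 : 0 < 1 - ε / 4 := by linarith
    positivity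
  set p := q * ν - (1 - 3 * ε) / 2 with hp
  have hp0 : 0 < p := by
    have h1 : 0 < 1 - ε / 8 := by linarith
    have h2 : 0 < 1 - ε / 4 := by linarith
    have e : q * ν = (1 - ε / 8) * (1 - ε / 4) * (ν * l) / 2 := by rw [hq]; ring
    have e1 : (1 - ε / 8) * (1 - ε / 4) * ((1 - 2 * ε) * (1 - ε / 4)) / 2 ≤ q * ν := by
      rw [e]
      have := mul_le_mul_of_nonneg_left hνl (by positivity : 0 ≤ (1 - ε / 8) * (1 - ε / 4))
      linarith
    have e2 : 1 - 5 * ε / 8 ≤ (1 - ε / 8) * (1 - ε / 4) * (1 - ε / 4) := by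
      have : (1 - ε / 8) * (1 - ε / 4) * (1 - ε / 4) =
        1 - 5 * ε / 8 + ε ^ 2 / 8 - ε ^ 3 / 128 := by ring
      rw [this]
      have h3 : ε ^ 3 ≤ ε ^ 2 := by
        have : ε ^ 3 = ε ^ 2 * ε := by ring
        rw [this]
        have h4 : 0 ≤ ε ^ 2 := by positivity
        have := mul_le_mul_of_nonneg_left (by linarith : ε ≤ 1) h4
        linarith
      have h4 : 0 ≤ ε ^ 2 := by positivity
      linarith
    have e3 := mul_le_mul_of_nonneg_right e2 h12.le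
    have e4 : (1 - 5 * ε / 8) * (1 - 2 * ε) = 1 - 3 * ε + (3 * ε / 8 + 5 * ε ^ 2 / 4) := by ring
    have e5 : 0 < 3 * ε / 8 + 5 * ε ^ 2 / 4 := by positivity
    have e6 : (1 - ε / 8) * (1 - ε / 4) * ((1 - 2 * ε) * (1 - ε / 4)) =
      (1 - ε / 8) * (1 - ε / 4) * (1 - ε / 4) * (1 - 2 * ε) := by ring
    rw [e6] at e1
    rw [hp]
    linarith
  set c := min 1 (a * (ε / 8) / 8) with hc
  have hc0 : 0 < c := lt_min one_pos (by positivity)
  set A := (1 / a + 1) ^ 2 with hA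
  have hA0 : 0 < A := by positivity
  refine ⟨max (max (max 1 (8 / (c * (θ * Real.log 2) ^ 2))) (max (A * (16 / ε) / ε) (2 / ν)))
    (max (q / p) (C * (2 / ν) ^ 8)), fun x hx => ?_⟩
  have hx1 : 1 ≤ x := le_trans (le_trans (le_trans (le_max_left _ _) (le_max_left _ _))
    (le_max_left _ _)) hx
  have hx2 : 8 / (c * (θ * Real.log 2) ^ 2) ≤ x := le_trans (le_trans (le_trans
    (le_max_right _ _) (le_max_left _ _)) (le_max_left _ _)) hx
  have hx3 : A * (16 / ε) / ε ≤ x := le_trans (le_trans (le_trans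
    (le_max_left _ _) (le_max_right _ _)) (le_max_left _ _)) hx
  have hx4 : 2 / ν ≤ x := le_trans (le_trans (le_trans
    (le_max_right _ _) (le_max_right _ _)) (le_max_left _ _)) hx
  have hx5 : q / p ≤ x := le_trans (le_trans (le_max_left _ _) (le_max_right _ _)) hx
  have hx6 : C * (2 / ν) ^ 8 ≤ x := le_trans (le_trans (le_max_right _ _) (le_max_right _ _)) hx
  have hx0 : 0 < x := by linarith
  have hfl : (⌊θ * x⌋₊ : ℝ) ≤ θ * x := Nat.floor_le (by positivity)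
  have hfn : (⌊ν * x⌋₊ : ℝ) ≤ ν * x := Nat.floor_le (by positivity)
  have hfn' : ν * x - 1 ≤ (⌊ν * x⌋₊ : ℝ) := (Nat.sub_one_lt_floor (ν * x)).le
  have hνx : 2 ≤ ν * x := by
    have := (div_le_iff₀ hν0).1 hx4
    linarith
  have h4pow : (4 : ℝ) ^ (⌊θ * x⌋₊ + ⌊ν * x⌋₊) ≤ Real.exp (x * (1 - 2 * ε)) := by
    have h1 : (4 : ℝ) ^ (⌊θ * x⌋₊ + ⌊ν * x⌋₊) = Real.exp (l * ((⌊θ * x⌋₊ + ⌊ν * x⌋₊ : ℕ) : ℝ)) := by
      rw [Real.exp_mul, hldef, Real.exp_log (by norm_num), Real.rpow_natCast]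
    rw [h1]
    refine Real.exp_le_exp.2 ?_
    push_cast
    calc l * ((⌊θ * x⌋₊ : ℝ) + ⌊ν * x⌋₊) ≤ l * (θ * x + ν * x) :=
          mul_le_mul_of_nonneg_left (add_le_add hfl hfn) hl.le
      _ = (θ + ν) * l * x := by ring
      _ = x * (1 - 2 * ε) := by rw [hsum]; ring
  have hpow := arith_pow hθ0 hc0 hx1 hx2
  have h2p : (0 : ℝ) < 2 ^ ⌊θ * x⌋₊ := by positivity
  refine ⟨⌊θ * x⌋₊, ⌊ν * x⌋₊, by linarith, ?_, ?_, ?_, ?_, ?_, ?_, ?_⟩
  · refine hpow.trans ?_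
    have := mul_le_mul_of_nonneg_right (min_le_left 1 (a * (ε / 8) / 8)) h2p.le
    rw [one_mul] at this
    exact this
  · exact hpow.trans (mul_le_mul_of_nonneg_right (min_le_right 1 (a * (ε / 8) / 8)) h2p.le)
  · refine h4pow.trans (Real.exp_le_exp.2 ?_)
    have : 0 ≤ x * ε := by positivity
    linarith
  · have h1 : Real.exp (x * (1 - ε)) = Real.exp (x * (1 - 2 * ε)) * Real.exp (x * ε) := by
      rw [← Real.exp_add]; congr 1; ring
    have h2 : 16 / ε * A ≤ Real.exp (x * ε) := by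
      have h3 := Real.add_one_le_exp (x * ε)
      have h4 := (div_le_iff₀ hε).1 hx3
      linarith
    rw [div_le_iff₀ (by positivity), h1]
    have h5 : (0 : ℝ) < Real.exp (x * (1 - 2 * ε)) := Real.exp_pos _
    calc A * 4 ^ (⌊θ * x⌋₊ + ⌊ν * x⌋₊) ≤ A * Real.exp (x * (1 - 2 * ε)) :=
          mul_le_mul_of_nonneg_left h4pow hA0.le
      _ = ε / 16 * (Real.exp (x * (1 - 2 * ε)) * (16 / ε * A)) := by
          field_simp
      _ ≤ ε / 16 * (Real.exp (x * (1 - 2 * ε)) * Real.exp (x * ε)) := by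
          refine mul_le_mul_of_nonneg_left ?_ (by positivity)
          exact mul_le_mul_of_nonneg_left h2 h5.le
      _ = _ := by ring
  · exact Nat.le_floor (by push_cast; linarith)
  · have h1 : q * (ν * x - 1) ≤ q * (⌊ν * x⌋₊ : ℝ) := mul_le_mul_of_nonneg_left hfn' hq0.le
    have h2 := (div_le_iff₀ hp0).1 hx5
    have h3 : x * p = q * (ν * x) - (1 - 3 * ε) * (x / 2) := by rw [hp]; ring
    linarith
  · have hn : ν * x / 2 ≤ (⌊ν * x⌋₊ : ℝ) := by linarith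
    have hn0 : 0 < ν * x / 2 := by positivity
    have h1 : (ν * x / 2) ^ 8 ≤ (⌊ν * x⌋₊ : ℝ) ^ 8 := pow_le_pow_left₀ hn0.le hn 8
    calc C / (⌊ν * x⌋₊ : ℝ) ^ 8 ≤ C / (ν * x / 2) ^ 8 :=
          div_le_div_of_nonneg_left hC (by positivity) h1
      _ = C * (2 / ν) ^ 8 / x ^ 8 := by
          field_simp
      _ ≤ x / x ^ 8 := div_le_div_of_nonneg_right hx6 (by positivity)
      _ ≤ x ^ (-4 : ℤ) := by
          rw [zpow_neg, zpow_ofNat, div_le_iff₀ (by positivity), ← div_eq_inv_mul,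
            le_div_iff₀ (by positivity)]
          calc x * x ^ 4 = x ^ 5 := by ring
            _ ≤ x ^ 8 := pow_le_pow_right₀ hx1 (by norm_num)

end WSP
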