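import Pool.Agent.Lib_MP_c175fd.FourDefs

/-!
# Pieces G4, THETA, MK, UPE: potential theory in dimension four

* THETA: `E ‖w v‖^(-2) = 1 / (2 v)` in dimension four: `x^(-1) = ∫_0^∞ exp (-s x) ds` and
  `E exp (-s ‖w v‖^2) = (1 + 2 s v)^(-2)` (product of four one dimensional Gaussian integrals).
* G4: `Gk s x` is the expected time before `s` spent by the path in the unit ball around `x`. Since
  `∫_0^s (2 π u)^(-2) exp (-a^2/(2u)) du = exp (-a^2/(2 s)) / (2 π^2 a^2)` for `a > 0` (derivative in `s`;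
  the limit at `0+` is `0`), Tonelli gives `Gk s x = ∫_{y ∈ ball x 1} exp (-‖y‖^2/(2s)) / (2 π^2 ‖y‖^2) dy`,
  hence the lower bound (`‖y‖ ≤ ‖x‖ + 1`), the upper bound (`‖y‖ ≥ ‖x‖ - 1`) and the bound by a constant
  (the integral of `‖y‖^(-2)` over a unit ball of `ℝ^4` is bounded, or use `1 ∧ C u^(-2)`).
* MK: Markov property at time `a` for the local time after `a`.
* `lintegral_Gk_le`: mean of `Gk` at a shifted path; use the density bounds of `w u` and of the
  increment of `w'` (as in `pair_le`): the probability is at most `min 1 (C max(u, |v-j|)^(-2))`.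
-/

open MeasureTheory ProbabilityTheory Filter Topology
open scoped ENNReal NNReal

namespace WSP

theorem volume_real_unitBall_four : volume.real (Metric.ball (0 : E 4) 1) = Real.pi ^ 2 / 2 := by
  have hs : √Real.pi ^ 4 = Real.pi ^ 2 := by
    have h := Real.sq_sqrt Real.pi_pos.le
    calc √Real.pi ^ 4 = (√Real.pi ^ 2) ^ 2 := by ring
      _ = _ := by rw [h]
  rw [Measure.real, EuclideanSpace.volume_ball]
  simp only [Fintype.card_fin, ENNReal.ofReal_one, one_pow, one_mul]
  rw [ENNReal.toReal_ofReal, hs]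
  · norm_num
  · norm_num
    positivity

theorem integral_mul_exp_theta {b : ℝ} (hb : 0 < b) :
    ∫ y in Set.Ioi (0 : ℝ), y * Real.exp (-b * y ^ 2) = (2 * b)⁻¹ := by
  have h := integral_rpow_mul_exp_neg_mul_rpow (p := 2) (q := 1) (b := b) (by norm_num)
    (by norm_num) hb
  simp only [Real.rpow_one, Real.rpow_ofNat] at h
  rw [h]
  norm_num [Real.Gamma_one]
  rw [Real.rpow_neg_one]

/-- Piece THETA. -/
theorem IsWiener.inv_sq_mean {μ : Measure (Path 4)} (h : IsWiener μ) {v : ℝ≥0} (hv : v ≠ 0) :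
    ∫⁻ w, ENNReal.ofReal (‖w v‖ ^ (-2 : ℤ)) ∂μ = ENNReal.ofReal (1 / (2 * v)) := by
  have hv0 : (0 : ℝ) < v := NNReal.coe_pos.mpr (pos_iff_ne_zero.mpr hv)
  set b : ℝ := 1 / (2 * v) with hb
  have hb0 : 0 < b := by positivity
  set c : ℝ := (2 * Real.pi * v) ^ (-(4 : ℕ) / 2 : ℝ) with hc
  have hc0 : 0 < c := by positivity
  have hc' : c = ((2 * Real.pi * v) ^ 2)⁻¹ := by
    rw [hc]
    norm_num
  set F : ℝ → ℝ := fun y => c * Real.exp (-b * y ^ 2) * y ^ (-2 : ℤ) with hF
  have hgm : Measurable fun x : E 4 => ENNReal.ofReal (‖x‖ ^ (-2 : ℤ)) :=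
    (measurable_norm.pow_const (-2 : ℤ)).ennreal_ofReal
  have hdm : Measurable fun x : E 4 => ENNReal.ofReal (gd 4 v x) := by
    apply Measurable.ennreal_ofReal
    unfold gd
    fun_prop
  have e1 : ∫⁻ w, ENNReal.ofReal (‖w v‖ ^ (-2 : ℤ)) ∂μ =
      ∫⁻ x, ENNReal.ofReal (‖x‖ ^ (-2 : ℤ)) ∂(μ.map (fun w => w v)) :=
    (lintegral_map hgm (measurable_eval v)).symm
  rw [e1, h.map_eval_eq hv, lintegral_withDensity_eq_lintegral_mul _ hdm hgm]
  have e2 : ∀ x : E 4, ((fun x : E 4 => ENNReal.ofReal (gd 4 v x)) *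
      fun x : E 4 => ENNReal.ofReal (‖x‖ ^ (-2 : ℤ))) x = ENNReal.ofReal (F ‖x‖) := by
    intro x
    rw [Pi.mul_apply, ← ENNReal.ofReal_mul (by unfold gd; positivity)]
    congr 1
    simp only [gd, hF, hc]
    congr 3
    rw [hb]
    field_simp
  rw [lintegral_congr e2]
  have hdim : Module.finrank ℝ (E 4) = 4 := by simp
  have e3 : Set.EqOn (fun y : ℝ => y ^ (Module.finrank ℝ (E 4) - 1) • F y)
      (fun y => c * (y * Real.exp (-b * y ^ 2))) (Set.Ioi 0) := by
    intro y hy
    have hy0 : (0 : ℝ) < y := hy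
    simp only [hdim, hF, smul_eq_mul]
    rw [zpow_neg]
    norm_num
    field_simp
  have hint : Integrable (fun x : E 4 => F ‖x‖) volume := by
    rw [integrable_fun_norm_addHaar (volume : Measure (E 4)) (f := F),
      integrableOn_congr_fun e3 measurableSet_Ioi]
    exact ((integrable_mul_exp_neg_mul_sq hb0).const_mul c).integrableOn
  rw [← ofReal_integral_eq_lintegral_ofReal hint]
  · congr 1
    rw [integral_fun_norm_addHaar (volume : Measure (E 4)) F,
      setIntegral_congr_fun measurableSet_Ioi e3, integral_const_mul,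
      integral_mul_exp_theta hb0, volume_real_unitBall_four, hdim, hc', hb]
    simp only [smul_eq_mul, nsmul_eq_mul]
    push_cast
    have := Real.pi_pos
    field_simp
    ring
  · refine Eventually.of_forall fun x => ?_
    simp only [hF, Pi.zero_apply]
    have : 0 ≤ ‖x‖ := norm_nonneg x
    positivity

end WSP
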