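import Pool.Agent.Lib_MP_c175fd.ScaleLLN
import Pool.Agent.Lib_MP_c175fd.Theta
import Pool.Agent.Lib_MP_c175fd.LowArith

/-!
# Pieces LOWC, GOODJ: lower bound of the Green functional of a Brownian path, dimension four

LOWC. `Hl ϖ s w = ∫_{(0,s]} (‖w v‖ + ϖ + 1)^(-2) exp (-(‖w v‖ + ϖ + 1)^2 / (2 s)) dv`. Claim: for
`ε ∈ (0, 1/2)` and large real `T`, with `ϖ = log T`, `s = T^(1-ε)`,
`μ {Hl ϖ s w < (1 - 3 ε) (log T) / 2} ≤ (log T)^(-4)`.
Proof: let `ψ ξ = max (min (ξ^(-2)) K - L^(-2)) 0` (value `K - L^(-2)` at `ξ ≤ 0`), `1 ≤ K`, `1 ≤ L` large: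
bounded by `K`, Lipschitz, zero for `ξ ≥ L`. By scaling and `inv_sq_mean`, monotone convergence:
`∫ Ys ψ 0 = ∫_1^4 E ψ ‖w v‖ dv → ∫_1^4 dv / (2 v) = (log 4) / 2` as `K, L → ∞`; fix `K, L` with mean
`≥ (1 - ε/8) (log 4) / 2`. For `v ∈ [4^i, 4^(i+1)]` with `2^i ≥ (ϖ + 1) C` and `4^(i+1) ≤ T^(1-2ε)` one has,
for all `x`, `(‖x‖ + ϖ + 1)^(-2) exp (-(‖x‖+ϖ+1)^2/(2s)) ≥ (1 - ε/8) 4^(-i) ψ (‖x‖ / 2^i)` for large `T`
(if `‖x‖ > L 2^i` the right side is `0`; otherwise the exponent is at most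
`(L + 1)^2 T^(1-2ε) / T^(1-ε) → 0`; and `(‖x‖ + ϖ + 1)^(-2) ≥ (1 - ε/16) min (‖x‖^(-2)) (K 4^(-i))` as
`ϖ + 1 ≤ 2^i / C`). So `Hl ≥ (1 - ε/8) ∑_{i₀ ≤ i < n₁} Ys ψ i` with
`i₀ = ⌈log_2 (C (ϖ + 1))⌉ = O(log log T)`, `n₁ = ⌊log_4 T^(1-2ε)⌋`, and `scale_lln` applies
(`n = n₁ - i₀ ≥ c log T`, so `C n^(-8) ≤ (log T)^(-4)`); the result is
`Hl ≥ (1 - ε/8) (n₁ - i₀) ((1 - ε/8) (log 4)/2 - ε') ≥ (1 - 3 ε) (log T)/2`.

GOODJ. Two sided version at an integer time `j` of the path, `s ≤ j`, `s ≤ n - j`: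
for all `y` with `‖y + w' j‖ ≤ ϖ`, `Phi s n w' y = ∫_{(0,n]} Gk s (y + w' v) dv` (`Phi_eq`) is at least the
integral over `v ∈ (j - s, j + s]`; `w' (j + v) = w' j + shift j w' v`, `w' (j - v) = w' j - rev j w' v`, and
`Gk_lower` gives `Phi ≥ cB (Hl ϖ s (shift j w') + Hl ϖ s (rev j w'))`; the laws of `shift j w'` and of
`rev j w'` up to time `s ≤ j` are Wiener (`map_shift`, `map_rev`).
-/

open MeasureTheory ProbabilityTheory Filter Topology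
open scoped ENNReal NNReal

namespace WSP

/-- Lower Green functional. -/
noncomputable def Hl {d : ℕ} (ϖ : ℝ) (s : ℝ≥0) (w : Path d) : ℝ≥0∞ :=
  ∫⁻ v in Set.Ioc (0 : ℝ) s, ENNReal.ofReal ((‖w v.toNNReal‖ + ϖ + 1) ^ (-2 : ℤ) *
    Real.exp (-(‖w v.toNNReal‖ + ϖ + 1) ^ 2 / (2 * s)))

/-- The truncated inverse square. -/
noncomputable def psi (a ξ : ℝ) : ℝ := max ((max ξ a) ^ (-2 : ℤ) - a ^ 2) 0

theorem psi_nonneg (a ξ : ℝ) : 0 ≤ psi a ξ := le_max_right _ _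

theorem inv_sq_le_of_le {x y : ℝ} (hx : 0 < x) (h : x ≤ y) : y ^ (-2 : ℤ) ≤ x ^ (-2 : ℤ) := by
  rw [zpow_neg, zpow_neg]
  have h2 : x ^ (2 : ℤ) ≤ y ^ (2 : ℤ) := by
    rw [zpow_ofNat, zpow_ofNat]
    exact pow_le_pow_left₀ hx.le h 2
  have h3 : 0 < x ^ (2 : ℤ) := by positivity
  exact inv_anti₀ h3 h2

theorem psi_le {a : ℝ} (ha : 0 < a) (ξ : ℝ) : psi a ξ ≤ a ^ (-2 : ℤ) := by
  have h1 : (max ξ a) ^ (-2 : ℤ) ≤ a ^ (-2 : ℤ) := inv_sq_le_of_le ha (le_max_right _ _)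
  have h2 : 0 ≤ a ^ 2 := by positivity
  have h3 : 0 ≤ a ^ (-2 : ℤ) := by positivity
  exact max_le (by linarith) h3

theorem psi_eq_zero {a ξ : ℝ} (ha : 0 < a) (h : 1 / a ≤ ξ) : psi a ξ = 0 := by
  have h0 : 0 < 1 / a := by positivity
  have h1 : (max ξ a) ^ (-2 : ℤ) ≤ (1 / a) ^ (-2 : ℤ) :=
    inv_sq_le_of_le h0 (h.trans (le_max_left _ _))
  have h2 : (1 / a) ^ (-2 : ℤ) = a ^ 2 := by
    rw [one_div, inv_zpow, zpow_neg, inv_inv, zpow_ofNat]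
  rw [h2] at h1
  exact max_eq_right (by linarith)

theorem psi_le_max {a ξ : ℝ} : psi a ξ ≤ (max ξ a) ^ (-2 : ℤ) := by
  have h2 : 0 ≤ a ^ 2 := by positivity
  have h3 : 0 ≤ (max ξ a) ^ (-2 : ℤ) := by
    rw [zpow_neg, zpow_ofNat]; positivity
  exact max_le (by linarith) h3

theorem psi_lip {a : ℝ} (ha : 0 < a) : LipschitzWith (2 * a⁻¹ ^ 3).toNNReal (psi a) := by
  refine LipschitzWith.of_dist_le_mul fun x y => ?_
  have hL : ((2 * a⁻¹ ^ 3).toNNReal : ℝ) = 2 * a⁻¹ ^ 3 := Real.coe_toNNReal _ (by positivity)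
  rw [hL, Real.dist_eq, Real.dist_eq]
  have h1 : |psi a x - psi a y| ≤ |(max x a) ^ (-2 : ℤ) - a ^ 2 - ((max y a) ^ (-2 : ℤ) - a ^ 2)| := by
    unfold psi
    exact abs_max_sub_max_le_abs _ _ _
  have h2 : |max x a - max y a| ≤ |x - y| := abs_max_sub_max_le_abs _ _ _
  set p := max x a with hp
  set q := max y a with hq
  have hpa : a ≤ p := le_max_right _ _
  have hqa : a ≤ q := le_max_right _ _
  have hp0 : 0 < p := lt_of_lt_of_le ha hpa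
  have hq0 : 0 < q := lt_of_lt_of_le ha hqa
  have h3 : p ^ (-2 : ℤ) - a ^ 2 - (q ^ (-2 : ℤ) - a ^ 2) = (q - p) * (p⁻¹ ^ 2 * q⁻¹ + p⁻¹ * q⁻¹ ^ 2) := by
    rw [zpow_neg, zpow_neg, zpow_ofNat, zpow_ofNat]
    field_simp
    ring
  have hpi : p⁻¹ ≤ a⁻¹ := inv_anti₀ ha hpa
  have hqi : q⁻¹ ≤ a⁻¹ := inv_anti₀ ha hqa
  have hpp : 0 ≤ p⁻¹ := by positivity
  have hqq : 0 ≤ q⁻¹ := by positivity
  have haa : 0 ≤ a⁻¹ := by positivity
  have h4 : p⁻¹ ^ 2 * q⁻¹ + p⁻¹ * q⁻¹ ^ 2 ≤ 2 * a⁻¹ ^ 3 := by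
    have e1 : p⁻¹ ^ 2 * q⁻¹ ≤ a⁻¹ ^ 2 * a⁻¹ :=
      mul_le_mul (pow_le_pow_left₀ hpp hpi 2) hqi hqq (by positivity)
    have e2 : p⁻¹ * q⁻¹ ^ 2 ≤ a⁻¹ * a⁻¹ ^ 2 :=
      mul_le_mul hpi (pow_le_pow_left₀ hqq hqi 2) (by positivity) haa
    calc _ ≤ a⁻¹ ^ 2 * a⁻¹ + a⁻¹ * a⁻¹ ^ 2 := add_le_add e1 e2
      _ = _ := by ring
  calc |psi a x - psi a y| ≤ _ := h1
    _ = |q - p| * (p⁻¹ ^ 2 * q⁻¹ + p⁻¹ * q⁻¹ ^ 2) := by
        rw [h3, abs_mul, abs_of_nonneg (a := p⁻¹ ^ 2 * q⁻¹ + p⁻¹ * q⁻¹ ^ 2) (by positivity)]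
    _ ≤ |x - y| * (2 * a⁻¹ ^ 3) := by
        refine mul_le_mul ?_ h4 (by positivity) (abs_nonneg _)
        rw [abs_sub_comm]; exact h2
    _ = _ := by ring

/-- Pointwise comparison of the Green kernel with the truncated inverse square. -/
theorem psi_pt {a δ : ℝ} (ha : 0 < a) (hδ : 0 < δ) (hδ1 : δ ≤ 1) {ξ η σ : ℝ} (hξ : 0 ≤ ξ)
    (hη : 0 < η) (hη1 : η ≤ 1) (hη2 : η ≤ a * δ / 8) (hσ : 0 < σ)
    (hσ2 : (1 / a + 1) ^ 2 / (2 * σ) ≤ δ / 4) :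
    (1 - δ) * psi a ξ ≤ (ξ + η) ^ (-2 : ℤ) * Real.exp (-(ξ + η) ^ 2 / (2 * σ)) := by
  rcases le_or_gt (1 / a) ξ with h | h
  · rw [psi_eq_zero ha h, mul_zero]
    have : 0 < ξ + η := by linarith
    positivity
  · have hs : 0 < ξ + η := by linarith
    set m := max ξ a with hm
    have hma : a ≤ m := le_max_right _ _
    have hm0 : 0 < m := lt_of_lt_of_le ha hma
    have hmx : ξ ≤ m := le_max_left _ _
    have h1 : ξ + η ≤ m * (1 + δ / 8) := by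
      have : a * δ / 8 ≤ m * (δ / 8) := by
        have := mul_le_mul_of_nonneg_right hma (by positivity : (0 : ℝ) ≤ δ / 8)
        linarith
      linarith
    have h2 : (m * (1 + δ / 8)) ^ (-2 : ℤ) ≤ (ξ + η) ^ (-2 : ℤ) := inv_sq_le_of_le hs h1
    have h3 : (1 - δ / 4) * m ^ (-2 : ℤ) ≤ (m * (1 + δ / 8)) ^ (-2 : ℤ) := by
      rw [mul_zpow, mul_comm (1 - δ / 4)]
      refine mul_le_mul_of_nonneg_left ?_ (by positivity)
      rw [zpow_neg, zpow_ofNat, ← one_div, le_div_iff₀ (by positivity)]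
      have e : (1 - δ / 4) * (1 + δ / 8) ^ 2 = 1 - (3 / 64) * δ ^ 2 - δ ^ 3 / 256 := by ring
      rw [e]
      have : 0 ≤ δ ^ 2 := by positivity
      have : 0 ≤ δ ^ 3 := by positivity
      linarith
    have h4 : 1 - δ / 4 ≤ Real.exp (-(ξ + η) ^ 2 / (2 * σ)) := by
      have e1 : (ξ + η) ^ 2 / (2 * σ) ≤ (1 / a + 1) ^ 2 / (2 * σ) := by
        refine div_le_div_of_nonneg_right ?_ (by positivity)
        exact pow_le_pow_left₀ hs.le (by linarith) 2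
      have e2 := Real.add_one_le_exp (-(ξ + η) ^ 2 / (2 * σ))
      have e3 : -(ξ + η) ^ 2 / (2 * σ) = -((ξ + η) ^ 2 / (2 * σ)) := by ring
      rw [e3] at e2 ⊢
      linarith
    have h5 : psi a ξ ≤ m ^ (-2 : ℤ) := psi_le_max
    have hm2 : 0 ≤ m ^ (-2 : ℤ) := by positivity
    calc (1 - δ) * psi a ξ ≤ (1 - δ) * m ^ (-2 : ℤ) :=
          mul_le_mul_of_nonneg_left h5 (by linarith)
      _ ≤ ((1 - δ / 4) * m ^ (-2 : ℤ)) * (1 - δ / 4) := by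
          have : (1 - δ) ≤ (1 - δ / 4) * (1 - δ / 4) := by
            have : (1 - δ / 4) * (1 - δ / 4) = 1 - δ / 2 + δ ^ 2 / 16 := by ring
            rw [this]
            have : 0 ≤ δ ^ 2 := by positivity
            linarith
          calc (1 - δ) * m ^ (-2 : ℤ) ≤ ((1 - δ / 4) * (1 - δ / 4)) * m ^ (-2 : ℤ) :=
                mul_le_mul_of_nonneg_right this hm2
            _ = _ := by ring
      _ ≤ (ξ + η) ^ (-2 : ℤ) * Real.exp (-(ξ + η) ^ 2 / (2 * σ)) :=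
          mul_le_mul (h3.trans h2) h4 (by linarith) (by positivity)

theorem Hl_stop {d : ℕ} (ϖ : ℝ) {s a : ℝ≥0} (h : s ≤ a) (w : Path d) :
    Hl ϖ s (stop a w) = Hl ϖ s w := by
  unfold Hl
  refine setLIntegral_congr_fun measurableSet_Ioc fun v hv => ?_
  have : min v.toNNReal a = v.toNNReal :=
    min_eq_left ((Real.toNNReal_le_iff_le_coe.2 hv.2).trans h)
  simp only [stop_apply, this]

theorem kernel_ge {a δ : ℝ} (ha : 0 < a) (hδ : 0 < δ) (hδ1 : δ ≤ 1) {ϖ s : ℝ} {i : ℕ}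
    (hϖ : 0 < ϖ + 1) (h1 : ϖ + 1 ≤ 2 ^ i) (h2 : ϖ + 1 ≤ a * δ / 8 * 2 ^ i) (hs : 0 < s)
    (h3 : (1 / a + 1) ^ 2 * 4 ^ i / (2 * s) ≤ δ / 4) {x : ℝ} (hx : 0 ≤ x) :
    (1 - δ) * (((4 : ℝ) ^ i)⁻¹ * psi a (x / 2 ^ i)) ≤
      (x + ϖ + 1) ^ (-2 : ℤ) * Real.exp (-(x + ϖ + 1) ^ 2 / (2 * s)) := by
  have h2i : (0 : ℝ) < 2 ^ i := by positivity
  have h4i : (0 : ℝ) < 4 ^ i := by positivity
  have h42 : (4 : ℝ) ^ i = (2 ^ i) ^ 2 := by
    rw [← pow_mul, mul_comm, pow_mul]; norm_num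
  have key := psi_pt (a := a) (δ := δ) ha hδ hδ1 (ξ := x / 2 ^ i) (η := (ϖ + 1) / 2 ^ i)
    (σ := s / 4 ^ i) (by positivity) (by positivity) ((div_le_one h2i).2 h1)
    ((div_le_iff₀ h2i).2 h2) (by positivity) (by
      have : (1 / a + 1) ^ 2 / (2 * (s / 4 ^ i)) = (1 / a + 1) ^ 2 * 4 ^ i / (2 * s) := by
        field_simp
      rw [this]; exact h3)
  have e1 : x / 2 ^ i + (ϖ + 1) / 2 ^ i = (x + ϖ + 1) / 2 ^ i := by ring
  have hpos : 0 < x + ϖ + 1 := by linarith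
  rw [e1] at key
  have e2 : ((x + ϖ + 1) / 2 ^ i) ^ (-2 : ℤ) = (x + ϖ + 1) ^ (-2 : ℤ) * 4 ^ i := by
    rw [zpow_neg, zpow_neg, zpow_ofNat, zpow_ofNat, div_pow, ← h42, inv_div]
    field_simp
  have e3 : -((x + ϖ + 1) / 2 ^ i) ^ 2 / (2 * (s / 4 ^ i)) = -(x + ϖ + 1) ^ 2 / (2 * s) := by
    rw [div_pow, ← h42]
    field_simp
  rw [e2, e3] at key
  calc (1 - δ) * (((4 : ℝ) ^ i)⁻¹ * psi a (x / 2 ^ i))
      = ((4 : ℝ) ^ i)⁻¹ * ((1 - δ) * psi a (x / 2 ^ i)) := by ring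
    _ ≤ ((4 : ℝ) ^ i)⁻¹ * ((x + ϖ + 1) ^ (-2 : ℤ) * 4 ^ i *
          Real.exp (-(x + ϖ + 1) ^ 2 / (2 * s))) :=
        mul_le_mul_of_nonneg_left key (by positivity)
    _ = _ := by field_simp

theorem Ys_eq {d : ℕ} (ψ : ℝ → ℝ) (i : ℕ) (w : Path d) :
    Ys ψ i w = ∫ v in ((4 : ℝ) ^ i)..(4 ^ (i + 1)), ((4 : ℝ) ^ i)⁻¹ * ψ (‖w v.toNNReal‖ / 2 ^ i) := by
  have h4i : (0 : ℝ) < 4 ^ i := by positivity
  have h := intervalIntegral.integral_comp_mul_left (a := (1 : ℝ)) (b := 4)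
    (f := fun v => ψ (‖w v.toNNReal‖ / 2 ^ i)) h4i.ne'
  have e : (4 : ℝ) ^ i * 4 = 4 ^ (i + 1) := by ring
  rw [mul_one, e, smul_eq_mul] at h
  rw [intervalIntegral.integral_const_mul, ← h]
  unfold Ys
  refine intervalIntegral.integral_congr fun v _ => ?_
  have : ((4 : ℝ) ^ i * v).toNNReal = (4 : ℝ≥0) ^ i * v.toNNReal := by
    rw [Real.toNNReal_mul h4i.le]
    congr 1
    rw [Real.toNNReal_pow (by norm_num)]
    norm_num
  simp only [this]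

theorem block_ge {d : ℕ} {a δ : ℝ} (ha : 0 < a) (hδ : 0 < δ) (hδ1 : δ ≤ 1) {ϖ s : ℝ} {i : ℕ}
    (hϖ : 0 < ϖ + 1) (h1 : ϖ + 1 ≤ 2 ^ i) (h2 : ϖ + 1 ≤ a * δ / 8 * 2 ^ i) (hs : 0 < s)
    (h3 : (1 / a + 1) ^ 2 * 4 ^ i / (2 * s) ≤ δ / 4) (w : Path d) :
    ENNReal.ofReal ((1 - δ) * Ys (psi a) i w) ≤
      ∫⁻ v in Set.Ioc ((4 : ℝ) ^ i) (4 ^ (i + 1)), ENNReal.ofReal ((‖w v.toNNReal‖ + ϖ + 1) ^ (-2 : ℤ) *
        Real.exp (-(‖w v.toNNReal‖ + ϖ + 1) ^ 2 / (2 * s))) := by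
  have h4 : (4 : ℝ) ^ i ≤ 4 ^ (i + 1) := pow_le_pow_right₀ (by norm_num) (Nat.le_succ i)
  have hcont : Continuous fun v : ℝ => (1 - δ) * (((4 : ℝ) ^ i)⁻¹ * psi a (‖w v.toNNReal‖ / 2 ^ i)) := by
    have hw := w.cont
    have hp := (psi_lip ha).continuous
    have h5 : Continuous fun v : ℝ => ‖w v.toNNReal‖ / 2 ^ i :=
      ((hw.comp continuous_real_toNNReal).norm).div_const _
    exact continuous_const.mul (continuous_const.mul (hp.comp h5))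
  rw [Ys_eq, ← intervalIntegral.integral_const_mul, intervalIntegral.integral_of_le h4,
    ofReal_integral_eq_lintegral_ofReal]
  · refine lintegral_mono fun v => ENNReal.ofReal_le_ofReal ?_
    exact kernel_ge ha hδ hδ1 hϖ h1 h2 hs h3 (norm_nonneg _)
  · exact (hcont.integrableOn_Icc).mono_set Set.Ioc_subset_Icc_self
  · refine Eventually.of_forall fun v => ?_
    have := psi_nonneg a (‖w v.toNNReal‖ / 2 ^ i)
    have h6 : 0 ≤ 1 - δ := by linarith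
    positivity

/-- The blocks together. -/
theorem Hl_ge {d : ℕ} {a δ : ℝ} (ha : 0 < a) (hδ : 0 < δ) (hδ1 : δ ≤ 1) {ϖ : ℝ} {s : ℝ≥0}
    {i₀ n : ℕ} (hϖ : 0 < ϖ + 1) (h1 : ϖ + 1 ≤ 2 ^ i₀) (h2 : ϖ + 1 ≤ a * δ / 8 * 2 ^ i₀)
    (hs : (4 : ℝ) ^ (i₀ + n) ≤ s)
    (h3 : (1 / a + 1) ^ 2 * 4 ^ (i₀ + n) / (2 * s) ≤ δ / 4) (w : Path d) :
    ENNReal.ofReal ((1 - δ) * ∑ i ∈ Finset.range n, Ys (psi a) (i₀ + i) w) ≤ Hl ϖ s w := by
  have hs0 : (0 : ℝ) < s := lt_of_lt_of_le (by positivity) hs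
  have hY : ∀ i, 0 ≤ Ys (psi a) i w := fun i =>
    intervalIntegral.integral_nonneg (by norm_num) fun v _ => psi_nonneg _ _
  have hδ' : 0 ≤ 1 - δ := by linarith
  rw [Finset.mul_sum, ENNReal.ofReal_sum_of_nonneg fun i _ => mul_nonneg hδ' (hY _)]
  have hmono2 : ∀ i, (2 : ℝ) ^ i₀ ≤ 2 ^ (i₀ + i) := fun i =>
    pow_le_pow_right₀ (by norm_num) (Nat.le_add_right _ _)
  calc ∑ i ∈ Finset.range n, ENNReal.ofReal ((1 - δ) * Ys (psi a) (i₀ + i) w)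
      ≤ ∑ i ∈ Finset.range n, ∫⁻ v in Set.Ioc ((4 : ℝ) ^ (i₀ + i)) (4 ^ (i₀ + i + 1)),
          ENNReal.ofReal ((‖w v.toNNReal‖ + ϖ + 1) ^ (-2 : ℤ) *
            Real.exp (-(‖w v.toNNReal‖ + ϖ + 1) ^ 2 / (2 * (s : ℝ)))) := by
        refine Finset.sum_le_sum fun i hi => ?_
        have hin : i < n := Finset.mem_range.1 hi
        refine block_ge ha hδ hδ1 hϖ (h1.trans (hmono2 i)) (h2.trans ?_) hs0 (le_trans ?_ h3) w
        · exact mul_le_mul_of_nonneg_left (hmono2 i) (by positivity)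
        · refine div_le_div_of_nonneg_right ?_ (by positivity)
          refine mul_le_mul_of_nonneg_left ?_ (by positivity)
          exact pow_le_pow_right₀ (by norm_num) (by omega)
    _ = ∫⁻ v in ⋃ i ∈ Finset.range n, Set.Ioc ((4 : ℝ) ^ (i₀ + i)) (4 ^ (i₀ + i + 1)),
          ENNReal.ofReal ((‖w v.toNNReal‖ + ϖ + 1) ^ (-2 : ℤ) *
            Real.exp (-(‖w v.toNNReal‖ + ϖ + 1) ^ 2 / (2 * (s : ℝ)))) := by
        rw [lintegral_biUnion_finset]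
        · intro i _ j _ hij
          have key : ∀ p q : ℕ, p < q → Disjoint (Set.Ioc ((4 : ℝ) ^ (i₀ + p)) (4 ^ (i₀ + p + 1)))
              (Set.Ioc ((4 : ℝ) ^ (i₀ + q)) (4 ^ (i₀ + q + 1))) := by
            intro p q hpq
            refine Set.disjoint_left.2 fun v hv hv' => ?_
            have : (4 : ℝ) ^ (i₀ + p + 1) ≤ 4 ^ (i₀ + q) :=
              pow_le_pow_right₀ (by norm_num) (by omega)
            exact absurd (hv.2.trans this) (not_le.2 hv'.1)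
          rcases lt_or_gt_of_ne hij with h | h
          · exact key i j h
          · exact (key j i h).symm
        · exact fun i _ => measurableSet_Ioc
    _ ≤ Hl ϖ s w := by
        unfold Hl
        refine lintegral_mono_set ?_
        refine Set.iUnion₂_subset fun i hi => ?_
        have hin : i < n := Finset.mem_range.1 hi
        intro v hv
        refine ⟨lt_trans (by positivity) hv.1, hv.2.trans (le_trans ?_ hs)⟩
        exact pow_le_pow_right₀ (by norm_num) (by omega)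

theorem lint_inv : ∫⁻ v in Set.Ioc (1 : ℝ) 4, ENNReal.ofReal (1 / (2 * v)) =
    ENNReal.ofReal (Real.log 4 / 2) := by
  have hcont : ContinuousOn (fun v : ℝ => 1 / (2 * v)) (Set.Icc 1 4) := by
    refine ContinuousOn.div continuousOn_const (by fun_prop) fun v hv => ?_
    have : (1 : ℝ) ≤ v := hv.1
    positivity
  have hi : IntegrableOn (fun v : ℝ => 1 / (2 * v)) (Set.Ioc 1 4) :=
    (hcont.integrableOn_Icc).mono_set Set.Ioc_subset_Icc_self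
  rw [← ofReal_integral_eq_lintegral_ofReal hi]
  · congr 1
    rw [← intervalIntegral.integral_of_le (by norm_num)]
    have : ∀ v : ℝ, 1 / (2 * v) = (1 / 2) * v⁻¹ := fun v => by
      rw [one_div, mul_inv]; ring
    simp_rw [this]
    rw [intervalIntegral.integral_const_mul, integral_inv_of_pos (by norm_num) (by norm_num)]
    norm_num
    ring
  · refine (ae_restrict_iff' measurableSet_Ioc).2 (Eventually.of_forall fun v hv => ?_)
    have : (0 : ℝ) < v := lt_trans one_pos hv.1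
    positivity

theorem measurable_normeval {d : ℕ} :
    Measurable (fun z : Path d × ℝ => ‖z.1 z.2.toNNReal‖) := by
  have h1 : Measurable (fun z : Path d × ℝ => ((z.1, z.2.toNNReal) : Path d × ℝ≥0)) :=
    measurable_fst.prodMk measurable_snd.real_toNNReal
  exact (measurable_eval_prod.comp h1).norm

theorem integral_Ys {d : ℕ} {μ : Measure (Path d)} (h : IsWiener μ) {a : ℝ} (ha : 0 < a) :
    ENNReal.ofReal (∫ w, Ys (psi a) 0 w ∂μ) =
      ∫⁻ z, ENNReal.ofReal (psi a ‖z.1 z.2.toNNReal‖)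
        ∂(μ.prod (volume.restrict (Set.Ioc (1 : ℝ) 4))) := by
  have := h.isProb
  have hm : Measurable (fun z : Path d × ℝ => psi a ‖z.1 z.2.toNNReal‖) :=
    (psi_lip ha).continuous.measurable.comp measurable_normeval
  have hint : Integrable (fun z : Path d × ℝ => psi a ‖z.1 z.2.toNNReal‖)
      (μ.prod (volume.restrict (Set.Ioc (1 : ℝ) 4))) := by
    refine Integrable.of_bound hm.aestronglyMeasurable (a ^ (-2 : ℤ)) (Eventually.of_forall fun z => ?_)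
    rw [Real.norm_of_nonneg (psi_nonneg _ _)]
    exact psi_le ha _
  rw [← ofReal_integral_eq_lintegral_ofReal hint (Eventually.of_forall fun z => psi_nonneg _ _),
    integral_prod _ hint]
  congr 1
  refine integral_congr_ae (Eventually.of_forall fun w => ?_)
  simp only [Ys, pow_zero, one_mul, div_one]
  rw [intervalIntegral.integral_of_le (by norm_num)]

theorem mean_ge {μ : Measure (Path 4)} (h : IsWiener μ) {η : ℝ} (hη : η < Real.log 4 / 2) :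
    ∃ a : ℝ, 0 < a ∧ η ≤ ∫ w, Ys (psi a) 0 w ∂μ := by
  have := h.isProb
  set P := μ.prod (volume.restrict (Set.Ioc (1 : ℝ) 4)) with hP
  have hak : ∀ k : ℕ, 0 < 1 / ((k : ℝ) + 1) := fun k => by positivity
  have hm : ∀ k : ℕ, Measurable (fun z : Path 4 × ℝ =>
      ENNReal.ofReal (psi (1 / ((k : ℝ) + 1)) ‖z.1 z.2.toNNReal‖)) := fun k =>
    ENNReal.measurable_ofReal.comp
      ((psi_lip (hak k)).continuous.measurable.comp measurable_normeval)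
  have hF := lintegral_liminf_le (μ := P) (u := (atTop : Filter ℕ)) hm
  have hpt : ∀ z : Path 4 × ℝ, ENNReal.ofReal (‖z.1 z.2.toNNReal‖ ^ (-2 : ℤ)) ≤
      liminf (fun k : ℕ => ENNReal.ofReal (psi (1 / ((k : ℝ) + 1)) ‖z.1 z.2.toNNReal‖)) atTop := by
    intro z
    set x := ‖z.1 z.2.toNNReal‖ with hx
    rcases (norm_nonneg (z.1 z.2.toNNReal)).eq_or_lt with h0 | h0
    · have : x ^ (-2 : ℤ) = 0 := by
        rw [hx, ← h0]; norm_num
      rw [this, ENNReal.ofReal_zero]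
      exact bot_le
    · rw [← hx] at h0
      have ht : Tendsto (fun k : ℕ => psi (1 / ((k : ℝ) + 1)) x) atTop (𝓝 (x ^ (-2 : ℤ))) := by
        have t1 : Tendsto (fun k : ℕ => 1 / ((k : ℝ) + 1)) atTop (𝓝 0) :=
          tendsto_one_div_add_atTop_nhds_zero_nat
        have t2 : Tendsto (fun k : ℕ => max (x ^ (-2 : ℤ) - (1 / ((k : ℝ) + 1)) ^ 2) 0) atTop
            (𝓝 (max (x ^ (-2 : ℤ) - 0 ^ 2) 0)) :=
          (tendsto_const_nhds.sub (t1.pow 2)).max tendsto_const_nhds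
        have e : max (x ^ (-2 : ℤ) - 0 ^ 2) 0 = x ^ (-2 : ℤ) := by
          have : 0 ≤ x ^ (-2 : ℤ) := by positivity
          rw [zero_pow two_ne_zero, sub_zero, max_eq_left this]
        rw [e] at t2
        refine t2.congr' ?_
        have t3 : ∀ᶠ k : ℕ in atTop, 1 / ((k : ℝ) + 1) < x := t1.eventually_lt_const h0
        filter_upwards [t3] with k hk
        rw [psi, max_eq_left hk.le]
      exact ((ENNReal.continuous_ofReal.tendsto _).comp ht).liminf_eq.ge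
  have hlow : ENNReal.ofReal (Real.log 4 / 2) ≤
      ∫⁻ z, ENNReal.ofReal (‖z.1 z.2.toNNReal‖ ^ (-2 : ℤ)) ∂P := by
    have hmeas : Measurable (fun z : Path 4 × ℝ =>
        ENNReal.ofReal (‖z.1 z.2.toNNReal‖ ^ (-2 : ℤ))) :=
      ENNReal.measurable_ofReal.comp (measurable_normeval.pow_const (-2 : ℤ))
    rw [hP, lintegral_prod_symm' _ hmeas, ← lint_inv]
    refine le_of_eq (setLIntegral_congr_fun measurableSet_Ioc fun v hv => ?_)
    have hv0 : (0 : ℝ) < v := lt_trans one_pos hv.1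
    have hv1 : v.toNNReal ≠ 0 := (Real.toNNReal_pos.2 hv0).ne'
    have := h.inv_sq_mean hv1
    simp only
    rw [this, Real.coe_toNNReal _ hv0.le]
  have hlim : ENNReal.ofReal η < liminf (fun k : ℕ => ∫⁻ z,
      ENNReal.ofReal (psi (1 / ((k : ℝ) + 1)) ‖z.1 z.2.toNNReal‖) ∂P) atTop := by
    have hl : 0 < Real.log 4 / 2 := by
      have := Real.log_pos (by norm_num : (1 : ℝ) < 4)
      linarith
    calc ENNReal.ofReal η < ENNReal.ofReal (Real.log 4 / 2) :=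
          (ENNReal.ofReal_lt_ofReal_iff hl).2 hη
      _ ≤ _ := hlow
      _ ≤ _ := lintegral_mono hpt
      _ ≤ _ := hF
  obtain ⟨k, hk⟩ := (eventually_lt_of_lt_liminf hlim).exists
  refine ⟨1 / ((k : ℝ) + 1), hak k, ?_⟩
  rw [← integral_Ys h (hak k)] at hk
  exact ((ENNReal.ofReal_lt_ofReal_iff').1 hk).1.le

/-- Piece LOWC. -/
theorem IsWiener.Hl_lower {μ : Measure (Path 4)} (h : IsWiener μ) {ε : ℝ} (hε : 0 < ε)
    (hε' : ε < 1 / 2) :
    ∀ᶠ T : ℝ in atTop, μ {w | Hl (Real.log T) (T ^ (1 - ε)).toNNReal w <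
      ENNReal.ofReal ((1 - 3 * ε) * (Real.log T / 2))} ≤ ENNReal.ofReal ((Real.log T) ^ (-4 : ℤ)) := by
  have hl : 0 < Real.log 4 := Real.log_pos (by norm_num)
  obtain ⟨a, ha, hM⟩ := mean_ge h (η := (1 - ε / 8) * (Real.log 4 / 2)) (by
    have : 0 < ε / 8 * (Real.log 4 / 2) := by positivity
    linarith)
  set M := ∫ w, Ys (psi a) 0 w ∂μ with hMdef
  have hε1 : 0 < ε / 8 * (Real.log 4 / 2) := by positivity
  obtain ⟨C, hC⟩ := h.scale_lln (psi_nonneg a) (psi_le ha) (psi_lip ha) hε1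
  obtain ⟨X₀, hX⟩ := arith_main hε hε' ha (C.coe_nonneg)
  filter_upwards [Real.tendsto_log_atTop.eventually_ge_atTop X₀, eventually_gt_atTop 0] with T hT hT0
  obtain ⟨i₀, n, h1, h2, h3, h4, h5, h6, h7, h8⟩ := hX _ hT
  have hs : (((T ^ (1 - ε)).toNNReal : ℝ≥0) : ℝ) = Real.exp (Real.log T * (1 - ε)) := by
    rw [Real.coe_toNNReal _ (by positivity), Real.rpow_def_of_pos hT0]
  have hn0 : (0 : ℝ) < n := by exact_mod_cast h6
  have hsub : {w : Path 4 | Hl (Real.log T) (T ^ (1 - ε)).toNNReal w <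
      ENNReal.ofReal ((1 - 3 * ε) * (Real.log T / 2))} ⊆
      {w | ∑ i ∈ Finset.range n, Ys (psi a) (i₀ + i) w <
        (M - ε / 8 * (Real.log 4 / 2)) * n} := by
    intro w hw
    by_contra hcon
    have hcon' : (M - ε / 8 * (Real.log 4 / 2)) * n ≤
        ∑ i ∈ Finset.range n, Ys (psi a) (i₀ + i) w := not_lt.1 hcon
    have key := Hl_ge (d := 4) ha (δ := ε / 8) (by positivity) (by linarith) (ϖ := Real.log T)
      (s := (T ^ (1 - ε)).toNNReal) (i₀ := i₀) (n := n) h1 h2 h3 (by rw [hs]; exact h4)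
      (by rw [hs]; exact h5) w
    refine absurd hw (not_lt.2 (le_trans (ENNReal.ofReal_le_ofReal ?_) key))
    refine h7.trans ?_
    have hd : 0 ≤ 1 - ε / 8 := by linarith
    rw [mul_assoc]
    refine mul_le_mul_of_nonneg_left (le_trans ?_ hcon') hd
    refine mul_le_mul_of_nonneg_right ?_ hn0.le
    have : (1 - ε / 4) * (Real.log 4 / 2) =
      (1 - ε / 8) * (Real.log 4 / 2) - ε / 8 * (Real.log 4 / 2) := by ring
    rw [this]
    linarith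
  refine (measure_mono hsub).trans ((hC n i₀ h6).trans ?_)
  refine le_trans (le_of_eq ?_) (ENNReal.ofReal_le_ofReal h8)
  rw [ENNReal.ofReal_div_of_pos (by positivity), ENNReal.ofReal_coe_nnreal,
    ENNReal.ofReal_pow hn0.le, ENNReal.ofReal_natCast]

end WSP
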