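import Pool.Agent.Lib_MP_c175fd.FourDefs
import Pool.Agent.Lib_MP_c175fd.LowC

/-!
# Piece KBB: pairs of unit blocks

`Kbb k j w w' = {z | z - w k + w' j ∈ Kset 1 1 1 (shift k w) (shift j w')}`: displacements for which the
`k`-th unit block of `w` meets the `j`-th unit block of `w'`.
-/

open MeasureTheory ProbabilityTheory Filter Topology
open scoped ENNReal NNReal

namespace WSP

variable {d : ℕ}

/-- Displacements for which the unit blocks `k` and `j` meet. -/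
def Kbb (k j : ℕ) (w w' : Path d) : Set (E d) :=
  {z | z - w k + w' j ∈ Kset 1 1 1 (shift k w) (shift j w')}

/-- Blocks of the second path restricted to the indices `j` with `w' ∈ A j`. -/
def Kg (A : ℕ → Set (Path d)) (n k : ℕ) (w w' : Path d) : Set (E d) :=
  ⋃ (j : ℕ) (_ : j < n) (_ : w' ∈ A j), Kbb k j w w'

/-- Same, the block `k` being the first one which hits. -/
def Fg (A : ℕ → Set (Path d)) (n k : ℕ) (w w' : Path d) : Set (E d) :=
  Kg A n k w w' \ ⋃ (l : ℕ) (_ : l < k), Kg A n l w w'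

theorem kbb_mem_Kb {n k : ℕ} {w w' : Path d} {z : E d} :
    z ∈ Kb n k w w' ↔ z - w k ∈ Kset 1 1 n (shift k w) w' := Iff.rfl

theorem kbb_mem_Kbb {k j : ℕ} {w w' : Path d} {z : E d} :
    z ∈ Kbb k j w w' ↔ z - w k + w' j ∈ Kset 1 1 1 (shift k w) (shift j w') := Iff.rfl

theorem Kb_eq_iUnion {n : ℕ} (hn : 0 < n) (k : ℕ) (w w' : Path d) :
    Kb n k w w' = ⋃ (j : ℕ) (_ : j < n), Kbb k j w w' := by
  have h := Kset_blocks (d := d) 1 1 n 1 1 one_pos hn (shift k w) w'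
  ext z
  rw [kbb_mem_Kb]
  have e1 : Kset 1 1 n (shift k w) w' = Kset 1 (((1 : ℕ) : ℝ≥0) * 1) ((n : ℝ≥0) * 1)
      (shift k w) w' := by simp
  rw [e1, h]
  simp only [Set.mem_iUnion, Set.mem_ofPred_eq, exists_prop, kbb_mem_Kbb]
  constructor
  · rintro ⟨i, hi, j, hj, hz⟩
    obtain rfl : i = 0 := by omega
    refine ⟨j, hj, ?_⟩
    have e2 : shift (((0 : ℕ) : ℝ≥0) * 1) (shift k w) = shift k w := by
      ext s
      simp
    rw [e2] at hz
    have e3 : z - w k - (shift k w) (((0 : ℕ) : ℝ≥0) * 1) + w' ((j : ℝ≥0) * 1) =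
        z - w k + w' j := by simp
    rw [e3] at hz
    rwa [mul_one] at hz
  · rintro ⟨j, hj, hz⟩
    refine ⟨0, one_pos, j, hj, ?_⟩
    have e2 : shift (((0 : ℕ) : ℝ≥0) * 1) (shift k w) = shift k w := by
      ext s
      simp
    rw [e2]
    have e3 : z - w k - (shift k w) (((0 : ℕ) : ℝ≥0) * 1) + w' ((j : ℝ≥0) * 1) =
        z - w k + w' j := by simp
    rw [e3]
    rwa [mul_one]

theorem norm_le_of_mem_Kbb {k j : ℕ} {w w' : Path d} {z : E d} (h : z ∈ Kbb k j w w') :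
    ‖z - w (k + 1) + w' j‖ₑ ≤ 1 + 2 * rg 1 (shift k w) + rg 1 (shift j w') := by
  rw [kbb_mem_Kbb] at h
  have h1 : ‖z - w k + w' j‖ₑ ≤ ((1 : ℝ≥0) : ℝ≥0∞) + rg 1 (shift k w) + rg 1 (shift j w') := by
    apply enorm_le_of_mem_Kset
    simpa using h
  have h2 : ‖shift k w 1‖ₑ ≤ rg 1 (shift k w) := enorm_le_rg le_rfl _
  have e : z - w (k + 1) + w' j = (z - w k + w' j) - shift k w 1 := by
    rw [shift_apply]; abel
  rw [e]
  calc ‖(z - w k + w' j) - shift k w 1‖ₑ ≤ ‖z - w k + w' j‖ₑ + ‖shift k w 1‖ₑ := enorm_sub_le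
    _ ≤ (((1 : ℝ≥0) : ℝ≥0∞) + rg 1 (shift k w) + rg 1 (shift j w')) + rg 1 (shift k w) := by
        gcongr
    _ = 1 + 2 * rg 1 (shift k w) + rg 1 (shift j w') := by
        rw [ENNReal.coe_one]; ring

theorem volume_Kbb (k j : ℕ) (w w' : Path d) :
    volume (Kbb k j w w') = Vol 1 1 1 (shift k w) (shift j w') := by
  unfold Vol
  rw [← volume_add_mem (w' j - w k) (Kset 1 1 1 (shift k w) (shift j w'))]
  congr 1
  ext z
  rw [kbb_mem_Kbb, Set.mem_ofPred_eq]
  have : z - w k + w' j = z + (w' j - w k) := by abel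
  rw [this]

theorem kbb_stop_apply {l k : ℕ} (h : l ≤ k) (w : Path d) :
    stop ((k : ℝ≥0) + 1) w (l : ℝ≥0) = w l := by
  have h1 : (l : ℝ≥0) ≤ (k : ℝ≥0) + 1 := by
    calc (l : ℝ≥0) ≤ (k : ℝ≥0) := by exact_mod_cast h
      _ ≤ k + 1 := le_self_add
  rw [stop_apply, min_eq_left h1]

theorem kbb_shift_stop {l k : ℕ} (h : l ≤ k) (w : Path d) {u : ℝ≥0} (hu : u ≤ 1) :
    shift l (stop ((k : ℝ≥0) + 1) w) u = shift l w u := by
  have h0 : (l : ℝ≥0) ≤ (k : ℝ≥0) := by exact_mod_cast h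
  have h1 : (l : ℝ≥0) + u ≤ (k : ℝ≥0) + 1 := by gcongr
  rw [shift_apply, shift_apply, kbb_stop_apply h, stop_apply, min_eq_left h1]

theorem kbb_Kset_stop {l k : ℕ} (h : l ≤ k) (t : ℝ≥0) (w w' : Path d) :
    Kset 1 1 t (shift l (stop ((k : ℝ≥0) + 1) w)) w' = Kset 1 1 t (shift l w) w' := by
  ext z
  rw [mem_Kset, mem_Kset]
  constructor
  · rintro ⟨u, hu, v, hv, hz⟩
    refine ⟨u, hu, v, hv, ?_⟩
    rwa [kbb_shift_stop h w hu] at hz
  · rintro ⟨u, hu, v, hv, hz⟩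
    refine ⟨u, hu, v, hv, ?_⟩
    rwa [kbb_shift_stop h w hu]

theorem kbb_Kb_stop {n l k : ℕ} (h : l ≤ k) (w w' : Path d) :
    Kb n l (stop ((k : ℝ≥0) + 1) w) w' = Kb n l w w' := by
  ext z
  rw [kbb_mem_Kb, kbb_mem_Kb, kbb_Kset_stop h, kbb_stop_apply h]

theorem kbb_Kbb_stop {l k : ℕ} (h : l ≤ k) (j : ℕ) (w w' : Path d) :
    Kbb l j (stop ((k : ℝ≥0) + 1) w) w' = Kbb l j w w' := by
  ext z
  rw [kbb_mem_Kbb, kbb_mem_Kbb, kbb_Kset_stop h, kbb_stop_apply h]

theorem kbb_Kg_stop (A : ℕ → Set (Path d)) (n : ℕ) {l k : ℕ} (h : l ≤ k) (w w' : Path d) :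
    Kg A n l (stop ((k : ℝ≥0) + 1) w) w' = Kg A n l w w' := by
  unfold Kg
  simp only [kbb_Kbb_stop h]

/-- `Fb n k` only depends on `w` up to time `k + 1`. -/
theorem Fb_stop (n k : ℕ) (w w' : Path d) : Fb n k (stop (k + 1) w) w' = Fb n k w w' := by
  unfold Fb
  rw [kbb_Kb_stop le_rfl]
  congr 1
  exact Set.iUnion_congr fun l => Set.iUnion_congr fun hl => kbb_Kb_stop hl.le w w'

theorem Fg_stop (A : ℕ → Set (Path d)) (n k : ℕ) (w w' : Path d) :
    Fg A n k (stop (k + 1) w) w' = Fg A n k w w' := by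
  unfold Fg
  rw [kbb_Kg_stop A n le_rfl]
  congr 1
  exact Set.iUnion_congr fun l => Set.iUnion_congr fun hl => kbb_Kg_stop A n hl.le w w'

theorem kbb_measurableSet_Kb (n k : ℕ) :
    MeasurableSet {p : E d × Path d × Path d | p.1 ∈ Kb n k p.2.1 p.2.2} := by
  have hm : Measurable (fun p : E d × Path d × Path d =>
      ((p.1 - p.2.1 (k : ℝ≥0), shift (k : ℝ≥0) p.2.1, p.2.2) : E d × Path d × Path d)) := by
    refine Measurable.prodMk ?_ (Measurable.prodMk ?_ ?_)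
    · exact measurable_fst.sub ((measurable_eval (k : ℝ≥0)).comp
        (measurable_fst.comp measurable_snd))
    · exact (measurable_shift (k : ℝ≥0)).comp (measurable_fst.comp measurable_snd)
    · exact measurable_snd.comp measurable_snd
  exact hm (measurableSet_Kset_prod (d := d) 1 1 n)

theorem kbb_measurableSet_Kbb (k j : ℕ) :
    MeasurableSet {p : E d × Path d × Path d | p.1 ∈ Kbb k j p.2.1 p.2.2} := by
  have hm : Measurable (fun p : E d × Path d × Path d =>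
      ((p.1 - p.2.1 (k : ℝ≥0) + p.2.2 (j : ℝ≥0), shift (k : ℝ≥0) p.2.1,
        shift (j : ℝ≥0) p.2.2) : E d × Path d × Path d)) := by
    refine Measurable.prodMk ?_ (Measurable.prodMk ?_ ?_)
    · exact (measurable_fst.sub ((measurable_eval (k : ℝ≥0)).comp
        (measurable_fst.comp measurable_snd))).add ((measurable_eval (j : ℝ≥0)).comp
        (measurable_snd.comp measurable_snd))
    · exact (measurable_shift (k : ℝ≥0)).comp (measurable_fst.comp measurable_snd)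
    · exact (measurable_shift (j : ℝ≥0)).comp (measurable_snd.comp measurable_snd)
  exact hm (measurableSet_Kset_prod (d := d) 1 1 1)

theorem kbb_measurableSet_Kg {A : ℕ → Set (Path d)} (hA : ∀ j, MeasurableSet (A j)) (n k : ℕ) :
    MeasurableSet {p : E d × Path d × Path d | p.1 ∈ Kg A n k p.2.1 p.2.2} := by
  have e : {p : E d × Path d × Path d | p.1 ∈ Kg A n k p.2.1 p.2.2} =
      ⋃ (j : ℕ), {p | j < n} ∩ ({p | p.2.2 ∈ A j} ∩ {p | p.1 ∈ Kbb k j p.2.1 p.2.2}) := by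
    ext p
    simp only [Kg, Set.mem_ofPred_eq, Set.mem_iUnion, exists_prop, Set.mem_inter_iff]
  rw [e]
  refine MeasurableSet.iUnion fun j => ?_
  refine (MeasurableSet.const _).inter (MeasurableSet.inter ?_ (kbb_measurableSet_Kbb k j))
  exact (measurable_snd.comp measurable_snd) (hA j)

theorem measurableSet_Fb (n k : ℕ) :
    MeasurableSet {p : E d × Path d × Path d | p.1 ∈ Fb n k p.2.1 p.2.2} := by
  have e : {p : E d × Path d × Path d | p.1 ∈ Fb n k p.2.1 p.2.2} =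
      {p | p.1 ∈ Kb n k p.2.1 p.2.2} \ ⋃ (l : ℕ), {p | l < k} ∩ {p | p.1 ∈ Kb n l p.2.1 p.2.2} := by
    ext p
    simp only [Fb, Set.mem_ofPred_eq, Set.mem_sdiff, Set.mem_iUnion, exists_prop, Set.mem_inter_iff]
  rw [e]
  exact (kbb_measurableSet_Kb n k).diff
    (MeasurableSet.iUnion fun l => (MeasurableSet.const _).inter (kbb_measurableSet_Kb n l))

theorem measurableSet_Fg {A : ℕ → Set (Path d)} (hA : ∀ j, MeasurableSet (A j)) (n k : ℕ) :
    MeasurableSet {p : E d × Path d × Path d | p.1 ∈ Fg A n k p.2.1 p.2.2} := by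
  have e : {p : E d × Path d × Path d | p.1 ∈ Fg A n k p.2.1 p.2.2} =
      {p | p.1 ∈ Kg A n k p.2.1 p.2.2} \
        ⋃ (l : ℕ), {p | l < k} ∩ {p | p.1 ∈ Kg A n l p.2.1 p.2.2} := by
    ext p
    simp only [Fg, Set.mem_ofPred_eq, Set.mem_sdiff, Set.mem_iUnion, exists_prop, Set.mem_inter_iff]
  rw [e]
  exact (kbb_measurableSet_Kg hA n k).diff
    (MeasurableSet.iUnion fun l => (MeasurableSet.const _).inter (kbb_measurableSet_Kg hA n l))

theorem measurable_Phi {μ : Measure (Path d)} [IsProbabilityMeasure μ] (s n : ℝ≥0) :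
    Measurable (fun p : Path d × E d => Phi μ s n p.1 p.2) := by
  unfold Phi
  exact (measurable_LT (d := d) s n).lintegral_prod_left'

end WSP
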