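import Pool.Agent.Lib_MP_c175fd.Theta

/-!
# Pieces G4, THETA, MK, UPE: potential theory in dimension four

* THETA: `E ‖w v‖^(-2) = 1 / (2 v)` in dimension four: `x^(-1) = ∫_0^∞ exp (-s x) ds` and
  `E exp (-s ‖w v‖^2) = (1 + 2 s v)^(-2)` (product of four one dimensional Gaussian integrals).
* G4: `Gk s x` is the expected time before `s` spent by the path in the unit ball around `x`. Since
  `∫_0^s (2 π u)^(-2) exp (-a^2/(2u)) du = exp (-a^2/(2 s)) / (2 π^2 a^2)` for `a > 0` (derivative in `s`;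
  the limit at `0+` is `0`), Tonelli gives `Gk s x = ∫_{y ∈ ball x 1} exp (-‖y‖^2/(2s)) / (2 π^2 ‖y‖^2) dy`,
  hence the lower bound (`‖y‖ ≤ ‖x‖ + 1`), the upper bound (`‖y‖ ≥ ‖x‖ - 1`) and the bound by a constant
  (the integral of `‖y‖^(-2)` over a unit ball of `ℝ^4` is bounded, or use `1 ∧ C u^(-2)`).
* MK: Markov property at time `a` for the local time after `a`.
* `lintegral_Gk_le`: mean of `Gk` at a shifted path; use the density bounds of `w u` and of the
  increment of `w'` (as in `pair_le`): the probability is at most `min 1 (C max(u, |v-j|)^(-2))`.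
-/

open MeasureTheory ProbabilityTheory Filter Topology
open scoped ENNReal NNReal

namespace WSP

private theorem upe_measurable_cu (C : ℝ≥0) (ε K : ℝ) : Measurable (cu C ε K) := by
  unfold cu
  refine Measurable.ite (measurableSet_le measurable_norm measurable_const) measurable_const ?_
  exact (((measurable_norm.pow_const (-2 : ℤ)).const_mul (1 + ε)).ennreal_ofReal).const_mul _

private theorem upe_lintegral_sq {a n : ℝ} (ha : 0 < a) (hn : a ≤ n) :
    ∫⁻ v in Set.Ioc a n, ENNReal.ofReal (v ^ (-2 : ℤ)) ≤ ENNReal.ofReal (1 / a) := by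
  have h0 : (0 : ℝ) ∉ Set.uIcc a n := by
    rw [Set.uIcc_of_le hn]
    intro h
    exact absurd h.1 (not_le.2 ha)
  have hint : IntervalIntegrable (fun v : ℝ => v ^ (-2 : ℤ)) volume a n :=
    intervalIntegral.intervalIntegrable_zpow (Or.inr h0)
  have hint' : Integrable (fun v : ℝ => v ^ (-2 : ℤ)) (volume.restrict (Set.Ioc a n)) :=
    (intervalIntegrable_iff_integrableOn_Ioc_of_le hn).1 hint
  rw [← ofReal_integral_eq_lintegral_ofReal hint'
    (ae_restrict_of_forall_mem measurableSet_Ioc fun v hv => by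
      have : 0 < v := lt_trans ha hv.1
      positivity), ← intervalIntegral.integral_of_le hn, integral_zpow (Or.inr ⟨by norm_num, h0⟩)]
  apply ENNReal.ofReal_le_ofReal
  have hn0 : 0 < n := lt_of_lt_of_le ha hn
  have e1 : (n ^ ((-2 : ℤ) + 1) - a ^ ((-2 : ℤ) + 1)) / (((-2 : ℤ) : ℝ) + 1) = 1 / a - 1 / n := by
    norm_num
    ring
  rw [e1]
  have : 0 < 1 / n := by positivity
  linarith

private theorem upe_lintegral_inv {a n : ℝ} (ha : 0 < a) (hn : a ≤ n) :
    ∫⁻ v in Set.Ioc a n, ENNReal.ofReal (1 / (2 * v)) = ENNReal.ofReal (Real.log (n / a) / 2) := by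
  have hn0 : 0 < n := lt_of_lt_of_le ha hn
  have h0 : (0 : ℝ) ∉ Set.uIcc a n := by
    rw [Set.uIcc_of_le hn]
    intro h
    exact absurd h.1 (not_le.2 ha)
  have hint : IntervalIntegrable (fun v : ℝ => 1 / (2 * v)) volume a n := by
    apply ContinuousOn.intervalIntegrable
    apply ContinuousOn.div continuousOn_const (by fun_prop)
    intro x hx h
    have : x = 0 := by linarith
    rw [this] at hx
    exact h0 hx
  have hint' : Integrable (fun v : ℝ => 1 / (2 * v)) (volume.restrict (Set.Ioc a n)) :=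
    (intervalIntegrable_iff_integrableOn_Ioc_of_le hn).1 hint
  rw [← ofReal_integral_eq_lintegral_ofReal hint'
    (ae_restrict_of_forall_mem measurableSet_Ioc fun v hv => by
      have : 0 < v := lt_trans ha hv.1
      positivity), ← intervalIntegral.integral_of_le hn]
  congr 1
  have e : (fun v : ℝ => 1 / (2 * v)) = fun v : ℝ => (1 / 2) * (1 / v) := by
    funext v
    rw [one_div_mul_one_div]
  rw [e, intervalIntegral.integral_const_mul, integral_one_div_of_pos ha hn0]
  ring

private theorem upe_point {μ : Measure (Path 4)} (h : IsWiener μ) (C : ℝ≥0) {ε K : ℝ} (hε : 0 ≤ ε)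
    (hK : 0 ≤ K) {v : ℝ} (hv : 0 < v) :
    ∫⁻ w, cu C ε K (w v.toNNReal) ∂μ ≤
      C * volume (Metric.ball (0 : E 4) 1) * ENNReal.ofReal (K ^ 4) * ENNReal.ofReal (v ^ (-2 : ℤ)) +
        cB * ENNReal.ofReal (1 + ε) * ENNReal.ofReal (1 / (2 * v)) := by
  have hv' : v.toNNReal ≠ 0 := by simpa using hv
  have hvc : ((v.toNNReal : ℝ≥0) : ℝ) = v := Real.coe_toNNReal v hv.le
  have hmK : MeasurableSet (Metric.closedBall (0 : E 4) K) := Metric.isClosed_closedBall.measurableSet
  have hm1 : MeasurableSet {w : Path 4 | w v.toNNReal ∈ Metric.closedBall (0 : E 4) K} :=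
    measurable_eval _ hmK
  have hpt : ∀ w : Path 4, cu C ε K (w v.toNNReal) ≤
      (C : ℝ≥0∞) * Set.indicator {w : Path 4 | w v.toNNReal ∈ Metric.closedBall (0 : E 4) K} 1 w +
        cB * ENNReal.ofReal (1 + ε) * ENNReal.ofReal (‖w v.toNNReal‖ ^ (-2 : ℤ)) := by
    intro w
    unfold cu
    split_ifs with hc
    · have : w ∈ {w : Path 4 | w v.toNNReal ∈ Metric.closedBall (0 : E 4) K} := by
        simpa using hc
      rw [Set.indicator_of_mem this]
      simp
    · rw [ENNReal.ofReal_mul (by positivity), ← mul_assoc]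
      exact le_add_left le_rfl
  refine (lintegral_mono hpt).trans ?_
  have hmn : Measurable (fun w : Path 4 => ENNReal.ofReal (‖w v.toNNReal‖ ^ (-2 : ℤ))) :=
    (((measurable_eval v.toNNReal).norm).pow_const (-2 : ℤ)).ennreal_ofReal
  rw [lintegral_add_right _ (hmn.const_mul _), lintegral_const_mul _ (measurable_one.indicator hm1),
    lintegral_const_mul _ hmn, lintegral_indicator_one hm1, h.inv_sq_mean hv', hvc]
  refine add_le_add ?_ le_rfl
  rw [mul_assoc (C : ℝ≥0∞), mul_assoc (C : ℝ≥0∞), mul_assoc (volume _)]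
  refine mul_le_mul_right ?_ _
  refine (h.prob_eval_le hv' hmK).trans ?_
  rw [hvc, Measure.addHaar_closedBall _ _ hK, finrank_euclideanSpace_fin]
  calc ENNReal.ofReal ((2 * Real.pi * v) ^ (-((4 : ℕ) : ℝ) / 2)) *
        (ENNReal.ofReal (K ^ 4) * volume (Metric.ball (0 : E 4) 1))
      ≤ ENNReal.ofReal (v ^ (-2 : ℤ)) * (ENNReal.ofReal (K ^ 4) * volume (Metric.ball (0 : E 4) 1)) := by
        gcongr
        have e1 : (-((4 : ℕ) : ℝ) / 2) = ((-2 : ℤ) : ℝ) := by norm_num
        rw [e1, Real.rpow_intCast]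
        rw [zpow_neg, zpow_neg]
        apply inv_anti₀ (by positivity)
        have hle : v ≤ 2 * Real.pi * v := by
          have h3 := Real.pi_gt_three
          nlinarith
        have : v ^ 2 ≤ (2 * Real.pi * v) ^ 2 := by gcongr
        exact_mod_cast this
    _ = volume (Metric.ball (0 : E 4) 1) * (ENNReal.ofReal (K ^ 4) * ENNReal.ofReal (v ^ (-2 : ℤ))) := by
        ring

/-- Piece UPE: mean of the upper functional. `P (‖w v‖ ≤ K) ≤ C' K^4 / v^2` for the first part,
`inv_sq_mean` for the second. -/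
theorem IsWiener.upper_mean {μ : Measure (Path 4)} (h : IsWiener μ) :
    ∃ C' : ℝ≥0, ∀ (C : ℝ≥0) (ε K : ℝ), 0 ≤ ε → 0 ≤ K → ∀ a n : ℝ, 0 < a → a ≤ n →
      ∫⁻ w, (∫⁻ v in Set.Ioc a n, cu C ε K (w v.toNNReal)) ∂μ ≤
        C * C' * ENNReal.ofReal (K ^ 4 / a) +
          cB * ENNReal.ofReal ((1 + ε) * (Real.log (n / a) / 2)) := by
  have := h.isProb
  have hfin : volume (Metric.ball (0 : E 4) 1) ≠ ∞ := measure_ball_lt_top.ne
  refine ⟨(volume (Metric.ball (0 : E 4) 1)).toNNReal, fun C ε K hε hK a n ha hn => ?_⟩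
  rw [ENNReal.coe_toNNReal hfin]
  have hmeas : Measurable (fun p : Path 4 × ℝ => cu C ε K (p.1 p.2.toNNReal)) :=
    (upe_measurable_cu C ε K).comp
      (measurable_eval_prod.comp (measurable_fst.prodMk (measurable_real_toNNReal.comp measurable_snd)))
  rw [lintegral_lintegral_swap hmeas.aemeasurable]
  have hm2 : Measurable (fun v : ℝ => ENNReal.ofReal (v ^ (-2 : ℤ))) :=
    (measurable_id.pow_const (-2 : ℤ)).ennreal_ofReal
  have hm3 : Measurable (fun v : ℝ => ENNReal.ofReal (1 / (2 * v))) := by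
    apply Measurable.ennreal_ofReal
    fun_prop
  calc ∫⁻ v in Set.Ioc a n, (∫⁻ w, cu C ε K (w v.toNNReal) ∂μ)
      ≤ ∫⁻ v in Set.Ioc a n, (C * volume (Metric.ball (0 : E 4) 1) * ENNReal.ofReal (K ^ 4) *
          ENNReal.ofReal (v ^ (-2 : ℤ)) + cB * ENNReal.ofReal (1 + ε) * ENNReal.ofReal (1 / (2 * v))) := by
        refine setLIntegral_mono ((hm2.const_mul _).add (hm3.const_mul _)) fun v hv => ?_
        exact upe_point h C hε hK (lt_trans ha hv.1)
    _ = C * volume (Metric.ball (0 : E 4) 1) * ENNReal.ofReal (K ^ 4) *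
          (∫⁻ v in Set.Ioc a n, ENNReal.ofReal (v ^ (-2 : ℤ))) +
          cB * ENNReal.ofReal (1 + ε) * ∫⁻ v in Set.Ioc a n, ENNReal.ofReal (1 / (2 * v)) := by
        rw [lintegral_add_left (hm2.const_mul _), lintegral_const_mul _ hm2, lintegral_const_mul _ hm3]
    _ ≤ C * volume (Metric.ball (0 : E 4) 1) * ENNReal.ofReal (K ^ 4) * ENNReal.ofReal (1 / a) +
          cB * ENNReal.ofReal (1 + ε) * ENNReal.ofReal (Real.log (n / a) / 2) := by
        rw [upe_lintegral_inv ha hn]
        gcongr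
        exact upe_lintegral_sq ha hn
    _ = C * volume (Metric.ball (0 : E 4) 1) * ENNReal.ofReal (K ^ 4 / a) +
          cB * ENNReal.ofReal ((1 + ε) * (Real.log (n / a) / 2)) := by
        rw [ENNReal.ofReal_mul (by positivity : (0 : ℝ) ≤ 1 + ε), mul_assoc cB, mul_assoc (_ * _) (ENNReal.ofReal (K ^ 4)),
          ← ENNReal.ofReal_mul (by positivity : (0 : ℝ) ≤ K ^ 4), mul_one_div]

end WSP
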