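import Pool.Agent.Lib_MP_c175fd.LoDefs
import Pool.Agent.Lib_MP_c175fd.GoodJ
import Pool.Agent.Lib_MP_c175fd.UpE

/-!
# Pieces LOA, LOB, LOC, LOD, LOE: lower bound of `EV 1 n n` in dimension four

LOA: `Psi C ε K a n j w'` is an upper bound of `Phi n n w' y` for `‖y + w' j‖ ≤ ϖ`, whose mean is
`≤ (1 + 2 ε) cB log n`; it is also `≥ (1 - 3 ε) cB log n` with high probability, so it is rarely larger
than `(1 + √ε) cB log n`.

LOB (`lo_core`): for measurable sets `A j` of paths, let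
`LTg w w' z = ∑_{j < n, w' ∈ A j} LT n 1 w (shift j w') (z + w' j)`. Its integral over `z` is
`n |B| #{j < n | w' ∈ A j}`; it vanishes outside `⋃_{k<n} Fg A n k w w'` (if a pair of times
`(u, v)` with `u ∈ (k, k+1]`, `v ∈ (j, j+1]` contributes then `z ∈ Kbb k j`), and for `z ∈ Fg A n k` the times
`u ≤ k` do not contribute (except a null set), the times `u ∈ (k, k+1]` contribute at most
`LT 1 n (shift k w) w' (z - w k)` and the times `u > k + 1` at most
`LT (n-1-k) n (shift (k+1) w) w' (z - w (k+1))`. Take means and use `lintegral_future`, `Fg_stop`.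

LOC (`lo_first`): `x ≤ B₀ + B₀⁻¹ x ^ 2` pointwise; the sets `Fg A n k` are disjoint subsets of
`Kset 1 n n w w'`; translation invariance and `map_shift`.

LOD (`lo_second`): for `z ∈ Fg A n k` there is `j < n` with `w' ∈ A j`, `z ∈ Kbb k j`; if
`rg 1 (shift k w) ≤ (ϖ-1)/3` then `‖z - w (k+1) + w' j‖ ≤ ϖ` and `Phi (n-1-k) n ≤ Phi n n ≤ lam`. Otherwise
`∫_{Fg A n k} Phi n n w' (z - w (k+1)) dz ≤ ∑_{j<n} ∫_{‖y‖ ≤ 1 + 2 rg 1 (shift k w) + ϖ} Phi n n w' (y - w' j) dy`,
integrate over `w'` first (`lintegral_Phi_le`), `shift k w` is independent of `w'` and has law `μ`.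

LOE: assembly, see the formulas in the docstrings of the statements: with `ϖ = (log n)^(1/16)`,
`a = √(log n)`, `K = K₁ (ϖ + 1)`, `B₀ = √(log n)`, `lam = ofReal ((1 + √ε) log n) * cB`,
`A j = {w' | Psi j w' ≤ lam, rg 1 (shift j w') ≤ (ϖ-1)/3}` for `n^(1-ε) ≤ j ≤ n - n^(1-ε)`, empty otherwise:
`(1 - 8√ε) n^2 |B| ≤ (B₀ + lam) EV + C n^2 / B₀ + C n^2 log n (log n)^(-3)`; `|B| / cB = 2 π^2`.
-/

open MeasureTheory ProbabilityTheory Filter Topology
open scoped ENNReal NNReal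

namespace WSP

variable {d : ℕ}

theorem measurable_cu (C : ℝ≥0) (ε K : ℝ) : Measurable (cu C ε K) := by
  unfold cu
  refine Measurable.ite ?_ measurable_const ?_
  · exact (measurableSet_le measurable_norm measurable_const)
  · exact ((measurable_norm.pow_const (-2 : ℤ)).const_mul (1+ε)).ennreal_ofReal.const_mul cB

theorem measurable_cu_path (C : ℝ≥0) (ε K : ℝ) {F : Path 4 → Path 4} (hF : Measurable F) :
    Measurable (fun p : Path 4 × ℝ => cu C ε K (F p.1 p.2.toNNReal)) := by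
  refine (measurable_cu C ε K).comp ?_
  exact measurable_eval_prod.comp ((hF.comp measurable_fst).prodMk
    (measurable_real_toNNReal.comp measurable_snd))

theorem measurable_lintegral_cu (C : ℝ≥0) (ε K a b : ℝ) {F : Path 4 → Path 4}
    (hF : Measurable F) :
    Measurable (fun w : Path 4 => ∫⁻ v in Set.Ioc a b, cu C ε K (F w v.toNNReal)) :=
  (measurable_cu_path C ε K hF).lintegral_prod_right'

theorem measurable_Psi (C : ℝ≥0) (ε K a : ℝ) (n j : ℕ) : Measurable (Psi C ε K a n j) := by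
  unfold Psi
  exact (measurable_const.add (measurable_lintegral_cu C ε K a n (measurable_shift j))).add
    (measurable_lintegral_cu C ε K a j (measurable_rev j))

theorem loa_real {ε K₁ ϖ r ρ : ℝ} (hε : 0 < ε) (hK : K₁ = 2 + 4 / ε) (hϖ : 0 ≤ ϖ)
    (hr : K₁ * (ϖ + 1) < r) (hρ : r - ϖ - 1 ≤ ρ) :
    0 < ρ ∧ ρ ^ (-2 : ℤ) ≤ (1 + ε) * r ^ (-2 : ℤ) := by
  have hK2 : 2 < K₁ := by
    rw [hK]
    have : 0 < 4 / ε := by positivity
    linarith
  have hr0 : 0 < r := by nlinarith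
  have h1 : ϖ + 1 ≤ r / K₁ := by
    rw [le_div_iff₀ (by linarith)]
    nlinarith
  have h2 : r * (1 - 1 / K₁) ≤ ρ := by
    have : r * (1 - 1 / K₁) = r - r / K₁ := by ring
    rw [this]; linarith
  have h3 : 0 < 1 - 1 / K₁ := by
    have : 1 / K₁ < 1 := by
      rw [div_lt_one (by linarith)]; linarith
    linarith
  have hρ0 : 0 < ρ := lt_of_lt_of_le (by positivity) h2
  refine ⟨hρ0, ?_⟩
  have h4 : 1 / (1 + ε) ≤ (1 - 1 / K₁) ^ 2 := by
    have h5 : 1 - 2 / K₁ ≤ (1 - 1 / K₁) ^ 2 := by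
      have : (1 - 1 / K₁) ^ 2 = 1 - 2 / K₁ + (1 / K₁) ^ 2 := by ring
      rw [this]
      have := sq_nonneg (1 / K₁)
      linarith
    refine le_trans ?_ h5
    rw [hK]
    have h6 : 1 - 2 / (2 + 4 / ε) = 2 / (ε + 2) := by
      field_simp
      ring
    rw [h6, div_le_div_iff₀ (by linarith) (by linarith)]
    linarith
  have h7 : r ^ 2 * (1 / (1 + ε)) ≤ ρ ^ 2 := by
    calc r ^ 2 * (1 / (1 + ε)) ≤ r ^ 2 * (1 - 1 / K₁) ^ 2 := by gcongr
      _ = (r * (1 - 1 / K₁)) ^ 2 := by ring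
      _ ≤ ρ ^ 2 := by
          apply pow_le_pow_left₀ (by positivity) h2
  have h8 : r ^ 2 ≤ (1 + ε) * ρ ^ 2 := by
    have : r ^ 2 * (1 / (1 + ε)) * (1 + ε) ≤ ρ ^ 2 * (1 + ε) := by gcongr
    have h9 : r ^ 2 * (1 / (1 + ε)) * (1 + ε) = r ^ 2 := by field_simp
    rw [h9] at this
    linarith
  have e1 : ρ ^ (-2 : ℤ) = 1 / ρ ^ 2 := by
    rw [zpow_neg, one_div]; norm_cast
  have e2 : r ^ (-2 : ℤ) = 1 / r ^ 2 := by
    rw [zpow_neg, one_div]; norm_cast
  rw [e1, e2, mul_one_div, div_le_div_iff₀ (by positivity) (by positivity)]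
  linarith

theorem IsWiener.Gk_le_cu {μ : Measure (Path 4)} (h : IsWiener μ) {ε : ℝ} (hε : 0 < ε)
    {C : ℝ≥0} (hC : ∀ (s : ℝ≥0) (x : E 4), Gk μ s x ≤ C) {ϖ : ℝ} (hϖ : 0 ≤ ϖ) (s : ℝ≥0)
    {x y : E 4} (hxy : ‖y - x‖ ≤ ϖ ∨ ‖y + x‖ ≤ ϖ) :
    Gk μ s y ≤ cu C ε ((2 + 4 / ε) * (ϖ + 1)) x := by
  unfold cu
  split_ifs with hx
  · exact hC s y
  · push Not at hx
    have hy : ‖x‖ - ϖ - 1 ≤ ‖y‖ - 1 := by
      have : ‖x‖ ≤ ‖y‖ + ϖ := by
        rcases hxy with hxy | hxy
        · calc ‖x‖ = ‖y - (y - x)‖ := by congr 1; abel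
            _ ≤ ‖y‖ + ‖y - x‖ := norm_sub_le _ _
            _ ≤ ‖y‖ + ϖ := by linarith
        · calc ‖x‖ = ‖(y + x) - y‖ := by congr 1; abel
            _ ≤ ‖y + x‖ + ‖y‖ := norm_sub_le _ _
            _ ≤ ‖y‖ + ϖ := by linarith
      linarith
    obtain ⟨h1, h2⟩ := loa_real hε rfl hϖ hx hy
    refine (h.Gk_upper s (by linarith)).trans ?_
    gcongr

/-- Piece LOA, deterministic part: `K₁` depends on `ε` only. -/
theorem IsWiener.Phi_le_Psi {μ : Measure (Path 4)} (h : IsWiener μ) {ε : ℝ} (hε : 0 < ε) :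
    ∃ (C : ℝ≥0) (K₁ : ℝ), 1 ≤ K₁ ∧ ∀ (ϖ a : ℝ), 0 ≤ ϖ → 0 ≤ a → ∀ (n j : ℕ), j ≤ n →
      ∀ (w' : Path 4) (y : E 4), ‖y + w' j‖ ≤ ϖ →
        Phi μ n n w' y ≤ Psi C ε (K₁ * (ϖ + 1)) a n j w' := by
  obtain ⟨C, hC⟩ := h.Gk_le_const (le_refl 4)
  have := h.isProb
  refine ⟨C, 2 + 4 / ε, ?_, ?_⟩
  · have : 0 < 4 / ε := by positivity
    linarith
  intro ϖ a hϖ ha n j hjn w' y hy
  set K := (2 + 4 / ε) * (ϖ + 1) with hK
  rw [Phi_eq]
  set g : ℝ → ℝ≥0∞ := fun v => Gk μ n (y + w' v.toNNReal) with hg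
  have hgm : Measurable g := by
    have h1 : Measurable (fun v : ℝ => y + w' v.toNNReal) :=
      (measurable_const.add ((w'.cont.measurable).comp measurable_real_toNNReal))
    exact (measurable_Gk _).comp h1
  have hsplit : Set.Ioc (0 : ℝ) ((n : ℝ≥0) : ℝ) ⊆ Set.Ioc (j : ℝ) n ∪ Set.Ioc (0 : ℝ) j := by
    intro v hv
    rw [NNReal.coe_natCast] at hv
    by_cases hvj : v ≤ j
    · exact Or.inr ⟨hv.1, hvj⟩
    · exact Or.inl ⟨lt_of_not_ge hvj, hv.2⟩
  -- future
  have hfut : ∫⁻ v in Set.Ioc (j : ℝ) n, g v ≤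
      ENNReal.ofReal a * C + ∫⁻ v in Set.Ioc a n, cu C ε K (shift j w' v.toNNReal) := by
    rw [← lintegral_indicator measurableSet_Ioc,
      ← lintegral_add_left_eq_self (μ := (volume : Measure ℝ)) _ (j : ℝ)]
    calc ∫⁻ v, (Set.Ioc (j : ℝ) n).indicator g (j + v)
        ≤ ∫⁻ v, ((Set.Ioc (0 : ℝ) a).indicator (fun _ => (C : ℝ≥0∞)) v +
            (Set.Ioc a n).indicator (fun v => cu C ε K (shift j w' v.toNNReal)) v) := by
          refine lintegral_mono fun v => ?_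
          by_cases hv : (j : ℝ) + v ∈ Set.Ioc (j : ℝ) n
          · rw [Set.indicator_of_mem hv]
            have hv0 : 0 < v := by linarith [hv.1]
            have hvn : v ≤ n := by
              have := hv.2
              have hj : (0 : ℝ) ≤ j := by positivity
              linarith
            by_cases hva : v ≤ a
            · rw [Set.indicator_of_mem (show v ∈ Set.Ioc 0 a from ⟨hv0, hva⟩)]
              exact le_add_right (hC _ _)
            · rw [Set.indicator_of_mem (show v ∈ Set.Ioc a n from ⟨lt_of_not_ge hva, hvn⟩)]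
              refine le_add_left ?_
              refine h.Gk_le_cu hε hC hϖ _ (Or.inl ?_)
              have e : ((j : ℝ) + v).toNNReal = (j : ℝ≥0) + v.toNNReal := by
                rw [Real.toNNReal_add (by positivity) hv0.le, Real.toNNReal_natCast]
              have e2 : y + w' ((j : ℝ≥0) + v.toNNReal) - shift j w' v.toNNReal = y + w' j := by
                rw [shift_apply]; abel
              rw [e, e2]
              exact hy
          · rw [Set.indicator_of_notMem hv]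
            exact bot_le
      _ = (∫⁻ v, (Set.Ioc (0 : ℝ) a).indicator (fun _ => (C : ℝ≥0∞)) v) +
            ∫⁻ v, (Set.Ioc a n).indicator (fun v => cu C ε K (shift j w' v.toNNReal)) v := by
          rw [lintegral_add_left]
          exact measurable_const.indicator measurableSet_Ioc
      _ = ENNReal.ofReal a * C + ∫⁻ v in Set.Ioc a n, cu C ε K (shift j w' v.toNNReal) := by
          rw [lintegral_indicator measurableSet_Ioc, lintegral_indicator measurableSet_Ioc,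
            setLIntegral_const, Real.volume_Ioc, sub_zero, mul_comm]
  have hpast : ∫⁻ v in Set.Ioc (0 : ℝ) j, g v ≤
      ENNReal.ofReal a * C + ∫⁻ v in Set.Ioc a j, cu C ε K (rev j w' v.toNNReal) := by
    rw [← lintegral_indicator measurableSet_Ioc,
      ← lintegral_sub_left_eq_self (μ := (volume : Measure ℝ)) _ (j : ℝ)]
    calc ∫⁻ v, (Set.Ioc (0 : ℝ) j).indicator g (j - v)
        ≤ ∫⁻ v, ((Set.Icc (0 : ℝ) a).indicator (fun _ => (C : ℝ≥0∞)) v +
            (Set.Ioc a j).indicator (fun v => cu C ε K (rev j w' v.toNNReal)) v) := by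
          refine lintegral_mono fun v => ?_
          by_cases hv : (j : ℝ) - v ∈ Set.Ioc (0 : ℝ) j
          · rw [Set.indicator_of_mem hv]
            have hv0 : 0 ≤ v := by linarith [hv.2]
            have hvj : v ≤ j := by linarith [hv.1]
            by_cases hva : v ≤ a
            · rw [Set.indicator_of_mem (show v ∈ Set.Icc 0 a from ⟨hv0, hva⟩)]
              exact le_add_right (hC _ _)
            · rw [Set.indicator_of_mem (show v ∈ Set.Ioc a j from ⟨lt_of_not_ge hva, hvj⟩)]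
              refine le_add_left ?_
              refine h.Gk_le_cu hε hC hϖ _ (Or.inr ?_)
              have e : ((j : ℝ) - v).toNNReal = (j : ℝ≥0) - v.toNNReal := by
                rw [NNReal.sub_def, Real.coe_toNNReal v hv0, NNReal.coe_natCast]
              have e2 : y + w' ((j : ℝ≥0) - v.toNNReal) + rev j w' v.toNNReal = y + w' j := by
                rw [rev_apply]; abel
              rw [e, e2]
              exact hy
          · rw [Set.indicator_of_notMem hv]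
            exact bot_le
      _ = (∫⁻ v, (Set.Icc (0 : ℝ) a).indicator (fun _ => (C : ℝ≥0∞)) v) +
            ∫⁻ v, (Set.Ioc a j).indicator (fun v => cu C ε K (rev j w' v.toNNReal)) v := by
          rw [lintegral_add_left]
          exact measurable_const.indicator measurableSet_Icc
      _ = ENNReal.ofReal a * C + ∫⁻ v in Set.Ioc a j, cu C ε K (rev j w' v.toNNReal) := by
          rw [lintegral_indicator measurableSet_Icc, lintegral_indicator measurableSet_Ioc,
            setLIntegral_const, Real.volume_Icc, sub_zero, mul_comm]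
  calc ∫⁻ v in Set.Ioc (0 : ℝ) ((n : ℝ≥0) : ℝ), g v
      ≤ ∫⁻ v in Set.Ioc (j : ℝ) n ∪ Set.Ioc (0 : ℝ) j, g v := lintegral_mono_set hsplit
    _ ≤ (∫⁻ v in Set.Ioc (j : ℝ) n, g v) + ∫⁻ v in Set.Ioc (0 : ℝ) j, g v :=
        lintegral_union_le _ _ _
    _ ≤ (ENNReal.ofReal a * C + ∫⁻ v in Set.Ioc a n, cu C ε K (shift j w' v.toNNReal)) +
        (ENNReal.ofReal a * C + ∫⁻ v in Set.Ioc a j, cu C ε K (rev j w' v.toNNReal)) :=
        add_le_add hfut hpast
    _ = Psi C ε K a n j w' := by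
        unfold Psi
        ring

theorem cB_eq : ∃ c₀ : ℝ, 0 < c₀ ∧ cB = ENNReal.ofReal c₀ := by
  have h1 : volume (Metric.ball (0 : E 4) 1) ≠ ∞ := measure_ball_lt_top.ne
  have h2 : 0 < volume (Metric.ball (0 : E 4) 1) := Metric.measure_ball_pos _ _ one_pos
  refine ⟨(volume (Metric.ball (0 : E 4) 1)).toReal / (2 * Real.pi ^ 2), ?_, ?_⟩
  · have := ENNReal.toReal_pos h2.ne' h1
    positivity
  · unfold cB
    rw [ENNReal.ofReal_div_of_pos (by positivity), ENNReal.ofReal_toReal h1]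

theorem lintegral_cu_map (μ : Measure (Path 4)) (C : ℝ≥0) (ε K a b : ℝ) {F : Path 4 → Path 4}
    (hF : Measurable F) :
    ∫⁻ w', (∫⁻ v in Set.Ioc a b, cu C ε K (w' v.toNNReal)) ∂(μ.map F) =
      ∫⁻ w', (∫⁻ v in Set.Ioc a b, cu C ε K (F w' v.toNNReal)) ∂μ :=
  lintegral_map (f := fun w : Path 4 => ∫⁻ v in Set.Ioc a b, cu C ε K (w v.toNNReal))
    (measurable_lintegral_cu C ε K a b measurable_id) hF

theorem IsWiener.Psi_mean {μ : Measure (Path 4)} (h : IsWiener μ) :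
    ∃ C' : ℝ≥0, ∀ (C : ℝ≥0) (ε K : ℝ), 0 ≤ ε → 0 ≤ K → ∀ (a : ℝ) (n j : ℕ), 1 ≤ a → a ≤ j →
      j ≤ n →
      ∫⁻ w', Psi C ε K a n j w' ∂μ ≤ 2 * ENNReal.ofReal a * C +
        2 * (C * C' * ENNReal.ofReal (K ^ 4 / a)) +
          cB * ENNReal.ofReal ((1 + ε) * Real.log n) := by
  obtain ⟨C', hC'⟩ := h.upper_mean
  have := h.isProb
  refine ⟨C', fun C ε K hε hK a n j ha haj hjn => ?_⟩
  have hjn' : (j : ℝ) ≤ n := by exact_mod_cast hjn
  have hn1 : (1 : ℝ) ≤ n := by linarith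
  have hlog : ∀ b : ℝ, a ≤ b → b ≤ n → Real.log (b / a) / 2 ≤ Real.log n / 2 := by
    intro b hab hbn
    have : Real.log (b / a) ≤ Real.log n := by
      apply Real.log_le_log
      · have : 0 < b := by linarith
        positivity
      · rw [div_le_iff₀ (by linarith)]
        nlinarith
    linarith
  have hA : ∫⁻ w', (∫⁻ v in Set.Ioc a n, cu C ε K (shift j w' v.toNNReal)) ∂μ ≤
      C * C' * ENNReal.ofReal (K ^ 4 / a) +
          cB * ENNReal.ofReal ((1 + ε) * (Real.log n / 2)) := by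
    have e : ∫⁻ w', (∫⁻ v in Set.Ioc a n, cu C ε K (shift j w' v.toNNReal)) ∂μ =
        ∫⁻ w', (∫⁻ v in Set.Ioc a n, cu C ε K (w' v.toNNReal)) ∂μ := by
      rw [← lintegral_cu_map μ C ε K a n (measurable_shift _), h.map_shift]
    rw [e]
    refine (hC' C ε K hε hK a n (by linarith) (by linarith)).trans ?_
    have := hlog n (by linarith) le_rfl
    gcongr
  have hB : ∫⁻ w', (∫⁻ v in Set.Ioc a j, cu C ε K (rev j w' v.toNNReal)) ∂μ ≤
      C * C' * ENNReal.ofReal (K ^ 4 / a) +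
          cB * ENNReal.ofReal ((1 + ε) * (Real.log n / 2)) := by
    have e : ∫⁻ w', (∫⁻ v in Set.Ioc a j, cu C ε K (rev j w' v.toNNReal)) ∂μ =
        ∫⁻ w', (∫⁻ v in Set.Ioc a j, cu C ε K (w' v.toNNReal)) ∂μ := by
      calc ∫⁻ w', (∫⁻ v in Set.Ioc a j, cu C ε K (rev j w' v.toNNReal)) ∂μ
          = ∫⁻ w', (∫⁻ v in Set.Ioc a j, cu C ε K (w' v.toNNReal)) ∂(μ.map (rev j)) :=
            (lintegral_cu_map μ C ε K a j (measurable_rev _)).symm
        _ = ∫⁻ w', (∫⁻ v in Set.Ioc a j, cu C ε K (w' v.toNNReal)) ∂(μ.map (stop j)) := by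
            rw [h.map_rev]
        _ = ∫⁻ w', (∫⁻ v in Set.Ioc a j, cu C ε K (stop j w' v.toNNReal)) ∂μ :=
            lintegral_cu_map μ C ε K a j (measurable_stop _)
        _ = _ := by
            refine lintegral_congr fun w' => ?_
            refine setLIntegral_congr_fun measurableSet_Ioc fun v hv => ?_
            have : min v.toNNReal (j : ℝ≥0) = v.toNNReal := by
              refine min_eq_left ?_
              rw [Real.toNNReal_le_iff_le_coe, NNReal.coe_natCast]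
              exact hv.2
            simp only [stop_apply, this]
    rw [e]
    refine (hC' C ε K hε hK a j (by linarith) haj).trans ?_
    have := hlog j haj hjn'
    gcongr
  unfold Psi
  rw [lintegral_add_left, lintegral_add_left measurable_const, lintegral_const, measure_univ,
    mul_one]
  · refine (add_le_add (add_le_add le_rfl hA) hB).trans (le_of_eq ?_)
    have e : ENNReal.ofReal ((1 + ε) * Real.log n) =
        2 * ENNReal.ofReal ((1 + ε) * (Real.log n / 2)) := by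
      rw [show (2 : ℝ≥0∞) = ENNReal.ofReal 2 by simp, ← ENNReal.ofReal_mul (by norm_num)]
      congr 1; ring
    rw [e]
    ring
  · exact measurable_const.add (measurable_lintegral_cu C ε K a n (measurable_shift j))

theorem loa_asymp {ε c₀ K₁ : ℝ} (hε : 0 < ε) (hc : 0 < c₀) (hK : 1 ≤ K₁) (C C' : ℝ≥0) :
    ∀ᶠ L : ℝ in atTop, 2 * Real.sqrt L * C +
      2 * (C * C' * ((K₁ * (L ^ (1 / 16 : ℝ) + 1)) ^ 4 / Real.sqrt L)) ≤ c₀ * (ε * L) := by
  set M : ℝ := 2 * C + 32 * C * C' * K₁ ^ 4 with hM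
  have h1 : ∀ᶠ L : ℝ in atTop, M / (c₀ * ε) ≤ Real.sqrt L :=
    Real.tendsto_sqrt_atTop.eventually_ge_atTop _
  filter_upwards [h1, eventually_ge_atTop 1] with L hL hL1
  have hs1 : 1 ≤ Real.sqrt L := by
    rw [Real.one_le_sqrt]; exact hL1
  have hL0 : 0 < L := by linarith
  have hp1 : 1 ≤ L ^ (1 / 16 : ℝ) := Real.one_le_rpow hL1 (by norm_num)
  have hK4 : (K₁ * (L ^ (1 / 16 : ℝ) + 1)) ^ 4 / Real.sqrt L ≤ 16 * K₁ ^ 4 := by
    rw [div_le_iff₀ (by linarith)]
    have h2 : (K₁ * (L ^ (1 / 16 : ℝ) + 1)) ^ 4 ≤ (K₁ * (2 * L ^ (1 / 16 : ℝ))) ^ 4 := by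
      gcongr
      linarith
    have h3 : (L ^ (1 / 16 : ℝ)) ^ 4 ≤ Real.sqrt L := by
      rw [← Real.rpow_natCast, ← Real.rpow_mul hL0.le, Real.sqrt_eq_rpow]
      exact Real.rpow_le_rpow_of_exponent_le hL1 (by norm_num)
    calc (K₁ * (L ^ (1 / 16 : ℝ) + 1)) ^ 4 ≤ (K₁ * (2 * L ^ (1 / 16 : ℝ))) ^ 4 := h2
      _ = 16 * K₁ ^ 4 * (L ^ (1 / 16 : ℝ)) ^ 4 := by ring
      _ ≤ 16 * K₁ ^ 4 * Real.sqrt L := by gcongr
  have hCC : (0 : ℝ) ≤ C * C' := by positivity
  calc 2 * Real.sqrt L * C +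
      2 * (C * C' * ((K₁ * (L ^ (1 / 16 : ℝ) + 1)) ^ 4 / Real.sqrt L))
      ≤ 2 * Real.sqrt L * C + 2 * (C * C' * (16 * K₁ ^ 4)) := by gcongr
    _ ≤ 2 * Real.sqrt L * C + 2 * (C * C' * (16 * K₁ ^ 4)) * Real.sqrt L := by
        have : 0 ≤ 2 * (C * C' * (16 * K₁ ^ 4)) := by positivity
        nlinarith
    _ = M * Real.sqrt L := by rw [hM]; ring
    _ ≤ (Real.sqrt L * (c₀ * ε)) * Real.sqrt L := by
        gcongr
        rwa [div_le_iff₀ (by positivity)] at hL
    _ = c₀ * (ε * (Real.sqrt L * Real.sqrt L)) := by ring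
    _ = c₀ * (ε * L) := by rw [Real.mul_self_sqrt hL0.le]

theorem Phi_mono {μ : Measure (Path d)} {s s' : ℝ≥0} (hs : s ≤ s') (n : ℝ≥0) (w' : Path d)
    (y : E d) : Phi μ s n w' y ≤ Phi μ s' n w' y :=
  lintegral_mono fun _ => LT_mono hs le_rfl _ _ _

theorem loa_final {ε c₀ L p q δ : ℝ} (hε : 0 < ε) (hε' : ε < 1 / 100) (hc : 0 < c₀) (hL : 0 < L)
    (hδ0 : 0 ≤ δ) (hδ : δ ≤ ε) (hpq : 1 ≤ p + q + δ) (hp : 0 ≤ p)
    (hmain : c₀ * ((1 + Real.sqrt ε) * L) * p + c₀ * ((1 - 3 * ε) * L) * q ≤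
      c₀ * ((1 + 2 * ε) * L)) : p ≤ 7 * Real.sqrt ε := by
  have h1 : (1 + Real.sqrt ε) * p + (1 - 3 * ε) * q ≤ 1 + 2 * ε := by
    have h2 : c₀ * L * ((1 + Real.sqrt ε) * p + (1 - 3 * ε) * q) ≤ c₀ * L * (1 + 2 * ε) := by
      nlinarith
    exact le_of_mul_le_mul_left h2 (by positivity)
  have h3 : (1 - 3 * ε) * (1 - p - δ) ≤ (1 - 3 * ε) * q := by
    have : 0 ≤ 1 - 3 * ε := by linarith
    exact mul_le_mul_of_nonneg_left (by linarith) this
  have hs : 0 < Real.sqrt ε := Real.sqrt_pos.mpr hε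
  have h4 : Real.sqrt ε * p ≤ 6 * ε := by
    nlinarith [mul_nonneg hε.le hp, mul_nonneg hε.le hδ0]
  have h5 : 6 * ε = Real.sqrt ε * (6 * Real.sqrt ε) := by
    have := Real.mul_self_sqrt hε.le
    nlinarith
  rw [h5] at h4
  have h6 := le_of_mul_le_mul_left h4 hs
  linarith

/-- Piece LOA, probabilistic part. -/
theorem IsWiener.Psi_tail {μ : Measure (Path 4)} (h : IsWiener μ) {ε : ℝ} (hε : 0 < ε)
    (hε' : ε < 1 / 100) {C : ℝ≥0} {K₁ : ℝ} (hK : 1 ≤ K₁)
    (hC : ∀ (ϖ a : ℝ), 0 ≤ ϖ → 0 ≤ a → ∀ (n j : ℕ), j ≤ n → ∀ (w' : Path 4) (y : E 4),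
      ‖y + w' j‖ ≤ ϖ → Phi μ n n w' y ≤ Psi C ε (K₁ * (ϖ + 1)) a n j w') :
    ∀ᶠ n : ℕ in atTop, ∀ j : ℕ, (n : ℝ) ^ (1 - ε) ≤ j → (j : ℝ) + (n : ℝ) ^ (1 - ε) ≤ n →
      μ {w' | cB * ENNReal.ofReal ((1 + Real.sqrt ε) * Real.log n) <
        Psi C ε (K₁ * ((Real.log n) ^ (1 / 16 : ℝ) + 1)) (Real.sqrt (Real.log n)) n j w'} ≤
      ENNReal.ofReal (7 * Real.sqrt ε) := by
  have := h.isProb
  obtain ⟨c₀, hc₀, hcB⟩ := cB_eq
  obtain ⟨C', hC'⟩ := h.Psi_mean
  have hcast : Tendsto (fun n : ℕ => (n : ℝ)) atTop atTop := tendsto_natCast_atTop_atTop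
  have hlog : Tendsto (fun n : ℕ => Real.log n) atTop atTop := Real.tendsto_log_atTop.comp hcast
  have e1 := hcast.eventually (h.goodj hε (by linarith : ε < 1 / 2))
  have e2 := hlog.eventually (loa_asymp hε hc₀ hK C C')
  have e3 : ∀ᶠ n : ℕ in atTop, 1 ≤ Real.log n := hlog.eventually_ge_atTop 1
  have e4 : ∀ᶠ n : ℕ in atTop, 2 * (Real.log n) ^ (-4 : ℤ) ≤ ε := by
    have : Tendsto (fun x : ℝ => 2 * x ^ (-4 : ℤ)) atTop (𝓝 (2 * 0)) := by
      refine Tendsto.const_mul 2 ?_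
      exact tendsto_zpow_atTop_zero (by norm_num)
    rw [mul_zero] at this
    exact hlog.eventually ((this.eventually (gt_mem_nhds hε)).mono fun x hx => hx.le)
  have e5 : ∀ᶠ n : ℕ in atTop, Real.log n ≤ (n : ℝ) ^ (1 - ε) := by
    have := isLittleO_log_rpow_atTop (show 0 < 1 - ε by linarith)
    have h2 := this.bound (show (0 : ℝ) < 1 by norm_num)
    have h3 : ∀ᶠ x : ℝ in atTop, Real.log x ≤ x ^ (1 - ε) := by
      filter_upwards [h2, eventually_ge_atTop 1] with x hx hx1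
      rw [one_mul, Real.norm_of_nonneg (Real.log_nonneg hx1),
        Real.norm_of_nonneg (by positivity)] at hx
      exact hx
    exact hcast.eventually h3
  filter_upwards [e1, e2, e3, e4, e5] with n h1 h2 h3 h4 h5 j hj hjn
  set L := Real.log n with hL
  set s : ℝ≥0 := ((n : ℝ) ^ (1 - ε)).toNNReal with hs
  have hL0 : 0 < L := by linarith
  have hn0 : (0 : ℝ) < n := by
    by_contra hcon
    have : (n : ℝ) = 0 := le_antisymm (not_lt.mp hcon) (by positivity)
    rw [hL, this, Real.log_zero] at h3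
    linarith
  have hpos : 0 < (n : ℝ) ^ (1 - ε) := by positivity
  have hsj : s ≤ (j : ℝ≥0) := by
    rw [hs, Real.toNNReal_le_iff_le_coe, NNReal.coe_natCast]
    exact hj
  have hjsn : (j : ℝ≥0) + s ≤ (n : ℝ≥0) := by
    rw [← NNReal.coe_le_coe, NNReal.coe_add, hs, Real.coe_toNNReal _ hpos.le]
    exact_mod_cast hjn
  have hs0 : s ≠ 0 := by
    rw [hs]
    exact (Real.toNNReal_pos.mpr hpos).ne'
  have hjn' : j ≤ n := by
    have : (j : ℝ) ≤ n := by linarith
    exact_mod_cast this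
  have hsn : s ≤ (n : ℝ≥0) := hsj.trans (by exact_mod_cast hjn')
  set ϖ := L ^ (1 / 16 : ℝ) with hϖ
  set a := Real.sqrt L with ha
  have hϖ0 : 0 ≤ ϖ := by positivity
  have ha1 : 1 ≤ a := by
    rw [ha, Real.one_le_sqrt]; exact h3
  have haL : a ≤ L := by
    have := Real.mul_self_sqrt hL0.le
    nlinarith
  have haj : a ≤ j := by linarith
  set P : Path 4 → ℝ≥0∞ := Psi C ε (K₁ * (ϖ + 1)) a n j with hP
  have hPm : Measurable P := measurable_Psi _ _ _ _ _ _
  set b₁ : ℝ≥0∞ := cB * ENNReal.ofReal ((1 + Real.sqrt ε) * L) with hb₁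
  set b₂ : ℝ≥0∞ := cB * ENNReal.ofReal ((1 - 3 * ε) * L) with hb₂
  set B : Set (Path 4) := {w' | b₁ < P w'} with hB
  set G : Set (Path 4) := {w' | b₂ ≤ P w'} with hG
  have hBm : MeasurableSet B := measurableSet_lt measurable_const hPm
  have hGm : MeasurableSet G := measurableSet_le measurable_const hPm
  -- the bad set
  have hbad : μ Gᶜ ≤ ENNReal.ofReal (2 * L ^ (-4 : ℤ)) := by
    refine (measure_mono ?_).trans (h1 j n hsj hjsn)
    intro w' hw'
    simp only [hG, Set.mem_compl_iff, Set.mem_ofPred_eq, not_le] at hw'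
    simp only [Set.mem_ofPred_eq]
    by_contra hcon
    push Not at hcon
    have hge := h.Phi_ge (ϖ := L) hs0 hsj hjsn w' (y := -w' j) (by simpa using hL0.le)
    have hle := hC ϖ a hϖ0 (by positivity) n j hjn' w' (-w' j) (by simpa using hϖ0)
    have : b₂ ≤ P w' := by
      calc b₂ ≤ cB * (Hl L s (shift j w') + Hl L s (rev j w')) := by
            rw [hb₂]
            gcongr
        _ ≤ Phi μ s n w' (-w' j) := hge
        _ ≤ Phi μ n n w' (-w' j) := Phi_mono hsn _ _ _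
        _ ≤ P w' := hle
    exact absurd this (not_le.mpr hw')
  -- the mean
  have hmean : ∫⁻ w', P w' ∂μ ≤ ENNReal.ofReal (c₀ * ((1 + 2 * ε) * L)) := by
    refine (hC' C ε (K₁ * (ϖ + 1)) hε.le (by positivity) a n j ha1 haj hjn').trans ?_
    have h6 : 2 * ENNReal.ofReal a * C +
        2 * (C * C' * ENNReal.ofReal ((K₁ * (ϖ + 1)) ^ 4 / a)) ≤
        ENNReal.ofReal (c₀ * (ε * L)) := by
      refine le_trans (le_of_eq ?_) (ENNReal.ofReal_le_ofReal h2)
      rw [ENNReal.ofReal_add (by positivity) (by positivity), ENNReal.ofReal_mul (by positivity),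
        ENNReal.ofReal_mul (by norm_num), ENNReal.ofReal_mul (by norm_num),
        ENNReal.ofReal_mul (by positivity), ENNReal.ofReal_mul (by positivity),
        ENNReal.ofReal_coe_nnreal, ENNReal.ofReal_coe_nnreal]
      simp
    calc _ ≤ ENNReal.ofReal (c₀ * (ε * L)) + cB * ENNReal.ofReal ((1 + ε) * Real.log n) :=
          add_le_add h6 le_rfl
      _ = ENNReal.ofReal (c₀ * ((1 + 2 * ε) * L)) := by
          rw [hcB, ← ENNReal.ofReal_mul hc₀.le, ← ENNReal.ofReal_add (by positivity)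
            (by positivity)]
          congr 1
          ring
  -- the lower bound of the mean
  have hlow : b₁ * μ B + b₂ * μ (G \ B) ≤ ∫⁻ w', P w' ∂μ := by
    rw [← lintegral_indicator_const hBm, ← lintegral_indicator_const (hGm.diff hBm),
      ← lintegral_add_left (measurable_const.indicator hBm)]
    refine lintegral_mono fun w' => ?_
    by_cases hw : w' ∈ B
    · rw [Set.indicator_of_mem hw, Set.indicator_of_notMem (fun h' => h'.2 hw), add_zero]
      exact le_of_lt hw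
    · rw [Set.indicator_of_notMem hw, zero_add]
      by_cases hw2 : w' ∈ G \ B
      · rw [Set.indicator_of_mem hw2]
        exact hw2.1
      · rw [Set.indicator_of_notMem hw2]
        exact bot_le
  have htot : 1 ≤ μ B + μ (G \ B) + μ Gᶜ := by
    have : (Set.univ : Set (Path 4)) ⊆ (B ∪ (G \ B)) ∪ Gᶜ := by
      intro w' _
      by_cases h1 : w' ∈ B
      · exact Or.inl (Or.inl h1)
      · by_cases h2 : w' ∈ G
        · exact Or.inl (Or.inr ⟨h2, h1⟩)
        · exact Or.inr h2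
    calc (1 : ℝ≥0∞) = μ Set.univ := measure_univ.symm
      _ ≤ μ ((B ∪ (G \ B)) ∪ Gᶜ) := measure_mono this
      _ ≤ μ (B ∪ (G \ B)) + μ Gᶜ := measure_union_le _ _
      _ ≤ μ B + μ (G \ B) + μ Gᶜ := add_le_add (measure_union_le _ _) le_rfl
  -- real numbers
  have hδ0 : 0 ≤ 2 * L ^ (-4 : ℤ) := by positivity
  have hp : μ B = ENNReal.ofReal (μ.real B) := (ofReal_measureReal).symm
  have hq : μ (G \ B) = ENNReal.ofReal (μ.real (G \ B)) := (ofReal_measureReal).symm
  rw [hp]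
  refine ENNReal.ofReal_le_ofReal ?_
  refine loa_final hε hε' hc₀ hL0 hδ0 h4 (q := μ.real (G \ B)) ?_ measureReal_nonneg ?_
  · have h7 : (1 : ℝ≥0∞) ≤ ENNReal.ofReal (μ.real B + μ.real (G \ B) + 2 * L ^ (-4 : ℤ)) := by
      rw [ENNReal.ofReal_add (by positivity) hδ0, ENNReal.ofReal_add (by positivity)
        (by positivity), ← hp, ← hq]
      exact htot.trans (add_le_add le_rfl hbad)
    rw [ENNReal.one_le_ofReal] at h7
    exact h7
  · have h8 := hlow.trans hmean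
    rw [hb₁, hb₂, hcB, hp, hq, ← ENNReal.ofReal_mul hc₀.le, ← ENNReal.ofReal_mul hc₀.le,
      ← ENNReal.ofReal_mul (by positivity),
      ← ENNReal.ofReal_mul (by
        have : 0 ≤ 1 - 3 * ε := by linarith
        positivity), ← ENNReal.ofReal_add (by positivity) (by
        have : 0 ≤ 1 - 3 * ε := by linarith
        positivity)] at h8
    exact (ENNReal.ofReal_le_ofReal_iff (by positivity)).mp h8

end WSP
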