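import Pool.Agent.Lib_MP_c175fd.Kbb

/-!
# The upper functional (definition)
-/

open MeasureTheory ProbabilityTheory Filter Topology
open scoped ENNReal NNReal

namespace WSP

variable {d : ℕ}

/-- Upper functional around time `j`. -/
noncomputable def Psi (C : ℝ≥0) (ε K a : ℝ) (n j : ℕ) (w' : Path 4) : ℝ≥0∞ :=
  2 * ENNReal.ofReal a * C + (∫⁻ v in Set.Ioc a n, cu C ε K (shift j w' v.toNNReal)) +
    ∫⁻ v in Set.Ioc a j, cu C ε K (rev j w' v.toNNReal)

end WSP
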