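import Pool.Agent.Lib_MP_c175fd.EVBlock
import Pool.Agent.Lib_MP_c175fd.Gauss

/-!
# Pieces LTA, LTB: the intersection local time `LT`

`LT s t w w' z` is the Lebesgue measure of the pairs of times `(u, v) ∈ (0, s] × (0, t]` such that
`dist (w u) (z + w' v) < 1` (real times, `Real.toNNReal` to evaluate the paths).

LTA: measurability, `∫ z, LT = s t |B_1|` (Tonelli), support in `Kset`, and the kernel estimate.
LTB: second moments.

Kernel estimate `pair_le`: for `u < u'` the increment `w u' - w u = shift u w (u' - u)` has a density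
bounded by `(2 π (u' - u)) ^ (-d/2)` (`IsWiener.prob_eval_le`, `map_shift`), so for every fixed `x` the
probability that it lies in `ball x 2` is at most `C (u' - u) ^ (-d/2)`; same with `v, v'`.

Second moments: `∫ z, LT ^ 2 = ∫ (u,v,u',v'), volume (ball (w u - w' v) 1 ∩ ball (w u' - w' v') 1)
≤ |B_1| * ∫ 1{dist (w u - w' v) (w u' - w' v') < 2}`; take means and use `pair_le`:
`≤ |B_1| * ∫ min (1, C max (|u - u'|, |v - v'|) ^ (-d/2))`. With `a = |u - u'|`, `b = |v - v'|` this is at
most `4 |B_1| s t ∫_0^s ∫_0^t min (1, C max (a, b) ^ (-d/2)) da db`. For `d ≥ 5` the double integral over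
`[0, ∞)^2` is finite (`= ∫_0^∞ 2 x min (1, C x ^ (-d/2)) dx`); for `s = 1`, `d ≥ 4` it is at most
`∫_0^∞ min (1, C b ^ (-d/2)) db < ∞`.
-/

open MeasureTheory ProbabilityTheory Filter Topology
open scoped ENNReal NNReal

namespace WSP

variable {d : ℕ}

open Classical in
/-- Intersection local time at displacement `z`. -/
noncomputable def LT (s t : ℝ≥0) (w w' : Path d) (z : E d) : ℝ≥0∞ :=
  ∫⁻ u in Set.Ioc (0 : ℝ) s, ∫⁻ v in Set.Ioc (0 : ℝ) t,
    (if dist (w u.toNNReal) (z + w' v.toNNReal) < 1 then 1 else 0)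

lemma measurable_evalR {α : Type*} [MeasurableSpace α] {f : α → Path d} {g : α → ℝ}
    (hf : Measurable f) (hg : Measurable g) : Measurable fun a => (f a) (g a).toNNReal :=
  measurable_eval_prod.comp (hf.prodMk hg.real_toNNReal)

open Classical in
lemma measurable_LT_aux {α : Type*} [MeasurableSpace α] {f f' : α → Path d} {z : α → E d}
    {g g' : α → ℝ} (hf : Measurable f) (hf' : Measurable f') (hz : Measurable z)
    (hg : Measurable g) (hg' : Measurable g') :
    Measurable fun a => (if dist ((f a) (g a).toNNReal) (z a + (f' a) (g' a).toNNReal) < 1 then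
      (1 : ℝ≥0∞) else 0) := by
  refine Measurable.ite ?_ measurable_const measurable_const
  exact measurableSet_lt ((measurable_evalR hf hg).dist (hz.add (measurable_evalR hf' hg')))
    measurable_const

theorem measurable_LT (s t : ℝ≥0) :
    Measurable (fun p : Path d × Path d × E d => LT s t p.1 p.2.1 p.2.2) := by
  classical
  unfold LT
  refine Measurable.lintegral_prod_right' (f := fun q : (Path d × Path d × E d) × ℝ =>
    ∫⁻ v in Set.Ioc (0 : ℝ) t,
      (if dist (q.1.1 q.2.toNNReal) (q.1.2.2 + q.1.2.1 v.toNNReal) < 1 then 1 else 0)) ?_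
  refine Measurable.lintegral_prod_right' (f := fun q : ((Path d × Path d × E d) × ℝ) × ℝ =>
      (if dist (q.1.1.1 q.1.2.toNNReal) (q.1.1.2.2 + q.1.1.2.1 q.2.toNNReal) < 1 then 1 else 0)) ?_
  exact measurable_LT_aux (by fun_prop) (by fun_prop) (by fun_prop) (by fun_prop) (by fun_prop)

theorem lintegral_LT (s t : ℝ≥0) (w w' : Path d) :
    ∫⁻ z, LT s t w w' z = (s : ℝ≥0∞) * t * volume (Metric.ball (0 : E d) 1) := by
  classical
  unfold LT
  rw [lintegral_lintegral_swap]
  · have h1 : ∀ u : ℝ, ∫⁻ z : E d, ∫⁻ v in Set.Ioc (0 : ℝ) t,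
        (if dist (w u.toNNReal) (z + w' v.toNNReal) < 1 then (1 : ℝ≥0∞) else 0) =
          t * volume (Metric.ball (0 : E d) 1) := by
      intro u
      rw [lintegral_lintegral_swap]
      · have h2 : ∀ v : ℝ, ∫⁻ z : E d,
            (if dist (w u.toNNReal) (z + w' v.toNNReal) < 1 then (1 : ℝ≥0∞) else 0) =
            volume (Metric.ball (0 : E d) 1) := by
          intro v
          have h3 : ∀ z : E d, (if dist (w u.toNNReal) (z + w' v.toNNReal) < 1 then
              (1 : ℝ≥0∞) else 0) =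
              (Metric.ball (w u.toNNReal - w' v.toNNReal) 1).indicator 1 z := by
            intro z
            rw [Set.indicator_apply, Metric.mem_ball]
            have : dist z (w u.toNNReal - w' v.toNNReal) =
                dist (w u.toNNReal) (z + w' v.toNNReal) := by
              rw [dist_eq_norm, dist_eq_norm, ← norm_neg]
              congr 1; abel
            rw [this]
            rfl
          simp_rw [h3]
          rw [lintegral_indicator_one measurableSet_ball, Measure.addHaar_ball_center]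
        simp_rw [h2]
        rw [setLIntegral_const, Real.volume_Ioc, sub_zero, mul_comm, ENNReal.ofReal_coe_nnreal]
      · refine (measurable_LT_aux (f := fun _ => w) (f' := fun _ => w') (z := fun q : E d × ℝ => q.1)
          (g := fun _ => u) (g' := fun q => q.2) ?_ ?_ ?_ ?_ ?_).aemeasurable <;> fun_prop
    simp_rw [h1]
    rw [setLIntegral_const, Real.volume_Ioc, sub_zero, ENNReal.ofReal_coe_nnreal]
    ring
  · refine (Measurable.lintegral_prod_right' (f := fun q : (E d × ℝ) × ℝ =>
      (if dist (w q.1.2.toNNReal) (q.1.1 + w' q.2.toNNReal) < 1 then 1 else 0)) ?_).aemeasurable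
    exact measurable_LT_aux (f := fun _ => w) (f' := fun _ => w')
      (z := fun q : (E d × ℝ) × ℝ => q.1.1) (g := fun q => q.1.2) (g' := fun q => q.2)
      (by fun_prop) (by fun_prop) (by fun_prop) (by fun_prop) (by fun_prop)

theorem LT_eq_zero {s t : ℝ≥0} {w w' : Path d} {z : E d} (h : z ∉ Kset 1 s t w w') :
    LT s t w w' z = 0 := by
  classical
  unfold LT
  have h1 : ∀ u ∈ Set.Ioc (0 : ℝ) s, ∫⁻ v in Set.Ioc (0 : ℝ) t,
    (if dist (w u.toNNReal) (z + w' v.toNNReal) < 1 then (1 : ℝ≥0∞) else 0) = 0 := by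
    intro u hu
    have h2 : ∀ v ∈ Set.Ioc (0 : ℝ) t,
        (if dist (w u.toNNReal) (z + w' v.toNNReal) < 1 then (1 : ℝ≥0∞) else 0) = 0 := by
      intro v hv
      rw [if_neg]
      intro hlt
      exact h ⟨u.toNNReal, Real.toNNReal_le_iff_le_coe.mpr hu.2, v.toNNReal,
        Real.toNNReal_le_iff_le_coe.mpr hv.2, hlt⟩
    rw [setLIntegral_congr_fun measurableSet_Ioc h2, lintegral_zero]
  rw [setLIntegral_congr_fun measurableSet_Ioc h1, lintegral_zero]

/-- Splitting the time of the first path. -/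
theorem LT_split (a b t : ℝ≥0) (w w' : Path d) (z : E d) :
    LT (a + b) t w w' z = LT a t w w' z + LT b t (shift a w) w' (z - w a) := by
  classical
  unfold LT
  set g : ℝ → ℝ≥0∞ := fun u => ∫⁻ v in Set.Ioc (0 : ℝ) t,
    (if dist (w u.toNNReal) (z + w' v.toNNReal) < 1 then (1 : ℝ≥0∞) else 0) with hg
  have hunion : Set.Ioc (0 : ℝ) ((a + b : ℝ≥0) : ℝ) = Set.Ioc (0 : ℝ) a ∪ Set.Ioc (a : ℝ) (a + b) := by
    rw [NNReal.coe_add, Set.Ioc_union_Ioc_eq_Ioc (NNReal.coe_nonneg a)
      (le_add_of_nonneg_right (NNReal.coe_nonneg b))]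
  have hdisj : Disjoint (Set.Ioc (0 : ℝ) a) (Set.Ioc (a : ℝ) (a + b)) := by
    rw [Set.Ioc_disjoint_Ioc]
    simp
  rw [hunion, lintegral_union measurableSet_Ioc hdisj]
  congr 1
  have h1 : ∫⁻ u in Set.Ioc (a : ℝ) (a + b), g u = ∫⁻ u in Set.Ioc (0 : ℝ) b, g (u + a) := by
    rw [← lintegral_indicator measurableSet_Ioc, ← lintegral_indicator measurableSet_Ioc,
      ← lintegral_add_right_eq_self _ (a : ℝ)]
    refine lintegral_congr fun u => ?_
    simp only [Set.indicator_apply]
    have : (u + (a : ℝ) ∈ Set.Ioc (a : ℝ) (a + b)) ↔ u ∈ Set.Ioc (0 : ℝ) b := by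
      simp only [Set.mem_Ioc]
      constructor
      · rintro ⟨h1, h2⟩; constructor <;> linarith
      · rintro ⟨h1, h2⟩; constructor <;> linarith
    simp only [this]
  rw [h1]
  refine setLIntegral_congr_fun measurableSet_Ioc fun u hu => ?_
  refine lintegral_congr fun v => ?_
  have h2 : (u + (a : ℝ)).toNNReal = a + u.toNNReal := by
    rw [Real.toNNReal_add hu.1.le (NNReal.coe_nonneg a), Real.toNNReal_coe, add_comm]
  have h3 : dist (w (u + (a : ℝ)).toNNReal) (z + w' v.toNNReal) =
      dist (shift a w u.toNNReal) (z - w a + w' v.toNNReal) := by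
    rw [h2, shift_apply, dist_eq_norm, dist_eq_norm]
    congr 1; abel
  rw [h3]

theorem LT_mono {s s' t t' : ℝ≥0} (hs : s ≤ s') (ht : t ≤ t') (w w' : Path d) (z : E d) :
    LT s t w w' z ≤ LT s' t' w w' z := by
  classical
  unfold LT
  refine lintegral_mono' (Measure.restrict_mono (Set.Ioc_subset_Ioc_right (by exact_mod_cast hs))
    le_rfl) fun u => ?_
  exact lintegral_mono' (Measure.restrict_mono (Set.Ioc_subset_Ioc_right (by exact_mod_cast ht))
    le_rfl) fun v => le_rfl

/-- the probability that an increment lies in a ball of radius `2` -/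
lemma IsWiener.incr_le {μ : Measure (Path d)} (h : IsWiener μ) {u u' b : ℝ≥0} (hb : 0 < b)
    (hbu : b ≤ u' - u) (x : E d) :
    μ {w | w u' - w u ∈ Metric.ball x 2} ≤
      ENNReal.ofReal ((2 * Real.pi) ^ (-(d : ℝ) / 2)) * volume (Metric.ball (0 : E d) 2) *
        ENNReal.ofReal ((b : ℝ) ^ (-(d : ℝ) / 2)) := by
  have hpos : 0 < u' - u := lt_of_lt_of_le hb hbu
  have hle : u ≤ u' := by
    by_contra hlt
    rw [not_le] at hlt
    rw [tsub_eq_zero_of_le hlt.le] at hpos
    exact lt_irrefl _ hpos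
  have h1 : μ {w | w u' - w u ∈ Metric.ball x 2} = μ {w | w (u' - u) ∈ Metric.ball x 2} := by
    have hm : MeasurableSet {w : Path d | w (u' - u) ∈ Metric.ball x 2} :=
      measurable_eval _ measurableSet_ball
    conv_rhs => rw [← h.map_shift u]
    rw [Measure.map_apply (measurable_shift u) hm]
    congr 1
    ext w
    change w u' - w u ∈ Metric.ball x 2 ↔ w (u + (u' - u)) - w u ∈ Metric.ball x 2
    rw [add_tsub_cancel_of_le hle]
  rw [h1]
  refine (h.prob_eval_le hpos.ne' measurableSet_ball).trans ?_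
  rw [Measure.addHaar_ball_center, mul_right_comm (ENNReal.ofReal _)]
  refine mul_le_mul' ?_ le_rfl
  rw [← ENNReal.ofReal_mul (by positivity)]
  apply ENNReal.ofReal_le_ofReal
  rw [Real.mul_rpow (by positivity) (by positivity)]
  refine mul_le_mul_of_nonneg_left ?_ (by positivity)
  exact Real.rpow_le_rpow_of_nonpos (by exact_mod_cast hb) (by exact_mod_cast hbu)
    (by
      have : (0 : ℝ) ≤ d := Nat.cast_nonneg d
      linarith)

/-- the constant of the kernel estimate -/
noncomputable def pairC (d : ℕ) : ℝ≥0∞ :=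
  ENNReal.ofReal ((2 * Real.pi) ^ (-(d : ℝ) / 2)) * volume (Metric.ball (0 : E d) 2)

lemma pairC_ne_top (d : ℕ) : pairC d ≠ ∞ :=
  ENNReal.mul_ne_top ENNReal.ofReal_ne_top measure_ball_lt_top.ne

lemma IsWiener.pair_left {μ : Measure (Path d)} (h : IsWiener μ) {u u' b : ℝ≥0} (v v' : ℝ≥0)
    (hb : 0 < b) (hbu : b ≤ u' - u) :
    ∫⁻ w, μ {w' | dist (w u - w' v) (w u' - w' v') < 2} ∂μ ≤
      pairC d * ENNReal.ofReal ((b : ℝ) ^ (-(d : ℝ) / 2)) := by
  have := h.isProb
  set S : Set (Path d × Path d) := {p | dist (p.1 u - p.2 v) (p.1 u' - p.2 v') < 2} with hS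
  have hm : MeasurableSet S := by
    have e : ∀ s : ℝ≥0, Measurable fun w : Path d => w s := measurable_eval
    exact measurableSet_lt ((((e u).comp measurable_fst).sub ((e v).comp measurable_snd)).dist
      (((e u').comp measurable_fst).sub ((e v').comp measurable_snd))) measurable_const
  have h1 : ∫⁻ w, μ {w' | dist (w u - w' v) (w u' - w' v') < 2} ∂μ = (μ.prod μ) S :=
    (Measure.prod_apply hm).symm
  rw [h1, Measure.prod_apply_symm hm]
  calc ∫⁻ w', μ ((fun w => (w, w')) ⁻¹' S) ∂μ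
      ≤ ∫⁻ _w', pairC d * ENNReal.ofReal ((b : ℝ) ^ (-(d : ℝ) / 2)) ∂μ := by
        refine lintegral_mono fun w' => ?_
        have h2 : (fun w => (w, w')) ⁻¹' S = {w | w u' - w u ∈ Metric.ball (w' v' - w' v) 2} := by
          ext w
          change dist (w u - w' v) (w u' - w' v') < 2 ↔ dist (w u' - w u) (w' v' - w' v) < 2
          have : dist (w u - w' v) (w u' - w' v') = dist (w u' - w u) (w' v' - w' v) := by
            rw [dist_eq_norm, dist_eq_norm, ← norm_neg]
            congr 1; abel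
          rw [this]
        rw [h2]
        exact h.incr_le hb hbu _
    _ = _ := by rw [lintegral_const, measure_univ, mul_one]

lemma IsWiener.pair_right {μ : Measure (Path d)} (h : IsWiener μ) {v v' b : ℝ≥0} (u u' : ℝ≥0)
    (hb : 0 < b) (hbu : b ≤ v' - v) :
    ∫⁻ w, μ {w' | dist (w u - w' v) (w u' - w' v') < 2} ∂μ ≤
      pairC d * ENNReal.ofReal ((b : ℝ) ^ (-(d : ℝ) / 2)) := by
  have := h.isProb
  calc ∫⁻ w, μ {w' | dist (w u - w' v) (w u' - w' v') < 2} ∂μ
      ≤ ∫⁻ _w', pairC d * ENNReal.ofReal ((b : ℝ) ^ (-(d : ℝ) / 2)) ∂μ := by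
        refine lintegral_mono fun w => ?_
        have h2 : {w' : Path d | dist (w u - w' v) (w u' - w' v') < 2} =
            {w' | w' v' - w' v ∈ Metric.ball (w u' - w u) 2} := by
          ext w'
          change dist (w u - w' v) (w u' - w' v') < 2 ↔ dist (w' v' - w' v) (w u' - w u) < 2
          have : dist (w u - w' v) (w u' - w' v') = dist (w' v' - w' v) (w u' - w u) := by
            rw [dist_eq_norm, dist_eq_norm]
            congr 1; abel
          rw [this]
        rw [h2]
        exact h.incr_le hb hbu _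
    _ = _ := by rw [lintegral_const, measure_univ, mul_one]

lemma IsWiener.pair_right' {μ : Measure (Path d)} (h : IsWiener μ) {v v' b : ℝ≥0} (u u' : ℝ≥0)
    (hb : 0 < b) (hbu : b ≤ v - v') :
    ∫⁻ w, μ {w' | dist (w u - w' v) (w u' - w' v') < 2} ∂μ ≤
      pairC d * ENNReal.ofReal ((b : ℝ) ^ (-(d : ℝ) / 2)) := by
  have h1 := h.pair_right (v := v') (v' := v) u' u hb hbu
  refine le_of_eq_of_le (lintegral_congr fun w => ?_) h1
  congr 1
  ext w'
  change dist (w u - w' v) (w u' - w' v') < 2 ↔ dist (w u' - w' v') (w u - w' v) < 2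
  rw [dist_comm]

/-- The kernel estimate. -/
theorem IsWiener.pair_le {μ : Measure (Path d)} (h : IsWiener μ) :
    ∃ C : ℝ≥0, ∀ u u' v v' : ℝ≥0, ∀ b : ℝ≥0, 0 < b → (b ≤ u' - u ∨ b ≤ v' - v) → u ≤ u' → v ≤ v' →
      ∫⁻ w, μ {w' | dist (w u - w' v) (w u' - w' v') < 2} ∂μ ≤
        (C : ℝ≥0∞) * ENNReal.ofReal ((b : ℝ) ^ (-(d : ℝ) / 2)) := by
  refine ⟨(pairC d).toNNReal, fun u u' v v' b hb hor _ _ => ?_⟩
  rw [ENNReal.coe_toNNReal (pairC_ne_top d)]
  rcases hor with hor | hor
  · exact h.pair_left v v' hb hor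
  · exact h.pair_right u u' hb hor

/-- Same with the two orders of the times of the second path. -/
theorem IsWiener.pair_le' {μ : Measure (Path d)} (h : IsWiener μ) :
    ∃ C : ℝ≥0, ∀ u u' v v' : ℝ≥0, ∀ b : ℝ≥0, 0 < b → (b ≤ u' - u ∨ b ≤ v - v') → u ≤ u' → v' ≤ v →
      ∫⁻ w, μ {w' | dist (w u - w' v) (w u' - w' v') < 2} ∂μ ≤
        (C : ℝ≥0∞) * ENNReal.ofReal ((b : ℝ) ^ (-(d : ℝ) / 2)) := by
  refine ⟨(pairC d).toNNReal, fun u u' v v' b hb hor _ _ => ?_⟩
  rw [ENNReal.coe_toNNReal (pairC_ne_top d)]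
  rcases hor with hor | hor
  · exact h.pair_left v v' hb hor
  · exact h.pair_right' u u' hb hor

end WSP
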