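import Pool.Agent.Lib_MP_c175fd.WienerA

/-!
# Piece WIENERB: Markov property

* `map_stop_shift`: for each coordinate, `IsPreBrownianReal.indepFun_shift` says that the increments
  after `a` are independent of the path up to `a`. Together with the independence of the coordinates
  this gives that `stop a w` and `shift a w` are independent: the family
  `(stop part i, shift part i)`, `i : Fin d`, is independent with law `(law of stop part i) × (law of
  shift part i)`, so the family of the `2 d` processes is independent, and regroup
  (a clean way: prove that the two measures on `Path d × Path d` agree on the pi system of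
  rectangles, or use `iIndepFun` indexed by `Fin d × Bool`). The law of `shift a` is `μ`
  (`IsWiener.map_shift`).
* `map_rev`: for each coordinate the process `u ↦ w a - w (a - u)` for `u ≤ a`, `w u` for `u ≥ a`, is
  Gaussian, centred with covariance `min u v`, hence pre-Brownian
  (`IsGaussianProcess.isPreBrownianReal_of_covariance`), with continuous paths; so this modified
  path has law `μ` by uniqueness, and its stopped path at time `a` is `rev a w`.
-/

open MeasureTheory ProbabilityTheory Filter Topology
open scoped ENNReal NNReal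

namespace WSP

variable {d : ℕ}

/-- coordinates of the stopped path -/
private def mkS (a : ℝ≥0) (w : Path d) (i : Fin d) : ℝ≥0 → ℝ := fun s => w (min s a) i

/-- coordinates of the increments -/
private def mkH (a : ℝ≥0) (w : Path d) (i : Fin d) : ℝ≥0 → ℝ := fun s => w (a + s) i - w a i

private theorem mk_meas_coord (s : ℝ≥0) (i : Fin d) : Measurable (fun w : Path d => w s i) :=
  ((EuclideanSpace.proj (𝕜 := ℝ) i).continuous.measurable).comp (measurable_eval s)

private theorem mkS_meas (a : ℝ≥0) (i : Fin d) : Measurable (fun w : Path d => mkS a w i) :=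
  measurable_pi_lambda _ fun _ => mk_meas_coord _ i

private theorem mkH_meas (a : ℝ≥0) (i : Fin d) : Measurable (fun w : Path d => mkH a w i) :=
  measurable_pi_lambda _ fun _ => (mk_meas_coord _ i).sub (mk_meas_coord _ i)

private theorem mk_indep_coord {μ : Measure (Path d)} (h : IsWiener μ) (a : ℝ≥0) (i : Fin d) :
    IndepFun (fun w : Path d => mkS a w i) (fun w : Path d => mkH a w i) μ := by
  have h1 := ((h.brown i).indepFun_shift a).symm
  have hφ : Measurable (fun (f : Set.Iic a → ℝ) (s : ℝ≥0) => f ⟨min s a, min_le_right s a⟩) :=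
    measurable_pi_lambda _ fun s => measurable_pi_apply _
  exact h1.comp hφ measurable_id

private theorem mk_indep_all {μ : Measure (Path d)} (h : IsWiener μ) (a : ℝ≥0) :
    IndepFun (fun (w : Path d) (i : Fin d) => mkS a w i) (fun (w : Path d) (i : Fin d) => mkH a w i)
      μ := by
  have := h.isProb
  have hφ : Measurable (fun (f : ℝ≥0 → ℝ) (s : ℝ≥0) => f (min s a)) :=
    measurable_pi_lambda _ fun s => measurable_pi_apply _
  have hψ : Measurable (fun (f : ℝ≥0 → ℝ) (s : ℝ≥0) => f (a + s) - f a) :=
    measurable_pi_lambda _ fun s => (measurable_pi_apply _).sub (measurable_pi_apply _)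
  have hpair : iIndepFun (fun (i : Fin d) (w : Path d) => (mkS a w i, mkH a w i)) μ :=
    h.indep.comp (fun _ f => ((fun s => f (min s a), fun s => f (a + s) - f a) :
      (ℝ≥0 → ℝ) × (ℝ≥0 → ℝ))) (fun _ => hφ.prodMk hψ)
  have hS : iIndepFun (fun (i : Fin d) (w : Path d) => mkS a w i) μ :=
    h.indep.comp (fun _ f s => f (min s a)) (fun _ => hφ)
  have hH : iIndepFun (fun (i : Fin d) (w : Path d) => mkH a w i) μ :=
    h.indep.comp (fun _ f s => f (a + s) - f a) (fun _ => hψ)
  have e1 := (iIndepFun_iff_map_fun_eq_pi_map
    (fun i => ((mkS_meas a i).prodMk (mkH_meas a i)).aemeasurable)).1 hpair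
  have e2 := (iIndepFun_iff_map_fun_eq_pi_map (fun i => (mkS_meas (d := d) a i).aemeasurable)).1 hS
  have e3 := (iIndepFun_iff_map_fun_eq_pi_map (fun i => (mkH_meas (d := d) a i).aemeasurable)).1 hH
  have e4 : ∀ i : Fin d, μ.map (fun w : Path d => (mkS a w i, mkH a w i)) =
      (μ.map (fun w : Path d => mkS a w i)).prod (μ.map (fun w : Path d => mkH a w i)) := fun i =>
    (indepFun_iff_map_prod_eq_prod_map_map (mkS_meas a i).aemeasurable
      (mkH_meas a i).aemeasurable).1 (mk_indep_coord h a i)
  have hmS : ∀ i : Fin d, IsProbabilityMeasure (μ.map (fun w : Path d => mkS a w i)) := fun i =>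
    Measure.isProbabilityMeasure_map (mkS_meas a i).aemeasurable
  have hmH : ∀ i : Fin d, IsProbabilityMeasure (μ.map (fun w : Path d => mkH a w i)) := fun i =>
    Measure.isProbabilityMeasure_map (mkH_meas a i).aemeasurable
  simp only [e4] at e1
  have hmp := measurePreserving_arrowProdEquivProdArrow (ℝ≥0 → ℝ) (ℝ≥0 → ℝ) (Fin d)
    (fun i => μ.map (fun w : Path d => mkS a w i)) (fun i => μ.map (fun w : Path d => mkH a w i))
  have hmm : Measurable (fun (w : Path d) (i : Fin d) => (mkS a w i, mkH a w i)) :=
    measurable_pi_lambda _ fun i => (mkS_meas a i).prodMk (mkH_meas a i)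
  have hSm : Measurable (fun (w : Path d) (i : Fin d) => mkS a w i) :=
    measurable_pi_lambda _ fun i => mkS_meas a i
  have hHm : Measurable (fun (w : Path d) (i : Fin d) => mkH a w i) :=
    measurable_pi_lambda _ fun i => mkH_meas a i
  rw [indepFun_iff_map_prod_eq_prod_map_map hSm.aemeasurable hHm.aemeasurable, e2, e3,
    ← hmp.map_eq, ← e1, Measure.map_map hmp.measurable hmm]
  rfl

private theorem mk_comap_le {β : Type*} [MeasurableSpace β] (S : Path d → β) (f : Path d → Path d)
    (h : ∀ (s : ℝ≥0) (i : Fin d), Measurable[MeasurableSpace.comap S inferInstance]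
      (fun w : Path d => f w s i)) :
    MeasurableSpace.comap f inferInstance ≤ MeasurableSpace.comap S inferInstance := by
  have h1 : @Measurable _ _ (MeasurableSpace.comap S inferInstance) _ f := by
    refine @measurable_path d (Path d) (MeasurableSpace.comap S inferInstance) f fun s => ?_
    have h2 : @Measurable _ _ (MeasurableSpace.comap S inferInstance) _
        (fun (w : Path d) (i : Fin d) => f w s i) :=
      @measurable_pi_lambda _ _ _ (MeasurableSpace.comap S inferInstance) _ _ fun i => h s i
    exact (MeasurableEquiv.toLp 2 (Fin d → ℝ)).measurable.comp h2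
  exact h1.comap_le

theorem IsWiener.indepFun_stop_shift {μ : Measure (Path d)} (h : IsWiener μ) (a : ℝ≥0) :
    IndepFun (stop a : Path d → Path d) (shift a) μ := by
  have h1 := mk_indep_all h a
  rw [IndepFun_iff_Indep] at h1 ⊢
  refine indep_of_indep_of_le h1 ?_ ?_
  · refine mk_comap_le _ _ fun s i => ?_
    exact (measurable_pi_apply s).comp ((measurable_pi_apply i).comp
      (comap_measurable (fun (w : Path d) (i : Fin d) => mkS a w i)))
  · refine mk_comap_le _ _ fun s i => ?_
    exact (measurable_pi_apply s).comp ((measurable_pi_apply i).comp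
      (comap_measurable (fun (w : Path d) (i : Fin d) => mkH a w i)))

theorem IsWiener.map_stop_shift {μ : Measure (Path d)} (h : IsWiener μ) (a : ℝ≥0) :
    μ.map (fun w => (stop a w, shift a w)) = (μ.map (stop a)).prod μ := by
  have := h.isProb
  have h1 := (indepFun_iff_map_prod_eq_prod_map_map (measurable_stop a).aemeasurable
    (measurable_shift a).aemeasurable).1 (h.indepFun_stop_shift a)
  rw [h1, h.map_shift]

theorem IsWiener.lintegral_stop_shift {μ : Measure (Path d)} (h : IsWiener μ) (a : ℝ≥0)
    {F : Path d → Path d → ℝ≥0∞} (hF : Measurable (Function.uncurry F)) :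
    ∫⁻ w, F (stop a w) (shift a w) ∂μ = ∫⁻ w, ∫⁻ w', F (stop a w) w' ∂μ ∂μ := by
  have := h.isProb
  have h1 : ∫⁻ w, F (stop a w) (shift a w) ∂μ =
      ∫⁻ p, Function.uncurry F p ∂(μ.map (fun w => (stop a w, shift a w))) := by
    rw [lintegral_map hF ((measurable_stop a).prodMk (measurable_shift a))]
    rfl
  rw [h1, h.map_stop_shift a, lintegral_prod _ hF.aemeasurable,
    lintegral_map hF.lintegral_prod_right' (measurable_stop a)]
  rfl

end WSP
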