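import Pool.Agent.Lib_MP_c175fd.WienerA
import Pool.Agent.Lib_MP_c175fd.CntDefs

/-!
# The marked Poisson process

The points of the Poisson process of intensity one are realised in the usual way: in every unit
cube with integer corner `k` there are `N k` points, `N k` Poisson of parameter one, at the
independent uniform positions `(y (k, j)).1`, `j < N k`; the Brownian path attached to the point
`(k, j)` is `(y (k, j)).2`.
-/

open MeasureTheory ProbabilityTheory Filter Topology
open scoped ENNReal NNReal

namespace WSP

variable {d : ℕ}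

/-- Indices of the points. -/
abbrev Idx (d : ℕ) := (Fin d → ℤ) × ℕ

/-- The marked Poisson process (internal form). -/
structure PM (d : ℕ) {Ω : Type*} [MeasurableSpace Ω] (P : Measure Ω) (μ : Measure (Path d)) where
  N : (Fin d → ℤ) → Ω → ℕ
  y : Idx d → Ω → Mark d
  measN : ∀ k, Measurable (N k)
  measy : ∀ i, Measurable (y i)
  lawN : ∀ k, P.map (N k) = poissonMeasure 1
  lawy : ∀ i : Idx d, P.map (y i) = ((volume : Measure (E d)).restrict (cube i.1)).prod μ
  indep : iIndep (fun s : (Fin d → ℤ) ⊕ Idx d => Sum.elim
    (fun k => MeasurableSpace.comap (N k) inferInstance)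
    (fun i => MeasurableSpace.comap (y i) inferInstance) s) P

namespace PM

variable {Ω : Type*} [MeasurableSpace Ω] {P : Measure Ω} {μ : Measure (Path d)}

/-- The event that the point with index `i` is present. -/
def pres (M : PM d P μ) (i : Idx d) : Set Ω := {ω | i.2 < M.N i.1 ω}

theorem measurableSet_pres (M : PM d P μ) (i : Idx d) : MeasurableSet (M.pres i) :=
  measurableSet_lt measurable_const (M.measN i.1)

/-- Piece CUBE: the unit cubes partition the space, have volume one, and are measurable. -/
theorem measurableSet_cube (k : Fin d → ℤ) : MeasurableSet (cube k) := by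
  have h : cube k = ⋂ i, {x : E d | (k i : ℝ) ≤ x i ∧ x i < k i + 1} := by
    ext x
    simp [cube]
  rw [h]
  refine MeasurableSet.iInter fun i => ?_
  have hm : Measurable fun x : E d => x i := by fun_prop
  exact (measurableSet_le measurable_const hm).inter (measurableSet_lt hm measurable_const)

theorem cube_eq_preimage (k : Fin d → ℤ) :
    cube k = (WithLp.ofLp : E d → Fin d → ℝ) ⁻¹'
      (Set.univ.pi fun i => Set.Ico (k i : ℝ) (k i + 1)) := by
  ext x
  simp [cube]

theorem volume_cube (k : Fin d → ℤ) : volume (cube k) = 1 := by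
  rw [cube_eq_preimage, (PiLp.volume_preserving_ofLp (Fin d)).measure_preimage
    (MeasurableSet.univ_pi fun i => measurableSet_Ico).nullMeasurableSet, Real.volume_pi_Ico]
  simp

theorem mem_cube_floor (x : E d) : x ∈ cube (fun i => ⌊x i⌋) :=
  fun i => ⟨Int.floor_le (x i), Int.lt_floor_add_one (x i)⟩

theorem eq_floor_of_mem_cube {k : Fin d → ℤ} {x : E d} (h : x ∈ cube k) :
    k = fun i => ⌊x i⌋ := by
  funext i
  exact (Int.floor_eq_iff.mpr (h i)).symm

theorem iUnion_cube : (⋃ k : Fin d → ℤ, cube k) = (Set.univ : Set (E d)) :=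
  Set.eq_univ_of_forall fun x => Set.mem_iUnion.mpr ⟨_, mem_cube_floor x⟩

theorem disjoint_cube {k l : Fin d → ℤ} (h : k ≠ l) : Disjoint (cube k) (cube l) := by
  rw [Set.disjoint_left]
  intro x hk hl
  exact h ((eq_floor_of_mem_cube hk).trans (eq_floor_of_mem_cube hl).symm)

/-- Piece MECKEA: factorial moments of the Poisson law of parameter one. -/
theorem poisson_factorial (m : ℕ) :
    ∫⁻ n, (n.descFactorial m : ℝ≥0∞) ∂(poissonMeasure 1) = 1 := by
  rw [lintegral_countable']
  have hinj : Function.Injective fun n : ℕ => n + m := add_left_injective m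
  have hsupp : (Function.support fun n : ℕ =>
      ((n.descFactorial m : ℕ) : ℝ≥0∞) * poissonMeasure 1 {n}) ⊆
      Set.range fun n : ℕ => n + m := by
    intro n hn
    by_contra hcon
    apply hn
    have hlt : n < m := by
      by_contra hge
      exact hcon ⟨n - m, by simp only; omega⟩
    simp [Nat.descFactorial_eq_zero_iff_lt.mpr hlt]
  rw [← hinj.tsum_eq hsupp]
  have hterm : ∀ n : ℕ, (((n + m).descFactorial m : ℕ) : ℝ≥0∞) * poissonMeasure 1 {n + m} =
      poissonMeasure 1 {n} := by
    intro n
    rw [poissonMeasure_singleton, poissonMeasure_singleton, ← ENNReal.ofReal_natCast,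
      ← ENNReal.ofReal_mul (Nat.cast_nonneg _)]
    congr 1
    have h1 : (n + m).descFactorial m * n.factorial = (n + m).factorial := by
      have := Nat.factorial_mul_descFactorial (Nat.le_add_left m n)
      rw [Nat.add_sub_cancel] at this
      rw [mul_comm]
      exact this
    have h2 : (((n + m).descFactorial m : ℕ) : ℝ) * (n.factorial : ℝ) =
        ((n + m).factorial : ℝ) := by
      exact_mod_cast h1
    have h3 : (n.factorial : ℝ) ≠ 0 := by positivity
    have h4 : ((n + m).factorial : ℝ) ≠ 0 := by positivity
    simp only [NNReal.coe_one, one_pow, mul_one]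
    rw [mul_div_assoc', div_eq_div_iff h4 h3, ← h2]
    ring
  simp only [hterm]
  have h5 := lintegral_countable' (μ := poissonMeasure 1) (fun _ : ℕ => (1 : ℝ≥0∞))
  simp only [one_mul, lintegral_const, measure_univ] at h5
  exact h5.symm

end PM

end WSP
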