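import Pool.Agent.Lib_MP_c175fd.NiceDef

/-!
# Piece MULTI: old and fresh parts of independent marks

Each coordinate: `((lam i).prod μ).map (fun y => ((y.1, stop t y.2), shift t y.2)) =
(((lam i).prod μ).map (fun y => (y.1, stop t y.2))).prod μ` by `IsWiener.map_stop_shift`; product over `i`:
`Measure.pi_map_pi` and the measurable equivalence `MeasurableEquiv.arrowProdEquivProdArrow`
(`measurePreserving_arrowProdEquivProdArrow`).
-/

open MeasureTheory ProbabilityTheory Filter Topology
open scoped ENNReal NNReal

namespace WSP

variable {d : ℕ}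

theorem measurable_oldM {ι : Type*} (t : ℝ≥0) :
    Measurable (oldM t : (ι → Mark d) → ι → Mark d) := by
  refine measurable_pi_lambda _ fun i => ?_
  exact (measurable_fst.comp (measurable_pi_apply i)).prodMk
    ((measurable_stop t).comp (measurable_snd.comp (measurable_pi_apply i)))

private theorem multi_coord {μ : Measure (Path d)} (h : IsWiener μ) (lam : Measure (E d))
    [IsProbabilityMeasure lam] (t : ℝ≥0) :
    (lam.prod μ).map (fun y : Mark d => (((y.1, stop t y.2) : Mark d), shift t y.2)) =
      ((lam.prod μ).map (fun y : Mark d => ((y.1, stop t y.2) : Mark d))).prod μ := by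
  have := h.isProb
  have hst : IsProbabilityMeasure (μ.map (stop t)) :=
    Measure.isProbabilityMeasure_map (measurable_stop t).aemeasurable
  have hm : Measurable (fun w : Path d => (stop t w, shift t w)) :=
    (measurable_stop t).prodMk (measurable_shift t)
  have e1 : (lam.prod μ).map (fun y : Mark d => ((y.1, stop t y.2) : Mark d)) =
      lam.prod (μ.map (stop t)) := by
    have := Measure.map_prod_map lam μ measurable_id (measurable_stop t)
    rw [Measure.map_id] at this
    rw [this]
    rfl
  have e2 : (lam.prod μ).map (fun y : Mark d => (y.1, (stop t y.2, shift t y.2))) =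
      lam.prod ((μ.map (stop t)).prod μ) := by
    have := Measure.map_prod_map lam μ measurable_id hm
    rw [Measure.map_id, h.map_stop_shift t] at this
    rw [this]
    rfl
  have e3 : (fun y : Mark d => (((y.1, stop t y.2) : Mark d), shift t y.2)) =
      MeasurableEquiv.prodAssoc.symm ∘ (fun y : Mark d => (y.1, (stop t y.2, shift t y.2))) := rfl
  have hm2 : Measurable (fun y : Mark d => (y.1, (stop t y.2, shift t y.2))) :=
    measurable_fst.prodMk (hm.comp measurable_snd)
  rw [e1, e3, ← Measure.map_map MeasurableEquiv.prodAssoc.symm.measurable hm2, e2]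
  have e4 := MeasureTheory.Measure.prodAssoc_prod (μ := lam) (ν := μ.map (stop t)) (τ := μ)
  rw [← e4, Measure.map_map MeasurableEquiv.prodAssoc.symm.measurable
    MeasurableEquiv.prodAssoc.measurable, MeasurableEquiv.symm_comp_self, Measure.map_id]

theorem IsWiener.pi_old_fresh {μ : Measure (Path d)} (h : IsWiener μ) {ι : Type*} [Fintype ι]
    (lam : ι → Measure (E d)) [∀ i, IsProbabilityMeasure (lam i)] (t : ℝ≥0) :
    (Measure.pi fun i => (lam i).prod μ).map
        (fun z : ι → Mark d => (oldM t z, fun i => shift t (z i).2)) =
      ((Measure.pi fun i => (lam i).prod μ).map (oldM t)).prod (Measure.pi fun _ : ι => μ) := by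
  have := h.isProb
  have hf : Measurable (fun y : Mark d => ((y.1, stop t y.2) : Mark d)) :=
    measurable_fst.prodMk ((measurable_stop t).comp measurable_snd)
  have hF : Measurable (fun y : Mark d => (((y.1, stop t y.2) : Mark d), shift t y.2)) :=
    hf.prodMk ((measurable_shift t).comp measurable_snd)
  have p1 : ∀ i, IsProbabilityMeasure (((lam i).prod μ).map
      (fun y : Mark d => ((y.1, stop t y.2) : Mark d))) := fun i =>
    Measure.isProbabilityMeasure_map hf.aemeasurable
  have p2 : ∀ i, IsProbabilityMeasure (((lam i).prod μ).map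
      (fun y : Mark d => (((y.1, stop t y.2) : Mark d), shift t y.2))) := fun i =>
    Measure.isProbabilityMeasure_map hF.aemeasurable
  have e1 : (Measure.pi fun i => (lam i).prod μ).map (oldM t) =
      Measure.pi fun i => ((lam i).prod μ).map (fun y : Mark d => ((y.1, stop t y.2) : Mark d)) :=
    Measure.pi_map_pi (f := fun _ (y : Mark d) => ((y.1, stop t y.2) : Mark d))
      (fun i => hf.aemeasurable)
  have e2 : (Measure.pi fun i => (lam i).prod μ).map
      (fun (z : ι → Mark d) (i : ι) => ((((z i).1, stop t (z i).2) : Mark d), shift t (z i).2)) =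
      Measure.pi fun i => ((lam i).prod μ).map
        (fun y : Mark d => (((y.1, stop t y.2) : Mark d), shift t y.2)) :=
    Measure.pi_map_pi (f := fun _ (y : Mark d) => (((y.1, stop t y.2) : Mark d), shift t y.2))
      (fun i => hF.aemeasurable)
  have e3 : (fun z : ι → Mark d => (oldM t z, fun i => shift t (z i).2)) =
      MeasurableEquiv.arrowProdEquivProdArrow (Mark d) (Path d) ι ∘
        (fun (z : ι → Mark d) (i : ι) =>
          ((((z i).1, stop t (z i).2) : Mark d), shift t (z i).2)) := rfl
  have hG : Measurable (fun (z : ι → Mark d) (i : ι) =>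
      ((((z i).1, stop t (z i).2) : Mark d), shift t (z i).2)) :=
    measurable_pi_lambda _ fun i => hF.comp (measurable_pi_apply i)
  have e4 : (fun i => ((lam i).prod μ).map
        (fun y : Mark d => (((y.1, stop t y.2) : Mark d), shift t y.2))) =
      fun i => (((lam i).prod μ).map (fun y : Mark d => ((y.1, stop t y.2) : Mark d))).prod μ :=
    funext fun i => multi_coord h (lam i) t
  rw [e3, ← Measure.map_map (MeasurableEquiv.arrowProdEquivProdArrow (Mark d) (Path d) ι).measurable
    hG, e2, e4, e1]
  exact (measurePreserving_arrowProdEquivProdArrow (Mark d) (Path d) ι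
    (fun i => ((lam i).prod μ).map (fun y : Mark d => ((y.1, stop t y.2) : Mark d)))
    (fun _ => μ)).map_eq

end WSP
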