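import Pool.Agent.Lib_MP_c175fd.Fresh
import Pool.Agent.Lib_MP_c175fd.Win

/-!
# Piece NICEA: nice configurations, definition and measurability

`Nice` only depends on the marks of `J`, and only on the old part (`oldM t z`: paths stopped at time `t`)
of the marks, and is a measurable property.
-/

open MeasureTheory ProbabilityTheory Filter Topology
open scoped ENNReal NNReal

namespace WSP

variable {d : ℕ}

/-- Old part of a configuration. -/
def oldM {ι : Type*} (t : ℝ≥0) (z : ι → Mark d) : ι → Mark d := fun i => ((z i).1, stop t (z i).2)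

open Classical in
/-- Nice configurations for the pair of blocks with corners `k`, `k'` and side `R`. -/
structure Nice (μ : Measure (Path d)) (J : Finset (Idx d)) (z : Idx d → Mark d) (ρ : ℝ)
    (t τ : ℝ≥0) (R : ℕ) (c₂ a₀ Y₀ U : ℝ≥0) (δ : ℝ) (k k' : Fin d → ℤ) : Prop where
  cube : ∀ i ∈ J, (z i).1 ∈ cube i.1
  card : (J.card : ℝ) ≤ U * (R : ℝ) ^ d
  fine : ((J.filter fun i => i.1 ∈ win k R 0 ∪ win k' R 0 ∧
    fineval μ ρ t τ R (z i).2 < c₂).card : ℝ) ≤ δ / 4 * (R : ℝ) ^ d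
  endp : ((J.filter fun i => i.1 ∈ win k R 0 ∪ win k' R 0 ∧
    (a₀ : ℝ≥0∞) * (R : ℝ≥0∞) < ‖(z i).2 t‖ₑ).card : ℝ) ≤ δ / 4 * (R : ℝ) ^ d
  sq : ∫⁻ q in boxE k R (2 * R), ∫⁻ W, ((J.filter fun i => i.1 ∈ win k R 0 ∪ win k' R 0 ∧
    hitR ρ t τ (z i) (q, W)).card : ℝ≥0∞) ^ 2 ∂μ ≤ (Y₀ : ℝ≥0∞) * (R : ℝ≥0∞) ^ d

theorem NICEA_Kset_stop (ρ : ℝ) (s t : ℝ≥0) (w w' : Path d) :
    Kset ρ s t (stop s w) w' = Kset ρ s t w w' := by
  ext z
  constructor
  · rintro ⟨u, hu, v, hv, h⟩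
    refine ⟨u, hu, v, hv, ?_⟩
    rwa [stop_apply, min_eq_left hu] at h
  · rintro ⟨u, hu, v, hv, h⟩
    refine ⟨u, hu, v, hv, ?_⟩
    rwa [stop_apply, min_eq_left hu]

theorem fineval_stop (μ : Measure (Path d)) (ρ : ℝ) (t τ : ℝ≥0) (R : ℕ) (w : Path d) :
    fineval μ ρ t τ R (stop t w) = fineval μ ρ t τ R w := by
  unfold fineval
  simp only [NICEA_Kset_stop]

theorem NICEA_hitR_old {ι : Type*} (ρ : ℝ) (t τ : ℝ≥0) (z : ι → Mark d) (i : ι) (y : Mark d) :
    hitR ρ t τ (oldM t z i) y ↔ hitR ρ t τ (z i) y := by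
  unfold hitR oldM
  simp only [NICEA_Kset_stop]

theorem NICEA_congr {μ : Measure (Path d)} {J : Finset (Idx d)} {z z' : Idx d → Mark d} {ρ : ℝ}
    {t τ : ℝ≥0} {R : ℕ} {c₂ a₀ Y₀ U : ℝ≥0} {δ : ℝ} {k k' : Fin d → ℤ}
    (h1 : ∀ i ∈ J, (z' i).1 = (z i).1)
    (h2 : ∀ i ∈ J, fineval μ ρ t τ R (z' i).2 = fineval μ ρ t τ R (z i).2)
    (h3 : ∀ i ∈ J, (z' i).2 t = (z i).2 t)
    (h4 : ∀ i ∈ J, ∀ y, hitR ρ t τ (z' i) y ↔ hitR ρ t τ (z i) y)
    (hz : Nice μ J z ρ t τ R c₂ a₀ Y₀ U δ k k') :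
    Nice μ J z' ρ t τ R c₂ a₀ Y₀ U δ k k' := by
  classical
  refine ⟨fun i hi => ?_, hz.card, ?_, ?_, ?_⟩
  · rw [h1 i hi]
    exact hz.cube i hi
  · refine le_trans (le_of_eq ?_) hz.fine
    congr 2
    refine Finset.filter_congr fun i hi => ?_
    rw [h2 i hi]
  · refine le_trans (le_of_eq ?_) hz.endp
    congr 2
    refine Finset.filter_congr fun i hi => ?_
    rw [h3 i hi]
  · refine le_trans (le_of_eq ?_) hz.sq
    congr 1
    funext q
    congr 1
    funext W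
    congr 3
    refine Finset.filter_congr fun i hi => ?_
    rw [h4 i hi]

theorem nice_old {μ : Measure (Path d)} {J : Finset (Idx d)} {z : Idx d → Mark d} {ρ : ℝ}
    {t τ : ℝ≥0} {R : ℕ} {c₂ a₀ Y₀ U : ℝ≥0} {δ : ℝ} {k k' : Fin d → ℤ} :
    Nice μ J (oldM t z) ρ t τ R c₂ a₀ Y₀ U δ k k' ↔ Nice μ J z ρ t τ R c₂ a₀ Y₀ U δ k k' := by
  have e3 : ∀ i, (oldM t z i).2 t = (z i).2 t := by
    intro i
    show stop t (z i).2 t = (z i).2 t
    rw [stop_apply, min_self]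
  constructor
  · refine NICEA_congr (fun i _ => rfl) (fun i _ => (fineval_stop _ _ _ _ _ _).symm)
      (fun i _ => (e3 i).symm) (fun i _ y => (NICEA_hitR_old _ _ _ _ _ _).symm)
  · refine NICEA_congr (fun i _ => rfl) (fun i _ => fineval_stop _ _ _ _ _ _)
      (fun i _ => e3 i) (fun i _ y => NICEA_hitR_old _ _ _ _ _ _)

theorem nice_congr {μ : Measure (Path d)} {J : Finset (Idx d)} {z z' : Idx d → Mark d} {ρ : ℝ}
    {t τ : ℝ≥0} {R : ℕ} {c₂ a₀ Y₀ U : ℝ≥0} {δ : ℝ} {k k' : Fin d → ℤ}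
    (h : ∀ i ∈ J, z i = z' i) (hz : Nice μ J z ρ t τ R c₂ a₀ Y₀ U δ k k') :
    Nice μ J z' ρ t τ R c₂ a₀ Y₀ U δ k k' := by
  refine NICEA_congr (fun i hi => by rw [h i hi]) (fun i hi => by rw [h i hi])
    (fun i hi => by rw [h i hi]) (fun i hi y => by rw [h i hi]) hz

theorem NICEA_measurable_fineval (μ : Measure (Path d)) [IsProbabilityMeasure μ] (ρ : ℝ)
    (t τ : ℝ≥0) (R : ℕ) : Measurable (fineval μ ρ t τ R : Path d → ℝ≥0∞) := by
  have h1 : Measurable (fun p : E d × Path d => μ {W | p.1 ∈ Kset ρ t τ p.2 W}) :=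
    measurable_hitprob ρ t τ
  exact h1.lintegral_prod_left'

/-- The number of elements of `J` with a measurable property is measurable. -/
theorem NICEA_measurable_card {α : Type*} [MeasurableSpace α] (J : Finset (Idx d))
    (p : α → Idx d → Prop) [∀ a, DecidablePred (p a)] (hp : ∀ i ∈ J, MeasurableSet {a | p a i}) :
    Measurable fun a => (J.filter (p a)).card := by
  have h : (fun a => (J.filter (p a)).card) =
      fun a => ∑ i ∈ J, if p a i then 1 else 0 := by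
    funext a
    rw [Finset.card_filter]
  rw [h]
  exact Finset.measurable_sum _ fun i hi => Measurable.ite (hp i hi) measurable_const measurable_const

theorem NICEA_measurable_cardR {α : Type*} [MeasurableSpace α] (J : Finset (Idx d))
    (p : α → Idx d → Prop) [∀ a, DecidablePred (p a)] (hp : ∀ i ∈ J, MeasurableSet {a | p a i}) :
    Measurable fun a => ((J.filter (p a)).card : ℝ) :=
  (measurable_from_top (f := (Nat.cast : ℕ → ℝ))).comp (NICEA_measurable_card J p hp)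

theorem NICEA_measurable_cardE {α : Type*} [MeasurableSpace α] (J : Finset (Idx d))
    (p : α → Idx d → Prop) [∀ a, DecidablePred (p a)] (hp : ∀ i ∈ J, MeasurableSet {a | p a i}) :
    Measurable fun a => ((J.filter (p a)).card : ℝ≥0∞) ^ 2 :=
  ((measurable_from_top (f := (Nat.cast : ℕ → ℝ≥0∞))).comp
    (NICEA_measurable_card J p hp)).pow_const 2

open Classical in
theorem NICEA_m3 (μ : Measure (Path d)) [IsProbabilityMeasure μ] (J : Finset (Idx d))
    (ρ : ℝ) (t τ : ℝ≥0) (R : ℕ) (c₂ : ℝ≥0) (δ : ℝ) (k k' : Fin d → ℤ) :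
    MeasurableSet {z : Idx d → Mark d |
      ((J.filter fun i => i.1 ∈ win k R 0 ∪ win k' R 0 ∧
        fineval μ ρ t τ R (z i).2 < c₂).card : ℝ) ≤ δ / 4 * (R : ℝ) ^ d} := by
  have hz : ∀ i : Idx d, Measurable fun z : Idx d → Mark d => z i := fun i => measurable_pi_apply i
  have hm : Measurable fun z : Idx d → Mark d =>
      ((J.filter fun i => i.1 ∈ win k R 0 ∪ win k' R 0 ∧
        fineval μ ρ t τ R (z i).2 < c₂).card : ℝ) := by
    refine NICEA_measurable_cardR J (fun (z : Idx d → Mark d) i => i.1 ∈ win k R 0 ∪ win k' R 0 ∧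
        fineval μ ρ t τ R (z i).2 < c₂) fun i _ => ?_
    have hs : MeasurableSet {z : Idx d → Mark d | fineval μ ρ t τ R (z i).2 < c₂} :=
      measurableSet_lt ((NICEA_measurable_fineval μ ρ t τ R).comp (measurable_snd.comp (hz i)))
        measurable_const
    exact (MeasurableSet.const _).inter hs
  exact measurableSet_le hm measurable_const

open Classical in
theorem NICEA_m4 (J : Finset (Idx d)) (t : ℝ≥0) (R : ℕ) (a₀ : ℝ≥0) (δ : ℝ) (k k' : Fin d → ℤ) :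
    MeasurableSet {z : Idx d → Mark d |
      ((J.filter fun i => i.1 ∈ win k R 0 ∪ win k' R 0 ∧
        (a₀ : ℝ≥0∞) * (R : ℝ≥0∞) < ‖(z i).2 t‖ₑ).card : ℝ) ≤ δ / 4 * (R : ℝ) ^ d} := by
  have hz : ∀ i : Idx d, Measurable fun z : Idx d → Mark d => z i := fun i => measurable_pi_apply i
  have hm : Measurable fun z : Idx d → Mark d =>
      ((J.filter fun i => i.1 ∈ win k R 0 ∪ win k' R 0 ∧
        (a₀ : ℝ≥0∞) * (R : ℝ≥0∞) < ‖(z i).2 t‖ₑ).card : ℝ) := by
    refine NICEA_measurable_cardR J (fun (z : Idx d → Mark d) i => i.1 ∈ win k R 0 ∪ win k' R 0 ∧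
        (a₀ : ℝ≥0∞) * (R : ℝ≥0∞) < ‖(z i).2 t‖ₑ) fun i _ => ?_
    have hs : MeasurableSet {z : Idx d → Mark d | (a₀ : ℝ≥0∞) * (R : ℝ≥0∞) < ‖(z i).2 t‖ₑ} :=
      measurableSet_lt measurable_const
        ((measurable_eval t).comp (measurable_snd.comp (hz i))).enorm
    exact (MeasurableSet.const _).inter hs
  exact measurableSet_le hm measurable_const

open Classical in
theorem NICEA_m5 (μ : Measure (Path d)) [IsProbabilityMeasure μ] (J : Finset (Idx d))
    (ρ : ℝ) (t τ : ℝ≥0) (R : ℕ) (Y₀ : ℝ≥0) (k k' : Fin d → ℤ) :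
    MeasurableSet {z : Idx d → Mark d |
      ∫⁻ q in boxE k R (2 * R), ∫⁻ W, ((J.filter fun i => i.1 ∈ win k R 0 ∪ win k' R 0 ∧
        hitR ρ t τ (z i) (q, W)).card : ℝ≥0∞) ^ 2 ∂μ ≤ (Y₀ : ℝ≥0∞) * (R : ℝ≥0∞) ^ d} := by
  have hz : ∀ i : Idx d, Measurable fun z : Idx d → Mark d => z i := fun i => measurable_pi_apply i
  have h3 : Measurable fun a : ((Idx d → Mark d) × E d) × Path d =>
      ((J.filter fun i => i.1 ∈ win k R 0 ∪ win k' R 0 ∧
        hitR ρ t τ (a.1.1 i) (a.1.2, a.2)).card : ℝ≥0∞) ^ 2 := by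
    refine NICEA_measurable_cardE J (fun (a : ((Idx d → Mark d) × E d) × Path d) i =>
      i.1 ∈ win k R 0 ∪ win k' R 0 ∧ hitR ρ t τ (a.1.1 i) (a.1.2, a.2)) fun i _ => ?_
    refine (MeasurableSet.const _).inter ?_
    have h2 : Measurable fun a : ((Idx d → Mark d) × E d) × Path d =>
        (a.1.1 i, ((a.1.2, a.2) : Mark d)) :=
      ((hz i).comp (measurable_fst.comp measurable_fst)).prodMk
        ((measurable_snd.comp measurable_fst).prodMk measurable_snd)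
    exact h2 (measurableSet_hitR ρ t τ)
  have h4 := h3.lintegral_prod_right' (ν := μ)
  have h5 := h4.lintegral_prod_right' (ν := (volume : Measure (E d)).restrict (boxE k R (2 * R)))
  exact measurableSet_le h5 measurable_const

theorem measurableSet_nice (μ : Measure (Path d)) [IsProbabilityMeasure μ] (J : Finset (Idx d))
    (ρ : ℝ) (t τ : ℝ≥0) (R : ℕ) (c₂ a₀ Y₀ U : ℝ≥0) (δ : ℝ) (k k' : Fin d → ℤ) :
    MeasurableSet {z : Idx d → Mark d | Nice μ J z ρ t τ R c₂ a₀ Y₀ U δ k k'} := by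
  have m1 : MeasurableSet {z : Idx d → Mark d | ∀ i ∈ J, (z i).1 ∈ cube i.1} := by
    have : {z : Idx d → Mark d | ∀ i ∈ J, (z i).1 ∈ cube i.1} =
        ⋂ i ∈ J, {z : Idx d → Mark d | (z i).1 ∈ cube i.1} := by
      ext z
      simp
    rw [this]
    refine Finset.measurableSet_biInter _ fun i _ => ?_
    have hz : Measurable fun z : Idx d → Mark d => (z i).1 :=
      measurable_fst.comp (measurable_pi_apply i)
    exact hz (PM.measurableSet_cube i.1)
  have m2 : MeasurableSet {z : Idx d → Mark d | (J.card : ℝ) ≤ U * (R : ℝ) ^ d} :=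
    MeasurableSet.const _
  refine ((((m1.inter m2).inter (NICEA_m3 μ J ρ t τ R c₂ δ k k')).inter
    (NICEA_m4 J t R a₀ δ k k')).inter (NICEA_m5 μ J ρ t τ R Y₀ k k')).congr ?_
  ext z
  constructor
  · rintro ⟨⟨⟨⟨h1, h2⟩, h3⟩, h4⟩, h5⟩
    exact ⟨h1, h2, h3, h4, h5⟩
  · intro h
    exact ⟨⟨⟨⟨h.cube, h.card⟩, h.fine⟩, h.endp⟩, h.sq⟩

end WSP
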