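import Pool.Agent.Lib_MP_c175fd.NiceDef

/-!
# Piece NICEHIT: in a nice configuration many points hit every large set

`B ⊆ J` is a set of indices of the two blocks, `S ⊆ B` has at least `δ R ^ d` elements, so at least
`(3/4) δ R ^ d` fine elements, and `B \ S` has at least `δ R ^ d` elements, at least `(3/4) δ R ^ d` of which
have an endpoint `p = (z x).1 + (z x).2 t` at distance at most `a₀ R` from the starting point. For such an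
`x`: all starting points of `S` and `x` are in `boxE k R R` (`mem_boxE_iff`, `boxE_subset`), closed balls of
radius `R` around them are in `D = boxE k R (2 R)` (`closedBall_subset_boxE`), and `D` is contained in
`closedBall p ((a₀ + 5 d) R)` (`dist_le_of_mem_boxE`). `fresh_hit` applies to `S` (monotonicity of the
squared count in `hY`).
-/

open MeasureTheory ProbabilityTheory Filter Topology
open scoped ENNReal NNReal

namespace WSP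

variable {d : ℕ}

theorem nice_hit_box {J : Finset (Idx d)} {z : Idx d → Mark d} {R : ℕ} {k k' : Fin d → ℤ}
    (hk : ∀ i, |k' i - k i| ≤ R) (hc : ∀ i ∈ J, (z i).1 ∈ cube i.1) {s : Idx d} (hs : s ∈ J)
    (hw : s.1 ∈ win k R 0 ∪ win k' R 0) :
    Metric.closedBall (z s).1 (R : ℝ) ⊆ boxE k R (2 * R) := by
  have h1 : (z s).1 ∈ boxE k R (R + 0) := by
    rcases Finset.mem_union.1 hw with h | h
    · exact boxE_subset (k' := k) (fun i => by simp) ((mem_boxE_iff (hc s hs)).2 h)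
    · exact boxE_subset hk ((mem_boxE_iff (hc s hs)).2 h)
  have h2 := closedBall_subset_boxE h1 R
  rwa [show R + 0 + R = 2 * R by ring] at h2

theorem nice_hit_norm {a₀ : ℝ≥0} {R : ℕ} {v : E d} (h : ‖v‖ₑ ≤ (a₀ : ℝ≥0∞) * (R : ℝ≥0∞)) :
    ‖v‖ ≤ a₀ * R := by
  have h1 : (‖v‖₊ : ℝ≥0∞) ≤ ((a₀ * (R : ℝ≥0) : ℝ≥0) : ℝ≥0∞) := by
    push_cast
    exact h
  have h2 : ‖v‖₊ ≤ a₀ * (R : ℝ≥0) := ENNReal.coe_le_coe.1 h1
  exact_mod_cast h2

open Classical in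
theorem nice_hit {μ : Measure (Path d)} (h : IsWiener μ) {J : Finset (Idx d)}
    {z : Idx d → Mark d} {ρ : ℝ} {t τ : ℝ≥0} {R : ℕ} (hR : 0 < R) {c₂ a₀ Y₀ U K₀ c₅ : ℝ≥0}
    (hY₀ : 0 < Y₀) {δ : ℝ} (hδ : 0 < δ) {k k' : Fin d → ℤ} (hk : ∀ i, |k' i - k i| ≤ R)
    (hN : Nice μ J z ρ t τ R c₂ a₀ Y₀ U δ k k') (hK : (a₀ : ℝ) + 5 * d ≤ K₀)
    (hsm : ∀ (y : E d) (A : Set (E d)), MeasurableSet A → A ⊆ Metric.closedBall y (K₀ * R) →
      (c₅ : ℝ≥0∞) * volume A / (R : ℝ≥0∞) ^ d ≤ μ {W | y + W τ ∈ A})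
    {B S : Finset (Idx d)} (hBJ : B ⊆ J) (hBk : ∀ i ∈ B, i.1 ∈ win k R 0 ∪ win k' R 0)
    (hSB : S ⊆ B) (hS : δ * (R : ℝ) ^ d ≤ S.card) (hS' : δ * (R : ℝ) ^ d ≤ (B \ S).card) :
    ⌈3 / 4 * δ * (R : ℝ) ^ d⌉₊ ≤ ((B \ S).filter fun x =>
      (c₅ : ℝ≥0∞) * (ENNReal.ofReal (3 / 4 * δ) * c₂) ^ 2 / Y₀ ≤
        μ {W | ∃ s ∈ S, hitR ρ t (τ + τ) (z s) ((z x).1 + (z x).2 t, W)}).card := by
  have hRr : (0 : ℝ) < R := by exact_mod_cast hR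
  obtain ⟨m, hm⟩ : ∃ m : ℕ, m = ⌈3 / 4 * δ * (R : ℝ) ^ d⌉₊ := ⟨_, rfl⟩
  have hml : 3 / 4 * δ * (R : ℝ) ^ d ≤ m := by
    rw [hm]
    exact Nat.le_ceil _
  -- the elements with an endpoint which is not far away
  have hG : ⌈3 / 4 * δ * (R : ℝ) ^ d⌉₊ ≤
      ((B \ S).filter fun x => ¬ ((a₀ : ℝ≥0∞) * (R : ℝ≥0∞) < ‖(z x).2 t‖ₑ)).card := by
    rw [Nat.ceil_le]
    have h1 := Finset.card_filter_add_card_filter_not (s := B \ S)
      (fun x => (a₀ : ℝ≥0∞) * (R : ℝ≥0∞) < ‖(z x).2 t‖ₑ)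
    have h2 : ((B \ S).filter fun x => (a₀ : ℝ≥0∞) * (R : ℝ≥0∞) < ‖(z x).2 t‖ₑ).card ≤
        (J.filter fun i => i.1 ∈ win k R 0 ∪ win k' R 0 ∧
          (a₀ : ℝ≥0∞) * (R : ℝ≥0∞) < ‖(z i).2 t‖ₑ).card := by
      refine Finset.card_le_card fun x hx => ?_
      rw [Finset.mem_filter] at hx ⊢
      have h3 := (Finset.mem_sdiff.1 hx.1).1
      exact ⟨hBJ h3, hBk x h3, hx.2⟩
    have h3 := hN.endp
    have h4 : (((B \ S).filter fun x => (a₀ : ℝ≥0∞) * (R : ℝ≥0∞) < ‖(z x).2 t‖ₑ).card : ℝ) ≤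
        δ / 4 * (R : ℝ) ^ d := (Nat.cast_le.2 h2).trans h3
    have h5 : (((B \ S).filter fun x => (a₀ : ℝ≥0∞) * (R : ℝ≥0∞) < ‖(z x).2 t‖ₑ).card : ℝ) +
        (((B \ S).filter fun x => ¬ ((a₀ : ℝ≥0∞) * (R : ℝ≥0∞) < ‖(z x).2 t‖ₑ)).card : ℝ) =
        ((B \ S).card : ℝ) := by exact_mod_cast h1
    linarith
  refine hG.trans (Finset.card_le_card fun x hx => ?_)
  rw [Finset.mem_filter] at hx ⊢
  obtain ⟨hx1, hx2⟩ := hx
  refine ⟨hx1, ?_⟩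
  have hxB := (Finset.mem_sdiff.1 hx1).1
  have hxn : ‖(z x).2 t‖ ≤ a₀ * R := nice_hit_norm (not_lt.1 hx2)
  have hball : ∀ s ∈ B, Metric.closedBall (z s).1 (R : ℝ) ⊆ boxE k R (2 * R) := fun s hs =>
    nice_hit_box hk hN.cube (hBJ hs) (hBk s hs)
  have hxD : (z x).1 ∈ boxE k R (2 * R) :=
    hball x hxB (Metric.mem_closedBall_self (Nat.cast_nonneg R))
  have hDball : boxE k R (2 * R) ⊆ Metric.closedBall ((z x).1 + (z x).2 t) (K₀ * R) := by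
    intro q hq
    rw [Metric.mem_closedBall]
    have h1 := dist_le_of_mem_boxE hq hxD
    have h2 : dist (z x).1 ((z x).1 + (z x).2 t) = ‖(z x).2 t‖ := by
      rw [dist_self_add_right]
    have h3 := dist_triangle q (z x).1 ((z x).1 + (z x).2 t)
    have h4 : (d : ℝ) * ((R + 2 * (2 * R) : ℕ) : ℝ) = 5 * d * R := by
      push_cast
      ring
    rw [h4] at h1
    rw [h2] at h3
    have h5 : ((a₀ : ℝ) + 5 * d) * R ≤ K₀ * R := mul_le_mul_of_nonneg_right hK hRr.le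
    linarith
  have hfine : m ≤ (S.filter fun s => (c₂ : ℝ≥0∞) ≤ fineval μ ρ t τ R (z s).2).card := by
    rw [hm, Nat.ceil_le]
    have h1 := Finset.card_filter_add_card_filter_not (s := S)
      (fun s => (c₂ : ℝ≥0∞) ≤ fineval μ ρ t τ R (z s).2)
    have h2 : (S.filter fun s => ¬ ((c₂ : ℝ≥0∞) ≤ fineval μ ρ t τ R (z s).2)).card ≤
        (J.filter fun i => i.1 ∈ win k R 0 ∪ win k' R 0 ∧
          fineval μ ρ t τ R (z i).2 < c₂).card := by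
      refine Finset.card_le_card fun s hs => ?_
      rw [Finset.mem_filter] at hs ⊢
      exact ⟨hBJ (hSB hs.1), hBk s (hSB hs.1), not_le.1 hs.2⟩
    have h3 := hN.fine
    have h4 : ((S.filter fun s => ¬ ((c₂ : ℝ≥0∞) ≤ fineval μ ρ t τ R (z s).2)).card : ℝ) ≤
        δ / 4 * (R : ℝ) ^ d := (Nat.cast_le.2 h2).trans h3
    have h5 : ((S.filter fun s => (c₂ : ℝ≥0∞) ≤ fineval μ ρ t τ R (z s).2).card : ℝ) +
        ((S.filter fun s => ¬ ((c₂ : ℝ≥0∞) ≤ fineval μ ρ t τ R (z s).2)).card : ℝ) =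
        (S.card : ℝ) := by exact_mod_cast h1
    linarith
  have hY : ∫⁻ q in boxE k R (2 * R), ∫⁻ W,
      ((S.filter fun s => hitR ρ t τ (z s) (q, W)).card : ℝ≥0∞) ^ 2 ∂μ ≤
      (Y₀ : ℝ≥0∞) * (R : ℝ≥0∞) ^ d := by
    refine le_trans (lintegral_mono fun q => lintegral_mono fun W => ?_) hN.sq
    have h1 : (S.filter fun s => hitR ρ t τ (z s) (q, W)).card ≤
        (J.filter fun i => i.1 ∈ win k R 0 ∪ win k' R 0 ∧ hitR ρ t τ (z i) (q, W)).card := by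
      refine Finset.card_le_card fun s hs => ?_
      rw [Finset.mem_filter] at hs ⊢
      exact ⟨hBJ (hSB hs.1), hBk s (hSB hs.1), hs.2⟩
    have h2 : ((S.filter fun s => hitR ρ t τ (z s) (q, W)).card : ℝ≥0∞) ≤
        ((J.filter fun i => i.1 ∈ win k R 0 ∪ win k' R 0 ∧
          hitR ρ t τ (z i) (q, W)).card : ℝ≥0∞) := Nat.cast_le.2 h1
    exact pow_le_pow_left' h2 2
  have hmain := fresh_hit h S z hR (measurableSet_boxE k R (2 * R)) hY₀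
    (fun s hs => hball s (hSB hs))
    (fun A hA hAD => hsm ((z x).1 + (z x).2 t) A hA (hAD.trans hDball)) hfine hY
  refine le_trans ?_ hmain
  have hRE : (R : ℝ≥0∞) ^ (2 * d) ≠ 0 := pow_ne_zero _ (by exact_mod_cast hR.ne')
  have hRE' : (R : ℝ≥0∞) ^ (2 * d) ≠ ∞ := ENNReal.pow_ne_top (ENNReal.natCast_ne_top R)
  have e1 : ENNReal.ofReal (3 / 4 * δ) * (R : ℝ≥0∞) ^ d ≤ (m : ℝ≥0∞) := by
    rw [← ENNReal.ofReal_natCast R, ← ENNReal.ofReal_pow (Nat.cast_nonneg R),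
      ← ENNReal.ofReal_mul (by positivity), ← ENNReal.ofReal_natCast m]
    exact ENNReal.ofReal_le_ofReal hml
  calc (c₅ : ℝ≥0∞) * (ENNReal.ofReal (3 / 4 * δ) * c₂) ^ 2 / Y₀
      = (c₅ : ℝ≥0∞) * (ENNReal.ofReal (3 / 4 * δ) * c₂) ^ 2 * (R : ℝ≥0∞) ^ (2 * d) /
          ((Y₀ : ℝ≥0∞) * (R : ℝ≥0∞) ^ (2 * d)) := by
        rw [ENNReal.mul_div_mul_right _ _ hRE hRE']
    _ = (c₅ : ℝ≥0∞) * (ENNReal.ofReal (3 / 4 * δ) * (R : ℝ≥0∞) ^ d * c₂) ^ 2 /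
          ((Y₀ : ℝ≥0∞) * (R : ℝ≥0∞) ^ (2 * d)) := by
        congr 1
        ring
    _ ≤ (c₅ : ℝ≥0∞) * ((m : ℝ≥0∞) * c₂) ^ 2 / ((Y₀ : ℝ≥0∞) * (R : ℝ≥0∞) ^ (2 * d)) := by
        gcongr

end WSP
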