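import Pool.Agent.Lib_MP_c175fd.NiceDef
import Pool.Agent.Lib_MP_c175fd.Fine
import Pool.Agent.Lib_MP_c175fd.CountA

/-!
# Pieces YMEAN, NICEP: configurations are nice with high probability

YMEAN (`sq_mean_le`): for fixed `(q, W)` the number of the present points `i` with `hitR ρ t τ (y i) (q, W)` is
`cnt` for `V = Unit`, with mean `v W = ∫ w, Vol ρ t τ w W`, and by `lintegral_cnt_sq_le` (empty relation,
`M = 0`) its second moment is at most `(v W) ^ 2 + K v W`, `K = Nat.card (Gluing Unit Unit)`; integrate over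
`(q, W)`: `∫ v ^ 2 ≤ EV2`, `∫ v = EV`.

NICEP (`nice_prob`): the five conditions of `Nice` fail with probability at most `η / 5` each:
`ae_mem_cube`; `points_upper` (`M.J (win k R (D R)) ω` has `cnt {(z ()).1 ∈ boxE k R (D R)} ω` elements almost
surely, `mem_boxE_iff`, and `R + 2 D R = (2 D + 1) R`); for `fine` and `endp` the number is at most the
number of the present points with starting point in `boxE k R R` (volume `(3 R) ^ d`) and bad path, the bad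
paths having measure at most `δ' = δ / (8 * 3 ^ d)` (`fine_shapes`, `endpoint_range`), so its mean is at
most `(δ / 8) R ^ d`, and Chebyshev's inequality (`lintegral_cnt_sq_le`, `cheb_upper`, or Chebyshev around a
larger set); `sq`: `sq_mean_le`, `volume (boxE k R (2 R)) = (5 R) ^ d`, `EV2 (2r) t τ ≤ EV2 (2r) t' t'` with
`t' = tt d (max c c') r` is bounded (`AnFacts.ev2`), and Markov's inequality with `C_Y` large.
-/

open MeasureTheory ProbabilityTheory Filter Topology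
open scoped ENNReal NNReal

namespace WSP

variable {d : ℕ} {Ω : Type*} [MeasurableSpace Ω] {P : Measure Ω} {μ : Measure (Path d)}

/-! ### single point counts -/

theorem NICEP_pi (ν : Measure (Mark d)) [SigmaFinite ν] (S : Set (Mark d)) :
    Measure.pi (fun _ : Unit => ν) {z : Unit → Mark d | z () ∈ S} = ν S := by
  have h1 : {z : Unit → Mark d | z () ∈ S} = Set.univ.pi (fun _ : Unit => S) := by
    ext z
    rw [Set.mem_univ_pi]
    exact ⟨fun h _ => h, fun h => h ()⟩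
  rw [h1, Measure.pi_pi]
  simp

theorem NICEP_meas {S : Set (Mark d)} (hS : MeasurableSet S) :
    MeasurableSet {z : Unit → Mark d | z () ∈ S} :=
  (measurable_pi_apply ()) hS

theorem NICEP_mean (M : PM d P μ) [IsProbabilityMeasure P] [IsProbabilityMeasure μ]
    {S : Set (Mark d)} (hS : MeasurableSet S) :
    ∫⁻ ω, cnt M.pres M.y {z : Unit → Mark d | z () ∈ S} ω ∂P = nuM μ S := by
  rw [M.mecke Unit _ (NICEP_meas hS), NICEP_pi]

theorem NICEP_sq (M : PM d P μ) [IsProbabilityMeasure P] [IsProbabilityMeasure μ]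
    {S : Set (Mark d)} (hS : MeasurableSet S) :
    ∫⁻ ω, (cnt M.pres M.y {z : Unit → Mark d | z () ∈ S} ω) ^ 2 ∂P ≤
      (nuM μ S) ^ 2 + (Nat.card (Gluing Unit Unit) : ℝ≥0∞) * nuM μ S := by
  have hG : (⊥ : SimpleGraph Unit).Connected := by
    have : Nonempty Unit := ⟨()⟩
    exact ⟨fun a b => by rw [Subsingleton.elim a b]⟩
  have h := lintegral_cnt_sq_le (P := P) (ν := nuM μ) (fun i => M.measurableSet_pres i) M.measy
    M.mecke (rel := fun _ _ => False) (by simp) (fun _ _ h => h) (M := 0) (by simp) hG () hS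
    (NICEP_meas hS) (by
      intro z hz
      exact ⟨hz, fun u v huv => by simp at huv⟩)
  rw [NICEP_pi] at h
  simpa using h

theorem NICEP_cheb (M : PM d P μ) [IsProbabilityMeasure P] [IsProbabilityMeasure μ]
    {S : Set (Mark d)} (hS : MeasurableSet S) {β : ℝ≥0} (hβ : 0 < β) (h : nuM μ S ≤ β) :
    P {ω | 2 * (β : ℝ≥0∞) < cnt M.pres M.y {z : Unit → Mark d | z () ∈ S} ω} ≤
      (Nat.card (Gluing Unit Unit) : ℝ≥0∞) / β := by
  have hβ0 : (β : ℝ≥0∞) ≠ 0 := by exact_mod_cast hβ.ne'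
  have hβt : (β : ℝ≥0∞) ≠ ∞ := ENNReal.coe_ne_top
  have he' : nuM μ S ≠ ∞ := ne_top_of_le_ne_top hβt h
  have hlt : nuM μ S < 2 * (β : ℝ≥0∞) := by
    refine lt_of_le_of_lt h ?_
    rw [two_mul]
    exact ENNReal.lt_add_right hβt hβ0
  have h3 := cheb_upper (measurable_cnt (fun i => M.measurableSet_pres i) M.measy
    (NICEP_meas hS)) (NICEP_mean M hS) he' (NICEP_sq M hS) hlt
  refine (measure_mono ?_).trans (h3.trans ?_)
  · intro ω hω
    have h5 : 2 * (β : ℝ≥0∞) < cnt M.pres M.y {z : Unit → Mark d | z () ∈ S} ω := hω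
    exact h5.le
  · have h4 : (β : ℝ≥0∞) ≤ 2 * β - nuM μ S := by
      refine ENNReal.le_sub_of_add_le_right he' ?_
      rw [two_mul]
      exact add_le_add le_rfl h
    calc (Nat.card (Gluing Unit Unit) : ℝ≥0∞) * nuM μ S / (2 * β - nuM μ S) ^ 2
        ≤ (Nat.card (Gluing Unit Unit) : ℝ≥0∞) * β / (β : ℝ≥0∞) ^ 2 :=
          ENNReal.div_le_div (mul_le_mul' le_rfl h) (pow_le_pow_left' h4 2)
      _ = (Nat.card (Gluing Unit Unit) : ℝ≥0∞) / β := by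
          rw [sq, ENNReal.mul_div_mul_right _ _ hβ0 hβt]

theorem NICEP_card (M : PM d P μ) (ω : Ω) {S : Set (Mark d)} {T : Finset (Idx d)}
    (h : ∀ i ∈ T, ω ∈ M.pres i ∧ M.y i ω ∈ S) :
    (T.card : ℝ≥0∞) ≤ cnt M.pres M.y {z : Unit → Mark d | z () ∈ S} ω := by
  classical
  unfold cnt
  let e : Idx d → (Unit ↪ Idx d) := fun i => ⟨fun _ => i, fun _ _ _ => rfl⟩
  have he : Function.Injective e := by
    intro i j h
    exact DFunLike.congr_fun h ()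
  refine le_trans ?_ (ENNReal.tsum_comp_le_tsum_of_injective he _)
  refine le_trans ?_ (ENNReal.sum_le_tsum T)
  rw [Finset.card_eq_sum_ones, Nat.cast_sum]
  refine Finset.sum_le_sum fun i hi => ?_
  rw [Set.indicator_of_mem]
  · simp
  · exact ⟨fun _ => (h i hi).1, (h i hi).2⟩

/-! ### YMEAN -/

theorem NICEP_measurable_F (M : PM d P μ) (ρ : ℝ) (t τ : ℝ≥0) :
    Measurable (fun q : Ω × Mark d =>
      cnt M.pres M.y {z : Unit → Mark d | hitR ρ t τ (z ()) q.2} q.1) := by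
  have hc : Countable (Unit ↪ Idx d) :=
    Function.Injective.countable (f := fun a : Unit ↪ Idx d => (a : Unit → Idx d))
      DFunLike.coe_injective
  unfold cnt
  refine Measurable.tsum fun a => ?_
  have h1 : MeasurableSet {q : Ω × Mark d | (∀ v, q.1 ∈ M.pres (a v)) ∧
      hitR ρ t τ (M.y (a ()) q.1) q.2} := by
    have h3 : Measurable (fun q : Ω × Mark d => ((M.y (a ()) q.1, q.2) : Mark d × Mark d)) :=
      ((M.measy (a ())).comp measurable_fst).prodMk measurable_snd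
    have h2 : {q : Ω × Mark d | (∀ v, q.1 ∈ M.pres (a v)) ∧
        hitR ρ t τ (M.y (a ()) q.1) q.2} =
        (⋂ v, (Prod.fst : Ω × Mark d → Ω) ⁻¹' (M.pres (a v))) ∩
          (fun q : Ω × Mark d => ((M.y (a ()) q.1, q.2) : Mark d × Mark d)) ⁻¹'
            {p : Mark d × Mark d | hitR ρ t τ p.1 p.2} := by
      ext q
      rw [Set.mem_inter_iff, Set.mem_iInter]
      exact Iff.rfl
    rw [h2]
    exact (MeasurableSet.iInter fun v => measurable_fst (M.measurableSet_pres (a v))).inter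
      (h3 (measurableSet_hitR ρ t τ))
  have h4 : Measurable ({q : Ω × Mark d | (∀ v, q.1 ∈ M.pres (a v)) ∧
      hitR ρ t τ (M.y (a ()) q.1) q.2}.indicator (fun _ => (1 : ℝ≥0∞))) :=
    measurable_const.indicator h1
  have h5 : (fun q : Ω × Mark d => Set.indicator {ω | (∀ v, ω ∈ M.pres (a v)) ∧
      (fun v => M.y (a v) ω) ∈ {z : Unit → Mark d | hitR ρ t τ (z ()) q.2}}
        (fun _ => (1 : ℝ≥0∞)) q.1) = {q : Ω × Mark d | (∀ v, q.1 ∈ M.pres (a v)) ∧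
      hitR ρ t τ (M.y (a ()) q.1) q.2}.indicator (fun _ => (1 : ℝ≥0∞)) := by
    funext q
    rfl
  rw [h5]
  exact h4

/-- the mean number of the points which hit -/
theorem NICEP_nu [IsProbabilityMeasure μ] (ρ : ℝ) (t τ : ℝ≥0) (p : Mark d) :
    nuM μ {y | hitR ρ t τ y p} = ∫⁻ w, Vol ρ t τ w p.2 ∂μ := by
  have hm : MeasurableSet {y : Mark d | hitR ρ t τ y p} := by
    have h3 : Measurable (fun y : Mark d => ((y, p) : Mark d × Mark d)) :=
      measurable_id.prodMk measurable_const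
    exact h3 (measurableSet_hitR ρ t τ)
  unfold nuM
  rw [Measure.prod_apply_symm hm]
  refine lintegral_congr fun w => ?_
  have h1 : (fun x : E d => (x, w)) ⁻¹' {y : Mark d | hitR ρ t τ y p} =
      (fun x : E d => p.1 - x) ⁻¹' (Kset ρ t τ w p.2) := rfl
  rw [h1, (Measure.measurePreserving_sub_left volume p.1).measure_preimage
    (isOpen_Kset ρ t τ w p.2).measurableSet.nullMeasurableSet]
  rfl

theorem NICEP_X_eq (M : PM d P μ) [IsProbabilityMeasure μ] (ρ : ℝ) (t τ : ℝ≥0) (D : Set (E d))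
    (ω : Ω) :
    (∫⁻ q in D, ∫⁻ W,
      (cnt M.pres M.y {z : Unit → Mark d | hitR ρ t τ (z ()) (q, W)} ω) ^ 2 ∂μ) =
    ∫⁻ p, (cnt M.pres M.y {z : Unit → Mark d | hitR ρ t τ (z ()) p} ω) ^ 2
      ∂((volume.restrict D).prod μ) := by
  have h1 : Measurable (fun p : Mark d =>
      (cnt M.pres M.y {z : Unit → Mark d | hitR ρ t τ (z ()) p} ω) ^ 2) :=
    ((NICEP_measurable_F M ρ t τ).comp measurable_prodMk_left).pow_const 2
  rw [lintegral_prod _ h1.aemeasurable]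

theorem NICEP_X_meas (M : PM d P μ) [IsProbabilityMeasure μ] (ρ : ℝ) (t τ : ℝ≥0)
    (D : Set (E d)) :
    Measurable (fun ω => (∫⁻ q in D, ∫⁻ W,
      (cnt M.pres M.y {z : Unit → Mark d | hitR ρ t τ (z ()) (q, W)} ω) ^ 2 ∂μ)) := by
  simp only [NICEP_X_eq]
  exact ((NICEP_measurable_F M ρ t τ).pow_const 2).lintegral_prod_right'

/-- Piece YMEAN. -/
theorem sq_mean_le (M : PM d P μ) [IsProbabilityMeasure P] (h : IsWiener μ) (ρ : ℝ) (t τ : ℝ≥0)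
    {D : Set (E d)} (hD : MeasurableSet D) :
    ∫⁻ ω, (∫⁻ q in D, ∫⁻ W,
      (cnt M.pres M.y {z : Unit → Mark d | hitR ρ t τ (z ()) (q, W)} ω) ^ 2 ∂μ) ∂P ≤
    volume D * (EV2 μ ρ t τ + (Nat.card (Gluing Unit Unit) : ℝ≥0∞) * EV μ ρ t τ) := by
  have _ := hD
  have := h.isProb
  simp only [NICEP_X_eq]
  rw [lintegral_lintegral_swap (((NICEP_measurable_F M ρ t τ).pow_const 2).aemeasurable)]
  have hu : Measurable (fun W : Path d => ∫⁻ w, Vol ρ t τ w W ∂μ) :=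
    (measurable_Vol ρ t τ).lintegral_prod_left'
  have h1 : ∀ p : Mark d, ∫⁻ ω, (cnt M.pres M.y {z : Unit → Mark d | hitR ρ t τ (z ()) p} ω) ^ 2
      ∂P ≤ (∫⁻ w, Vol ρ t τ w p.2 ∂μ) ^ 2 +
        (Nat.card (Gluing Unit Unit) : ℝ≥0∞) * ∫⁻ w, Vol ρ t τ w p.2 ∂μ := by
    intro p
    have hm : MeasurableSet {y : Mark d | hitR ρ t τ y p} := by
      have h3 : Measurable (fun y : Mark d => ((y, p) : Mark d × Mark d)) :=
        measurable_id.prodMk measurable_const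
      exact h3 (measurableSet_hitR ρ t τ)
    have h2 := NICEP_sq M hm
    rw [NICEP_nu] at h2
    exact h2
  refine (lintegral_mono h1).trans ?_
  have hg : Measurable (fun W : Path d => (∫⁻ w, Vol ρ t τ w W ∂μ) ^ 2 +
        (Nat.card (Gluing Unit Unit) : ℝ≥0∞) * ∫⁻ w, Vol ρ t τ w W ∂μ) :=
    (hu.pow_const 2).add (hu.const_mul _)
  rw [lintegral_prod (fun p : Mark d => (∫⁻ w, Vol ρ t τ w p.2 ∂μ) ^ 2 +
    (Nat.card (Gluing Unit Unit) : ℝ≥0∞) * ∫⁻ w, Vol ρ t τ w p.2 ∂μ)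
    (hg.comp measurable_snd).aemeasurable]
  simp only [lintegral_const, Measure.restrict_apply MeasurableSet.univ, Set.univ_inter]
  rw [mul_comm]
  refine mul_le_mul' le_rfl ?_
  rw [lintegral_add_left (hu.pow_const 2), lintegral_const_mul _ hu]
  have hsw1 : ∫⁻ W, ∫⁻ w, Vol ρ t τ w W ∂μ ∂μ = EV μ ρ t τ := by
    unfold EV
    exact lintegral_lintegral_swap
      (((measurable_Vol ρ t τ).comp measurable_swap).aemeasurable)
  have hsw2 : ∫⁻ W, (∫⁻ w, Vol ρ t τ w W ∂μ) ^ 2 ∂μ ≤ EV2 μ ρ t τ := by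
    calc ∫⁻ W, (∫⁻ w, Vol ρ t τ w W ∂μ) ^ 2 ∂μ
        ≤ ∫⁻ W, ∫⁻ w, (Vol ρ t τ w W) ^ 2 ∂μ ∂μ := by
          refine lintegral_mono fun W => fine_jensen ?_
          exact Measurable.comp (g := fun p : Path d × Path d => Vol ρ t τ p.1 p.2)
            (f := fun w : Path d => (w, W)) (measurable_Vol ρ t τ) measurable_prodMk_right
      _ = EV2 μ ρ t τ := by
          unfold EV2
          exact lintegral_lintegral_swap
            ((((measurable_Vol ρ t τ).pow_const 2).comp measurable_swap).aemeasurable)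
  rw [hsw1]
  exact add_le_add hsw2 le_rfl

/-! ### NICEP -/

theorem NICEP_ev (hd : 4 ≤ d) (K : ℕ) {b η : ℝ≥0} (hb : 0 < b) (hη : 0 < η) :
    ∀ᶠ r in 𝓝[>] (0 : ℝ), (K : ℝ≥0∞) / ((b * (RR d r : ℝ≥0) ^ d : ℝ≥0) : ℝ≥0∞) ≤ η := by
  obtain ⟨N, hN⟩ := exists_nat_ge ((K : ℝ≥0) / (b * η))
  filter_upwards [(tendsto_RR hd).eventually_ge_atTop (max N 1)] with r hr
  have h1 : N ≤ RR d r := (le_max_left _ _).trans hr
  have h2 : 1 ≤ RR d r := (le_max_right _ _).trans hr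
  have h3 : (1 : ℝ≥0) ≤ (RR d r : ℝ≥0) := by exact_mod_cast h2
  have h4 : (RR d r : ℝ≥0) ≤ (RR d r : ℝ≥0) ^ d := le_self_pow₀ h3 (by omega)
  have h5 : (N : ℝ≥0) ≤ (RR d r : ℝ≥0) := by exact_mod_cast h1
  refine ENNReal.div_le_of_le_mul ?_
  have h6 : (K : ℝ≥0) ≤ η * (b * (RR d r : ℝ≥0) ^ d) := by
    rw [div_le_iff₀ (mul_pos hb hη)] at hN
    calc (K : ℝ≥0) ≤ N * (b * η) := hN
      _ ≤ (RR d r : ℝ≥0) ^ d * (b * η) := by
          gcongr
          exact h5.trans h4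
      _ = η * (b * (RR d r : ℝ≥0) ^ d) := by ring
  exact_mod_cast h6

theorem NICEP_measurable_fineval (μ : Measure (Path d)) [IsProbabilityMeasure μ] (ρ : ℝ)
    (t τ : ℝ≥0) (R : ℕ) : Measurable (fineval μ ρ t τ R) := by
  unfold fineval
  have h1 : MeasurableSet {p : (Path d × E d) × Path d | p.1.2 ∈ Kset ρ t τ p.1.1 p.2} := by
    have h2 : Measurable (fun p : (Path d × E d) × Path d =>
        ((p.1.2, p.1.1, p.2) : E d × Path d × Path d)) :=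
      (measurable_snd.comp measurable_fst).prodMk
        ((measurable_fst.comp measurable_fst).prodMk measurable_snd)
    exact h2 (measurableSet_Kset_prod ρ t τ)
  have h3 : Measurable (fun q : Path d × E d => μ {W | q.2 ∈ Kset ρ t τ q.1 W}) :=
    measurable_measure_prodMk_left h1
  exact h3.lintegral_prod_right'

/-- the measure of the points of a box with bad paths -/
theorem NICEP_nu_box (μ : Measure (Path d)) [IsProbabilityMeasure μ] (k : Fin d → ℤ) (R L : ℕ)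
    (B : Set (Path d)) :
    nuM μ {p : Mark d | p.1 ∈ boxE k R L ∧ p.2 ∈ B} = ((R + 2 * L : ℕ) : ℝ≥0∞) ^ d * μ B := by
  have h1 : {p : Mark d | p.1 ∈ boxE k R L ∧ p.2 ∈ B} = boxE k R L ×ˢ B := rfl
  rw [h1, Measure.prod_prod, volume_boxE]

/-- a box with rare bad paths contains few bad points -/
theorem NICEP_bad (M : PM d P μ) [IsProbabilityMeasure P] [IsProbabilityMeasure μ]
    {B : Set (Path d)} (hB : MeasurableSet B) {δ : ℝ} (hδ : 0 < δ) {R : ℕ} (hR : 0 < R)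
    (hBμ : μ B ≤ ((δ.toNNReal / (8 * 3 ^ d) : ℝ≥0) : ℝ≥0∞)) (k : Fin d → ℤ) :
    P {ω | ENNReal.ofReal (δ / 4 * (R : ℝ) ^ d) < cnt M.pres M.y
      {z : Unit → Mark d | z () ∈ {p : Mark d | p.1 ∈ boxE k R R ∧ p.2 ∈ B}} ω} ≤
      (Nat.card (Gluing Unit Unit) : ℝ≥0∞) /
        ((δ.toNNReal / 8 * (R : ℝ≥0) ^ d : ℝ≥0) : ℝ≥0∞) := by
  have hS : MeasurableSet {p : Mark d | p.1 ∈ boxE k R R ∧ p.2 ∈ B} :=
    (measurable_fst (measurableSet_boxE k R R)).inter (measurable_snd hB)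
  have hδ' : 0 < δ.toNNReal := Real.toNNReal_pos.2 hδ
  have hR' : (0 : ℝ≥0) < R := by exact_mod_cast hR
  have hβ : 0 < δ.toNNReal / 8 * (R : ℝ≥0) ^ d := by positivity
  have hν : nuM μ {p : Mark d | p.1 ∈ boxE k R R ∧ p.2 ∈ B} ≤
      ((δ.toNNReal / 8 * (R : ℝ≥0) ^ d : ℝ≥0) : ℝ≥0∞) := by
    rw [NICEP_nu_box]
    refine (mul_le_mul' le_rfl hBμ).trans ?_
    have h1 : ((R + 2 * R : ℕ) : ℝ≥0∞) ^ d * ((δ.toNNReal / (8 * 3 ^ d) : ℝ≥0) : ℝ≥0∞) =
        ((((R + 2 * R : ℕ) : ℝ≥0) ^ d * (δ.toNNReal / (8 * 3 ^ d)) : ℝ≥0) : ℝ≥0∞) := by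
      push_cast
      rfl
    rw [h1, ENNReal.coe_le_coe]
    apply le_of_eq
    have h2 : ((R + 2 * R : ℕ) : ℝ≥0) = 3 * R := by
      push_cast
      ring
    rw [h2, mul_pow]
    field_simp
  have h3 := NICEP_cheb M hS hβ hν
  have h4 : 2 * ((δ.toNNReal / 8 * (R : ℝ≥0) ^ d : ℝ≥0) : ℝ≥0∞) =
      ENNReal.ofReal (δ / 4 * (R : ℝ) ^ d) := by
    rw [ENNReal.ofReal]
    have h5 : (2 : ℝ≥0∞) * ((δ.toNNReal / 8 * (R : ℝ≥0) ^ d : ℝ≥0) : ℝ≥0∞) =
        ((2 * (δ.toNNReal / 8 * (R : ℝ≥0) ^ d) : ℝ≥0) : ℝ≥0∞) := by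
      push_cast
      rfl
    rw [h5, ENNReal.coe_inj, ← NNReal.coe_inj, Real.coe_toNNReal _ (by positivity)]
    push_cast
    rw [Real.coe_toNNReal _ hδ.le]
    ring
  rw [h4] at h3
  exact h3

/-- Piece NICEP. -/
theorem nice_prob (hd : 4 ≤ d) (M : PM d P μ) [IsProbabilityMeasure P] (h : IsWiener μ)
    {κ : ℝ} (hA : AnFacts d μ κ) {c c' : ℝ} (hc : 0 < c) (hc' : 0 < c') {δ : ℝ} (hδ : 0 < δ) :
    ∃ c₂ a₀ CY : ℝ≥0, 0 < c₂ ∧ 0 < CY ∧ ∀ D : ℕ, ∀ η : ℝ≥0, 0 < η →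
      ∀ᶠ r in 𝓝[>] (0 : ℝ), ∀ k k' : Fin d → ℤ, (∀ i, |k' i - k i| ≤ RR d r) →
        P {ω | ¬ Nice μ (M.J (win k (RR d r) (D * RR d r)) ω) (fun i => M.y i ω) (2 * r)
          (tt d c r) (tt d c' r) (RR d r) c₂ a₀ (CY / η) (2 * (2 * D + 1) ^ d) δ k k'} ≤ η := by
  classical
  have hprob := h.isProb
  have hδ' : 0 < δ.toNNReal := Real.toNNReal_pos.2 hδ
  have hδ2 : 0 < δ.toNNReal / (8 * 3 ^ d) := by positivity
  obtain ⟨c₂, hc₂, hfine⟩ := fine_shapes hd h hA hc hc' hδ2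
  obtain ⟨a₀, hend⟩ := endpoint_range hd h hc hδ2
  obtain ⟨K, hK⟩ : ∃ K : ℕ, K = Nat.card (Gluing Unit Unit) := ⟨_, rfl⟩
  obtain ⟨c₀, hc₀⟩ : ∃ c₀ : ℝ, c₀ = max c c' := ⟨_, rfl⟩
  have hc₀pos : 0 < c₀ := by rw [hc₀]; exact lt_max_of_lt_left hc
  obtain ⟨m1, hm1⟩ : ∃ m1 : ℝ≥0, m1 = (κ * c₀ ^ 2).toNNReal + 1 := ⟨_, rfl⟩
  obtain ⟨m2, hm2⟩ : ∃ m2 : ℝ≥0, m2 = ((κ * c₀ ^ 2) ^ 2).toNNReal + 1 := ⟨_, rfl⟩
  obtain ⟨C1, hC1⟩ : ∃ C1 : ℝ≥0, C1 = 5 ^ d * (m2 + K * m1) := ⟨_, rfl⟩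
  have hm2pos : 0 < m2 := by rw [hm2]; positivity
  have hC1pos : 0 < C1 := by rw [hC1]; positivity
  have hev1 : ∀ᶠ r in 𝓝[>] (0 : ℝ), EV μ (2 * r) (tt d c₀ r) (tt d c₀ r) ≤ (m1 : ℝ≥0∞) := by
    have h1 : ENNReal.ofReal (κ * c₀ ^ 2) < (m1 : ℝ≥0∞) := by
      rw [hm1, ENNReal.ofReal, ENNReal.coe_lt_coe]
      exact lt_add_of_pos_right _ one_pos
    filter_upwards [(hA.ev c₀ hc₀pos).eventually (gt_mem_nhds h1)] with r hr
    exact le_of_lt hr
  have hev2 : ∀ᶠ r in 𝓝[>] (0 : ℝ), EV2 μ (2 * r) (tt d c₀ r) (tt d c₀ r) ≤ (m2 : ℝ≥0∞) := by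
    have h1 : ENNReal.ofReal ((κ * c₀ ^ 2) ^ 2) < (m2 : ℝ≥0∞) := by
      rw [hm2, ENNReal.ofReal, ENNReal.coe_lt_coe]
      exact lt_add_of_pos_right _ one_pos
    filter_upwards [(hA.ev2 c₀ hc₀pos).eventually (gt_mem_nhds h1)] with r hr
    exact le_of_lt hr
  refine ⟨c₂, a₀, 5 * C1, hc₂, by positivity, fun D η hη => ?_⟩
  have hη5 : 0 < η / 5 := by positivity
  filter_upwards [hfine, hend, hev1, hev2, (tendsto_ff hd).eventually_gt_atTop 0, RR_pos hd,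
    NICEP_ev hd K (b := δ.toNNReal / 8) (by positivity) hη5,
    NICEP_ev hd K (b := (2 * D + 1) ^ d) (by positivity) hη5] with r hr1 hr2 hr3 hr4 hr5 hr6
      hr7 hr8 k k' hkk
  obtain ⟨R, hR⟩ : ∃ R, R = RR d r := ⟨_, rfl⟩
  obtain ⟨t, ht⟩ : ∃ t, t = tt d c r := ⟨_, rfl⟩
  obtain ⟨τ, hτ⟩ : ∃ τ, τ = tt d c' r := ⟨_, rfl⟩
  obtain ⟨t0, ht0⟩ : ∃ t0, t0 = tt d c₀ r := ⟨_, rfl⟩
  rw [← hR] at hr1 hr2 hr6 hr7 hr8 hkk ⊢
  rw [← ht] at hr1 hr2 ⊢
  rw [← hτ] at hr1 ⊢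
  rw [← ht0] at hr3 hr4
  have htt0 : t ≤ t0 := by
    rw [ht, ht0, tt, tt]
    refine Real.toNNReal_le_toNNReal (mul_le_mul_of_nonneg_right ?_ hr5.le)
    rw [hc₀]
    exact le_max_left _ _
  have hττ0 : τ ≤ t0 := by
    rw [hτ, ht0, tt, tt]
    refine Real.toNNReal_le_toNNReal (mul_le_mul_of_nonneg_right ?_ hr5.le)
    rw [hc₀]
    exact le_max_right _ _
  have hEV : EV μ (2 * r) t τ ≤ (m1 : ℝ≥0∞) := (EV_mono le_rfl htt0 hττ0).trans hr3
  have hEV2 : EV2 μ (2 * r) t τ ≤ (m2 : ℝ≥0∞) := (EV2_mono le_rfl htt0 hττ0).trans hr4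
  have hR' : (0 : ℝ≥0) < R := by exact_mod_cast hr6
  -- the bad sets of paths
  obtain ⟨B2, hB2⟩ : ∃ B2 : Set (Path d), B2 = {w | fineval μ (2 * r) t τ R w < c₂} := ⟨_, rfl⟩
  obtain ⟨B3, hB3⟩ : ∃ B3 : Set (Path d), B3 = {w | (a₀ : ℝ≥0∞) * (R : ℝ≥0∞) < ‖w t‖ₑ} :=
    ⟨_, rfl⟩
  have hB2m : MeasurableSet B2 := by
    rw [hB2]
    exact measurableSet_lt (NICEP_measurable_fineval μ _ _ _ _) measurable_const
  have hB3m : MeasurableSet B3 := by
    rw [hB3]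
    exact measurableSet_lt measurable_const (measurable_eval t).enorm
  have hB2μ : μ B2 ≤ ((δ.toNNReal / (8 * 3 ^ d) : ℝ≥0) : ℝ≥0∞) := by
    rw [hB2]
    exact hr1
  have hB3μ : μ B3 ≤ ((δ.toNNReal / (8 * 3 ^ d) : ℝ≥0) : ℝ≥0∞) := by
    rw [hB3]
    exact hr2
  -- the bad events
  obtain ⟨E0, hE0⟩ : ∃ E0 : Set Ω, E0 = {ω | ¬ ∀ i, (M.y i ω).1 ∈ cube i.1} := ⟨_, rfl⟩
  obtain ⟨E1, hE1⟩ : ∃ E1 : Set Ω, E1 = {ω | 2 * ((((2 * D + 1) ^ d * (R : ℝ≥0) ^ d : ℝ≥0)) : ℝ≥0∞) <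
    cnt M.pres M.y {z : Unit → Mark d | z () ∈ {p : Mark d | p.1 ∈ boxE k R (D * R) ∧
      p.2 ∈ (Set.univ : Set (Path d))}} ω} := ⟨_, rfl⟩
  obtain ⟨E2, hE2⟩ : ∃ E2 : Set Ω, E2 = {ω | ENNReal.ofReal (δ / 4 * (R : ℝ) ^ d) <
    cnt M.pres M.y {z : Unit → Mark d | z () ∈ {p : Mark d | p.1 ∈ boxE k R R ∧ p.2 ∈ B2}} ω} :=
    ⟨_, rfl⟩
  obtain ⟨E3, hE3⟩ : ∃ E3 : Set Ω, E3 = {ω | ENNReal.ofReal (δ / 4 * (R : ℝ) ^ d) <
    cnt M.pres M.y {z : Unit → Mark d | z () ∈ {p : Mark d | p.1 ∈ boxE k R R ∧ p.2 ∈ B3}} ω} :=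
    ⟨_, rfl⟩
  obtain ⟨X, hX⟩ : ∃ X : Ω → ℝ≥0∞, X = fun ω => (∫⁻ q in boxE k R (2 * R), ∫⁻ W,
      (cnt M.pres M.y {z : Unit → Mark d | hitR (2 * r) t τ (z ()) (q, W)} ω) ^ 2 ∂μ) := ⟨_, rfl⟩
  obtain ⟨E4, hE4⟩ : ∃ E4 : Set Ω, E4 = {ω | ((5 * C1 / η : ℝ≥0) : ℝ≥0∞) * (R : ℝ≥0∞) ^ d ≤ X ω} :=
    ⟨_, rfl⟩
  have hP0 : P E0 = 0 := by
    rw [hE0]
    exact M.ae_mem_cube
  have hP1 : P E1 ≤ ((η / 5 : ℝ≥0) : ℝ≥0∞) := by
    rw [hE1]
    have hS : MeasurableSet {p : Mark d | p.1 ∈ boxE k R (D * R) ∧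
        p.2 ∈ (Set.univ : Set (Path d))} :=
      (measurable_fst (measurableSet_boxE k R (D * R))).inter (measurable_snd MeasurableSet.univ)
    have hν : nuM μ {p : Mark d | p.1 ∈ boxE k R (D * R) ∧ p.2 ∈ (Set.univ : Set (Path d))} ≤
        (((2 * D + 1) ^ d * (R : ℝ≥0) ^ d : ℝ≥0) : ℝ≥0∞) := by
      rw [NICEP_nu_box, measure_univ, mul_one]
      apply le_of_eq
      rw [← mul_pow]
      push_cast
      congr 1
      ring
    refine (NICEP_cheb M hS (by positivity) hν).trans ?_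
    rw [← hK]
    exact hr8
  have hP2 : P E2 ≤ ((η / 5 : ℝ≥0) : ℝ≥0∞) := by
    rw [hE2]
    refine (NICEP_bad M hB2m hδ hr6 hB2μ k).trans ?_
    rw [← hK]
    exact hr7
  have hP3 : P E3 ≤ ((η / 5 : ℝ≥0) : ℝ≥0∞) := by
    rw [hE3]
    refine (NICEP_bad M hB3m hδ hr6 hB3μ k).trans ?_
    rw [← hK]
    exact hr7
  have hP4 : P E4 ≤ ((η / 5 : ℝ≥0) : ℝ≥0∞) := by
    have h1 : ∫⁻ ω, X ω ∂P ≤ (C1 : ℝ≥0∞) * (R : ℝ≥0∞) ^ d := by
      rw [hX]
      refine (sq_mean_le M h (2 * r) t τ (measurableSet_boxE k R (2 * R))).trans ?_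
      rw [volume_boxE, ← hK]
      have h2 : EV2 μ (2 * r) t τ + (K : ℝ≥0∞) * EV μ (2 * r) t τ ≤
          (m2 : ℝ≥0∞) + (K : ℝ≥0∞) * m1 := add_le_add hEV2 (mul_le_mul' le_rfl hEV)
      refine (mul_le_mul' le_rfl h2).trans (le_of_eq ?_)
      rw [hC1]
      have h3 : ((R + 2 * (2 * R) : ℕ) : ℝ≥0∞) = 5 * (R : ℝ≥0∞) := by
        push_cast
        ring
      rw [h3, mul_pow]
      push_cast
      ring
    have hXm : Measurable X := by
      rw [hX]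
      exact NICEP_X_meas M (2 * r) t τ (boxE k R (2 * R))
    have hε0 : ((5 * C1 / η : ℝ≥0) : ℝ≥0∞) * (R : ℝ≥0∞) ^ d ≠ 0 := by
      refine mul_ne_zero ?_ (pow_ne_zero _ ?_)
      · rw [Ne, ENNReal.coe_eq_zero]
        positivity
      · exact_mod_cast hr6.ne'
    have hεt : ((5 * C1 / η : ℝ≥0) : ℝ≥0∞) * (R : ℝ≥0∞) ^ d ≠ ∞ :=
      ENNReal.mul_ne_top ENNReal.coe_ne_top (ENNReal.pow_ne_top (ENNReal.natCast_ne_top R))
    rw [hE4]
    refine (meas_ge_le_lintegral_div hXm.aemeasurable hε0 hεt).trans ?_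
    refine ENNReal.div_le_of_le_mul (h1.trans (le_of_eq ?_))
    rw [← mul_assoc, ← ENNReal.coe_mul]
    congr 2
    field_simp
  -- outside of the bad events the configuration is nice
  have hsub : {ω | ¬ Nice μ (M.J (win k R (D * R)) ω) (fun i => M.y i ω) (2 * r)
      t τ R c₂ a₀ (5 * C1 / η) (2 * (2 * D + 1) ^ d) δ k k'} ⊆
      E0 ∪ (E1 ∪ (E2 ∪ (E3 ∪ E4))) := by
    intro ω hω
    by_contra hcon
    simp only [Set.mem_union, not_or] at hcon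
    obtain ⟨h0, h1, h2, h3, h4⟩ := hcon
    apply hω
    rw [hE0] at h0
    have hcube : ∀ i, (M.y i ω).1 ∈ cube i.1 := not_not.1 h0
    have hwin : ∀ i : Idx d, i.1 ∈ win k R 0 ∪ win k' R 0 → (M.y i ω).1 ∈ boxE k R R := by
      intro i hi
      rw [mem_boxE_iff (hcube i)]
      rcases Finset.mem_union.1 hi with hi | hi
      · exact win_mono k R (Nat.zero_le R) hi
      · have h5 := win_subset (L := 0) hkk hi
        rwa [add_zero] at h5
    have hpres : ∀ i ∈ M.J (win k R (D * R)) ω, ω ∈ M.pres i := fun i hi => (PM.mem_J.1 hi).2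
    refine ⟨fun i _ => hcube i, ?_, ?_, ?_, ?_⟩
    · rw [hE1] at h1
      have h5 : cnt M.pres M.y {z : Unit → Mark d | z () ∈ {p : Mark d | p.1 ∈ boxE k R (D * R) ∧
          p.2 ∈ (Set.univ : Set (Path d))}} ω ≤
          2 * ((((2 * D + 1) ^ d * (R : ℝ≥0) ^ d : ℝ≥0)) : ℝ≥0∞) := not_lt.1 h1
      have h6 := NICEP_card M ω (S := {p : Mark d | p.1 ∈ boxE k R (D * R) ∧
        p.2 ∈ (Set.univ : Set (Path d))}) (T := M.J (win k R (D * R)) ω) (fun i hi =>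
          ⟨hpres i hi, (mem_boxE_iff (hcube i)).2 (PM.mem_J.1 hi).1, trivial⟩)
      have h7 := h6.trans h5
      have h8 : ((M.J (win k R (D * R)) ω).card : ℝ≥0) ≤
          2 * ((2 * D + 1) ^ d * (R : ℝ≥0) ^ d) := by
        have h9 : (((M.J (win k R (D * R)) ω).card : ℝ≥0) : ℝ≥0∞) ≤
            ((2 * ((2 * D + 1) ^ d * (R : ℝ≥0) ^ d) : ℝ≥0) : ℝ≥0∞) := by
          rw [ENNReal.coe_mul]
          exact_mod_cast h7
        exact ENNReal.coe_le_coe.1 h9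
      have h9 : ((M.J (win k R (D * R)) ω).card : ℝ) ≤
          2 * ((2 * D + 1) ^ d * (R : ℝ) ^ d) := by exact_mod_cast h8
      push_cast
      linarith
    · rw [hE2] at h2
      have h5 : cnt M.pres M.y {z : Unit → Mark d | z () ∈
          {p : Mark d | p.1 ∈ boxE k R R ∧ p.2 ∈ B2}} ω ≤
          ENNReal.ofReal (δ / 4 * (R : ℝ) ^ d) := not_lt.1 h2
      have h6 := NICEP_card M ω (S := {p : Mark d | p.1 ∈ boxE k R R ∧ p.2 ∈ B2})
        (T := (M.J (win k R (D * R)) ω).filter fun i => i.1 ∈ win k R 0 ∪ win k' R 0 ∧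
          fineval μ (2 * r) t τ R (M.y i ω).2 < c₂) (fun i hi => by
            obtain ⟨hi1, hi2, hi3⟩ := Finset.mem_filter.1 hi
            refine ⟨hpres i hi1, hwin i hi2, ?_⟩
            rw [hB2]
            exact hi3)
      have h7 := h6.trans h5
      rw [← ENNReal.ofReal_natCast, ENNReal.ofReal_le_ofReal_iff (by positivity)] at h7
      exact h7
    · rw [hE3] at h3
      have h5 : cnt M.pres M.y {z : Unit → Mark d | z () ∈
          {p : Mark d | p.1 ∈ boxE k R R ∧ p.2 ∈ B3}} ω ≤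
          ENNReal.ofReal (δ / 4 * (R : ℝ) ^ d) := not_lt.1 h3
      have h6 := NICEP_card M ω (S := {p : Mark d | p.1 ∈ boxE k R R ∧ p.2 ∈ B3})
        (T := (M.J (win k R (D * R)) ω).filter fun i => i.1 ∈ win k R 0 ∪ win k' R 0 ∧
          (a₀ : ℝ≥0∞) * (R : ℝ≥0∞) < ‖(M.y i ω).2 t‖ₑ) (fun i hi => by
            obtain ⟨hi1, hi2, hi3⟩ := Finset.mem_filter.1 hi
            refine ⟨hpres i hi1, hwin i hi2, ?_⟩
            rw [hB3]
            exact hi3)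
      have h7 := h6.trans h5
      rw [← ENNReal.ofReal_natCast, ENNReal.ofReal_le_ofReal_iff (by positivity)] at h7
      exact h7
    · rw [hE4] at h4
      have h5 : X ω < ((5 * C1 / η : ℝ≥0) : ℝ≥0∞) * (R : ℝ≥0∞) ^ d := not_le.1 h4
      refine le_trans ?_ h5.le
      rw [hX]
      refine lintegral_mono fun q => lintegral_mono fun W => ?_
      refine pow_le_pow_left' ?_ 2
      refine NICEP_card M ω (S := {p : Mark d | hitR (2 * r) t τ p (q, W)}) fun i hi => ?_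
      obtain ⟨hi1, hi2, hi3⟩ := Finset.mem_filter.1 hi
      exact ⟨hpres i hi1, hi3⟩
  refine (measure_mono hsub).trans ?_
  refine (measure_union_le _ _).trans ?_
  rw [hP0, zero_add]
  refine (measure_union_le _ _).trans ?_
  refine (add_le_add hP1 ((measure_union_le _ _).trans (add_le_add hP2
    ((measure_union_le _ _).trans (add_le_add hP3 hP4))))).trans ?_
  rw [← ENNReal.coe_add, ← ENNReal.coe_add, ← ENNReal.coe_add, ENNReal.coe_le_coe,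
    ← NNReal.coe_le_coe]
  push_cast
  have : (0 : ℝ) < η := hη
  linarith

end WSP
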