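import Pool.Agent.Lib_MP_c175fd.PathMeas

/-!
# Piece WIENERA: uniqueness of the Wiener measure, shift and scaling invariance

* `isWiener_map`: the law of a measurable random path whose coordinates are independent pre-Brownian
  motions is a Wiener measure (transport the two properties by `P.map W`;
  `HasLaw`/`iIndepFun` only depend on the law).
* `IsWiener.unique`: the sigma algebra of `Path d` is also the one induced by
  `w ↦ (fun i s => w s i) : Fin d → ℝ≥0 → ℝ` (product sigma algebra), so a measure is determined by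
  its image under this map. The image is the product (`iIndepFun_iff_map_fun_eq_pi_map`) of the laws
  of the coordinate processes on `ℝ≥0 → ℝ`, and a probability measure on `ℝ≥0 → ℝ` is determined by
  its finite dimensional marginals (`IsProjectiveLimit.unique`), which are the same for all
  pre-Brownian motions (`IsPreBrownianReal.hasLaw`).
* shift and scaling: `IsPreBrownianReal.shift` and `IsPreBrownianReal.smul` for each coordinate, and
  independence of the coordinates by `iIndepFun.comp`; then uniqueness.
-/

open MeasureTheory ProbabilityTheory Filter Topology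
open scoped ENNReal NNReal

namespace WSP

variable {d : ℕ}

theorem WA_meas_coord (i : Fin d) : Measurable (fun x : E d => x i) := by
  fun_prop

theorem WA_meas_path (i : Fin d) : Measurable (fun (w : Path d) (s : ℝ≥0) => w s i) :=
  measurable_pi_lambda _ fun s => (WA_meas_coord i).comp (measurable_eval s)

theorem WA_meas_all : Measurable (fun (w : Path d) (i : Fin d) (s : ℝ≥0) => w s i) :=
  measurable_pi_lambda _ fun i => WA_meas_path i

theorem isWiener_map {Ω : Type*} [MeasurableSpace Ω] {P : Measure Ω} [IsProbabilityMeasure P]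
    {W : Ω → Path d} (hW : Measurable W)
    (hb : ∀ i : Fin d, IsPreBrownianReal (fun (s : ℝ≥0) (ω : Ω) => W ω s i) P)
    (hi : iIndepFun (fun (i : Fin d) (ω : Ω) (s : ℝ≥0) => W ω s i) P) :
    IsWiener (P.map W) := by
  have hp : IsProbabilityMeasure (P.map W) := Measure.isProbabilityMeasure_map hW.aemeasurable
  refine ⟨hp, fun i => ⟨fun I => ⟨?_, ?_⟩⟩, ?_⟩
  · exact (measurable_pi_lambda _ fun j => (WA_meas_coord i).comp (measurable_eval _)).aemeasurable
  · have hm : Measurable (fun w : Path d => I.restrict (fun s : ℝ≥0 => w s i)) :=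
      measurable_pi_lambda _ fun j => (WA_meas_coord i).comp (measurable_eval _)
    have h1 := ((hb i).hasLaw I).map_eq
    rw [← h1]
    exact Measure.map_map hm hW
  · rw [iIndepFun_iff_map_fun_eq_pi_map (fun i => (WA_meas_path i).aemeasurable)]
    have h1 := (iIndepFun_iff_map_fun_eq_pi_map (μ := P)
      (f := fun (i : Fin d) (ω : Ω) (s : ℝ≥0) => W ω s i)
      (fun i => ((WA_meas_path i).comp hW).aemeasurable)).1 hi
    have h2 : (P.map W).map (fun (w : Path d) (i : Fin d) (s : ℝ≥0) => w s i) =
        P.map (fun (ω : Ω) (i : Fin d) (s : ℝ≥0) => W ω s i) :=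
      Measure.map_map WA_meas_all hW
    have h3 : ∀ i : Fin d, (P.map W).map (fun (w : Path d) (s : ℝ≥0) => w s i) =
        P.map (fun (ω : Ω) (s : ℝ≥0) => W ω s i) := fun i => Measure.map_map (WA_meas_path i) hW
    rw [h2, h1]
    congr 1
    funext i
    exact (h3 i).symm

theorem IsWiener.unique {μ ν : Measure (Path d)} (h : IsWiener μ) (h' : IsWiener ν) : μ = ν := by
  have := h.isProb
  have := h'.isProb
  have key : ∀ {ρ : Measure (Path d)} (hρ : IsWiener ρ) (i : Fin d),
      IsProjectiveLimit (ρ.map (fun (w : Path d) (s : ℝ≥0) => w s i))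
        (fun I => BrownianReal.projectiveFamily I) := by
    intro ρ hρ i I
    rw [Measure.map_map (by fun_prop) (WA_meas_path i)]
    exact ((hρ.brown i).hasLaw I).map_eq
  have hF : μ.map (fun (w : Path d) (i : Fin d) (s : ℝ≥0) => w s i) =
      ν.map (fun (w : Path d) (i : Fin d) (s : ℝ≥0) => w s i) := by
    rw [(iIndepFun_iff_map_fun_eq_pi_map (fun i => (WA_meas_path i).aemeasurable)).1 h.indep,
      (iIndepFun_iff_map_fun_eq_pi_map (fun i => (WA_meas_path i).aemeasurable)).1 h'.indep]
    congr 1
    funext i
    exact IsProjectiveLimit.unique (key h i) (key h' i)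
  have hΨ : Measurable (fun (f : Fin d → ℝ≥0 → ℝ) (s : ℝ≥0) =>
      (WithLp.toLp 2 (fun i => f i s) : E d)) := by
    refine measurable_pi_lambda _ fun s => ?_
    exact (WithLp.measurable_toLp 2 (Fin d → ℝ)).comp
      (measurable_pi_lambda _ fun i => (measurable_pi_apply s).comp (measurable_pi_apply i))
  refine Measure.ext fun A hA => ?_
  obtain ⟨C, hC, rfl⟩ := hA
  have e : (Subtype.val ⁻¹' C : Set (Path d)) =
      (fun (w : Path d) (i : Fin d) (s : ℝ≥0) => w s i) ⁻¹'
        ((fun (f : Fin d → ℝ≥0 → ℝ) (s : ℝ≥0) => (WithLp.toLp 2 (fun i => f i s) : E d)) ⁻¹' C) := by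
    rfl
  rw [e, ← Measure.map_apply WA_meas_all (hΨ hC), ← Measure.map_apply WA_meas_all (hΨ hC), hF]

theorem IsWiener.map_shift {μ : Measure (Path d)} (h : IsWiener μ) (a : ℝ≥0) :
    μ.map (shift a) = μ := by
  have := h.isProb
  refine IsWiener.unique (isWiener_map (measurable_shift a) (fun i => ?_) ?_) h
  · exact (h.brown i).shift a
  · have h1 := h.indep.comp (fun (i : Fin d) (f : ℝ≥0 → ℝ) (s : ℝ≥0) => f (a + s) - f a)
      (fun i => measurable_pi_lambda _ fun s => by fun_prop)
    exact h1

theorem IsWiener.map_scale {μ : Measure (Path d)} (h : IsWiener μ) {c : ℝ≥0} (hc : c ≠ 0) :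
    μ.map (scale c) = μ := by
  have := h.isProb
  refine IsWiener.unique (isWiener_map (measurable_scale c) (fun i => ?_) ?_) h
  · have h1 := (h.brown i).smul hc
    rw [← Real.coe_sqrt] at h1
    exact h1
  · have h1 := h.indep.comp
      (fun (i : Fin d) (f : ℝ≥0 → ℝ) (s : ℝ≥0) => (NNReal.sqrt c : ℝ)⁻¹ * f (c * s))
      (fun i => measurable_pi_lambda _ fun s => by fun_prop)
    exact h1

end WSP
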