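import Pool.Agent.Lib_MP_c175fd.Perc
import Pool.Agent.Lib_MP_c175fd.WienerA

/-!
# Piece MODEL: the model of the problem and its reduction to the internal form

`WModel d P`: a homogeneous Poisson point process of intensity one on `ℝ^d`, realised in the usual way by
independent Poisson numbers `N k` of parameter one of points in the unit cubes with integer corner `k`,
placed at independent uniform positions `X (k, j)`, `j < N k`, together with independent standard
`d`-dimensional Brownian motions `B (k, j)` (coordinates: independent real Brownian motions in the sense of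
Mathlib, with almost surely continuous paths).

Reduction. Almost surely, for all `i`, `s ↦ B i s ω` is continuous and `B i 0 ω = 0`: there is a measurable
null set `N₀` outside of which this holds. Let `W i ω : Path d` be `s ↦ B i s ω` outside `N₀` and the zero path
on `N₀`; it is measurable (`measurable_path`), and `(fun ω s => W i ω s) =ᵐ (fun ω s => B i s ω)`. The law of
`W i` is a Wiener measure (`isWiener_map`; independence of the coordinates from `indep`), the same for all
`i` (`IsWiener.unique`). The mark `y i = (X i, W i)` has law `(volume.restrict (cube i.1)).prod μ` by the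
independence of `X i` and `B i`, and the independence of the family of the `N k`, `y i` follows from `indep` by
grouping (`iIndepFun.finsets` or `iIndepFun.finsets_comp`, groups `{N k}` and `{X i, B i 0, ..., B i (d-1)}`)
and `iIndepFun.congr`. If there are no indices (impossible, `Idx d` is nonempty) nothing is needed.
-/

open MeasureTheory ProbabilityTheory Filter Topology
open scoped ENNReal NNReal

namespace WSP

/-- The Poisson point process of intensity one with attached Brownian motions. -/
structure WModel (d : ℕ) {Ω : Type*} [MeasurableSpace Ω] (P : Measure Ω) where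
  /-- number of points in the unit cube with corner `k` -/
  N : (Fin d → ℤ) → Ω → ℕ
  /-- position of the `j`-th point of the cube `k` -/
  X : (Fin d → ℤ) × ℕ → Ω → E d
  /-- Brownian motion (issued from `0`) attached to the `j`-th point of the cube `k` -/
  B : (Fin d → ℤ) × ℕ → ℝ≥0 → Ω → E d
  measN : ∀ k, Measurable (N k)
  measX : ∀ i, Measurable (X i)
  measB : ∀ i s, Measurable (B i s)
  lawN : ∀ k, P.map (N k) = poissonMeasure 1
  lawX : ∀ i, P.map (X i) = (volume : Measure (E d)).restrict (cube i.1)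
  brownian : ∀ (i : (Fin d → ℤ) × ℕ) (j : Fin d), IsBrownianReal (fun s ω => B i s ω j) P
  /-- all numbers, positions and coordinate processes are independent -/
  indep : iIndep (fun s : (Fin d → ℤ) ⊕ ((Fin d → ℤ) × ℕ) ⊕ (((Fin d → ℤ) × ℕ) × Fin d) =>
    Sum.elim (fun k => MeasurableSpace.comap (N k) inferInstance)
      (Sum.elim (fun i => MeasurableSpace.comap (X i) inferInstance)
        (fun p => MeasurableSpace.comap (fun ω (s : ℝ≥0) => B p.1 s ω p.2) inferInstance)) s) P

/-- The occupied set: union of the Wiener sausages of radius `r` up to time `t`. -/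
def WModel.occ {d : ℕ} {Ω : Type*} [MeasurableSpace Ω] {P : Measure Ω} (M : WModel d P) (r t : ℝ)
    (ω : Ω) : Set (E d) :=
  ⋃ (k : Fin d → ℤ) (j : ℕ) (_ : j < M.N k ω) (s : ℝ≥0) (_ : (s : ℝ) ≤ t),
    Metric.ball (M.X (k, j) ω + M.B (k, j) s ω) r

/-- The critical time: infimum of the times at which the occupied set percolates with positive
probability. -/
noncomputable def WModel.critTime {d : ℕ} {Ω : Type*} [MeasurableSpace Ω] {P : Measure Ω}
    (M : WModel d P) (r : ℝ) : ℝ :=
  sInf {t : ℝ | 0 ≤ t ∧ ¬ ∀ᵐ ω ∂P, ¬ Percolates (M.occ r t ω)}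

/-! ### Independence of sigma algebras: almost sure modifications and grouping -/

theorem PMo_iIndep_of_ae {Ω ι : Type*} [MeasurableSpace Ω] {P : Measure Ω}
    {m m' : ι → MeasurableSpace Ω} (h : iIndep m P)
    (H : ∀ i (s : Set Ω), MeasurableSet[m' i] s → ∃ t : Set Ω, MeasurableSet[m i] t ∧ s =ᵐ[P] t) :
    iIndep m' P := by
  classical
  rw [iIndep_iff]
  intro s f hf
  have H' : ∀ i, ∃ t : Set Ω, i ∈ s → (MeasurableSet[m i] t ∧ f i =ᵐ[P] t) := by
    intro i
    by_cases hi : i ∈ s
    · obtain ⟨t, ht⟩ := H i (f i) (hf i hi)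
      exact ⟨t, fun _ => ht⟩
    · exact ⟨∅, fun h' => absurd h' hi⟩
  choose g hg using H'
  have h1 : (⋂ i ∈ s, f i : Set Ω) =ᵐ[P] (⋂ i ∈ s, g i : Set Ω) := by
    have h2 : ∀ᵐ ω ∂P, ∀ i ∈ s, (ω ∈ f i ↔ ω ∈ g i) := by
      rw [Filter.eventually_all_finset]
      intro i hi
      filter_upwards [(hg i hi).2] with ω hω
      exact iff_of_eq hω
    filter_upwards [h2] with ω hω
    refine propext ?_
    change (ω ∈ ⋂ i ∈ s, f i) ↔ (ω ∈ ⋂ i ∈ s, g i)
    simp only [Set.mem_iInter]
    exact forall₂_congr hω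
  rw [measure_congr h1, (iIndep_iff m P).1 h s (fun i hi => (hg i hi).1)]
  exact Finset.prod_congr rfl fun i hi => (measure_congr (hg i hi).2).symm

theorem PMo_iIndep_group {Ω ι κ : Type*} [mΩ : MeasurableSpace Ω] {P : Measure Ω}
    [IsProbabilityMeasure P] {m : ι → MeasurableSpace Ω} (hle : ∀ i, m i ≤ mΩ) (h : iIndep m P)
    (S : κ → Set ι) (hS : ∀ k l, k ≠ l → Disjoint (S k) (S l)) :
    iIndep (fun k => ⨆ i ∈ S k, m i) P := by
  classical
  rw [iIndep_iff]
  intro s f
  induction s using Finset.induction_on with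
  | empty => intro _; simp
  | @insert a s ha ih =>
    intro hf
    have h1 : MeasurableSet[⨆ i ∈ S a, m i] (f a) := hf a (Finset.mem_insert_self a s)
    have h2 : MeasurableSet[⨆ i ∈ ⋃ k ∈ s, S k, m i] (⋂ k ∈ s, f k) := by
      refine Finset.measurableSet_biInter s fun k hk => ?_
      have h3 : (⨆ i ∈ S k, m i) ≤ ⨆ i ∈ ⋃ k ∈ s, S k, m i :=
        biSup_mono fun i hi => Set.mem_iUnion₂.2 ⟨k, hk, hi⟩
      exact h3 _ (hf k (Finset.mem_insert_of_mem hk))
    have h4 : Disjoint (S a) (⋃ k ∈ s, S k) := by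
      rw [Set.disjoint_iUnion₂_right]
      intro k hk
      refine hS a k ?_
      rintro rfl
      exact ha hk
    have h5 := (Indep_iff _ _ P).1 (indep_iSup_of_disjoint hle h h4) _ _ h1 h2
    rw [Finset.set_biInter_insert, h5, ih (fun k hk => hf k (Finset.mem_insert_of_mem hk)),
      Finset.prod_insert ha]

/-! ### The reduction -/

theorem PMo_continuous {d : ℕ} {f : ℝ≥0 → E d} (h : ∀ j, Continuous fun s => f s j) :
    Continuous f := by
  have h1 : Continuous fun s => (WithLp.toLp 2 (fun j => f s j) : E d) :=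
    (PiLp.continuous_toLp 2 _).comp (continuous_pi h)
  exact h1

theorem PMo_measurable {d : ℕ} {Ω : Type*} {mΩ : MeasurableSpace Ω} {f : Ω → E d}
    (h : ∀ j, Measurable fun ω => f ω j) : Measurable f := by
  have h1 : Measurable fun ω => (WithLp.toLp 2 (fun j => f ω j) : E d) :=
    (WithLp.measurable_toLp 2 (Fin d → ℝ)).comp (measurable_pi_lambda _ h)
  exact h1

theorem WModel.exists_PM {d : ℕ} {Ω : Type*} [MeasurableSpace Ω] {P : Measure Ω}
    [IsProbabilityMeasure P] (M : WModel d P) :
    ∃ (μ : Measure (Path d)) (_ : IsWiener μ) (M' : PM d P μ),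
      ∀ᵐ ω ∂P, ∀ r t : ℝ, 0 ≤ t → M.occ r t ω = M'.occ r t.toNNReal ω := by
  classical
  -- the good set
  have hgood : ∀ᵐ ω ∂P, ∀ (i : (Fin d → ℤ) × ℕ) (j : Fin d),
      Continuous (fun s => M.B i s ω j) ∧ M.B i 0 ω j = 0 := by
    rw [ae_all_iff]
    intro i
    rw [ae_all_iff]
    intro j
    filter_upwards [(M.brownian i j).cont,
      (M.brownian i j).toIsPreBrownianReal.eval_zero_ae_eq_zero] with ω h1 h2
    exact ⟨h1, h2⟩
  obtain ⟨A, hA, hAm, hAg⟩ := hgood.exists_measurable_mem
  have hcont : ∀ ω ∈ A, ∀ i, Continuous (fun s => M.B i s ω) := fun ω hω i =>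
    PMo_continuous fun j => (hAg ω hω i j).1
  have hzero : ∀ ω ∈ A, ∀ i, M.B i 0 ω = 0 := fun ω hω i => by
    ext j
    exact (hAg ω hω i j).2
  -- the modification
  let W : (Fin d → ℤ) × ℕ → Ω → Path d := fun i ω =>
    if h : ω ∈ A then ⟨fun s => M.B i s ω, hcont ω h i, hzero ω h i⟩
    else ⟨fun _ => 0, continuous_const, rfl⟩
  have hWs : ∀ i ω s, W i ω s = if ω ∈ A then M.B i s ω else 0 := by
    intro i ω s
    by_cases h : ω ∈ A
    · simp only [W, dif_pos h, if_pos h]
    · simp only [W, dif_neg h, if_neg h]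
  have hWA : ∀ ω ∈ A, ∀ i s, W i ω s = M.B i s ω := fun ω h i s => by rw [hWs, if_pos h]
  have hWm : ∀ i, Measurable (W i) := by
    intro i
    refine measurable_path fun s => ?_
    simp only [hWs]
    exact Measurable.ite hAm (M.measB i s) measurable_const
  have hWc : ∀ i j, Measurable (fun ω (s : ℝ≥0) => W i ω s j) := fun i j =>
    (WA_meas_path j).comp (hWm i)
  -- the sigma algebras
  let m' : (Fin d → ℤ) ⊕ ((Fin d → ℤ) × ℕ) ⊕ (((Fin d → ℤ) × ℕ) × Fin d) → MeasurableSpace Ω :=
    fun s => Sum.elim (fun k => MeasurableSpace.comap (M.N k) inferInstance)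
      (Sum.elim (fun i => MeasurableSpace.comap (M.X i) inferInstance)
        (fun p => MeasurableSpace.comap (fun ω (s : ℝ≥0) => W p.1 ω s p.2) inferInstance)) s
  have hm'le : ∀ s, m' s ≤ (inferInstance : MeasurableSpace Ω) := by
    rintro (k | i | p)
    · exact (M.measN k).comap_le
    · exact (M.measX i).comap_le
    · exact (hWc p.1 p.2).comap_le
  have hm' : iIndep m' P := by
    refine PMo_iIndep_of_ae M.indep ?_
    rintro (k | i | p) s hs
    · exact ⟨s, hs, Filter.EventuallyEq.rfl⟩
    · exact ⟨s, hs, Filter.EventuallyEq.rfl⟩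
    · obtain ⟨T, hT, rfl⟩ := hs
      refine ⟨(fun ω (s : ℝ≥0) => M.B p.1 s ω p.2) ⁻¹' T, ⟨T, hT, rfl⟩, ?_⟩
      filter_upwards [hA] with ω hω
      refine propext ?_
      change ((fun s : ℝ≥0 => W p.1 ω s p.2) ∈ T) ↔ ((fun s : ℝ≥0 => M.B p.1 s ω p.2) ∈ T)
      have : (fun s : ℝ≥0 => W p.1 ω s p.2) = (fun s : ℝ≥0 => M.B p.1 s ω p.2) := by
        funext s
        rw [hWA ω hω]
      rw [this]
  -- the law of the paths
  have hWien : ∀ i, IsWiener (P.map (W i)) := by
    intro i
    refine isWiener_map (hWm i) (fun j => ?_) ?_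
    · refine (M.brownian i j).toIsPreBrownianReal.congr fun s => ?_
      filter_upwards [hA] with ω hω
      rw [hWA ω hω]
    · have h1 := hm'.precomp (g := fun j : Fin d => Sum.inr (Sum.inr (i, j))) (by
        intro j j' h
        have h2 := Sum.inr_injective (Sum.inr_injective h)
        exact (Prod.ext_iff.1 h2).2)
      exact h1
  let i₀ : (Fin d → ℤ) × ℕ := (0, 0)
  have hlaw : ∀ i, P.map (W i) = P.map (W i₀) := fun i => (hWien i).unique (hWien i₀)
  -- measurability with respect to the generated sigma algebras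
  have hWgen : ∀ i, Measurable[⨆ s ∈ Set.range (fun j : Fin d =>
      (Sum.inr (Sum.inr (i, j)) : (Fin d → ℤ) ⊕ ((Fin d → ℤ) × ℕ) ⊕ (((Fin d → ℤ) × ℕ) × Fin d))),
      m' s] (W i) := by
    intro i
    refine @measurable_path d Ω (_) (W i) fun s => ?_
    refine @PMo_measurable d Ω (_) _ fun j => ?_
    have h1 : m' (Sum.inr (Sum.inr (i, j))) ≤ ⨆ s ∈ Set.range (fun j : Fin d =>
        (Sum.inr (Sum.inr (i, j)) :
          (Fin d → ℤ) ⊕ ((Fin d → ℤ) × ℕ) ⊕ (((Fin d → ℤ) × ℕ) × Fin d))), m' s :=
      le_biSup m' (Set.mem_range_self j)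
    have h2 : Measurable[m' (Sum.inr (Sum.inr (i, j)))] (fun ω => W i ω s j) := by
      have h3 : Measurable[m' (Sum.inr (Sum.inr (i, j)))] (fun ω (s : ℝ≥0) => W i ω s j) :=
        comap_measurable _
      exact (measurable_pi_apply s).comp h3
    exact h2.mono h1 le_rfl
  have hXW : ∀ i, IndepFun (M.X i) (W i) P := by
    intro i
    have h1 : Disjoint ({Sum.inr (Sum.inl i)} :
        Set ((Fin d → ℤ) ⊕ ((Fin d → ℤ) × ℕ) ⊕ (((Fin d → ℤ) × ℕ) × Fin d)))
        (Set.range (fun j : Fin d => (Sum.inr (Sum.inr (i, j)) :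
          (Fin d → ℤ) ⊕ ((Fin d → ℤ) × ℕ) ⊕ (((Fin d → ℤ) × ℕ) × Fin d)))) := by
      rw [Set.disjoint_singleton_left]
      rintro ⟨j, hj⟩
      exact absurd (Sum.inr_injective hj) (by simp)
    have h2 := indep_iSup_of_disjoint hm'le hm' h1
    have h3 : MeasurableSpace.comap (M.X i) inferInstance ≤ ⨆ s ∈ ({Sum.inr (Sum.inl i)} :
        Set ((Fin d → ℤ) ⊕ ((Fin d → ℤ) × ℕ) ⊕ (((Fin d → ℤ) × ℕ) × Fin d))), m' s :=
      le_biSup m' (Set.mem_singleton (Sum.inr (Sum.inl i)))
    exact indep_of_indep_of_le h2 h3 (hWgen i).comap_le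
  -- the model
  let S : (Fin d → ℤ) ⊕ Idx d →
      Set ((Fin d → ℤ) ⊕ ((Fin d → ℤ) × ℕ) ⊕ (((Fin d → ℤ) × ℕ) × Fin d)) := fun s =>
    Sum.elim (fun k => {Sum.inl k}) (fun i => insert (Sum.inr (Sum.inl i))
      (Set.range (fun j : Fin d => Sum.inr (Sum.inr (i, j))))) s
  have hSd : ∀ k l, k ≠ l → Disjoint (S k) (S l) := by
    rintro (k | i) (l | i') hkl
    · simp only [S, Sum.elim_inl, Set.disjoint_singleton]
      exact fun h => hkl (by rw [Sum.inl_injective h])
    · simp only [S, Sum.elim_inl, Sum.elim_inr, Set.disjoint_singleton_left]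
      rintro (h | ⟨j, h⟩)
      · exact absurd h (by simp)
      · exact absurd h (by simp)
    · simp only [S, Sum.elim_inl, Sum.elim_inr, Set.disjoint_singleton_right]
      rintro (h | ⟨j, h⟩)
      · exact absurd h (by simp)
      · exact absurd h (by simp)
    · have hii : i ≠ i' := fun h => hkl (by rw [h])
      rw [Set.disjoint_left]
      rintro x (rfl | ⟨j, rfl⟩) hx
      · rcases hx with h | ⟨j, h⟩
        · exact hii (Sum.inl_injective (Sum.inr_injective h))
        · exact absurd (Sum.inr_injective h) (by simp)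
      · rcases hx with h | ⟨j', h⟩
        · exact absurd (Sum.inr_injective h) (by simp)
        · have h2 := Sum.inr_injective (Sum.inr_injective h)
          exact hii (Prod.ext_iff.1 h2).1.symm
  have hgrp := PMo_iIndep_group hm'le hm' S hSd
  let M' : PM d P (P.map (W i₀)) :=
    { N := M.N
      y := fun i ω => (M.X i ω, W i ω)
      measN := M.measN
      measy := fun i => (M.measX i).prodMk (hWm i)
      lawN := M.lawN
      lawy := by
        intro i
        rw [(indepFun_iff_map_prod_eq_prod_map_map (M.measX i).aemeasurable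
          (hWm i).aemeasurable).1 (hXW i), M.lawX i, hlaw i]
      indep := by
        refine iIndep_of_iIndep_of_le hgrp ?_
        rintro (k | i)
        · exact le_biSup m' (Set.mem_singleton (Sum.inl k))
        · have h1 : Measurable[⨆ s ∈ S (Sum.inr i), m' s] (M.X i) := by
            have h2 : m' (Sum.inr (Sum.inl i)) ≤ ⨆ s ∈ S (Sum.inr i), m' s :=
              le_biSup m' (Set.mem_insert _ _)
            have h3 : Measurable[m' (Sum.inr (Sum.inl i))] (M.X i) := comap_measurable _
            exact h3.mono h2 le_rfl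
          have h4 : Measurable[⨆ s ∈ S (Sum.inr i), m' s] (W i) := by
            have h5 : (⨆ s ∈ Set.range (fun j : Fin d =>
                (Sum.inr (Sum.inr (i, j)) :
                  (Fin d → ℤ) ⊕ ((Fin d → ℤ) × ℕ) ⊕ (((Fin d → ℤ) × ℕ) × Fin d))), m' s) ≤
                ⨆ s ∈ S (Sum.inr i), m' s :=
              biSup_mono fun s hs => Set.mem_insert_of_mem _ hs
            exact (hWgen i).mono h5 le_rfl
          exact (h1.prodMk h4).comap_le }
  refine ⟨P.map (W i₀), hWien i₀, M', ?_⟩
  filter_upwards [hA] with ω hω r t ht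
  ext x
  simp only [WModel.occ, PM.occ, PM.presSet, sausage, Set.mem_iUnion, Metric.mem_ball,
    Set.mem_ofPred_eq, exists_prop, Prod.exists]
  constructor
  · rintro ⟨k, j, hj, s, hs, hx⟩
    refine ⟨k, j, hj, s, (Real.le_toNNReal_iff_coe_le ht).2 hs, ?_⟩
    change dist x (M.X (k, j) ω + W (k, j) ω s) < r
    rw [hWA ω hω]
    exact hx
  · rintro ⟨k, j, hj, s, hs, hx⟩
    refine ⟨k, j, hj, s, (Real.le_toNNReal_iff_coe_le ht).1 hs, ?_⟩
    change dist x (M.X (k, j) ω + W (k, j) ω s) < r at hx
    rw [hWA ω hω] at hx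
    exact hx

end WSP
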