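import Pool.Agent.Lib_MP_c175fd.GoodSet
import Pool.Agent.Lib_MP_c175fd.Gauss

/-!
# Pieces FINE, SMOOTH: macroscopic estimates for a fresh path

Here `t = tt d c r` is the (long) time of the old paths and `τ = tt d c' r` the time of a fresh path
`W`; `R = RR d r`.

FINE: for most shapes `w` of an old path, a fresh path started uniformly in the ball of radius `R`
around its starting point hits it with probability at least `c₂ / R ^ d`. Proof: let `β ≤ min c c'` be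
small and `σ = tt d β r`. Then
`∫_{‖z‖ ≤ R} μ {W | z ∈ Kset t τ w W} dz ≥ ∫_{‖z‖ ≤ R} μ {W | z ∈ Kset σ σ w W} dz
  ≥ u_σ w - ∫ W, Vol σ σ w W 1{2 r + rg σ w + rg σ W > R}` with `u_σ w = ∫ W, Vol σ σ w W`
(`enorm_le_of_mem_Kset`). The mean of the last term is at most
`(EV2 σ σ) ^ (1/2) (μ × μ) {2 r + rg σ w + rg σ W > R} ^ (1/2)`, and the probability is at most `C β ^ 2`
(`rg_tail` with `p = 4`), so for `β` small it is at most `δ κ β ^ 2 / 16`: by Markov the last term is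
at most `κ β ^ 2 / 4` outside a set of measure `δ / 4`. And `u_σ` has mean `→ κ β ^ 2` and second moment
`≤ EV2 σ σ → (κ β ^ 2) ^ 2`, so `μ {u_σ < κ β ^ 2 / 2} → 0`. Take `c₂ = κ β ^ 2 / 4`.

SMOOTH: at time `τ` the density of `W τ` is at least `c₅ / R ^ d` on the ball of radius `K₀ R`
(`IsWiener.prob_eval_ge`, `RR_bounds`).
-/

open MeasureTheory ProbabilityTheory Filter Topology
open scoped ENNReal NNReal

namespace WSP

variable {d : ℕ}

theorem smoothing (hd : 4 ≤ d) {μ : Measure (Path d)} (h : IsWiener μ) {c' : ℝ} (hc' : 0 < c')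
    (K₀ : ℝ≥0) :
    ∃ c₅ : ℝ≥0, 0 < c₅ ∧ ∀ᶠ r in 𝓝[>] (0 : ℝ), ∀ (y : E d) (A : Set (E d)), MeasurableSet A →
      A ⊆ Metric.closedBall y (K₀ * RR d r) →
      (c₅ : ℝ≥0∞) * volume A / (RR d r : ℝ≥0∞) ^ d ≤ μ {W | y + W (tt d c' r) ∈ A} := by
  have hπ : 0 < 2 * Real.pi * c' := by positivity
  set q : ℝ := (2 * Real.pi * c') ^ (-(d : ℝ) / 2) * Real.exp (-(2 * (K₀ : ℝ) ^ 2 / c')) with hq
  have hq0 : 0 < q := by positivity
  refine ⟨q.toNNReal, Real.toNNReal_pos.2 hq0, ?_⟩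
  filter_upwards [RR_bounds hd, (tendsto_ff hd).eventually_gt_atTop 0] with r hR hf y A hA hAy
  set f : ℝ := ff d r with hfdef
  have ht : ((tt d c' r : ℝ≥0) : ℝ) = c' * f := Real.coe_toNNReal _ (by positivity)
  have ht0 : tt d c' r ≠ 0 := by
    intro e
    rw [e] at ht
    have : 0 < c' * f := by positivity
    simp at ht
    rcases ht with e | e <;> linarith
  have hsf : 0 < Real.sqrt f := Real.sqrt_pos.2 hf
  have hRpos : (0 : ℝ) < RR d r := lt_of_lt_of_le hsf hR.1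
  have hRn : RR d r ≠ 0 := by
    intro e
    rw [e] at hRpos
    simp at hRpos
  have hA' : MeasurableSet ((fun x : E d => y + x) ⁻¹' A) := measurable_const_add y hA
  have hvol : volume ((fun x : E d => y + x) ⁻¹' A) = volume A :=
    measure_preimage_add _ _ _
  have hb : ∀ x ∈ ((fun x : E d => y + x) ⁻¹' A), ‖x‖ ≤ (K₀ : ℝ) * RR d r := by
    intro x hx
    have := hAy hx
    rw [Metric.mem_closedBall, dist_eq_norm] at this
    simpa using this
  have key := h.prob_eval_ge ht0 hA' hb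
  rw [hvol] at key
  refine le_trans ?_ (key.trans (le_of_eq rfl))
  rw [mul_comm, mul_div_assoc, mul_comm]
  gcongr
  -- compare the constants
  have e1 : ((RR d r : ℝ≥0∞)) ^ d = ENNReal.ofReal ((RR d r : ℝ) ^ d) := by
    rw [ENNReal.ofReal_pow hRpos.le, ENNReal.ofReal_natCast]
  have e2 : ((q.toNNReal : ℝ≥0) : ℝ≥0∞) = ENNReal.ofReal q := rfl
  rw [e1, e2, ← ENNReal.ofReal_div_of_pos (by positivity)]
  refine ENNReal.ofReal_le_ofReal ?_
  rw [ht, hq]
  have e3 : (2 * Real.pi * (c' * f)) ^ (-(d : ℝ) / 2) =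
      (2 * Real.pi * c') ^ (-(d : ℝ) / 2) * f ^ (-(d : ℝ) / 2) := by
    rw [← Real.mul_rpow hπ.le hf.le]
    ring_nf
  have e4 : f ^ (-(d : ℝ) / 2) = ((Real.sqrt f) ^ d)⁻¹ := by
    rw [neg_div, Real.rpow_neg hf.le, Real.sqrt_eq_rpow, ← Real.rpow_natCast, ← Real.rpow_mul hf.le]
    congr 2
    ring
  have e5 : ((RR d r : ℝ) ^ d)⁻¹ ≤ ((Real.sqrt f) ^ d)⁻¹ := by
    gcongr
    exact hR.1
  have e6 : Real.exp (-(2 * (K₀ : ℝ) ^ 2 / c')) ≤
      Real.exp (-((K₀ : ℝ) * RR d r) ^ 2 / (2 * (c' * f))) := by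
    rw [Real.exp_le_exp, neg_div, neg_le_neg_iff, div_le_div_iff₀ (by positivity) hc']
    have e7 : (RR d r : ℝ) ^ 2 ≤ 4 * f := by
      have := mul_self_le_mul_self hRpos.le hR.2
      have e8 := Real.mul_self_sqrt hf.le
      nlinarith
    have e9 : ((K₀ : ℝ) * RR d r) ^ 2 ≤ (K₀ : ℝ) ^ 2 * (4 * f) := by
      rw [mul_pow]
      gcongr
    calc ((K₀ : ℝ) * RR d r) ^ 2 * c' ≤ ((K₀ : ℝ) ^ 2 * (4 * f)) * c' := by gcongr
      _ = 2 * (K₀ : ℝ) ^ 2 * (2 * (c' * f)) := by ring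
  rw [e3, e4, div_eq_mul_inv]
  calc (2 * Real.pi * c') ^ (-(d : ℝ) / 2) * Real.exp (-(2 * (K₀ : ℝ) ^ 2 / c')) *
        ((RR d r : ℝ) ^ d)⁻¹
      ≤ (2 * Real.pi * c') ^ (-(d : ℝ) / 2) *
        Real.exp (-((K₀ : ℝ) * RR d r) ^ 2 / (2 * (c' * f))) * ((Real.sqrt f) ^ d)⁻¹ := by
        gcongr
    _ = (2 * Real.pi * c') ^ (-(d : ℝ) / 2) * ((Real.sqrt f) ^ d)⁻¹ *
        Real.exp (-((K₀ : ℝ) * RR d r) ^ 2 / (2 * (c' * f))) := by ring

/-- The displacement at time `t` is at most `a₀ R` with high probability. -/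
theorem endpoint_range (hd : 4 ≤ d) {μ : Measure (Path d)} (h : IsWiener μ) {c : ℝ} (hc : 0 < c)
    {δ : ℝ≥0} (hδ : 0 < δ) :
    ∃ a₀ : ℝ≥0, ∀ᶠ r in 𝓝[>] (0 : ℝ),
      μ {w | (a₀ : ℝ≥0∞) * (RR d r : ℝ≥0∞) < ‖w (tt d c r)‖ₑ} ≤ δ := by
  obtain ⟨C, hC⟩ := h.rg_tail 1
  set a : ℝ≥0 := C / δ + 1 with ha
  have ha0 : 0 < a := by positivity
  refine ⟨a * NNReal.sqrt c.toNNReal, ?_⟩
  filter_upwards [RR_bounds hd, (tendsto_ff hd).eventually_gt_atTop 0] with r hR hf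
  have e1 : NNReal.sqrt (tt d c r) ≤ NNReal.sqrt c.toNNReal * (RR d r : ℝ≥0) := by
    rw [← NNReal.coe_le_coe]
    push_cast
    rw [tt, Real.coe_toNNReal _ (by positivity),
      Real.coe_toNNReal _ hc.le, Real.sqrt_mul hc.le]
    gcongr
    exact hR.1
  have e2 : (a : ℝ≥0∞) * (NNReal.sqrt (tt d c r) : ℝ≥0∞) ≤
      ((a * NNReal.sqrt c.toNNReal : ℝ≥0) : ℝ≥0∞) * (RR d r : ℝ≥0∞) := by
    have e3 : (a * NNReal.sqrt (tt d c r) : ℝ≥0) ≤
        a * NNReal.sqrt c.toNNReal * (RR d r : ℝ≥0) := by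
      rw [mul_assoc]
      exact mul_le_mul_of_nonneg_left e1 zero_le
    exact_mod_cast e3
  refine (measure_mono ?_).trans ((hC (tt d c r) a ha0).trans ?_)
  · intro w hw
    exact lt_of_le_of_lt e2 (lt_of_lt_of_le hw (enorm_le_rg le_rfl w))
  · rw [pow_one]
    rw [← ENNReal.coe_div ha0.ne']
    rw [ENNReal.coe_le_coe, div_le_iff₀ ha0, ha, mul_add, mul_div_cancel₀ _ hδ.ne']
    exact le_self_add

/-- Measurability of the probability of being hit by a fresh path. -/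
theorem measurable_hitprob {μ : Measure (Path d)} [IsProbabilityMeasure μ] (ρ : ℝ) (s t : ℝ≥0) :
    Measurable (fun p : E d × Path d => μ {W | p.1 ∈ Kset ρ s t p.2 W}) := by
  have h1 : MeasurableSet {q : (E d × Path d) × Path d | q.1.1 ∈ Kset ρ s t q.1.2 q.2} := by
    have h2 : Measurable (fun q : (E d × Path d) × Path d => (q.1.1, q.1.2, q.2)) := by fun_prop
    exact h2 (measurableSet_Kset_prod ρ s t)
  exact measurable_measure_prodMk_left h1

end WSP
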