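import Pool.Agent.Lib_MP_c175fd.UnionB
import Pool.Agent.Lib_MP_c175fd.BigProb
import Pool.Agent.Lib_MP_c175fd.NiceProb
import Pool.Agent.Lib_MP_c175fd.Smooth
import Pool.Agent.Lib_MP_c175fd.ChooseN

/-!
# Pieces CHOOSEN, PAIR: the good event of a pair of blocks has high probability

CHOOSEN (`choose_n`): an exponential beats a polynomial, then a real limit in `R`:
`2 ^ (⌊U R ^ d⌋₊ / A) * (1 - c₁) ^ ⌈a R ^ d⌉₊ → 0` as `R → ∞` if `U log 2 / A < a c₁`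
(`(1 - c₁) ≤ exp (- c₁)`, `2 ^ (⌊U R ^ d⌋₊ / A) ≤ exp (log 2 * U R ^ d / A)`; if `c₁ ≥ 1` then `1 - c₁ = 0`).

PAIR (`pair_prob`): choose `c₁ ∈ (0, c)` with `m₀ = κ c₁ ^ 2 > 1`, `ρ = (m₀ - 1) / (100 m₀)`, `δ = ρ / 8`,
`c' = (c - c₁) / 2`, so that for small `r` `tt d c r = tt d c₁ r + (tt d c' r + tt d c' r)`. `nice_prob` (for
`c₁`, `c'`, `δ`) gives `c₂, a₀, CY`; `smoothing` (for `c'`, `K₀ = a₀ + 5 d`) gives `c₅`; `big_prob` (for `c₁`)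
gives `CD`. For `n ≥ 1` let `D = CD n ^ 2`, `A = ⌈m₀ ^ n / 8⌉₊`, `U = 2 (2 (D + 1) + 1) ^ d`,
`η = 1 / (10 ^ 6 (2 D + 7) ^ 2)`, `Y₀ = CY / η`, `p = c₅ (3/4 δ c₂) ^ 2 / Y₀`. By `choose_n` there is `n` with
`U log 2 / A < (3/4) δ p`. The complement of `goodPair` is contained in
`{card bg k < ρ R ^ d} ∪ {card bg k' < ρ R ^ d} ∪ {¬ Nice} ∪ {Nice ∧ Split}` (`bg_eq_bigF`, the union of the two
sets of big points is `bigU`), each of probability at most `η` for small `r` (`tendsto_RR`).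
-/

open MeasureTheory ProbabilityTheory Filter Topology
open scoped ENNReal NNReal

namespace WSP

variable {d : ℕ}

variable {Ω : Type*} [MeasurableSpace Ω] {P : Measure Ω} {μ : Measure (Path d)}

theorem pairp_tt {c c₁ c' f : ℝ} (h1 : 0 < c₁) (h' : 0 < c') (hf : 0 < f)
    (hc : c = c₁ + (c' + c')) :
    (c * f).toNNReal = (c₁ * f).toNNReal + ((c' * f).toNNReal + (c' * f).toNNReal) := by
  rw [← Real.toNNReal_add (by positivity) (by positivity),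
    ← Real.toNNReal_add (by positivity) (by positivity), hc]
  congr 1
  ring

/-- The complement of the good event of a pair of blocks. -/
theorem pairp_sub (M : PM d P μ) {r : ℝ} {t₁ τ t : ℝ≥0} {A R L L' : ℕ} (hL : R + L ≤ L')
    {c₂ a₀ Y₀ U : ℝ≥0} {ρ δ : ℝ} {k k' : Fin d → ℤ} (hk : ∀ i, |k' i - k i| ≤ R) :
    (M.goodPair r t₁ t A R L L' ρ δ k k')ᶜ ⊆
      {ω | ((M.bg r t₁ A R L k ω).card : ℝ) < ρ * (R : ℝ) ^ d} ∪
      ({ω | ((M.bg r t₁ A R L k' ω).card : ℝ) < ρ * (R : ℝ) ^ d} ∪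
      ({ω | ¬ Nice μ (M.J (win k R L') ω) (fun i => M.y i ω) (2 * r) t₁ τ R c₂ a₀ Y₀ U δ k k'} ∪
      {ω | Nice μ (M.J (win k R L') ω) (fun i => M.y i ω) (2 * r) t₁ τ R c₂ a₀ Y₀ U δ k k' ∧
      Split (M.J (win k R L') ω)
        (bigU (M.J (win k R L') ω) (fun i => M.y i ω) r t₁ A R L k k')
        (fun i => M.y i ω) r t (δ * (R : ℝ) ^ d)})) := by
  intro ω hω
  by_contra hcon
  simp only [Set.mem_union, not_or] at hcon
  obtain ⟨h1, h2, h3, h4⟩ := hcon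
  apply hω
  refine ⟨not_lt.1 h1, not_lt.1 h2, fun hs => h4 ⟨not_not.1 h3, ?_⟩⟩
  have e1 : M.bg r t₁ A R L k ω = bigF (M.J (win k R L') ω) (fun i => M.y i ω) r t₁ A R L k :=
    bg_eq_bigF M r t₁ A R L (win_mono k R (by omega)) ω
  have e2 : M.bg r t₁ A R L k' ω = bigF (M.J (win k R L') ω) (fun i => M.y i ω) r t₁ A R L k' :=
    bg_eq_bigF M r t₁ A R L ((win_subset hk).trans (win_mono k R hL)) ω
  have e3 : bigU (M.J (win k R L') ω) (fun i => M.y i ω) r t₁ A R L k k' =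
      bigF (M.J (win k R L') ω) (fun i => M.y i ω) r t₁ A R L k ∪
        bigF (M.J (win k R L') ω) (fun i => M.y i ω) r t₁ A R L k' := by
    unfold bigU
    ext i
    simp only [Finset.mem_union]
  rw [e1, e2, ← e3] at hs
  exact hs

/-- Piece PAIR. -/
theorem pair_prob (hd : 4 ≤ d) (M : PM d P μ) [IsProbabilityMeasure P] (h : IsWiener μ)
    {κ : ℝ} (hA : AnFacts d μ κ) {c : ℝ} (hc : 0 < c) (hm : 1 < κ * c ^ 2) :
    ∃ (c₁ ρ δ : ℝ) (A D : ℕ), 0 < δ ∧ 8 * δ ≤ ρ ∧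
      ∀ᶠ r in 𝓝[>] (0 : ℝ), ∀ k k' : Fin d → ℤ, (∀ i, |k' i - k i| ≤ RR d r) →
        P (M.goodPair r (tt d c₁ r) (tt d c r) A (RR d r) (D * RR d r) ((D + 1) * RR d r) ρ δ
          k k')ᶜ ≤ ENNReal.ofReal (1 / (10 ^ 5 * (2 * D + 7) ^ 2)) := by
  have hκ : 0 < κ := hA.pos
  -- choice of `c₁`
  have hx : 0 < κ * c ^ 2 := by positivity
  have hc₁c : 1 / (κ * c) < c := by
    rw [div_lt_iff₀ (by positivity)]
    nlinarith
  obtain ⟨c₁, hc₁⟩ : ∃ c₁ : ℝ, c₁ = (c + 1 / (κ * c)) / 2 := ⟨_, rfl⟩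
  have hc₁pos : 0 < c₁ := by
    rw [hc₁]
    positivity
  have hc₁lt : c₁ < c := by
    rw [hc₁]
    linarith
  have hm₀ : 1 < κ * c₁ ^ 2 := by
    have e1 : κ * c₁ ^ 2 - 1 = (κ * c ^ 2 - 1) ^ 2 / (4 * (κ * c ^ 2)) := by
      rw [hc₁]
      field_simp
      ring
    have e2 : 0 < (κ * c ^ 2 - 1) ^ 2 / (4 * (κ * c ^ 2)) := by
      have : 0 < κ * c ^ 2 - 1 := by linarith
      positivity
    linarith
  obtain ⟨m₀, hm₀e⟩ : ∃ m₀ : ℝ, m₀ = κ * c₁ ^ 2 := ⟨_, rfl⟩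
  rw [← hm₀e] at hm₀
  obtain ⟨ρ, hρ⟩ : ∃ ρ : ℝ, ρ = (m₀ - 1) / (100 * m₀) := ⟨_, rfl⟩
  have hρ0 : 0 < ρ := by
    rw [hρ]
    have : 0 < m₀ - 1 := by linarith
    positivity
  obtain ⟨δ, hδe⟩ : ∃ δ : ℝ, δ = ρ / 8 := ⟨_, rfl⟩
  have hδ : 0 < δ := by
    rw [hδe]
    positivity
  obtain ⟨c', hc'e⟩ : ∃ c' : ℝ, c' = (c - c₁) / 2 := ⟨_, rfl⟩
  have hc' : 0 < c' := by
    rw [hc'e]
    linarith
  have hcc : c = c₁ + (c' + c') := by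
    rw [hc'e]
    ring
  -- the constants
  obtain ⟨c₂, a₀, CY, hc₂, hCY, hnice⟩ := nice_prob hd M h hA hc₁pos hc' hδ
  obtain ⟨c₅, hc₅, hsm⟩ := smoothing hd h hc' (a₀ + 5 * d)
  obtain ⟨CD, hbig⟩ := big_prob hd M h hA hc₁pos (by rw [← hm₀e]; exact hm₀)
  have hq : 0 < 3 / 4 * δ * (c₅ * (3 / 4 * δ * c₂) ^ 2 / CY) := by
    have h1 : (0 : ℝ) < c₂ := hc₂
    have h2 : (0 : ℝ) < c₅ := hc₅
    have h3 : (0 : ℝ) < CY := hCY
    positivity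
  obtain ⟨n, hn, hchoose⟩ := choose_n d CD hm₀ hq
  obtain ⟨D, hD⟩ : ∃ D : ℕ, D = CD * n ^ 2 := ⟨_, rfl⟩
  rw [← hD] at hchoose
  obtain ⟨A, hAe⟩ : ∃ A : ℕ, A = ⌈m₀ ^ n / 8⌉₊ := ⟨_, rfl⟩
  have hA0 : 0 < A := by
    rw [hAe]
    exact Nat.ceil_pos.2 (by positivity)
  rw [← hAe] at hchoose
  obtain ⟨η, hη⟩ : ∃ η : ℝ≥0, η = 1 / (10 ^ 6 * (2 * (D : ℝ≥0) + 7) ^ 2) := ⟨_, rfl⟩
  have hη0 : 0 < η := by
    rw [hη]
    positivity
  obtain ⟨p, hp⟩ : ∃ p : ℝ≥0∞, p = (c₅ : ℝ≥0∞) * (ENNReal.ofReal (3 / 4 * δ) * c₂) ^ 2 /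
    ((CY / η : ℝ≥0) : ℝ≥0∞) := ⟨_, rfl⟩
  obtain ⟨U, hU⟩ : ∃ U : ℝ≥0, U = 2 * (2 * ((D + 1 : ℕ) : ℝ≥0) + 1) ^ d := ⟨_, rfl⟩
  have hpR : p.toReal = c₅ * (3 / 4 * δ * c₂) ^ 2 / (CY / η) := by
    rw [hp, ENNReal.toReal_div, ENNReal.toReal_mul, ENNReal.toReal_pow, ENNReal.toReal_mul,
      ENNReal.toReal_ofReal (by positivity)]
    simp only [ENNReal.coe_toReal, NNReal.coe_div]
  have hkey : (U : ℝ) * Real.log 2 / A < 3 / 4 * δ * p.toReal := by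
    have e1 : (U : ℝ) = 2 * (2 * ((D : ℝ) + 1) + 1) ^ d := by
      rw [hU]
      push_cast
      ring
    have e2 : (η : ℝ) = 1 / (10 ^ 6 * (2 * (D : ℝ) + 7) ^ 2) := by
      rw [hη]
      push_cast
      ring
    have e3 : 3 / 4 * δ * p.toReal =
        3 / 4 * δ * (c₅ * (3 / 4 * δ * c₂) ^ 2 / CY) / (10 ^ 6 * (2 * (D : ℝ) + 7) ^ 2) := by
      rw [hpR, e2]
      have h3 : (CY : ℝ) ≠ 0 := by
        have : (0 : ℝ) < CY := hCY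
        exact this.ne'
      field_simp
    rw [e1, e3]
    exact hchoose
  have hlim := (union_tendsto (d := d) (by omega) hA0 U.2 (show (0 : ℝ) < 3 / 4 * δ by positivity)
    hkey).comp (tendsto_RR hd)
  have hlim' : ∀ᶠ r in 𝓝[>] (0 : ℝ), (2 : ℝ≥0∞) ^ (⌊(U : ℝ) * (RR d r : ℝ) ^ d⌋₊ / A) *
      (1 - p) ^ ⌈3 / 4 * δ * (RR d r : ℝ) ^ d⌉₊ < (η : ℝ≥0∞) :=
    hlim.eventually_lt_const (by exact_mod_cast hη0)
  refine ⟨c₁, ρ, δ, A, D, hδ, by rw [hδe]; linarith, ?_⟩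
  filter_upwards [RR_pos hd, (tendsto_ff hd).eventually_gt_atTop 0, hsm, hnice (D + 1) η hη0,
    hbig n hn η (by exact_mod_cast hη0), hlim'] with r hR hf e1 e2 e3 e4
  intro k k' hk
  have ht : tt d c r = tt d c₁ r + (tt d c' r + tt d c' r) := pairp_tt hc₁pos hc' hf hcc
  have f1 := e3 k
  have f2 := e3 k'
  have f3 := e2 k k' hk
  rw [← hm₀e, ← hAe, ← hD, ← hρ] at f1 f2
  rw [← hU] at f3
  have f4 := (union_bound M h (r := r) (t₁ := tt d c₁ r) (τ := tt d c' r) (t := tt d c r) ht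
    (A := A) (R := RR d r) (L := D * RR d r) (L' := (D + 1) * RR d r) hA0 hR (c₂ := c₂) (a₀ := a₀)
    (Y₀ := CY / η) (U := U) (K₀ := a₀ + 5 * d) (c₅ := c₅) (by positivity) hδ hk
    (by push_cast; exact le_rfl) e1).trans (le_trans (by rw [hp]) e4.le)
  refine (measure_mono (pairp_sub M (τ := tt d c' r) (c₂ := c₂) (a₀ := a₀) (Y₀ := CY / η) (U := U)
    (show RR d r + D * RR d r ≤ (D + 1) * RR d r by
      rw [Nat.add_mul, one_mul, add_comm]) hk)).trans ?_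
  refine (measure_union_le _ _).trans ?_
  refine (add_le_add f1 ((measure_union_le _ _).trans
    (add_le_add f2 ((measure_union_le _ _).trans (add_le_add f3 f4))))).trans ?_
  have g1 : (η : ℝ≥0∞) + (η + (η + η)) = ENNReal.ofReal (4 * (η : ℝ)) := by
    rw [ENNReal.ofReal_mul (by norm_num), ENNReal.ofReal_coe_nnreal, ENNReal.ofReal_ofNat]
    ring
  rw [g1]
  refine ENNReal.ofReal_le_ofReal ?_
  rw [hη]
  push_cast
  rw [mul_one_div, div_le_div_iff₀ (by positivity) (by positivity)]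
  have : (0 : ℝ) ≤ (2 * (D : ℝ) + 7) ^ 2 := by positivity
  nlinarith

end WSP
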