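import Pool.Agent.Lib_MP_c175fd.Defs

/-!
# Piece PATHMEAS: measurability of the basic maps on paths

The sigma algebra on `Path d` is the one generated by the evaluations. Joint measurability of
`(w, s) ↦ w s` comes from continuity in `s` (`measurable_uncurry_of_continuous_of_measurable`, or
approximate `s` by dyadic times). `rg t w` is the supremum over a countable dense set of times
`min q t`, `q` rational, by continuity.
-/

open MeasureTheory ProbabilityTheory Filter Topology
open scoped ENNReal NNReal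

namespace WSP

variable {d : ℕ}

theorem measurable_eval (s : ℝ≥0) : Measurable (fun w : Path d => w s) := by
  exact (measurable_pi_apply s).comp (comap_measurable _)

theorem measurable_path {α : Type*} [MeasurableSpace α] {f : α → Path d}
    (h : ∀ s : ℝ≥0, Measurable (fun a => f a s)) : Measurable f := by
  exact measurable_comap_iff.2 (measurable_pi_iff.2 h)

theorem measurable_eval_prod : Measurable (fun p : Path d × ℝ≥0 => p.1 p.2) := by
  have h : Measurable (Function.uncurry (fun (s : ℝ≥0) (w : Path d) => w s)) :=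
    measurable_uncurry_of_continuous_of_measurable (fun w => w.cont) (fun s => measurable_eval s)
  exact h.comp measurable_swap

theorem measurable_stop (a : ℝ≥0) : Measurable (stop a : Path d → Path d) := by
  exact measurable_path fun s => measurable_eval (min s a)

theorem measurable_shift (a : ℝ≥0) : Measurable (shift a : Path d → Path d) := by
  exact measurable_path fun s => (measurable_eval (a + s)).sub (measurable_eval a)

theorem measurable_scale (c : ℝ≥0) : Measurable (scale c : Path d → Path d) := by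
  refine measurable_path fun s => ?_
  show Measurable (fun w : Path d => (NNReal.sqrt c : ℝ)⁻¹ • w (c * s))
  exact (measurable_eval (c * s)).const_smul ((NNReal.sqrt c : ℝ)⁻¹)

theorem measurable_rev (a : ℝ≥0) : Measurable (rev a : Path d → Path d) := by
  exact measurable_path fun s => (measurable_eval a).sub (measurable_eval (a - s))

theorem measurable_rg (t : ℝ≥0) : Measurable (rg t : Path d → ℝ≥0∞) := by
  have h : (rg t : Path d → ℝ≥0∞) =
      fun w => ⨆ n : ℕ, ‖w (min (TopologicalSpace.denseSeq ℝ≥0 n) t)‖ₑ := by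
    funext w
    unfold rg
    apply le_antisymm
    · refine iSup₂_le fun s hs => ?_
      have hc : Continuous fun u : ℝ≥0 => ‖w (min u t)‖ₑ :=
        (w.cont.comp (continuous_id.min continuous_const)).enorm
      have hcl : IsClosed {u : ℝ≥0 | ‖w (min u t)‖ₑ ≤
          ⨆ n : ℕ, ‖w (min (TopologicalSpace.denseSeq ℝ≥0 n) t)‖ₑ} :=
        isClosed_le hc continuous_const
      have hall : ∀ u : ℝ≥0, u ∈ {u : ℝ≥0 | ‖w (min u t)‖ₑ ≤
          ⨆ n : ℕ, ‖w (min (TopologicalSpace.denseSeq ℝ≥0 n) t)‖ₑ} := by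
        intro u
        have hd := TopologicalSpace.denseRange_denseSeq ℝ≥0
        refine hcl.closure_subset_iff.2 ?_ (hd u)
        rintro _ ⟨n, rfl⟩
        exact le_iSup (fun n : ℕ => ‖w (min (TopologicalSpace.denseSeq ℝ≥0 n) t)‖ₑ) n
      have h2 := hall s
      simp only [Set.mem_setOf_eq, min_eq_left hs] at h2
      exact h2
    · refine iSup_le fun n => ?_
      exact le_iSup₂ (f := fun (s : ℝ≥0) (_ : s ≤ t) => ‖w s‖ₑ)
        (min (TopologicalSpace.denseSeq ℝ≥0 n) t) (min_le_right _ _)
  rw [h]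
  exact Measurable.iSup fun n => (measurable_eval _).enorm

theorem rg_lt_top (t : ℝ≥0) (w : Path d) : rg t w < ∞ := by
  obtain ⟨C, hC⟩ := (isCompact_Icc (a := (0 : ℝ≥0)) (b := t)).exists_bound_of_continuousOn
    (f := fun s => w s) w.cont.continuousOn
  refine lt_of_le_of_lt (b := ENNReal.ofReal C) ?_ ENNReal.ofReal_lt_top
  unfold rg
  refine iSup₂_le fun s hs => ?_
  rw [← ofReal_norm_eq_enorm]
  exact ENNReal.ofReal_le_ofReal (hC s ⟨bot_le, hs⟩)

theorem enorm_le_rg {s t : ℝ≥0} (h : s ≤ t) (w : Path d) : ‖w s‖ₑ ≤ rg t w := by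
  exact le_iSup₂ (f := fun (s : ℝ≥0) (_ : s ≤ t) => ‖w s‖ₑ) s h

theorem rg_mono {s t : ℝ≥0} (h : s ≤ t) (w : Path d) : rg s w ≤ rg t w := by
  exact iSup₂_le fun u hu => enorm_le_rg (hu.trans h) w

theorem rg_stop (t : ℝ≥0) (w : Path d) : rg t (stop t w) = rg t w := by
  unfold rg
  refine iSup_congr fun s => iSup_congr fun hs => ?_
  rw [stop_apply, min_eq_left hs]

/-- `stop a (stop b w) = stop (min a b) w`. -/
theorem stop_stop (a b : ℝ≥0) (w : Path d) : stop a (stop b w) = stop (min a b) w := by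
  ext1 s
  rw [stop_apply, stop_apply, stop_apply, min_assoc]

theorem shift_shift (a b : ℝ≥0) (w : Path d) : shift a (shift b w) = shift (b + a) w := by
  ext1 s
  rw [shift_apply, shift_apply, shift_apply, shift_apply, add_assoc]
  abel

/-- `stop τ (shift a w)` only depends on `stop (a + τ) w`. -/
theorem stop_shift_stop (a τ : ℝ≥0) (w : Path d) :
    stop τ (shift a (stop (a + τ) w)) = stop τ (shift a w) := by
  ext1 s
  have h1 : min (a + min s τ) (a + τ) = a + min s τ :=
    min_eq_left (add_le_add le_rfl (min_le_right _ _))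
  have h2 : min a (a + τ) = a := min_eq_left le_self_add
  rw [stop_apply, stop_apply, shift_apply, shift_apply, stop_apply, stop_apply, h1, h2]

/-- The reversed path only depends on the stopped path. -/
theorem rev_stop (a : ℝ≥0) (w : Path d) : rev a (stop a w) = rev a w := by
  ext1 s
  rw [rev_apply, rev_apply, stop_apply, stop_apply, min_self, min_eq_left tsub_le_self]

/-- `rg c w = √c * rg 1 (scale c w)`. -/
theorem rg_eq_scale {c : ℝ≥0} (hc : c ≠ 0) (w : Path d) :
    rg c w = (NNReal.sqrt c : ℝ≥0∞) * rg 1 (scale c w) := by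
  have hs0 : (NNReal.sqrt c : ℝ) ≠ 0 := by
    have : NNReal.sqrt c ≠ 0 := by simpa using hc
    exact_mod_cast this
  have hs1 : (NNReal.sqrt c : ℝ≥0∞) * ‖((NNReal.sqrt c : ℝ))⁻¹‖ₑ = 1 := by
    have h0 : NNReal.sqrt c ≠ 0 := by simpa using hc
    have h1 : ‖((NNReal.sqrt c : ℝ))⁻¹‖ₑ = ((NNReal.sqrt c)⁻¹ : ℝ≥0) := by
      rw [← ofReal_norm_eq_enorm, norm_inv, Real.norm_of_nonneg (NNReal.coe_nonneg _),
        ← NNReal.coe_inv, ENNReal.ofReal_coe_nnreal]
    rw [h1, ← ENNReal.coe_mul, mul_inv_cancel₀ h0, ENNReal.coe_one]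
  have hpt : ∀ s : ℝ≥0, (NNReal.sqrt c : ℝ≥0∞) * ‖scale c w s‖ₑ = ‖w (c * s)‖ₑ := by
    intro s
    rw [scale_apply, enorm_smul, ← mul_assoc, hs1, one_mul]
  apply le_antisymm
  · refine iSup₂_le fun u hu => ?_
    have h1 : c * (u / c) = u := mul_div_cancel₀ u hc
    have h2 : u / c ≤ 1 := div_le_one_of_le₀ hu bot_le
    calc ‖w u‖ₑ = (NNReal.sqrt c : ℝ≥0∞) * ‖scale c w (u / c)‖ₑ := by rw [hpt, h1]
      _ ≤ (NNReal.sqrt c : ℝ≥0∞) * rg 1 (scale c w) := by
          gcongr
          exact enorm_le_rg h2 _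
  · unfold rg
    rw [ENNReal.mul_iSup]
    refine iSup_le fun s => ?_
    rw [ENNReal.mul_iSup]
    refine iSup_le fun hs => ?_
    rw [hpt]
    refine le_iSup₂ (f := fun (s : ℝ≥0) (_ : s ≤ c) => ‖w s‖ₑ) (c * s) ?_
    calc c * s ≤ c * 1 := by gcongr
      _ = c := mul_one c

end WSP
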