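import Pool.Agent.Lib_MP_c175fd.Model
import Pool.Agent.Lib_MP_c175fd.KBasic

/-!
# Piece PERCA: the occupied set and the intersection graph
-/

open MeasureTheory ProbabilityTheory Filter Topology
open scoped ENNReal NNReal

namespace WSP

variable {d : ℕ}

/-- The Wiener sausage of radius `r` up to time `t` of a mark (starting point, path). -/
def sausage (r : ℝ) (t : ℝ≥0) (y : Mark d) : Set (E d) := {x | ∃ s ≤ t, dist x (y.1 + y.2 s) < r}

/-- A set percolates if it has an unbounded path-connected component. -/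
def Percolates (S : Set (E d)) : Prop := ∃ x ∈ S, ¬ Bornology.IsBounded (pathComponentIn S x)

/-- Adjacency of the indices in `J`: the sausages of radius `r` up to time `t` intersect. -/
def adjI {ι : Type*} (J : Set ι) (y : ι → Mark d) (r : ℝ) (t : ℝ≥0) (i j : ι) : Prop :=
  i ∈ J ∧ j ∈ J ∧ hitR (2 * r) t t (y i) (y j)

theorem adjI_symm {ι : Type*} {J : Set ι} {y : ι → Mark d} {r : ℝ} {t : ℝ≥0} {i j : ι}
    (h : adjI J y r t i j) : adjI J y r t j i :=
  ⟨h.2.1, h.1, hitR_symm.1 h.2.2⟩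

theorem perca_dist (y y' : Mark d) (u v : ℝ≥0) :
    dist (y.2 u) (y'.1 - y.1 + y'.2 v) = dist (y.1 + y.2 u) (y'.1 + y'.2 v) := by
  rw [dist_eq_norm, dist_eq_norm]
  congr 1
  abel

/-- Two sausages of radius `r > 0` intersect iff the marks are in the relation `hitR (2 r)`. -/
theorem inter_sausage_iff {r : ℝ} (hr : 0 < r) (t : ℝ≥0) (y y' : Mark d) :
    (sausage r t y ∩ sausage r t y').Nonempty ↔ hitR (2 * r) t t y y' := by
  constructor
  · rintro ⟨x, ⟨u, hu, hxu⟩, ⟨v, hv, hxv⟩⟩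
    refine ⟨u, hu, v, hv, ?_⟩
    rw [perca_dist]
    have h1 := dist_triangle_left (y.1 + y.2 u) (y'.1 + y'.2 v) x
    linarith
  · rintro ⟨u, hu, v, hv, h⟩
    rw [perca_dist] at h
    refine ⟨midpoint ℝ (y.1 + y.2 u) (y'.1 + y'.2 v), ⟨u, hu, ?_⟩, ⟨v, hv, ?_⟩⟩
    · rw [dist_midpoint_left, Real.norm_ofNat]
      linarith
    · rw [dist_midpoint_right, Real.norm_ofNat]
      linarith

/-- Monotonicity in time. -/
theorem sausage_mono (r : ℝ) {s t : ℝ≥0} (h : s ≤ t) (y : Mark d) :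
    sausage r s y ⊆ sausage r t y := by
  rintro x ⟨u, hu, hx⟩
  exact ⟨u, hu.trans h, hx⟩

theorem Percolates.mono {S T : Set (E d)} (h : S ⊆ T) (hS : Percolates S) : Percolates T := by
  obtain ⟨x, hx, hb⟩ := hS
  exact ⟨x, h hx, fun hT => hb (hT.subset (pathComponentIn_mono h))⟩

namespace PM

variable {Ω : Type*} [MeasurableSpace Ω] {P : Measure Ω} {μ : Measure (Path d)}

/-- The present indices. -/
def presSet (M : PM d P μ) (ω : Ω) : Set (Idx d) := {i | i.2 < M.N i.1 ω}

/-- The occupied set at time `t` and radius `r`. -/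
def occ (M : PM d P μ) (r : ℝ) (t : ℝ≥0) (ω : Ω) : Set (E d) :=
  ⋃ i ∈ M.presSet ω, sausage r t (M.y i ω)

end PM

end WSP
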