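import Mathlib

/-!
# Piece PERCDET: multiscale good sites contain an infinite cluster (deterministic)

`gdL base n a`: the site `a` of level `n` is good; the site `a` of level `n + 1` consists of the `25` sites
`5 a + (i, j)`, `i, j < 5`, of level `n`, and is good iff any two bad sites among them are at sup distance
at most one. Then at most two of the five rows (and two of the five columns) contain a bad site.

Core of a good site: `core 0 a = {a}`, `core (n+1) a` = union of the cores of the sites `b` of level `n`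
which lie in a row or in a column of `a` consisting of good sites. Claim `(C n)`, by induction: the core
of a good site is nonempty and connected (by nearest neighbour steps between good base sites), and the
union of the cores of two adjacent good sites of level `n` is connected. Induction step: a good row is a
sequence of five adjacent good sites, so the union of their cores is connected; every good row meets
every good column; two horizontally adjacent good sites `a, a + (1,0)` of level `n + 1` have at least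
three good rows each, so there is a common good row, whose last site in `a` is adjacent to its first site
in `a + (1, 0)`; similarly for columns.

Infinite cluster: suppose that the sites `(0,0), (1,0), (2,0)` of level `n` are good for all `n`. In the
site `(0,0)` of level `n + 1` at most two (neighbouring) columns are not good, so one of the columns
`0, 1, 2` is good, and `(0,0), (1,0), (2,0)` are adjacent good sites of level `n`: hence the union over
`n` of the cores of `(0,0), (1,0), (2,0)` of level `n` is connected. It is infinite because the core of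
`(0,0)` of level `n + 1` contains the core of a site `(i, 4)` of level `n`, whose elements have second
coordinate at least `4 * 5 ^ n`.
-/

namespace WSP

/-- Nearest neighbours in the plane lattice. -/
def nn (u v : ℤ × ℤ) : Prop := (u.1 = v.1 ∧ |u.2 - v.2| = 1) ∨ (u.2 = v.2 ∧ |u.1 - v.1| = 1)

/-- Sup distance at most one. -/
def near (u v : ℤ × ℤ) : Prop := |u.1 - v.1| ≤ 1 ∧ |u.2 - v.2| ≤ 1

/-- The subsites of a site. -/
def sub5 (a b : ℤ × ℤ) : Prop :=
  5 * a.1 ≤ b.1 ∧ b.1 < 5 * a.1 + 5 ∧ 5 * a.2 ≤ b.2 ∧ b.2 < 5 * a.2 + 5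

/-- Good sites of level `n`. -/
def gdL (base : ℤ × ℤ → Prop) : ℕ → ℤ × ℤ → Prop
  | 0, a => base a
  | n + 1, a => ∀ b b', sub5 a b → sub5 a b' → ¬ gdL base n b → ¬ gdL base n b' → near b b'

/-- Connection through good base sites. -/
def gconn (base : ℤ × ℤ → Prop) (u v : ℤ × ℤ) : Prop :=
  Relation.ReflTransGen (fun u v => base u ∧ base v ∧ nn u v) u v

/-- The row `y` of the site `a` consists of good sites. -/
def gRow (base : ℤ × ℤ → Prop) (n : ℕ) (a : ℤ × ℤ) (y : ℤ) : Prop :=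
  5 * a.2 ≤ y ∧ y < 5 * a.2 + 5 ∧ ∀ x, 5 * a.1 ≤ x → x < 5 * a.1 + 5 → gdL base n (x, y)

/-- The column `x` of the site `a` consists of good sites. -/
def gCol (base : ℤ × ℤ → Prop) (n : ℕ) (a : ℤ × ℤ) (x : ℤ) : Prop :=
  5 * a.1 ≤ x ∧ x < 5 * a.1 + 5 ∧ ∀ y, 5 * a.2 ≤ y → y < 5 * a.2 + 5 → gdL base n (x, y)

/-- The core of a site. -/
def core (base : ℤ × ℤ → Prop) : ℕ → ℤ × ℤ → Set (ℤ × ℤ)
  | 0, a => {a}
  | n + 1, a => {u | ∃ b, sub5 a b ∧ (gRow base n a b.2 ∨ gCol base n a b.1) ∧ u ∈ core base n b}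

/-- The cores of two sites are joined. -/
def Jn (base : ℤ × ℤ → Prop) (n : ℕ) (a b : ℤ × ℤ) : Prop :=
  ∀ u ∈ core base n a, ∀ v ∈ core base n b, gconn base u v

variable {base : ℤ × ℤ → Prop}

theorem nn_symm {u v : ℤ × ℤ} (h : nn u v) : nn v u := by
  rcases h with ⟨h1, h2⟩ | ⟨h1, h2⟩
  · exact Or.inl ⟨h1.symm, by rw [abs_sub_comm]; exact h2⟩
  · exact Or.inr ⟨h1.symm, by rw [abs_sub_comm]; exact h2⟩

theorem gconn_symm {u v : ℤ × ℤ} (h : gconn base u v) : gconn base v u := by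
  unfold gconn at h ⊢
  induction h with
  | refl => exact Relation.ReflTransGen.refl
  | tail _ h ih => exact Relation.ReflTransGen.head ⟨h.2.1, h.1, nn_symm h.2.2⟩ ih

theorem gconn_trans {u v w : ℤ × ℤ} (h : gconn base u v) (h' : gconn base v w) :
    gconn base u w := Relation.ReflTransGen.trans h h'

theorem Jn_symm {n : ℕ} {a b : ℤ × ℤ} (h : Jn base n a b) : Jn base n b a :=
  fun u hu v hv => gconn_symm (h v hv u hu)

theorem Jn_trans {n : ℕ} {a b c : ℤ × ℤ} (h : Jn base n a b) (h' : Jn base n b c)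
    (hne : (core base n b).Nonempty) : Jn base n a c := by
  obtain ⟨w, hw⟩ := hne
  exact fun u hu v hv => gconn_trans (h u hu w hw) (h' w hw v hv)

/-- Rows which are not good. -/
theorem row_near {n : ℕ} {a : ℤ × ℤ} (h : gdL base (n + 1) a) {y y' : ℤ}
    (hy : 5 * a.2 ≤ y ∧ y < 5 * a.2 + 5) (hy' : 5 * a.2 ≤ y' ∧ y' < 5 * a.2 + 5)
    (hb : ¬ gRow base n a y) (hb' : ¬ gRow base n a y') : |y - y'| ≤ 1 := by
  unfold gRow at hb hb'
  push Not at hb hb'
  obtain ⟨x, hx1, hx2, hx⟩ := hb hy.1 hy.2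
  obtain ⟨x', hx1', hx2', hx'⟩ := hb' hy'.1 hy'.2
  exact (h (x, y) (x', y') ⟨hx1, hx2, hy.1, hy.2⟩ ⟨hx1', hx2', hy'.1, hy'.2⟩ hx hx').2

/-- Columns which are not good. -/
theorem col_near {n : ℕ} {a : ℤ × ℤ} (h : gdL base (n + 1) a) {x x' : ℤ}
    (hx : 5 * a.1 ≤ x ∧ x < 5 * a.1 + 5) (hx' : 5 * a.1 ≤ x' ∧ x' < 5 * a.1 + 5)
    (hb : ¬ gCol base n a x) (hb' : ¬ gCol base n a x') : |x - x'| ≤ 1 := by
  unfold gCol at hb hb'
  push Not at hb hb'
  obtain ⟨y, hy1, hy2, hy⟩ := hb hx.1 hx.2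
  obtain ⟨y', hy1', hy2', hy'⟩ := hb' hx'.1 hx'.2
  exact (h (x, y) (x', y') ⟨hx.1, hx.2, hy1, hy2⟩ ⟨hx'.1, hx'.2, hy1', hy2'⟩ hy hy').1

/-- A pigeonhole principle. -/
theorem pigeon {A B : ℤ → Prop} {c : ℤ}
    (hA : ∀ y y', c ≤ y ∧ y < c + 5 → c ≤ y' ∧ y' < c + 5 → ¬ A y → ¬ A y' → |y - y'| ≤ 1)
    (hB : ∀ y y', c ≤ y ∧ y < c + 5 → c ≤ y' ∧ y' < c + 5 → ¬ B y → ¬ B y' → |y - y'| ≤ 1) :
    ∃ y, (c ≤ y ∧ y < c + 5) ∧ A y ∧ B y := by
  have key : ∀ {A : ℤ → Prop},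
      (∀ y y', c ≤ y ∧ y < c + 5 → c ≤ y' ∧ y' < c + 5 → ¬ A y → ¬ A y' → |y - y'| ≤ 1) →
      (A c ∧ A (c + 2)) ∨ (A c ∧ A (c + 4)) ∨ (A (c + 2) ∧ A (c + 4)) := by
    intro A hA
    have h1 : A c ∨ A (c + 2) := by
      by_contra hcon
      push Not at hcon
      have := abs_le.mp (hA c (c + 2) ⟨by omega, by omega⟩ ⟨by omega, by omega⟩ hcon.1 hcon.2)
      omega
    have h2 : A c ∨ A (c + 4) := by
      by_contra hcon
      push Not at hcon
      have := abs_le.mp (hA c (c + 4) ⟨by omega, by omega⟩ ⟨by omega, by omega⟩ hcon.1 hcon.2)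
      omega
    have h3 : A (c + 2) ∨ A (c + 4) := by
      by_contra hcon
      push Not at hcon
      have := abs_le.mp (hA (c + 2) (c + 4) ⟨by omega, by omega⟩ ⟨by omega, by omega⟩
        hcon.1 hcon.2)
      omega
    tauto
  have k1 := key hA
  have k2 := key hB
  have h0 : c ≤ c ∧ c < c + 5 := ⟨by omega, by omega⟩
  have h2 : c ≤ c + 2 ∧ c + 2 < c + 5 := ⟨by omega, by omega⟩
  have h4 : c ≤ c + 4 ∧ c + 4 < c + 5 := ⟨by omega, by omega⟩
  by_cases e0 : A c ∧ B c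
  · exact ⟨c, h0, e0⟩
  by_cases e2 : A (c + 2) ∧ B (c + 2)
  · exact ⟨c + 2, h2, e2⟩
  by_cases e4 : A (c + 4) ∧ B (c + 4)
  · exact ⟨c + 4, h4, e4⟩
  exfalso
  tauto

theorem exists_row {n : ℕ} {a : ℤ × ℤ} (h : gdL base (n + 1) a) : ∃ y, gRow base n a y := by
  obtain ⟨y, _, h1, _⟩ := pigeon (c := 5 * a.2) (fun y y' hy hy' => row_near h hy hy')
    (fun y y' hy hy' => row_near h hy hy')
  exact ⟨y, h1⟩

theorem exists_col {n : ℕ} {a : ℤ × ℤ} (h : gdL base (n + 1) a) : ∃ x, gCol base n a x := by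
  obtain ⟨y, _, h1, _⟩ := pigeon (c := 5 * a.1) (fun y y' hy hy' => col_near h hy hy')
    (fun y y' hy hy' => col_near h hy hy')
  exact ⟨y, h1⟩

/-- The claim of level `n`. -/
def Cn (base : ℤ × ℤ → Prop) (n : ℕ) : Prop :=
  (∀ a, gdL base n a → (core base n a).Nonempty ∧ Jn base n a a) ∧
    ∀ a b, gdL base n a → gdL base n b → nn a b → Jn base n a b

theorem row_join {n : ℕ} (h : Cn base n) (y : ℤ) (k : ℕ) : ∀ x : ℤ,
    (∀ z, x ≤ z → z ≤ x + k → gdL base n (z, y)) → Jn base n (x, y) (x + k, y) := by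
  induction k with
  | zero =>
    intro x hx
    rw [Nat.cast_zero, add_zero]
    exact (h.1 _ (hx x le_rfl (by simp))).2
  | succ k ih =>
    intro x hx
    have h1 := ih x fun z hz hz' => hx z hz (by push_cast; omega)
    have h2 := hx (x + k) (by omega) (by push_cast; omega)
    have h3 := hx (x + (k + 1 : ℕ)) (by omega) le_rfl
    refine Jn_trans h1 (h.2 _ _ h2 h3 (Or.inr ⟨rfl, ?_⟩)) (h.1 _ h2).1
    show |(x + k) - (x + ((k + 1 : ℕ) : ℤ))| = 1
    push_cast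
    rw [show (x + (k : ℤ)) - (x + ((k : ℤ) + 1)) = -1 by ring]
    rfl

theorem col_join {n : ℕ} (h : Cn base n) (x : ℤ) (k : ℕ) : ∀ y : ℤ,
    (∀ z, y ≤ z → z ≤ y + k → gdL base n (x, z)) → Jn base n (x, y) (x, y + k) := by
  induction k with
  | zero =>
    intro y hy
    rw [Nat.cast_zero, add_zero]
    exact (h.1 _ (hy y le_rfl (by simp))).2
  | succ k ih =>
    intro y hy
    have h1 := ih y fun z hz hz' => hy z hz (by push_cast; omega)
    have h2 := hy (y + k) (by omega) (by push_cast; omega)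
    have h3 := hy (y + (k + 1 : ℕ)) (by omega) le_rfl
    refine Jn_trans h1 (h.2 _ _ h2 h3 (Or.inl ⟨rfl, ?_⟩)) (h.1 _ h2).1
    show |(y + k) - (y + ((k + 1 : ℕ) : ℤ))| = 1
    push_cast
    rw [show (y + (k : ℤ)) - (y + ((k : ℤ) + 1)) = -1 by ring]
    rfl

theorem gRow.join {n : ℕ} (h : Cn base n) {a : ℤ × ℤ} {y : ℤ} (hr : gRow base n a y)
    {x x' : ℤ} (hx : 5 * a.1 ≤ x ∧ x < 5 * a.1 + 5) (hx' : 5 * a.1 ≤ x' ∧ x' < 5 * a.1 + 5) :
    Jn base n (x, y) (x', y) := by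
  have key : ∀ x x' : ℤ, 5 * a.1 ≤ x → x ≤ x' → x' < 5 * a.1 + 5 →
      Jn base n (x, y) (x', y) := by
    intro x x' h1 h2 h3
    have h4 := row_join h y (x' - x).toNat x fun z hz hz' => hr.2.2 z (by omega) (by omega)
    have h5 : x + ((x' - x).toNat : ℤ) = x' := by omega
    rw [h5] at h4
    exact h4
  rcases le_total x x' with h1 | h1
  · exact key x x' hx.1 h1 hx'.2
  · exact Jn_symm (key x' x hx'.1 h1 hx.2)

theorem gCol.join {n : ℕ} (h : Cn base n) {a : ℤ × ℤ} {x : ℤ} (hr : gCol base n a x)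
    {y y' : ℤ} (hy : 5 * a.2 ≤ y ∧ y < 5 * a.2 + 5) (hy' : 5 * a.2 ≤ y' ∧ y' < 5 * a.2 + 5) :
    Jn base n (x, y) (x, y') := by
  have key : ∀ y y' : ℤ, 5 * a.2 ≤ y → y ≤ y' → y' < 5 * a.2 + 5 →
      Jn base n (x, y) (x, y') := by
    intro y y' h1 h2 h3
    have h4 := col_join h x (y' - y).toNat y fun z hz hz' => hr.2.2 z (by omega) (by omega)
    have h5 : y + ((y' - y).toNat : ℤ) = y' := by omega
    rw [h5] at h4
    exact h4
  rcases le_total y y' with h1 | h1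
  · exact key y y' hy.1 h1 hy'.2
  · exact Jn_symm (key y' y hy'.1 h1 hy.2)

/-- Everything is joined to the intersection of a good row and a good column. -/
theorem hub {n : ℕ} (h : Cn base n) {a : ℤ × ℤ} {x₀ y₀ : ℤ} (hc : gCol base n a x₀)
    (hr : gRow base n a y₀) {b : ℤ × ℤ} (hb : sub5 a b)
    (hb' : gRow base n a b.2 ∨ gCol base n a b.1) : Jn base n b (x₀, y₀) := by
  obtain ⟨b1, b2, b3, b4⟩ := hb
  rcases hb' with h1 | h1
  · have h2 : Jn base n b (x₀, b.2) := h1.join h ⟨b1, b2⟩ ⟨hc.1, hc.2.1⟩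
    have h3 : Jn base n (x₀, b.2) (x₀, y₀) := hc.join h ⟨b3, b4⟩ ⟨hr.1, hr.2.1⟩
    exact Jn_trans h2 h3 (h.1 _ (hc.2.2 _ b3 b4)).1
  · have h2 : Jn base n b (b.1, y₀) := h1.join h ⟨b3, b4⟩ ⟨hr.1, hr.2.1⟩
    have h3 : Jn base n (b.1, y₀) (x₀, y₀) := hr.join h ⟨b1, b2⟩ ⟨hc.1, hc.2.1⟩
    exact Jn_trans h2 h3 (h.1 _ (hr.2.2 _ b1 b2)).1

theorem step_h {n : ℕ} (h : Cn base n) {a : ℤ × ℤ} (ha : gdL base (n + 1) a)
    (hb : gdL base (n + 1) (a.1 + 1, a.2)) : Jn base (n + 1) a (a.1 + 1, a.2) := by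
  obtain ⟨x, hx⟩ := exists_col ha
  obtain ⟨x', hx'⟩ := exists_col hb
  obtain ⟨y, hy, h1, h2⟩ := pigeon (c := 5 * a.2) (A := gRow base n a)
    (B := gRow base n (a.1 + 1, a.2)) (fun y y' hy hy' => row_near ha hy hy')
    (fun y y' hy hy' => row_near hb hy hy')
  rintro u ⟨b, hb1, hb2, hu⟩ v ⟨b', hb1', hb2', hv⟩
  have j1 : Jn base n b (x, y) := hub h hx h1 hb1 hb2
  have j2 : Jn base n (x, y) (5 * a.1 + 4, y) := h1.join h ⟨hx.1, hx.2.1⟩ ⟨by omega, by omega⟩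
  have g1 : gdL base n (x, y) := h1.2.2 _ hx.1 hx.2.1
  have g2 : gdL base n (5 * a.1 + 4, y) := h1.2.2 _ (by omega) (by omega)
  have g3 : gdL base n (5 * a.1 + 5, y) := h2.2.2 _ (by show 5 * (a.1 + 1) ≤ _; omega)
    (by show _ < 5 * (a.1 + 1) + 5; omega)
  have j3 : Jn base n (5 * a.1 + 4, y) (5 * a.1 + 5, y) := h.2 _ _ g2 g3 (Or.inr ⟨rfl, by
    show |(5 * a.1 + 4) - (5 * a.1 + 5)| = 1
    rw [show (5 * a.1 + 4) - (5 * a.1 + 5) = -1 by ring]
    rfl⟩)
  have j4 : Jn base n (5 * a.1 + 5, y) (x', y) := h2.join h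
    ⟨by show 5 * (a.1 + 1) ≤ _; omega, by show _ < 5 * (a.1 + 1) + 5; omega⟩ ⟨hx'.1, hx'.2.1⟩
  have g4 : gdL base n (x', y) := h2.2.2 _ hx'.1 hx'.2.1
  have j5 : Jn base n (x', y) b' := Jn_symm (hub h hx' h2 hb1' hb2')
  exact (Jn_trans (Jn_trans (Jn_trans (Jn_trans j1 j2 (h.1 _ g1).1) j3 (h.1 _ g2).1) j4
    (h.1 _ g3).1) j5 (h.1 _ g4).1) u hu v hv

theorem step_v {n : ℕ} (h : Cn base n) {a : ℤ × ℤ} (ha : gdL base (n + 1) a)
    (hb : gdL base (n + 1) (a.1, a.2 + 1)) : Jn base (n + 1) a (a.1, a.2 + 1) := by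
  obtain ⟨x, hx⟩ := exists_row ha
  obtain ⟨x', hx'⟩ := exists_row hb
  obtain ⟨y, hy, h1, h2⟩ := pigeon (c := 5 * a.1) (A := gCol base n a)
    (B := gCol base n (a.1, a.2 + 1)) (fun y y' hy hy' => col_near ha hy hy')
    (fun y y' hy hy' => col_near hb hy hy')
  rintro u ⟨b, hb1, hb2, hu⟩ v ⟨b', hb1', hb2', hv⟩
  have j1 : Jn base n b (y, x) := hub h h1 hx hb1 hb2
  have j2 : Jn base n (y, x) (y, 5 * a.2 + 4) := h1.join h ⟨hx.1, hx.2.1⟩ ⟨by omega, by omega⟩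
  have g1 : gdL base n (y, x) := h1.2.2 _ hx.1 hx.2.1
  have g2 : gdL base n (y, 5 * a.2 + 4) := h1.2.2 _ (by omega) (by omega)
  have g3 : gdL base n (y, 5 * a.2 + 5) := h2.2.2 _ (by show 5 * (a.2 + 1) ≤ _; omega)
    (by show _ < 5 * (a.2 + 1) + 5; omega)
  have j3 : Jn base n (y, 5 * a.2 + 4) (y, 5 * a.2 + 5) := h.2 _ _ g2 g3 (Or.inl ⟨rfl, by
    show |(5 * a.2 + 4) - (5 * a.2 + 5)| = 1
    rw [show (5 * a.2 + 4) - (5 * a.2 + 5) = -1 by ring]
    rfl⟩)
  have j4 : Jn base n (y, 5 * a.2 + 5) (y, x') := h2.join h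
    ⟨by show 5 * (a.2 + 1) ≤ _; omega, by show _ < 5 * (a.2 + 1) + 5; omega⟩ ⟨hx'.1, hx'.2.1⟩
  have g4 : gdL base n (y, x') := h2.2.2 _ hx'.1 hx'.2.1
  have j5 : Jn base n (y, x') b' := Jn_symm (hub h h2 hx' hb1' hb2')
  exact (Jn_trans (Jn_trans (Jn_trans (Jn_trans j1 j2 (h.1 _ g1).1) j3 (h.1 _ g2).1) j4
    (h.1 _ g3).1) j5 (h.1 _ g4).1) u hu v hv

theorem Cn_all (n : ℕ) : Cn base n := by
  induction n with
  | zero =>
    refine ⟨fun a _ => ⟨⟨a, rfl⟩, ?_⟩, ?_⟩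
    · rintro u rfl v rfl
      exact Relation.ReflTransGen.refl
    · rintro a b ha hb hab u rfl v rfl
      exact Relation.ReflTransGen.single ⟨ha, hb, hab⟩
  | succ n ih =>
    refine ⟨fun a ha => ?_, ?_⟩
    · obtain ⟨x, hx⟩ := exists_col ha
      obtain ⟨y, hy⟩ := exists_row ha
      have g : gdL base n (x, y) := hy.2.2 _ hx.1 hx.2.1
      obtain ⟨w, hw⟩ := (ih.1 _ g).1
      refine ⟨⟨w, (x, y), ⟨hx.1, hx.2.1, hy.1, hy.2.1⟩, Or.inl hy, hw⟩, ?_⟩
      rintro u ⟨b, hb1, hb2, hu⟩ v ⟨b', hb1', hb2', hv⟩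
      exact (Jn_trans (hub ih hx hy hb1 hb2) (Jn_symm (hub ih hx hy hb1' hb2')) ⟨w, hw⟩) u hu v hv
    · rintro ⟨a1, a2⟩ ⟨b1, b2⟩ ha hb hab
      rcases hab with ⟨h1, h2⟩ | ⟨h1, h2⟩
      · simp only at h1 h2
        subst h1
        rcases abs_eq (by norm_num : (0 : ℤ) ≤ 1) |>.mp h2 with h3 | h3
        · obtain rfl : a2 = b2 + 1 := by omega
          exact Jn_symm (step_v ih (a := (a1, b2)) hb ha)
        · obtain rfl : b2 = a2 + 1 := by omega
          exact step_v ih (a := (a1, a2)) ha hb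
      · simp only at h1 h2
        subst h1
        rcases abs_eq (by norm_num : (0 : ℤ) ≤ 1) |>.mp h2 with h3 | h3
        · obtain rfl : a1 = b1 + 1 := by omega
          exact Jn_symm (step_h ih (a := (b1, a2)) hb ha)
        · obtain rfl : b1 = a1 + 1 := by omega
          exact step_h ih (a := (a1, a2)) ha hb

theorem core_le (n : ℕ) : ∀ (b u : ℤ × ℤ), u ∈ core base n b → 5 ^ n * b.2 ≤ u.2 := by
  induction n with
  | zero =>
    rintro b u rfl
    simp
  | succ n ih =>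
    rintro b u ⟨b', h1, _, h2⟩
    have h3 := ih b' u h2
    have h4 : (5 : ℤ) ^ n * (5 * b.2) ≤ 5 ^ n * b'.2 :=
      mul_le_mul_of_nonneg_left h1.2.2.1 (by positivity)
    calc (5 : ℤ) ^ (n + 1) * b.2 = 5 ^ n * (5 * b.2) := by ring
      _ ≤ 5 ^ n * b'.2 := h4
      _ ≤ u.2 := h3

theorem perc_det {base : ℤ × ℤ → Prop}
    (h : ∀ n, gdL base n (0, 0) ∧ gdL base n (1, 0) ∧ gdL base n (2, 0)) :
    ∃ x, {y | gconn base x y}.Infinite := by
  -- a good column
  have hcol : ∀ n, ∃ x, gCol base n (0, 0) x ∧ Jn base n (0, 0) (x, 0) := by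
    intro n
    have g := h (n + 1)
    have hC := Cn_all (base := base) n
    have j01 : Jn base n (0, 0) (1, 0) := hC.2 _ _ (h n).1 (h n).2.1 (Or.inr ⟨rfl, by decide⟩)
    have j12 : Jn base n (1, 0) (2, 0) := hC.2 _ _ (h n).2.1 (h n).2.2 (Or.inr ⟨rfl, by decide⟩)
    by_cases h0 : gCol base n (0, 0) 0
    · exact ⟨0, h0, (hC.1 _ (h n).1).2⟩
    · by_cases h2 : gCol base n (0, 0) 2
      · exact ⟨2, h2, Jn_trans j01 j12 (hC.1 _ (h n).2.1).1⟩
      · have := abs_le.mp (col_near g.1 (x := 0) (x' := 2) (by simp) (by simp) h0 h2)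
        omega
  have hsub : ∀ n, ∀ u ∈ core base n (0, 0), gconn base (0, 0) u := by
    intro n
    induction n with
    | zero =>
      rintro u rfl
      exact Relation.ReflTransGen.refl
    | succ n ih =>
      intro u hu
      obtain ⟨x, hx, hj⟩ := hcol n
      have hC := Cn_all (base := base) n
      have hC' := Cn_all (base := base) (n + 1)
      have g : gdL base n (x, 0) := hx.2.2 0 (by simp) (by simp)
      obtain ⟨v, hv⟩ := (hC.1 _ g).1
      obtain ⟨w, hw⟩ := (hC.1 _ (h n).1).1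
      have hv' : v ∈ core base (n + 1) (0, 0) :=
        ⟨(x, 0), ⟨hx.1, hx.2.1, by simp, by simp⟩, Or.inr hx, hv⟩
      exact gconn_trans (ih w hw) (gconn_trans (hj w hw v hv)
        ((hC'.1 _ (h (n + 1)).1).2 v hv' u hu))
  refine ⟨(0, 0), fun hfin => ?_⟩
  obtain ⟨M, hM⟩ := (hfin.image Prod.snd).bddAbove
  obtain ⟨n, hn⟩ : ∃ n : ℕ, M < 5 ^ n * 4 := by
    refine ⟨M.toNat, ?_⟩
    have h1 : (M.toNat : ℤ) < 5 ^ M.toNat := by
      exact_mod_cast Nat.lt_pow_self (by norm_num : 1 < 5)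
    have h2 : M ≤ M.toNat := Int.self_le_toNat M
    have h3 : (0 : ℤ) < 5 ^ M.toNat := by positivity
    omega
  obtain ⟨x, hx, _⟩ := hcol n
  have g : gdL base n (x, 4) := hx.2.2 4 (by simp) (by simp)
  obtain ⟨v, hv⟩ := ((Cn_all (base := base) n).1 _ g).1
  have hv' : v ∈ core base (n + 1) (0, 0) :=
    ⟨(x, 4), ⟨hx.1, hx.2.1, by simp, by simp⟩, Or.inr hx, hv⟩
  have h1 := hM ⟨v, hsub (n + 1) v hv', rfl⟩
  have h2 := core_le n (x, 4) v hv
  simp only at h2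
  omega

end WSP
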