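import Pool.Agent.Lib_MP_c175fd.Perc

/-!
# Piece TOPOI
-/

open MeasureTheory ProbabilityTheory Filter Topology
open scoped ENNReal NNReal

namespace WSP

variable {d : ℕ}

theorem topoi_mem {r : ℝ} (hr : 0 < r) (t : ℝ≥0) (y : Mark d) : y.1 ∈ sausage r t y := by
  refine ⟨0, zero_le, ?_⟩
  rw [y.2.2.2, add_zero, dist_self]
  exact hr

/-- each sausage is path-connected -/
theorem topoi_pathConnected {r : ℝ} (hr : 0 < r) (t : ℝ≥0) (y : Mark d) :
    IsPathConnected (sausage r t y) := by
  refine ⟨y.1, topoi_mem hr t y, ?_⟩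
  rintro x ⟨s, hs, hx⟩
  -- along the path
  have h1 : JoinedIn (sausage r t y) y.1 (y.1 + y.2 s) := by
    refine JoinedIn.ofLine (f := fun u : ℝ => y.1 + y.2 (u.toNNReal * s)) ?_ ?_ ?_ ?_
    · exact (continuous_const.add (y.2.2.1.comp
        (continuous_real_toNNReal.mul continuous_const))).continuousOn
    · show y.1 + y.2 (Real.toNNReal 0 * s) = y.1
      rw [Real.toNNReal_zero, zero_mul, y.2.2.2, add_zero]
    · show y.1 + y.2 (Real.toNNReal 1 * s) = y.1 + y.2 s
      rw [Real.toNNReal_one, one_mul]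
    · rintro z ⟨u, hu, rfl⟩
      refine ⟨u.toNNReal * s, ?_, ?_⟩
      · have h2 : u.toNNReal ≤ 1 := by
          rw [← Real.toNNReal_one]
          exact Real.toNNReal_le_toNNReal hu.2
        calc u.toNNReal * s ≤ 1 * s := mul_le_mul_left h2 s
          _ = s := one_mul s
          _ ≤ t := hs
      · show dist (y.1 + y.2 (u.toNNReal * s)) (y.1 + y.2 (u.toNNReal * s)) < r
        rw [dist_self]
        exact hr
  -- inside the ball
  have h2 : JoinedIn (sausage r t y) (y.1 + y.2 s) x := by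
    have h3 : IsPathConnected (Metric.ball (y.1 + y.2 s) r) :=
      (convex_ball (y.1 + y.2 s) r).isPathConnected ⟨_, Metric.mem_ball_self hr⟩
    refine (h3.joinedIn _ (Metric.mem_ball_self hr) x hx).mono ?_
    intro z hz
    exact ⟨s, hs, hz⟩
  exact h1.trans h2

/-- Piece TOPOI: a cluster containing starting points of arbitrarily large norm gives an unbounded
path-connected component (each sausage is path-connected and contains its starting point). -/
theorem percolates_of_unbounded {ι : Type*} {J : Set ι} {y : ι → Mark d} {r : ℝ} (hr : 0 < r)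
    {t : ℝ≥0} {i : ι} (hi : i ∈ J)
    (h : ∀ b : ℝ, ∃ j, Relation.ReflTransGen (adjI J y r t) i j ∧ b < ‖(y j).1‖) :
    Percolates (⋃ i ∈ J, sausage r t (y i)) := by
  have hsub : ∀ j ∈ J, sausage r t (y j) ⊆ ⋃ i ∈ J, sausage r t (y i) :=
    fun j hj z hz => Set.mem_iUnion₂.2 ⟨j, hj, hz⟩
  refine ⟨(y i).1, hsub i hi (topoi_mem hr t (y i)), ?_⟩
  intro hb
  obtain ⟨R, hR⟩ := hb.exists_norm_le
  obtain ⟨j, hj, hjR⟩ := h R
  have key : ∀ k, Relation.ReflTransGen (adjI J y r t) i k →
      k ∈ J ∧ sausage r t (y k) ⊆ pathComponentIn (⋃ i ∈ J, sausage r t (y i)) (y i).1 := by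
    intro k hk
    induction hk with
    | refl =>
      exact ⟨hi, (topoi_pathConnected hr t (y i)).subset_pathComponentIn (topoi_mem hr t (y i))
        (hsub i hi)⟩
    | @tail b c _ hadj ih =>
      refine ⟨hadj.2.1, ?_⟩
      obtain ⟨z, hz1, hz2⟩ := (inter_sausage_iff hr t (y b) (y c)).2 hadj.2.2
      have h1 : z ∈ pathComponentIn (⋃ i ∈ J, sausage r t (y i)) (y i).1 := ih.2 hz1
      have h2 := (topoi_pathConnected hr t (y c)).subset_pathComponentIn hz2 (hsub c hadj.2.1)
      rw [pathComponentIn_congr h1] at h2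
      exact h2
  have h3 := hR _ ((key j hj).2 (topoi_mem hr t (y j)))
  exact absurd h3 (not_le.2 hjR)

end WSP
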