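import Pool.Agent.Lib_MP_c175fd.Giant
import Pool.Agent.Lib_MP_c175fd.PercDet
import Pool.Agent.Lib_MP_c175fd.PercInf
import Pool.Agent.Lib_MP_c175fd.DataM

/-!
# Pieces BLOCKMEAS and PERCAPPLY

`cor d R α`: corner of the block with index `α ∈ ℤ ^ 2`.

PERCAPPLY: fix `ω` such that all starting points lie in their cubes. Say that `b` captures the block `u` if
`{b' ∈ bg u | b, b' not connected in the set of all present points at time t}` has less than `δ R ^ d`
elements. If `ω ∈ goodPair u v` then `exists_giant` (with `m = δ R ^ d`, `B = bg u ∪ bg v`, which has at least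
`8 m` elements; connection in `M.J (win ..) ω` implies connection in `M.presSet ω`, `ReflTransGen.mono`)
gives `b ∈ B` capturing `u` and `v`. Two points capturing the same block are connected (`bg u` has at least
`8 m` elements). Let `x ~ u ~ ...` be the infinite cluster of good sites; as it is infinite, `x` has a
neighbour `u` in it, and some `b₀` captures `x` and `u`; by induction along `gconn`, `b₀` captures every site
of the cluster (the pair event of two adjacent good sites is one of the two events of the lower/left one).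
If `b₀` captures `z`, some `b' ∈ bg z` is connected to `b₀`, its cube is in `win (cor d R z) R 0`, so the
coordinates `0`, `1` of its starting point are at distance at most `R + 1` from `R z.1`, `R z.2`. Since the
cluster is infinite these are unbounded, and `percolates_of_unbounded` applies (`b₀` is present).
-/

open MeasureTheory ProbabilityTheory Filter Topology
open scoped ENNReal NNReal

namespace WSP

variable {d : ℕ}

/-- Corner of the block with index `α`. -/
def cor (d R : ℕ) (α : ℤ × ℤ) : Fin d → ℤ :=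
  fun i => if (i : ℕ) = 0 then R * α.1 else if (i : ℕ) = 1 then R * α.2 else 0

theorem cor_near (d R : ℕ) (α : ℤ × ℤ) :
    (∀ i, |cor d R (α + (1, 0)) i - cor d R α i| ≤ R) ∧
    (∀ i, |cor d R (α + (0, 1)) i - cor d R α i| ≤ R) := by
  have h0 : (0 : ℤ) ≤ (R : ℤ) := Int.natCast_nonneg R
  constructor
  · intro i
    unfold cor
    split_ifs
    · show |(R : ℤ) * (α.1 + 1) - R * α.1| ≤ R
      rw [show (R : ℤ) * (α.1 + 1) - R * α.1 = R by ring, abs_of_nonneg h0]
    · show |(R : ℤ) * (α.2 + 0) - R * α.2| ≤ R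
      rw [show (R : ℤ) * (α.2 + 0) - R * α.2 = 0 by ring, abs_zero]
      exact h0
    · rw [sub_self, abs_zero]
      exact h0
  · intro i
    unfold cor
    split_ifs
    · show |(R : ℤ) * (α.1 + 0) - R * α.1| ≤ R
      rw [show (R : ℤ) * (α.1 + 0) - R * α.1 = 0 by ring, abs_zero]
      exact h0
    · show |(R : ℤ) * (α.2 + 1) - R * α.2| ≤ R
      rw [show (R : ℤ) * (α.2 + 1) - R * α.2 = R by ring, abs_of_nonneg h0]
    · rw [sub_self, abs_zero]
      exact h0

/-- Both pair events of the site `α`. -/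
def PM.siteGood {Ω : Type*} [MeasurableSpace Ω] {P : Measure Ω} {μ : Measure (Path d)}
    (M : PM d P μ) (r : ℝ) (t₁ t : ℝ≥0) (A R L L' : ℕ) (ρ δ : ℝ) (α : ℤ × ℤ) : Set Ω :=
  M.goodPair r t₁ t A R L L' ρ δ (cor d R α) (cor d R (α + (1, 0))) ∩
    M.goodPair r t₁ t A R L L' ρ δ (cor d R α) (cor d R (α + (0, 1)))

variable {Ω : Type*} [MeasurableSpace Ω] {P : Measure Ω} {μ : Measure (Path d)}

/-- Connection in the set of all present points. -/
def percapplyRel (M : PM d P μ) (ω : Ω) (r : ℝ) (t : ℝ≥0) (a b : Idx d) : Prop :=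
  Relation.ReflTransGen (adjI (M.presSet ω) (fun i => M.y i ω) r t) a b

open Classical in
/-- `b` captures the block with corner `k`. -/
def percapplyCap (M : PM d P μ) (ω : Ω) (r : ℝ) (t₁ t : ℝ≥0) (A R L : ℕ) (m : ℝ)
    (b : Idx d) (k : Fin d → ℤ) : Prop :=
  (((M.bg r t₁ A R L k ω).filter fun b' => ¬ percapplyRel M ω r t b b').card : ℝ) < m

theorem percapplyRel_symm {M : PM d P μ} {ω : Ω} {r : ℝ} {t : ℝ≥0} {a b : Idx d}
    (h : percapplyRel M ω r t a b) : percapplyRel M ω r t b a := by
  unfold percapplyRel at h ⊢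
  induction h with
  | refl => exact Relation.ReflTransGen.refl
  | tail _ h ih => exact Relation.ReflTransGen.head (adjI_symm h) ih

theorem percapply_mem_bg {M : PM d P μ} {ω : Ω} {r : ℝ} {t : ℝ≥0} {A R L : ℕ}
    {k : Fin d → ℤ} {b : Idx d} (h : b ∈ M.bg r t A R L k ω) :
    b ∈ M.presSet ω ∧ b.1 ∈ win k R 0 := by
  classical
  unfold PM.bg bigs at h
  have h1 := Finset.mem_filter.1 h
  exact ⟨(PM.mem_J.1 h1.1).2, h1.2.1⟩

/-- The property `Split` does not depend on the decidability instance. -/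
theorem percapply_split_inst {ι : Type*} (i₁ i₂ : DecidableEq ι) {J B : Finset ι}
    {y : ι → Mark d} {r : ℝ} {t : ℝ≥0} {m : ℝ} (h : @Split d ι i₁ J B y r t m) :
    @Split d ι i₂ J B y r t m := by
  have e : i₁ = i₂ := Subsingleton.elim _ _
  subst e
  exact h

/-- A good pair has a present point which captures both blocks. -/
theorem percapply_pair (M : PM d P μ) {ω : Ω} {r : ℝ} {t₁ t : ℝ≥0} {A R L L' : ℕ}
    (hR : 0 < R) {ρ δ : ℝ} (hδ : 0 < δ) (hρ : 8 * δ ≤ ρ) {k k' : Fin d → ℤ}
    (h : ω ∈ M.goodPair r t₁ t A R L L' ρ δ k k') :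
    ∃ b ∈ M.presSet ω, percapplyCap M ω r t₁ t A R L (δ * (R : ℝ) ^ d) b k ∧
      percapplyCap M ω r t₁ t A R L (δ * (R : ℝ) ^ d) b k' := by
  classical
  obtain ⟨h1, h2, h3⟩ := h
  have hRd : (0 : ℝ) < (R : ℝ) ^ d := by
    have : (0 : ℝ) < (R : ℝ) := by exact_mod_cast hR
    positivity
  have hm : 0 < δ * (R : ℝ) ^ d := by positivity
  have h8 : 8 * (δ * (R : ℝ) ^ d) ≤ ρ * (R : ℝ) ^ d := by
    rw [← mul_assoc]
    exact mul_le_mul_of_nonneg_right hρ hRd.le
  have hc : ((M.bg r t₁ A R L k ω).card : ℝ) ≤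
      ((M.bg r t₁ A R L k ω ∪ M.bg r t₁ A R L k' ω).card : ℝ) := by
    exact_mod_cast Finset.card_le_card Finset.subset_union_left
  have h3m : 3 * (δ * (R : ℝ) ^ d) ≤
      ((M.bg r t₁ A R L k ω ∪ M.bg r t₁ A R L k' ω).card : ℝ) := by linarith
  have hg := exists_giant (J := M.J (win k R L') ω)
    (B := M.bg r t₁ A R L k ω ∪ M.bg r t₁ A R L k' ω) (y := fun i => M.y i ω)
    (r := r) (t := t) hm h3m
  obtain ⟨b, hb, hcard⟩ := hg (by
    intro hs
    apply h3
    exact percapply_split_inst _ _ hs)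
  have hbp : b ∈ M.presSet ω := by
    rcases Finset.mem_union.1 hb with hb | hb
    · exact (percapply_mem_bg hb).1
    · exact (percapply_mem_bg hb).1
  have hmono : ∀ b', Relation.ReflTransGen
      (adjI (M.J (win k R L') ω : Set (Idx d)) (fun i => M.y i ω) r t) b b' →
      percapplyRel M ω r t b b' := by
    intro b' hb'
    refine Relation.ReflTransGen.mono ?_ _ _ hb'
    rintro a c ⟨e1, e2, e3⟩
    exact ⟨(PM.mem_J.1 (Finset.mem_coe.1 e1)).2, (PM.mem_J.1 (Finset.mem_coe.1 e2)).2, e3⟩
  have hsub : ∀ T : Finset (Idx d), T ⊆ M.bg r t₁ A R L k ω ∪ M.bg r t₁ A R L k' ω →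
      ((T.filter fun b' => ¬ percapplyRel M ω r t b b').card : ℝ) < δ * (R : ℝ) ^ d := by
    intro T hT
    refine lt_of_le_of_lt ?_ hcard
    have : (T.filter fun b' => ¬ percapplyRel M ω r t b b').card ≤
        ((M.bg r t₁ A R L k ω ∪ M.bg r t₁ A R L k' ω).filter fun b' =>
          ¬ Relation.ReflTransGen (adjI (M.J (win k R L') ω : Set (Idx d))
            (fun i => M.y i ω) r t) b b').card := by
      refine Finset.card_le_card ?_
      intro c hc
      rw [Finset.mem_filter] at hc ⊢
      exact ⟨hT hc.1, fun h => hc.2 (hmono c h)⟩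
    exact_mod_cast this
  exact ⟨b, hbp, hsub _ Finset.subset_union_left, hsub _ Finset.subset_union_right⟩

/-- A point which captures a large block is connected to some big point of it; two points which
capture the same large block are connected. -/
theorem percapply_join (M : PM d P μ) {ω : Ω} {r : ℝ} {t₁ t : ℝ≥0} {A R L : ℕ} {m : ℝ}
    {k : Fin d → ℤ} (hk : 2 * m ≤ ((M.bg r t₁ A R L k ω).card : ℝ)) {b b' : Idx d}
    (hb : percapplyCap M ω r t₁ t A R L m b k) (hb' : percapplyCap M ω r t₁ t A R L m b' k) :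
    ∃ c ∈ M.bg r t₁ A R L k ω, percapplyRel M ω r t b c ∧ percapplyRel M ω r t b' c := by
  classical
  by_contra hcon
  push Not at hcon
  have hsub : M.bg r t₁ A R L k ω ⊆
      ((M.bg r t₁ A R L k ω).filter fun c => ¬ percapplyRel M ω r t b c) ∪
      ((M.bg r t₁ A R L k ω).filter fun c => ¬ percapplyRel M ω r t b' c) := by
    intro c hc
    rw [Finset.mem_union, Finset.mem_filter, Finset.mem_filter]
    by_cases h : percapplyRel M ω r t b c
    · exact Or.inr ⟨hc, hcon c hc h⟩
    · exact Or.inl ⟨hc, h⟩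
  have h1 := (Finset.card_le_card hsub).trans (Finset.card_union_le _ _)
  have h2 : ((M.bg r t₁ A R L k ω).card : ℝ) ≤
      (((M.bg r t₁ A R L k ω).filter fun c => ¬ percapplyRel M ω r t b c).card : ℝ) +
      (((M.bg r t₁ A R L k ω).filter fun c => ¬ percapplyRel M ω r t b' c).card : ℝ) := by
    exact_mod_cast h1
  have h3 : (((M.bg r t₁ A R L k ω).filter fun c => ¬ percapplyRel M ω r t b c).card : ℝ) < m := by
    have := hb
    unfold percapplyCap at this
    convert this using 3
  have h4 : (((M.bg r t₁ A R L k ω).filter fun c => ¬ percapplyRel M ω r t b' c).card : ℝ) < m := by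
    have := hb'
    unfold percapplyCap at this
    convert this using 3
  linarith

/-- Piece PERCAPPLY. -/
theorem percolates_of_cluster (hd : 4 ≤ d) (M : PM d P μ) {ω : Ω}
    (hω : ∀ i, (M.y i ω).1 ∈ cube i.1) {r : ℝ} (hr : 0 < r) {t₁ t : ℝ≥0} {A R L L' : ℕ}
    (hR : 0 < R) {ρ δ : ℝ} (hδ : 0 < δ) (hρ : 8 * δ ≤ ρ) {x : ℤ × ℤ}
    (hx : {z | gconn (fun α => ω ∈ M.siteGood r t₁ t A R L L' ρ δ α) x z}.Infinite) :
    Percolates (M.occ r t ω) := by
  classical
  have hRr : (1 : ℝ) ≤ (R : ℝ) := by exact_mod_cast hR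
  have hRd : (0 : ℝ) < (R : ℝ) ^ d := by positivity
  set m : ℝ := δ * (R : ℝ) ^ d with hmdef
  have hm : 0 < m := by positivity
  have h8 : 8 * m ≤ ρ * (R : ℝ) ^ d := by
    rw [hmdef, ← mul_assoc]
    exact mul_le_mul_of_nonneg_right hρ hRd.le
  set base : ℤ × ℤ → Prop := fun α => ω ∈ M.siteGood r t₁ t A R L L' ρ δ α with hbase
  have hbig : ∀ z, base z → 2 * m ≤ ((M.bg r t₁ A R L (cor d R z) ω).card : ℝ) := by
    intro z hz
    have := hz.1.1
    linarith
  -- a step of the cluster
  have hstep : ∀ u v, base u → base v → nn u v → ∃ b ∈ M.presSet ω,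
      percapplyCap M ω r t₁ t A R L m b (cor d R u) ∧
      percapplyCap M ω r t₁ t A R L m b (cor d R v) := by
    intro u v hu hv huv
    have key : ∀ u v : ℤ × ℤ, base u → (v = u + (1, 0) ∨ v = u + (0, 1)) →
        ∃ b ∈ M.presSet ω, percapplyCap M ω r t₁ t A R L m b (cor d R u) ∧
        percapplyCap M ω r t₁ t A R L m b (cor d R v) := by
      rintro u v hu (rfl | rfl)
      · exact percapply_pair M hR hδ hρ hu.1
      · exact percapply_pair M hR hδ hρ hu.2
    have hcase : (v = u + (1, 0) ∨ v = u + (0, 1)) ∨ (u = v + (1, 0) ∨ u = v + (0, 1)) := by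
      rcases huv with ⟨h1, h2⟩ | ⟨h1, h2⟩
      · rcases (abs_eq (by norm_num : (0 : ℤ) ≤ 1)).1 h2 with h | h
        · right; right
          refine Prod.ext ?_ ?_
          · show u.1 = v.1 + 0
            omega
          · show u.2 = v.2 + 1
            omega
        · left; right
          refine Prod.ext ?_ ?_
          · show v.1 = u.1 + 0
            omega
          · show v.2 = u.2 + 1
            omega
      · rcases (abs_eq (by norm_num : (0 : ℤ) ≤ 1)).1 h2 with h | h
        · right; left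
          refine Prod.ext ?_ ?_
          · show u.1 = v.1 + 1
            omega
          · show u.2 = v.2 + 0
            omega
        · left; left
          refine Prod.ext ?_ ?_
          · show v.1 = u.1 + 1
            omega
          · show v.2 = u.2 + 0
            omega
    rcases hcase with h | h
    · exact key u v hu h
    · obtain ⟨b, hb, h1, h2⟩ := key v u hv h
      exact ⟨b, hb, h2, h1⟩
  -- the first step
  obtain ⟨u, hxu⟩ : ∃ u, base x ∧ base u ∧ nn x u := by
    obtain ⟨z, hz, hzx⟩ := hx.exists_notMem_finite (Set.finite_singleton x)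
    have hz' : Relation.ReflTransGen (fun u v => base u ∧ base v ∧ nn u v) x z := hz
    rcases Relation.ReflTransGen.cases_head hz' with h | ⟨u, h, _⟩
    · exact absurd h.symm hzx
    · exact ⟨u, h⟩
  obtain ⟨b₀, hb₀, hcapx, -⟩ := hstep x u hxu.1 hxu.2.1 hxu.2.2
  -- `b₀` captures every site of the cluster
  have hall : ∀ z, gconn base x z → base z ∧ percapplyCap M ω r t₁ t A R L m b₀ (cor d R z) := by
    intro z hz
    unfold gconn at hz
    induction hz with
    | refl => exact ⟨hxu.1, hcapx⟩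
    | @tail v w _ h ih =>
      refine ⟨h.2.1, ?_⟩
      obtain ⟨b, hb, h1, h2⟩ := hstep v w h.1 h.2.1 h.2.2
      obtain ⟨c, _, hc1, hc2⟩ := percapply_join M (hbig v h.1) ih.2 h1
      have hrel : percapplyRel M ω r t b₀ b := hc1.trans (percapplyRel_symm hc2)
      unfold percapplyCap at h2 ⊢
      refine lt_of_le_of_lt ?_ h2
      have : ((M.bg r t₁ A R L (cor d R w) ω).filter fun b' =>
          ¬ percapplyRel M ω r t b₀ b').card ≤
          ((M.bg r t₁ A R L (cor d R w) ω).filter fun b' =>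
          ¬ percapplyRel M ω r t b b').card := by
        refine Finset.card_le_card ?_
        intro a ha
        rw [Finset.mem_filter] at ha ⊢
        exact ⟨ha.1, fun h => ha.2 (hrel.trans h)⟩
      exact_mod_cast this
  have i0 : Fin d := ⟨0, by omega⟩
  refine percolates_of_unbounded (J := M.presSet ω) (y := fun i => M.y i ω) hr hb₀ ?_
  intro b
  by_contra hcon
  push Not at hcon
  have hbd : ∀ j, percapplyRel M ω r t b₀ j → ∀ i : Fin d, |j.1 i| ≤ (⌈|b|⌉₊ : ℤ) + 1 := by
    intro j hj i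
    have h1 := hcon j hj
    have h2 : |(M.y j ω).1 i| ≤ b := by
      have h3 : ‖(M.y j ω).1 i‖ ≤ ‖(M.y j ω).1‖ := PiLp.norm_apply_le _ i
      rw [Real.norm_eq_abs] at h3
      exact h3.trans h1
    have h3 := abs_le.1 h2
    obtain ⟨h4, h5⟩ := hω j i
    have h6 : b ≤ (⌈|b|⌉₊ : ℝ) := (le_abs_self b).trans (Nat.le_ceil _)
    rw [abs_le]
    constructor
    · have h7 : (-((⌈|b|⌉₊ : ℤ) + 1) : ℝ) ≤ (j.1 i : ℝ) := by
        push_cast
        linarith [h3.1]
      exact_mod_cast h7
    · have h7 : (j.1 i : ℝ) ≤ ((⌈|b|⌉₊ : ℤ) + 1 : ℝ) := by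
        push_cast
        linarith [h3.2]
      exact_mod_cast h7
  set N : ℤ := (⌈|b|⌉₊ : ℤ) + 1 with hN
  have hN0 : 0 < N := by rw [hN]; positivity
  apply hx
  refine ((Set.finite_Icc (-N - 1) N).prod (Set.finite_Icc (-N - 1) N)).subset ?_
  intro z hz
  obtain ⟨hz1, hz2⟩ := hall z hz
  obtain ⟨c, hc, hc1, -⟩ := percapply_join M (hbig z hz1) hz2 hz2
  have hwin := mem_win.1 (percapply_mem_bg hc).2
  have hR' : (1 : ℤ) ≤ (R : ℤ) := by exact_mod_cast hR
  have key : ∀ a e : ℤ, (R : ℤ) * a - ((0 : ℕ) : ℤ) ≤ e → e < (R : ℤ) * a + R + ((0 : ℕ) : ℤ) →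
      |e| ≤ N → a ∈ Set.Icc (-N - 1) N := by
    intro a e h1 h2 h3
    have h4 := abs_le.1 h3
    push_cast at h1 h2
    constructor
    · by_contra hh
      have h5 : a + 1 < -N := by omega
      have h6 : (R : ℤ) * (a + 1) ≤ 1 * (a + 1) := by
        have : a + 1 ≤ 0 := by omega
        nlinarith
      nlinarith
    · by_contra hh
      have h5 : N < a := by omega
      have h6 : 1 * a ≤ (R : ℤ) * a := by
        have : 0 ≤ a := by omega
        nlinarith
      nlinarith
  refine Set.mem_prod.2 ⟨?_, ?_⟩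
  · have h1 := hwin ⟨0, by omega⟩
    have h2 : cor d R z ⟨0, by omega⟩ = R * z.1 := by
      unfold cor
      rw [if_pos rfl]
    rw [h2] at h1
    exact key z.1 _ h1.1 h1.2 (hbd c hc1 _)
  · have h1 := hwin ⟨1, by omega⟩
    have h2 : cor d R z ⟨1, by omega⟩ = R * z.2 := by
      unfold cor
      rw [if_neg (by norm_num), if_pos rfl]
    rw [h2] at h1
    exact key z.2 _ h1.1 h1.2 (hbd c hc1 _)

end WSP
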