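import Pool.Agent.Lib_MP_c175fd.WienerB
import Pool.Agent.Lib_MP_c175fd.RgMoment

/-!
# Piece LLN4: a law of large numbers over the dyadic scales of a Brownian path

`Ys ψ i w = ∫_1^4 ψ (‖w (4^i v)‖ / 2^i) dv`, `ψ` bounded by `K` and `Λ`-Lipschitz. By scaling all `Ys ψ i`
have the same mean `η`. Let `m = ⌈2 log_2 n⌉ + 1` and
`Z i w = ∫_1^4 ψ (‖w (4^i v) - w (4^(i-m))‖ / 2^i) dv` (real exponent; the time `4^(i-m)` is positive even
if `i < m`). Then `|Ys i - Z i| ≤ 3 Λ ‖w (4^(i-m))‖ / 2^i`. The event that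
`‖w (4^(i-m))‖ > n 2^(i-m)` for one of the `n` values of `i` has probability at most `n C_p n^(-p)`
(`rg_tail` or Gaussian moments), otherwise `|Ys i - Z i| ≤ 3 Λ n 2^(-m) ≤ 3 Λ / n`. Also
`E Z i ≥ η - 3 Λ C 2^(-m) ≥ η - C / n ^ 2`. `Z i` is a function of the increments over
`[4^(i-m), 4^(i+1)]`; for `i` in a residue class modulo `m + 1` these intervals do not overlap, so the
`Z i` of the class are independent (Markov property, `map_stop_shift`, and induction, or independent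
increments), with values in `[0, 3 K]`. Hoeffding's inequality
(`ProbabilityTheory.HasSubgaussianMGF.measure_sum_ge_le_of_iIndepFun`, `hasSubgaussianMGF_of_mem_Icc`, or a
direct Chernoff bound) gives for each class a failure probability at most
`exp (- c n / (m + 1))`; there are `m + 1` classes. In total at most `C n ^ (-8)`.
-/

open MeasureTheory ProbabilityTheory Filter Topology
open scoped ENNReal NNReal

namespace WSP

variable {d : ℕ}

/-- The functional of scale `i`. -/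
noncomputable def Ys (ψ : ℝ → ℝ) (i : ℕ) (w : Path d) : ℝ :=
  ∫ v in (1 : ℝ)..4, ψ (‖w ((4 : ℝ≥0) ^ i * v.toNNReal)‖ / 2 ^ i)

/-- The functional of scale `i` of the increments after time `4^i/4^m`. -/
noncomputable def LLN4_Z (ψ : ℝ → ℝ) (m i : ℕ) (w : Path d) : ℝ :=
  ∫ v in (1 : ℝ)..4, ψ (‖w ((4 : ℝ≥0) ^ i * v.toNNReal) - w ((4 : ℝ≥0) ^ i / 4 ^ m)‖ / 2 ^ i)

theorem LLN4_measurable_int {α : Type*} [MeasurableSpace α] {g : α → ℝ → ℝ}
    (hg : Measurable (Function.uncurry g)) : Measurable (fun a => ∫ v in (1 : ℝ)..4, g a v) := by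
  have h14 : (1 : ℝ) ≤ 4 := by norm_num
  simp_rw [intervalIntegral.integral_of_le h14]
  exact (hg.stronglyMeasurable.integral_prod_right (ν := volume.restrict (Set.Ioc (1 : ℝ) 4))).measurable

theorem LLN4_measurable_eval2 {c : ℝ≥0} :
    Measurable (fun p : Path d × ℝ => p.1 (c * p.2.toNNReal)) := by
  have h1 : Measurable (fun p : Path d × ℝ => (p.1, c * p.2.toNNReal)) := by
    fun_prop
  exact (measurable_eval_prod (d := d)).comp h1

theorem LLN4_measurable_Ys {ψ : ℝ → ℝ} (hψ : Continuous ψ) (i : ℕ) :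
    Measurable (Ys ψ i : Path d → ℝ) := by
  apply LLN4_measurable_int
  apply hψ.measurable.comp
  exact (LLN4_measurable_eval2.norm).div_const _

theorem LLN4_measurable_Z {ψ : ℝ → ℝ} (hψ : Continuous ψ) (m i : ℕ) :
    Measurable (LLN4_Z ψ m i : Path d → ℝ) := by
  apply LLN4_measurable_int
  apply hψ.measurable.comp
  refine Measurable.div_const ?_ _
  apply Measurable.norm
  exact LLN4_measurable_eval2.sub ((measurable_eval _).comp measurable_fst)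

theorem LLN4_sqrt_four (i : ℕ) : NNReal.sqrt ((4 : ℝ≥0) ^ i) = 2 ^ i := by
  rw [NNReal.sqrt_eq_iff_eq_sq]
  rw [← pow_mul, mul_comm, pow_mul]
  norm_num

theorem LLN4_Ys_scale (ψ : ℝ → ℝ) (i : ℕ) (w : Path d) :
    Ys ψ i w = Ys ψ 0 (scale ((4 : ℝ≥0) ^ i) w) := by
  unfold Ys
  congr 1
  ext v
  rw [scale_apply, norm_smul, LLN4_sqrt_four]
  congr 1
  simp
  rw [div_eq_inv_mul]

theorem LLN4_Z_scale (ψ : ℝ → ℝ) (m i : ℕ) (w : Path d) :
    LLN4_Z ψ m i w = LLN4_Z ψ m 0 (scale ((4 : ℝ≥0) ^ i) w) := by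
  unfold LLN4_Z
  congr 1
  ext v
  rw [scale_apply, scale_apply, ← smul_sub, norm_smul, LLN4_sqrt_four]
  congr 1
  simp
  rw [div_eq_inv_mul, div_eq_mul_inv]

theorem LLN4_int_scale {μ : Measure (Path d)} (h : IsWiener μ) {F : Path d → ℝ} (hF : Measurable F)
    {c : ℝ≥0} (hc : c ≠ 0) : ∫ w, F (scale c w) ∂μ = ∫ w, F w ∂μ := by
  have := integral_map (μ := μ) (φ := scale c) (measurable_scale c).aemeasurable
    (f := F) (hF.aestronglyMeasurable)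
  rw [h.map_scale hc] at this
  exact this.symm

theorem IsWiener.Ys_mean {μ : Measure (Path d)} (h : IsWiener μ) {ψ : ℝ → ℝ} (hψ : Continuous ψ)
    (i : ℕ) : ∫ w, Ys ψ i w ∂μ = ∫ w, Ys ψ 0 w ∂μ := by
  simp_rw [LLN4_Ys_scale ψ i]
  exact LLN4_int_scale h (LLN4_measurable_Ys hψ 0) (by positivity)

theorem LLN4_Z_mean {μ : Measure (Path d)} (h : IsWiener μ) {ψ : ℝ → ℝ} (hψ : Continuous ψ)
    (m i : ℕ) : ∫ w, LLN4_Z ψ m i w ∂μ = ∫ w, LLN4_Z ψ m 0 w ∂μ := by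
  simp_rw [LLN4_Z_scale ψ m i]
  exact LLN4_int_scale h (LLN4_measurable_Z hψ m 0) (by positivity)

theorem LLN4_cont_Ys {ψ : ℝ → ℝ} (hψ : Continuous ψ) (i : ℕ) (w : Path d) :
    Continuous (fun v : ℝ => ψ (‖w ((4 : ℝ≥0) ^ i * v.toNNReal)‖ / 2 ^ i)) := by
  have := w.cont
  fun_prop

theorem LLN4_cont_Z {ψ : ℝ → ℝ} (hψ : Continuous ψ) (m i : ℕ) (w : Path d) :
    Continuous (fun v : ℝ =>
      ψ (‖w ((4 : ℝ≥0) ^ i * v.toNNReal) - w ((4 : ℝ≥0) ^ i / 4 ^ m)‖ / 2 ^ i)) := by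
  have := w.cont
  fun_prop

theorem LLN4_diff {ψ : ℝ → ℝ} {Λ : ℝ≥0} (hψL : LipschitzWith Λ ψ) (m i : ℕ) (w : Path d) :
    |LLN4_Z ψ m i w - Ys ψ i w| ≤ 3 * Λ * (‖w ((4 : ℝ≥0) ^ i / 4 ^ m)‖ / 2 ^ i) := by
  have hψ := hψL.continuous
  have h14 : (1 : ℝ) ≤ 4 := by norm_num
  have h1 : LLN4_Z ψ m i w - Ys ψ i w = ∫ v in (1 : ℝ)..4,
      (ψ (‖w ((4 : ℝ≥0) ^ i * v.toNNReal) - w ((4 : ℝ≥0) ^ i / 4 ^ m)‖ / 2 ^ i) -
        ψ (‖w ((4 : ℝ≥0) ^ i * v.toNNReal)‖ / 2 ^ i)) := by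
    unfold LLN4_Z Ys
    rw [intervalIntegral.integral_sub]
    · exact (LLN4_cont_Z hψ m i w).intervalIntegrable _ _
    · exact (LLN4_cont_Ys hψ i w).intervalIntegrable _ _
  have h2 : ‖∫ v in (1 : ℝ)..4,
      (ψ (‖w ((4 : ℝ≥0) ^ i * v.toNNReal) - w ((4 : ℝ≥0) ^ i / 4 ^ m)‖ / 2 ^ i) -
        ψ (‖w ((4 : ℝ≥0) ^ i * v.toNNReal)‖ / 2 ^ i))‖ ≤
        (Λ * (‖w ((4 : ℝ≥0) ^ i / 4 ^ m)‖ / 2 ^ i)) * |(4 : ℝ) - 1| := by
    apply intervalIntegral.norm_integral_le_of_norm_le_const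
    intro v _
    have h3 := hψL.dist_le_mul (‖w ((4 : ℝ≥0) ^ i * v.toNNReal) - w ((4 : ℝ≥0) ^ i / 4 ^ m)‖ / 2 ^ i)
      (‖w ((4 : ℝ≥0) ^ i * v.toNNReal)‖ / 2 ^ i)
    rw [Real.dist_eq, Real.dist_eq] at h3
    refine h3.trans ?_
    apply mul_le_mul_of_nonneg_left _ Λ.2
    rw [← sub_div, abs_div, abs_of_pos (show (0 : ℝ) < 2 ^ i by positivity)]
    apply div_le_div_of_nonneg_right _ (by positivity)
    have h4 := abs_norm_sub_norm_le (w ((4 : ℝ≥0) ^ i * v.toNNReal) - w ((4 : ℝ≥0) ^ i / 4 ^ m))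
      (w ((4 : ℝ≥0) ^ i * v.toNNReal))
    refine h4.trans ?_
    rw [sub_sub_cancel_left, norm_neg]
  rw [← h1, Real.norm_eq_abs] at h2
  have h6 : |(4 : ℝ) - 1| = 3 := by norm_num
  rw [h6] at h2
  linarith

theorem LLN4_Ys_nonneg {ψ : ℝ → ℝ} (hψ0 : ∀ x, 0 ≤ ψ x) (i : ℕ) (w : Path d) : 0 ≤ Ys ψ i w := by
  apply intervalIntegral.integral_nonneg (by norm_num)
  intro v _
  exact hψ0 _

theorem LLN4_Z_nonneg {ψ : ℝ → ℝ} (hψ0 : ∀ x, 0 ≤ ψ x) (m i : ℕ) (w : Path d) :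
    0 ≤ LLN4_Z ψ m i w := by
  apply intervalIntegral.integral_nonneg (by norm_num)
  intro v _
  exact hψ0 _

theorem LLN4_Z_le {ψ : ℝ → ℝ} {K : ℝ} (hψ : Continuous ψ) (hψK : ∀ x, ψ x ≤ K) (m i : ℕ) (w : Path d) :
    LLN4_Z ψ m i w ≤ 3 * K := by
  have h14 : (1 : ℝ) ≤ 4 := by norm_num
  have h := intervalIntegral.integral_mono_on (μ := volume) h14
    ((LLN4_cont_Z hψ m i w).intervalIntegrable (μ := volume) 1 4)
    ((continuous_const (y := K)).intervalIntegrable (μ := volume) 1 4) (fun v _ => hψK _)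
  have h2 : ∫ _ in (1 : ℝ)..4, K = 3 * K := by
    simp
    left
    norm_num
  rw [h2] at h
  exact h

theorem LLN4_Ys_le {ψ : ℝ → ℝ} {K : ℝ} (hψ : Continuous ψ) (hψK : ∀ x, ψ x ≤ K) (i : ℕ) (w : Path d) :
    Ys ψ i w ≤ 3 * K := by
  have h14 : (1 : ℝ) ≤ 4 := by norm_num
  have h := intervalIntegral.integral_mono_on (μ := volume) h14
    ((LLN4_cont_Ys hψ i w).intervalIntegrable (μ := volume) 1 4)
    ((continuous_const (y := K)).intervalIntegrable (μ := volume) 1 4) (fun v _ => hψK _)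
  have h2 : ∫ _ in (1 : ℝ)..4, K = 3 * K := by
    simp
    left
    norm_num
  rw [h2] at h
  exact h


/-- `Z` only depends on the path up to time `4 ^ (i + 1)`. -/
theorem LLN4_Z_stop (ψ : ℝ → ℝ) (m i : ℕ) {a : ℝ≥0} (ha : (4 : ℝ≥0) ^ (i + 1) ≤ a) (w : Path d) :
    LLN4_Z ψ m i (stop a w) = LLN4_Z ψ m i w := by
  unfold LLN4_Z
  apply intervalIntegral.integral_congr
  intro v hv
  rw [Set.uIcc_of_le (by norm_num : (1 : ℝ) ≤ 4)] at hv
  have h1 : (4 : ℝ≥0) ^ i * v.toNNReal ≤ a := by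
    refine le_trans ?_ ha
    rw [pow_succ]
    apply mul_le_mul_of_nonneg_left _ (by positivity)
    rw [Real.toNNReal_le_iff_le_coe]
    exact_mod_cast hv.2
  have h2 : (4 : ℝ≥0) ^ i / 4 ^ m ≤ a := by
    refine le_trans ?_ ha
    rw [pow_succ]
    apply div_le_of_le_mul₀ (by positivity) (by positivity)
    have h3 : (1 : ℝ≥0) ≤ 4 ^ m := one_le_pow₀ (by norm_num)
    calc (4 : ℝ≥0) ^ i = 4 ^ i * 1 * 1 := by ring
      _ ≤ 4 ^ i * 4 * 4 ^ m := by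
          apply mul_le_mul' _ h3
          apply mul_le_mul' le_rfl (by norm_num)
  simp only [stop_apply, min_eq_left h1, min_eq_left h2]

/-- The functional `Z` as a functional of the increments after `4^i / 4^m`. -/
noncomputable def LLN4_H (ψ : ℝ → ℝ) (m i : ℕ) (u : Path d) : ℝ :=
  ∫ v in (1 : ℝ)..4, ψ (‖u ((4 : ℝ≥0) ^ i * v.toNNReal - (4 : ℝ≥0) ^ i / 4 ^ m)‖ / 2 ^ i)

theorem LLN4_Z_shift (ψ : ℝ → ℝ) (m i : ℕ) (w : Path d) :
    LLN4_Z ψ m i w = LLN4_H ψ m i (shift ((4 : ℝ≥0) ^ i / 4 ^ m) w) := by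
  unfold LLN4_Z LLN4_H
  apply intervalIntegral.integral_congr
  intro v hv
  rw [Set.uIcc_of_le (by norm_num : (1 : ℝ) ≤ 4)] at hv
  have h1 : (4 : ℝ≥0) ^ i / 4 ^ m ≤ (4 : ℝ≥0) ^ i * v.toNNReal := by
    have h3 : (1 : ℝ≥0) ≤ 4 ^ m := one_le_pow₀ (by norm_num)
    have h4 : (1 : ℝ≥0) ≤ v.toNNReal := by
      rw [← Real.toNNReal_one]
      exact Real.toNNReal_le_toNNReal hv.1
    apply div_le_of_le_mul₀ (by positivity) (by positivity)
    calc (4 : ℝ≥0) ^ i = 4 ^ i * 1 * 1 := by ring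
      _ ≤ 4 ^ i * v.toNNReal * 4 ^ m := by
          apply mul_le_mul' _ h3
          apply mul_le_mul' le_rfl h4
  simp only [shift_apply, add_tsub_cancel_of_le h1]

theorem LLN4_measurable_H {ψ : ℝ → ℝ} (hψ : Continuous ψ) (m i : ℕ) :
    Measurable (LLN4_H ψ m i : Path d → ℝ) := by
  apply LLN4_measurable_int
  apply hψ.measurable.comp
  refine Measurable.div_const ?_ _
  apply Measurable.norm
  have h1 : Measurable (fun p : Path d × ℝ =>
      (p.1, (4 : ℝ≥0) ^ i * p.2.toNNReal - (4 : ℝ≥0) ^ i / 4 ^ m)) := by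
    fun_prop
  exact (measurable_eval_prod (d := d)).comp h1

/-- Product formula for functionals of successive increments. -/
theorem LLN4_prod {μ : Measure (Path d)} (h : IsWiener μ) (a : ℕ → ℝ≥0) (ha : Monotone a)
    (f g : ℕ → Path d → ℝ≥0∞) (hf : ∀ k, Measurable (f k)) (hg : ∀ k, Measurable (g k))
    (hstop : ∀ k (b : ℝ≥0), a (k + 1) ≤ b → ∀ w, f k (stop b w) = f k w)
    (hshift : ∀ k w, f k w = g k (shift (a k) w)) (N : ℕ) :
    ∫⁻ w, ∏ k ∈ Finset.range N, f k w ∂μ = ∏ k ∈ Finset.range N, ∫⁻ w, f k w ∂μ := by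
  have := h.isProb
  induction N with
  | zero => simp
  | succ N ih =>
    rw [Finset.prod_range_succ, ← ih]
    have h1 : ∀ w, ∏ k ∈ Finset.range (N + 1), f k w =
        (∏ k ∈ Finset.range N, f k (stop (a N) w)) * g N (shift (a N) w) := by
      intro w
      rw [Finset.prod_range_succ, ← hshift]
      congr 1
      apply Finset.prod_congr rfl
      intro k hk
      rw [hstop k (a N) (ha (by simpa using hk))]
    simp_rw [h1]
    have hF : Measurable (Function.uncurry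
        (fun w w' : Path d => (∏ k ∈ Finset.range N, f k w) * g N w')) := by
      apply Measurable.mul
      · exact (Finset.measurable_prod _ (fun k _ => hf k)).comp measurable_fst
      · exact (hg N).comp measurable_snd
    rw [h.lintegral_stop_shift (a N)
      (F := fun w w' : Path d => (∏ k ∈ Finset.range N, f k w) * g N w') hF]
    have h2 : ∀ w : Path d, ∫⁻ w', (∏ k ∈ Finset.range N, f k (stop (a N) w)) * g N w' ∂μ =
        (∏ k ∈ Finset.range N, f k w) * ∫⁻ w', g N w' ∂μ := by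
      intro w
      rw [lintegral_const_mul _ (hg N)]
      congr 1
      apply Finset.prod_congr rfl
      intro k hk
      rw [hstop k (a N) (ha (by simpa using hk))]
    simp_rw [h2]
    rw [lintegral_mul_const _ (Finset.measurable_prod _ (fun k _ => hf k))]
    congr 1
    have h3 : ∫⁻ w, g N w ∂(μ.map (shift (a N))) = ∫⁻ w, g N (shift (a N) w) ∂μ :=
      lintegral_map (hg N) (measurable_shift _)
    rw [h.map_shift] at h3
    rw [h3]
    simp_rw [← hshift]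

theorem LLN4_exp_neg_le {x : ℝ} (hx : 0 ≤ x) : Real.exp (-x) ≤ 1 - x + x ^ 2 / 2 := by
  have h1 := Real.quadratic_le_exp_of_nonneg hx
  have h2 : 0 < Real.exp x := Real.exp_pos x
  rw [Real.exp_neg, inv_le_comm₀ h2 (by nlinarith [sq_nonneg (x - 1)])]
  refine le_trans ?_ h1
  rw [inv_le_iff_one_le_mul₀ (by nlinarith [sq_nonneg (x - 1)])]
  nlinarith [sq_nonneg (x ^ 2), sq_nonneg x]

/-- Exponential moment of a bounded variable. -/
theorem LLN4_expmom {Ω : Type*} [MeasurableSpace Ω] {P : Measure Ω} [IsProbabilityMeasure P]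
    {Z : Ω → ℝ} (hZ : Measurable Z) {M : ℝ} (h0 : ∀ ω, 0 ≤ Z ω) (hM : ∀ ω, Z ω ≤ M) {θ : ℝ}
    (hθ : 0 ≤ θ) :
    ∫⁻ ω, ENNReal.ofReal (Real.exp (-(θ * Z ω))) ∂P ≤
      ENNReal.ofReal (Real.exp (-(θ * ∫ ω, Z ω ∂P) + θ ^ 2 * M ^ 2 / 2)) := by
  have hint : Integrable Z P := by
    refine Integrable.of_bound hZ.aestronglyMeasurable M (Eventually.of_forall fun ω => ?_)
    rw [Real.norm_eq_abs, abs_of_nonneg (h0 ω)]
    exact hM ω
  have h1 : ∀ ω, Real.exp (-(θ * Z ω)) ≤ 1 - θ * Z ω + θ ^ 2 * M ^ 2 / 2 := by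
    intro ω
    refine (LLN4_exp_neg_le (mul_nonneg hθ (h0 ω))).trans ?_
    have h2 : (θ * Z ω) ^ 2 ≤ θ ^ 2 * M ^ 2 := by
      rw [mul_pow]
      apply mul_le_mul_of_nonneg_left _ (sq_nonneg θ)
      exact pow_le_pow_left₀ (h0 ω) (hM ω) 2
    linarith
  have hint2 : Integrable (fun ω => 1 - θ * Z ω + θ ^ 2 * M ^ 2 / 2) P := by
    apply Integrable.add _ (integrable_const _)
    exact (integrable_const _).sub (hint.const_mul θ)
  have h3 : ∫⁻ ω, ENNReal.ofReal (Real.exp (-(θ * Z ω))) ∂P ≤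
      ∫⁻ ω, ENNReal.ofReal (1 - θ * Z ω + θ ^ 2 * M ^ 2 / 2) ∂P :=
    lintegral_mono fun ω => ENNReal.ofReal_le_ofReal (h1 ω)
  refine h3.trans ?_
  rw [← ofReal_integral_eq_lintegral_ofReal hint2
    (Eventually.of_forall fun ω => (Real.exp_pos _).le.trans (h1 ω))]
  apply ENNReal.ofReal_le_ofReal
  have h4 : ∫ ω, (1 - θ * Z ω + θ ^ 2 * M ^ 2 / 2) ∂P =
      1 - θ * (∫ ω, Z ω ∂P) + θ ^ 2 * M ^ 2 / 2 := by
    have e1 : ∫ ω, (1 - θ * Z ω + θ ^ 2 * M ^ 2 / 2) ∂P =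
        (∫ ω, (1 - θ * Z ω) ∂P) + ∫ _, (θ ^ 2 * M ^ 2 / 2) ∂P :=
      integral_add (f := fun ω => 1 - θ * Z ω) (g := fun _ => θ ^ 2 * M ^ 2 / 2)
        ((integrable_const _).sub (hint.const_mul θ)) (integrable_const _)
    have e2 : ∫ ω, (1 - θ * Z ω) ∂P = (∫ _, (1 : ℝ) ∂P) - ∫ ω, θ * Z ω ∂P :=
      integral_sub (f := fun _ => (1 : ℝ)) (g := fun ω => θ * Z ω)
        (integrable_const _) (hint.const_mul θ)
    rw [e1, e2, integral_const_mul]
    simp only [integral_const, probReal_univ, smul_eq_mul, one_mul]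
  rw [h4]
  have := Real.add_one_le_exp (-(θ * ∫ ω, Z ω ∂P) + θ ^ 2 * M ^ 2 / 2)
  linarith

theorem LLN4_chernoff {μ : Measure (Path d)} (h : IsWiener μ) {ψ : ℝ → ℝ} {K : ℝ}
    (hψ : Continuous ψ) (hψ0 : ∀ x, 0 ≤ ψ x) (hψK : ∀ x, ψ x ≤ K) (hK : 0 < K) (m j N : ℕ)
    {δ : ℝ} (hδ : 0 < δ) :
    μ {w | ∑ k ∈ Finset.range N, LLN4_Z ψ m (j + k * (m + 1)) w <
        N * ((∫ w, LLN4_Z ψ m 0 w ∂μ) - δ)} ≤
      ENNReal.ofReal (Real.exp (-(N * (δ ^ 2 / (18 * K ^ 2))))) := by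
  have := h.isProb
  set ζ := ∫ w, LLN4_Z ψ m 0 w ∂μ with hζ
  set M : ℝ := 3 * K with hM
  have hMpos : 0 < M := by positivity
  set θ : ℝ := δ / M ^ 2 with hθ
  have hθpos : 0 < θ := by positivity
  set f : ℕ → Path d → ℝ≥0∞ := fun k w =>
    ENNReal.ofReal (Real.exp (-(θ * LLN4_Z ψ m (j + k * (m + 1)) w))) with hf
  set g : ℕ → Path d → ℝ≥0∞ := fun k w =>
    ENNReal.ofReal (Real.exp (-(θ * LLN4_H ψ m (j + k * (m + 1)) w))) with hg
  have hfm : ∀ k, Measurable (f k) := by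
    intro k
    have := LLN4_measurable_Z (d := d) hψ m (j + k * (m + 1))
    fun_prop
  have hgm : ∀ k, Measurable (g k) := by
    intro k
    have := LLN4_measurable_H (d := d) hψ m (j + k * (m + 1))
    fun_prop
  have hprod := LLN4_prod h (fun k => (4 : ℝ≥0) ^ (j + k * (m + 1)) / 4 ^ m)
    (by
      intro k l hkl
      simp only
      apply div_le_div_of_nonneg_right _ (by positivity)
      exact pow_le_pow_right₀ (by norm_num) (by gcongr))
    f g hfm hgm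
    (by
      intro k b hb w
      simp only [hf]
      rw [LLN4_Z_stop ψ m (j + k * (m + 1)) _ w]
      refine le_trans (le_of_eq ?_) hb
      rw [eq_div_iff (by positivity), ← pow_add]
      congr 1
      ring)
    (by
      intro k w
      simp only [hf, hg]
      rw [LLN4_Z_shift]) N
  have hf_le : ∀ k, ∫⁻ w, f k w ∂μ ≤ ENNReal.ofReal (Real.exp (-(θ * ζ) + θ ^ 2 * M ^ 2 / 2)) := by
    intro k
    have := LLN4_expmom (P := μ) (LLN4_measurable_Z (d := d) hψ m (j + k * (m + 1)))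
      (M := M) (LLN4_Z_nonneg hψ0 m _) (LLN4_Z_le hψ hψK m _) hθpos.le
    rw [LLN4_Z_mean h hψ] at this
    exact this
  have hprod_le : ∫⁻ w, ∏ k ∈ Finset.range N, f k w ∂μ ≤
      ENNReal.ofReal (Real.exp (N * (-(θ * ζ) + θ ^ 2 * M ^ 2 / 2))) := by
    rw [hprod]
    calc ∏ k ∈ Finset.range N, ∫⁻ w, f k w ∂μ
        ≤ ∏ _k ∈ Finset.range N, ENNReal.ofReal (Real.exp (-(θ * ζ) + θ ^ 2 * M ^ 2 / 2)) :=
          Finset.prod_le_prod' fun k _ => hf_le k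
      _ = _ := by
          rw [Finset.prod_const, Finset.card_range, ← ENNReal.ofReal_pow (Real.exp_pos _).le,
            ← Real.exp_nat_mul]
  have hfprod : ∀ w, ∏ k ∈ Finset.range N, f k w = ENNReal.ofReal
      (Real.exp (-(θ * ∑ k ∈ Finset.range N, LLN4_Z ψ m (j + k * (m + 1)) w))) := by
    intro w
    rw [← ENNReal.ofReal_prod_of_nonneg (fun k _ => (Real.exp_pos _).le), ← Real.exp_sum,
      Finset.mul_sum, Finset.sum_neg_distrib]
  have hmark := mul_meas_ge_le_lintegral (μ := μ)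
    (f := fun w => ∏ k ∈ Finset.range N, f k w)
    (Finset.measurable_prod _ (fun k _ => hfm k))
    (ENNReal.ofReal (Real.exp (-(θ * (N * (ζ - δ))))))
  have hsub : {w | ∑ k ∈ Finset.range N, LLN4_Z ψ m (j + k * (m + 1)) w < N * (ζ - δ)} ⊆
      {w | ENNReal.ofReal (Real.exp (-(θ * (N * (ζ - δ))))) ≤ ∏ k ∈ Finset.range N, f k w} := by
    intro w hw
    simp only [Set.mem_ofPred_eq] at hw ⊢
    rw [hfprod]
    apply ENNReal.ofReal_le_ofReal
    apply Real.exp_le_exp.2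
    apply neg_le_neg
    exact mul_le_mul_of_nonneg_left hw.le hθpos.le
  have hpos : ENNReal.ofReal (Real.exp (-(θ * (N * (ζ - δ))))) ≠ 0 := by
    simp [Real.exp_pos]
  have hctop : ENNReal.ofReal (Real.exp (-(θ * (N * (ζ - δ))))) ≠ ∞ := ENNReal.ofReal_ne_top
  have h1 : μ {w | ∑ k ∈ Finset.range N, LLN4_Z ψ m (j + k * (m + 1)) w < N * (ζ - δ)} ≤
      (ENNReal.ofReal (Real.exp (-(θ * (N * (ζ - δ))))))⁻¹ *
        ENNReal.ofReal (Real.exp (N * (-(θ * ζ) + θ ^ 2 * M ^ 2 / 2))) := by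
    calc μ {w | ∑ k ∈ Finset.range N, LLN4_Z ψ m (j + k * (m + 1)) w < N * (ζ - δ)}
        ≤ μ {w | ENNReal.ofReal (Real.exp (-(θ * (N * (ζ - δ))))) ≤
            ∏ k ∈ Finset.range N, f k w} := measure_mono hsub
      _ = (ENNReal.ofReal (Real.exp (-(θ * (N * (ζ - δ))))))⁻¹ *
          (ENNReal.ofReal (Real.exp (-(θ * (N * (ζ - δ))))) *
            μ {w | ENNReal.ofReal (Real.exp (-(θ * (N * (ζ - δ))))) ≤
            ∏ k ∈ Finset.range N, f k w}) := by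
          generalize ENNReal.ofReal (Real.exp (-(θ * (N * (ζ - δ))))) = c at hpos hctop
          rw [← mul_assoc, ENNReal.inv_mul_cancel hpos hctop, one_mul]
      _ ≤ _ := by gcongr; exact hmark.trans hprod_le
  refine h1.trans (le_of_eq ?_)
  rw [← ENNReal.ofReal_inv_of_pos (Real.exp_pos _), ← ENNReal.ofReal_mul (by positivity),
    ← Real.exp_neg, ← Real.exp_add]
  congr 2
  rw [hθ, hM]
  field_simp
  ring


theorem LLN4_integrable_norm {μ : Measure (Path d)} (h : IsWiener μ) :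
    Integrable (fun w : Path d => ‖w 1‖) μ := by
  have := h.isProb
  refine ⟨(measurable_eval 1).norm.aestronglyMeasurable, ?_⟩
  have h1 := h.rg_moment 1
  refine lt_of_le_of_lt (lintegral_mono fun w => ?_) h1
  rw [pow_one, enorm_norm]
  exact enorm_le_rg le_rfl w

theorem LLN4_norm_eval {μ : Measure (Path d)} (h : IsWiener μ) {c : ℝ≥0} (hc : c ≠ 0) :
    Integrable (fun w : Path d => ‖w c‖) μ ∧
      ∫ w, ‖w c‖ ∂μ = NNReal.sqrt c * ∫ w, ‖w 1‖ ∂μ := by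
  have := h.isProb
  have hs : (NNReal.sqrt c : ℝ) ≠ 0 := by
    simpa using hc
  have e : ∀ w : Path d, ‖w c‖ = NNReal.sqrt c * ‖scale c w 1‖ := by
    intro w
    rw [scale_apply, norm_smul, mul_one, norm_inv, Real.norm_eq_abs, NNReal.abs_eq, ← mul_assoc,
      mul_inv_cancel₀ hs, one_mul]
  have hm : Measurable (fun w : Path d => ‖w 1‖) := (measurable_eval 1).norm
  constructor
  · simp_rw [e]
    apply Integrable.const_mul
    have h1 : Integrable (fun w : Path d => ‖w 1‖) (μ.map (scale c)) := by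
      rw [h.map_scale hc]; exact LLN4_integrable_norm h
    exact (integrable_map_measure hm.aestronglyMeasurable (measurable_scale c).aemeasurable).1 h1
  · simp_rw [e]
    rw [integral_const_mul, LLN4_int_scale h hm hc]

theorem LLN4_sqrt_div (i m : ℕ) : NNReal.sqrt ((4 : ℝ≥0) ^ i / 4 ^ m) = 2 ^ i / 2 ^ m := by
  rw [NNReal.sqrt_eq_iff_eq_sq, div_pow, ← pow_mul, ← pow_mul, mul_comm i, mul_comm m, pow_mul,
    pow_mul]
  norm_num

theorem LLN4_mean_ge {μ : Measure (Path d)} (h : IsWiener μ) {ψ : ℝ → ℝ} {K : ℝ} {Λ : ℝ≥0}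
    (hψ0 : ∀ x, 0 ≤ ψ x) (hψK : ∀ x, ψ x ≤ K) (hψL : LipschitzWith Λ ψ) (m : ℕ) :
    (∫ w, Ys ψ 0 w ∂μ) - 3 * Λ * (∫ w, ‖w 1‖ ∂μ) / 2 ^ m ≤ ∫ w, LLN4_Z ψ m 0 w ∂μ := by
  have := h.isProb
  have hψ := hψL.continuous
  have hc : ((4 : ℝ≥0) ^ 0 / 4 ^ m) ≠ 0 := by positivity
  obtain ⟨hi, he⟩ := LLN4_norm_eval h hc
  have hY : Integrable (Ys ψ 0 : Path d → ℝ) μ := by
    refine Integrable.of_bound (LLN4_measurable_Ys hψ 0).aestronglyMeasurable (3 * K)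
      (Eventually.of_forall fun ω => ?_)
    rw [Real.norm_eq_abs, abs_of_nonneg (LLN4_Ys_nonneg hψ0 _ _)]
    exact LLN4_Ys_le hψ hψK _ _
  have hZ : Integrable (LLN4_Z ψ m 0 : Path d → ℝ) μ := by
    refine Integrable.of_bound (LLN4_measurable_Z hψ m 0).aestronglyMeasurable (3 * K)
      (Eventually.of_forall fun ω => ?_)
    rw [Real.norm_eq_abs, abs_of_nonneg (LLN4_Z_nonneg hψ0 _ _ _)]
    exact LLN4_Z_le hψ hψK _ _ _
  have h1 : ∫ w, (Ys ψ 0 w - 3 * Λ * ‖w ((4 : ℝ≥0) ^ 0 / 4 ^ m)‖) ∂μ ≤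
      ∫ w, LLN4_Z ψ m 0 w ∂μ := by
    apply integral_mono (hY.sub (hi.const_mul (3 * Λ))) hZ
    intro w
    have h2 := (abs_le.1 (LLN4_diff hψL m 0 w)).1
    simp only [pow_zero, div_one, Pi.sub_apply] at h2 ⊢
    linarith
  have h2 : ∫ w, (Ys ψ 0 w - 3 * Λ * ‖w ((4 : ℝ≥0) ^ 0 / 4 ^ m)‖) ∂μ =
      (∫ w, Ys ψ 0 w ∂μ) - ∫ w, 3 * Λ * ‖w ((4 : ℝ≥0) ^ 0 / 4 ^ m)‖ ∂μ :=
    integral_sub (f := fun w => Ys ψ 0 w) (g := fun w => 3 * Λ * ‖w ((4 : ℝ≥0) ^ 0 / 4 ^ m)‖)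
      hY (hi.const_mul (3 * Λ))
  rw [h2, integral_const_mul, he, LLN4_sqrt_div] at h1
  refine le_trans (le_of_eq ?_) h1
  simp only [pow_zero, NNReal.coe_div, NNReal.coe_one, NNReal.coe_pow, NNReal.coe_ofNat]
  ring

theorem LLN4_sum_classes (f : ℕ → ℝ) (N M : ℕ) :
    ∑ i ∈ Finset.range (N * M), f i = ∑ r ∈ Finset.range M, ∑ k ∈ Finset.range N, f (r + k * M) := by
  induction N with
  | zero => simp
  | succ N ih =>
    rw [Nat.succ_mul, Finset.sum_range_add, ih]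
    simp_rw [Finset.sum_range_succ]
    rw [Finset.sum_add_distrib]
    congr 1
    apply Finset.sum_congr rfl
    intro r _
    rw [add_comm]


theorem LLN4_arith {c : ℝ} (hc : 0 < c) {n s : ℕ} (hs : s = Nat.sqrt n) (hs1 : 1 ≤ s) :
    (4 * s + 1 : ℝ) * Real.exp (-((n / (4 * s + 1) : ℕ) * c)) * (n : ℝ) ^ 8 ≤
      5 * 3 ^ 8 * Real.exp c * (5 / c) ^ 17 * (Nat.factorial 17 : ℝ) := by
  have hs1' : (1 : ℝ) ≤ s := by exact_mod_cast hs1
  have hn1 : s * s ≤ n := by rw [hs]; exact Nat.sqrt_le n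
  have hn2 : n < (s + 1) * (s + 1) := by rw [hs]; exact Nat.lt_succ_sqrt n
  have hn2' : (n : ℝ) ≤ 3 * (s : ℝ) ^ 2 := by
    have h1 : n ≤ 3 * s ^ 2 := by nlinarith
    exact_mod_cast h1
  have hN : (s : ℝ) / 5 ≤ ((n / (4 * s + 1) : ℕ) : ℝ) + 1 := by
    have h1 : n < (4 * s + 1) * (n / (4 * s + 1) + 1) := Nat.lt_mul_div_succ n (by omega)
    have h2 : s * s ≤ 5 * s * (n / (4 * s + 1) + 1) := by
      refine hn1.trans (h1.le.trans ?_)
      apply Nat.mul_le_mul_right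
      omega
    have h3 : (s : ℝ) * s ≤ 5 * s * (((n / (4 * s + 1) : ℕ) : ℝ) + 1) := by exact_mod_cast h2
    have h4 : (s : ℝ) ≤ 5 * (((n / (4 * s + 1) : ℕ) : ℝ) + 1) := by
      have : (0 : ℝ) < s := by linarith
      by_contra hcon
      push Not at hcon
      nlinarith
    linarith
  have h1 : Real.exp (-((n / (4 * s + 1) : ℕ) * c)) ≤ Real.exp c * Real.exp (-(c * s / 5)) := by
    rw [← Real.exp_add]
    apply Real.exp_le_exp.2
    nlinarith
  have h2 : (c * s / 5) ^ 17 / (Nat.factorial 17 : ℝ) ≤ Real.exp (c * s / 5) :=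
    Real.pow_div_factorial_le_exp _ (by positivity) 17
  have h3 : (s : ℝ) ^ 17 * Real.exp (-(c * s / 5)) ≤ (5 / c) ^ 17 * (Nat.factorial 17 : ℝ) := by
    have hf : (0 : ℝ) < (Nat.factorial 17 : ℝ) := by positivity
    rw [Real.exp_neg, ← div_eq_mul_inv, div_le_iff₀ (Real.exp_pos _)]
    rw [div_le_iff₀ hf] at h2
    have h4 : (s : ℝ) ^ 17 = (5 / c) ^ 17 * (c * s / 5) ^ 17 := by
      rw [← mul_pow]
      congr 1
      field_simp
    rw [h4]
    calc (5 / c) ^ 17 * (c * s / 5) ^ 17 ≤ (5 / c) ^ 17 * (Real.exp (c * s / 5) * (Nat.factorial 17 : ℝ)) := by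
          apply mul_le_mul_of_nonneg_left h2 (by positivity)
      _ = _ := by ring
  calc (4 * s + 1 : ℝ) * Real.exp (-((n / (4 * s + 1) : ℕ) * c)) * (n : ℝ) ^ 8
      ≤ (5 * s) * (Real.exp c * Real.exp (-(c * s / 5))) * (3 * (s : ℝ) ^ 2) ^ 8 := by
        gcongr
        linarith
    _ = 5 * 3 ^ 8 * Real.exp c * ((s : ℝ) ^ 17 * Real.exp (-(c * s / 5))) := by ring
    _ ≤ 5 * 3 ^ 8 * Real.exp c * ((5 / c) ^ 17 * (Nat.factorial 17 : ℝ)) := by
        gcongr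
    _ = _ := by ring

/-- The deterministic inclusion of events. -/
theorem LLN4_incl {η ζ δ ε L C₁ : ℝ} (hη : 0 ≤ η) (hδ : δ = ε / 4) (hε : 0 < ε) (hL : 0 ≤ L)
    (hC₁ : 0 ≤ C₁) {n s : ℕ} (hs : s = Nat.sqrt n) (hs1 : 1 ≤ s)
    (hs0 : (3 * L * (C₁ + 1) + 4 * η) / (3 * ε / 4) ≤ s)
    (hζ : η - 3 * L * C₁ / 2 ^ (4 * s) ≤ ζ) {Y Z X : ℕ → ℝ} (hY : ∀ i, 0 ≤ Y i)
    (hYZ : ∀ i, Z i - 3 * L * X i ≤ Y i) (hX : ∀ i < n, X i ≤ n / 2 ^ (4 * s))
    (hsum : ∀ r < 4 * s + 1, (n / (4 * s + 1) : ℕ) * (ζ - δ) ≤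
      ∑ k ∈ Finset.range (n / (4 * s + 1)), Z (r + k * (4 * s + 1))) :
    (η - ε) * n ≤ ∑ i ∈ Finset.range n, Y i := by
  set N := n / (4 * s + 1) with hN
  have hs1' : (1 : ℝ) ≤ s := by exact_mod_cast hs1
  have hn1 : s * s ≤ n := by rw [hs]; exact Nat.sqrt_le n
  have hn2 : n < (s + 1) * (s + 1) := by rw [hs]; exact Nat.lt_succ_sqrt n
  have hn1' : (s : ℝ) * s ≤ n := by exact_mod_cast hn1
  have hn0 : (1 : ℝ) ≤ n := by nlinarith
  have h2m : (n : ℝ) * n ≤ 2 ^ (4 * s) := by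
    have h1 : s + 1 ≤ 2 ^ s := Nat.lt_two_pow_self
    have h2 : n * n ≤ ((s + 1) * (s + 1)) * ((s + 1) * (s + 1)) := Nat.mul_le_mul hn2.le hn2.le
    have h3 : ((s + 1) * (s + 1)) * ((s + 1) * (s + 1)) ≤ (2 ^ s * 2 ^ s) * (2 ^ s * 2 ^ s) := by
      gcongr
    have h4 : (2 ^ s * 2 ^ s) * (2 ^ s * 2 ^ s) = 2 ^ (4 * s) := by
      rw [← pow_add, ← pow_add]
      congr 1
      omega
    have h5 : n * n ≤ 2 ^ (4 * s) := by
      rw [← h4]; exact h2.trans h3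
    exact_mod_cast h5
  have h2pos : (0 : ℝ) < 2 ^ (4 * s) := by positivity
  have hNle : N * (4 * s + 1) ≤ n := Nat.div_mul_le_self n (4 * s + 1)
  have hNge : n ≤ N * (4 * s + 1) + 4 * s := by
    have h1 := Nat.div_add_mod n (4 * s + 1)
    have h2 := Nat.mod_lt n (show 0 < 4 * s + 1 by omega)
    rw [← hN] at h1
    rw [mul_comm] at h1
    omega
  have hNle' : (N : ℝ) * (4 * s + 1) ≤ n := by exact_mod_cast hNle
  have hNge' : (n : ℝ) ≤ N * (4 * s + 1) + 4 * s := by exact_mod_cast hNge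
  have h1 : ∑ i ∈ Finset.range (N * (4 * s + 1)), Y i ≤ ∑ i ∈ Finset.range n, Y i := by
    apply Finset.sum_le_sum_of_subset_of_nonneg
    · exact Finset.range_subset_range.2 hNle
    · intro i _ _
      exact hY i
  have h2 : ∑ i ∈ Finset.range (N * (4 * s + 1)), (Z i - 3 * L * (n / 2 ^ (4 * s))) ≤
      ∑ i ∈ Finset.range (N * (4 * s + 1)), Y i := by
    apply Finset.sum_le_sum
    intro i hi
    have hi' : i < n := lt_of_lt_of_le (Finset.mem_range.1 hi) hNle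
    refine le_trans ?_ (hYZ i)
    have := mul_le_mul_of_nonneg_left (hX i hi') (show 0 ≤ 3 * L by positivity)
    linarith
  rw [Finset.sum_sub_distrib, Finset.sum_const, Finset.card_range, nsmul_eq_mul,
    LLN4_sum_classes] at h2
  have h3 : ∑ r ∈ Finset.range (4 * s + 1), (N : ℝ) * (ζ - δ) ≤
      ∑ r ∈ Finset.range (4 * s + 1), ∑ k ∈ Finset.range N, Z (r + k * (4 * s + 1)) := by
    apply Finset.sum_le_sum
    intro r hr
    exact hsum r (Finset.mem_range.1 hr)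
  rw [Finset.sum_const, Finset.card_range, nsmul_eq_mul] at h3
  push_cast at h2 h3
  set A : ℝ := N * (4 * s + 1) with hA
  have hA0 : 0 ≤ A := by positivity
  -- error terms
  have h4 : A * (3 * L * (n / 2 ^ (4 * s))) ≤ 3 * L := by
    have h5 : A * (n / 2 ^ (4 * s)) ≤ 1 := by
      rw [← mul_div_assoc, div_le_one h2pos]
      refine le_trans ?_ h2m
      exact mul_le_mul_of_nonneg_right hNle' (by linarith)
    nlinarith
  have h5 : A * (3 * L * C₁ / 2 ^ (4 * s)) ≤ 3 * L * C₁ := by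
    have h6 : A / 2 ^ (4 * s) ≤ 1 := by
      rw [div_le_one h2pos]
      nlinarith
    calc A * (3 * L * C₁ / 2 ^ (4 * s)) = 3 * L * C₁ * (A / 2 ^ (4 * s)) := by ring
      _ ≤ 3 * L * C₁ * 1 := by
          apply mul_le_mul_of_nonneg_left h6 (by positivity)
      _ = _ := by ring
  have h6 : A * η - 3 * L * C₁ - A * δ ≤ A * (ζ - δ) := by
    have := mul_le_mul_of_nonneg_left hζ hA0
    linarith
  have h7 : (n - 4 * s) * η ≤ A * η := by
    apply mul_le_mul_of_nonneg_right _ hη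
    linarith
  have h8 : A * δ ≤ n * δ := by
    apply mul_le_mul_of_nonneg_right hNle'
    rw [hδ]; positivity
  have h9 : 3 * L * (C₁ + 1) + 4 * s * η ≤ n * (3 * ε / 4) := by
    rw [div_le_iff₀ (by positivity)] at hs0
    have h10 : s * (3 * L * (C₁ + 1) + 4 * η) ≤ s * (s * (3 * ε / 4)) :=
      mul_le_mul_of_nonneg_left hs0 (by linarith)
    have h11 : 3 * L * (C₁ + 1) ≤ s * (3 * L * (C₁ + 1)) := by
      have : 0 ≤ 3 * L * (C₁ + 1) := by positivity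
      nlinarith
    have h12 : (s : ℝ) * s * (3 * ε / 4) ≤ n * (3 * ε / 4) :=
      mul_le_mul_of_nonneg_right hn1' (by positivity)
    nlinarith
  have h13 : (4 * (s : ℝ) + 1) * (N * (ζ - δ)) = A * (ζ - δ) := by rw [hA]; ring
  rw [h13] at h3
  rw [hδ] at *
  nlinarith



theorem IsWiener.scale_lln {μ : Measure (Path d)} (h : IsWiener μ) {ψ : ℝ → ℝ} {K : ℝ} {Λ : ℝ≥0}
    (hψ0 : ∀ x, 0 ≤ ψ x) (hψK : ∀ x, ψ x ≤ K) (hψL : LipschitzWith Λ ψ) {ε : ℝ} (hε : 0 < ε) :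
    ∃ C : ℝ≥0, ∀ (n i₀ : ℕ), 1 ≤ n →
      μ {w | ∑ i ∈ Finset.range n, Ys ψ (i₀ + i) w < ((∫ w, Ys ψ 0 w ∂μ) - ε) * n} ≤
        (C : ℝ≥0∞) / (n : ℝ≥0∞) ^ 8 := by
  have hprob := h.isProb
  have hψ := hψL.continuous
  have hK1 : 0 < K + 1 := by linarith [(hψ0 0).trans (hψK 0)]
  have hψK1 : ∀ x, ψ x ≤ K + 1 := fun x => (hψK x).trans (by linarith)
  obtain ⟨Cp, hCp⟩ := h.rg_tail 9
  set C₁ : ℝ := ∫ w, ‖w 1‖ ∂μ with hC₁
  have hC₁0 : 0 ≤ C₁ := integral_nonneg fun w => norm_nonneg _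
  set η : ℝ := ∫ w, Ys ψ 0 w ∂μ with hη
  have hη0 : 0 ≤ η := integral_nonneg fun w => LLN4_Ys_nonneg hψ0 0 w
  set δ : ℝ := ε / 4 with hδ
  have hδ0 : 0 < δ := by positivity
  set c : ℝ := δ ^ 2 / (18 * (K + 1) ^ 2) with hc
  have hc0 : 0 < c := by positivity
  set s₀ : ℝ := (3 * (Λ : ℝ) * (C₁ + 1) + 4 * η) / (3 * ε / 4) with hs₀
  set D : ℝ := 5 * 3 ^ 8 * Real.exp c * (5 / c) ^ 17 * (Nat.factorial 17 : ℝ) with hD
  have hD0 : 0 ≤ D := by positivity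
  have hs₀0 : 0 ≤ s₀ := by positivity
  refine ⟨Cp + D.toNNReal + ((3 * s₀ ^ 2) ^ 8).toNNReal, ?_⟩
  intro n i₀ hn
  have hnpos : (0 : ℝ) < n := by exact_mod_cast hn
  have hn0 : (n : ℝ≥0∞) ^ 8 ≠ 0 := by
    apply pow_ne_zero
    simp; omega
  have hnt : (n : ℝ≥0∞) ^ 8 ≠ ∞ := by
    apply ENNReal.pow_ne_top
    simp
  obtain ⟨s, hs⟩ : ∃ s, s = Nat.sqrt n := ⟨_, rfl⟩
  have hs1 : 1 ≤ s := by
    rw [hs]
    exact Nat.sqrt_pos.2 hn
  have hn2 : n < (s + 1) * (s + 1) := by rw [hs]; exact Nat.lt_succ_sqrt n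
  rcases lt_or_ge (s : ℝ) s₀ with hlt | hge
  · -- small `n`
    have h1 : μ {w | ∑ i ∈ Finset.range n, Ys ψ (i₀ + i) w < (η - ε) * n} ≤ 1 := prob_le_one
    refine h1.trans ?_
    rw [ENNReal.le_div_iff_mul_le (Or.inl hn0) (Or.inl hnt), one_mul]
    have h2 : (n : ℝ) ≤ 3 * s₀ ^ 2 := by
      have h3 : (n : ℝ) ≤ 3 * (s : ℝ) ^ 2 := by
        have : n ≤ 3 * s ^ 2 := by nlinarith
        exact_mod_cast this
      have h4 : (s : ℝ) ^ 2 ≤ s₀ ^ 2 := by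
        apply pow_le_pow_left₀ (by positivity) hlt.le
      linarith
    have h3 : (n : ℝ≥0∞) ^ 8 ≤ ((((3 * s₀ ^ 2) ^ 8).toNNReal : ℝ≥0) : ℝ≥0∞) := by
      have h4 : ((n : ℝ≥0) : ℝ≥0) ^ 8 ≤ ((3 * s₀ ^ 2) ^ 8).toNNReal := by
        rw [← NNReal.coe_le_coe, Real.coe_toNNReal _ (by positivity)]
        push_cast
        exact pow_le_pow_left₀ hnpos.le h2 8
      exact_mod_cast h4
    refine h3.trans ?_
    exact_mod_cast le_add_self
  · -- large `n`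
    have hζ := LLN4_mean_ge h hψ0 hψK hψL (4 * s)
    rw [← hη, ← hC₁] at hζ
    set ζ := ∫ w, LLN4_Z ψ (4 * s) 0 w ∂μ with hζdef
    set N := n / (4 * s + 1) with hN
    have hsub : {w | ∑ i ∈ Finset.range n, Ys ψ (i₀ + i) w < (η - ε) * n} ⊆
        (⋃ i ∈ Finset.range n, {w : Path d | (((n : ℝ≥0)) : ℝ≥0∞) *
          (NNReal.sqrt ((4 : ℝ≥0) ^ (i₀ + i) / 4 ^ (4 * s)) : ℝ≥0∞) <
            rg ((4 : ℝ≥0) ^ (i₀ + i) / 4 ^ (4 * s)) w}) ∪
        (⋃ r ∈ Finset.range (4 * s + 1), {w : Path d | ∑ k ∈ Finset.range N,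
          LLN4_Z ψ (4 * s) ((i₀ + r) + k * (4 * s + 1)) w < N * (ζ - δ)}) := by
      intro w hw
      by_contra hcon
      rw [Set.mem_union, not_or] at hcon
      obtain ⟨hc1, hc2⟩ := hcon
      simp only [Set.mem_iUnion, Set.mem_ofPred_eq, Finset.mem_range, not_exists, not_lt] at hc1 hc2 hw
      have := LLN4_incl (L := (Λ : ℝ)) (Y := fun i => Ys ψ (i₀ + i) w)
        (Z := fun i => LLN4_Z ψ (4 * s) (i₀ + i) w)
        (X := fun i => ‖w ((4 : ℝ≥0) ^ (i₀ + i) / 4 ^ (4 * s))‖ / 2 ^ (i₀ + i))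
        hη0 hδ hε Λ.2 hC₁0 hs hs1 hge hζ (fun i => LLN4_Ys_nonneg hψ0 _ _)
        (fun i => by
          have := (abs_le.1 (LLN4_diff hψL (4 * s) (i₀ + i) w)).2
          linarith)
        (fun i hi => by
          have h1 := (enorm_le_rg le_rfl w).trans (hc1 i hi)
          rw [LLN4_sqrt_div] at h1
          have h2 : ‖w ((4 : ℝ≥0) ^ (i₀ + i) / 4 ^ (4 * s))‖₊ ≤
              (n : ℝ≥0) * (2 ^ (i₀ + i) / 2 ^ (4 * s)) := by
            rw [enorm_eq_nnnorm] at h1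
            exact_mod_cast h1
          have h3 : ‖w ((4 : ℝ≥0) ^ (i₀ + i) / 4 ^ (4 * s))‖ ≤
              (n : ℝ) * (2 ^ (i₀ + i) / 2 ^ (4 * s)) := by
            exact_mod_cast h2
          rw [div_le_iff₀ (by positivity)]
          refine h3.trans (le_of_eq ?_)
          ring)
        (fun r hr => by
          have h1 := hc2 r hr
          refine h1.trans (le_of_eq ?_)
          apply Finset.sum_congr rfl
          intro k _
          simp only [add_assoc])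
      exact absurd hw (not_lt.2 this)
    have hbad : μ (⋃ i ∈ Finset.range n, {w : Path d | (((n : ℝ≥0)) : ℝ≥0∞) *
          (NNReal.sqrt ((4 : ℝ≥0) ^ (i₀ + i) / 4 ^ (4 * s)) : ℝ≥0∞) <
            rg ((4 : ℝ≥0) ^ (i₀ + i) / 4 ^ (4 * s)) w}) ≤ (Cp : ℝ≥0∞) / (n : ℝ≥0∞) ^ 8 := by
      refine (measure_biUnion_finset_le _ _).trans ?_
      have h1 : ∀ i ∈ Finset.range n, μ {w : Path d | (((n : ℝ≥0)) : ℝ≥0∞) *
          (NNReal.sqrt ((4 : ℝ≥0) ^ (i₀ + i) / 4 ^ (4 * s)) : ℝ≥0∞) <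
            rg ((4 : ℝ≥0) ^ (i₀ + i) / 4 ^ (4 * s)) w} ≤ (Cp : ℝ≥0∞) / (n : ℝ≥0∞) ^ 9 := by
        intro i _
        have := hCp ((4 : ℝ≥0) ^ (i₀ + i) / 4 ^ (4 * s)) (n : ℝ≥0) (by exact_mod_cast hn)
        simpa using this
      refine (Finset.sum_le_sum h1).trans ?_
      rw [Finset.sum_const, Finset.card_range, nsmul_eq_mul]
      have hn' : (n : ℝ≥0∞) ≠ 0 := by simp; omega
      have hn'' : (n : ℝ≥0∞) ≠ ∞ := by simp
      rw [pow_succ (n : ℝ≥0∞) 8, mul_comm ((n : ℝ≥0∞) ^ 8), ← mul_div_assoc]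
      rw [ENNReal.mul_div_mul_left _ _ hn' hn'']
    have hch : μ (⋃ r ∈ Finset.range (4 * s + 1), {w : Path d | ∑ k ∈ Finset.range N,
          LLN4_Z ψ (4 * s) ((i₀ + r) + k * (4 * s + 1)) w < N * (ζ - δ)}) ≤
          (D.toNNReal : ℝ≥0∞) / (n : ℝ≥0∞) ^ 8 := by
      refine (measure_biUnion_finset_le _ _).trans ?_
      have h1 : ∀ r ∈ Finset.range (4 * s + 1), μ {w : Path d | ∑ k ∈ Finset.range N,
          LLN4_Z ψ (4 * s) ((i₀ + r) + k * (4 * s + 1)) w < N * (ζ - δ)} ≤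
          ENNReal.ofReal (Real.exp (-(N * c))) := by
        intro r _
        exact LLN4_chernoff h hψ hψ0 hψK1 hK1 (4 * s) (i₀ + r) N hδ0
      refine (Finset.sum_le_sum h1).trans ?_
      rw [Finset.sum_const, Finset.card_range, nsmul_eq_mul]
      rw [ENNReal.le_div_iff_mul_le (Or.inl hn0) (Or.inl hnt)]
      have h2 := LLN4_arith hc0 hs hs1
      have h3 : ((4 * s + 1 : ℕ) : ℝ≥0∞) * ENNReal.ofReal (Real.exp (-(N * c))) *
          (n : ℝ≥0∞) ^ 8 = ENNReal.ofReal ((4 * s + 1 : ℝ) * Real.exp (-(N * c)) * (n : ℝ) ^ 8) := by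
        rw [ENNReal.ofReal_mul (by positivity), ENNReal.ofReal_mul (by positivity),
          ENNReal.ofReal_pow (by positivity), ENNReal.ofReal_natCast]
        congr 2
        rw [← ENNReal.ofReal_natCast]
        congr 1
        push_cast
        ring
      rw [h3]
      exact ENNReal.ofReal_le_ofReal h2
    calc μ {w | ∑ i ∈ Finset.range n, Ys ψ (i₀ + i) w < (η - ε) * n}
        ≤ _ := measure_mono hsub
      _ ≤ _ := measure_union_le _ _
      _ ≤ (Cp : ℝ≥0∞) / (n : ℝ≥0∞) ^ 8 + (D.toNNReal : ℝ≥0∞) / (n : ℝ≥0∞) ^ 8 :=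
          add_le_add hbad hch
      _ ≤ _ := by
          rw [← ENNReal.add_div]
          gcongr
          exact_mod_cast le_self_add

end WSP
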