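import Pool.Agent.Lib_MP_c175fd.UnionJ
import Pool.Agent.Lib_MP_c175fd.NiceHit

/-!
# Piece UNIONB: union bound over splittings

`cond_N` with `Φ J z = Nice .. J z .. ∧ Split J (bigU J z ..) z r t (δ R ^ d)` (local: `nice_congr`, `bigF_congr`,
`split_congr`; measurable: `measurableSet_nice`, `measurableSet_block`). For fixed `J`: if
`J.card ≤ U R ^ d` fails the set is empty, otherwise `union_J` with `Nc z = Nice .. J z ..` and `nice_hit`.
-/

open MeasureTheory ProbabilityTheory Filter Topology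
open scoped ENNReal NNReal

namespace WSP

variable {d : ℕ} {Ω : Type*} [MeasurableSpace Ω] {P : Measure Ω} {μ : Measure (Path d)}

theorem union_bound (M : PM d P μ) [IsProbabilityMeasure P] (h : IsWiener μ) {r : ℝ}
    {t₁ τ t : ℝ≥0} (ht : t = t₁ + (τ + τ)) {A R L L' : ℕ} (hA : 0 < A) (hR : 0 < R)
    {c₂ a₀ Y₀ U K₀ c₅ : ℝ≥0} (hY₀ : 0 < Y₀) {δ : ℝ} (hδ : 0 < δ) {k k' : Fin d → ℤ}
    (hk : ∀ i, |k' i - k i| ≤ R) (hK : (a₀ : ℝ) + 5 * d ≤ K₀)
    (hsm : ∀ (y : E d) (A : Set (E d)), MeasurableSet A → A ⊆ Metric.closedBall y (K₀ * R) →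
      (c₅ : ℝ≥0∞) * volume A / (R : ℝ≥0∞) ^ d ≤ μ {W | y + W τ ∈ A}) :
    P {ω | Nice μ (M.J (win k R L') ω) (fun i => M.y i ω) (2 * r) t₁ τ R c₂ a₀ Y₀ U δ k k' ∧
      Split (M.J (win k R L') ω)
        (bigU (M.J (win k R L') ω) (fun i => M.y i ω) r t₁ A R L k k')
        (fun i => M.y i ω) r t (δ * (R : ℝ) ^ d)} ≤
      2 ^ (⌊(U : ℝ) * (R : ℝ) ^ d⌋₊ / A) *
        (1 - (c₅ : ℝ≥0∞) * (ENNReal.ofReal (3 / 4 * δ) * c₂) ^ 2 / Y₀) ^
          ⌈3 / 4 * δ * (R : ℝ) ^ d⌉₊ := by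
  classical
  have hprob : IsProbabilityMeasure μ := h.isProb
  refine M.cond_N (win k R L') (Φ := fun J z =>
    Nice μ J z (2 * r) t₁ τ R c₂ a₀ Y₀ U δ k k' ∧
      Split J (bigU J z r t₁ A R L k k') z r t (δ * (R : ℝ) ^ d)) ?_ ?_ ?_
  · rintro J z z' hzz ⟨h1, h2⟩
    refine ⟨nice_congr hzz h1, ?_⟩
    have e : bigU J z' r t₁ A R L k k' = bigU J z r t₁ A R L k k' := by
      unfold bigU
      rw [bigF_congr hzz, bigF_congr hzz]
    rw [e]
    exact split_congr hzz h2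
  · intro J
    refine (measurableSet_nice μ J (2 * r) t₁ τ R c₂ a₀ Y₀ U δ k k').inter ?_
    exact measurableSet_block J r t₁ t A R L k k' (fun B₁ B₂ rel =>
      ∃ S ⊆ B₁ ∪ B₂, (∀ b ∈ S, ∀ b' ∈ (B₁ ∪ B₂) \ S, ¬ rel b b') ∧
        δ * (R : ℝ) ^ d ≤ (S.card : ℝ) ∧ δ * (R : ℝ) ^ d ≤ (((B₁ ∪ B₂) \ S).card : ℝ))
  · intro J
    by_cases hJ : (J.card : ℝ) ≤ U * (R : ℝ) ^ d
    · have h1 := union_J h J (r := r) ht hA (L := L) (k := k) (k' := k') (R := R)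
        (c₁ := (c₅ : ℝ≥0∞) * (ENNReal.ofReal (3 / 4 * δ) * c₂) ^ 2 / Y₀) (mm := δ * (R : ℝ) ^ d)
        (m := ⌈3 / 4 * δ * (R : ℝ) ^ d⌉₊)
        (fun z => Nice μ J z (2 * r) t₁ τ R c₂ a₀ Y₀ U δ k k')
        (measurableSet_nice μ J (2 * r) t₁ τ R c₂ a₀ Y₀ U δ k k')
        (fun z => nice_old) (fun z z' hzz hz => nice_congr hzz hz)
        (fun z hz S hS h2 h3 => nice_hit h hR hY₀ hδ hk hz hK hsm (bigU_subset _ _ _ _ _ _ _ _ _)
          (fun i hi => mem_win_of_mem_bigU hi) hS h2 h3)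
      refine h1.trans ?_
      gcongr
      · exact one_le_two
      · exact Nat.le_floor hJ
    · have h1 : {z : J → Mark d | Nice μ J (extM J z) (2 * r) t₁ τ R c₂ a₀ Y₀ U δ k k' ∧
          Split J (bigU J (extM J z) r t₁ A R L k k') (extM J z) r t (δ * (R : ℝ) ^ d)} = ∅ := by
        ext z
        constructor
        · intro hz
          exact absurd hz.1.card hJ
        · intro hz
          exact absurd hz (Set.notMem_empty z)
      rw [h1, measure_empty]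
      exact zero_le

end WSP
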