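import Mathlib

/-!
# Pieces UFIX, CLOSED: union bound for a fixed old configuration, number of closed sets

UFIX: union bound over `S ∈ 𝒮`; for fixed `S` the set is a product set, with measure
`∏ x ∈ B \ S, μ (hit x S)ᶜ ≤ (1 - c₁) ^ m` (`Measure.pi_pi`).

CLOSED: `rel` is an equivalence relation; a closed subset `S` of `B` is determined by the set of the classes
which meet `S`; every class meeting `B` has at least `A` elements in `J`, so at most `J.card / A` classes
meet `B`, and there are at most `2 ^ (J.card / A)` sets of such classes.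
-/

open MeasureTheory ProbabilityTheory
open scoped ENNReal

namespace WSP

open Classical in
/-- Piece UFIX. -/
theorem union_fix {F : Type*} [MeasurableSpace F] {μ : Measure F} [IsProbabilityMeasure μ]
    {ι : Type*} [Fintype ι] {hit : ι → Finset ι → Set F} (hm : ∀ x S, MeasurableSet (hit x S))
    (B : Finset ι) (𝒮 : Finset (Finset ι)) {c₁ : ℝ≥0∞} (m : ℕ)
    (hh : ∀ S ∈ 𝒮, m ≤ ((B \ S).filter fun x => c₁ ≤ μ (hit x S)).card) :
    Measure.pi (fun _ : ι => μ) {f | ∃ S ∈ 𝒮, ∀ x ∈ B \ S, f x ∉ hit x S} ≤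
      𝒮.card * (1 - c₁) ^ m := by
  have hsub : {f : ι → F | ∃ S ∈ 𝒮, ∀ x ∈ B \ S, f x ∉ hit x S} ⊆
      ⋃ S ∈ 𝒮, Set.pi Set.univ (fun x => if x ∈ B \ S then (hit x S)ᶜ else Set.univ) := by
    rintro f ⟨S, hS, hf⟩
    refine Set.mem_biUnion hS ?_
    rw [Set.mem_univ_pi]
    intro x
    by_cases hx : x ∈ B \ S
    · rw [if_pos hx]
      exact hf x hx
    · rw [if_neg hx]
      exact Set.mem_univ _
  refine (measure_mono hsub).trans ((measure_biUnion_finset_le _ _).trans ?_)
  have h1 : ∀ S ∈ 𝒮, Measure.pi (fun _ : ι => μ)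
      (Set.pi Set.univ (fun x => if x ∈ B \ S then (hit x S)ᶜ else Set.univ)) ≤ (1 - c₁) ^ m := by
    intro S hS
    rw [Measure.pi_pi]
    have h2 : ∀ x : ι, μ (if x ∈ B \ S then (hit x S)ᶜ else Set.univ) ≤
        if x ∈ (B \ S).filter (fun x => c₁ ≤ μ (hit x S)) then 1 - c₁ else 1 := by
      intro x
      by_cases hx : x ∈ (B \ S).filter (fun x => c₁ ≤ μ (hit x S))
      · rw [if_pos hx]
        rw [Finset.mem_filter] at hx
        rw [if_pos hx.1, prob_compl_eq_one_sub (hm x S)]
        exact tsub_le_tsub_left hx.2 1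
      · rw [if_neg hx]
        exact prob_le_one
    refine (Finset.prod_le_prod' fun x _ => h2 x).trans ?_
    rw [Finset.prod_ite, Finset.prod_const, Finset.prod_const_one, mul_one]
    have h3 : (Finset.univ.filter fun x =>
        x ∈ (B \ S).filter (fun x => c₁ ≤ μ (hit x S))) =
        (B \ S).filter (fun x => c₁ ≤ μ (hit x S)) := by
      ext x
      simp
    rw [h3]
    exact pow_le_pow_right_of_le_one' tsub_le_self (hh S hS)
  refine (Finset.sum_le_sum h1).trans ?_
  rw [Finset.sum_const, nsmul_eq_mul]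

open Classical in
/-- Piece CLOSED. -/
theorem card_closed_le {ι : Type*} {J B : Finset ι} (hB : B ⊆ J) {rel : ι → ι → Prop}
    (hrel : Equivalence rel) {A : ℕ} (hA : 0 < A) (hbig : ∀ b ∈ B, A ≤ (J.filter (rel b)).card) :
    (B.powerset.filter fun S => ∀ b ∈ S, ∀ b' ∈ B \ S, ¬ rel b b').card ≤ 2 ^ (J.card / A) := by
  set cl : ι → Finset ι := fun b => J.filter (rel b) with hcl
  set 𝒞 : Finset (Finset ι) := B.image cl with h𝒞
  have hcl_eq : ∀ b ∈ B, ∀ b', cl b = cl b' → rel b' b := by
    intro b hb b' h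
    have h1 : b ∈ cl b := Finset.mem_filter.2 ⟨hB hb, hrel.refl b⟩
    rw [h] at h1
    exact (Finset.mem_filter.1 h1).2
  have h1 : (B.powerset.filter fun S => ∀ b ∈ S, ∀ b' ∈ B \ S, ¬ rel b b').card ≤
      𝒞.powerset.card := by
    refine Finset.card_le_card_of_injOn (fun S => S.image cl) ?_ ?_
    · intro S hS
      rw [Finset.mem_coe, Finset.mem_filter, Finset.mem_powerset] at hS
      rw [Finset.mem_coe, Finset.mem_powerset]
      exact Finset.image_subset_image hS.1
    · have key : ∀ S S' : Finset ι, S ⊆ B → (∀ b ∈ S', ∀ b' ∈ B \ S', ¬ rel b b') →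
          S.image cl = S'.image cl → S ⊆ S' := by
        intro S S' hS hS' h b hb
        have h2 : cl b ∈ S'.image cl := by
          rw [← h]
          exact Finset.mem_image_of_mem cl hb
        obtain ⟨b', hb', h3⟩ := Finset.mem_image.1 h2
        by_contra hn
        exact hS' b' hb' b (Finset.mem_sdiff.2 ⟨hS hb, hn⟩) (hcl_eq b (hS hb) b' h3.symm)
      intro S hS S' hS' h
      rw [Finset.mem_coe, Finset.mem_filter, Finset.mem_powerset] at hS hS'
      exact Finset.Subset.antisymm (key S S' hS.1 hS'.2 h) (key S' S hS'.1 hS.2 h.symm)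
  refine h1.trans ?_
  rw [Finset.card_powerset]
  refine Nat.pow_le_pow_right (by norm_num) ?_
  rw [Nat.le_div_iff_mul_le hA]
  have h2 : (𝒞.biUnion id).card = ∑ c ∈ 𝒞, c.card := by
    refine Finset.card_biUnion ?_
    intro c hc c' hc' hne
    rw [h𝒞, Finset.mem_coe, Finset.mem_image] at hc hc'
    obtain ⟨b, hb, rfl⟩ := hc
    obtain ⟨b', hb', rfl⟩ := hc'
    rw [Function.onFun, id, id, Finset.disjoint_left]
    intro x hx hx'
    apply hne
    have e1 := (Finset.mem_filter.1 hx).2
    have e2 := (Finset.mem_filter.1 hx').2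
    ext y
    simp only [hcl, Finset.mem_filter]
    have e3 : rel b b' := hrel.trans e1 (hrel.symm e2)
    exact and_congr_right fun _ => ⟨fun h => hrel.trans (hrel.symm e3) h, fun h => hrel.trans e3 h⟩
  have h3 : (𝒞.biUnion id).card ≤ J.card := by
    refine Finset.card_le_card ?_
    intro x hx
    obtain ⟨c, hc, hxc⟩ := Finset.mem_biUnion.1 hx
    obtain ⟨b, hb, rfl⟩ := Finset.mem_image.1 hc
    exact (Finset.mem_filter.1 hxc).1
  have h4 : 𝒞.card * A ≤ ∑ c ∈ 𝒞, c.card := by
    rw [← smul_eq_mul]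
    refine Finset.card_nsmul_le_sum 𝒞 _ A ?_
    intro c hc
    obtain ⟨b, hb, rfl⟩ := Finset.mem_image.1 hc
    exact hbig b hb
  rw [← h2] at h4
  exact h4.trans h3

end WSP
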