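import Pool.Agent.Lib_MP_c175fd.Multi
import Pool.Agent.Lib_MP_c175fd.UnionFix
import Pool.Agent.Lib_MP_c175fd.DataM
import Pool.Agent.Lib_MP_c175fd.CondN

/-!
# Piece UNIONJ: union bound over splittings for a fixed set of present indices

The marks `z i = (x i, w i)`, `i ∈ J`, are independent. Suppose `Nc z` and `Split J B z r t mm`, `B = bigU J z ..`
(which only depends on the old part, `bigF_oldM`, `t₁ ≤ t`), and let `S` be the splitting set. Then `S` is
closed for the connection in `J` at time `t₁` (`adjI` at time `t₁` implies `adjI` at time `t`), and for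
`x ∈ B \ S` the fresh path `shift t₁ (w x)` started at `x x + w x t₁` does not hit any old path of `S`: if
`hitR (2 r) t₁ (τ + τ) (z s) (x x + w x t₁, shift t₁ (w x))` with `s ∈ S` then `hitR (2 r) t t (z s) (z x)`
(`Kset_split_right`, `Kset_mono`), so `s`, `x` are connected in `J` at time `t`, a contradiction.
By `IsWiener.pi_old_fresh` the old part `o` and the fresh paths `f` are independent and the fresh paths
have law `μ`, so the measure is at most
`∫ o, (pi μ) {f | ∃ S ∈ 𝒮 o, ∀ x ∈ B o \ S, f x ∉ hit x S}` over the `o` with `Nc o`, where `𝒮 o` is the set of the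
closed `S ⊆ B o` (time `t₁`) with `mm ≤ S.card`, `mm ≤ (B o \ S).card`, `hit x S` the set of the paths `W` such
that `∃ s ∈ S, hitR (2 r) t₁ (τ + τ) (o s) (x x + w x t₁, W)`. By `union_fix` (hypothesis `hhit` for `o`) and
`card_closed_le` (`card_cluster_of_mem_bigU`) the integrand is at most `2 ^ (J.card / A) * (1 - c₁) ^ m`.
Measurability: `measurableSet_block`, `measurableSet_of_finite_data`.
-/

open MeasureTheory ProbabilityTheory Filter Topology
open scoped ENNReal NNReal

namespace WSP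

variable {d : ℕ}

theorem unionj_stop_default (t : ℝ≥0) : stop t (default : Path d) = default := by
  ext s
  rfl

theorem unionj_extM_oldM (J : Finset (Idx d)) (t : ℝ≥0) (z : J → Mark d) :
    extM J (oldM t z) = oldM t (extM J z) := by
  funext i
  by_cases h : i ∈ J
  · simp [extM, oldM, h]
  · simp [extM, oldM, h, unionj_stop_default]

theorem unionj_extM_coe (J : Finset (Idx d)) (z : J → Mark d) (i : J) :
    extM J z (i : Idx d) = z i := by
  simp [extM]

theorem unionj_measurable_extM (J : Finset (Idx d)) :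
    Measurable (extM J : (J → Mark d) → Idx d → Mark d) := by
  refine measurable_pi_iff.mpr fun i => ?_
  by_cases h : i ∈ J
  · have h1 : (fun z : J → Mark d => extM J z i) = fun z : J → Mark d => z ⟨i, h⟩ := by
      funext z
      simp [extM, h]
    rw [h1]
    exact measurable_pi_apply _
  · have h1 : (fun z : J → Mark d => extM J z i) = fun _ : J → Mark d => (0, default) := by
      funext z
      simp [extM, h]
    rw [h1]
    exact measurable_const

theorem unionj_nohit {y : Idx d → Mark d} {J : Finset (Idx d)} {r : ℝ} {t₁ τ t : ℝ≥0}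
    (ht : t = t₁ + (τ + τ)) {i j : Idx d} (hi : i ∈ J) (hj : j ∈ J)
    (hh : hitR (2 * r) t₁ (τ + τ) (oldM t₁ y i)
      ((oldM t₁ y j).1 + (oldM t₁ y j).2 t₁, shift t₁ (y j).2)) :
    adjI (J : Set (Idx d)) y r t i j := by
  obtain ⟨u, hu, v, hv, hd⟩ := hh
  refine ⟨hi, hj, u, ?_, t₁ + v, ?_, ?_⟩
  · rw [ht]
    exact hu.trans (le_add_right le_rfl)
  · rw [ht]
    gcongr
  · simp only [oldM, stop_apply, shift_apply, min_eq_left hu, min_self] at hd
    have h1 : dist ((y i).2 u) ((y j).1 - (y i).1 + (y j).2 (t₁ + v)) =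
        dist ((y i).2 u) ((y j).1 + (y j).2 t₁ - (y i).1 + ((y j).2 (t₁ + v) - (y j).2 t₁)) := by
      rw [dist_eq_norm, dist_eq_norm]
      congr 1
      abel
    rw [h1]
    exact hd

theorem unionj_adj_mono {y : Idx d → Mark d} {J : Set (Idx d)} {r : ℝ} {t₁ t : ℝ≥0}
    (h : t₁ ≤ t) {i j : Idx d} (hij : adjI J (oldM t₁ y) r t₁ i j) : adjI J y r t i j := by
  refine ⟨hij.1, hij.2.1, ?_⟩
  obtain ⟨u, hu, v, hv, hd⟩ := hij.2.2
  refine ⟨u, hu.trans h, v, hv.trans h, ?_⟩
  simpa only [oldM, stop_apply, min_eq_left hu, min_eq_left hv] using hd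

theorem unionj_equiv (J : Set (Idx d)) (y : Idx d → Mark d) (r : ℝ) (t : ℝ≥0) :
    Equivalence (Relation.ReflTransGen (adjI J y r t)) where
  refl _ := Relation.ReflTransGen.refl
  symm := by
    intro a b h
    have : Std.Symm (adjI J y r t) := ⟨fun _ _ h => adjI_symm h⟩
    exact Relation.ReflTransGen.stdSymm.symm _ _ h
  trans := fun h h' => h.trans h'

theorem unionj_union_fix {F : Type*} [MeasurableSpace F] {μ : Measure F} [IsProbabilityMeasure μ]
    {ι : Type*} [Fintype ι] [inst : DecidableEq ι] {hit : ι → Finset ι → Set F}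
    (hm : ∀ x S, MeasurableSet (hit x S))
    (B : Finset ι) (𝒮 : Finset (Finset ι)) {c₁ : ℝ≥0∞} (m : ℕ)
    (hh : ∀ S ∈ 𝒮, m ≤ ((B \ S).filter fun x => c₁ ≤ μ (hit x S)).card) :
    Measure.pi (fun _ : ι => μ) {f | ∃ S ∈ 𝒮, ∀ x ∈ B \ S, f x ∉ hit x S} ≤
      𝒮.card * (1 - c₁) ^ m := by
  obtain rfl : inst = (fun a b => Classical.propDecidable (a = b)) := Subsingleton.elim _ _
  exact union_fix hm B 𝒮 m hh

open Classical in
theorem unionj_card_closed {ι : Type*} [inst : DecidableEq ι] {J B : Finset ι} (hB : B ⊆ J)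
    {rel : ι → ι → Prop} (hrel : Equivalence rel) {A : ℕ} (hA : 0 < A)
    (hbig : ∀ b ∈ B, A ≤ (J.filter (rel b)).card) (𝒮 : Finset (Finset ι))
    (h𝒮 : ∀ S ∈ 𝒮, S ⊆ B ∧ ∀ b ∈ S, ∀ b' ∈ B \ S, ¬ rel b b') :
    𝒮.card ≤ 2 ^ (J.card / A) := by
  obtain rfl : inst = (fun a b => Classical.propDecidable (a = b)) := Subsingleton.elim _ _
  refine le_trans (Finset.card_le_card ?_) (card_closed_le hB hrel hA hbig)
  intro S hS
  obtain ⟨h1, h2⟩ := h𝒮 S hS
  rw [Finset.mem_filter, Finset.mem_powerset]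
  exact ⟨h1, h2⟩

open Classical in
/-- The splitting sets, as sets of elements of `J`. -/
noncomputable def unionjS (J : Finset (Idx d)) (mm : ℝ) (F F' : Finset (Idx d))
    (Rl : Idx d → Idx d → Prop) : Finset (Finset J) :=
  ((F ∪ F').subtype (· ∈ J)).powerset.filter fun S =>
    (∀ b ∈ S, ∀ b' ∈ (F ∪ F').subtype (· ∈ J) \ S, ¬ Rl b b') ∧ mm ≤ (S.card : ℝ) ∧
      mm ≤ ((((F ∪ F').subtype (· ∈ J)) \ S).card : ℝ)

open Classical in
theorem mem_unionjS {J : Finset (Idx d)} {mm : ℝ} {F F' : Finset (Idx d)}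
    {Rl : Idx d → Idx d → Prop} {S : Finset J} : S ∈ unionjS J mm F F' Rl ↔
      S ⊆ (F ∪ F').subtype (· ∈ J) ∧
      (∀ b ∈ S, ∀ b' ∈ (F ∪ F').subtype (· ∈ J) \ S, ¬ Rl b b') ∧ mm ≤ (S.card : ℝ) ∧
      mm ≤ ((((F ∪ F').subtype (· ∈ J)) \ S).card : ℝ) := by
  rw [unionjS, Finset.mem_filter, Finset.mem_powerset]

/-- The number of elements of a subset of `J`. -/
theorem unionj_map_subtype {J B : Finset (Idx d)} (hB : B ⊆ J) :
    (B.subtype (· ∈ J)).map (Function.Embedding.subtype _) = B :=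
  Finset.subtype_map_of_mem fun _ hx => hB hx

open Classical in
theorem unionj_sdiff {J B : Finset (Idx d)} (hB : B ⊆ J) (S : Finset J) :
    ((B.subtype (· ∈ J)) \ S).map (Function.Embedding.subtype _) =
      B \ S.map (Function.Embedding.subtype _) := by
  ext i
  simp only [Finset.mem_map, Finset.mem_sdiff, Finset.mem_subtype,
    Function.Embedding.coe_subtype]
  constructor
  · rintro ⟨a, ⟨h1, h2⟩, rfl⟩
    refine ⟨h1, ?_⟩
    rintro ⟨b, hb, hba⟩
    exact h2 (Subtype.ext hba ▸ hb)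
  · rintro ⟨h1, h2⟩
    exact ⟨⟨i, hB h1⟩, ⟨h1, fun h3 => h2 ⟨_, h3, rfl⟩⟩, rfl⟩

/-- The fresh paths hitting the old paths of `S`. -/
def unionjH (J : Finset (Idx d)) (r : ℝ) (t₁ τ : ℝ≥0) (o : J → Mark d) (x : J) (S : Finset J) :
    Set (Path d) :=
  {W | ∃ s ∈ S, hitR (2 * r) t₁ (τ + τ) (o s) ((o x).1 + (o x).2 t₁, W)}

theorem unionj_measurable_point (J : Finset (Idx d)) (t₁ : ℝ≥0) (x : J) :
    Measurable fun p : (J → Mark d) × (J → Path d) => ((p.1 x).1 + (p.1 x).2 t₁, p.2 x) := by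
  have h1 : Measurable fun p : (J → Mark d) × (J → Path d) => p.1 x :=
    (measurable_pi_apply x).comp measurable_fst
  have h2 : Measurable fun p : (J → Mark d) × (J → Path d) => p.2 x :=
    (measurable_pi_apply x).comp measurable_snd
  exact ((measurable_fst.comp h1).add ((measurable_eval t₁).comp (measurable_snd.comp h1))).prodMk h2

theorem unionj_measurableSet_H (J : Finset (Idx d)) (r : ℝ) (t₁ τ : ℝ≥0) (x : J) (S : Finset J) :
    MeasurableSet {p : (J → Mark d) × (J → Path d) | p.2 x ∈ unionjH J r t₁ τ p.1 x S} := by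
  have h : {p : (J → Mark d) × (J → Path d) | p.2 x ∈ unionjH J r t₁ τ p.1 x S} =
      ⋃ s ∈ S, {p : (J → Mark d) × (J → Path d) |
        hitR (2 * r) t₁ (τ + τ) (p.1 s) ((p.1 x).1 + (p.1 x).2 t₁, p.2 x)} := by
    ext p
    simp only [unionjH, Set.mem_ofPred_eq, Set.mem_iUnion, exists_prop]
  rw [h]
  refine Finset.measurableSet_biUnion _ fun s _ => ?_
  have hm : Measurable fun p : (J → Mark d) × (J → Path d) =>
      (p.1 s, ((p.1 x).1 + (p.1 x).2 t₁, p.2 x)) :=
    ((measurable_pi_apply s).comp measurable_fst).prodMk (unionj_measurable_point J t₁ x)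
  exact hm (measurableSet_hitR (d := d) (2 * r) t₁ (τ + τ))

theorem unionj_measurableSet_H' (J : Finset (Idx d)) (r : ℝ) (t₁ τ : ℝ≥0) (o : J → Mark d) (x : J)
    (S : Finset J) : MeasurableSet (unionjH J r t₁ τ o x S) := by
  have h : unionjH J r t₁ τ o x S = ⋃ s ∈ S, {W : Path d |
        hitR (2 * r) t₁ (τ + τ) (o s) ((o x).1 + (o x).2 t₁, W)} := by
    ext p
    simp only [unionjH, Set.mem_ofPred_eq, Set.mem_iUnion, exists_prop]
  rw [h]
  refine Finset.measurableSet_biUnion _ fun s _ => ?_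
  have hm : Measurable fun W : Path d => (o s, ((o x).1 + (o x).2 t₁, W)) :=
    measurable_const.prodMk (measurable_const.prodMk measurable_id)
  exact hm (measurableSet_hitR (d := d) (2 * r) t₁ (τ + τ))

open Classical in
/-- The event for the pair (old part, fresh paths). -/
def unionjG (J : Finset (Idx d)) (r : ℝ) (t₁ τ : ℝ≥0) (A R L : ℕ) (k k' : Fin d → ℤ) (mm : ℝ)
    (Nc : (Idx d → Mark d) → Prop) : Set ((J → Mark d) × (J → Path d)) :=
  {p | Nc (extM J p.1) ∧ ∃ S ∈ unionjS J mm (bigF J (extM J p.1) r t₁ A R L k)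
      (bigF J (extM J p.1) r t₁ A R L k')
      (Relation.ReflTransGen (adjI (J : Set (Idx d)) (extM J p.1) r t₁)),
    ∀ x ∈ (bigU J (extM J p.1) r t₁ A R L k k').subtype (· ∈ J) \ S,
      p.2 x ∉ unionjH J r t₁ τ p.1 x S}

open Classical in
theorem unionj_measurableSet_G (J : Finset (Idx d)) (r : ℝ) (t₁ τ : ℝ≥0) (A R L : ℕ)
    (k k' : Fin d → ℤ) (mm : ℝ) (Nc : (Idx d → Mark d) → Prop)
    (hNm : MeasurableSet {z | Nc z}) :
    MeasurableSet (unionjG J r t₁ τ A R L k k' mm Nc) := by
  have hm : Measurable fun p : (J → Mark d) × (J → Path d) => extM J p.1 :=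
    (unionj_measurable_extM J).comp measurable_fst
  have h : unionjG J r t₁ τ A R L k k' mm Nc =
      {p | Nc (extM J p.1)} ∩ ⋃ S : Finset J,
        ({p | S ∈ unionjS J mm (bigF J (extM J p.1) r t₁ A R L k)
          (bigF J (extM J p.1) r t₁ A R L k')
          (Relation.ReflTransGen (adjI (J : Set (Idx d)) (extM J p.1) r t₁))} ∩
        ⋂ x : J, ({p | x ∈ (bigU J (extM J p.1) r t₁ A R L k k').subtype (· ∈ J) \ S}ᶜ ∪
          {p | p.2 x ∈ unionjH J r t₁ τ p.1 x S}ᶜ)) := by
    ext p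
    simp only [unionjG, Set.mem_ofPred_eq, Set.mem_inter_iff, Set.mem_iUnion, Set.mem_iInter,
      Set.mem_union, Set.mem_compl_iff]
    refine and_congr_right fun _ => exists_congr fun S => and_congr_right fun _ =>
      forall_congr' fun x => ?_
    exact imp_iff_not_or
  rw [h]
  refine (hm hNm).inter (MeasurableSet.iUnion fun S => MeasurableSet.inter ?_
    (MeasurableSet.iInter fun x => MeasurableSet.union (MeasurableSet.compl ?_)
      (unionj_measurableSet_H J r t₁ τ x S).compl))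
  · exact hm (measurableSet_block J r t₁ t₁ A R L k k' fun F F' Rl => S ∈ unionjS J mm F F' Rl)
  · exact hm (measurableSet_block J r t₁ t₁ A R L k k' fun F F' _ =>
      x ∈ (F ∪ F').subtype (· ∈ J) \ S)

open Classical in
/-- The deterministic inclusion. -/
theorem unionj_mem_G (J : Finset (Idx d)) {r : ℝ}
    {t₁ τ t : ℝ≥0} (ht : t = t₁ + (τ + τ)) {A R L : ℕ} {k k' : Fin d → ℤ}
    {mm : ℝ} (Nc : (Idx d → Mark d) → Prop)
    (hNold : ∀ z, Nc (oldM t₁ z) ↔ Nc z) {z : J → Mark d} (hz : Nc (extM J z))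
    (hs : Split J (bigU J (extM J z) r t₁ A R L k k') (extM J z) r t mm) :
    (oldM t₁ z, fun i => shift t₁ (z i).2) ∈ unionjG J r t₁ τ A R L k k' mm Nc := by
  have hle : t₁ ≤ t := by
    rw [ht]
    exact le_add_right le_rfl
  have hUold : bigU J (oldM t₁ (extM J z)) r t₁ A R L k k' = bigU J (extM J z) r t₁ A R L k k' := by
    rw [bigU, bigU, bigF_oldM, bigF_oldM]
  obtain ⟨S, hSB, hcl, hm1, hm2⟩ := hs
  have hBJ := bigU_subset J (extM J z) r t₁ A R L k k'
  set B := bigU J (extM J z) r t₁ A R L k k' with hBdef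
  refine ⟨?_, S.subtype (· ∈ J), ?_, ?_⟩
  · change Nc (extM J (oldM t₁ z))
    rw [unionj_extM_oldM, hNold]
    exact hz
  · have hBeq : bigF J (extM J (oldM t₁ z)) r t₁ A R L k ∪ bigF J (extM J (oldM t₁ z)) r t₁ A R L k'
        = B := by
      rw [unionj_extM_oldM]
      exact hUold
    rw [mem_unionjS]
    change _ ⊆ (bigF J (extM J (oldM t₁ z)) r t₁ A R L k ∪
      bigF J (extM J (oldM t₁ z)) r t₁ A R L k').subtype (· ∈ J) ∧ _
    rw [hBeq]
    have hSmap := unionj_map_subtype (hSB.trans hBJ)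
    have hdiff := unionj_sdiff hBJ (S.subtype (· ∈ J))
    rw [hSmap] at hdiff
    refine ⟨?_, ?_, ?_, ?_⟩
    · intro x hx
      rw [Finset.mem_subtype] at hx ⊢
      exact hSB hx
    · intro b hb b' hb' hrel
      rw [Finset.mem_subtype] at hb
      rw [Finset.mem_sdiff, Finset.mem_subtype, Finset.mem_subtype] at hb'
      refine hcl b hb b' (Finset.mem_sdiff.2 hb') ?_
      change Relation.ReflTransGen (adjI (J : Set (Idx d)) (extM J (oldM t₁ z)) r t₁) b b' at hrel
      rw [unionj_extM_oldM] at hrel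
      exact Relation.ReflTransGen.mono (fun _ _ h => unionj_adj_mono hle h) _ _ hrel
    · rw [← Finset.card_map (Function.Embedding.subtype _), hSmap]
      exact hm1
    · rw [← Finset.card_map (Function.Embedding.subtype _), hdiff]
      exact hm2
  · intro x hx hW
    change x ∈ (bigU J (extM J (oldM t₁ z)) r t₁ A R L k k').subtype (· ∈ J) \
      S.subtype (· ∈ J) at hx
    rw [unionj_extM_oldM, hUold, Finset.mem_sdiff, Finset.mem_subtype, Finset.mem_subtype] at hx
    obtain ⟨s, hs, hh⟩ := hW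
    rw [Finset.mem_subtype] at hs
    refine hcl s hs x (Finset.mem_sdiff.2 hx) (Relation.ReflTransGen.single ?_)
    refine unionj_nohit ht s.2 x.2 ?_
    have h1 : oldM t₁ (extM J z) (s : Idx d) = oldM t₁ z s := by
      simp only [oldM, unionj_extM_coe]
    have h2 : oldM t₁ (extM J z) (x : Idx d) = oldM t₁ z x := by
      simp only [oldM, unionj_extM_coe]
    rw [h1, h2, unionj_extM_coe]
    exact hh

open Classical in
/-- The union bound for a fixed old part. -/
theorem unionj_section {μ : Measure (Path d)} [IsProbabilityMeasure μ] (J : Finset (Idx d))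
    {r : ℝ} {t₁ τ : ℝ≥0} {A R L : ℕ} (hA : 0 < A) {k k' : Fin d → ℤ}
    {c₁ : ℝ≥0∞} {mm : ℝ} {m : ℕ} (Nc : (Idx d → Mark d) → Prop)
    (hhit : ∀ z, Nc z → ∀ S ⊆ bigU J z r t₁ A R L k k', mm ≤ S.card →
      mm ≤ (bigU J z r t₁ A R L k k' \ S).card →
      m ≤ ((bigU J z r t₁ A R L k k' \ S).filter fun x =>
        c₁ ≤ μ {W | ∃ s ∈ S, hitR (2 * r) t₁ (τ + τ) (z s) ((z x).1 + (z x).2 t₁, W)}).card)
    (o : J → Mark d) :
    Measure.pi (fun _ : J => μ) (Prod.mk o ⁻¹' unionjG J r t₁ τ A R L k k' mm Nc) ≤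
      2 ^ (J.card / A) * (1 - c₁) ^ m := by
  by_cases hN : Nc (extM J o)
  swap
  · have h0 : Prod.mk o ⁻¹' unionjG J r t₁ τ A R L k k' mm Nc = ∅ := by
      ext f
      simp only [Set.mem_preimage, unionjG, Set.mem_ofPred_eq, Set.mem_empty_iff_false, iff_false]
      exact fun hf => hN hf.1
    rw [h0, measure_empty]
    exact zero_le
  have hBJ := bigU_subset J (extM J o) r t₁ A R L k k'
  set B := bigU J (extM J o) r t₁ A R L k k' with hBdef
  set 𝒮 := unionjS J mm (bigF J (extM J o) r t₁ A R L k) (bigF J (extM J o) r t₁ A R L k')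
      (Relation.ReflTransGen (adjI (J : Set (Idx d)) (extM J o) r t₁)) with h𝒮
  have h1 : Prod.mk o ⁻¹' unionjG J r t₁ τ A R L k k' mm Nc ⊆
      {f | ∃ S ∈ 𝒮, ∀ x ∈ B.subtype (· ∈ J) \ S, f x ∉ unionjH J r t₁ τ o x S} :=
    fun f hf => hf.2
  have hcard : 𝒮.card ≤ 2 ^ (J.card / A) := by
    have h2 := unionj_card_closed (J := (Finset.univ : Finset J)) (B := B.subtype (· ∈ J))
      (rel := fun a b : J => Relation.ReflTransGen (adjI (J : Set (Idx d)) (extM J o) r t₁) a b)
      (Finset.subset_univ _)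
      ⟨fun a => (unionj_equiv (J : Set (Idx d)) (extM J o) r t₁).refl a,
        fun {a b} hab => (unionj_equiv (J : Set (Idx d)) (extM J o) r t₁).symm hab,
        fun {a b c} hab hbc => (unionj_equiv (J : Set (Idx d)) (extM J o) r t₁).trans hab hbc⟩
      hA ?_ 𝒮 ?_
    · rwa [Finset.card_univ, Fintype.card_coe] at h2
    · intro b hb
      rw [Finset.mem_subtype] at hb
      have h3 := card_cluster_of_mem_bigU hb
      have h4 : (J.filter fun j => Relation.ReflTransGen
          (adjI (J : Set (Idx d)) (extM J o) r t₁) b j) =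
          ((Finset.univ : Finset J).filter fun j : J => Relation.ReflTransGen
          (adjI (J : Set (Idx d)) (extM J o) r t₁) b j).map (Function.Embedding.subtype _) := by
        ext i
        simp only [Finset.mem_filter, Finset.mem_map, Finset.mem_univ, true_and,
          Function.Embedding.coe_subtype]
        constructor
        · rintro ⟨h5, h6⟩
          exact ⟨⟨i, h5⟩, h6, rfl⟩
        · rintro ⟨a, h5, rfl⟩
          exact ⟨a.2, h5⟩
      rw [h4, Finset.card_map] at h3
      exact h3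
    · intro S hS
      rw [h𝒮, mem_unionjS] at hS
      exact ⟨hS.1, hS.2.1⟩
  calc Measure.pi (fun _ : J => μ) (Prod.mk o ⁻¹' unionjG J r t₁ τ A R L k k' mm Nc)
      ≤ Measure.pi (fun _ : J => μ)
        {f | ∃ S ∈ 𝒮, ∀ x ∈ B.subtype (· ∈ J) \ S, f x ∉ unionjH J r t₁ τ o x S} :=
        measure_mono h1
    _ ≤ 𝒮.card * (1 - c₁) ^ m := by
        refine unionj_union_fix (fun x S => unionj_measurableSet_H' J r t₁ τ o x S) _ 𝒮 m ?_
        intro S hS
        rw [h𝒮, mem_unionjS] at hS
        obtain ⟨hS1, -, hS3, hS4⟩ := hS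
        have hd := unionj_sdiff hBJ S
        have h5 := hhit (extM J o) hN (S.map (Function.Embedding.subtype _)) ?_ ?_ ?_
        · rw [← hBdef, ← hd, Finset.filter_map, Finset.card_map] at h5
          refine h5.trans (Finset.card_le_card ?_)
          intro x hx
          rw [Finset.mem_filter] at hx ⊢
          refine ⟨hx.1, ?_⟩
          have h6 := hx.2
          have h7 : {W : Path d | ∃ s ∈ S.map (Function.Embedding.subtype (· ∈ J)),
              hitR (2 * r) t₁ (τ + τ) (extM J o s)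
                ((extM J o (x : Idx d)).1 + (extM J o (x : Idx d)).2 t₁, W)} =
              unionjH J r t₁ τ o x S := by
            ext W
            simp only [unionjH, Set.mem_ofPred_eq, Finset.mem_map,
              Function.Embedding.coe_subtype, unionj_extM_coe]
            constructor
            · rintro ⟨_, ⟨a, ha, rfl⟩, h8⟩
              rw [unionj_extM_coe] at h8
              exact ⟨a, ha, h8⟩
            · rintro ⟨a, ha, h8⟩
              exact ⟨a, ⟨a, ha, rfl⟩, by rw [unionj_extM_coe]; exact h8⟩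
          rw [← h7]
          exact h6
        · intro i hi
          rw [Finset.mem_map] at hi
          obtain ⟨a, ha, rfl⟩ := hi
          have h8 := hS1 ha
          rw [Finset.mem_subtype] at h8
          exact h8
        · rw [Finset.card_map]
          exact hS3
        · rw [← hBdef, ← hd, Finset.card_map]
          exact hS4
    _ ≤ 2 ^ (J.card / A) * (1 - c₁) ^ m := by
        gcongr
        exact_mod_cast hcard

open Classical in
theorem union_J {μ : Measure (Path d)} (h : IsWiener μ) (J : Finset (Idx d)) {r : ℝ}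
    {t₁ τ t : ℝ≥0} (ht : t = t₁ + (τ + τ)) {A R L : ℕ} (hA : 0 < A) {k k' : Fin d → ℤ}
    {c₁ : ℝ≥0∞} {mm : ℝ} {m : ℕ} (Nc : (Idx d → Mark d) → Prop) (hNm : MeasurableSet {z | Nc z})
    (hNold : ∀ z, Nc (oldM t₁ z) ↔ Nc z)
    (hNloc : ∀ z z', (∀ i ∈ J, z i = z' i) → Nc z → Nc z')
    (hhit : ∀ z, Nc z → ∀ S ⊆ bigU J z r t₁ A R L k k', mm ≤ S.card →
      mm ≤ (bigU J z r t₁ A R L k k' \ S).card →
      m ≤ ((bigU J z r t₁ A R L k k' \ S).filter fun x =>
        c₁ ≤ μ {W | ∃ s ∈ S, hitR (2 * r) t₁ (τ + τ) (z s) ((z x).1 + (z x).2 t₁, W)}).card) :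
    Measure.pi (fun i : J => ((volume : Measure (E d)).restrict (cube (i : Idx d).1)).prod μ)
      {z | Nc (extM J z) ∧ Split J (bigU J (extM J z) r t₁ A R L k k') (extM J z) r t mm} ≤
      2 ^ (J.card / A) * (1 - c₁) ^ m := by
  have := h.isProb
  have hpr : ∀ i : J, IsProbabilityMeasure
      ((volume : Measure (E d)).restrict (cube (i : Idx d).1)) := fun i =>
    ⟨by rw [Measure.restrict_apply_univ]; exact PM.volume_cube _⟩
  have hold : Measurable (oldM t₁ : (J → Mark d) → J → Mark d) := measurable_oldM t₁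
  have hPhi : Measurable fun z : J → Mark d => (oldM t₁ z, fun i => shift t₁ (z i).2) := by
    refine hold.prodMk (measurable_pi_iff.mpr fun i => ?_)
    exact (measurable_shift t₁).comp (measurable_snd.comp (measurable_pi_apply i))
  have hG := unionj_measurableSet_G J r t₁ τ A R L k k' mm Nc hNm
  set PJ := Measure.pi (fun i : J =>
    ((volume : Measure (E d)).restrict (cube (i : Idx d).1)).prod μ) with hPJ
  have : IsProbabilityMeasure PJ := by
    rw [hPJ]
    infer_instance
  have : IsProbabilityMeasure (PJ.map (oldM t₁)) :=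
    Measure.isProbabilityMeasure_map hold.aemeasurable
  calc PJ {z | Nc (extM J z) ∧ Split J (bigU J (extM J z) r t₁ A R L k k') (extM J z) r t mm}
      ≤ PJ ((fun z : J → Mark d => (oldM t₁ z, fun i => shift t₁ (z i).2)) ⁻¹'
          unionjG J r t₁ τ A R L k k' mm Nc) :=
        measure_mono fun z hz => unionj_mem_G J ht Nc hNold hz.1 hz.2
    _ = (PJ.map fun z : J → Mark d => (oldM t₁ z, fun i => shift t₁ (z i).2))
          (unionjG J r t₁ τ A R L k k' mm Nc) := (Measure.map_apply hPhi hG).symm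
    _ = ((PJ.map (oldM t₁)).prod (Measure.pi fun _ : J => μ))
          (unionjG J r t₁ τ A R L k k' mm Nc) := by
        rw [hPJ, h.pi_old_fresh]
    _ = ∫⁻ o, (Measure.pi fun _ : J => μ) (Prod.mk o ⁻¹' unionjG J r t₁ τ A R L k k' mm Nc)
          ∂(PJ.map (oldM t₁)) := Measure.prod_apply hG
    _ ≤ ∫⁻ _, 2 ^ (J.card / A) * (1 - c₁) ^ m ∂(PJ.map (oldM t₁)) :=
        lintegral_mono fun o => unionj_section J hA Nc hhit o
    _ = 2 ^ (J.card / A) * (1 - c₁) ^ m := by
        rw [lintegral_const, measure_univ, mul_one]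

end WSP
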