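import Pool.Agent.Lib_MP_c175fd.Kbb
import Pool.Agent.Lib_MP_c175fd.MarkovK

/-!
# Pieces UPA, UPB, UPC: upper bound of `EV 1 n n` in dimension four

UPA (`up_core`). `n^2 |B| = ∫ z, LT n n w w' z` (`lintegral_LT`)
`≥ ∑_k ∫_{Fb n k} LT (n-1-k) n (shift (k+1) w) w' (z - w (k+1)) dz` (`LT_split` at time `k + 1`; the sets `Fb n k`,
`k < n`, are disjoint); take means and use the Markov property `lintegral_future` at `a = k + 1`
(`Fb_stop`), then restrict to the `z` with `lam ≤ Phi`.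

UPB (`up_bad`). If `z ∈ Fb n k` then `z ∈ Kbb k j` for some `j < n` (`Kb_eq_iUnion`). If moreover
`s ≤ j`, `j + s ≤ n`, `rg 1 (shift k w) ≤ (ϖ-1)/3`, `rg 1 (shift j w') ≤ (ϖ-1)/3`, and `j` is good, i.e.
`lam ≤ cB (Hl ϖ s (shift j w') + Hl ϖ s (rev j w'))`, then `‖z - w (k+1) + w' j‖ ≤ ϖ`
(`norm_le_of_mem_Kbb`) and `lam ≤ Phi s n w' (..) ≤ Phi (n-1-k) n w' (..)` (`Phi_ge`; `Phi` is monotone in the
first time, `s ≤ n-1-k`). So the bad set is contained in the union of the `Kbb k j` for which one of the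
conditions fails: at most `2 s + 2` indices `j` violate the first two; for the other conditions use
`E (volume (Kbb k j) ; event) ≤ (EV2 1 1 1)^(1/2) (probability)^(1/2)` (`volume_Kbb`, `map_shift`).

UPC. With `s = n^(1-ε)`, `ϖ = log n`, `lam = cB ofReal ((1-3ε) log n)`, `p = C (log n)^(-4)` (`goodj`,
`rg_tail` with exponent 4): `EV n n = ∑_k E|Fb n k|`, hence
`lam EV ≤ n^2 |B| + lam (∑_{k ≤ n-1-s} bad_k + ∑_{k > n-1-s} E|Kb n k|)` and
`bad ≤ C n^(2-ε) + C n^2 (log n)^(-2)`. `|B| / cB = 2 π^2`.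
-/

open MeasureTheory ProbabilityTheory Filter Topology
open scoped ENNReal NNReal

namespace WSP

variable {d : ℕ}

theorem measurableSet_Fb_z (n k : ℕ) (w w' : Path d) : MeasurableSet (Fb n k w w') :=
  (measurableSet_Fb n k).preimage (f := fun z : E d => (z, w, w')) (by fun_prop)

theorem Fb_disjoint (n : ℕ) (w w' : Path d) (s : Set ℕ) :
    s.PairwiseDisjoint (fun k => Fb n k w w') := by
  have key : ∀ a b : ℕ, a < b → Disjoint (Fb n a w w') (Fb n b w w') := by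
    intro a b hab
    rw [Set.disjoint_left]
    intro z hz hz'
    exact hz'.2 (Set.mem_iUnion₂.2 ⟨a, hab, hz.1⟩)
  intro a _ b _ hab
  rcases lt_or_gt_of_ne hab with h | h
  · exact key a b h
  · exact (key b a h).symm

theorem sum_lintegral_le {α ι : Type*} [MeasurableSpace α] {μ : Measure α} (s : Finset ι)
    (f : ι → α → ℝ≥0∞) : ∑ i ∈ s, ∫⁻ a, f i a ∂μ ≤ ∫⁻ a, ∑ i ∈ s, f i a ∂μ := by
  classical
  induction s using Finset.induction_on with
  | empty => simp
  | insert i s hi ih =>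
    simp only [Finset.sum_insert hi]
    exact (add_le_add le_rfl ih).trans (le_lintegral_add _ _)

/-- the first blocks exhaust the hitting set -/
theorem biUnion_Fb {n : ℕ} (hn : 0 < n) (w w' : Path d) :
    ⋃ k ∈ Finset.range n, Fb n k w w' = Kset 1 n n w w' := by
  classical
  have h1 : Kset 1 (n : ℝ≥0) n w w' = ⋃ (k : ℕ) (_ : k < n), Kb n k w w' := by
    have h2 := Kset_blocks 1 n 1 1 (n : ℝ≥0) hn Nat.one_pos w w'
    simp only [mul_one, Nat.cast_one, one_mul] at h2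
    rw [h2]
    refine Set.iUnion_congr fun k => Set.iUnion_congr fun hk => ?_
    ext z
    simp only [Set.mem_iUnion, Set.mem_ofPred_eq, exists_prop, Kb]
    constructor
    · rintro ⟨j, hj, h⟩
      obtain rfl : j = 0 := by omega
      have h3 : shift 0 w' = w' := by ext s; simp
      simpa [h3] using h
    · intro h
      refine ⟨0, Nat.one_pos, ?_⟩
      have h3 : shift 0 w' = w' := by ext s; simp
      simpa [h3] using h
  rw [h1]
  ext z
  simp only [Set.mem_iUnion, Finset.mem_range, exists_prop]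
  constructor
  · rintro ⟨k, hk, hz⟩
    exact ⟨k, hk, hz.1⟩
  · rintro ⟨k, hk, hz⟩
    have hex : ∃ k, z ∈ Kb n k w w' := ⟨k, hz⟩
    refine ⟨Nat.find hex, lt_of_le_of_lt (Nat.find_min' hex hz) hk, Nat.find_spec hex, ?_⟩
    simp only [Set.mem_iUnion, exists_prop, not_exists, not_and]
    exact fun l hl => Nat.find_min hex hl

/-- Piece UPA. -/
theorem IsWiener.up_core {μ : Measure (Path d)} (h : IsWiener μ) {n : ℕ} (hn : 0 < n)
    (lam : ℝ≥0∞) :
    lam * ∑ k ∈ Finset.range n, ∫⁻ w, ∫⁻ w', volume (Fb n k w w' ∩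
      {z | lam ≤ Phi μ ((n - 1 - k : ℕ) : ℝ≥0) n w' (z - w (k + 1))}) ∂μ ∂μ ≤
    (n : ℝ≥0∞) ^ 2 * volume (Metric.ball (0 : E d) 1) := by
  have := h.isProb
  have step1 : ∀ k : ℕ, lam * ∫⁻ w, ∫⁻ w', volume (Fb n k w w' ∩
      {z | lam ≤ Phi μ ((n - 1 - k : ℕ) : ℝ≥0) n w' (z - w (k + 1))}) ∂μ ∂μ ≤
      ∫⁻ w, ∫⁻ w', (∫⁻ z in Fb n k w w',
        Phi μ ((n - 1 - k : ℕ) : ℝ≥0) n w' (z - w (k + 1))) ∂μ ∂μ := by
    intro k
    refine (lintegral_const_mul_le _ _).trans (lintegral_mono fun w => ?_)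
    refine (lintegral_const_mul_le _ _).trans (lintegral_mono fun w' => ?_)
    have hm : Measurable fun z : E d => Phi μ ((n - 1 - k : ℕ) : ℝ≥0) n w' (z - w (k + 1)) :=
      (measurable_Phi (μ := μ) ((n - 1 - k : ℕ) : ℝ≥0) n).comp
        (f := fun z : E d => (w', z - w (k + 1))) (by fun_prop)
    have h1 := mul_meas_ge_le_lintegral (μ := volume.restrict (Fb n k w w')) hm lam
    rw [Measure.restrict_apply (measurableSet_le measurable_const hm), Set.inter_comm] at h1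
    exact h1
  have step2 : ∀ k ∈ Finset.range n, ∫⁻ w, ∫⁻ w', (∫⁻ z in Fb n k w w',
        Phi μ ((n - 1 - k : ℕ) : ℝ≥0) n w' (z - w (k + 1))) ∂μ ∂μ ≤
      ∫⁻ w, ∫⁻ w', (∫⁻ z in Fb n k w w', LT n n w w' z) ∂μ ∂μ := by
    intro k hk
    have hkn : k < n := Finset.mem_range.1 hk
    have h1 := h.lintegral_future (k + 1 : ℝ≥0) ((n - 1 - k : ℕ) : ℝ≥0) n (measurableSet_Fb n k)
    have h2 : ∀ w w' : Path d, {z | (z, stop (k + 1 : ℝ≥0) w, w') ∈
        {p : E d × Path d × Path d | p.1 ∈ Fb n k p.2.1 p.2.2}} = Fb n k w w' := by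
      intro w w'
      ext z
      simp only [Set.mem_ofPred_eq]
      rw [Fb_stop]
    simp only [h2] at h1
    rw [← h1]
    refine lintegral_mono fun w => lintegral_mono fun w' => ?_
    refine lintegral_mono fun z => ?_
    have h3 : (n : ℝ≥0) = (k + 1 : ℝ≥0) + ((n - 1 - k : ℕ) : ℝ≥0) := by
      have : n = (k + 1) + (n - 1 - k) := by omega
      exact_mod_cast this
    have h4 := LT_split (k + 1 : ℝ≥0) ((n - 1 - k : ℕ) : ℝ≥0) (n : ℝ≥0) w w' z
    rw [← h3] at h4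
    rw [h4]
    exact le_add_left le_rfl
  calc lam * ∑ k ∈ Finset.range n, ∫⁻ w, ∫⁻ w', volume (Fb n k w w' ∩
      {z | lam ≤ Phi μ ((n - 1 - k : ℕ) : ℝ≥0) n w' (z - w (k + 1))}) ∂μ ∂μ
      = ∑ k ∈ Finset.range n, lam * ∫⁻ w, ∫⁻ w', volume (Fb n k w w' ∩
      {z | lam ≤ Phi μ ((n - 1 - k : ℕ) : ℝ≥0) n w' (z - w (k + 1))}) ∂μ ∂μ := by
        rw [Finset.mul_sum]
    _ ≤ ∑ k ∈ Finset.range n, ∫⁻ w, ∫⁻ w', (∫⁻ z in Fb n k w w', LT n n w w' z) ∂μ ∂μ :=
        Finset.sum_le_sum fun k hk => (step1 k).trans (step2 k hk)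
    _ ≤ ∫⁻ w, ∫⁻ w', ∑ k ∈ Finset.range n, (∫⁻ z in Fb n k w w', LT n n w w' z) ∂μ ∂μ := by
        refine (sum_lintegral_le _ _).trans (lintegral_mono fun w => sum_lintegral_le _ _)
    _ ≤ ∫⁻ _ : Path d, ∫⁻ _ : Path d, (n : ℝ≥0∞) ^ 2 * volume (Metric.ball (0 : E d) 1) ∂μ ∂μ := by
        refine lintegral_mono fun w => lintegral_mono fun w' => ?_
        rw [← lintegral_biUnion_finset (Fb_disjoint n w w' _)
          (fun k _ => measurableSet_Fb_z n k w w')]
        refine (setLIntegral_le_lintegral _ _).trans ?_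
        rw [lintegral_LT, sq]
        simp
    _ = (n : ℝ≥0∞) ^ 2 * volume (Metric.ball (0 : E d) 1) := by simp

/-- `EV` as a sum over the first blocks. -/
theorem EV_eq_sum_Fb {μ : Measure (Path d)} [IsProbabilityMeasure μ] {n : ℕ} (hn : 0 < n) :
    EV μ 1 n n = ∑ k ∈ Finset.range n, ∫⁻ w, ∫⁻ w', volume (Fb n k w w') ∂μ ∂μ := by
  have hm : ∀ k : ℕ, Measurable fun p : Path d × Path d => volume (Fb n k p.1 p.2) := by
    intro k
    exact measurable_measure_prodMk_right (μ := (volume : Measure (E d)))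
      (measurableSet_Fb (d := d) n k)
  have h1 : ∀ w w' : Path d, Vol 1 n n w w' = ∑ k ∈ Finset.range n, volume (Fb n k w w') := by
    intro w w'
    rw [Vol, ← biUnion_Fb hn, measure_biUnion_finset (Fb_disjoint n w w' _)
      (fun k _ => measurableSet_Fb_z n k w w')]
  unfold EV
  simp only [h1]
  have h2 : ∀ w : Path d, ∫⁻ w', ∑ k ∈ Finset.range n, volume (Fb n k w w') ∂μ =
      ∑ k ∈ Finset.range n, ∫⁻ w', volume (Fb n k w w') ∂μ := by
    intro w
    exact lintegral_finsetSum _ fun k _ =>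
      (hm k).comp (f := fun w' : Path d => (w, w')) (by fun_prop)
  simp only [h2]
  exact lintegral_finsetSum _ fun k _ => (hm k).lintegral_prod_right'

end WSP
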