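import Pool.Agent.Lib_MP_c175fd.Kbb
import Pool.Agent.Lib_MP_c175fd.GoodJ

/-!
# Pieces UPA, UPB, UPC: upper bound of `EV 1 n n` in dimension four

UPA (`up_core`). `n^2 |B| = ∫ z, LT n n w w' z` (`lintegral_LT`)
`≥ ∑_k ∫_{Fb n k} LT (n-1-k) n (shift (k+1) w) w' (z - w (k+1)) dz` (`LT_split` at time `k + 1`; the sets `Fb n k`,
`k < n`, are disjoint); take means and use the Markov property `lintegral_future` at `a = k + 1`
(`Fb_stop`), then restrict to the `z` with `lam ≤ Phi`.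

UPB (`up_bad`). If `z ∈ Fb n k` then `z ∈ Kbb k j` for some `j < n` (`Kb_eq_iUnion`). If moreover
`s ≤ j`, `j + s ≤ n`, `rg 1 (shift k w) ≤ (ϖ-1)/3`, `rg 1 (shift j w') ≤ (ϖ-1)/3`, and `j` is good, i.e.
`lam ≤ cB (Hl ϖ s (shift j w') + Hl ϖ s (rev j w'))`, then `‖z - w (k+1) + w' j‖ ≤ ϖ`
(`norm_le_of_mem_Kbb`) and `lam ≤ Phi s n w' (..) ≤ Phi (n-1-k) n w' (..)` (`Phi_ge`; `Phi` is monotone in the
first time, `s ≤ n-1-k`). So the bad set is contained in the union of the `Kbb k j` for which one of the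
conditions fails: at most `2 s + 2` indices `j` violate the first two; for the other conditions use
`E (volume (Kbb k j) ; event) ≤ (EV2 1 1 1)^(1/2) (probability)^(1/2)` (`volume_Kbb`, `map_shift`).

UPC. With `s = n^(1-ε)`, `ϖ = log n`, `lam = cB ofReal ((1-3ε) log n)`, `p = C (log n)^(-4)` (`goodj`,
`rg_tail` with exponent 4): `EV n n = ∑_k E|Fb n k|`, hence
`lam EV ≤ n^2 |B| + lam (∑_{k ≤ n-1-s} bad_k + ∑_{k > n-1-s} E|Kb n k|)` and
`bad ≤ C n^(2-ε) + C n^2 (log n)^(-2)`. `|B| / cB = 2 π^2`.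
-/

open MeasureTheory ProbabilityTheory Filter Topology
open scoped ENNReal NNReal

namespace WSP

variable {d : ℕ}

theorem IsWiener.lintegral_shift_shift {μ : Measure (Path d)} (h : IsWiener μ) (a b : ℝ≥0)
    {G : Path d × Path d → ℝ≥0∞} (hG : Measurable G) :
    ∫⁻ w, ∫⁻ w', G (shift a w, shift b w') ∂μ ∂μ = ∫⁻ w, ∫⁻ w', G (w, w') ∂μ ∂μ := by
  have := h.isProb
  have h1 : ∀ w : Path d, ∫⁻ w', G (w, shift b w') ∂μ = ∫⁻ w', G (w, w') ∂μ := by
    intro w
    have h2 := lintegral_map (μ := μ) (f := fun w' : Path d => G (w, w'))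
      (hG.comp (f := fun w' : Path d => (w, w')) (by fun_prop)) (measurable_shift b)
    rw [h.map_shift] at h2
    exact h2.symm
  simp only [h1]
  have h2 := lintegral_map (μ := μ) (f := fun w : Path d => ∫⁻ w', G (w, w') ∂μ)
    hG.lintegral_prod_right' (measurable_shift a)
  rw [h.map_shift] at h2
  exact h2.symm

/-- the volume for the blocks `k`, `j` -/
noncomputable def VV (k j : ℕ) (p : Path d × Path d) : ℝ≥0∞ :=
  Vol 1 1 1 (shift k p.1) (shift j p.2)

theorem measurable_VV (k j : ℕ) : Measurable (VV k j : Path d × Path d → ℝ≥0∞) := by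
  unfold VV
  exact (measurable_Vol 1 1 1).comp
    (f := fun p : Path d × Path d => (shift (k : ℝ≥0) p.1, shift (j : ℝ≥0) p.2))
    (((measurable_shift _).comp measurable_fst).prodMk ((measurable_shift _).comp measurable_snd))

theorem IsWiener.lintegral_VV {μ : Measure (Path d)} (h : IsWiener μ) (k j : ℕ) :
    ∫⁻ w, ∫⁻ w', VV k j (w, w') ∂μ ∂μ = EV μ 1 1 1 :=
  h.lintegral_shift_shift k j (measurable_Vol 1 1 1)

theorem IsWiener.lintegral_VV_sq {μ : Measure (Path d)} (h : IsWiener μ) (k j : ℕ) :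
    ∫⁻ w, ∫⁻ w', VV k j (w, w') ^ 2 ∂μ ∂μ = EV2 μ 1 1 1 :=
  h.lintegral_shift_shift k j (G := fun p => Vol 1 1 1 p.1 p.2 ^ 2)
    ((measurable_Vol 1 1 1).pow_const 2)

/-- Cauchy-Schwarz with an event -/
theorem IsWiener.VV_event {μ : Measure (Path d)} (h : IsWiener μ) (k j : ℕ)
    {A : Set (Path d × Path d)} (hA : MeasurableSet A) :
    ∫⁻ w, ∫⁻ w', A.indicator (VV k j) (w, w') ∂μ ∂μ ≤
      (EV2 μ 1 1 1 * (μ.prod μ) A) ^ (1 / 2 : ℝ) := by
  have := h.isProb
  have h1 : ∫⁻ w, ∫⁻ w', A.indicator (VV k j) (w, w') ∂μ ∂μ =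
      ∫⁻ q, A.indicator (VV k j) q ∂(μ.prod μ) :=
    (lintegral_prod _ ((measurable_VV k j).indicator hA).aemeasurable).symm
  have h2 : ∫⁻ q, VV k j q ^ (2 : ℝ) ∂(μ.prod μ) = EV2 μ 1 1 1 := by
    rw [← h.lintegral_VV_sq k j, lintegral_prod _ (((measurable_VV k j).pow_const _).aemeasurable)]
    simp only [ENNReal.rpow_two]
  have h3 : ∫⁻ q, A.indicator (fun _ => (1 : ℝ≥0∞)) q ^ (2 : ℝ) ∂(μ.prod μ) = (μ.prod μ) A := by
    rw [← lintegral_indicator_one hA]
    refine lintegral_congr fun q => ?_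
    by_cases hq : q ∈ A
    · simp [hq]
    · simp [hq]
  have h4 : ∫⁻ q, A.indicator (VV k j) q ∂(μ.prod μ) =
      ∫⁻ q, ((VV k j : Path d × Path d → ℝ≥0∞) *
        (A.indicator (fun _ => (1 : ℝ≥0∞)) : Path d × Path d → ℝ≥0∞)) q ∂(μ.prod μ) := by
    refine lintegral_congr fun q => ?_
    by_cases hq : q ∈ A
    · simp [hq]
    · simp [hq]
  have h5 := ENNReal.lintegral_mul_le_Lp_mul_Lq (μ.prod μ) Real.HolderConjugate.two_two
    (measurable_VV k j).aemeasurable
    ((measurable_const (a := (1 : ℝ≥0∞))).indicator hA).aemeasurable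
  rw [h1, h4]
  refine h5.trans ?_
  rw [h2, h3, ENNReal.mul_rpow_of_nonneg _ _ (by norm_num)]

theorem count_bad (n : ℕ) (s : ℝ≥0) :
    (((Finset.range n).filter fun j : ℕ => ¬ (s ≤ j ∧ (j : ℝ≥0) + s ≤ n)).card : ℝ≥0∞) ≤
      2 * s + 2 := by
  classical
  have h1 : ((Finset.range n).filter fun j : ℕ => ¬ (s ≤ j ∧ (j : ℝ≥0) + s ≤ n)) ⊆
      Finset.range ⌈s⌉₊ ∪ (Finset.range ⌈s⌉₊).image (fun i => n - i) := by
    intro j hj
    simp only [Finset.mem_filter, Finset.mem_range, not_and_or, not_le] at hj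
    simp only [Finset.mem_union, Finset.mem_range, Finset.mem_image]
    rcases hj.2 with h | h
    · left
      exact Nat.lt_ceil.2 h
    · right
      refine ⟨n - j, Nat.lt_ceil.2 ?_, by omega⟩
      have h2 : ((n - j : ℕ) : ℝ≥0) + j = n := by
        have : n - j + j = n := by omega
        exact_mod_cast this
      rw [← h2, add_comm] at h
      exact lt_of_add_lt_add_left h
  have h2 := Finset.card_le_card h1
  have h3 := (h2.trans (Finset.card_union_le _ _)).trans
    (add_le_add le_rfl Finset.card_image_le)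
  rw [Finset.card_range] at h3
  have h4 : ((⌈s⌉₊ : ℕ) : ℝ≥0) ≤ s + 1 := (Nat.ceil_lt_add_one (zero_le (a := s))).le
  have h5 : (((Finset.range n).filter fun j : ℕ => ¬ (s ≤ j ∧ (j : ℝ≥0) + s ≤ n)).card : ℝ≥0) ≤
      2 * s + 2 := by
    calc (((Finset.range n).filter fun j : ℕ => ¬ (s ≤ j ∧ (j : ℝ≥0) + s ≤ n)).card : ℝ≥0)
        ≤ ((⌈s⌉₊ + ⌈s⌉₊ : ℕ) : ℝ≥0) := by exact_mod_cast h3
      _ = (⌈s⌉₊ : ℝ≥0) + ⌈s⌉₊ := by push_cast; rfl
      _ ≤ (s + 1) + (s + 1) := add_le_add h4 h4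
      _ = 2 * s + 2 := by ring
  exact_mod_cast ENNReal.coe_le_coe.2 h5

/-- Piece UPB. -/
theorem IsWiener.up_bad {μ : Measure (Path 4)} (h : IsWiener μ) {n k : ℕ} {s : ℝ≥0} (hs : s ≠ 0)
    (hk : (k : ℝ) + 1 + s ≤ n) {ϖ : ℝ} (hϖ : 1 ≤ ϖ) {lam p : ℝ≥0∞}
    (hp : ∀ j : ℕ, s ≤ j → (j : ℝ≥0) + s ≤ n →
      μ {w' | cB * (Hl ϖ s (shift j w') + Hl ϖ s (rev j w')) < lam} ≤ p)
    (hp' : μ {w | ENNReal.ofReal ((ϖ - 1) / 3) < rg 1 w} ≤ p) :
    ∫⁻ w, ∫⁻ w', volume (Fb n k w w' ∩
      {z | ¬ lam ≤ Phi μ ((n - 1 - k : ℕ) : ℝ≥0) n w' (z - w (k + 1))}) ∂μ ∂μ ≤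
    (2 * s + 2) * EV μ 1 1 1 + 3 * n * (EV2 μ 1 1 1 * p) ^ (1 / 2 : ℝ) := by
  classical
  have := h.isProb
  have hn : 0 < n := by
    rcases Nat.eq_zero_or_pos n with h0 | h0
    · exfalso
      rw [h0] at hk
      have h1 : (0 : ℝ) ≤ k := Nat.cast_nonneg k
      have h2 : (0 : ℝ) ≤ s := s.2
      norm_num at hk
      linarith
    · exact h0
  -- the events
  set c : ℝ≥0∞ := ENNReal.ofReal ((ϖ - 1) / 3) with hc
  set ok : ℕ → Prop := fun j => s ≤ j ∧ (j : ℝ≥0) + s ≤ n with hok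
  set A2 : Set (Path 4) := {w | c < rg 1 (shift (k : ℝ≥0) w)} with hA2
  set A3 : ℕ → Set (Path 4) := fun j => {w' | c < rg 1 (shift (j : ℝ≥0) w')} with hA3
  set A4 : ℕ → Set (Path 4) := fun j => if ok j then
    toMeasurable μ {w' | cB * (Hl ϖ s (shift j w') + Hl ϖ s (rev j w')) < lam} else ∅ with hA4
  have mA : ∀ a : ℝ≥0, MeasurableSet {w : Path 4 | c < rg 1 (shift a w)} := fun a =>
    measurableSet_lt measurable_const ((measurable_rg 1).comp (measurable_shift a))
  have mA4 : ∀ j, MeasurableSet (A4 j) := by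
    intro j
    simp only [hA4]
    split_ifs
    · exact measurableSet_toMeasurable _ _
    · exact MeasurableSet.empty
  have pA : ∀ a : ℝ≥0, μ {w : Path 4 | c < rg 1 (shift a w)} ≤ p := by
    intro a
    have h1 : {w : Path 4 | c < rg 1 (shift a w)} = shift a ⁻¹' {w : Path 4 | c < rg 1 w} := rfl
    rw [h1, ← Measure.map_apply (measurable_shift a)
      (measurableSet_lt measurable_const (measurable_rg 1)), h.map_shift]
    exact hp'
  have pA4 : ∀ j, μ (A4 j) ≤ p := by
    intro j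
    simp only [hA4]
    split_ifs with hj
    · rw [measure_toMeasurable]
      exact hp j hj.1 hj.2
    · simp
  -- the events in the product space
  set B2 : Set (Path 4 × Path 4) := A2 ×ˢ Set.univ with hB2
  set B3 : ℕ → Set (Path 4 × Path 4) := fun j => Set.univ ×ˢ A3 j with hB3
  set B4 : ℕ → Set (Path 4 × Path 4) := fun j => Set.univ ×ˢ A4 j with hB4
  have mB2 : MeasurableSet B2 := (mA k).prod MeasurableSet.univ
  have mB3 : ∀ j, MeasurableSet (B3 j) := fun j => MeasurableSet.univ.prod (mA j)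
  have mB4 : ∀ j, MeasurableSet (B4 j) := fun j => MeasurableSet.univ.prod (mA4 j)
  have pB2 : (μ.prod μ) B2 ≤ p := by
    rw [hB2, Measure.prod_prod, measure_univ, mul_one]; exact pA k
  have pB3 : ∀ j, (μ.prod μ) (B3 j) ≤ p := by
    intro j
    simp only [hB3]
    rw [Measure.prod_prod, measure_univ, one_mul]; exact pA j
  have pB4 : ∀ j, (μ.prod μ) (B4 j) ≤ p := by
    intro j
    simp only [hB4]
    rw [Measure.prod_prod, measure_univ, one_mul]; exact pA4 j
  -- pointwise bound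
  set T : ℕ → Path 4 × Path 4 → ℝ≥0∞ := fun j q =>
    (if ok j then 0 else VV k j q) + (B2.indicator (VV k j) q + ((B3 j).indicator (VV k j) q +
      (B4 j).indicator (VV k j) q)) with hT
  have hpt : ∀ w w' : Path 4, volume (Fb n k w w' ∩
      {z | ¬ lam ≤ Phi μ ((n - 1 - k : ℕ) : ℝ≥0) n w' (z - w (k + 1))}) ≤
      ∑ j ∈ Finset.range n, T j (w, w') := by
    intro w w'
    set P : ℕ → Prop := fun j => ¬ ok j ∨ w ∈ A2 ∨ w' ∈ A3 j ∨ w' ∈ A4 j with hP
    have hsub : Fb n k w w' ∩ {z | ¬ lam ≤ Phi μ ((n - 1 - k : ℕ) : ℝ≥0) n w' (z - w (k + 1))} ⊆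
        ⋃ j ∈ Finset.range n, (if P j then Kbb k j w w' else ∅) := by
      rintro z ⟨hz, hbad⟩
      have hz1 : z ∈ Kb n k w w' := hz.1
      rw [Kb_eq_iUnion hn] at hz1
      simp only [Set.mem_iUnion, exists_prop] at hz1
      obtain ⟨j, hj, hzj⟩ := hz1
      simp only [Set.mem_iUnion, exists_prop]
      refine ⟨j, Finset.mem_range.2 hj, ?_⟩
      by_cases hPj : P j
      · rw [if_pos hPj]; exact hzj
      · exfalso
        simp only [hP, not_or, not_not] at hPj
        obtain ⟨hokj, h2, h3, h4⟩ := hPj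
        have h2' : rg 1 (shift (k : ℝ≥0) w) ≤ c := not_lt.1 h2
        have h3' : rg 1 (shift (j : ℝ≥0) w') ≤ c := not_lt.1 h3
        have h4' : lam ≤ cB * (Hl ϖ s (shift j w') + Hl ϖ s (rev j w')) := by
          by_contra hlt
          apply h4
          simp only [hA4]
          rw [if_pos hokj]
          exact subset_toMeasurable _ _ (not_le.1 hlt)
        have h5 := norm_le_of_mem_Kbb hzj
        have h6 : ‖z - w (k + 1) + w' j‖ₑ ≤ ENNReal.ofReal ϖ := by
          refine h5.trans ?_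
          calc 1 + 2 * rg 1 (shift (k : ℝ≥0) w) + rg 1 (shift (j : ℝ≥0) w')
              ≤ 1 + 2 * c + c := by gcongr
            _ = ENNReal.ofReal ϖ := by
              have h7 : ϖ = 1 + 2 * ((ϖ - 1) / 3) + (ϖ - 1) / 3 := by ring
              have h8 : 0 ≤ (ϖ - 1) / 3 := by linarith
              rw [hc]
              conv_rhs => rw [h7]
              rw [ENNReal.ofReal_add (by positivity) h8, ENNReal.ofReal_add (by norm_num)
                (by positivity), ENNReal.ofReal_mul (by norm_num)]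
              simp
        have h7 : ‖z - w (k + 1) + w' j‖ ≤ ϖ := by
          rw [← ofReal_norm] at h6
          exact (ENNReal.ofReal_le_ofReal_iff (by linarith)).1 h6
        have h8 := h.Phi_ge hs hokj.1 hokj.2 w' h7
        have h9 : s ≤ ((n - 1 - k : ℕ) : ℝ≥0) := by
          have h10 : (k : ℝ) + 1 ≤ n := by
            have : (0 : ℝ) ≤ s := s.2
            linarith
          have h11 : k + 1 ≤ n := by exact_mod_cast h10
          rw [← NNReal.coe_le_coe]
          have h12 : (((n - 1 - k : ℕ) : ℝ≥0) : ℝ) = (n : ℝ) - 1 - k := by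
            have : n = (n - 1 - k) + 1 + k := by omega
            have h13 : (n : ℝ) = ((n - 1 - k : ℕ) : ℝ) + 1 + k := by exact_mod_cast this
            rw [NNReal.coe_natCast]
            linarith
          rw [h12]
          linarith
        have h10 : Phi μ s n w' (z - w (k + 1)) ≤
            Phi μ ((n - 1 - k : ℕ) : ℝ≥0) n w' (z - w (k + 1)) :=
          lintegral_mono fun v => LT_mono h9 le_rfl v w' _
        exact hbad ((h4'.trans h8).trans h10)
    refine (measure_mono hsub).trans ((measure_biUnion_finset_le _ _).trans ?_)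
    refine Finset.sum_le_sum fun j _ => ?_
    have hV : volume (Kbb k j w w') = VV k j (w, w') := volume_Kbb k j w w'
    by_cases hPj : P j
    · rw [if_pos hPj, hV]
      simp only [hT]
      rcases hPj with h1 | h1 | h1 | h1
      · rw [if_neg h1]
        exact le_add_right le_rfl
      · have h2 : (w, w') ∈ B2 := ⟨h1, Set.mem_univ _⟩
        rw [Set.indicator_of_mem h2]
        exact le_add_left (le_add_right le_rfl)
      · have h2 : (w, w') ∈ B3 j := ⟨Set.mem_univ _, h1⟩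
        rw [Set.indicator_of_mem h2]
        exact le_add_left (le_add_left (le_add_right le_rfl))
      · have h2 : (w, w') ∈ B4 j := ⟨Set.mem_univ _, h1⟩
        rw [Set.indicator_of_mem h2]
        exact le_add_left (le_add_left (le_add_left le_rfl))
    · rw [if_neg hPj]
      simp
  -- measurability
  have mV : ∀ j, Measurable (VV k j : Path 4 × Path 4 → ℝ≥0∞) := measurable_VV k
  have m1 : ∀ j, Measurable fun q : Path 4 × Path 4 => (if ok j then 0 else VV k j q) := by
    intro j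
    split_ifs
    · exact measurable_const
    · exact mV j
  have m2 : ∀ j, Measurable fun q : Path 4 × Path 4 => B2.indicator (VV k j) q :=
    fun j => (mV j).indicator mB2
  have m3 : ∀ j, Measurable fun q : Path 4 × Path 4 => (B3 j).indicator (VV k j) q :=
    fun j => (mV j).indicator (mB3 j)
  have m4 : ∀ j, Measurable fun q : Path 4 × Path 4 => (B4 j).indicator (VV k j) q :=
    fun j => (mV j).indicator (mB4 j)
  have mT : ∀ j, Measurable (T j) := fun j => (m1 j).add ((m2 j).add ((m3 j).add (m4 j)))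
  have hprod : ∀ {f : Path 4 × Path 4 → ℝ≥0∞}, Measurable f →
      ∫⁻ w, ∫⁻ w', f (w, w') ∂μ ∂μ = ∫⁻ q, f q ∂(μ.prod μ) :=
    fun hf => (lintegral_prod _ hf.aemeasurable).symm
  set D : ℝ≥0∞ := (EV2 μ 1 1 1 * p) ^ (1 / 2 : ℝ) with hD
  have bound : ∀ {A : Set (Path 4 × Path 4)}, MeasurableSet A → (μ.prod μ) A ≤ p → ∀ j : ℕ,
      ∫⁻ q, A.indicator (VV k j) q ∂(μ.prod μ) ≤ D := by
    intro A hA hpA j
    rw [← hprod ((mV j).indicator hA)]
    refine (h.VV_event k j hA).trans ?_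
    rw [hD]
    gcongr
  have hTj : ∀ j, ∫⁻ q, T j q ∂(μ.prod μ) ≤ (if ok j then 0 else EV μ 1 1 1) + 3 * D := by
    intro j
    simp only [hT]
    rw [lintegral_add_left (m1 j), lintegral_add_left (m2 j), lintegral_add_left (m3 j)]
    refine add_le_add ?_ ?_
    · by_cases hj : ok j
      · simp [hj]
      · simp only [if_neg hj]
        rw [← hprod (mV j)]
        exact (h.lintegral_VV k j).le
    · calc _ ≤ D + (D + D) := add_le_add (bound mB2 pB2 j)
            (add_le_add (bound (mB3 j) (pB3 j) j) (bound (mB4 j) (pB4 j) j))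
        _ = 3 * D := by ring
  calc ∫⁻ w, ∫⁻ w', volume (Fb n k w w' ∩
      {z | ¬ lam ≤ Phi μ ((n - 1 - k : ℕ) : ℝ≥0) n w' (z - w (k + 1))}) ∂μ ∂μ
      ≤ ∫⁻ w, ∫⁻ w', ∑ j ∈ Finset.range n, T j (w, w') ∂μ ∂μ :=
        lintegral_mono fun w => lintegral_mono fun w' => hpt w w'
    _ = ∫⁻ q, ∑ j ∈ Finset.range n, T j q ∂(μ.prod μ) :=
        hprod (f := fun q => ∑ j ∈ Finset.range n, T j q)
          (Finset.measurable_sum _ fun j _ => mT j)
    _ = ∑ j ∈ Finset.range n, ∫⁻ q, T j q ∂(μ.prod μ) :=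
        lintegral_finsetSum _ fun j _ => mT j
    _ ≤ ∑ j ∈ Finset.range n, ((if ok j then 0 else EV μ 1 1 1) + 3 * D) :=
        Finset.sum_le_sum fun j _ => hTj j
    _ = (∑ j ∈ Finset.range n, if ok j then 0 else EV μ 1 1 1) + n * (3 * D) := by
        rw [Finset.sum_add_distrib, Finset.sum_const, Finset.card_range, nsmul_eq_mul]
    _ ≤ (2 * s + 2) * EV μ 1 1 1 + 3 * n * D := by
        refine add_le_add ?_ (le_of_eq (by ring))
        have h1 : (∑ j ∈ Finset.range n, if ok j then 0 else EV μ 1 1 1) =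
            (((Finset.range n).filter fun j : ℕ => ¬ ok j).card : ℝ≥0∞) * EV μ 1 1 1 := by
          rw [← nsmul_eq_mul, ← Finset.sum_const, Finset.sum_filter]
          refine Finset.sum_congr rfl fun j _ => ?_
          by_cases hj : ok j
          · simp [hj]
          · simp [hj]
        rw [h1]
        gcongr
        exact count_bad n s

end WSP
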