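import Pool.Agent.Lib_MP_c175fd.UpCAux

/-!
# Pieces UPA, UPB, UPC: upper bound of `EV 1 n n` in dimension four

UPA (`up_core`). `n^2 |B| = ∫ z, LT n n w w' z` (`lintegral_LT`)
`≥ ∑_k ∫_{Fb n k} LT (n-1-k) n (shift (k+1) w) w' (z - w (k+1)) dz` (`LT_split` at time `k + 1`; the sets `Fb n k`,
`k < n`, are disjoint); take means and use the Markov property `lintegral_future` at `a = k + 1`
(`Fb_stop`), then restrict to the `z` with `lam ≤ Phi`.

UPB (`up_bad`). If `z ∈ Fb n k` then `z ∈ Kbb k j` for some `j < n` (`Kb_eq_iUnion`). If moreover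
`s ≤ j`, `j + s ≤ n`, `rg 1 (shift k w) ≤ (ϖ-1)/3`, `rg 1 (shift j w') ≤ (ϖ-1)/3`, and `j` is good, i.e.
`lam ≤ cB (Hl ϖ s (shift j w') + Hl ϖ s (rev j w'))`, then `‖z - w (k+1) + w' j‖ ≤ ϖ`
(`norm_le_of_mem_Kbb`) and `lam ≤ Phi s n w' (..) ≤ Phi (n-1-k) n w' (..)` (`Phi_ge`; `Phi` is monotone in the
first time, `s ≤ n-1-k`). So the bad set is contained in the union of the `Kbb k j` for which one of the
conditions fails: at most `2 s + 2` indices `j` violate the first two; for the other conditions use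
`E (volume (Kbb k j) ; event) ≤ (EV2 1 1 1)^(1/2) (probability)^(1/2)` (`volume_Kbb`, `map_shift`).

UPC. With `s = n^(1-ε)`, `ϖ = log n`, `lam = cB ofReal ((1-3ε) log n)`, `p = C (log n)^(-4)` (`goodj`,
`rg_tail` with exponent 4): `EV n n = ∑_k E|Fb n k|`, hence
`lam EV ≤ n^2 |B| + lam (∑_{k ≤ n-1-s} bad_k + ∑_{k > n-1-s} E|Kb n k|)` and
`bad ≤ C n^(2-ε) + C n^2 (log n)^(-2)`. `|B| / cB = 2 π^2`.
-/

open MeasureTheory ProbabilityTheory Filter Topology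
open scoped ENNReal NNReal

namespace WSP

variable {d : ℕ}

theorem upc_ball_pos : 0 < (volume (Metric.ball (0 : E 4) 1)).toReal :=
  ENNReal.toReal_pos (Metric.measure_ball_pos volume 0 one_pos).ne' measure_ball_lt_top.ne

/-- the real inequality for fixed `n` -/
theorem upc_real {μ : Measure (Path 4)} (h : IsWiener μ) {n : ℕ} (hn : 0 < n) {s : ℝ≥0}
    (hs : 1 ≤ s) {L e C' : ℝ} (hL : 1 ≤ L) (he : 3 * e < 1) (hC' : 0 ≤ C')
    (hp : ∀ j : ℕ, s ≤ j → (j : ℝ≥0) + s ≤ n →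
      μ {w' | Hl L s (shift j w') + Hl L s (rev j w') < ENNReal.ofReal ((1 - 3 * e) * L)} ≤
        ENNReal.ofReal (C' * L ^ (-4 : ℤ)))
    (hp' : μ {w | ENNReal.ofReal ((L - 1) / 3) < rg 1 w} ≤ ENNReal.ofReal (C' * L ^ (-4 : ℤ))) :
    (EV μ 1 n n).toReal ≤ 2 * Real.pi ^ 2 * n ^ 2 / ((1 - 3 * e) * L) +
      (6 * (EV μ 1 1 1).toReal * (n * s) +
        3 * ((EV2 μ 1 1 1).toReal * C') ^ (1 / 2 : ℝ) * (n ^ 2 * L ^ (-2 : ℤ))) := by
  have hs0 : s ≠ 0 := by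
    rintro rfl
    exact absurd hs (by norm_num)
  have hL0 : 0 < L := lt_of_lt_of_le one_pos hL
  have he' : 0 < 1 - 3 * e := by linarith
  have hpi : (0 : ℝ) < 2 * Real.pi ^ 2 := by positivity
  have hEV := EV_lt_top h 1 1 1
  have hEV2 := EV2_lt_top h 1 1 1
  set B : ℝ≥0∞ := volume (Metric.ball (0 : E 4) 1) with hB
  have hBpos : 0 < B.toReal := upc_ball_pos
  have hBtop : B ≠ ∞ := measure_ball_lt_top.ne
  have hcB : cB.toReal = B.toReal / (2 * Real.pi ^ 2) := by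
    unfold cB
    rw [ENNReal.toReal_div, ENNReal.toReal_ofReal hpi.le]
  set lam : ℝ≥0∞ := cB * ENNReal.ofReal ((1 - 3 * e) * L) with hlam
  set p : ℝ≥0∞ := ENNReal.ofReal (C' * L ^ (-4 : ℤ)) with hpdef
  have hp2 : ∀ j : ℕ, s ≤ j → (j : ℝ≥0) + s ≤ n →
      μ {w' | cB * (Hl L s (shift j w') + Hl L s (rev j w')) < lam} ≤ p := by
    intro j hj1 hj2
    refine le_trans (measure_mono ?_) (hp j hj1 hj2)
    intro w' hw'
    rw [Set.mem_ofPred_eq] at hw' ⊢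
    by_contra hcon
    rw [not_lt] at hcon
    exact absurd hw' (not_lt.mpr (mul_le_mul_right hcon cB))
  obtain ⟨S, hS1, hS2⟩ := upc_main h hn hs0 hL hp2 hp'
  -- finiteness
  have hlamr : lam.toReal = B.toReal / (2 * Real.pi ^ 2) * ((1 - 3 * e) * L) := by
    rw [hlam, ENNReal.toReal_mul, hcB, ENNReal.toReal_ofReal (by positivity)]
  have hlampos : 0 < lam.toReal := by
    rw [hlamr]
    positivity
  have hlam0 : lam ≠ 0 := by
    intro h0
    rw [h0] at hlampos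
    exact lt_irrefl _ hlampos
  have hrhs : (n : ℝ≥0∞) ^ 2 * B ≠ ∞ :=
    ENNReal.mul_ne_top (ENNReal.pow_ne_top (ENNReal.natCast_ne_top n)) hBtop
  have hStop : S ≠ ∞ := by
    intro hinf
    rw [hinf, ENNReal.mul_top hlam0] at hS1
    exact hrhs (top_le_iff.mp hS1)
  have hSr : lam.toReal * S.toReal ≤ n ^ 2 * B.toReal := by
    have h1 := ENNReal.toReal_mono hrhs hS1
    have h2 : (lam * S).toReal = lam.toReal * S.toReal := ENNReal.toReal_mul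
    have h3 : ((n : ℝ≥0∞) ^ 2 * B).toReal = n ^ 2 * B.toReal := by
      rw [ENNReal.toReal_mul, ENNReal.toReal_pow, ENNReal.toReal_natCast]
    rw [h2, h3] at h1
    exact h1
  have hSle : S.toReal ≤ 2 * Real.pi ^ 2 * n ^ 2 / ((1 - 3 * e) * L) := by
    rw [hlamr] at hSr
    rw [le_div_iff₀ (by positivity)]
    have h2 : B.toReal * (S.toReal * ((1 - 3 * e) * L)) ≤
        B.toReal * (2 * Real.pi ^ 2 * n ^ 2) := by
      have h3 : B.toReal / (2 * Real.pi ^ 2) * ((1 - 3 * e) * L) * S.toReal =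
          B.toReal * (S.toReal * ((1 - 3 * e) * L)) / (2 * Real.pi ^ 2) := by
        field_simp
      rw [h3, div_le_iff₀ hpi] at hSr
      linarith
    exact le_of_mul_le_mul_left h2 hBpos
  set v : ℝ := (EV μ 1 1 1).toReal with hv
  have hv0 : 0 ≤ v := ENNReal.toReal_nonneg
  have hrpow : ((EV2 μ 1 1 1 * p) ^ (1 / 2 : ℝ)).toReal =
      ((EV2 μ 1 1 1).toReal * C') ^ (1 / 2 : ℝ) * L ^ (-2 : ℤ) := by
    rw [← ENNReal.toReal_rpow, ENNReal.toReal_mul, hpdef,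
      ENNReal.toReal_ofReal (by positivity), ← mul_assoc,
      Real.mul_rpow (mul_nonneg ENNReal.toReal_nonneg hC') (by positivity)]
    congr 1
    rw [← Real.sqrt_eq_rpow]
    have h4 : L ^ (-4 : ℤ) = (L ^ (-2 : ℤ)) ^ 2 := by
      rw [← zpow_natCast, ← zpow_mul]
      norm_num
    rw [h4, Real.sqrt_sq (by positivity)]
  have hptop : p ≠ ∞ := ENNReal.ofReal_ne_top
  have hrtop : (EV2 μ 1 1 1 * p) ^ (1 / 2 : ℝ) ≠ ∞ :=
    ENNReal.rpow_ne_top_of_nonneg (by norm_num) (ENNReal.mul_ne_top hEV2.ne hptop)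
  have hA : (2 * (s : ℝ≥0∞) + 2) * EV μ 1 1 1 ≠ ∞ := by
    refine ENNReal.mul_ne_top ?_ hEV.ne
    exact ENNReal.add_ne_top.mpr ⟨ENNReal.mul_ne_top (by norm_num) ENNReal.coe_ne_top,
      by norm_num⟩
  have hA2 : 3 * (n : ℝ≥0∞) * (EV2 μ 1 1 1 * p) ^ (1 / 2 : ℝ) ≠ ∞ :=
    ENNReal.mul_ne_top (ENNReal.mul_ne_top (by norm_num) (ENNReal.natCast_ne_top n)) hrtop
  have hA3 : (n : ℝ≥0∞) * ((2 * s + 2) * EV μ 1 1 1 +
      3 * n * (EV2 μ 1 1 1 * p) ^ (1 / 2 : ℝ)) ≠ ∞ :=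
    ENNReal.mul_ne_top (ENNReal.natCast_ne_top n) (ENNReal.add_ne_top.mpr ⟨hA, hA2⟩)
  have hA4 : (⌈s⌉₊ : ℝ≥0∞) * (n * EV μ 1 1 1) ≠ ∞ :=
    ENNReal.mul_ne_top (ENNReal.natCast_ne_top _)
      (ENNReal.mul_ne_top (ENNReal.natCast_ne_top n) hEV.ne)
  have hfin := ENNReal.toReal_mono
    (ENNReal.add_ne_top.mpr ⟨hStop, ENNReal.add_ne_top.mpr ⟨hA3, hA4⟩⟩) hS2
  rw [ENNReal.toReal_add hStop (ENNReal.add_ne_top.mpr ⟨hA3, hA4⟩),
    ENNReal.toReal_add hA3 hA4, ENNReal.toReal_mul, ENNReal.toReal_add hA hA2,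
    ENNReal.toReal_mul, ENNReal.toReal_mul, ENNReal.toReal_mul, ENNReal.toReal_mul,
    ENNReal.toReal_mul, ENNReal.toReal_natCast, ENNReal.toReal_natCast, hrpow,
    ENNReal.toReal_add (ENNReal.mul_ne_top (by norm_num) ENNReal.coe_ne_top) (by norm_num),
    ENNReal.toReal_mul, ENNReal.coe_toReal, ENNReal.toReal_ofNat, ENNReal.toReal_ofNat,
    ← hv] at hfin
  have hceil : (⌈s⌉₊ : ℝ) ≤ 2 * s := by
    have h5 : (⌈s⌉₊ : ℝ≥0) < s + 1 := Nat.ceil_lt_add_one (zero_le)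
    have h6 : (⌈s⌉₊ : ℝ) < s + 1 := by exact_mod_cast h5
    have h7 : (1 : ℝ) ≤ s := by exact_mod_cast hs
    linarith
  have hs1 : (1 : ℝ) ≤ s := by exact_mod_cast hs
  have hn0 : (0 : ℝ) ≤ n := Nat.cast_nonneg n
  have hT1 : (n : ℝ) * ((2 * (s : ℝ) + 2) * v) ≤ 4 * v * (n * s) := by
    have h8 : (2 * (s : ℝ) + 2) ≤ 4 * s := by linarith
    calc (n : ℝ) * ((2 * (s : ℝ) + 2) * v) ≤ n * (4 * s * v) :=
          mul_le_mul_of_nonneg_left (mul_le_mul_of_nonneg_right h8 hv0) hn0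
      _ = 4 * v * (n * s) := by ring
  have hT2 : (⌈s⌉₊ : ℝ) * (n * v) ≤ 2 * v * (n * s) := by
    calc (⌈s⌉₊ : ℝ) * (n * v) ≤ 2 * s * (n * v) :=
          mul_le_mul_of_nonneg_right hceil (mul_nonneg hn0 hv0)
      _ = 2 * v * (n * s) := by ring
  have hT3 : (n : ℝ) * (3 * n * (((EV2 μ 1 1 1).toReal * C') ^ (1 / 2 : ℝ) * L ^ (-2 : ℤ))) =
      3 * ((EV2 μ 1 1 1).toReal * C') ^ (1 / 2 : ℝ) * (n ^ 2 * L ^ (-2 : ℤ)) := by ring
  have hT4 : (n : ℝ) * ((2 * (s : ℝ) + 2) * v +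
      3 * n * (((EV2 μ 1 1 1).toReal * C') ^ (1 / 2 : ℝ) * L ^ (-2 : ℤ))) =
      (n : ℝ) * ((2 * (s : ℝ) + 2) * v) +
      (n : ℝ) * (3 * n * (((EV2 μ 1 1 1).toReal * C') ^ (1 / 2 : ℝ) * L ^ (-2 : ℤ))) := by ring
  rw [hT4, hT3] at hfin
  linarith only [hfin, hT1, hT2, hSle]

/-- the tail of the range -/
theorem upc_tail {μ : Measure (Path 4)} (h : IsWiener μ) : ∃ C : ℝ, 0 ≤ C ∧ ∀ L : ℝ, 2 ≤ L →
    μ {w | ENNReal.ofReal ((L - 1) / 3) < rg 1 w} ≤ ENNReal.ofReal (C * L ^ (-4 : ℤ)) := by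
  obtain ⟨C, hC⟩ := h.rg_tail 4
  refine ⟨1296 * C, by positivity, ?_⟩
  intro L hL
  have ha : 0 < ((L - 1) / 3).toNNReal := Real.toNNReal_pos.mpr (by linarith)
  have h1 := hC 1 _ ha
  have h2 : (NNReal.sqrt 1 : ℝ≥0∞) = 1 := by
    rw [NNReal.sqrt_one]
    rfl
  rw [h2, mul_one] at h1
  refine h1.trans ?_
  have ha' : (0 : ℝ) < (L - 1) / 3 := by linarith
  have h3 : (C : ℝ≥0∞) / (((L - 1) / 3).toNNReal : ℝ≥0∞) ^ 4 =
      ENNReal.ofReal ((C : ℝ) / ((L - 1) / 3) ^ 4) := by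
    rw [ENNReal.ofReal_div_of_pos (by positivity), ENNReal.ofReal_pow ha'.le,
      ENNReal.ofReal_coe_nnreal]
    rfl
  rw [h3]
  refine ENNReal.ofReal_le_ofReal ?_
  have hL0 : (0 : ℝ) < L := by linarith
  have h4 : L / 6 ≤ (L - 1) / 3 := by linarith
  have h5 : (L / 6) ^ 4 ≤ ((L - 1) / 3) ^ 4 := pow_le_pow_left₀ (by positivity) h4 4
  have h6 : (C : ℝ) / ((L - 1) / 3) ^ 4 ≤ C / (L / 6) ^ 4 :=
    div_le_div_of_nonneg_left (NNReal.coe_nonneg C) (by positivity) h5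
  refine h6.trans (le_of_eq ?_)
  rw [zpow_neg, div_pow]
  have h7 : L ^ (4 : ℤ) = L ^ 4 := by norm_cast
  rw [h7]
  field_simp
  norm_num

/-- Piece UPC. -/
theorem IsWiener.EV_upper_four {μ : Measure (Path 4)} (h : IsWiener μ) {ε : ℝ} (hε : 0 < ε) :
    ∀ᶠ n : ℕ in atTop, (EV μ 1 n n).toReal ≤ (1 + ε) * (2 * Real.pi ^ 2) * n ^ 2 / Real.log n := by
  set e : ℝ := min (1 / 6) (ε / 12) with he
  have he0 : 0 < e := lt_min (by norm_num) (by positivity)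
  have he1 : e ≤ 1 / 6 := min_le_left _ _
  have he2 : e ≤ ε / 12 := min_le_right _ _
  obtain ⟨C, hC0, hC⟩ := upc_tail h
  set v : ℝ := (EV μ 1 1 1).toReal with hv
  have hv0 : 0 ≤ v := ENNReal.toReal_nonneg
  set K : ℝ := ((EV2 μ 1 1 1).toReal * (2 + C)) ^ (1 / 2 : ℝ) with hK
  have hK0 : 0 ≤ K := Real.rpow_nonneg (mul_nonneg ENNReal.toReal_nonneg (by positivity)) _
  have hpi : 0 < Real.pi := Real.pi_pos
  have hgood := h.goodj he0 (by linarith : e < 1 / 2)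
  have hlog : Tendsto (fun n : ℕ => Real.log n) atTop atTop :=
    Real.tendsto_log_atTop.comp tendsto_natCast_atTop_atTop
  have hδ : 0 < ε / 2 * Real.pi ^ 2 / (6 * v + 1) := by positivity
  have hlo := (isLittleO_log_rpow_atTop he0).bound hδ
  filter_upwards [tendsto_natCast_atTop_atTop.eventually hgood,
    tendsto_natCast_atTop_atTop.eventually hlo, hlog.eventually_ge_atTop 2,
    hlog.eventually_ge_atTop (6 * K / (ε * Real.pi ^ 2)), eventually_ge_atTop 1]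
    with n hn1 hn2 hn3 hn4 hn5
  have hnpos : (0 : ℝ) < n := by exact_mod_cast hn5
  have hn1' : (1 : ℝ) ≤ n := by exact_mod_cast hn5
  set L : ℝ := Real.log n with hL
  have hL0 : 0 < L := by linarith
  set s : ℝ≥0 := ((n : ℝ) ^ (1 - e)).toNNReal with hs
  have hsr : (s : ℝ) = (n : ℝ) ^ (1 - e) := Real.coe_toNNReal _ (Real.rpow_nonneg hnpos.le _)
  have hs1 : 1 ≤ s := by
    rw [← NNReal.coe_le_coe, hsr, NNReal.coe_one]
    exact Real.one_le_rpow hn1' (by linarith)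
  have hmain := upc_real h (n := n) hn5 hs1 (L := L) (e := e) (C' := 2 + C) (by linarith)
    (by linarith) (by positivity) ?_ ?_
  · refine hmain.trans ?_
    rw [← hv, ← hK]
    -- first term
    have h1 : 2 * Real.pi ^ 2 * n ^ 2 / ((1 - 3 * e) * L) ≤
        (1 + ε / 2) * (2 * Real.pi ^ 2 * n ^ 2 / L) := by
      have h3e : 0 < 1 - 3 * e := by linarith
      rw [div_mul_eq_div_div_swap, div_le_iff₀ h3e]
      have h2 : 0 ≤ 2 * Real.pi ^ 2 * n ^ 2 / L := by positivity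
      have h3 : 1 ≤ (1 + ε / 2) * (1 - 3 * e) := by
        nlinarith [mul_nonneg he0.le (by linarith : (0 : ℝ) ≤ 1 - 6 * e)]
      calc 2 * Real.pi ^ 2 * n ^ 2 / L = 1 * (2 * Real.pi ^ 2 * n ^ 2 / L) := (one_mul _).symm
        _ ≤ ((1 + ε / 2) * (1 - 3 * e)) * (2 * Real.pi ^ 2 * n ^ 2 / L) :=
            mul_le_mul_of_nonneg_right h3 h2
        _ = (1 + ε / 2) * (2 * Real.pi ^ 2 * n ^ 2 / L) * (1 - 3 * e) := by ring
    -- second term
    have h2 : 6 * v * (n * s) ≤ ε / 2 * Real.pi ^ 2 * (n ^ 2 / L) := by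
      rw [hsr]
      rw [Real.norm_of_nonneg hL0.le, Real.norm_of_nonneg (Real.rpow_nonneg hnpos.le _)] at hn2
      have hne : (0 : ℝ) < (n : ℝ) ^ e := Real.rpow_pos_of_pos hnpos _
      have h3 : (n : ℝ) * (n : ℝ) ^ (1 - e) = n ^ 2 / (n : ℝ) ^ e := by
        rw [Real.rpow_sub hnpos, Real.rpow_one]
        ring
      rw [h3]
      have h4 : (6 * v + 1) * L ≤ ε / 2 * Real.pi ^ 2 * (n : ℝ) ^ e := by
        calc (6 * v + 1) * L ≤ (6 * v + 1) * (ε / 2 * Real.pi ^ 2 / (6 * v + 1) * (n : ℝ) ^ e) :=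
              mul_le_mul_of_nonneg_left hn2 (by positivity)
          _ = ε / 2 * Real.pi ^ 2 * (n : ℝ) ^ e := by
              field_simp
      have h5 : 6 * v * L ≤ ε / 2 * Real.pi ^ 2 * (n : ℝ) ^ e := by
        have : 6 * v * L ≤ (6 * v + 1) * L := mul_le_mul_of_nonneg_right (by linarith) hL0.le
        linarith
      rw [← mul_div_assoc, ← mul_div_assoc, div_le_div_iff₀ hne hL0]
      calc 6 * v * (n : ℝ) ^ 2 * L = 6 * v * L * (n : ℝ) ^ 2 := by ring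
        _ ≤ ε / 2 * Real.pi ^ 2 * (n : ℝ) ^ e * (n : ℝ) ^ 2 :=
            mul_le_mul_of_nonneg_right h5 (by positivity)
        _ = ε / 2 * Real.pi ^ 2 * (n : ℝ) ^ 2 * (n : ℝ) ^ e := by ring
    -- third term
    have h3 : 3 * K * (n ^ 2 * L ^ (-2 : ℤ)) ≤ ε / 2 * Real.pi ^ 2 * (n ^ 2 / L) := by
      have h4 : 3 * K ≤ ε / 2 * Real.pi ^ 2 * L := by
        have h5 : 0 < ε * Real.pi ^ 2 := by positivity
        have h6 := (div_le_iff₀ h5).mp hn4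
        linarith
      have h5 : L ^ (-2 : ℤ) = 1 / (L * L) := by
        rw [zpow_neg]
        have : L ^ (2 : ℤ) = L * L := by
          rw [show (2 : ℤ) = 1 + 1 from rfl, zpow_add₀ hL0.ne', zpow_one]
        rw [this, one_div]
      rw [h5]
      calc 3 * K * ((n : ℝ) ^ 2 * (1 / (L * L))) = 3 * K * ((n : ℝ) ^ 2 / (L * L)) := by ring
        _ ≤ ε / 2 * Real.pi ^ 2 * L * ((n : ℝ) ^ 2 / (L * L)) :=
            mul_le_mul_of_nonneg_right h4 (by positivity)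
        _ = ε / 2 * Real.pi ^ 2 * ((n : ℝ) ^ 2 / L) := by
            field_simp
    have h4 : (1 + ε) * (2 * Real.pi ^ 2) * (n : ℝ) ^ 2 / L =
        (1 + ε / 2) * (2 * Real.pi ^ 2 * n ^ 2 / L) + (ε / 2 * Real.pi ^ 2 * (n ^ 2 / L) +
          ε / 2 * Real.pi ^ 2 * (n ^ 2 / L)) := by ring
    rw [h4]
    exact add_le_add h1 (add_le_add h2 h3)
  · intro j hj1 hj2
    refine (hn1 (j : ℝ≥0) (n : ℝ≥0) hj1 hj2).trans ?_
    refine ENNReal.ofReal_le_ofReal ?_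
    exact mul_le_mul_of_nonneg_right (by linarith) (by positivity)
  · refine (hC L hn3).trans ?_
    refine ENNReal.ofReal_le_ofReal ?_
    exact mul_le_mul_of_nonneg_right (by linarith) (by positivity)

end WSP
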