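import Pool.Agent.Lib_MP_c175fd.UpA
import Pool.Agent.Lib_MP_c175fd.UpB

/-!
# Piece UPC: auxiliary estimates
-/

open MeasureTheory ProbabilityTheory Filter Topology
open scoped ENNReal NNReal

namespace WSP

variable {d : ℕ}

theorem upc_meas_Vol {α : Type*} [MeasurableSpace α] (f g : α → Path d) (hf : Measurable f)
    (hg : Measurable g) : Measurable (fun q : α => Vol 1 1 1 (f q) (g q)) := by
  have h1 : Measurable (fun q : α => ((f q, g q) : Path d × Path d)) := hf.prodMk hg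
  have h2 := (measurable_Vol (d := d) 1 1 1).comp h1
  exact h2

/-- the mean over two shifted paths -/
theorem upc_mean_shift {μ : Measure (Path d)} (h : IsWiener μ) (k j : ℕ) :
    ∫⁻ w, ∫⁻ w', Vol 1 1 1 (shift (k : ℝ≥0) w) (shift (j : ℝ≥0) w') ∂μ ∂μ = EV μ 1 1 1 := by
  have hp := h.isProb
  have h1 : ∀ w : Path d, ∫⁻ w', Vol 1 1 1 (shift (k : ℝ≥0) w) (shift (j : ℝ≥0) w') ∂μ =
      ∫⁻ w', Vol 1 1 1 (shift (k : ℝ≥0) w) w' ∂μ := by
    intro w
    have hm : Measurable (fun w' : Path d => Vol 1 1 1 (shift (k : ℝ≥0) w) w') :=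
      upc_meas_Vol (fun _ => shift (k : ℝ≥0) w) (fun w' => w') measurable_const measurable_id
    have h3 := lintegral_map (μ := μ) hm (measurable_shift (d := d) (j : ℝ≥0))
    rw [h.map_shift] at h3
    exact h3.symm
  have hm2 : Measurable (fun w : Path d => ∫⁻ w', Vol 1 1 1 w w' ∂μ) :=
    Measurable.lintegral_prod_right' (measurable_Vol (d := d) 1 1 1)
  have h3 := lintegral_map (μ := μ) hm2 (measurable_shift (d := d) (k : ℝ≥0))
  rw [h.map_shift] at h3
  have h4 : ∫⁻ w, ∫⁻ w', Vol 1 1 1 (shift (k : ℝ≥0) w) (shift (j : ℝ≥0) w') ∂μ ∂μ =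
      ∫⁻ w, ∫⁻ w', Vol 1 1 1 (shift (k : ℝ≥0) w) w' ∂μ ∂μ := lintegral_congr h1
  rw [h4, ← h3]
  rfl

/-- crude bound for one block -/
theorem upc_fb_le {μ : Measure (Path d)} (h : IsWiener μ) {n : ℕ} (hn : 0 < n) (k : ℕ) :
    ∫⁻ w, ∫⁻ w', volume (Fb n k w w') ∂μ ∂μ ≤ n * EV μ 1 1 1 := by
  have hp := h.isProb
  have h1 : ∀ w w' : Path d, volume (Fb n k w w') ≤
      ∑ j ∈ Finset.range n, Vol 1 1 1 (shift k w) (shift j w') := by
    intro w w'
    calc volume (Fb n k w w') ≤ volume (Kb n k w w') := measure_mono Set.sdiff_subset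
      _ = volume (⋃ j ∈ Finset.range n, Kbb k j w w') := by
          rw [Kb_eq_iUnion hn]
          simp only [Finset.mem_range]
      _ ≤ ∑ j ∈ Finset.range n, volume (Kbb k j w w') := measure_biUnion_finset_le _ _
      _ = ∑ j ∈ Finset.range n, Vol 1 1 1 (shift k w) (shift j w') :=
          Finset.sum_congr rfl (fun j _ => volume_Kbb k j w w')
  have hmm : ∀ j : ℕ, Measurable (fun w : Path d =>
      ∫⁻ w', Vol 1 1 1 (shift k w) (shift j w') ∂μ) := by
    intro j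
    have h4 : Measurable (fun q : Path d × Path d => shift (k : ℝ≥0) q.1) :=
      (measurable_shift (d := d) (k : ℝ≥0)).comp measurable_fst
    have h5 : Measurable (fun q : Path d × Path d => shift (j : ℝ≥0) q.2) :=
      (measurable_shift (d := d) (j : ℝ≥0)).comp measurable_snd
    exact Measurable.lintegral_prod_right' (upc_meas_Vol _ _ h4 h5)
  calc ∫⁻ w, ∫⁻ w', volume (Fb n k w w') ∂μ ∂μ
      ≤ ∫⁻ w, ∫⁻ w', ∑ j ∈ Finset.range n, Vol 1 1 1 (shift k w) (shift j w') ∂μ ∂μ :=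
        lintegral_mono (fun w => lintegral_mono (fun w' => h1 w w'))
    _ = ∫⁻ w, ∑ j ∈ Finset.range n, ∫⁻ w', Vol 1 1 1 (shift k w) (shift j w') ∂μ ∂μ := by
        refine lintegral_congr (fun w => ?_)
        exact lintegral_finsetSum _ (fun j _ => upc_meas_Vol (fun _ => shift (k : ℝ≥0) w)
          (fun w' => shift (j : ℝ≥0) w') measurable_const (measurable_shift (d := d) (j : ℝ≥0)))
    _ = ∑ j ∈ Finset.range n, ∫⁻ w, ∫⁻ w', Vol 1 1 1 (shift k w) (shift j w') ∂μ ∂μ :=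
        lintegral_finsetSum _ (fun j _ => hmm j)
    _ = n * EV μ 1 1 1 := by
        rw [Finset.sum_congr rfl (fun j _ => upc_mean_shift h k j), Finset.sum_const,
          Finset.card_range, nsmul_eq_mul]

theorem upc_meas_pair (k : ℕ) : Measurable (fun p : E d × Path d × Path d =>
    ((p.2.2, p.1 - p.2.1 ((k : ℝ≥0) + 1)) : Path d × E d)) := by
  have h1 : Measurable (fun p : E d × Path d × Path d => p.2.1) :=
    measurable_fst.comp measurable_snd
  have h2 := (measurable_eval (d := d) ((k : ℝ≥0) + 1)).comp h1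
  have hm2 : Measurable (fun p : E d × Path d × Path d => p.1 - p.2.1 ((k : ℝ≥0) + 1)) :=
    Measurable.sub measurable_fst h2
  have hm3 : Measurable (fun p : E d × Path d × Path d => p.2.2) :=
    measurable_snd.comp measurable_snd
  exact Measurable.prodMk hm3 hm2

theorem upc_meas_Phi {μ : Measure (Path d)} [IsProbabilityMeasure μ] (k : ℕ) (m n' : ℝ≥0) :
    Measurable (fun p : E d × Path d × Path d =>
      Phi μ m n' p.2.2 (p.1 - p.2.1 ((k : ℝ≥0) + 1))) := by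
  have h1 := upc_meas_pair (d := d) k
  have h2 := (measurable_Phi (d := d) (μ := μ) m n').comp h1
  exact h2

theorem upc_meas_set {μ : Measure (Path d)} [IsProbabilityMeasure μ] (n k : ℕ) (lam : ℝ≥0∞)
    (m n' : ℝ≥0) :
    MeasurableSet {p : E d × Path d × Path d | p.1 ∈ Fb n k p.2.1 p.2.2 ∩
      {z | lam ≤ Phi μ m n' p.2.2 (z - p.2.1 (k + 1))}} := by
  have h1 := measurableSet_Fb (d := d) n k
  have h2 := upc_meas_Phi (d := d) (μ := μ) k m n'
  have h3 : MeasurableSet {p : E d × Path d × Path d |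
      lam ≤ Phi μ m n' p.2.2 (p.1 - p.2.1 ((k : ℝ≥0) + 1))} :=
    measurableSet_le measurable_const h2
  exact h1.inter h3

theorem upc_meas_vol {μ : Measure (Path d)} [IsProbabilityMeasure μ] (n k : ℕ) (lam : ℝ≥0∞)
    (m n' : ℝ≥0) :
    Measurable (fun q : Path d × Path d => volume (Fb n k q.1 q.2 ∩
      {z | lam ≤ Phi μ m n' q.2 (z - q.1 (k + 1))})) := by
  have hS := upc_meas_set (d := d) (μ := μ) n k lam m n'
  have h1 := measurable_measure_prodMk_right (μ := (volume : Measure (E d))) hS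
  exact h1

/-- splitting of one block -/
theorem upc_split {μ : Measure (Path d)} [IsProbabilityMeasure μ] (n k : ℕ) (lam : ℝ≥0∞)
    (m n' : ℝ≥0) :
    ∫⁻ w, ∫⁻ w', volume (Fb n k w w') ∂μ ∂μ ≤
      (∫⁻ w, ∫⁻ w', volume (Fb n k w w' ∩
        {z | lam ≤ Phi μ m n' w' (z - w (k + 1))}) ∂μ ∂μ) +
      ∫⁻ w, ∫⁻ w', volume (Fb n k w w' ∩
        {z | ¬ lam ≤ Phi μ m n' w' (z - w (k + 1))}) ∂μ ∂μ := by
  have hf := upc_meas_vol (d := d) (μ := μ) n k lam m n'
  have h3 : ∀ w : Path d, Measurable (fun w' : Path d => volume (Fb n k w w' ∩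
      {z | lam ≤ Phi μ m n' w' (z - w (k + 1))})) := by
    intro w
    have h4 : Measurable (fun w' : Path d => ((w, w') : Path d × Path d)) :=
      measurable_prodMk_left
    have h5 := hf.comp h4
    exact h5
  have h6 := hf.lintegral_prod_right' (ν := μ)
  calc ∫⁻ w, ∫⁻ w', volume (Fb n k w w') ∂μ ∂μ
      ≤ ∫⁻ w, ∫⁻ w', (volume (Fb n k w w' ∩ {z | lam ≤ Phi μ m n' w' (z - w (k + 1))}) +
          volume (Fb n k w w' ∩ {z | ¬ lam ≤ Phi μ m n' w' (z - w (k + 1))})) ∂μ ∂μ := by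
        refine lintegral_mono (fun w => lintegral_mono (fun w' => ?_))
        refine (measure_mono ?_).trans (measure_union_le _ _)
        intro z hz
        by_cases hz2 : lam ≤ Phi μ m n' w' (z - w (k + 1))
        · exact Or.inl ⟨hz, hz2⟩
        · exact Or.inr ⟨hz, hz2⟩
    _ = ∫⁻ w, ((∫⁻ w', volume (Fb n k w w' ∩ {z | lam ≤ Phi μ m n' w' (z - w (k + 1))}) ∂μ) +
          ∫⁻ w', volume (Fb n k w w' ∩ {z | ¬ lam ≤ Phi μ m n' w' (z - w (k + 1))}) ∂μ) ∂μ := by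
        refine lintegral_congr (fun w => ?_)
        exact lintegral_add_left (h3 w) _
    _ = _ := lintegral_add_left h6 _

/-- the inequality with extended nonnegative reals -/
theorem upc_main {μ : Measure (Path 4)} (h : IsWiener μ) {n : ℕ} (hn : 0 < n) {s : ℝ≥0}
    (hs : s ≠ 0) {ϖ : ℝ} (hϖ : 1 ≤ ϖ) {lam p : ℝ≥0∞}
    (hp : ∀ j : ℕ, s ≤ j → (j : ℝ≥0) + s ≤ n →
      μ {w' | cB * (Hl ϖ s (shift j w') + Hl ϖ s (rev j w')) < lam} ≤ p)
    (hp' : μ {w | ENNReal.ofReal ((ϖ - 1) / 3) < rg 1 w} ≤ p) :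
    ∃ S : ℝ≥0∞, lam * S ≤ (n : ℝ≥0∞) ^ 2 * volume (Metric.ball (0 : E 4) 1) ∧
      EV μ 1 n n ≤ S + (n * ((2 * s + 2) * EV μ 1 1 1 + 3 * n * (EV2 μ 1 1 1 * p) ^ (1 / 2 : ℝ)) +
        (⌈s⌉₊ : ℝ≥0∞) * (n * EV μ 1 1 1)) := by
  classical
  have hprob := h.isProb
  refine ⟨_, h.up_core hn lam, ?_⟩
  rw [EV_eq_sum_Fb hn]
  set X : ℝ≥0∞ := (2 * s + 2) * EV μ 1 1 1 + 3 * n * (EV2 μ 1 1 1 * p) ^ (1 / 2 : ℝ) with hX
  have hbad : ∀ k ∈ Finset.range n, ∫⁻ w, ∫⁻ w', volume (Fb n k w w') ∂μ ∂μ ≤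
      (∫⁻ w, ∫⁻ w', volume (Fb n k w w' ∩
        {z | lam ≤ Phi μ ((n - 1 - k : ℕ) : ℝ≥0) n w' (z - w (k + 1))}) ∂μ ∂μ) +
      (X + if (k : ℝ) + 1 + s ≤ n then 0 else n * EV μ 1 1 1) := by
    intro k _
    split_ifs with hk
    · rw [add_zero]
      exact (upc_split n k lam _ _).trans (add_le_add_right (h.up_bad hs hk hϖ hp hp') _)
    · refine (upc_fb_le h hn k).trans ?_
      exact le_add_left (le_add_left le_rfl)
  refine (Finset.sum_le_sum hbad).trans ?_
  rw [Finset.sum_add_distrib, Finset.sum_add_distrib, Finset.sum_const, Finset.card_range,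
    nsmul_eq_mul]
  refine add_le_add_right (add_le_add_right ?_ _) _
  have h2 : ∀ k ∈ Finset.range n, (if (k : ℝ) + 1 + s ≤ n then (0 : ℝ≥0∞) else n * EV μ 1 1 1) ≤
      if n - ⌈s⌉₊ ≤ k then n * EV μ 1 1 1 else 0 := by
    intro k _
    split_ifs with h3 h4 h4
    · exact zero_le
    · exact le_rfl
    · exact le_rfl
    · exfalso
      apply h3
      have h5 : (k : ℝ) + 1 + ⌈s⌉₊ ≤ n := by
        have : k + 1 + ⌈s⌉₊ ≤ n := by omega
        exact_mod_cast this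
      have h6 : (s : ℝ) ≤ ⌈s⌉₊ := by exact_mod_cast Nat.le_ceil s
      linarith
  refine (Finset.sum_le_sum h2).trans ?_
  rw [← Finset.sum_filter, Finset.sum_const, nsmul_eq_mul]
  refine mul_le_mul_left ?_ _
  have h7 : (Finset.range n).filter (fun k => n - ⌈s⌉₊ ≤ k) ⊆ Finset.Ico (n - ⌈s⌉₊) n := by
    intro k hk
    rw [Finset.mem_filter, Finset.mem_range] at hk
    exact Finset.mem_Ico.mpr ⟨hk.2, hk.1⟩
  have h8 := Finset.card_le_card h7
  rw [Nat.card_Ico] at h8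
  exact_mod_cast h8.trans (by omega)

end WSP
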